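import Pool.Agent.RRG.Basic

/-!
# Regime A: the union bound (common part of A1 and A2)
-/

open Finset Filter Topology
open scoped Classical

namespace Pool.Agent.RRG.A0

theorem card_filter_any {α : Type} (s : Finset α) (p q : α → Prop) (i1 : DecidablePred p)
    (i2 : DecidablePred q) (h : ∀ x ∈ s, (p x ↔ q x)) :
    (@Finset.filter α p i1 s).card = (@Finset.filter α q i2 s).card := by
  have : @Finset.filter α p i1 s = @Finset.filter α q i2 s := by
    apply Finset.ext
    intro x
    constructor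
    · intro hx
      have h1 := (@Finset.mem_filter α p i1 s x).mp hx
      exact (@Finset.mem_filter α q i2 s x).mpr ⟨h1.1, (h x h1.1).mp h1.2⟩
    · intro hx
      have h1 := (@Finset.mem_filter α q i2 s x).mp hx
      exact (@Finset.mem_filter α p i1 s x).mpr ⟨h1.1, (h x h1.1).mpr h1.2⟩
  rw [this]

/-- pairwise disjoint families -/
def PD {α β : Type} (E : α → Finset β) (J : Finset α) : Prop :=
  ∀ x ∈ J, ∀ y ∈ J, x ≠ y → Disjoint (E x) (E y)

/-- greedy choice of disjoint configurations -/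
theorem greedy {α β : Type} (X : Finset α) (E : α → Finset β) (r D : ℕ)
    (hr : ∀ x ∈ X, (E x).card ≤ r) (hne : ∀ x ∈ X, (E x).Nonempty)
    (hD : ∀ e, (X.filter fun x => e ∈ E x).card ≤ D) :
    ∃ J ⊆ X, (∀ x ∈ J, ∀ y ∈ J, x ≠ y → Disjoint (E x) (E y)) ∧ X.card ≤ J.card * (r * D) := by
  set F := X.powerset.filter (fun J => PD E J) with hFdef
  have hF : F.Nonempty := ⟨∅, by
    rw [hFdef, mem_filter, mem_powerset]
    exact ⟨empty_subset _, fun x hx => absurd hx (notMem_empty x)⟩⟩
  obtain ⟨J, hJ, hmax⟩ := F.exists_max_image card hF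
  rw [hFdef, mem_filter, mem_powerset] at hJ
  refine ⟨J, hJ.1, hJ.2, ?_⟩
  have hcover : X ⊆ (J.biUnion E).biUnion (fun e => X.filter fun x => e ∈ E x) := by
    intro x hx
    by_contra hcon
    have hdis : ∀ y ∈ J, Disjoint (E x) (E y) := by
      intro y hy
      rw [Finset.disjoint_left]
      intro e he he'
      apply hcon
      rw [mem_biUnion]
      exact ⟨e, mem_biUnion.mpr ⟨y, hy, he'⟩, mem_filter.mpr ⟨hx, he⟩⟩
    have hxJ : x ∉ J := fun h => by
      have h1 := hdis x h
      obtain ⟨e, he⟩ := hne x hx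
      exact (Finset.disjoint_left.mp h1 he) he
    have hins : insert x J ∈ F := by
      rw [hFdef, mem_filter, mem_powerset]
      refine ⟨insert_subset hx hJ.1, ?_⟩
      intro a ha b hb hab
      rw [mem_insert] at ha hb
      rcases ha with rfl | ha
      · rcases hb with rfl | hb
        · exact absurd rfl hab
        · exact hdis b hb
      · rcases hb with rfl | hb
        · exact (hdis a ha).symm
        · exact hJ.2 a ha b hb hab
    have h2 := hmax (insert x J) hins
    rw [card_insert_of_notMem hxJ] at h2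
    omega
  calc X.card ≤ _ := card_le_card hcover
    _ ≤ (J.biUnion E).card * D := card_biUnion_le_card_mul _ _ _ (fun e _ => hD e)
    _ ≤ (J.card * r) * D :=
      Nat.mul_le_mul_right _ (card_biUnion_le_card_mul _ _ _ (fun x hx => hr x (hJ.1 hx)))
    _ = _ := by ring

/-! ### stars -/

/-- the star with centre `y` and leaves `L` -/
def star {n : ℕ} (y : Fin n) (L : Finset (Fin n)) : Finset (Sym2 (Fin n)) :=
  L.image (fun a => s(a, y))

theorem card_star {n : ℕ} (y : Fin n) (L : Finset (Fin n)) : (star y L).card = L.card := by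
  unfold star
  apply card_image_of_injective
  intro a b h
  exact Sym2.congr_left.mp h

theorem mem_star {n : ℕ} {y : Fin n} {L : Finset (Fin n)} {e : Sym2 (Fin n)} :
    e ∈ star y L ↔ ∃ a ∈ L, s(a, y) = e := by
  unfold star
  rw [mem_image]

theorem pair_card {n k : ℕ} (hk : 1 ≤ k) (L L' : Finset (Fin n)) (hL : L.card = k) (hL' : L'.card = k)
    (hne : L ≠ L') (w : ℝ) (hw0 : 0 ≤ w) (hw1 : w ≤ 1) (p : Fin n × Fin n) :
    w ^ ((star p.1 L ∪ star p.2 L').card) ≤
      w ^ (2 * k) + (if p.2 ∈ L ∧ p.1 ∈ L' then w ^ (2 * k - 1) else 0)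
        + (if p.1 = p.2 then w ^ (k + 1) else 0) := by
  have hp0 : ∀ j : ℕ, 0 ≤ w ^ j := fun j => pow_nonneg hw0 j
  have hs0 : (0 : ℝ) ≤ (if p.2 ∈ L ∧ p.1 ∈ L' then w ^ (2 * k - 1) else 0) := by
    split_ifs
    · exact hp0 _
    · exact le_rfl
  have ht0 : (0 : ℝ) ≤ (if p.1 = p.2 then w ^ (k + 1) else 0) := by
    split_ifs
    · exact hp0 _
    · exact le_rfl
  by_cases h1 : p.1 = p.2
  · rw [if_pos h1]
    have hcard : k + 1 ≤ (star p.1 L ∪ star p.2 L').card := by
      have : star p.1 L ∪ star p.2 L' = star p.1 (L ∪ L') := by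
        unfold star
        rw [image_union, h1]
      rw [this, card_star]
      by_contra hcon
      push Not at hcon
      have h2 : L.card ≤ (L ∪ L').card := card_le_card subset_union_left
      have h3 : (L ∪ L').card = k := by omega
      have h4 : L = L ∪ L' := eq_of_subset_of_card_le subset_union_left (by omega)
      have h5 : L' = L ∪ L' := eq_of_subset_of_card_le subset_union_right (by omega)
      exact hne (h4.trans h5.symm)
    have := pow_le_pow_of_le_one hw0 hw1 hcard
    linarith [hp0 (2 * k)]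
  · have hinter : (star p.1 L ∩ star p.2 L') ⊆ {s(p.1, p.2)} := by
      intro e he
      rw [mem_inter, mem_star, mem_star] at he
      obtain ⟨⟨a, ha, rfl⟩, b, hb, he⟩ := he
      rw [Sym2.eq_iff] at he
      rcases he with ⟨-, h2⟩ | ⟨-, h2⟩
      · exact absurd h2.symm h1
      · rw [mem_singleton, h2, Sym2.eq_swap]
    by_cases h2 : p.2 ∈ L ∧ p.1 ∈ L'
    · rw [if_pos h2]
      have hcard : 2 * k - 1 ≤ (star p.1 L ∪ star p.2 L').card := by
        have h3 := card_union_add_card_inter (star p.1 L) (star p.2 L')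
        rw [card_star, card_star, hL, hL'] at h3
        have h4 := card_le_card hinter
        rw [card_singleton] at h4
        omega
      have := pow_le_pow_of_le_one hw0 hw1 hcard
      linarith [hp0 (2 * k)]
    · have hempty : star p.1 L ∩ star p.2 L' = ∅ := by
        rw [eq_empty_iff_forall_notMem]
        intro e he
        rw [mem_inter, mem_star, mem_star] at he
        obtain ⟨⟨a, ha, rfl⟩, b, hb, he⟩ := he
        rw [Sym2.eq_iff] at he
        rcases he with ⟨-, h3⟩ | ⟨h4, h3⟩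
        · exact h1 h3.symm
        · apply h2
          rw [h3]
          rw [h4] at hb
          exact ⟨ha, hb⟩
      have hcard : (star p.1 L ∪ star p.2 L').card = 2 * k := by
        have h3 := card_union_add_card_inter (star p.1 L) (star p.2 L')
        rw [card_star, card_star, hL, hL', hempty, card_empty] at h3
        omega
      rw [hcard]
      linarith

theorem pair_sum {n k : ℕ} (hk : 1 ≤ k) (L L' : Finset (Fin n)) (hL : L.card = k) (hL' : L'.card = k)
    (hne : L ≠ L') (w : ℝ) (hw0 : 0 ≤ w) (hw1 : w ≤ 1) :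
    ∑ p : Fin n × Fin n, w ^ ((star p.1 L ∪ star p.2 L').card) ≤
      (n : ℝ) ^ 2 * w ^ (2 * k) + (k : ℝ) ^ 2 * w ^ (2 * k - 1) + n * w ^ (k + 1) := by
  calc ∑ p : Fin n × Fin n, w ^ ((star p.1 L ∪ star p.2 L').card)
      ≤ ∑ p : Fin n × Fin n, (w ^ (2 * k) + (if p.2 ∈ L ∧ p.1 ∈ L' then w ^ (2 * k - 1) else 0)
        + (if p.1 = p.2 then w ^ (k + 1) else 0)) :=
        sum_le_sum fun p _ => pair_card hk L L' hL hL' hne w hw0 hw1 p
    _ = (n : ℝ) ^ 2 * w ^ (2 * k) + (k : ℝ) ^ 2 * w ^ (2 * k - 1) + n * w ^ (k + 1) := by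
      rw [sum_add_distrib, sum_add_distrib]
      congr 1
      · congr 1
        · rw [sum_const, card_univ, Fintype.card_prod, Fintype.card_fin, nsmul_eq_mul]
          push_cast
          ring
        · rw [← sum_filter, sum_const, nsmul_eq_mul]
          congr 1
          have : (univ.filter fun p : Fin n × Fin n => p.2 ∈ L ∧ p.1 ∈ L') = L' ×ˢ L := by
            ext p
            simp only [mem_filter, mem_univ, true_and, mem_product]
            tauto
          rw [this, card_product, hL, hL']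
          push_cast
          ring
      · rw [← sum_filter, sum_const, nsmul_eq_mul]
        congr 1
        have : (univ.filter fun p : Fin n × Fin n => p.1 = p.2) = univ.image (fun a : Fin n => (a, a)) := by
          ext p
          simp only [mem_filter, mem_univ, true_and, mem_image]
          constructor
          · intro h
            exact ⟨p.1, Prod.ext rfl h⟩
          · rintro ⟨a, rfl⟩
            rfl
        rw [this, card_image_of_injective _ (fun a b h => congrArg Prod.fst h), card_univ,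
          Fintype.card_fin]

/-! ### the family of configurations -/

/-- data: for every leaf a list of candidates and their images -/
abbrev Dat (n d k : ℕ) : Type := Fin k → Fin d → Fin n × Fin n

/-- indices of configurations -/
abbrev Idx (n d k : ℕ) : Type := (Fin k → Fin d) × (Fin n × Fin n)

def lf {n d k : ℕ} (t : Dat n d k) (i : Fin k → Fin d) : Fin k → Fin n := fun j => (t j (i j)).1

def lf' {n d k : ℕ} (t : Dat n d k) (i : Fin k → Fin d) : Fin k → Fin n := fun j => (t j (i j)).2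

/-- the edge set of a configuration -/
noncomputable def cE {n d k : ℕ} (t : Dat n d k) (i : Idx n d k) : Finset (Sym2 (Fin n)) :=
  star i.2.1 (univ.image (lf t i.1)) ∪ star i.2.2 (univ.image (lf' t i.1))

/-- the admissible configurations -/
noncomputable def cI {n d k : ℕ} (t : Dat n d k) : Finset (Idx n d k) :=
  univ.filter fun i => Function.Injective (lf t i.1) ∧ Function.Injective (lf' t i.1) ∧
    univ.image (lf t i.1) ≠ univ.image (lf' t i.1) ∧
    i.2.1 ∉ univ.image (lf t i.1) ∧ i.2.2 ∉ univ.image (lf' t i.1)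

/-- `m` disjoint configurations in `G` -/
def BadJ {n d k : ℕ} (m : ℕ) (G : Gr n) (t : Dat n d k) : Prop :=
  ∃ J ⊆ cI t, J.card = m ∧ (∀ i ∈ J, ∀ j ∈ J, i ≠ j → Disjoint (cE t i) (cE t j)) ∧
    ∀ i ∈ J, cE t i ⊆ ed G

theorem card_cE {n d k : ℕ} (t : Dat n d k) (i : Idx n d k) : (cE t i).card ≤ 2 * k := by
  unfold cE
  refine (card_union_le _ _).trans ?_
  rw [card_star, card_star]
  have h1 : (univ.image (lf t i.1)).card ≤ k := by
    refine card_image_le.trans ?_
    rw [card_univ, Fintype.card_fin]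
  have h2 : (univ.image (lf' t i.1)).card ≤ k := by
    refine card_image_le.trans ?_
    rw [card_univ, Fintype.card_fin]
  omega

theorem cE_not_diag {n d k : ℕ} (t : Dat n d k) (i : Idx n d k) (hi : i ∈ cI t) :
    ∀ e ∈ cE t i, ¬ e.IsDiag := by
  intro e he
  unfold cI at hi
  rw [mem_filter] at hi
  obtain ⟨-, -, -, -, h1, h2⟩ := hi
  unfold cE at he
  rw [mem_union, mem_star, mem_star] at he
  rcases he with ⟨a, ha, rfl⟩ | ⟨a, ha, rfl⟩
  · rw [Sym2.mk_isDiag_iff]
    rintro rfl
    exact h1 ha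
  · rw [Sym2.mk_isDiag_iff]
    rintro rfl
    exact h2 ha

theorem mu_le {n d k : ℕ} (hk : 1 ≤ k) (t : Dat n d k) (w : ℝ) (hw0 : 0 ≤ w) (hw1 : w ≤ 1) :
    ∑ i ∈ cI t, w ^ (cE t i).card ≤
      (d : ℝ) ^ k * ((n : ℝ) ^ 2 * w ^ (2 * k) + (k : ℝ) ^ 2 * w ^ (2 * k - 1) + n * w ^ (k + 1)) := by
  have hp0 : ∀ j : ℕ, 0 ≤ w ^ j := fun j => pow_nonneg hw0 j
  set B : ℝ := (n : ℝ) ^ 2 * w ^ (2 * k) + (k : ℝ) ^ 2 * w ^ (2 * k - 1) + n * w ^ (k + 1) with hB
  have hB0 : 0 ≤ B := by
    have h1 := hp0 (2 * k)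
    have h2 := hp0 (2 * k - 1)
    have h3 := hp0 (k + 1)
    positivity
  have hle : ∑ i ∈ cI t, w ^ (cE t i).card ≤ ∑ i : Fin k → Fin d, B := by
    have h1 : ∑ i ∈ cI t, w ^ (cE t i).card =
        ∑ i : Idx n d k, (if i ∈ cI t then w ^ (cE t i).card else 0) := by
      rw [← sum_filter, filter_mem_eq_inter, univ_inter]
    rw [h1, Fintype.sum_prod_type]
    apply sum_le_sum
    intro i _
    by_cases hi : Function.Injective (lf t i) ∧ Function.Injective (lf' t i) ∧
        univ.image (lf t i) ≠ univ.image (lf' t i)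
    · have hcL : (univ.image (lf t i)).card = k := by
        rw [card_image_of_injective _ hi.1, card_univ, Fintype.card_fin]
      have hcL' : (univ.image (lf' t i)).card = k := by
        rw [card_image_of_injective _ hi.2.1, card_univ, Fintype.card_fin]
      refine le_trans ?_ (pair_sum hk _ _ hcL hcL' hi.2.2 w hw0 hw1)
      apply sum_le_sum
      intro p _
      split_ifs
      · exact le_rfl
      · exact hp0 _
    · have : ∀ p : Fin n × Fin n, (i, p) ∉ cI t := by
        intro p hp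
        unfold cI at hp
        rw [mem_filter] at hp
        exact hi ⟨hp.2.1, hp.2.2.1, hp.2.2.2.1⟩
      simp only [this, if_false, sum_const_zero]
      exact hB0
  refine hle.trans ?_
  rw [sum_const, card_univ, Fintype.card_fun, Fintype.card_fin, Fintype.card_fin, nsmul_eq_mul]
  push_cast
  exact le_rfl

theorem union_bound (hDO : Stmt_DO) {n d k m : ℕ} (hk : 1 ≤ k) (hn : 64 ≤ n) (hd : 64 * d ≤ n)
    (hm : 32 * (m * (2 * k)) ≤ n * d) :
    (((Reg n d).filter fun G => ∃ t : Dat n d k, BadJ m G t).card : ℝ) * (m.factorial : ℝ) ≤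
      (n : ℝ) ^ (2 * k * d) * ((d : ℝ) ^ k * ((n : ℝ) ^ 2 * (2 * (d : ℝ) / n) ^ (2 * k)
        + (k : ℝ) ^ 2 * (2 * (d : ℝ) / n) ^ (2 * k - 1) + n * (2 * (d : ℝ) / n) ^ (k + 1))) ^ m
        * (Reg n d).card := by
  have hn0 : (0 : ℝ) < n := by
    have : 0 < n := by omega
    exact_mod_cast this
  set w : ℝ := 2 * (d : ℝ) / n with hw
  have hw0 : 0 ≤ w := by positivity
  have hw1 : w ≤ 1 := by
    rw [hw, div_le_one hn0]
    have : 2 * d ≤ n := by omega
    exact_mod_cast this
  set M : ℝ := (d : ℝ) ^ k * ((n : ℝ) ^ 2 * w ^ (2 * k)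
        + (k : ℝ) ^ 2 * w ^ (2 * k - 1) + n * w ^ (k + 1)) with hM
  have hM0 : 0 ≤ M := by
    have h1 : 0 ≤ w ^ (2 * k) := pow_nonneg hw0 _
    have h2 : 0 ≤ w ^ (2 * k - 1) := pow_nonneg hw0 _
    have h3 : 0 ≤ w ^ (k + 1) := pow_nonneg hw0 _
    positivity
  have hone : ∀ t : Dat n d k,
      (((Reg n d).filter fun G => BadJ m G t).card : ℝ) * (m.factorial : ℝ) ≤
        M ^ m * (Reg n d).card := by
    intro t
    have h := hDO n d hn hd ∅ ∅ (by simp) (Idx n d k) (cI t) (cE t) m (2 * k) (by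
      intro i hi
      refine ⟨card_cE t i, ?_⟩
      intro e he
      refine ⟨by simp, cE_not_diag t i hi e he, ?_⟩
      intro x _
      simp) hm
    have e1 : ∀ G ∈ Reg n d, ((ed G ∩ ∅ = ∅ ∧ ∃ J ⊆ cI t, J.card = m ∧
        (∀ i ∈ J, ∀ j ∈ J, i ≠ j → Disjoint (cE t i) (cE t j)) ∧ ∀ i ∈ J, cE t i ⊆ ed G) ↔
        BadJ m G t) := by
      intro G _
      unfold BadJ
      simp only [inter_empty, true_and]
    have e2 : ((Reg n d).filter fun G => ed G ∩ ∅ = ∅) = Reg n d := by
      apply filter_true_of_mem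
      intro G _
      simp
    rw [card_filter_any (Reg n d) _ (fun G => BadJ m G t) _ _ e1, e2] at h
    refine h.trans ?_
    apply mul_le_mul_of_nonneg_right _ (by positivity)
    apply pow_le_pow_left₀
    · exact sum_nonneg fun i _ => pow_nonneg hw0 _
    · exact mu_le hk t w hw0 hw1
  have hsub : ((Reg n d).filter fun G => ∃ t : Dat n d k, BadJ m G t) ⊆
      (univ : Finset (Dat n d k)).biUnion (fun t => (Reg n d).filter fun G => BadJ m G t) := by
    intro G hG
    rw [mem_filter] at hG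
    obtain ⟨h1, t, ht⟩ := hG
    rw [mem_biUnion]
    exact ⟨t, mem_univ _, mem_filter.mpr ⟨h1, ht⟩⟩
  have hcard : (((Reg n d).filter fun G => ∃ t : Dat n d k, BadJ m G t).card : ℝ) ≤
      ∑ t : Dat n d k, (((Reg n d).filter fun G => BadJ m G t).card : ℝ) := by
    have := (card_le_card hsub).trans card_biUnion_le
    exact_mod_cast this
  calc (((Reg n d).filter fun G => ∃ t : Dat n d k, BadJ m G t).card : ℝ) * (m.factorial : ℝ)
      ≤ (∑ t : Dat n d k, (((Reg n d).filter fun G => BadJ m G t).card : ℝ)) * (m.factorial : ℝ) :=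
        mul_le_mul_of_nonneg_right hcard (by positivity)
    _ = ∑ t : Dat n d k, (((Reg n d).filter fun G => BadJ m G t).card : ℝ) * (m.factorial : ℝ) := by
        rw [sum_mul]
    _ ≤ ∑ t : Dat n d k, M ^ m * (Reg n d).card := sum_le_sum fun t _ => hone t
    _ = (n : ℝ) ^ (2 * k * d) * M ^ m * (Reg n d).card := by
        rw [sum_const, card_univ, nsmul_eq_mul]
        have : Fintype.card (Dat n d k) = n ^ (2 * k * d) := by
          rw [Fintype.card_fun, Fintype.card_fun, Fintype.card_prod, Fintype.card_fin,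
            Fintype.card_fin, Fintype.card_fin, ← pow_two, ← pow_mul, ← pow_mul]
          congr 1
          ring
        rw [this]
        push_cast
        ring

/-! ### counting tuples -/

/-- tuples with a given leaf and a given centre -/
noncomputable def Cf {n k : ℕ} (G : Gr n) (c : Fin k → Fin n) (j : Fin k) (x y : Fin n) :
    Finset (Fin k → Fin n) :=
  univ.filter fun τ => τ j = x ∧ (∀ i, y ≠ c i) ∧ ∀ i, i ≠ j → G.Adj (c i) (τ i) ∧ G.Adj (τ i) y

theorem card_Cf {n k K : ℕ} {G : Gr n} (hT : T1 K G) (c : Fin k → Fin n) (j : Fin k) (x y : Fin n) :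
    (Cf G c j x y).card ≤ K ^ (k - 1) := by
  by_cases hy : ∀ i, y ≠ c i
  · have hsub : Cf G c j x y ⊆ Fintype.piFinset (fun i : Fin k => if i = j then {x} else nb G y ∩ nb G (c i)) := by
      intro τ hτ
      unfold Cf at hτ
      rw [mem_filter] at hτ
      obtain ⟨-, h1, -, h2⟩ := hτ
      rw [Fintype.mem_piFinset]
      intro i
      by_cases hi : i = j
      · rw [if_pos hi, mem_singleton, hi, h1]
      · rw [if_neg hi, mem_inter, mem_nb, mem_nb]
        exact ⟨(h2 i hi).2.symm, (h2 i hi).1⟩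
    refine (card_le_card hsub).trans ?_
    rw [Fintype.card_piFinset]
    calc ∏ i : Fin k, (if i = j then ({x} : Finset (Fin n)) else nb G y ∩ nb G (c i)).card
        ≤ ∏ i : Fin k, (if i = j then 1 else K) := by
          apply Finset.prod_le_prod
          · intro i _
            exact Nat.zero_le _
          · intro i _
            by_cases hi : i = j
            · rw [if_pos hi, if_pos hi, card_singleton]
            · rw [if_neg hi, if_neg hi]
              exact hT y (c i) (hy i)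
      _ = K ^ (k - 1) := by
          rw [prod_ite, prod_const_one, one_mul, prod_const]
          congr 1
          rw [filter_ne', card_erase_of_mem (mem_univ _), card_univ, Fintype.card_fin]
  · have : Cf G c j x y = ∅ := by
      unfold Cf
      rw [filter_eq_empty_iff]
      intro τ _ h
      exact hy h.2.1
    rw [this, card_empty]
    exact Nat.zero_le _

/-- star tuples with roots `c` -/
def St {n k : ℕ} (G : Gr n) (c τ : Fin k → Fin n) : Prop :=
  (∀ j, G.Adj (c j) (τ j)) ∧ (∀ i j, τ i ≠ c j) ∧ Function.Injective τ ∧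
    ∃ y, (∀ j, y ≠ c j) ∧ ∀ j, G.Adj (τ j) y

/-- trivial tuples -/
def Tr {n k : ℕ} (ψ : Equiv.Perm (Fin n)) (τ : Fin k → Fin n) : Prop :=
  univ.image τ = univ.image (ψ ∘ τ)

theorem trivial_count {n d k K : ℕ} {G : Gr n} (hG : G ∈ Reg n d) (hT : T1 K G)
    (c : Fin k → Fin n) (ψ : Equiv.Perm (Fin n)) (j₀ : Fin k) (hj₀ : ψ (c j₀) ≠ c j₀)
    (hadj : ∀ j x, G.Adj (c j) x ↔ G.Adj (ψ (c j)) (ψ x)) :
    ((univ.filter (St G c)).filter (fun τ => Tr ψ τ)).card
      ≤ k * (d * K ^ k) := by
  have hk : 1 ≤ k := by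
    have := j₀.isLt
    omega
  have hKk : K * K ^ (k - 1) = K ^ k := by
    rw [← pow_succ']
    congr 1
    omega
  rw [mem_Reg] at hG
  -- the sets for a given `i`
  have hB : ∀ i : Fin k, ((univ.filter (St G c)).filter (fun τ => τ i = ψ (τ j₀))).card ≤ d * K ^ k := by
    intro i
    by_cases hi : c i = c j₀
    · -- `ψ (τ j₀)` is a common neighbour of `c j₀` and `ψ (c j₀)`
      have hsub : ((univ.filter (St G c)).filter (fun τ => τ i = ψ (τ j₀))) ⊆
          ((nb G (ψ (c j₀)) ∩ nb G (c j₀)).image ψ.symm).biUnion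
            (fun x => (nb G x).biUnion (fun y => Cf G c j₀ x y)) := by
        intro τ hτ
        rw [mem_filter, mem_filter] at hτ
        obtain ⟨⟨-, h1, -, -, y, h2, h3⟩, h4⟩ := hτ
        rw [mem_biUnion]
        refine ⟨τ j₀, ?_, ?_⟩
        · rw [mem_image]
          refine ⟨ψ (τ j₀), ?_, by simp⟩
          rw [mem_inter, mem_nb, mem_nb]
          refine ⟨(hadj j₀ (τ j₀)).mp (h1 j₀), ?_⟩
          rw [← h4, ← hi]
          exact h1 i
        · rw [mem_biUnion]
          refine ⟨y, mem_nb.mpr (h3 j₀), ?_⟩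
          unfold Cf
          rw [mem_filter]
          exact ⟨mem_univ _, rfl, h2, fun i' _ => ⟨h1 i', h3 i'⟩⟩
      refine (card_le_card hsub).trans ?_
      have h5 : ((nb G (ψ (c j₀)) ∩ nb G (c j₀)).image ψ.symm).card ≤ K :=
        card_image_le.trans (hT _ _ hj₀)
      calc _ ≤ ((nb G (ψ (c j₀)) ∩ nb G (c j₀)).image ψ.symm).card * (d * K ^ (k - 1)) := by
            apply card_biUnion_le_card_mul
            intro x _
            refine (card_biUnion_le_card_mul _ _ _ (fun y _ => card_Cf hT c j₀ x y)).trans ?_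
            rw [hG x]
        _ ≤ K * (d * K ^ (k - 1)) := Nat.mul_le_mul_right _ h5
        _ = d * K ^ k := by rw [← hKk]; ring
    · have hij : i ≠ j₀ := fun h => hi (by rw [h])
      have hsub : ((univ.filter (St G c)).filter (fun τ => τ i = ψ (τ j₀))) ⊆
          ((nb G (c j₀)).filter fun x => x ≠ ψ x).biUnion
            (fun x => (nb G x ∩ nb G (ψ x)).biUnion (fun y => Cf G c j₀ x y)) := by
        intro τ hτ
        rw [mem_filter, mem_filter] at hτ
        obtain ⟨⟨-, h1, -, hinj, y, h2, h3⟩, h4⟩ := hτ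
        rw [mem_biUnion]
        refine ⟨τ j₀, ?_, ?_⟩
        · rw [mem_filter, mem_nb]
          refine ⟨h1 j₀, ?_⟩
          rw [← h4]
          intro h5
          exact hij (hinj h5).symm
        · rw [mem_biUnion]
          refine ⟨y, ?_, ?_⟩
          · rw [mem_inter, mem_nb, mem_nb]
            refine ⟨h3 j₀, ?_⟩
            rw [← h4]
            exact h3 i
          · unfold Cf
            rw [mem_filter]
            exact ⟨mem_univ _, rfl, h2, fun i' _ => ⟨h1 i', h3 i'⟩⟩
      refine (card_le_card hsub).trans ?_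
      have h5 : ((nb G (c j₀)).filter fun x => x ≠ ψ x).card ≤ d :=
        (card_filter_le _ _).trans (hG _).le
      calc _ ≤ ((nb G (c j₀)).filter fun x => x ≠ ψ x).card * (K * K ^ (k - 1)) := by
            apply card_biUnion_le_card_mul
            intro x hx
            rw [mem_filter] at hx
            refine (card_biUnion_le_card_mul _ _ _ (fun y _ => card_Cf hT c j₀ x y)).trans ?_
            exact Nat.mul_le_mul_right _ (hT x (ψ x) hx.2)
        _ ≤ d * (K * K ^ (k - 1)) := Nat.mul_le_mul_right _ h5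
        _ = d * K ^ k := by rw [hKk]
  have hsub : ((univ.filter (St G c)).filter (fun τ => Tr ψ τ)) ⊆
      (univ : Finset (Fin k)).biUnion
        (fun i => ((univ.filter (St G c)).filter (fun τ => τ i = ψ (τ j₀)))) := by
    intro τ hτ
    rw [mem_filter] at hτ
    have h1 : ψ (τ j₀) ∈ univ.image τ := by
      have h0 : univ.image τ = univ.image (ψ ∘ τ) := hτ.2
      rw [h0, mem_image]
      exact ⟨j₀, mem_univ _, rfl⟩
    rw [mem_image] at h1
    obtain ⟨i, -, hi⟩ := h1
    rw [mem_biUnion]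
    exact ⟨i, mem_univ _, mem_filter.mpr ⟨hτ.1, hi⟩⟩
  refine (card_le_card hsub).trans ?_
  refine (card_biUnion_le_card_mul _ _ _ (fun i _ => hB i)).trans ?_
  rw [card_univ, Fintype.card_fin]

theorem conflict_count {n k K : ℕ} {G : Gr n} (hT : T1 K G)
    (c : Fin k → Fin n) (ψ : Equiv.Perm (Fin n)) (X : Finset (Fin k → Fin n))
    (y y' : (Fin k → Fin n) → Fin n)
    (hX : ∀ τ ∈ X, (∀ j, G.Adj (c j) (τ j)) ∧ (∀ j, y τ ≠ c j) ∧ (∀ j, G.Adj (τ j) (y τ)) ∧
      (∀ j, G.Adj (ψ (c j)) (ψ (τ j))) ∧ (∀ j, y' τ ≠ ψ (c j)) ∧ (∀ j, G.Adj (ψ (τ j)) (y' τ)))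
    (e : Sym2 (Fin n)) :
    (X.filter fun τ => e ∈ star (y τ) (univ.image τ) ∪ star (y' τ) (univ.image (ψ ∘ τ))).card
      ≤ 4 * k * K ^ (k - 1) := by
  induction e using Sym2.ind with
  | _ p q =>
    -- pull back of `Cf` under `ψ`
    have hpull : ∀ j a b, ((univ : Finset (Fin k → Fin n)).filter
        (fun τ => (ψ ∘ τ) ∈ Cf G (ψ ∘ c) j a b)).card ≤ K ^ (k - 1) := by
      intro j a b
      refine le_trans ?_ (card_Cf hT (ψ ∘ c) j a b)
      apply card_le_card_of_injOn (fun τ => ψ ∘ τ)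
      · intro τ hτ
        rw [mem_coe, mem_filter] at hτ
        exact hτ.2
      · intro τ _ τ' _ h
        funext i
        exact ψ.injective (congrFun h i)
    have hsub : (X.filter fun τ => s(p, q) ∈ star (y τ) (univ.image τ) ∪ star (y' τ) (univ.image (ψ ∘ τ))) ⊆
        (univ : Finset (Fin k)).biUnion (fun j => (Cf G c j p q ∪ Cf G c j q p) ∪
          ((univ : Finset (Fin k → Fin n)).filter (fun τ => (ψ ∘ τ) ∈ Cf G (ψ ∘ c) j p q) ∪
          (univ : Finset (Fin k → Fin n)).filter (fun τ => (ψ ∘ τ) ∈ Cf G (ψ ∘ c) j q p))) := by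
      intro τ hτ
      rw [mem_filter] at hτ
      obtain ⟨hτX, he⟩ := hτ
      obtain ⟨h1, h2, h3, h4, h5, h6⟩ := hX τ hτX
      rw [mem_biUnion]
      have hC : ∀ j, τ ∈ Cf G c j (τ j) (y τ) := by
        intro j
        unfold Cf
        rw [mem_filter]
        exact ⟨mem_univ _, rfl, h2, fun i _ => ⟨h1 i, h3 i⟩⟩
      have hC' : ∀ j, (ψ ∘ τ) ∈ Cf G (ψ ∘ c) j (ψ (τ j)) (y' τ) := by
        intro j
        unfold Cf
        rw [mem_filter]
        exact ⟨mem_univ _, rfl, h5, fun i _ => ⟨h4 i, h6 i⟩⟩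
      rw [mem_union, mem_star, mem_star] at he
      rcases he with ⟨a, ha, he⟩ | ⟨a, ha, he⟩
      · rw [mem_image] at ha
        obtain ⟨j, -, rfl⟩ := ha
        refine ⟨j, mem_univ _, ?_⟩
        rw [mem_union, mem_union]
        left
        rw [Sym2.eq_iff] at he
        rcases he with ⟨e1, e2⟩ | ⟨e1, e2⟩
        · left
          have := hC j
          rwa [e1, e2] at this
        · right
          have := hC j
          rwa [e1, e2] at this
      · rw [mem_image] at ha
        obtain ⟨j, -, rfl⟩ := ha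
        refine ⟨j, mem_univ _, ?_⟩
        rw [mem_union, mem_union, mem_union, mem_filter, mem_filter]
        right
        simp only [Function.comp] at he
        rw [Sym2.eq_iff] at he
        rcases he with ⟨e1, e2⟩ | ⟨e1, e2⟩
        · left
          refine ⟨mem_univ _, ?_⟩
          have := hC' j
          rwa [e1, e2] at this
        · right
          refine ⟨mem_univ _, ?_⟩
          have := hC' j
          rwa [e1, e2] at this
    refine (card_le_card hsub).trans ?_
    refine (card_biUnion_le_card_mul _ _ (4 * K ^ (k - 1)) (fun j _ => ?_)).trans ?_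
    · refine (card_union_le _ _).trans ?_
      have h1 := (card_union_le (Cf G c j p q) (Cf G c j q p)).trans
        (Nat.add_le_add (card_Cf hT c j p q) (card_Cf hT c j q p))
      have h2 := (card_union_le ((univ : Finset (Fin k → Fin n)).filter
        (fun τ => (ψ ∘ τ) ∈ Cf G (ψ ∘ c) j p q)) ((univ : Finset (Fin k → Fin n)).filter
        (fun τ => (ψ ∘ τ) ∈ Cf G (ψ ∘ c) j q p))).trans
        (Nat.add_le_add (hpull j p q) (hpull j q p))
      omega
    · rw [card_univ, Fintype.card_fin]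
      apply le_of_eq
      ring

theorem extract {n d k K m : ℕ} {G : Gr n} (hG : G ∈ Reg n d) (hT : T1 K G) (hK : 1 ≤ K)
    (c : Fin k → Fin n) (ψ : Equiv.Perm (Fin n)) (j₀ : Fin k) (hj₀ : ψ (c j₀) ≠ c j₀)
    (hadj : ∀ j x, G.Adj (c j) x ↔ G.Adj (ψ (c j)) (ψ x))
    (hst : ∀ τ, St G c τ → St G (ψ ∘ c) (ψ ∘ τ))
    (hm : k * (d * K ^ k) + m * (8 * k ^ 2 * K ^ (k - 1)) ≤ (univ.filter (St G c)).card) :
    ∃ t : Dat n d k, BadJ m G t := by
  have hk : 1 ≤ k := by
    have := j₀.isLt
    omega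
  -- the nontrivial tuples
  set X := (univ.filter (St G c)).filter (fun τ => ¬ Tr ψ τ) with hXdef
  have hXcard : m * (8 * k ^ 2 * K ^ (k - 1)) ≤ X.card := by
    have h1 := trivial_count hG hT c ψ j₀ hj₀ hadj
    have h2 := card_filter_add_card_filter_not (s := univ.filter (St G c))
      (fun τ => Tr ψ τ)
    have h3 : X.card = _ := card_filter_any (univ.filter (St G c)) (fun τ => ¬ Tr ψ τ)
      (fun τ => ¬ Tr ψ τ) _ (fun a => instDecidableNot) (fun _ _ => Iff.rfl)
    rw [← h3] at h2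
    omega
  have hXst : ∀ τ ∈ X, St G c τ := fun τ hτ => by
    rw [hXdef, mem_filter, mem_filter] at hτ
    exact hτ.1.2
  have hXne : ∀ τ ∈ X, univ.image τ ≠ univ.image (ψ ∘ τ) := fun τ hτ => by
    rw [hXdef, mem_filter] at hτ
    exact hτ.2
  -- choose the centres
  have hex : ∀ τ : Fin k → Fin n, ∃ y y' : Fin n, τ ∈ X →
      ((∀ j, y ≠ c j) ∧ ∀ j, G.Adj (τ j) y) ∧ ((∀ j, y' ≠ ψ (c j)) ∧ ∀ j, G.Adj (ψ (τ j)) y') := by
    intro τ
    by_cases hτ : τ ∈ X
    · obtain ⟨-, -, -, y, h1, h2⟩ := hXst τ hτ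
      obtain ⟨-, -, -, y', h3, h4⟩ := hst τ (hXst τ hτ)
      exact ⟨y, y', fun _ => ⟨⟨h1, h2⟩, h3, h4⟩⟩
    · exact ⟨τ j₀, τ j₀, fun h => absurd h hτ⟩
  choose y y' hy using hex
  set E : (Fin k → Fin n) → Finset (Sym2 (Fin n)) :=
    fun τ => star (y τ) (univ.image τ) ∪ star (y' τ) (univ.image (ψ ∘ τ)) with hE
  obtain ⟨J, hJX, hJd, hJc⟩ := greedy X E (2 * k) (4 * k * K ^ (k - 1))
    (by
      intro τ _
      refine (card_union_le _ _).trans ?_
      rw [card_star, card_star]
      have h1 : (univ.image τ).card ≤ k := by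
        refine card_image_le.trans ?_
        rw [card_univ, Fintype.card_fin]
      have h2 : (univ.image (ψ ∘ τ)).card ≤ k := by
        refine card_image_le.trans ?_
        rw [card_univ, Fintype.card_fin]
      omega)
    (by
      intro τ _
      refine ⟨s(τ j₀, y τ), ?_⟩
      rw [hE]
      simp only [mem_union, mem_star]
      exact Or.inl ⟨τ j₀, mem_image.mpr ⟨j₀, mem_univ _, rfl⟩, rfl⟩)
    (by
      intro e
      have h0 := conflict_count hT c ψ X y y' (by
        intro τ hτ
        have h1 := hXst τ hτ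
        have h2 := hst τ h1
        obtain ⟨⟨h3, h4⟩, h5, h6⟩ := hy τ hτ
        exact ⟨h1.1, h3, h4, h2.1, h5, h6⟩) e
      refine le_trans (le_of_eq ?_) h0
      exact card_filter_any X _ _ _ _ (fun τ _ => Iff.rfl))
  have hJm : m ≤ J.card := by
    have h1 : m * (8 * k ^ 2 * K ^ (k - 1)) ≤ J.card * (8 * k ^ 2 * K ^ (k - 1)) := by
      calc m * (8 * k ^ 2 * K ^ (k - 1)) ≤ X.card := hXcard
        _ ≤ J.card * (2 * k * (4 * k * K ^ (k - 1))) := hJc
        _ = J.card * (8 * k ^ 2 * K ^ (k - 1)) := by ring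
    have h2 : 0 < 8 * k ^ 2 * K ^ (k - 1) := by positivity
    exact Nat.le_of_mul_le_mul_right h1 h2
  obtain ⟨J', hJ'J, hJ'c⟩ := exists_subset_card_eq hJm
  -- the enumeration of the neighbourhoods
  rw [mem_Reg] at hG
  have henum : ∀ j : Fin k, ∃ f : Fin d → Fin n, ∀ x, G.Adj (c j) x → ∃ i, f i = x := by
    intro j
    have hc := hG (c j)
    let eq := (nb G (c j)).equivFinOfCardEq hc
    refine ⟨fun i => (eq.symm i : Fin n), ?_⟩
    intro x hx
    refine ⟨eq ⟨x, mem_nb.mpr hx⟩, ?_⟩
    simp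
  choose f hf using henum
  have hfi : ∀ τ : Fin k → Fin n, τ ∈ X → ∃ i : Fin k → Fin d, ∀ j, f j (i j) = τ j := by
    intro τ hτ
    have h1 : ∀ j, ∃ i, f j i = τ j := fun j => hf j (τ j) ((hXst τ hτ).1 j)
    choose i hi using h1
    exact ⟨i, hi⟩
  choose ix hix using hfi
  set t : Dat n d k := fun j i => (f j i, ψ (f j i)) with ht
  have hJ'X : ∀ τ ∈ J', τ ∈ X := fun τ h => hJX (hJ'J h)
  have hlf : ∀ τ (h : τ ∈ X), lf t (ix τ h) = τ := fun τ h => funext fun j => hix τ h j
  have hlf' : ∀ τ (h : τ ∈ X), lf' t (ix τ h) = ψ ∘ τ := fun τ h => funext fun j => by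
    show ψ (f j (ix τ h j)) = ψ (τ j)
    rw [hix τ h j]
  set g : {τ // τ ∈ J'} → Idx n d k :=
    fun τ => (ix τ.1 (hJ'X τ.1 τ.2), (y τ.1, y' τ.1)) with hg
  have hgE : ∀ τ : {τ // τ ∈ J'}, cE t (g τ) = E τ.1 := by
    intro τ
    show star (y τ.1) (univ.image (lf t (ix τ.1 (hJ'X τ.1 τ.2)))) ∪
      star (y' τ.1) (univ.image (lf' t (ix τ.1 (hJ'X τ.1 τ.2)))) = E τ.1
    rw [hlf, hlf']
  have hginj : Function.Injective g := by
    intro τ τ' h
    have h1 : ix τ.1 (hJ'X τ.1 τ.2) = ix τ'.1 (hJ'X τ'.1 τ'.2) := congrArg Prod.fst h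
    apply Subtype.ext
    rw [← hlf τ.1 (hJ'X τ.1 τ.2), h1, hlf]
  refine ⟨t, J'.attach.image g, ?_, ?_, ?_, ?_⟩
  · intro i hi
    rw [mem_image] at hi
    obtain ⟨τ, -, rfl⟩ := hi
    have hτX := hJ'X τ.1 τ.2
    have hSt := hXst τ.1 hτX
    obtain ⟨⟨-, h4⟩, -, h6⟩ := hy τ.1 hτX
    unfold cI
    rw [mem_filter]
    refine ⟨mem_univ _, ?_, ?_, ?_, ?_, ?_⟩
    · show Function.Injective (lf t (ix τ.1 hτX))
      rw [hlf]
      exact hSt.2.2.1
    · show Function.Injective (lf' t (ix τ.1 hτX))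
      rw [hlf']
      exact ψ.injective.comp hSt.2.2.1
    · show univ.image (lf t (ix τ.1 hτX)) ≠ univ.image (lf' t (ix τ.1 hτX))
      rw [hlf, hlf']
      exact hXne τ.1 hτX
    · show y τ.1 ∉ univ.image (lf t (ix τ.1 hτX))
      rw [hlf, mem_image]
      rintro ⟨j, -, hj⟩
      have := h4 j
      rw [hj] at this
      exact G.irrefl this
    · show y' τ.1 ∉ univ.image (lf' t (ix τ.1 hτX))
      rw [hlf', mem_image]
      rintro ⟨j, -, hj⟩
      have := h6 j
      simp only [Function.comp] at hj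
      rw [hj] at this
      exact G.irrefl this
  · rw [card_image_of_injective _ hginj, card_attach, hJ'c]
  · intro i hi j hj hij
    rw [mem_image] at hi hj
    obtain ⟨τ, -, rfl⟩ := hi
    obtain ⟨τ', -, rfl⟩ := hj
    rw [hgE, hgE]
    apply hJd τ.1 (hJ'J τ.2) τ'.1 (hJ'J τ'.2)
    intro h
    apply hij
    rw [Subtype.ext h]
  · intro i hi
    rw [mem_image] at hi
    obtain ⟨τ, -, rfl⟩ := hi
    have hτX := hJ'X τ.1 τ.2
    obtain ⟨⟨-, h4⟩, -, h6⟩ := hy τ.1 hτX
    rw [hgE]
    intro e he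
    rw [hE] at he
    simp only [mem_union, mem_star, mem_image, mem_univ, true_and] at he
    rcases he with ⟨a, ⟨j, rfl⟩, rfl⟩ | ⟨a, ⟨j, rfl⟩, rfl⟩
    · rw [mk_mem_ed]
      exact h4 j
    · rw [mk_mem_ed]
      exact h6 j

end Pool.Agent.RRG.A0
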