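import Pool.Agent.RRG.A0

/-!
# Regime A, part 1
-/

open Finset Filter Topology
open scoped Classical

namespace Pool.Agent.RRG.A0

theorem final_bound (hDO : Stmt_DO) {n d k m : ℕ} (hk : 1 ≤ k) (hk3 : k ≤ 3) (hn : 64 ≤ n)
    (hd : 64 * d ≤ n) (hd1 : 1 ≤ d) (hm : 32 * (m * (2 * k)) ≤ n * d) (hm4 : 400 * d ≤ m)
    (hμ : 3 * ((d : ℝ) ^ k * ((n : ℝ) ^ 2 * (2 * (d : ℝ) / n) ^ (2 * k)
        + (k : ℝ) ^ 2 * (2 * (d : ℝ) / n) ^ (2 * k - 1) + n * (2 * (d : ℝ) / n) ^ (k + 1)))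
        * (n : ℝ) ^ (0.02 : ℝ) ≤ m) :
    (((Reg n d).filter fun G => ∃ t : Dat n d k, BadJ m G t).card : ℝ) ≤
      (1 / (n : ℝ)) * (Reg n d).card := by
  have hn0 : (0 : ℝ) < n := by
    have : 0 < n := by omega
    exact_mod_cast this
  have hn1 : (1 : ℝ) ≤ n := by
    have : 1 ≤ n := by omega
    exact_mod_cast this
  have hm0 : (0 : ℝ) < m := by
    have : 0 < m := by omega
    exact_mod_cast this
  have h := union_bound hDO hk hn hd hm
  set M : ℝ := (d : ℝ) ^ k * ((n : ℝ) ^ 2 * (2 * (d : ℝ) / n) ^ (2 * k)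
        + (k : ℝ) ^ 2 * (2 * (d : ℝ) / n) ^ (2 * k - 1) + n * (2 * (d : ℝ) / n) ^ (k + 1)) with hM
  have hM0 : 0 ≤ M := by positivity
  set x : ℝ := (n : ℝ) ^ (0.02 : ℝ) with hx
  have hx0 : 0 < x := Real.rpow_pos_of_pos hn0 _
  set N : ℝ := (((Reg n d).filter fun G => ∃ t : Dat n d k, BadJ m G t).card : ℝ) with hN
  have hR0 : (0 : ℝ) ≤ (Reg n d).card := by positivity
  -- `M ^ m * x ^ m ≤ m!`
  have hMm : M ^ m * x ^ m ≤ (m.factorial : ℝ) := by
    have h1 : Real.exp 1 * (M * x) ≤ m := by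
      have h3 : Real.exp 1 ≤ 3 := by
        have := Real.exp_one_lt_d9
        linarith
      have : Real.exp 1 * (M * x) ≤ 3 * (M * x) :=
        mul_le_mul_of_nonneg_right h3 (by positivity)
      calc Real.exp 1 * (M * x) ≤ 3 * (M * x) := this
        _ = 3 * M * x := by ring
        _ ≤ m := hμ
    have h2 : (Real.exp 1 * (M * x)) ^ m ≤ (m : ℝ) ^ m :=
      pow_le_pow_left₀ (by positivity) h1 m
    have h3 : (m : ℝ) ^ m / (m.factorial : ℝ) ≤ Real.exp m := Real.pow_div_factorial_le_exp _ hm0.le m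
    have hf : (0 : ℝ) < (m.factorial : ℝ) := by exact_mod_cast Nat.factorial_pos m
    rw [div_le_iff₀ hf] at h3
    rw [mul_pow, ← Real.exp_nat_mul, mul_one] at h2
    have h4 : Real.exp m * (M * x) ^ m ≤ Real.exp m * (m.factorial : ℝ) := h2.trans h3
    have h5 := le_of_mul_le_mul_left h4 (Real.exp_pos _)
    rwa [mul_pow] at h5
  have hf : (0 : ℝ) < (m.factorial : ℝ) := by exact_mod_cast Nat.factorial_pos m
  have hxm : 0 < x ^ m := pow_pos hx0 m
  -- `N x^m ≤ n^{2kd} R`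
  have h6 : N * x ^ m ≤ (n : ℝ) ^ (2 * k * d) * (Reg n d).card := by
    have h7 : N * x ^ m * (m.factorial : ℝ) ≤
        (n : ℝ) ^ (2 * k * d) * (Reg n d).card * (m.factorial : ℝ) := by
      calc N * x ^ m * (m.factorial : ℝ) = (N * (m.factorial : ℝ)) * x ^ m := by ring
        _ ≤ ((n : ℝ) ^ (2 * k * d) * M ^ m * (Reg n d).card) * x ^ m :=
            mul_le_mul_of_nonneg_right h hxm.le
        _ = (n : ℝ) ^ (2 * k * d) * (Reg n d).card * (M ^ m * x ^ m) := by ring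
        _ ≤ (n : ℝ) ^ (2 * k * d) * (Reg n d).card * (m.factorial : ℝ) :=
            mul_le_mul_of_nonneg_left hMm (by positivity)
    exact le_of_mul_le_mul_right h7 hf
  -- `n * n^{2kd} ≤ x^m`
  have h8 : (n : ℝ) * (n : ℝ) ^ (2 * k * d) ≤ x ^ m := by
    have e1 : (n : ℝ) ^ (2 * k * d) = (n : ℝ) ^ ((2 * k * d : ℕ) : ℝ) :=
      (Real.rpow_natCast _ _).symm
    have e2 : ((n : ℝ) ^ (0.02 : ℝ)) ^ m = (n : ℝ) ^ ((0.02 : ℝ) * m) := by
      rw [← Real.rpow_natCast, ← Real.rpow_mul hn0.le]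
    rw [hx, e1, e2]
    nth_rewrite 1 [← Real.rpow_one (n : ℝ)]
    rw [← Real.rpow_add hn0]
    apply Real.rpow_le_rpow_of_exponent_le hn1
    have h9 : (400 : ℝ) * d ≤ m := by exact_mod_cast hm4
    have h10 : (1 : ℝ) ≤ d := by exact_mod_cast hd1
    have h11 : ((2 * k * d : ℕ) : ℝ) ≤ 6 * d := by
      have : 2 * k * d ≤ 6 * d := Nat.mul_le_mul_right d (by omega)
      exact_mod_cast this
    linarith
  have h12 : N * ((n : ℝ) * (n : ℝ) ^ (2 * k * d)) ≤ (n : ℝ) ^ (2 * k * d) * (Reg n d).card := by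
    refine le_trans (mul_le_mul_of_nonneg_left h8 ?_) h6
    rw [hN]
    positivity
  have hp : (0 : ℝ) < (n : ℝ) ^ (2 * k * d) := by positivity
  have h13 : N * n ≤ (Reg n d).card := by
    have : (n : ℝ) ^ (2 * k * d) * (N * n) ≤ (n : ℝ) ^ (2 * k * d) * (Reg n d).card := by
      calc (n : ℝ) ^ (2 * k * d) * (N * n) = N * ((n : ℝ) * (n : ℝ) ^ (2 * k * d)) := by ring
        _ ≤ _ := h12
    exact le_of_mul_le_mul_left this hp
  rw [one_div, inv_mul_eq_div, le_div_iff₀ hn0]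
  exact h13

end Pool.Agent.RRG.A0

namespace Pool.Agent.RRG

open A0

theorem star1_iff {n : ℕ} (G : Gr n) (v u a z : Fin n) :
    Star1 G v u a z ↔ St G ![v, u] ![a, z] := by
  unfold Star1 St
  constructor
  · rintro ⟨h1, h2, h3, h4, h5, y, h6, h7, h8, h9⟩
    refine ⟨?_, ?_, ?_, y, ?_, ?_⟩
    · intro j
      fin_cases j
      · exact h1
      · exact h3
    · intro i j
      fin_cases i <;> fin_cases j
      · exact h1.ne'
      · exact h2
      · exact h4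
      · exact h3.ne'
    · intro i j hij
      fin_cases i <;> fin_cases j
      · rfl
      · exact absurd hij h5
      · exact absurd hij.symm h5
      · rfl
    · intro j
      fin_cases j
      · exact h6
      · exact h7
    · intro j
      fin_cases j
      · exact h8
      · exact h9
  · rintro ⟨h1, h2, h3, y, h4, h5⟩
    refine ⟨h1 0, h2 0 1, h1 1, h2 1 0, ?_, y, h4 0, h4 1, h5 0, h5 1⟩
    intro h
    have : (0 : Fin 2) = 1 := h3 (by simpa using h)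
    exact absurd this (by decide)

theorem fp1_of {n d K m : ℕ} {c : ℝ} {G : Gr n} (hG : G ∈ Reg n d) (hT : T1 K G) (hK : 1 ≤ K)
    (hF : FiveLow c n d G)
    (hnum : (2 * (d * K ^ 2) + m * (32 * K) : ℝ) * K ≤ c * lam n d)
    (hbad : ¬ ∃ t : Dat n d 2, BadJ m G t) : FP1 G := by
  intro v u v' u' hvu hvu' hne ψ hψ hst
  apply hbad
  obtain ⟨hv, hu, hav, hau⟩ := hψ
  -- the number of star tuples
  have hcount : c * lam n d ≤ K * ((univ : Finset (Fin 2 → Fin n)).filter (St G ![v, u])).card := by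
    refine (hF v u hvu).trans ?_
    set Y := (univ : Finset (Fin n)).filter (fun y : Fin n =>
      y ≠ v ∧ y ≠ u ∧ ¬ G.Adj v y ∧ ¬ G.Adj u y ∧
      (∃ a, G.Adj v a ∧ a ≠ u ∧ ¬ G.Adj u a ∧ G.Adj a y) ∧
      (∃ z, G.Adj u z ∧ z ≠ v ∧ ¬ G.Adj v z ∧ G.Adj z y)) with hY
    have hex : ∀ y : Fin n, ∃ τ : Fin 2 → Fin n, y ∈ Y →
        (St G ![v, u] τ ∧ G.Adj (τ 0) y ∧ G.Adj (τ 1) y) := by
      intro y
      by_cases hy : y ∈ Y
      · have hy' := hy
        rw [hY, mem_filter] at hy'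
        obtain ⟨-, h1, h2, -, -, ⟨a, h3, h4, h5, h6⟩, z, h7, h8, h9, h10⟩ := hy'
        refine ⟨![a, z], fun _ => ⟨?_, h6, h10⟩⟩
        rw [← star1_iff]
        refine ⟨h3, h4, h7, h8, ?_, y, h1, h2, h6, h10⟩
        rintro rfl
        exact h9 h3
      · exact ⟨fun _ => y, fun h => absurd h hy⟩
    choose g hg using hex
    have hle : Y.card ≤ K * ((univ : Finset (Fin 2 → Fin n)).filter (St G ![v, u])).card := by
      apply card_le_mul_card_image_of_maps_to (f := g)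
      · intro y hy
        rw [mem_filter]
        exact ⟨mem_univ _, (hg y hy).1⟩
      · intro τ hτ
        rw [mem_filter] at hτ
        have hτ' := hτ.2.2.2.1
        refine le_trans (card_le_card ?_) (hT (τ 0) (τ 1) (fun h => absurd (hτ' h) (by decide)))
        intro y hy
        rw [mem_filter] at hy
        obtain ⟨h1, h2⟩ := hy
        rw [mem_inter, mem_nb, mem_nb, ← h2]
        exact (hg y h1).2
    calc (Y.card : ℝ) ≤ ((K * ((univ : Finset (Fin 2 → Fin n)).filter (St G ![v, u])).card : ℕ) : ℝ) := by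
          exact_mod_cast hle
      _ = _ := by push_cast; ring
  have hKr : (0 : ℝ) < K := by exact_mod_cast hK
  have hm' : 2 * (d * K ^ 2) + m * (8 * 2 ^ 2 * K ^ (2 - 1)) ≤
      ((univ : Finset (Fin 2 → Fin n)).filter (St G ![v, u])).card := by
    have h1 : (2 * (d * K ^ 2) + m * (32 * K) : ℝ) * K ≤
        (((univ : Finset (Fin 2 → Fin n)).filter (St G ![v, u])).card : ℝ) * K := by
      linarith
    have h2 := le_of_mul_le_mul_right h1 hKr
    have h3 : 2 * (d * K ^ 2) + m * (32 * K) ≤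
        ((univ : Finset (Fin 2 → Fin n)).filter (St G ![v, u])).card := by exact_mod_cast h2
    calc 2 * (d * K ^ 2) + m * (8 * 2 ^ 2 * K ^ (2 - 1)) = 2 * (d * K ^ 2) + m * (32 * K) := by
          norm_num
      _ ≤ _ := h3
  -- the index
  have hj : ∃ j₀ : Fin 2, ψ (![v, u] j₀) ≠ ![v, u] j₀ := by
    by_cases h : v = v'
    · refine ⟨1, ?_⟩
      show ψ u ≠ u
      rw [hu]
      intro h2
      exact hne (by rw [h, h2])
    · refine ⟨0, ?_⟩
      show ψ v ≠ v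
      rw [hv]
      exact fun h2 => h h2.symm
  obtain ⟨j₀, hj₀⟩ := hj
  apply extract hG hT hK ![v, u] ψ j₀ hj₀ _ _ hm'
  · intro j x
    fin_cases j
    · show G.Adj v x ↔ G.Adj (ψ v) (ψ x)
      rw [hv]
      exact hav x
    · show G.Adj u x ↔ G.Adj (ψ u) (ψ x)
      rw [hu]
      exact hau x
  · intro τ hτ
    have e1 : τ = ![τ 0, τ 1] := by
      funext j
      fin_cases j <;> rfl
    rw [e1, ← star1_iff] at hτ
    have h2 := (hst (τ 0) (τ 1)).mp hτ
    rw [star1_iff] at h2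
    have e2 : (ψ ∘ ![v, u] : Fin 2 → Fin n) = ![v', u'] := by
      funext j
      fin_cases j
      · exact hv
      · exact hu
    have e3 : (ψ ∘ τ : Fin 2 → Fin n) = ![ψ (τ 0), ψ (τ 1)] := by
      funext j
      fin_cases j <;> rfl
    rw [e2, e3]
    exact h2

theorem A1_proof (hDO : Stmt_DO) (hC : Stmt_Codeg) (hF : Stmt_FiveLow) : Stmt_A1 := by
  obtain ⟨K₀, hK₀⟩ := hC 0.05 (by norm_num)
  obtain ⟨c, hc, hFL⟩ := hF 0.05 (by norm_num)
  set K : ℕ := K₀ + 1 with hKdef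
  have hK1 : 1 ≤ K := by omega
  have hKr1 : (1 : ℝ) ≤ K := by exact_mod_cast hK1
  have hKr : (0 : ℝ) < K := by linarith
  set C : ℝ := 1 + 51200 * (K : ℝ) ^ 3 / c with hCdef
  have hCpos : 0 < C := by positivity
  have hC1 : 1 ≤ C := by
    rw [hCdef]
    have : 0 ≤ 51200 * (K : ℝ) ^ 3 / c := by positivity
    linarith
  have hCc : 51200 * (K : ℝ) ^ 3 ≤ c * C := by
    rw [hCdef, mul_add, mul_div_cancel₀ _ hc.ne']
    linarith
  refine ⟨C, hCpos, ?_⟩
  -- the threshold for `x = n ^ 0.05`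
  have htend : Tendsto (fun n : ℕ => (n : ℝ) ^ (0.05 : ℝ)) atTop atTop :=
    (tendsto_rpow_atTop (by norm_num)).comp tendsto_natCast_atTop_atTop
  obtain ⟨n₁, hn₁⟩ := eventually_atTop.mp
    (htend.eventually_ge_atTop (64 + 2 * c + 43008 * (K : ℝ) ^ 2 / c))
  set m : ℕ → ℕ → ℕ := fun n d => ⌊c * lam n d / (64 * (K : ℝ) ^ 2)⌋₊ with hmdef
  -- facts about the regime
  have hreg : ∀ n ≥ max n₁ 64, ∀ d : ℕ, (C * n ≤ (d : ℝ) ^ 3 ∧ (d : ℝ) ≤ (n : ℝ) ^ (0.45 : ℝ)) →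
      (n : ℝ) ^ (1 / 4 + 0.05 : ℝ) ≤ d ∧ 64 * d ≤ n ∧ 1 ≤ d ∧ 32 * (m n d * (2 * 2)) ≤ n * d ∧
      400 * d ≤ m n d ∧
      3 * ((d : ℝ) ^ 2 * ((n : ℝ) ^ 2 * (2 * (d : ℝ) / n) ^ (2 * 2)
        + ((2 : ℕ) : ℝ) ^ 2 * (2 * (d : ℝ) / n) ^ (2 * 2 - 1) + n * (2 * (d : ℝ) / n) ^ (2 + 1)))
        * (n : ℝ) ^ (0.02 : ℝ) ≤ m n d ∧
      (2 * (d * K ^ 2) + m n d * (32 * K) : ℝ) * K ≤ c * lam n d := by
    rintro n hn d ⟨h1, h2⟩
    have hnn : 64 ≤ n := le_trans (le_max_right _ _) hn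
    have hx := hn₁ n (le_trans (le_max_left _ _) hn)
    set x : ℝ := (n : ℝ) ^ (0.05 : ℝ) with hxdef
    have hn0 : (0 : ℝ) < n := by
      have : 0 < n := by omega
      exact_mod_cast this
    have hn1 : (1 : ℝ) ≤ n := by
      have : 1 ≤ n := by omega
      exact_mod_cast this
    have hx64 : 64 ≤ x := by
      have : 0 ≤ 43008 * (K : ℝ) ^ 2 / c := by positivity
      linarith
    have hx2c : 2 * c ≤ x := by
      have : 0 ≤ 43008 * (K : ℝ) ^ 2 / c := by positivity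
      linarith
    have hxK : 43008 * (K : ℝ) ^ 2 ≤ c * x := by
      have h3 : 43008 * (K : ℝ) ^ 2 / c ≤ x := by linarith
      rw [div_le_iff₀ hc] at h3
      linarith
    have hx0 : 0 < x := by linarith
    have hx1 : 1 ≤ x := by linarith
    have hnx : (n : ℝ) = x ^ 20 := by
      rw [hxdef, ← Real.rpow_natCast, ← Real.rpow_mul hn0.le]
      norm_num
    have hdx : (d : ℝ) ≤ x ^ 9 := by
      have e : (n : ℝ) ^ (0.45 : ℝ) = x ^ 9 := by
        rw [hxdef, ← Real.rpow_natCast, ← Real.rpow_mul hn0.le]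
        norm_num
      rw [← e]
      exact h2
    have hd0 : (0 : ℝ) ≤ d := Nat.cast_nonneg d
    have hd3 : x ^ 20 ≤ (d : ℝ) ^ 3 := by
      rw [← hnx]
      calc (n : ℝ) = 1 * n := by ring
        _ ≤ C * n := mul_le_mul_of_nonneg_right hC1 hn0.le
        _ ≤ _ := h1
    have hdl : x ^ 6 ≤ d := by
      by_contra hcon
      push Not at hcon
      have h3 : (d : ℝ) ^ 3 < (x ^ 6) ^ 3 := pow_lt_pow_left₀ hcon hd0 (by norm_num)
      have h4 : (x ^ 6) ^ 3 ≤ x ^ 20 := by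
        rw [← pow_mul]
        exact pow_le_pow_right₀ hx1 (by norm_num)
      linarith
    have hd1 : (1 : ℝ) ≤ d := le_trans (one_le_pow₀ hx1) hdl
    have hd1' : 1 ≤ d := by exact_mod_cast hd1
    have hdpos : (0 : ℝ) < d := by linarith
    have hlam : lam n d = (d : ℝ) ^ 4 / n := rfl
    have hlam0 : 0 < lam n d := by rw [hlam]; positivity
    -- the number m
    have hA : 800 * (d : ℝ) ≤ c * lam n d / (64 * (K : ℝ) ^ 2) := by
      rw [le_div_iff₀ (by positivity), hlam, ← mul_div_assoc, le_div_iff₀ hn0]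
      have h3 : 51200 * (K : ℝ) ^ 3 * n ≤ c * (d : ℝ) ^ 3 := by
        calc 51200 * (K : ℝ) ^ 3 * n ≤ c * C * n := mul_le_mul_of_nonneg_right hCc hn0.le
          _ = c * (C * n) := by ring
          _ ≤ c * (d : ℝ) ^ 3 := mul_le_mul_of_nonneg_left h1 hc.le
      have h4 : (K : ℝ) ^ 2 ≤ (K : ℝ) ^ 3 := pow_le_pow_right₀ hKr1 (by norm_num)
      calc 800 * (d : ℝ) * (64 * (K : ℝ) ^ 2) * n = (51200 * (K : ℝ) ^ 2 * n) * d := by ring
        _ ≤ (51200 * (K : ℝ) ^ 3 * n) * d := by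
            apply mul_le_mul_of_nonneg_right _ hd0
            apply mul_le_mul_of_nonneg_right _ hn0.le
            linarith
        _ ≤ (c * (d : ℝ) ^ 3) * d := mul_le_mul_of_nonneg_right h3 hd0
        _ = c * (d : ℝ) ^ 4 := by ring
    have hm_le : (m n d : ℝ) ≤ c * lam n d / (64 * (K : ℝ) ^ 2) :=
      Nat.floor_le (by positivity)
    have hm_gt : c * lam n d / (64 * (K : ℝ) ^ 2) < (m n d : ℝ) + 1 := Nat.lt_floor_add_one _
    have hm_ge : c * lam n d / (128 * (K : ℝ) ^ 2) ≤ (m n d : ℝ) := by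
      have e : c * lam n d / (128 * (K : ℝ) ^ 2) = c * lam n d / (64 * (K : ℝ) ^ 2) / 2 := by
        field_simp
        ring
      rw [e]
      linarith
    have hcl : 4 * (d : ℝ) * (K : ℝ) ^ 3 ≤ c * lam n d := by
      rw [hlam, ← mul_div_assoc, le_div_iff₀ hn0]
      have h3 : 51200 * (K : ℝ) ^ 3 * n ≤ c * (d : ℝ) ^ 3 := by
        calc 51200 * (K : ℝ) ^ 3 * n ≤ c * C * n := mul_le_mul_of_nonneg_right hCc hn0.le
          _ = c * (C * n) := by ring
          _ ≤ c * (d : ℝ) ^ 3 := mul_le_mul_of_nonneg_left h1 hc.le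
      have h5 : 4 * (K : ℝ) ^ 3 * n ≤ 51200 * (K : ℝ) ^ 3 * n := by
        have : 0 ≤ (K : ℝ) ^ 3 * n := by positivity
        nlinarith
      calc 4 * (d : ℝ) * (K : ℝ) ^ 3 * n = (4 * (K : ℝ) ^ 3 * n) * d := by ring
        _ ≤ (c * (d : ℝ) ^ 3) * d := mul_le_mul_of_nonneg_right (h5.trans h3) hd0
        _ = c * (d : ℝ) ^ 4 := by ring
    refine ⟨?_, ?_, hd1', ?_, ?_, ?_, ?_⟩
    · have e : (n : ℝ) ^ (1 / 4 + 0.05 : ℝ) = x ^ 6 := by
        rw [hxdef, ← Real.rpow_natCast, ← Real.rpow_mul hn0.le]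
        norm_num
      rw [e]
      exact hdl
    · have h3 : (64 : ℝ) * d ≤ n := by
        rw [hnx]
        calc (64 : ℝ) * d ≤ x * x ^ 9 := mul_le_mul hx64 hdx hd0 hx0.le
          _ = x ^ 10 := by ring
          _ ≤ x ^ 20 := pow_le_pow_right₀ hx1 (by norm_num)
      exact_mod_cast h3
    · have h3 : (32 : ℝ) * (m n d * (2 * 2)) ≤ n * d := by
        have h4 : (32 : ℝ) * (m n d * (2 * 2)) ≤ 2 * (c * lam n d) := by
          have h5 : c * lam n d / (64 * (K : ℝ) ^ 2) ≤ c * lam n d / 64 := by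
            apply div_le_div_of_nonneg_left (by positivity) (by norm_num)
            have : 1 ≤ (K : ℝ) ^ 2 := one_le_pow₀ hKr1
            linarith
          linarith
        refine h4.trans ?_
        rw [hlam]
        have h6 : 2 * (c * ((d : ℝ) ^ 4 / n)) = (2 * c * (d : ℝ) ^ 4) / n := by ring
        rw [h6, div_le_iff₀ hn0]
        have h7 : 2 * c * (d : ℝ) ^ 3 ≤ (n : ℝ) * n := by
          calc 2 * c * (d : ℝ) ^ 3 ≤ x * (x ^ 9) ^ 3 := by
                apply mul_le_mul hx2c (pow_le_pow_left₀ hd0 hdx 3) (by positivity) hx0.le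
            _ = x ^ 28 := by ring
            _ ≤ x ^ 40 := pow_le_pow_right₀ hx1 (by norm_num)
            _ = (n : ℝ) * n := by rw [hnx]; ring
        calc 2 * c * (d : ℝ) ^ 4 = (2 * c * (d : ℝ) ^ 3) * d := by ring
          _ ≤ ((n : ℝ) * n) * d := mul_le_mul_of_nonneg_right h7 hd0
          _ = n * d * n := by ring
      exact_mod_cast h3
    · apply Nat.le_floor
      push_cast
      linarith
    · -- the expectation
      refine le_trans ?_ hm_ge
      have hx02 : (n : ℝ) ^ (0.02 : ℝ) ≤ x :=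
        Real.rpow_le_rpow_of_exponent_le hn1 (by norm_num)
      have hM : (d : ℝ) ^ 2 * ((n : ℝ) ^ 2 * (2 * (d : ℝ) / n) ^ (2 * 2)
        + ((2 : ℕ) : ℝ) ^ 2 * (2 * (d : ℝ) / n) ^ (2 * 2 - 1) + n * (2 * (d : ℝ) / n) ^ (2 + 1))
          ≤ 56 * (d : ℝ) ^ 6 / (n : ℝ) ^ 2 := by
        have e : (d : ℝ) ^ 2 * ((n : ℝ) ^ 2 * (2 * (d : ℝ) / n) ^ (2 * 2)
          + ((2 : ℕ) : ℝ) ^ 2 * (2 * (d : ℝ) / n) ^ (2 * 2 - 1) + n * (2 * (d : ℝ) / n) ^ (2 + 1))
          = (16 * (d : ℝ) ^ 6 * n + 32 * (d : ℝ) ^ 5 + 8 * (d : ℝ) ^ 5 * n) / (n : ℝ) ^ 3 := by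
          have hne : (n : ℝ) ≠ 0 := hn0.ne'
          simp only [show 2 * 2 = 4 from rfl, show 4 - 1 = 3 from rfl, show 2 + 1 = 3 from rfl,
            div_pow, mul_pow]
          push_cast
          field_simp
          ring
        rw [e, div_le_div_iff₀ (by positivity) (by positivity)]
        have h3 : (d : ℝ) ^ 5 ≤ (d : ℝ) ^ 6 := pow_le_pow_right₀ hd1 (by norm_num)
        have h4 : (d : ℝ) ^ 5 ≤ (d : ℝ) ^ 6 * n := by nlinarith [pow_pos hdpos 6]
        have h5 : (d : ℝ) ^ 5 * n ≤ (d : ℝ) ^ 6 * n := mul_le_mul_of_nonneg_right h3 hn0.le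
        have h6 : 16 * (d : ℝ) ^ 6 * n + 32 * (d : ℝ) ^ 5 + 8 * (d : ℝ) ^ 5 * n ≤
            56 * (d : ℝ) ^ 6 * n := by linarith
        calc (16 * (d : ℝ) ^ 6 * n + 32 * (d : ℝ) ^ 5 + 8 * (d : ℝ) ^ 5 * n) * (n : ℝ) ^ 2
            ≤ (56 * (d : ℝ) ^ 6 * n) * (n : ℝ) ^ 2 :=
              mul_le_mul_of_nonneg_right h6 (by positivity)
          _ = 56 * (d : ℝ) ^ 6 * (n : ℝ) ^ 3 := by ring
      calc 3 * ((d : ℝ) ^ 2 * ((n : ℝ) ^ 2 * (2 * (d : ℝ) / n) ^ (2 * 2)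
        + ((2 : ℕ) : ℝ) ^ 2 * (2 * (d : ℝ) / n) ^ (2 * 2 - 1) + n * (2 * (d : ℝ) / n) ^ (2 + 1)))
        * (n : ℝ) ^ (0.02 : ℝ)
          ≤ 3 * (56 * (d : ℝ) ^ 6 / (n : ℝ) ^ 2) * x := by
            apply mul_le_mul _ hx02 (by positivity) (by positivity)
            linarith
        _ ≤ c * lam n d / (128 * (K : ℝ) ^ 2) := by
            rw [hlam, le_div_iff₀ (by positivity)]
            have e : 3 * (56 * (d : ℝ) ^ 6 / (n : ℝ) ^ 2) * x * (128 * (K : ℝ) ^ 2) =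
              (21504 * (K : ℝ) ^ 2 * (d : ℝ) ^ 6 * x) / (n : ℝ) ^ 2 := by ring
            have e' : c * ((d : ℝ) ^ 4 / n) = (c * (d : ℝ) ^ 4 * n) / (n : ℝ) ^ 2 := by
              field_simp
            rw [e, e']
            apply div_le_div_of_nonneg_right _ (by positivity)
            have h3 : 21504 * (K : ℝ) ^ 2 * (d : ℝ) ^ 2 * x ≤ c * n := by
              calc 21504 * (K : ℝ) ^ 2 * (d : ℝ) ^ 2 * x
                  ≤ 43008 * (K : ℝ) ^ 2 * (x ^ 9) ^ 2 * x := by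
                    apply mul_le_mul_of_nonneg_right _ hx0.le
                    apply mul_le_mul _ (pow_le_pow_left₀ hd0 hdx 2) (by positivity) (by positivity)
                    have : 0 ≤ (K : ℝ) ^ 2 := by positivity
                    linarith
                _ ≤ (c * x) * (x ^ 9) ^ 2 * x := by
                    apply mul_le_mul_of_nonneg_right _ hx0.le
                    apply mul_le_mul_of_nonneg_right hxK (by positivity)
                _ = c * x ^ 20 := by ring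
                _ = c * n := by rw [hnx]
            calc 21504 * (K : ℝ) ^ 2 * (d : ℝ) ^ 6 * x
                = (21504 * (K : ℝ) ^ 2 * (d : ℝ) ^ 2 * x) * (d : ℝ) ^ 4 := by ring
              _ ≤ (c * n) * (d : ℝ) ^ 4 := mul_le_mul_of_nonneg_right h3 (by positivity)
              _ = c * (d : ℝ) ^ 4 * n := by ring
    · have h3 : (m n d : ℝ) * (32 * K) * K ≤ c * lam n d / 2 := by
        calc (m n d : ℝ) * (32 * K) * K = (m n d : ℝ) * (32 * (K : ℝ) ^ 2) := by ring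
          _ ≤ c * lam n d / (64 * (K : ℝ) ^ 2) * (32 * (K : ℝ) ^ 2) :=
              mul_le_mul_of_nonneg_right hm_le (by positivity)
          _ = c * lam n d / 2 := by
              field_simp
              ring
      have h4 : (2 * (d * K ^ 2) + m n d * (32 * K) : ℝ) * K =
          (4 * (d : ℝ) * (K : ℝ) ^ 3) / 2 + (m n d : ℝ) * (32 * K) * K := by ring
      rw [h4]
      linarith
  -- assembly
  have w1 : Whp (fun n d => C * n ≤ (d : ℝ) ^ 3 ∧ (d : ℝ) ≤ (n : ℝ) ^ (0.45 : ℝ))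
      (fun _ _ G => T1 K₀ G) := by
    refine hK₀.mono ⟨0, ?_⟩ ⟨0, fun n _ d _ G _ h => h⟩
    rintro n - d ⟨-, h2⟩
    have e : (1 / 2 - 0.05 : ℝ) = 0.45 := by norm_num
    rw [e]
    exact h2
  have w2 : Whp (fun n d => C * n ≤ (d : ℝ) ^ 3 ∧ (d : ℝ) ≤ (n : ℝ) ^ (0.45 : ℝ))
      (fun n d G => FiveLow c n d G) := by
    refine hFL.mono ⟨max n₁ 64, ?_⟩ ⟨0, fun n _ d _ G _ h => h⟩
    rintro n hn d ⟨h1, h2⟩
    have e : (1 / 2 - 0.05 : ℝ) = 0.45 := by norm_num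
    rw [e]
    exact ⟨(hreg n hn d ⟨h1, h2⟩).1, h2⟩
  have w3 : Whp (fun n d => C * n ≤ (d : ℝ) ^ 3 ∧ (d : ℝ) ≤ (n : ℝ) ^ (0.45 : ℝ))
      (fun n d G => ¬ ∃ t : Dat n d 2, BadJ (m n d) G t) := by
    apply Whp.of_bound (fun n => 1 / (n : ℝ)) tendsto_one_div_atTop_nhds_zero_nat
    refine ⟨max n₁ 64, fun n hn d hd => ?_⟩
    obtain ⟨-, h2, h3, h4, h5, h6, -⟩ := hreg n hn d hd
    have h7 := final_bound hDO (n := n) (d := d) (k := 2) (m := m n d) (by norm_num) (by norm_num)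
      (le_trans (le_max_right _ _) hn) h2 h3 h4 h5 h6
    refine le_trans (le_of_eq ?_) h7
    congr 1
    exact card_filter_any _ _ _ _ _ (fun G _ => not_not)
  refine ((w1.and w2).and w3).mono ⟨0, fun n _ d h => h⟩ ⟨max n₁ 64, ?_⟩
  rintro n hn d hd G hG ⟨⟨h1, h2⟩, h3⟩
  obtain ⟨-, -, -, -, -, -, h4⟩ := hreg n hn d hd
  have hT : T1 K G := fun a b hab => (h1 a b hab).trans (by omega)
  exact fp1_of hG hT hK1 h2 h4 h3

end Pool.Agent.RRG
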