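import Pool.Agent.RRG.A1

/-!
# Regime A, part 2
-/

open Finset Filter Topology
open scoped Classical

namespace Pool.Agent.RRG

open A0

theorem star2_iff {n : ℕ} (G : Gr n) (v u a a' z : Fin n) :
    Star2 G v u a a' z ↔ St G ![v, v, u] ![a, a', z] := by
  unfold Star2 St
  constructor
  · rintro ⟨h1, h2, h3, h4, h5, h6, h7, h8, h9, y, h10, h11, h12, h13, h14⟩
    refine ⟨?_, ?_, ?_, y, ?_, ?_⟩
    · intro j
      fin_cases j
      · exact h1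
      · exact h3
      · exact h5
    · intro i j
      fin_cases i <;> fin_cases j
      · exact h1.ne'
      · exact h1.ne'
      · exact h2
      · exact h3.ne'
      · exact h3.ne'
      · exact h4
      · exact h6
      · exact h6
      · exact h5.ne'
    · intro i j hij
      fin_cases i <;> fin_cases j
      · rfl
      · exact absurd hij h7
      · exact absurd hij h8
      · exact absurd hij.symm h7
      · rfl
      · exact absurd hij h9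
      · exact absurd hij.symm h8
      · exact absurd hij.symm h9
      · rfl
    · intro j
      fin_cases j
      · exact h10
      · exact h10
      · exact h11
    · intro j
      fin_cases j
      · exact h12
      · exact h13
      · exact h14
  · rintro ⟨h1, h2, h3, y, h4, h5⟩
    refine ⟨h1 0, h2 0 2, h1 1, h2 1 2, h1 2, h2 2 0, ?_, ?_, ?_, y, h4 0, h4 2, h5 0, h5 1, h5 2⟩
    · intro h
      have : (0 : Fin 3) = 1 := h3 (by simpa using h)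
      exact absurd this (by decide)
    · intro h
      have : (0 : Fin 3) = 2 := h3 (by simpa using h)
      exact absurd this (by decide)
    · intro h
      have : (1 : Fin 3) = 2 := h3 (by simpa using h)
      exact absurd this (by decide)

theorem fp2_of {n d K m : ℕ} {s : ℝ} {G : Gr n} (hG : G ∈ Reg n d) (hT : T1 K G) (hK : 1 ≤ K)
    (hF : ∀ v u, G.Adj v u → s ≤
      ((univ.filter fun t : Fin n × Fin n × Fin n => Star2 G v u t.1 t.2.1 t.2.2).card : ℝ))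
    (hnum : (3 * (d * K ^ 3) + m * (72 * K ^ 2) : ℝ) ≤ s)
    (hbad : ¬ ∃ t : Dat n d 3, BadJ m G t) : FP2 G := by
  intro v u v' u' hvu hvu' hne ψ hψ hst
  apply hbad
  obtain ⟨hv, hu, hav, hau⟩ := hψ
  -- the number of star tuples
  have hcount : s ≤ (((univ : Finset (Fin 3 → Fin n)).filter (St G ![v, v, u])).card : ℝ) := by
    refine (hF v u hvu).trans ?_
    have hle : (univ.filter fun t : Fin n × Fin n × Fin n => Star2 G v u t.1 t.2.1 t.2.2).card ≤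
        ((univ : Finset (Fin 3 → Fin n)).filter (St G ![v, v, u])).card := by
      apply card_le_card_of_injOn (fun t => ![t.1, t.2.1, t.2.2])
      · intro t ht
        rw [mem_coe, mem_filter] at ht ⊢
        exact ⟨mem_univ _, (star2_iff G v u _ _ _).mp ht.2⟩
      · intro t _ t' _ h
        have h0 := congrFun h 0
        have h1 := congrFun h 1
        have h2 := congrFun h 2
        exact Prod.ext h0 (Prod.ext h1 h2)
    exact_mod_cast hle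
  have hm' : 3 * (d * K ^ 3) + m * (8 * 3 ^ 2 * K ^ (3 - 1)) ≤
      ((univ : Finset (Fin 3 → Fin n)).filter (St G ![v, v, u])).card := by
    have h1 : (3 * (d * K ^ 3) + m * (72 * K ^ 2) : ℝ) ≤
        (((univ : Finset (Fin 3 → Fin n)).filter (St G ![v, v, u])).card : ℝ) := hnum.trans hcount
    have h3 : 3 * (d * K ^ 3) + m * (72 * K ^ 2) ≤
        ((univ : Finset (Fin 3 → Fin n)).filter (St G ![v, v, u])).card := by exact_mod_cast h1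
    calc 3 * (d * K ^ 3) + m * (8 * 3 ^ 2 * K ^ (3 - 1)) = 3 * (d * K ^ 3) + m * (72 * K ^ 2) := by
          norm_num
      _ ≤ _ := h3
  -- the index
  have hj : ∃ j₀ : Fin 3, ψ (![v, v, u] j₀) ≠ ![v, v, u] j₀ := by
    by_cases h : v = v'
    · refine ⟨2, ?_⟩
      show ψ u ≠ u
      rw [hu]
      intro h2
      exact hne (by rw [h, h2])
    · refine ⟨0, ?_⟩
      show ψ v ≠ v
      rw [hv]
      exact fun h2 => h h2.symm
  obtain ⟨j₀, hj₀⟩ := hj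
  apply extract hG hT hK ![v, v, u] ψ j₀ hj₀ _ _ hm'
  · intro j x
    fin_cases j
    · show G.Adj v x ↔ G.Adj (ψ v) (ψ x)
      rw [hv]
      exact hav x
    · show G.Adj v x ↔ G.Adj (ψ v) (ψ x)
      rw [hv]
      exact hav x
    · show G.Adj u x ↔ G.Adj (ψ u) (ψ x)
      rw [hu]
      exact hau x
  · intro τ hτ
    have e1 : τ = ![τ 0, τ 1, τ 2] := by
      funext j
      fin_cases j <;> rfl
    rw [e1, ← star2_iff] at hτ
    have h2 := (hst (τ 0) (τ 1) (τ 2)).mp hτ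
    rw [star2_iff] at h2
    have e2 : (ψ ∘ ![v, v, u] : Fin 3 → Fin n) = ![v', v', u'] := by
      funext j
      fin_cases j
      · exact hv
      · exact hv
      · exact hu
    have e3 : (ψ ∘ τ : Fin 3 → Fin n) = ![ψ (τ 0), ψ (τ 1), ψ (τ 2)] := by
      funext j
      fin_cases j <;> rfl
    rw [e2, e3]
    exact h2

/-- powers of the logarithm are small -/
theorem log_pow_ev (a : ℝ) (j : ℕ) (r : ℝ) (hr : 0 < r) :
    ∀ᶠ n : ℕ in atTop, a * (Real.log n) ^ j ≤ (n : ℝ) ^ r := by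
  have h1 : (fun x : ℝ => Real.log x ^ (j : ℝ)) =o[atTop] fun x => x ^ r :=
    isLittleO_log_rpow_rpow_atTop j hr
  have h2 := h1.bound (c := 1 / (|a| + 1)) (by positivity)
  have h3 := tendsto_natCast_atTop_atTop (R := ℝ) |>.eventually h2
  filter_upwards [h3, eventually_ge_atTop 1] with n hn hn1
  have hn1' : (1 : ℝ) ≤ n := by exact_mod_cast hn1
  have hl0 : 0 ≤ Real.log n := Real.log_nonneg hn1'
  have hp : 0 < (n : ℝ) ^ r := Real.rpow_pos_of_pos (by linarith) r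
  rw [Real.rpow_natCast, Real.norm_eq_abs, Real.norm_eq_abs, abs_of_nonneg (pow_nonneg hl0 j),
    abs_of_pos hp] at hn
  have ha : 0 < |a| + 1 := by positivity
  rw [one_div, inv_mul_eq_div, le_div_iff₀ ha] at hn
  have h4 : a * Real.log n ^ j ≤ Real.log n ^ j * (|a| + 1) := by
    have := le_abs_self a
    have h5 := pow_nonneg hl0 j
    nlinarith
  linarith

/-- the numerical facts about the regime -/
theorem A2_num (C c K₂ : ℝ) (hC0 : 0 < C) (hc : 0 < c) (hK₂ : 0 < K₂) : ∃ n₁ : ℕ, 64 ≤ n₁ ∧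
    ∀ n ≥ n₁, ∀ d : ℕ, ((n : ℝ) ^ (0.42 : ℝ) ≤ d ∧ (d : ℝ) ≤ C * Real.sqrt (n * Real.log n)) →
      64 * d ≤ n ∧ 1 ≤ d ∧
      32 * (⌊c * (d : ℝ) ^ 6 / ((Real.log n) ^ 3 * (n : ℝ) ^ 2) /
        (144 * ((⌊K₂ * Real.log n⌋₊ + 1 : ℕ) : ℝ) ^ 2)⌋₊ * (2 * 3)) ≤ n * d ∧
      400 * d ≤ ⌊c * (d : ℝ) ^ 6 / ((Real.log n) ^ 3 * (n : ℝ) ^ 2) /
        (144 * ((⌊K₂ * Real.log n⌋₊ + 1 : ℕ) : ℝ) ^ 2)⌋₊ ∧
      3 * ((d : ℝ) ^ 3 * ((n : ℝ) ^ 2 * (2 * (d : ℝ) / n) ^ (2 * 3)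
        + ((3 : ℕ) : ℝ) ^ 2 * (2 * (d : ℝ) / n) ^ (2 * 3 - 1) + n * (2 * (d : ℝ) / n) ^ (3 + 1)))
        * (n : ℝ) ^ (0.02 : ℝ) ≤ (⌊c * (d : ℝ) ^ 6 / ((Real.log n) ^ 3 * (n : ℝ) ^ 2) /
        (144 * ((⌊K₂ * Real.log n⌋₊ + 1 : ℕ) : ℝ) ^ 2)⌋₊ : ℝ) ∧
      (3 * (d * ((⌊K₂ * Real.log n⌋₊ + 1 : ℕ) : ℝ) ^ 3) +
        (⌊c * (d : ℝ) ^ 6 / ((Real.log n) ^ 3 * (n : ℝ) ^ 2) /
        (144 * ((⌊K₂ * Real.log n⌋₊ + 1 : ℕ) : ℝ) ^ 2)⌋₊ : ℝ) *
          (72 * ((⌊K₂ * Real.log n⌋₊ + 1 : ℕ) : ℝ) ^ 2) : ℝ) ≤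
        c * (d : ℝ) ^ 6 / ((Real.log n) ^ 3 * (n : ℝ) ^ 2) := by
  have hev : ∀ᶠ n : ℕ in atTop,
      (64 + 2 * c) * (Real.log n) ^ 0 ≤ (n : ℝ) ^ (0.02 : ℝ) ∧
      (C ^ 2) * (Real.log n) ^ 1 ≤ (n : ℝ) ^ (0.04 : ℝ) ∧
      (317952 * (K₂ + 1) ^ 3 / c) * (Real.log n) ^ 6 ≤ (n : ℝ) ^ (0.02 : ℝ) ∧
      (1 : ℝ) ≤ Real.log n := by
    have h1 : ∀ᶠ n : ℕ in atTop, (1 : ℝ) ≤ Real.log n :=
      (Real.tendsto_log_atTop.comp tendsto_natCast_atTop_atTop).eventually_ge_atTop 1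
    exact (log_pow_ev _ 0 _ (by norm_num)).and ((log_pow_ev _ 1 _ (by norm_num)).and
      ((log_pow_ev _ 6 _ (by norm_num)).and h1))
  obtain ⟨n₁, hn₁⟩ := eventually_atTop.mp hev
  refine ⟨max n₁ 64, le_max_right _ _, ?_⟩
  rintro n hn d ⟨h1, h2⟩
  obtain ⟨t1, t2, t3, hl1⟩ := hn₁ n (le_trans (le_max_left _ _) hn)
  have hnn : 64 ≤ n := le_trans (le_max_right _ _) hn
  set ℓ : ℝ := Real.log n with hℓ
  set x : ℝ := (n : ℝ) ^ (0.02 : ℝ) with hxdef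
  set K : ℕ := ⌊K₂ * ℓ⌋₊ + 1 with hKdef
  set s : ℝ := c * (d : ℝ) ^ 6 / (ℓ ^ 3 * (n : ℝ) ^ 2) with hs
  set m : ℕ := ⌊s / (144 * (K : ℝ) ^ 2)⌋₊ with hm
  have hn0 : (0 : ℝ) < n := by
    have : 0 < n := by omega
    exact_mod_cast this
  have hn1 : (1 : ℝ) ≤ n := by
    have : 1 ≤ n := by omega
    exact_mod_cast this
  have hℓ0 : 0 < ℓ := by linarith
  rw [pow_zero, mul_one] at t1
  have hx64 : 64 ≤ x := by linarith
  have hx2c : 2 * c ≤ x := by linarith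
  have hx0 : 0 < x := by linarith
  have hx1 : 1 ≤ x := by linarith
  have hnx : (n : ℝ) = x ^ 50 := by
    rw [hxdef, ← Real.rpow_natCast, ← Real.rpow_mul hn0.le]
    norm_num
  have hx04 : (n : ℝ) ^ (0.04 : ℝ) = x ^ 2 := by
    rw [hxdef, ← Real.rpow_natCast, ← Real.rpow_mul hn0.le]
    norm_num
  have hx42 : (n : ℝ) ^ (0.42 : ℝ) = x ^ 21 := by
    rw [hxdef, ← Real.rpow_natCast, ← Real.rpow_mul hn0.le]
    norm_num
  rw [hx42] at h1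
  rw [hx04, pow_one] at t2
  have hd0 : (0 : ℝ) ≤ d := Nat.cast_nonneg d
  have hdx : (d : ℝ) ≤ x ^ 26 := by
    have h3 : (d : ℝ) ^ 2 ≤ (x ^ 26) ^ 2 := by
      calc (d : ℝ) ^ 2 ≤ (C * Real.sqrt (n * ℓ)) ^ 2 := pow_le_pow_left₀ hd0 h2 2
        _ = C ^ 2 * ℓ * n := by
            rw [mul_pow, Real.sq_sqrt (by positivity)]
            ring
        _ ≤ x ^ 2 * x ^ 50 := by
            rw [← hnx]
            exact mul_le_mul_of_nonneg_right t2 hn0.le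
        _ = (x ^ 26) ^ 2 := by ring
    exact le_of_pow_le_pow_left₀ (by norm_num) (by positivity) h3
  have hd1 : (1 : ℝ) ≤ d := le_trans (one_le_pow₀ hx1) h1
  have hd1' : 1 ≤ d := by exact_mod_cast hd1
  have hdpos : (0 : ℝ) < d := by linarith
  have hK1 : (1 : ℝ) ≤ K := by
    have : 1 ≤ K := by omega
    exact_mod_cast this
  have hK0 : (0 : ℝ) < K := by linarith
  have hKle : (K : ℝ) ≤ (K₂ + 1) * ℓ := by
    have h3 : (⌊K₂ * ℓ⌋₊ : ℝ) ≤ K₂ * ℓ := Nat.floor_le (by positivity)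
    rw [hKdef]
    push_cast
    nlinarith
  have hKey : 317952 * (K : ℝ) ^ 3 * ℓ ^ 3 ≤ c * x := by
    have h3 : (K : ℝ) ^ 3 ≤ ((K₂ + 1) * ℓ) ^ 3 := pow_le_pow_left₀ hK0.le hKle 3
    calc 317952 * (K : ℝ) ^ 3 * ℓ ^ 3 ≤ 317952 * ((K₂ + 1) * ℓ) ^ 3 * ℓ ^ 3 := by
          apply mul_le_mul_of_nonneg_right _ (by positivity)
          linarith
      _ = c * ((317952 * (K₂ + 1) ^ 3 / c) * ℓ ^ 6) := by
          field_simp
      _ ≤ c * x := mul_le_mul_of_nonneg_left t3 hc.le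
  have hK23 : (K : ℝ) ^ 2 ≤ (K : ℝ) ^ 3 := pow_le_pow_right₀ hK1 (by norm_num)
  have hKey2 : 317952 * (K : ℝ) ^ 2 * ℓ ^ 3 ≤ c * x := by
    refine le_trans ?_ hKey
    apply mul_le_mul_of_nonneg_right _ (by positivity)
    linarith
  have hd5 : x ^ 105 ≤ (d : ℝ) ^ 5 := by
    calc x ^ 105 = (x ^ 21) ^ 5 := by ring
      _ ≤ _ := pow_le_pow_left₀ (by positivity) h1 5
  have hxx : ∀ {i j : ℕ}, i ≤ j → x ^ i ≤ x ^ j := fun h => pow_le_pow_right₀ hx1 h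
  have hs0 : 0 < s := by rw [hs]; positivity
  have hden : 0 < ℓ ^ 3 * (n : ℝ) ^ 2 := by positivity
  -- a general comparison
  have hcomp : ∀ a : ℝ, 0 ≤ a → a ≤ c * x → a * (d : ℝ) / ℓ ^ 3 ≤ s := by
    intro a ha0 ha
    rw [hs, div_le_div_iff₀ (by positivity) hden]
    calc a * (d : ℝ) * (ℓ ^ 3 * (n : ℝ) ^ 2) = (a * x ^ 100) * (d * ℓ ^ 3) := by rw [hnx]; ring
      _ ≤ (c * x * x ^ 100) * (d * ℓ ^ 3) := by
          apply mul_le_mul_of_nonneg_right _ (by positivity)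
          exact mul_le_mul_of_nonneg_right ha (by positivity)
      _ = c * x ^ 101 * (d * ℓ ^ 3) := by ring
      _ ≤ c * (d : ℝ) ^ 5 * (d * ℓ ^ 3) := by
          apply mul_le_mul_of_nonneg_right _ (by positivity)
          exact mul_le_mul_of_nonneg_left ((hxx (by norm_num)).trans hd5) hc.le
      _ = c * (d : ℝ) ^ 6 * ℓ ^ 3 := by ring
  have hA : 800 * (d : ℝ) ≤ s / (144 * (K : ℝ) ^ 2) := by
    rw [le_div_iff₀ (by positivity)]
    have h3 := hcomp (317952 * (K : ℝ) ^ 2 * ℓ ^ 3) (by positivity) hKey2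
    have e : 317952 * (K : ℝ) ^ 2 * ℓ ^ 3 * (d : ℝ) / ℓ ^ 3 = 317952 * (K : ℝ) ^ 2 * d := by
      field_simp
    rw [e] at h3
    have : 0 ≤ (K : ℝ) ^ 2 * d := by positivity
    nlinarith
  have hm_le : (m : ℝ) ≤ s / (144 * (K : ℝ) ^ 2) := Nat.floor_le (by positivity)
  have hm_gt : s / (144 * (K : ℝ) ^ 2) < (m : ℝ) + 1 := Nat.lt_floor_add_one _
  have hm_ge : s / (288 * (K : ℝ) ^ 2) ≤ (m : ℝ) := by
    have e : s / (288 * (K : ℝ) ^ 2) = s / (144 * (K : ℝ) ^ 2) / 2 := by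
      field_simp
      ring
    rw [e]
    linarith
  refine ⟨?_, hd1', ?_, ?_, ?_, ?_⟩
  · have h3 : (64 : ℝ) * d ≤ n := by
      rw [hnx]
      calc (64 : ℝ) * d ≤ x * x ^ 26 := mul_le_mul hx64 hdx hd0 hx0.le
        _ = x ^ 27 := by ring
        _ ≤ x ^ 50 := hxx (by norm_num)
    exact_mod_cast h3
  · have h3 : (32 : ℝ) * (m * (2 * 3)) ≤ n * d := by
      have h4 : (32 : ℝ) * (m * (2 * 3)) ≤ 2 * s := by
        have h5 : s / (144 * (K : ℝ) ^ 2) ≤ s / 144 := by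
          apply div_le_div_of_nonneg_left hs0.le (by norm_num)
          have : 1 ≤ (K : ℝ) ^ 2 := one_le_pow₀ hK1
          linarith
        linarith
      refine h4.trans ?_
      have h6 : 2 * s = (2 * c * (d : ℝ) ^ 6) / (ℓ ^ 3 * (n : ℝ) ^ 2) := by
        rw [hs]; ring
      rw [h6, div_le_iff₀ hden]
      have h7 : 2 * c * (d : ℝ) ^ 5 ≤ (n : ℝ) ^ 3 := by
        calc 2 * c * (d : ℝ) ^ 5 ≤ x * (x ^ 26) ^ 5 := by
              apply mul_le_mul hx2c (pow_le_pow_left₀ hd0 hdx 5) (by positivity) hx0.le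
          _ = x ^ 131 := by ring
          _ ≤ x ^ 150 := hxx (by norm_num)
          _ = (n : ℝ) ^ 3 := by rw [hnx]; ring
      have h8 : 1 ≤ ℓ ^ 3 := one_le_pow₀ hl1
      calc 2 * c * (d : ℝ) ^ 6 = (2 * c * (d : ℝ) ^ 5) * d := by ring
        _ ≤ (n : ℝ) ^ 3 * d := mul_le_mul_of_nonneg_right h7 hd0
        _ = 1 * ((n : ℝ) ^ 3 * d) := by ring
        _ ≤ ℓ ^ 3 * ((n : ℝ) ^ 3 * d) := mul_le_mul_of_nonneg_right h8 (by positivity)
        _ = n * d * (ℓ ^ 3 * (n : ℝ) ^ 2) := by ring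
    exact_mod_cast h3
  · apply Nat.le_floor
    push_cast
    linarith
  · refine le_trans ?_ hm_ge
    have hM : (d : ℝ) ^ 3 * ((n : ℝ) ^ 2 * (2 * (d : ℝ) / n) ^ (2 * 3)
        + ((3 : ℕ) : ℝ) ^ 2 * (2 * (d : ℝ) / n) ^ (2 * 3 - 1) + n * (2 * (d : ℝ) / n) ^ (3 + 1))
        ≤ 368 * (d : ℝ) ^ 6 / ((n : ℝ) ^ 2 * x ^ 22) := by
      have e : (d : ℝ) ^ 3 * ((n : ℝ) ^ 2 * (2 * (d : ℝ) / n) ^ (2 * 3)
        + ((3 : ℕ) : ℝ) ^ 2 * (2 * (d : ℝ) / n) ^ (2 * 3 - 1) + n * (2 * (d : ℝ) / n) ^ (3 + 1))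
        = (64 * (d : ℝ) ^ 9 * n + 288 * (d : ℝ) ^ 8 + 16 * (d : ℝ) ^ 7 * (n : ℝ) ^ 2) / (n : ℝ) ^ 5 := by
        have hne : (n : ℝ) ≠ 0 := hn0.ne'
        simp only [show 2 * 3 = 6 from rfl, show 6 - 1 = 5 from rfl, show 3 + 1 = 4 from rfl,
          div_pow, mul_pow]
        push_cast
        field_simp
        ring
      rw [e, div_le_div_iff₀ (by positivity) (by positivity)]
      have hd6 : 0 < (d : ℝ) ^ 6 := by positivity
      have b1 : (d : ℝ) ^ 3 * x ^ 22 ≤ (n : ℝ) ^ 2 := by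
        calc (d : ℝ) ^ 3 * x ^ 22 ≤ (x ^ 26) ^ 3 * x ^ 22 :=
              mul_le_mul_of_nonneg_right (pow_le_pow_left₀ hd0 hdx 3) (by positivity)
          _ = x ^ 100 := by ring
          _ = (n : ℝ) ^ 2 := by rw [hnx]; ring
      have b2 : (d : ℝ) ^ 2 * x ^ 22 ≤ (n : ℝ) ^ 3 := by
        calc (d : ℝ) ^ 2 * x ^ 22 ≤ (x ^ 26) ^ 2 * x ^ 22 :=
              mul_le_mul_of_nonneg_right (pow_le_pow_left₀ hd0 hdx 2) (by positivity)
          _ = x ^ 74 := by ring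
          _ ≤ x ^ 150 := hxx (by norm_num)
          _ = (n : ℝ) ^ 3 := by rw [hnx]; ring
      have b3 : (d : ℝ) * x ^ 22 ≤ (n : ℝ) := by
        calc (d : ℝ) * x ^ 22 ≤ x ^ 26 * x ^ 22 := mul_le_mul_of_nonneg_right hdx (by positivity)
          _ = x ^ 48 := by ring
          _ ≤ x ^ 50 := hxx (by norm_num)
          _ = (n : ℝ) := by rw [hnx]
      have c1 : (d : ℝ) ^ 9 * n * x ^ 22 ≤ (d : ℝ) ^ 6 * (n : ℝ) ^ 3 := by
        calc (d : ℝ) ^ 9 * n * x ^ 22 = ((d : ℝ) ^ 6 * n) * ((d : ℝ) ^ 3 * x ^ 22) := by ring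
          _ ≤ ((d : ℝ) ^ 6 * n) * (n : ℝ) ^ 2 := mul_le_mul_of_nonneg_left b1 (by positivity)
          _ = (d : ℝ) ^ 6 * (n : ℝ) ^ 3 := by ring
      have c2 : (d : ℝ) ^ 8 * x ^ 22 ≤ (d : ℝ) ^ 6 * (n : ℝ) ^ 3 := by
        calc (d : ℝ) ^ 8 * x ^ 22 = (d : ℝ) ^ 6 * ((d : ℝ) ^ 2 * x ^ 22) := by ring
          _ ≤ (d : ℝ) ^ 6 * (n : ℝ) ^ 3 := mul_le_mul_of_nonneg_left b2 (by positivity)
      have c3 : (d : ℝ) ^ 7 * (n : ℝ) ^ 2 * x ^ 22 ≤ (d : ℝ) ^ 6 * (n : ℝ) ^ 3 := by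
        calc (d : ℝ) ^ 7 * (n : ℝ) ^ 2 * x ^ 22 = ((d : ℝ) ^ 6 * (n : ℝ) ^ 2) * ((d : ℝ) * x ^ 22) := by ring
          _ ≤ ((d : ℝ) ^ 6 * (n : ℝ) ^ 2) * n := mul_le_mul_of_nonneg_left b3 (by positivity)
          _ = (d : ℝ) ^ 6 * (n : ℝ) ^ 3 := by ring
      calc (64 * (d : ℝ) ^ 9 * n + 288 * (d : ℝ) ^ 8 + 16 * (d : ℝ) ^ 7 * (n : ℝ) ^ 2) *
            ((n : ℝ) ^ 2 * x ^ 22)
          = (64 * ((d : ℝ) ^ 9 * n * x ^ 22) + 288 * ((d : ℝ) ^ 8 * x ^ 22) +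
              16 * ((d : ℝ) ^ 7 * (n : ℝ) ^ 2 * x ^ 22)) * (n : ℝ) ^ 2 := by ring
        _ ≤ (368 * ((d : ℝ) ^ 6 * (n : ℝ) ^ 3)) * (n : ℝ) ^ 2 := by
            apply mul_le_mul_of_nonneg_right _ (by positivity)
            linarith
        _ = 368 * (d : ℝ) ^ 6 * (n : ℝ) ^ 5 := by ring
    calc 3 * ((d : ℝ) ^ 3 * ((n : ℝ) ^ 2 * (2 * (d : ℝ) / n) ^ (2 * 3)
        + ((3 : ℕ) : ℝ) ^ 2 * (2 * (d : ℝ) / n) ^ (2 * 3 - 1) + n * (2 * (d : ℝ) / n) ^ (3 + 1))) * x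
        ≤ 3 * (368 * (d : ℝ) ^ 6 / ((n : ℝ) ^ 2 * x ^ 22)) * x := by
          apply mul_le_mul_of_nonneg_right _ hx0.le
          linarith
      _ ≤ s / (288 * (K : ℝ) ^ 2) := by
          rw [hs, div_div]
          have e : 3 * (368 * (d : ℝ) ^ 6 / ((n : ℝ) ^ 2 * x ^ 22)) * x =
            (1104 * (d : ℝ) ^ 6 * x) / ((n : ℝ) ^ 2 * x ^ 22) := by ring
          rw [e, div_le_div_iff₀ (by positivity) (by positivity)]
          calc 1104 * (d : ℝ) ^ 6 * x * (ℓ ^ 3 * (n : ℝ) ^ 2 * (288 * (K : ℝ) ^ 2))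
              = (317952 * (K : ℝ) ^ 2 * ℓ ^ 3) * ((d : ℝ) ^ 6 * (n : ℝ) ^ 2 * x) := by ring
            _ ≤ (c * x) * ((d : ℝ) ^ 6 * (n : ℝ) ^ 2 * x) :=
                mul_le_mul_of_nonneg_right hKey2 (by positivity)
            _ = c * (d : ℝ) ^ 6 * ((n : ℝ) ^ 2 * x ^ 2) := by ring
            _ ≤ c * (d : ℝ) ^ 6 * ((n : ℝ) ^ 2 * x ^ 22) := by
                apply mul_le_mul_of_nonneg_left _ (by positivity)
                exact mul_le_mul_of_nonneg_left (hxx (by norm_num)) (by positivity)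
  · have h3 : (m : ℝ) * (72 * (K : ℝ) ^ 2) ≤ s / 2 := by
      calc (m : ℝ) * (72 * (K : ℝ) ^ 2) ≤ s / (144 * (K : ℝ) ^ 2) * (72 * (K : ℝ) ^ 2) :=
            mul_le_mul_of_nonneg_right hm_le (by positivity)
        _ = s / 2 := by
            field_simp
            ring
    have h4 : 3 * ((d : ℝ) * (K : ℝ) ^ 3) ≤ s / 2 := by
      have h5 := hcomp (317952 * (K : ℝ) ^ 3 * ℓ ^ 3) (by positivity) hKey
      have e : 317952 * (K : ℝ) ^ 3 * ℓ ^ 3 * (d : ℝ) / ℓ ^ 3 = 317952 * ((d : ℝ) * (K : ℝ) ^ 3) := by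
        field_simp
      rw [e] at h5
      have : 0 ≤ (d : ℝ) * (K : ℝ) ^ 3 := by positivity
      linarith
    linarith

theorem A2_proof (hDO : Stmt_DO) (hC : Stmt_CodegLog) (hF : Stmt_Star2Low) : Stmt_A2 := by
  intro C hC0
  obtain ⟨K₂, hK₂, hWK⟩ := hC C hC0
  obtain ⟨c, hc, hWS⟩ := hF C hC0
  obtain ⟨n₁, hn64, hnum⟩ := A2_num C c K₂ hC0 hc hK₂
  set K : ℕ → ℕ := fun n => ⌊K₂ * Real.log n⌋₊ + 1 with hKdef
  set s : ℕ → ℕ → ℝ := fun n d => c * (d : ℝ) ^ 6 / ((Real.log n) ^ 3 * (n : ℝ) ^ 2) with hs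
  set m : ℕ → ℕ → ℕ := fun n d => ⌊s n d / (144 * (K n : ℝ) ^ 2)⌋₊ with hm
  have w1 : Whp (fun n d => (n : ℝ) ^ (0.42 : ℝ) ≤ d ∧ (d : ℝ) ≤ C * Real.sqrt (n * Real.log n))
      (fun n _ G => ∀ u v, u ≠ v → ((nb G u ∩ nb G v).card : ℝ) ≤ K₂ * Real.log n) := by
    refine hWK.mono ⟨0, ?_⟩ ⟨0, fun n _ d _ G _ h => h⟩
    rintro n - d ⟨-, h2⟩
    exact h2
  have w3 : Whp (fun n d => (n : ℝ) ^ (0.42 : ℝ) ≤ d ∧ (d : ℝ) ≤ C * Real.sqrt (n * Real.log n))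
      (fun n d G => ¬ ∃ t : Dat n d 3, BadJ (m n d) G t) := by
    apply Whp.of_bound (fun n => 1 / (n : ℝ)) tendsto_one_div_atTop_nhds_zero_nat
    refine ⟨n₁, fun n hn d hd => ?_⟩
    obtain ⟨h2, h3, h4, h5, h6, -⟩ := hnum n hn d hd
    have h7 := final_bound hDO (n := n) (d := d) (k := 3) (m := m n d) (by norm_num) (by norm_num)
      (le_trans hn64 hn) h2 h3 h4 h5 h6
    refine le_trans (le_of_eq ?_) h7
    congr 1
    exact card_filter_any _ _ _ _ _ (fun G _ => not_not)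
  refine ((w1.and hWS).and w3).mono ⟨0, fun n _ d h => h⟩ ⟨n₁, ?_⟩
  rintro n hn d hd G hG ⟨⟨h1, h2⟩, h3⟩
  obtain ⟨-, -, -, -, -, h4⟩ := hnum n hn d hd
  have hT : T1 (K n) G := fun a b hab =>
    (Nat.le_floor (h1 a b hab)).trans (Nat.le_succ _)
  exact fp2_of hG hT (Nat.succ_le_succ (Nat.zero_le _)) h2 h4 h3

end Pool.Agent.RRG
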