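import Pool.Agent.RRG.Basic

/-!
# ADET: distinct star fingerprints imply rigidity (MP_d15a9b_pr)
-/

open Finset Filter Topology
open scoped Classical

namespace Pool.Agent.RRG

namespace ADet

variable {n : ℕ} {G H : Gr n} {σ : Fin n → Equiv.Perm (Fin n)}

/-- star relation seen from the first vertex -/
theorem star1_a (h : IsPartner G H σ) {v u : Fin n} (hu : G.Adj v u) (a z : Fin n) :
    Star1 G v u a z ↔ Star1 H v (σ v u) (σ v a) (σ v z) := by
  unfold Star1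
  rw [← h.adj_root v a, ← h.adj_nb hu z]
  simp only [ne_eq, EmbeddingLike.apply_eq_iff_eq, h.ne_root_iff]
  constructor
  · rintro ⟨h1, h2, h3, h4, h5, y, y1, y2, y3, y4⟩
    refine ⟨h1, h2, h3, h4, h5, σ v y, ?_, ?_, (h.adj_nb h1 y).1 y3, ?_⟩
    · rwa [h.ne_root_iff]
    · rwa [EmbeddingLike.apply_eq_iff_eq]
    · exact (h.adj v z y (ball2_adj2 hu h3) (ball2_adj2 h1 y3)).1 y4
  · rintro ⟨h1, h2, h3, h4, h5, y, y1, y2, y3, y4⟩
    obtain ⟨y, rfl⟩ := (σ v).surjective y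
    have y3' := (h.adj_nb h1 y).2 y3
    refine ⟨h1, h2, h3, h4, h5, y, ?_, ?_, y3', ?_⟩
    · rwa [h.ne_root_iff] at y1
    · rwa [EmbeddingLike.apply_eq_iff_eq] at y2
    · exact (h.adj v z y (ball2_adj2 hu h3) (ball2_adj2 h1 y3')).2 y4

/-- star relation seen from the second vertex -/
theorem star1_b (h : IsPartner G H σ) {v u : Fin n} (hu : G.Adj u v) (a z : Fin n) :
    Star1 G v u a z ↔ Star1 H (σ u v) u (σ u a) (σ u z) := by
  unfold Star1
  rw [← h.adj_nb hu a, ← h.adj_root u z]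
  simp only [ne_eq, EmbeddingLike.apply_eq_iff_eq, h.ne_root_iff]
  constructor
  · rintro ⟨h1, h2, h3, h4, h5, y, y1, y2, y3, y4⟩
    refine ⟨h1, h2, h3, h4, h5, σ u y, ?_, ?_, ?_, (h.adj_nb h3 y).1 y4⟩
    · rwa [EmbeddingLike.apply_eq_iff_eq]
    · rwa [h.ne_root_iff]
    · exact (h.adj u a y (ball2_adj2 hu h1) (ball2_adj2 h3 y4)).1 y3
  · rintro ⟨h1, h2, h3, h4, h5, y, y1, y2, y3, y4⟩
    obtain ⟨y, rfl⟩ := (σ u).surjective y
    have y4' := (h.adj_nb h3 y).2 y4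
    refine ⟨h1, h2, h3, h4, h5, y, ?_, ?_, ?_, y4'⟩
    · rwa [EmbeddingLike.apply_eq_iff_eq] at y1
    · rwa [h.ne_root_iff] at y2
    · exact (h.adj u a y (ball2_adj2 hu h1) (ball2_adj2 h3 y4')).2 y3

theorem star2_a (h : IsPartner G H σ) {v u : Fin n} (hu : G.Adj v u) (a a' z : Fin n) :
    Star2 G v u a a' z ↔ Star2 H v (σ v u) (σ v a) (σ v a') (σ v z) := by
  unfold Star2
  rw [← h.adj_root v a, ← h.adj_root v a', ← h.adj_nb hu z]
  simp only [ne_eq, EmbeddingLike.apply_eq_iff_eq, h.ne_root_iff]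
  constructor
  · rintro ⟨h1, h2, h3, h4, h5, h6, h7, h8, h9, y, y1, y2, y3, y4, y5⟩
    refine ⟨h1, h2, h3, h4, h5, h6, h7, h8, h9, σ v y, ?_, ?_, (h.adj_nb h1 y).1 y3, (h.adj_nb h3 y).1 y4, ?_⟩
    · rwa [h.ne_root_iff]
    · rwa [EmbeddingLike.apply_eq_iff_eq]
    · exact (h.adj v z y (ball2_adj2 hu h5) (ball2_adj2 h1 y3)).1 y5
  · rintro ⟨h1, h2, h3, h4, h5, h6, h7, h8, h9, y, y1, y2, y3, y4, y5⟩
    obtain ⟨y, rfl⟩ := (σ v).surjective y
    have y3' := (h.adj_nb h1 y).2 y3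
    refine ⟨h1, h2, h3, h4, h5, h6, h7, h8, h9, y, ?_, ?_, y3', (h.adj_nb h3 y).2 y4, ?_⟩
    · rwa [h.ne_root_iff] at y1
    · rwa [EmbeddingLike.apply_eq_iff_eq] at y2
    · exact (h.adj v z y (ball2_adj2 hu h5) (ball2_adj2 h1 y3')).2 y5

theorem star2_b (h : IsPartner G H σ) {v u : Fin n} (hu : G.Adj u v) (a a' z : Fin n) :
    Star2 G v u a a' z ↔ Star2 H (σ u v) u (σ u a) (σ u a') (σ u z) := by
  unfold Star2
  rw [← h.adj_nb hu a, ← h.adj_nb hu a', ← h.adj_root u z]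
  simp only [ne_eq, EmbeddingLike.apply_eq_iff_eq, h.ne_root_iff]
  constructor
  · rintro ⟨h1, h2, h3, h4, h5, h6, h7, h8, h9, y, y1, y2, y3, y4, y5⟩
    refine ⟨h1, h2, h3, h4, h5, h6, h7, h8, h9, σ u y, ?_, ?_, ?_, ?_, (h.adj_nb h5 y).1 y5⟩
    · rwa [EmbeddingLike.apply_eq_iff_eq]
    · rwa [h.ne_root_iff]
    · exact (h.adj u a y (ball2_adj2 hu h1) (ball2_adj2 h5 y5)).1 y3
    · exact (h.adj u a' y (ball2_adj2 hu h3) (ball2_adj2 h5 y5)).1 y4
  · rintro ⟨h1, h2, h3, h4, h5, h6, h7, h8, h9, y, y1, y2, y3, y4, y5⟩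
    obtain ⟨y, rfl⟩ := (σ u).surjective y
    have y5' := (h.adj_nb h5 y).2 y5
    refine ⟨h1, h2, h3, h4, h5, h6, h7, h8, h9, y, ?_, ?_, ?_, ?_, y5'⟩
    · rwa [EmbeddingLike.apply_eq_iff_eq] at y1
    · rwa [h.ne_root_iff] at y2
    · exact (h.adj u a y (ball2_adj2 hu h1) (ball2_adj2 h5 y5')).2 y3
    · exact (h.adj u a' y (ball2_adj2 hu h3) (ball2_adj2 h5 y5')).2 y4

end ADet

open ADet

theorem adet_proof : Stmt_Adet := by
  intro n d G hG hFP H σ hp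
  have hs := hp.symm
  refine eq_of_le_reg hG (hp.reg hG) fun v w hvw => ?_
  by_contra hnot
  set u := (σ v).symm w with hu
  set u'' := (σ w).symm v with hu''
  have hvu : G.Adj v u := (hp.adj_root_symm v w).1 hvw
  have hwu'' : G.Adj w u'' := (hp.adj_root_symm w v).1 hvw.symm
  have hσu : σ v u = w := by rw [hu]; simp
  have hne : (v, u) ≠ (u'', w) := by
    intro he
    have : u = w := (Prod.mk.inj he).2
    rw [this] at hvu
    exact hnot hvu
  let ψ : Equiv.Perm (Fin n) := (σ v).trans (σ w).symm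
  have hψ : ∀ x, ψ x = (σ w).symm (σ v x) := fun x => rfl
  have hmp : MapsPair G v u u'' w ψ := by
    refine ⟨?_, ?_, ?_, ?_⟩
    · rw [hψ, hp.root]
    · rw [hψ, hσu, hp.root_symm]
    · intro a
      rw [hψ, hp.adj_root v a, hp.adj_nb_symm hvw.symm]
    · intro z
      rw [hψ, hp.adj_nb hvu z, hσu, hp.adj_root_symm w]
  rcases hFP with h1 | h2
  · refine h1 v u u'' w hvu hwu''.symm hne ψ hmp fun a z => ?_
    rw [star1_a hp hvu a z, hσu, star1_b hs hvw.symm]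
    rfl
  · refine h2 v u u'' w hvu hwu''.symm hne ψ hmp fun a a' z => ?_
    rw [star2_a hp hvu a a' z, hσu, star2_b hs hvw.symm]
    rfl

end Pool.Agent.RRG
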