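import Pool.Agent.RRG.Basic

/-!
# BDET: distinct occupancy profiles imply rigidity (MP_d15a9b_pr)
-/

open Finset Filter Topology
open scoped Classical

namespace Pool.Agent.RRG

namespace BDetM

variable {n : ℕ} {G H : Gr n} {σ : Fin n → Equiv.Perm (Fin n)}

theorem Xc_a (h : IsPartner G H σ) {v u a : Fin n} (hu : G.Adj v u) (ha : G.Adj v a) :
    Xc G v u a = Xc H v (σ v u) (σ v a) := by
  unfold Xc
  refine card_equiv ((σ v).prodCongr (σ v)) ?_
  rintro ⟨y, z⟩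
  simp only [mem_filter, mem_univ, true_and, Equiv.prodCongr_apply, Prod.map_apply, ne_eq,
    EmbeddingLike.apply_eq_iff_eq, h.ne_root_iff]
  rw [← h.adj_nb ha y, ← h.adj_nb hu z]
  constructor
  · rintro ⟨h1, h2, h3, h4, h5, h6⟩
    exact ⟨h1, h2, h3, (h.adj v y z (ball2_adj2 ha h1) (ball2_adj2 hu h5)).1 h4, h5, h6⟩
  · rintro ⟨h1, h2, h3, h4, h5, h6⟩
    exact ⟨h1, h2, h3, (h.adj v y z (ball2_adj2 ha h1) (ball2_adj2 hu h5)).2 h4, h5, h6⟩

theorem Xc_b (h : IsPartner G H σ) {v u a : Fin n} (hu : G.Adj u v) (ha : G.Adj v a) :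
    Xc G v u a = Xc H (σ u v) u (σ u a) := by
  unfold Xc
  refine card_equiv ((σ u).prodCongr (σ u)) ?_
  rintro ⟨y, z⟩
  simp only [mem_filter, mem_univ, true_and, Equiv.prodCongr_apply, Prod.map_apply, ne_eq,
    EmbeddingLike.apply_eq_iff_eq, h.ne_root_iff]
  rw [← h.adj_root u z]
  constructor
  · rintro ⟨h1, h2, h3, h4, h5, h6⟩
    exact ⟨(h.adj u a y (ball2_adj2 hu ha) (ball2_adj2 h5 h4.symm)).1 h1, h2, h3,
      (h.adj_nb' h5 y).1 h4, h5, h6⟩
  · rintro ⟨h1, h2, h3, h4, h5, h6⟩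
    have h4' := (h.adj_nb' h5 y).2 h4
    exact ⟨(h.adj u a y (ball2_adj2 hu ha) (ball2_adj2 h5 h4'.symm)).2 h1, h2, h3, h4', h5, h6⟩

theorem prof_a (h : IsPartner G H σ) {v u : Fin n} (hu : G.Adj v u) (k : ℕ) :
    prof G v u k = prof H v (σ v u) k := by
  unfold prof
  refine card_equiv (σ v) ?_
  intro a
  simp only [mem_filter, mem_univ, true_and, ne_eq, EmbeddingLike.apply_eq_iff_eq]
  rw [← h.adj_root v a]
  constructor
  · rintro ⟨h1, h2, h3⟩
    exact ⟨h1, h2, by rw [← Xc_a h hu h1]; exact h3⟩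
  · rintro ⟨h1, h2, h3⟩
    exact ⟨h1, h2, by rw [Xc_a h hu h1]; exact h3⟩

theorem prof_b (h : IsPartner G H σ) {v u : Fin n} (hu : G.Adj u v) (k : ℕ) :
    prof G v u k = prof H (σ u v) u k := by
  unfold prof
  refine card_equiv (σ u) ?_
  intro a
  simp only [mem_filter, mem_univ, true_and, ne_eq]
  rw [← h.adj_nb hu a, h.ne_root_iff]
  constructor
  · rintro ⟨h1, h2, h3⟩
    exact ⟨h1, h2, by rw [← Xc_b h hu h1]; exact h3⟩
  · rintro ⟨h1, h2, h3⟩
    exact ⟨h1, h2, by rw [Xc_b h hu h1]; exact h3⟩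

end BDetM

open BDetM

theorem bdet_proof : Stmt_Bdet := by
  intro n d G hG hFP H σ hp
  have hs := hp.symm
  refine eq_of_le_reg hG (hp.reg hG) fun v w hvw => ?_
  by_contra hnot
  set u := (σ v).symm w with hu
  set u'' := (σ w).symm v with hu''
  have hvu : G.Adj v u := (hp.adj_root_symm v w).1 hvw
  have hwu'' : G.Adj w u'' := (hp.adj_root_symm w v).1 hvw.symm
  have hσu : σ v u = w := by rw [hu]; simp
  have hne : (v, u) ≠ (u'', w) := by
    intro he
    have : u = w := (Prod.mk.inj he).2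
    rw [this] at hvu
    exact hnot hvu
  obtain ⟨k, hk⟩ := hFP v u u'' w hvu hwu''.symm hne
  apply hk
  rw [prof_a hp hvu k, hσu, prof_b hs hvw.symm k]

end Pool.Agent.RRG
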