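import Pool.Agent.RRG.Basic

/-!
# Module BFIN (MP_d15a9b_pr): regime B from TYPB, KEY, FIVELOW
-/

open Finset Filter Topology
open scoped Classical

namespace Pool.Agent.RRG

namespace BFin

theorem regime_five {CA : ℝ} {κ : ℝ} (hκ : κ ≤ 1 / 10) :
    ∃ n₀ : ℕ, ∀ n ≥ n₀, ∀ d : ℕ, ((n : ℝ) ^ (1 - κ) ≤ (d : ℝ) ^ 3 ∧ (d : ℝ) ^ 3 ≤ CA * n) →
      ((n : ℝ) ^ (1 / 4 + 1 / 20 : ℝ) ≤ d ∧ (d : ℝ) ≤ (n : ℝ) ^ (1 / 2 - 1 / 20 : ℝ)) := by
  have ht : Tendsto (fun n : ℕ => (n : ℝ) ^ (7 / 20 : ℝ)) atTop atTop :=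
    (tendsto_rpow_atTop (by norm_num)).comp tendsto_natCast_atTop_atTop
  obtain ⟨n₀, h0⟩ := eventually_atTop.1 (ht.eventually_ge_atTop CA)
  refine ⟨max 1 n₀, fun n hn d hd => ?_⟩
  have hn1 : 1 ≤ n := le_trans (le_max_left _ _) hn
  have hn0 : n₀ ≤ n := le_trans (le_max_right _ _) hn
  have hn' : (1 : ℝ) ≤ n := by exact_mod_cast hn1
  have hnp : (0 : ℝ) < n := by linarith
  constructor
  · have h1 : ((n : ℝ) ^ (1 / 4 + 1 / 20 : ℝ)) ^ 3 ≤ (d : ℝ) ^ 3 := by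
      refine le_trans ?_ hd.1
      rw [← Real.rpow_natCast ((n : ℝ) ^ (1 / 4 + 1 / 20 : ℝ)), ← Real.rpow_mul (by positivity)]
      refine Real.rpow_le_rpow_of_exponent_le hn' ?_
      norm_num
      linarith
    exact le_of_pow_le_pow_left₀ (by norm_num) (by positivity) h1
  · have h1 : (d : ℝ) ^ 3 ≤ ((n : ℝ) ^ (1 / 2 - 1 / 20 : ℝ)) ^ 3 := by
      refine hd.2.trans ?_
      rw [← Real.rpow_natCast ((n : ℝ) ^ (1 / 2 - 1 / 20 : ℝ)), ← Real.rpow_mul (by positivity)]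
      have e : (n : ℝ) ^ ((1 / 2 - 1 / 20) * ((3 : ℕ) : ℝ)) = (n : ℝ) ^ (7 / 20 : ℝ) * n := by
        nth_rw 3 [← Real.rpow_one (n : ℝ)]
        rw [← Real.rpow_add hnp]
        norm_num
      rw [e]
      exact mul_le_mul_of_nonneg_right (h0 n hn0) (by positivity)
    exact le_of_pow_le_pow_left₀ (by norm_num) (by positivity) h1

end BFin

open BFin

theorem BFin_proof (hT : Stmt_TypB) (hK : Stmt_Key) (hF : Stmt_FiveLow) : Stmt_B := by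
  intro CA hCA
  obtain ⟨K, K₃, κ₀, hK₃, hκ₀, wT⟩ := hT CA hCA
  obtain ⟨c, hc, wF⟩ := hF (1 / 20) (by norm_num)
  obtain ⟨κ₁, hκ₁, n₁, hKey⟩ := hK CA K K₃ c hCA hK₃ hc
  refine ⟨min (1 / 10) (min κ₀ κ₁), lt_min (by norm_num) (lt_min hκ₀ hκ₁), ?_⟩
  set κ := min (1 / 10) (min κ₀ κ₁) with hκ
  have hκa : κ ≤ 1 / 10 := min_le_left _ _
  have hκb : κ ≤ κ₀ := (min_le_right _ _).trans (min_le_left _ _)
  have hκc : κ ≤ κ₁ := (min_le_right _ _).trans (min_le_right _ _)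
  have mono : ∀ κ' : ℝ, κ ≤ κ' → ∀ n : ℕ, 1 ≤ n → ∀ d : ℕ,
      ((n : ℝ) ^ (1 - κ) ≤ (d : ℝ) ^ 3 ∧ (d : ℝ) ^ 3 ≤ CA * n) →
      ((n : ℝ) ^ (1 - κ') ≤ (d : ℝ) ^ 3 ∧ (d : ℝ) ^ 3 ≤ CA * n) := by
    intro κ' hκ' n hn d hd
    have hn' : (1 : ℝ) ≤ n := by exact_mod_cast hn
    exact ⟨(Real.rpow_le_rpow_of_exponent_le hn' (by linarith)).trans hd.1, hd.2⟩
  have wT' : Whp (fun n d => (n : ℝ) ^ (1 - κ) ≤ (d : ℝ) ^ 3 ∧ (d : ℝ) ^ 3 ≤ CA * n)
      (fun _ d G => T1 K G ∧ TB2 K₃ G ∧ TB3 G ∧ TB4 d G ∧ TB6 G) :=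
    wT.mono ⟨1, fun n hn d hd => mono κ₀ hκb n hn d hd⟩ ⟨0, fun _ _ _ _ _ _ h => h⟩
  have wF' : Whp (fun n d => (n : ℝ) ^ (1 - κ) ≤ (d : ℝ) ^ 3 ∧ (d : ℝ) ^ 3 ≤ CA * n)
      (fun n d G => FiveLow c n d G) :=
    wF.mono (regime_five hκa) ⟨0, fun _ _ _ _ _ _ h => h⟩
  intro η hη
  obtain ⟨n₂, W⟩ := (wT'.and wF') (η / 2) (by linarith)
  obtain ⟨n₃, hn₃⟩ := exists_nat_gt (2 / η)
  refine ⟨max 1 (max n₁ (max n₂ n₃)), fun n hn d hd => ?_⟩
  have hn0 : 1 ≤ n := le_trans (le_max_left _ _) hn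
  have hn1 : n₁ ≤ n := le_trans (le_trans (le_max_left _ _) (le_max_right _ _)) hn
  have hn2 : n₂ ≤ n := le_trans (le_trans (le_trans (le_max_left _ _) (le_max_right _ _)) (le_max_right _ _)) hn
  have hn3 : n₃ ≤ n := le_trans (le_trans (le_trans (le_max_right _ _) (le_max_right _ _)) (le_max_right _ _)) hn
  have hn' : (1 : ℝ) ≤ n := by exact_mod_cast hn0
  have hnp : (0 : ℝ) < n := by linarith
  have hd' := mono κ₁ hκc n hn0 d hd
  have W2 := W n hn2 d hd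
  set I := (univ : Finset (Fin n × Fin n × Fin n × Fin n)).filter fun t =>
    t.1 ≠ t.2.1 ∧ t.2.2.1 ≠ t.2.2.2 ∧ (t.1, t.2.1) ≠ (t.2.2.1, t.2.2.2) with hI
  set F : Fin n × Fin n × Fin n × Fin n → Finset (Gr n) := fun t =>
    (Reg n d).filter fun G => TypB K K₃ c n d G ∧ G.Adj t.1 t.2.1 ∧ G.Adj t.2.2.1 t.2.2.2 ∧
          ∀ k, prof G t.1 t.2.1 k = prof G t.2.2.1 t.2.2.2 k with hFd
  have hsub : ((Reg n d).filter fun G => ¬ FPB G) ⊆
      ((Reg n d).filter fun G => ¬ TypB K K₃ c n d G) ∪ I.biUnion F := by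
    intro G hG
    rw [mem_filter] at hG
    rw [mem_union]
    by_cases ht : TypB K K₃ c n d G
    · right
      have hG2 := hG.2
      unfold FPB at hG2
      push Not at hG2
      obtain ⟨v, u, v', u', a1, a2, hne, hp⟩ := hG2
      rw [mem_biUnion]
      refine ⟨(v, u, v', u'), ?_, ?_⟩
      · rw [hI, mem_filter]
        exact ⟨mem_univ _, a1.ne, a2.ne, hne⟩
      · rw [hFd, mem_filter]
        exact ⟨hG.1, ht, a1, a2, hp⟩
    · left
      rw [mem_filter]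
      exact ⟨hG.1, ht⟩
  have hcard : ∀ t ∈ I, ((F t).card : ℝ) ≤ (n : ℝ) ^ (-5 : ℝ) * (Reg n d).card := by
    intro t ht
    rw [hI, mem_filter] at ht
    exact hKey n hn1 d hd'.1 hd'.2 _ _ _ _ ht.2.1 ht.2.2.1 ht.2.2.2
  have hIc : (I.card : ℝ) ≤ (n : ℝ) ^ 4 := by
    have : I.card ≤ n ^ 4 := by
      refine (card_filter_le _ _).trans (le_of_eq ?_)
      simp only [card_univ, Fintype.card_prod, Fintype.card_fin]
      ring
    exact_mod_cast this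
  have hT2 : (((Reg n d).filter fun G => ¬ TypB K K₃ c n d G).card : ℝ) ≤ η / 2 * (Reg n d).card := by
    refine le_trans ?_ W2
    refine Nat.cast_le.2 (card_le_card ?_)
    intro G hG
    simp only [mem_filter] at hG ⊢
    refine ⟨hG.1, fun h => hG.2 ?_⟩
    exact ⟨h.1.1, h.1.2.1, h.1.2.2.1, h.1.2.2.2.1, h.1.2.2.2.2, h.2⟩
  calc (((Reg n d).filter fun G => ¬ FPB G).card : ℝ)
      ≤ (((Reg n d).filter fun G => ¬ TypB K K₃ c n d G).card : ℝ) + (∑ t ∈ I, (F t).card : ℕ) := by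
        rw [← Nat.cast_add]
        exact Nat.cast_le.2 ((card_le_card hsub).trans ((card_union_le _ _).trans
          (Nat.add_le_add_left card_biUnion_le _)))
    _ ≤ η / 2 * (Reg n d).card + ∑ t ∈ I, (n : ℝ) ^ (-5 : ℝ) * (Reg n d).card := by
        rw [Nat.cast_sum]
        exact add_le_add hT2 (sum_le_sum hcard)
    _ = η / 2 * (Reg n d).card + I.card * ((n : ℝ) ^ (-5 : ℝ) * (Reg n d).card) := by
        rw [sum_const, nsmul_eq_mul]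
    _ ≤ η / 2 * (Reg n d).card + (n : ℝ) ^ 4 * ((n : ℝ) ^ (-5 : ℝ) * (Reg n d).card) := by
        gcongr
    _ = η / 2 * (Reg n d).card + (1 / n) * (Reg n d).card := by
        have : (n : ℝ) ^ (-5 : ℝ) = 1 / (n : ℝ) ^ 5 := by
          rw [Real.rpow_neg hnp.le]
          norm_num
        rw [this]
        field_simp
    _ ≤ η / 2 * (Reg n d).card + η / 2 * (Reg n d).card := by
        have h1 : (1 : ℝ) / n ≤ η / 2 := by
          have : (2 / η : ℝ) < n := hn₃.trans_le (by exact_mod_cast hn3)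
          rw [div_lt_iff₀ hη] at this
          rw [div_le_div_iff₀ hnp (by norm_num)]
          linarith
        gcongr
    _ = η * (Reg n d).card := by ring

end Pool.Agent.RRG
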