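import Pool.Agent.RRG.Stmts

/-!
# Basic facts (MP_d15a9b_pr): partners, `Whp`
-/

open Finset Filter Topology
open scoped Classical

namespace Pool.Agent.RRG

variable {n : ℕ} {G H : Gr n} {σ : Fin n → Equiv.Perm (Fin n)}

@[simp] theorem mem_nb {v w : Fin n} : w ∈ nb G v ↔ G.Adj v w := by simp [nb]

theorem mem_Reg {d : ℕ} : G ∈ Reg n d ↔ ∀ v, (nb G v).card = d := by simp [Reg]

theorem mem_ed {e : Sym2 (Fin n)} : e ∈ ed G ↔ e ∈ G.edgeSet := by simp [ed]

theorem mk_mem_ed {x y : Fin n} : s(x, y) ∈ ed G ↔ G.Adj x y := by simp [ed]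

theorem ball2_root (G : Gr n) (v : Fin n) : v ∈ ball2 G v := Or.inl rfl

theorem ball2_adj {v x : Fin n} (h : G.Adj v x) : x ∈ ball2 G v := Or.inr (Or.inl h)

theorem ball2_adj2 {v x y : Fin n} (h : G.Adj v x) (h' : G.Adj x y) : y ∈ ball2 G v :=
  Or.inr (Or.inr ⟨x, h, h'⟩)

namespace IsPartner

/-- (I0) -/
theorem adj_root (h : IsPartner G H σ) (v x : Fin n) : G.Adj v x ↔ H.Adj v (σ v x) := by
  have hr := h.root v
  constructor
  · intro hx
    have := (h.adj v v x (ball2_root G v) (ball2_adj hx)).1 hx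
    rwa [hr] at this
  · intro hx
    have hb : x ∈ ball2 G v := (h.ball v x).2 (ball2_adj hx)
    refine (h.adj v v x (ball2_root G v) hb).2 ?_
    rwa [hr]

/-- (I1) -/
theorem adj_nb (h : IsPartner G H σ) {v x : Fin n} (hx : G.Adj v x) (y : Fin n) :
    G.Adj x y ↔ H.Adj (σ v x) (σ v y) := by
  constructor
  · intro hy
    exact (h.adj v x y (ball2_adj hx) (ball2_adj2 hx hy)).1 hy
  · intro hy
    have hb : y ∈ ball2 G v := (h.ball v y).2 (ball2_adj2 ((h.adj_root v x).1 hx) hy)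
    exact (h.adj v x y (ball2_adj hx) hb).2 hy

theorem adj_root_symm (h : IsPartner G H σ) (v w : Fin n) : H.Adj v w ↔ G.Adj v ((σ v).symm w) := by
  rw [h.adj_root v ((σ v).symm w)]; simp

theorem adj_nb_symm (h : IsPartner G H σ) {v w : Fin n} (hw : H.Adj v w) (y : Fin n) :
    H.Adj w y ↔ G.Adj ((σ v).symm w) ((σ v).symm y) := by
  have := h.adj_nb ((h.adj_root_symm v w).1 hw) ((σ v).symm y)
  simpa using this.symm

theorem root_symm (h : IsPartner G H σ) (v : Fin n) : (σ v).symm v = v := by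
  have := h.root v
  rw [Equiv.symm_apply_eq]; exact this.symm

/-- the inverse is a partner too -/
theorem symm (h : IsPartner G H σ) : IsPartner H G (fun v => (σ v).symm) where
  root v := h.root_symm v
  ball v x := by
    have := h.ball v ((σ v).symm x)
    simp only [Equiv.apply_symm_apply] at this
    exact this.symm
  adj v x y hx hy := by
    have h1 := h.ball v ((σ v).symm x)
    have h2 := h.ball v ((σ v).symm y)
    simp only [Equiv.apply_symm_apply] at h1 h2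
    have := h.adj v _ _ (h1.2 hx) (h2.2 hy)
    simpa using this.symm

theorem nb_eq (h : IsPartner G H σ) (v : Fin n) : nb H v = (nb G v).map (σ v).toEmbedding := by
  ext w
  simp only [mem_nb, mem_map_equiv]
  exact h.adj_root_symm v w

theorem nb_eq' (h : IsPartner G H σ) {v u : Fin n} (hu : G.Adj v u) :
    nb H (σ v u) = (nb G u).map (σ v).toEmbedding := by
  ext w
  simp only [mem_nb, mem_map_equiv]
  have := h.adj_nb hu ((σ v).symm w)
  simpa using this.symm

theorem reg {d : ℕ} (h : IsPartner G H σ) (hG : G ∈ Reg n d) : H ∈ Reg n d := by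
  rw [mem_Reg] at *
  intro v
  rw [h.nb_eq v, card_map, hG v]

theorem adj_nb' (h : IsPartner G H σ) {v x : Fin n} (hx : G.Adj v x) (y : Fin n) :
    G.Adj y x ↔ H.Adj (σ v y) (σ v x) := by
  rw [G.adj_comm, H.adj_comm]; exact h.adj_nb hx y

/-- 3-paths between two neighbours of `v` -/
theorem P3_iff (h : IsPartner G H σ) {v x z : Fin n} (hx : G.Adj v x) (hz : G.Adj v z) (y y' : Fin n) :
    P3 G x y y' z ↔ P3 H (σ v x) (σ v y) (σ v y') (σ v z) := by
  have e1 := h.adj_nb hx y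
  have e2 := h.adj_nb' hz y'
  have e3 : G.Adj x y → G.Adj y' z → (G.Adj y y' ↔ H.Adj (σ v y) (σ v y')) := fun a b =>
    h.adj v y y' (ball2_adj2 hx a) (ball2_adj2 hz b.symm)
  unfold P3
  simp only [ne_eq, EmbeddingLike.apply_eq_iff_eq]
  tauto

theorem ne_root_iff (h : IsPartner G H σ) (v y : Fin n) : σ v y = v ↔ y = v := by
  constructor
  · intro hy
    have : σ v y = σ v v := by rw [hy, h.root]
    exact (σ v).injective this
  · rintro rfl; exact h.root y

theorem C5_iff (h : IsPartner G H σ) (v w p q c : Fin n) :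
    C5 G v w p q c ↔ C5 H v (σ v w) (σ v p) (σ v q) (σ v c) := by
  have e0 := h.adj_root v w
  have e4 : G.Adj c v ↔ H.Adj (σ v c) v := by
    rw [G.adj_comm, H.adj_comm]; exact h.adj_root v c
  have e1 : G.Adj v w → (G.Adj w p ↔ H.Adj (σ v w) (σ v p)) := fun a => h.adj_nb a p
  have e3 : G.Adj c v → (G.Adj q c ↔ H.Adj (σ v q) (σ v c)) := fun a => h.adj_nb' a.symm q
  have e2 : G.Adj v w → G.Adj w p → G.Adj q c → G.Adj c v →
      (G.Adj p q ↔ H.Adj (σ v p) (σ v q)) := fun a b b' a' =>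
    h.adj v p q (ball2_adj2 a b) (ball2_adj2 a'.symm b'.symm)
  have n1 : v = σ v p ↔ v = p := by
    rw [eq_comm, h.ne_root_iff, eq_comm]
  have n2 : v = σ v q ↔ v = q := by
    rw [eq_comm, h.ne_root_iff, eq_comm]
  unfold C5
  simp only [ne_eq, EmbeddingLike.apply_eq_iff_eq, n1, n2]
  constructor
  · rintro ⟨a, b, c', e, f, g⟩
    exact ⟨e0.1 a, (e1 a).1 b, (e2 a b e f).1 c', (e3 f).1 e, e4.1 f, g⟩
  · rintro ⟨a, b, c', e, f, g⟩
    have a' := e0.2 a
    have f' := e4.2 f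
    have b' := (e1 a').2 b
    have e' := (e3 f').2 e
    exact ⟨a', b', (e2 a' b' e' f').2 c', e', f', g⟩

/-- (H1) -/
theorem T1' {K : ℕ} (h : IsPartner G H σ) (hK : T1 K G) : T1 K H := by
  intro x x' hne
  by_cases hc : (nb H x ∩ nb H x').Nonempty
  · obtain ⟨v, hv⟩ := hc
    simp only [mem_inter, mem_nb] at hv
    have hx : H.Adj v x := hv.1.symm
    have hx' : H.Adj v x' := hv.2.symm
    have e : nb H x ∩ nb H x' =
        (nb G ((σ v).symm x) ∩ nb G ((σ v).symm x')).map (σ v).toEmbedding := by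
      ext y
      simp only [mem_inter, mem_nb, mem_map_equiv]
      rw [h.adj_nb_symm hx y, h.adj_nb_symm hx' y]
    rw [e, card_map]
    exact hK _ _ (fun he => hne ((σ v).symm.injective he))
  · rw [not_nonempty_iff_eq_empty] at hc
    simp [hc]

/-- (H2) -/
theorem P3_card_le {K : ℕ} (h : IsPartner G H σ) (hK : T2 K G) {v x z : Fin n} (hx : H.Adj v x)
    (hz : H.Adj v z) (hne : x ≠ z) :
    (univ.filter fun t : Fin n × Fin n => P3 H x t.1 t.2 z).card ≤ K := by
  have hs := h.symm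
  have e : (univ.filter fun t : Fin n × Fin n => P3 H x t.1 t.2 z).card
      ≤ (univ.filter fun t : Fin n × Fin n => P3 G ((σ v).symm x) t.1 t.2 ((σ v).symm z)).card := by
    refine card_le_card_of_injOn (fun t => ((σ v).symm t.1, (σ v).symm t.2)) ?_ ?_
    · intro t ht
      simp only [coe_filter, mem_univ, true_and, Set.mem_ofPred_eq] at ht ⊢
      exact (hs.P3_iff hx hz t.1 t.2).1 ht
    · intro a _ b _ hab
      simp only [Prod.mk.injEq, EmbeddingLike.apply_eq_iff_eq] at hab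
      exact Prod.ext hab.1 hab.2
  exact e.trans (hK _ _ (fun he => hne ((σ v).symm.injective he)))

/-- (H3) -/
theorem nC5_eq (h : IsPartner G H σ) (v w : Fin n) : nC5 H v w = nC5 G v ((σ v).symm w) := by
  unfold nC5
  refine card_bij (fun t _ => ((σ v).symm t.1, (σ v).symm t.2.1, (σ v).symm t.2.2)) ?_ ?_ ?_
  · intro t ht
    simp only [mem_filter, mem_univ, true_and] at ht ⊢
    exact (h.symm.C5_iff v w t.1 t.2.1 t.2.2).1 ht
  · intro a _ b _ hab
    simp only [Prod.mk.injEq, EmbeddingLike.apply_eq_iff_eq] at hab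
    exact Prod.ext hab.1 (Prod.ext hab.2.1 hab.2.2)
  · intro t ht
    refine ⟨(σ v t.1, σ v t.2.1, σ v t.2.2), ?_, ?_⟩
    · simp only [mem_filter, mem_univ, true_and] at ht ⊢
      rw [h.C5_iff] at ht
      simpa using ht
    · simp

theorem T3' {c₁ c₂ : ℝ} {d : ℕ} (h : IsPartner G H σ) (h3 : T3 c₁ c₂ n d G) : T3 c₁ c₂ n d H := by
  intro v w hvw
  rw [h.nC5_eq]
  exact h3 v _ ((h.adj_root_symm v w).1 hvw)

/-- (H5) -/
theorem nP3_eq (h : IsPartner G H σ) (v : Fin n) (A B : Finset (Fin n)) (hA : A ⊆ nb H v)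
    (hB : B ⊆ nb H v) :
    nP3 H v A B = nP3 G v (A.map (σ v).symm.toEmbedding) (B.map (σ v).symm.toEmbedding) := by
  unfold nP3
  refine card_bij (fun t _ => ((σ v).symm t.1, (σ v).symm t.2.1, (σ v).symm t.2.2.1, (σ v).symm t.2.2.2)) ?_ ?_ ?_
  · intro t ht
    simp only [mem_filter, mem_univ, true_and, mem_map_equiv, Equiv.symm_symm,
      Equiv.apply_symm_apply] at ht ⊢
    obtain ⟨ha, hb, hp, n1, n2⟩ := ht
    have hx := mem_nb.1 (hA ha)
    have hz := mem_nb.1 (hB hb)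
    refine ⟨ha, hb, (h.symm.P3_iff hx hz _ _).1 hp, ?_, ?_⟩
    · rwa [ne_eq, h.symm.ne_root_iff v]
    · rwa [ne_eq, h.symm.ne_root_iff v]
  · intro a _ b _ hab
    simp only [Prod.mk.injEq, EmbeddingLike.apply_eq_iff_eq] at hab
    exact Prod.ext hab.1 (Prod.ext hab.2.1 (Prod.ext hab.2.2.1 hab.2.2.2))
  · intro t ht
    refine ⟨(σ v t.1, σ v t.2.1, σ v t.2.2.1, σ v t.2.2.2), ?_, ?_⟩
    · simp only [mem_filter, mem_univ, true_and, mem_map_equiv, Equiv.symm_symm] at ht ⊢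
      obtain ⟨ha, hb, hp, n1, n2⟩ := ht
      have hx : G.Adj v t.1 := by
        rw [h.adj_root]; exact mem_nb.1 (hA ha)
      have hz : G.Adj v t.2.2.2 := by
        rw [h.adj_root]; exact mem_nb.1 (hB hb)
      refine ⟨ha, hb, (h.P3_iff hx hz _ _).1 hp, ?_, ?_⟩
      · rwa [ne_eq, h.ne_root_iff v]
      · rwa [ne_eq, h.ne_root_iff v]
    · simp

theorem T6' {C : ℝ} {d : ℕ} (h : IsPartner G H σ) (h6 : T6 C n d G) : T6 C n d H := by
  intro v A B hA hB
  rw [h.nP3_eq v A B hA hB]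
  have hA' : A.map (σ v).symm.toEmbedding ⊆ nb G v := by
    intro x hx
    simp only [mem_map_equiv, Equiv.symm_symm] at hx
    rw [mem_nb, h.adj_root]; exact mem_nb.1 (hA hx)
  have hB' : B.map (σ v).symm.toEmbedding ⊆ nb G v := by
    intro x hx
    simp only [mem_map_equiv, Equiv.symm_symm] at hx
    rw [mem_nb, h.adj_root]; exact mem_nb.1 (hB hx)
  have := h6 v _ _ hA' hB'
  simpa using this

end IsPartner

/-! ### unchanged edges -/

theorem Ch.symm {v w : Fin n} (h : Ch H σ v w) : Ch H σ w v := ⟨h.1.symm, h.2.symm⟩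

theorem Ch.comm {v w : Fin n} : Ch H σ v w ↔ Ch H σ w v := ⟨Ch.symm, Ch.symm⟩

theorem not_Ch {v w : Fin n} (h : IsPartner G H σ) (hvw : H.Adj v w) (hc : ¬ Ch H σ v w) :
    G.Adj v w ∧ (σ v).symm w = w ∧ (σ w).symm v = v ∧ σ v w = w ∧ σ w v = v := by
  unfold Ch at hc
  push Not at hc
  obtain ⟨a, b⟩ := hc hvw
  refine ⟨?_, a, b, ?_, ?_⟩
  · have := (h.adj_root_symm v w).1 hvw
    rwa [a] at this
  · rw [Equiv.symm_apply_eq] at a; exact a.symm
  · rw [Equiv.symm_apply_eq] at b; exact b.symm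

theorem Ch_of_not_adj {v w : Fin n} (h : IsPartner G H σ) (hvw : H.Adj v w) (hG : ¬ G.Adj v w) :
    Ch H σ v w := by
  refine ⟨hvw, Or.inl fun e => hG ?_⟩
  have := (h.adj_root_symm v w).1 hvw
  rwa [e] at this

theorem Mch_eq_sum (H : Gr n) (σ : Fin n → Equiv.Perm (Fin n)) : Mch H σ = ∑ x, Fd H σ x := by
  unfold Mch Fd
  rw [card_eq_sum_card_fiberwise (f := fun t : Fin n × Fin n => t.1) (t := univ) (fun _ _ => mem_univ _)]
  refine sum_congr rfl fun x _ => ?_
  refine card_bij (fun t _ => t.2) ?_ ?_ ?_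
  · intro t ht
    simp only [mem_filter, mem_univ, true_and] at ht ⊢
    rw [← ht.2]; exact ht.1
  · intro a ha b hb hab
    simp only [mem_filter, mem_univ, true_and] at ha hb
    exact Prod.ext (ha.2.trans hb.2.symm) hab
  · intro y hy
    simp only [mem_filter, mem_univ, true_and] at hy
    exact ⟨(x, y), by simpa using hy, rfl⟩

/-- a subgraph of a regular graph of the same degree is everything -/
theorem eq_of_le_reg {d : ℕ} (hG : G ∈ Reg n d) (hH : H ∈ Reg n d) (hle : ∀ v w, H.Adj v w → G.Adj v w) :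
    H = G := by
  ext v w
  have hs : nb H v ⊆ nb G v := fun x hx => mem_nb.2 (hle v x (mem_nb.1 hx))
  have he : nb H v = nb G v := by
    refine eq_of_subset_of_card_le hs ?_
    rw [mem_Reg.1 hG v, mem_Reg.1 hH v]
  rw [← mem_nb, he, mem_nb]

theorem eq_of_Mch_zero {d : ℕ} (hG : G ∈ Reg n d) (h : IsPartner G H σ) (h0 : Mch H σ = 0) : H = G := by
  refine eq_of_le_reg hG (h.reg hG) fun v w hvw => ?_
  have : ¬ Ch H σ v w := by
    intro hc
    unfold Mch at h0
    rw [card_eq_zero] at h0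
    have : (v, w) ∈ (univ.filter fun t : Fin n × Fin n => Ch H σ t.1 t.2) := by simpa using hc
    rw [h0] at this
    simp at this
  exact (not_Ch h hvw this).1

/-! ### `Whp` -/

theorem Whp.mono {Rg Rg' : ℕ → ℕ → Prop} {P Q : (n d : ℕ) → Gr n → Prop} (h : Whp Rg P)
    (hR : ∃ n₀ : ℕ, ∀ n ≥ n₀, ∀ d, Rg' n d → Rg n d) (hP : ∃ n₀ : ℕ, ∀ n ≥ n₀, ∀ d, Rg' n d → ∀ G ∈ Reg n d, P n d G → Q n d G) :
    Whp Rg' Q := by
  intro η hη
  obtain ⟨n₀, h0⟩ := h η hη
  obtain ⟨n₁, h1⟩ := hR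
  obtain ⟨n₂, h2⟩ := hP
  refine ⟨max n₀ (max n₁ n₂), fun n hn d hd => ?_⟩
  have := h0 n (by omega) d (h1 n (by omega) d hd)
  refine le_trans ?_ this
  have : ((Reg n d).filter fun G => ¬ Q n d G) ⊆ ((Reg n d).filter fun G => ¬ P n d G) := by
    intro G hG
    simp only [mem_filter] at hG ⊢
    exact ⟨hG.1, fun hp => hG.2 (h2 n (by omega) d hd G hG.1 hp)⟩
  exact_mod_cast card_le_card this

theorem Whp.and {Rg : ℕ → ℕ → Prop} {P Q : (n d : ℕ) → Gr n → Prop} (h : Whp Rg P) (h' : Whp Rg Q) :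
    Whp Rg (fun n d G => P n d G ∧ Q n d G) := by
  intro η hη
  obtain ⟨n₀, h0⟩ := h (η / 2) (by linarith)
  obtain ⟨n₁, h1⟩ := h' (η / 2) (by linarith)
  refine ⟨max n₀ n₁, fun n hn d hd => ?_⟩
  have a := h0 n (by omega) d hd
  have b := h1 n (by omega) d hd
  refine le_trans (b := ((((Reg n d).filter fun G => ¬ P n d G).card : ℝ) +
    (((Reg n d).filter fun G => ¬ Q n d G).card : ℝ))) ?_ ?_
  · rw [← Nat.cast_add]
    refine Nat.cast_le.2 ((card_le_card ?_).trans (card_union_le _ _))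
    intro G hG
    simp only [mem_filter, mem_union] at hG ⊢
    tauto
  · calc _ ≤ η / 2 * ((Reg n d).card : ℝ) + η / 2 * ((Reg n d).card : ℝ) := add_le_add a b
      _ = η * (Reg n d).card := by ring

/-- `Whp` from a pointwise bound `≤ ε(n) * #Reg` with `ε(n) → 0` -/
theorem Whp.of_bound {Rg : ℕ → ℕ → Prop} {P : (n d : ℕ) → Gr n → Prop} (f : ℕ → ℝ)
    (hf : Tendsto f atTop (𝓝 0))
    (h : ∃ n₀ : ℕ, ∀ n ≥ n₀, ∀ d, Rg n d →
      (((Reg n d).filter fun G => ¬ P n d G).card : ℝ) ≤ f n * (Reg n d).card) : Whp Rg P := by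
  intro η hη
  obtain ⟨n₀, h0⟩ := h
  have : ∀ᶠ n in atTop, f n < η := (tendsto_order.1 hf).2 η hη
  obtain ⟨n₁, h1⟩ := eventually_atTop.1 this
  refine ⟨max n₀ n₁, fun n hn d hd => ?_⟩
  refine (h0 n (by omega) d hd).trans ?_
  exact mul_le_mul_of_nonneg_right (h1 n (by omega)).le (by positivity)

end Pool.Agent.RRG
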