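import Pool.Agent.RRG.Basic

/-!
# CFIN: regime C (MP_d15a9b_pr)
-/

open Finset Filter Topology
open scoped Classical

namespace Pool.Agent.RRG

namespace CFin

theorem T1_mono {n : ℕ} {G : Gr n} {K K' : ℕ} (h : K ≤ K') (hK : T1 K G) : T1 K' G :=
  fun u v huv => (hK u v huv).trans h

theorem T2_mono {n : ℕ} {G : Gr n} {K K' : ℕ} (h : K ≤ K') (hK : T2 K G) : T2 K' G :=
  fun u v huv => (hK u v huv).trans h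

/-- regime C implies `d ≤ n^{1/3}` -/
theorem RegC_le {ε ε₀ : ℝ} (h0 : 0 < ε₀) {n d : ℕ} (hn : 1 ≤ n) (h : RegC ε ε₀ n d) :
    (d : ℝ) ≤ (n : ℝ) ^ (1 / 2 - 1 / 6 : ℝ) := by
  have hn' : (1 : ℝ) ≤ n := by exact_mod_cast hn
  have h1 : (d : ℝ) ^ 3 ≤ ((n : ℝ) ^ (1 / 2 - 1 / 6 : ℝ)) ^ 3 := by
    refine h.2.trans ?_
    rw [← Real.rpow_natCast ((n : ℝ) ^ (1 / 2 - 1 / 6 : ℝ)), ← Real.rpow_mul (by positivity)]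
    refine Real.rpow_le_rpow_of_exponent_le hn' ?_
    norm_num
    linarith
  exact le_of_pow_le_pow_left₀ (by norm_num) (by positivity) h1

end CFin

open CFin

theorem cfin_proof (hCod : Stmt_Codeg) (h2 : Stmt_T2) (h3 : Stmt_T3) (h4 : Stmt_T4)
    (h6 : Stmt_T6) (h7 : Stmt_T7) (h8 : Stmt_T8) (h9 : Stmt_T9) (hP : Stmt_PH1) (hF : Stmt_StepF)
    (hG : Stmt_StepG) : Stmt_C := by
  intro ε ε₀ hε hε₀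
  obtain ⟨K1, w1⟩ := hCod (1 / 6) (by norm_num)
  obtain ⟨K2, w2⟩ := h2 ε₀ hε₀
  obtain ⟨c₁, c₂, hc₁, hc₂, w3⟩ := h3 ε ε₀ hε hε₀
  obtain ⟨c₄, hc₄, w4⟩ := h4 ε ε₀ hε hε₀
  obtain ⟨c₅, hc₅⟩ : ∃ c₅ : ℝ, 0 < c₅ := ⟨1, one_pos⟩
  obtain ⟨C₆, hC₆, w6⟩ := h6 ε ε₀ hε hε₀
  obtain ⟨δ, hδ, wP⟩ := hP ε ε₀ hε hε₀
  obtain ⟨c₇, hc₇, w7⟩ := h7 ε ε₀ δ hε hε₀ hδ
  obtain ⟨c₈, hc₈, w8⟩ := h8 ε ε₀ hε hε₀
  obtain ⟨c₉, hc₉, w9⟩ := h9 ε ε₀ δ hε hε₀ hδ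
  set K := max K1 K2 with hK
  obtain ⟨η₁, C₃, hη₁, hC₃, HF⟩ := hF K ε ε₀ c₁ c₂ c₄ c₅ C₆ δ c₇ c₈ c₉ hε hε₀ hc₁ hc₂ hc₄ hc₅ hC₆ hδ hc₇ hc₈ hc₉
  obtain ⟨C₅, hC₅, HG⟩ := hG K ε ε₀ c₁ c₂ c₄ c₅ C₆ δ c₇ c₈ c₉ hε hε₀ hc₁ hc₂ hc₄ hc₅ hC₆ hδ hc₇ hc₈ hc₉
  set η₂ := min η₁ (η₁ / (2 * C₃ * C₅)) with hη₂
  have hη₂p : 0 < η₂ := lt_min hη₁ (by positivity)
  obtain ⟨n₁, HF'⟩ := HF η₂ hη₂p (min_le_left _ _)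
  obtain ⟨n₂, HG'⟩ := HG (C₃ * η₂) (by positivity)
  have w1' : Whp (RegC ε ε₀) (fun _ _ G => T1 K1 G) :=
    w1.mono ⟨1, fun n hn d hd => RegC_le hε₀ hn hd⟩ ⟨0, fun _ _ _ _ _ _ h => h⟩
  have w2' : Whp (RegC ε ε₀) (fun _ _ G => T2 K2 G) :=
    w2.mono ⟨0, fun n _ d hd => hd.2⟩ ⟨0, fun _ _ _ _ _ _ h => h⟩
  have W := (w1'.and w2').and (w3.and (w4.and (w6.and (w7.and (w8.and (w9.and wP))))))
  refine W.mono ⟨0, fun _ _ _ h => h⟩ ⟨max 1 (max n₁ n₂), fun n hn d hd G hGr hT => ?_⟩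
  obtain ⟨⟨t1, t2⟩, t3, t4, t6, t7, t8, t9, tP⟩ := hT
  have hn1 : 1 ≤ n := le_trans (le_max_left _ _) hn
  have hnn1 : n₁ ≤ n := le_trans (le_trans (le_max_left _ _) (le_max_right _ _)) hn
  have hnn2 : n₂ ≤ n := le_trans (le_trans (le_max_right _ _) (le_max_right _ _)) hn
  intro H σ hpart
  have ctx : Ctx K c₁ c₂ c₄ c₅ C₆ δ c₇ c₈ c₉ n d G H σ :=
    ⟨hGr, hpart, T1_mono (le_max_left _ _) t1, T2_mono (le_max_right _ _) t2, t3, t4, trivial, t6, t7, t8, t9,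
      tP H σ hpart⟩
  by_cases h0 : Mch H σ = 0
  · exact eq_of_Mch_zero hGr hpart h0
  · exfalso
    obtain ⟨b, hb1, hb2⟩ := HF' n hnn1 d hd G H σ ctx (Nat.pos_of_ne_zero h0)
    have := HG' n hnn2 d hd G H σ ctx b hb2
    have hd0 : (0 : ℝ) < d := by
      have hn' : (0 : ℝ) < n := by exact_mod_cast hn1
      exact lt_of_lt_of_le (Real.rpow_pos_of_pos hn' _) hd.1
    have hle : C₅ * (C₃ * η₂) ≤ η₁ / 2 := by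
      have : η₂ ≤ η₁ / (2 * C₃ * C₅) := min_le_right _ _
      calc C₅ * (C₃ * η₂) ≤ C₅ * (C₃ * (η₁ / (2 * C₃ * C₅))) := by gcongr
        _ = η₁ / 2 := by field_simp
    have : (Fd H σ b : ℝ) ≤ η₁ / 2 * d := this.trans (by gcongr)
    nlinarith

end Pool.Agent.RRG
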