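import Pool.Agent.RRG.Basic

/-!
# CODEG: codegrees (MP_d15a9b_pr)
-/

open Finset Filter Topology
open scoped Classical

namespace Pool.Agent.RRG

namespace CodegM

theorem core (hDO : Stmt_DO) (n d : ℕ) (hn : 64 ≤ n) (hd : 64 * d ≤ n) (m : ℕ)
    (hm : 32 * (m * 2) ≤ n * d) (u v : Fin n) (huv : u ≠ v) :
    (((Reg n d).filter fun G => m ≤ (nb G u ∩ nb G v).card).card : ℝ) * (m.factorial : ℝ)
      ≤ (4 * (d : ℝ) ^ 2 / n) ^ m * (Reg n d).card := by
  have hn0 : (0 : ℝ) < n := by
    have : (64 : ℝ) ≤ n := by exact_mod_cast hn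
    linarith
  set I : Finset (Fin n) := univ.filter fun x => x ≠ u ∧ x ≠ v with hI
  set E : Fin n → Finset (Sym2 (Fin n)) := fun x => {s(u, x), s(x, v)} with hE
  have hcard : ∀ x ∈ I, (E x).card = 2 := by
    intro x hx
    simp only [hI, mem_filter, mem_univ, true_and] at hx
    rw [hE]
    refine card_pair ?_
    intro h
    rw [Sym2.eq_iff] at h
    rcases h with ⟨h1, h2⟩ | ⟨h1, h2⟩
    · exact hx.1 h1.symm
    · exact huv h1
  have h := hDO n d hn hd ∅ ∅ (by simp) (Fin n) I E m 2 ?_ hm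
  · have e1 : ∑ i ∈ I, (2 * (d : ℝ) / n) ^ (E i).card ≤ 4 * (d : ℝ) ^ 2 / n := by
      rw [sum_congr rfl fun i hi => by rw [hcard i hi]]
      rw [sum_const, nsmul_eq_mul]
      have e2 : (I.card : ℝ) ≤ n := by
        have := card_le_univ I
        rw [Fintype.card_fin] at this
        exact_mod_cast this
      calc (I.card : ℝ) * (2 * (d : ℝ) / n) ^ 2 ≤ n * (2 * (d : ℝ) / n) ^ 2 :=
            mul_le_mul_of_nonneg_right e2 (by positivity)
        _ = 4 * (d : ℝ) ^ 2 / n := by field_simp; ring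
    have e3 : 0 ≤ ∑ i ∈ I, (2 * (d : ℝ) / n) ^ (E i).card := sum_nonneg fun i _ => by positivity
    have e4 : ∀ G ∈ ((Reg n d).filter fun G => m ≤ (nb G u ∩ nb G v).card),
        (G ∈ Reg n d ∧ ed G ∩ ∅ = ∅ ∧ ∃ J ⊆ I, J.card = m ∧
        (∀ i ∈ J, ∀ j ∈ J, i ≠ j → Disjoint (E i) (E j)) ∧ ∀ i ∈ J, E i ⊆ ed G) := by
      intro G hG
      simp only [mem_filter] at hG
      refine ⟨hG.1, inter_empty _, ?_⟩
      obtain ⟨J, hJ, hJm⟩ := exists_subset_card_eq hG.2
      have hJ1 : ∀ x ∈ J, G.Adj u x ∧ G.Adj v x := by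
        intro x hx
        have := hJ hx
        simpa using this
      have hJI : J ⊆ I := by
        intro x hx
        simp only [hI, mem_filter, mem_univ, true_and]
        exact ⟨(hJ1 x hx).1.ne', (hJ1 x hx).2.ne'⟩
      refine ⟨J, hJI, hJm, ?_, ?_⟩
      · intro x hx y hy hxy
        have h1 := hJI hx
        have h2 := hJI hy
        simp only [hI, mem_filter, mem_univ, true_and] at h1 h2
        rw [disjoint_left]
        intro e he he'
        simp only [hE, mem_insert, mem_singleton] at he he'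
        rcases he with rfl | rfl <;> rcases he' with he' | he' <;> rw [Sym2.eq_iff] at he' <;>
          rcases he' with ⟨a, b⟩ | ⟨a, b⟩ <;> tauto
      · intro x hx e he
        simp only [hE, mem_insert, mem_singleton] at he
        rcases he with rfl | rfl
        · rw [mk_mem_ed]; exact (hJ1 x hx).1
        · rw [mk_mem_ed]; exact (hJ1 x hx).2.symm
    refine le_trans (le_trans (mul_le_mul_of_nonneg_right (Nat.cast_le.2 (card_le_card ?_))
      (by positivity)) h) ?_
    · intro G hG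
      simp only [mem_filter]
      exact e4 G hG
    · exact mul_le_mul (pow_le_pow_left₀ e3 e1 m) (Nat.cast_le.2 (card_filter_le _ _)) (by positivity)
        (by positivity)
  · intro x hx
    refine ⟨(hcard x hx).le, ?_⟩
    simp only [hI, mem_filter, mem_univ, true_and] at hx
    intro e he
    refine ⟨by simp, ?_, by simp⟩
    simp only [hE, mem_insert, mem_singleton] at he
    rcases he with rfl | rfl
    · simpa using hx.1.symm
    · simpa using hx.2

/-- union bound -/
theorem union (n d : ℕ) (m : ℕ) (B : ℝ) (P : Gr n → Prop)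
    (hP : ∀ G ∈ Reg n d, ¬ P G → ∃ u v, u ≠ v ∧ m ≤ (nb G u ∩ nb G v).card)
    (hB0 : 0 ≤ B)
    (hB : ∀ u v : Fin n, u ≠ v → (((Reg n d).filter fun G => m ≤ (nb G u ∩ nb G v).card).card : ℝ)
      ≤ B) : (((Reg n d).filter fun G => ¬ P G).card : ℝ) ≤ (n : ℝ) ^ 2 * B := by
  have h1 : ((Reg n d).filter fun G => ¬ P G) ⊆
      ((univ : Finset (Fin n × Fin n)).filter fun p => p.1 ≠ p.2).biUnion fun p =>
        (Reg n d).filter fun G => m ≤ (nb G p.1 ∩ nb G p.2).card := by
    intro G hG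
    rw [mem_filter] at hG
    obtain ⟨u, v, huv, h⟩ := hP G hG.1 hG.2
    simp only [mem_biUnion, mem_filter, mem_univ, true_and]
    exact ⟨(u, v), huv, hG.1, h⟩
  have h2 : (((Reg n d).filter fun G => ¬ P G).card : ℝ) ≤
      ∑ p ∈ (univ : Finset (Fin n × Fin n)).filter fun p => p.1 ≠ p.2,
        (((Reg n d).filter fun G => m ≤ (nb G p.1 ∩ nb G p.2).card).card : ℝ) := by
    rw [← Nat.cast_sum]
    exact Nat.cast_le.2 ((card_le_card h1).trans card_biUnion_le)
  refine h2.trans ?_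
  have h3 : ∑ p ∈ (univ : Finset (Fin n × Fin n)).filter fun p => p.1 ≠ p.2,
        (((Reg n d).filter fun G => m ≤ (nb G p.1 ∩ nb G p.2).card).card : ℝ)
        ≤ ∑ _p ∈ (univ : Finset (Fin n × Fin n)).filter fun p => p.1 ≠ p.2, B := by
    refine sum_le_sum fun p hp => ?_
    exact hB p.1 p.2 (mem_filter.1 hp).2
  refine h3.trans ?_
  rw [sum_const, nsmul_eq_mul]
  refine mul_le_mul_of_nonneg_right ?_ hB0
  have := card_filter_le (univ : Finset (Fin n × Fin n)) (fun p => p.1 ≠ p.2)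
  rw [card_univ, Fintype.card_prod, Fintype.card_fin] at this
  calc _ ≤ ((n * n : ℕ) : ℝ) := Nat.cast_le.2 this
    _ = (n : ℝ) ^ 2 := by push_cast; ring

theorem nb_empty_of_zero {n : ℕ} {G : Gr n} (hG : G ∈ Reg n 0) (v : Fin n) : nb G v = ∅ :=
  card_eq_zero.1 (mem_Reg.1 hG v)

end CodegM

open CodegM

theorem codeg_proof (hDO : Stmt_DO) : Stmt_Codeg := by
  intro α hα
  -- choose m with `2 α m ≥ 3`
  obtain ⟨m, hm⟩ := exists_nat_ge (3 / (2 * α))
  have hm2 : 3 ≤ 2 * α * m := by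
    rw [div_le_iff₀ (by positivity)] at hm
    linarith
  refine ⟨m, Whp.of_bound (fun n : ℕ => 4 ^ (m + 1) * (n : ℝ)⁻¹) ?_ ?_⟩
  · have := (tendsto_inv_atTop_nhds_zero_nat (𝕜 := ℝ)).const_mul ((4 : ℝ) ^ (m + 1))
    simpa using this
  · refine ⟨4096 + 64 * (m + 1), fun n hn d hd => ?_⟩
    rcases Nat.eq_zero_or_pos d with rfl | hd0
    · refine le_trans (le_of_eq (Nat.cast_eq_zero.2 (card_eq_zero.2 (filter_eq_empty_iff.2 ?_)))) ?_
      · intro G hG h
        apply h
        intro u v _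
        simp [nb_empty_of_zero hG]
      · positivity
    have hn1 : (1 : ℝ) ≤ n := by
      have : 1 ≤ n := by omega
      exact_mod_cast this
    have hn0 : (0 : ℝ) < n := by linarith
    have hn4 : (4096 : ℝ) ≤ n := by
      have : 4096 ≤ n := by omega
      exact_mod_cast this
    have hsq : (d : ℝ) ≤ Real.sqrt n := by
      refine hd.trans ?_
      rw [Real.sqrt_eq_rpow]
      exact Real.rpow_le_rpow_of_exponent_le hn1 (by linarith)
    have h64 : 64 * d ≤ n := by
      have h1 : (64 : ℝ) ≤ Real.sqrt n := by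
        rw [Real.le_sqrt (by norm_num) hn0.le]
        linarith
      have h2 : (64 : ℝ) * d ≤ n := by
        calc (64 : ℝ) * d ≤ Real.sqrt n * Real.sqrt n := mul_le_mul h1 hsq (by positivity) (by positivity)
          _ = n := Real.mul_self_sqrt hn0.le
      exact_mod_cast h2
    have hcore : ∀ u v : Fin n, u ≠ v → (((Reg n d).filter fun G => m + 1 ≤ (nb G u ∩ nb G v).card).card : ℝ)
        ≤ (4 * (d : ℝ) ^ 2 / n) ^ (m + 1) * (Reg n d).card := by
      intro u v huv
      have h1 := core hDO n d (by omega) h64 (m + 1) (by nlinarith) u v huv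
      refine le_trans ?_ h1
      have h2 : (1 : ℝ) ≤ ((m + 1).factorial : ℝ) := by
        exact_mod_cast Nat.succ_le_of_lt (Nat.factorial_pos _)
      nlinarith [Nat.cast_nonneg (α := ℝ) ((Reg n d).filter fun G => m + 1 ≤ (nb G u ∩ nb G v).card).card]
    have hu := union n d (m + 1) _ (fun G => T1 m G) ?_ (by positivity) hcore
    · refine hu.trans ?_
      rw [← mul_assoc]
      refine mul_le_mul_of_nonneg_right ?_ (by positivity)
      have e1 : (d : ℝ) ^ 2 / n ≤ (n : ℝ) ^ (-(2 * α)) := by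
        rw [div_le_iff₀ hn0]
        calc (d : ℝ) ^ 2 ≤ ((n : ℝ) ^ (1 / 2 - α)) ^ 2 := pow_le_pow_left₀ (by positivity) hd 2
          _ = (n : ℝ) ^ (-(2 * α)) * n := by
              rw [← Real.rpow_natCast ((n : ℝ) ^ (1 / 2 - α)), ← Real.rpow_mul hn0.le]
              nth_rewrite 3 [← Real.rpow_one (n : ℝ)]
              rw [← Real.rpow_add hn0]
              congr 1
              push_cast
              ring
      have e2 : (4 * (d : ℝ) ^ 2 / n) ^ (m + 1) ≤ 4 ^ (m + 1) * (n : ℝ) ^ (-(3 : ℝ)) := by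
        calc (4 * (d : ℝ) ^ 2 / n) ^ (m + 1) = 4 ^ (m + 1) * ((d : ℝ) ^ 2 / n) ^ (m + 1) := by
              rw [← mul_pow]; congr 1; ring
          _ ≤ 4 ^ (m + 1) * ((n : ℝ) ^ (-(2 * α))) ^ (m + 1) := by
              refine mul_le_mul_of_nonneg_left ?_ (by positivity)
              exact pow_le_pow_left₀ (by positivity) e1 _
          _ ≤ 4 ^ (m + 1) * (n : ℝ) ^ (-(3 : ℝ)) := by
              refine mul_le_mul_of_nonneg_left ?_ (by positivity)
              rw [← Real.rpow_natCast, ← Real.rpow_mul hn0.le]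
              refine Real.rpow_le_rpow_of_exponent_le hn1 ?_
              push_cast
              nlinarith
      calc (n : ℝ) ^ 2 * (4 * (d : ℝ) ^ 2 / n) ^ (m + 1)
            ≤ (n : ℝ) ^ 2 * (4 ^ (m + 1) * (n : ℝ) ^ (-(3 : ℝ))) :=
              mul_le_mul_of_nonneg_left e2 (by positivity)
        _ = 4 ^ (m + 1) * (n : ℝ)⁻¹ := by
              rw [Real.rpow_neg hn0.le]
              have : (n : ℝ) ^ (3 : ℝ) = (n : ℝ) ^ 3 := by
                rw [← Real.rpow_natCast]; norm_num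
              rw [this]
              field_simp
    · intro G _ h
      unfold T1 at h
      push Not at h
      obtain ⟨u, v, huv, h⟩ := h
      exact ⟨u, v, huv, h⟩

theorem codegLog_proof (hDO : Stmt_DO) : Stmt_CodegLog := by
  intro C hC
  set e1 : ℝ := Real.exp 1 with he1
  have he1p : 0 < e1 := Real.exp_pos 1
  set K : ℝ := 4 * e1 ^ 2 * C ^ 2 + 3 with hK
  have hKp : 3 ≤ K := by
    have : 0 ≤ 4 * e1 ^ 2 * C ^ 2 := by positivity
    linarith
  refine ⟨K, by linarith, Whp.of_bound (fun n : ℕ => (n : ℝ)⁻¹) tendsto_inv_atTop_nhds_zero_nat ?_⟩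
  -- growth conditions
  have hg1 : ∀ᶠ n : ℕ in atTop, K * Real.log n + 1 ≤ (n : ℝ) / 64 := by
    have h1 : Tendsto (fun x : ℝ => Real.log x / x) atTop (𝓝 0) := by
      have := Real.isLittleO_log_id_atTop
      exact this.tendsto_div_nhds_zero
    have h2 : Tendsto (fun n : ℕ => K * (Real.log n / n) + ((n : ℝ))⁻¹) atTop (𝓝 (K * 0 + 0)) :=
      (((h1.comp tendsto_natCast_atTop_atTop).const_mul K)).add tendsto_inv_atTop_nhds_zero_nat
    have h3 : ∀ᶠ n : ℕ in atTop, K * (Real.log n / n) + ((n : ℝ))⁻¹ < 1 / 64 :=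
      (tendsto_order.1 h2).2 _ (by norm_num)
    filter_upwards [h3, eventually_gt_atTop 0] with n h4 h5
    have h6 : (0 : ℝ) < n := by exact_mod_cast h5
    have h7 : (K * (Real.log n / n) + ((n : ℝ))⁻¹) * n ≤ 1 / 64 * n :=
      mul_le_mul_of_nonneg_right h4.le h6.le
    have h8 : (K * (Real.log n / n) + ((n : ℝ))⁻¹) * n = K * Real.log n + 1 := by
      field_simp
    rw [h8] at h7
    linarith
  have hg2 : ∀ᶠ n : ℕ in atTop, C * Real.sqrt (n * Real.log n) ≤ (n : ℝ) / 64 := by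
    have h1 : Tendsto (fun x : ℝ => Real.log x / x) atTop (𝓝 0) := by
      have := Real.isLittleO_log_id_atTop
      exact this.tendsto_div_nhds_zero
    have h2 : Tendsto (fun n : ℕ => (64 * C) ^ 2 * (Real.log n / n)) atTop (𝓝 ((64 * C) ^ 2 * 0)) :=
      (h1.comp tendsto_natCast_atTop_atTop).const_mul _
    rw [mul_zero] at h2
    have h3 : ∀ᶠ n : ℕ in atTop, (64 * C) ^ 2 * (Real.log n / n) < 1 :=
      (tendsto_order.1 h2).2 _ (by norm_num)
    filter_upwards [h3, eventually_gt_atTop 0] with n h4 h5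
    have h6 : (0 : ℝ) < n := by exact_mod_cast h5
    have h7 : 64 * C * Real.sqrt (n * Real.log n) ≤ n := by
      rw [← Real.sqrt_sq (show (0 : ℝ) ≤ 64 * C by positivity), ← Real.sqrt_mul (by positivity),
        Real.sqrt_le_left h6.le]
      have h8 : (64 * C) ^ 2 * (Real.log n / n) * (n ^ 2 : ℝ) ≤ 1 * (n ^ 2 : ℝ) :=
        mul_le_mul_of_nonneg_right h4.le (by positivity)
      have h9 : (64 * C) ^ 2 * (Real.log n / n) * (n ^ 2 : ℝ) = (64 * C) ^ 2 * (n * Real.log n) := by
        field_simp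
      rw [h9, one_mul] at h8
      exact h8
    linarith
  obtain ⟨n₀, h0⟩ := eventually_atTop.1 (hg1.and hg2)
  refine ⟨max n₀ 64, fun n hn d hd => ?_⟩
  obtain ⟨g1, g2⟩ := h0 n (by omega)
  have hn64 : 64 ≤ n := by omega
  have hn64' : (64 : ℝ) ≤ n := by exact_mod_cast hn64
  have hn0 : (0 : ℝ) < n := by linarith
  have hlog : 0 < Real.log n := Real.log_pos (by linarith)
  rcases Nat.eq_zero_or_pos d with rfl | hd0
  · refine le_trans (le_of_eq (Nat.cast_eq_zero.2 (card_eq_zero.2 (eq_empty_iff_forall_notMem.2 ?_)))) ?_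
    · intro G hG
      simp only [mem_filter] at hG
      obtain ⟨hG, h⟩ := hG
      apply h
      intro u v _
      simp only [nb_empty_of_zero hG, inter_self, card_empty, Nat.cast_zero]
      positivity
    · positivity
  have h64 : 64 * d ≤ n := by
    have : (64 : ℝ) * d ≤ n := by linarith
    exact_mod_cast this
  set m : ℕ := ⌊K * Real.log n⌋₊ + 1 with hmdef
  have hm1 : K * Real.log n < m := by
    rw [hmdef]; push_cast; exact Nat.lt_floor_add_one _
  have hm2 : (m : ℝ) ≤ K * Real.log n + 1 := by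
    rw [hmdef]; push_cast
    have := Nat.floor_le (show 0 ≤ K * Real.log n by positivity)
    linarith
  have hm3 : 64 * m ≤ n := by
    have : (64 : ℝ) * m ≤ n := by linarith
    exact_mod_cast this
  have hmpos : (0 : ℝ) < m := by
    have : 0 < m := by omega
    exact_mod_cast this
  have hfac : (m : ℝ) ^ m ≤ e1 ^ m * m.factorial := by
    have h1 := Real.pow_div_factorial_le_exp (m : ℝ) hmpos.le m
    rw [div_le_iff₀ (by positivity)] at h1
    have h2 : Real.exp (m : ℝ) = e1 ^ m := by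
      rw [he1, ← Real.exp_nat_mul, mul_one]
    rwa [h2] at h1
  have hd2 : (d : ℝ) ^ 2 / n ≤ C ^ 2 * Real.log n := by
    rw [div_le_iff₀ hn0]
    calc (d : ℝ) ^ 2 ≤ (C * Real.sqrt (n * Real.log n)) ^ 2 := pow_le_pow_left₀ (by positivity) hd 2
      _ = C ^ 2 * Real.log n * n := by
          rw [mul_pow, Real.sq_sqrt (by positivity)]; ring
  have hB : (4 * (d : ℝ) ^ 2 / n) ^ m ≤ (n : ℝ) ^ (-(3 : ℝ)) * m.factorial := by
    have s1 : 4 * (d : ℝ) ^ 2 / n ≤ e1⁻¹ * e1⁻¹ * m := by
      have t1 : 4 * (d : ℝ) ^ 2 / n ≤ 4 * C ^ 2 * Real.log n := by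
        rw [mul_div_assoc]; nlinarith
      have t2 : 4 * e1 ^ 2 * C ^ 2 * Real.log n ≤ m := by
        have : 4 * e1 ^ 2 * C ^ 2 * Real.log n ≤ K * Real.log n := by
          refine mul_le_mul_of_nonneg_right ?_ hlog.le
          rw [hK]; linarith
        linarith
      have t3 : 4 * C ^ 2 * Real.log n = e1⁻¹ * e1⁻¹ * (4 * e1 ^ 2 * C ^ 2 * Real.log n) := by
        field_simp
      rw [t3] at t1
      exact t1.trans (mul_le_mul_of_nonneg_left t2 (by positivity))
    calc (4 * (d : ℝ) ^ 2 / n) ^ m ≤ (e1⁻¹ * e1⁻¹ * m) ^ m := pow_le_pow_left₀ (by positivity) s1 m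
      _ = e1⁻¹ ^ m * (e1⁻¹ ^ m * (m : ℝ) ^ m) := by rw [mul_pow, mul_pow]; ring
      _ ≤ e1⁻¹ ^ m * (e1⁻¹ ^ m * (e1 ^ m * m.factorial)) := by gcongr
      _ = e1⁻¹ ^ m * m.factorial := by
          have : e1⁻¹ ^ m * e1 ^ m = 1 := by
            rw [← mul_pow, inv_mul_cancel₀ he1p.ne', one_pow]
          rw [← mul_assoc (e1⁻¹ ^ m) (e1 ^ m), this, one_mul]
      _ ≤ (n : ℝ) ^ (-(3 : ℝ)) * m.factorial := by
          refine mul_le_mul_of_nonneg_right ?_ (by positivity)
          rw [he1, ← Real.exp_neg, ← Real.exp_nat_mul, Real.rpow_def_of_pos hn0]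
          refine Real.exp_le_exp.2 ?_
          nlinarith
  have hcore : ∀ u v : Fin n, u ≠ v → (((Reg n d).filter fun G => m ≤ (nb G u ∩ nb G v).card).card : ℝ)
      ≤ (n : ℝ) ^ (-(3 : ℝ)) * (Reg n d).card := by
    intro u v huv
    have h1 := core hDO n d hn64 h64 m (by nlinarith) u v huv
    have h2 : (0 : ℝ) < (m.factorial : ℝ) := by positivity
    refine le_of_mul_le_mul_right (a := (m.factorial : ℝ)) ?_ h2
    refine h1.trans ?_
    calc _ ≤ (n : ℝ) ^ (-(3 : ℝ)) * m.factorial * (Reg n d).card := mul_le_mul_of_nonneg_right hB (by positivity)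
      _ = _ := by ring
  have hu := union n d m _ (fun G => ∀ u v, u ≠ v → ((nb G u ∩ nb G v).card : ℝ) ≤ K * Real.log n) ?_
    (by positivity) hcore
  · refine hu.trans (le_of_eq ?_)
    rw [← mul_assoc]
    congr 1
    rw [Real.rpow_neg hn0.le]
    have : (n : ℝ) ^ (3 : ℝ) = (n : ℝ) ^ 3 := by
      rw [← Real.rpow_natCast]; norm_num
    rw [this]
    field_simp
  · intro G _ h
    push Not at h
    obtain ⟨u, v, huv, h⟩ := h
    refine ⟨u, v, huv, ?_⟩
    have h1 : ⌊K * Real.log n⌋₊ < (nb G u ∩ nb G v).card := by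
      rw [Nat.floor_lt (by positivity)]
      exact h
    omega

end Pool.Agent.RRG
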