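import Pool.Agent.RRG.Switch

/-!
# Regime D1 (dense case): every two vertices have a common neighbour (MP_d15a9b_pr)
-/

open Finset Filter Topology
open scoped Classical

set_option linter.unusedSimpArgs false
set_option linter.unusedVariables false

namespace Pool.Agent.RRG.D12

variable {n : ℕ}

/-- codegree -/
noncomputable def cd (G : Gr n) (u v : Fin n) : ℕ := (nb G u ∩ nb G v).card

noncomputable def S0 (u v : Fin n) (G : Gr n) : Finset (Fin n) :=
  univ.filter fun z => G.Adj u z ∧ ¬ G.Adj v z ∧ z ≠ v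

noncomputable def Y0 (u v : Fin n) (G : Gr n) : Finset (Fin n) :=
  univ.filter fun y => G.Adj v y ∧ ¬ G.Adj u y ∧ y ≠ u

/-- forward switchings: quadruples `(v, y, t, z)` -/
noncomputable def Fw (u v : Fin n) (G : Gr n) : Finset (Fin n × Fin n × Fin n × Fin n) :=
  univ.filter fun q => q.1 = v ∧ q.2.1 ∈ Y0 u v G ∧ q.2.2.2 ∈ S0 u v G ∧
    G.Adj q.2.2.1 q.2.2.2 ∧ q.2.2.1 ≠ u ∧ q.2.1 ≠ q.2.2.1 ∧ ¬ G.Adj q.2.2.1 q.2.1

noncomputable def Bw (u v : Fin n) (G : Gr n) : Finset (Fin n × Fin n × Fin n × Fin n) :=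
  univ.filter fun q => q.1 = v ∧ q.2.2.2 ∈ nb G u ∩ nb G v ∧ G.Adj q.2.2.1 q.2.1

theorem mem_S0 {u v : Fin n} {G : Gr n} {z : Fin n} :
    z ∈ S0 u v G ↔ G.Adj u z ∧ ¬ G.Adj v z ∧ z ≠ v := by simp [S0]

theorem mem_Y0 {u v : Fin n} {G : Gr n} {z : Fin n} :
    z ∈ Y0 u v G ↔ G.Adj v z ∧ ¬ G.Adj u z ∧ z ≠ u := by simp [Y0]

theorem mem_Fw {u v : Fin n} {G : Gr n} {q : Fin n × Fin n × Fin n × Fin n} :
    q ∈ Fw u v G ↔ q.1 = v ∧ q.2.1 ∈ Y0 u v G ∧ q.2.2.2 ∈ S0 u v G ∧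
    G.Adj q.2.2.1 q.2.2.2 ∧ q.2.2.1 ≠ u ∧ q.2.1 ≠ q.2.2.1 ∧ ¬ G.Adj q.2.2.1 q.2.1 := by simp [Fw]

theorem Y0_eq (u v : Fin n) (G : Gr n) : Y0 u v G = S0 v u G := by
  ext z; rw [mem_Y0, mem_S0]

theorem OK_of_Fw {u v : Fin n} {G : Gr n} {q : Fin n × Fin n × Fin n × Fin n} (h : q ∈ Fw u v G) :
    OKsw G q.1 q.2.1 q.2.2.1 q.2.2.2 := by
  rw [mem_Fw, mem_Y0, mem_S0] at h
  obtain ⟨h1, ⟨h2, h3, h4⟩, ⟨h5, h6, h7⟩, h8, h9, h10, h11⟩ := h
  rw [h1]
  refine ⟨h2, h8, ?_, h7.symm, h10, ?_, h6, fun h => h11 h.symm⟩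
  · intro h; rw [← h] at h8; exact h6 h8
  · intro h; rw [← h] at h6; exact h6 h2

/-- the codegree increases by exactly one -/
theorem cd_sw {u v : Fin n} {G : Gr n} (huv : u ≠ v) {q : Fin n × Fin n × Fin n × Fin n} (h : q ∈ Fw u v G) :
    cd (sw G q.1 q.2.1 q.2.2.1 q.2.2.2) u v = cd G u v + 1 ∧
    q ∈ Bw u v (sw G q.1 q.2.1 q.2.2.1 q.2.2.2) := by
  have hok := OK_of_Fw h
  rw [mem_Fw, mem_Y0, mem_S0] at h
  obtain ⟨x, y, t, z⟩ := q
  simp only at h hok ⊢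
  obtain ⟨h1, ⟨h2, h3, h4⟩, ⟨h5, h6, h7⟩, h8, h9, h10, h11⟩ := h
  subst h1
  have hu : nb (sw G x y t z) u = nb G u :=
    nb_sw_of_ne hok huv h4.symm h9.symm h5.ne
  have hx := nb_sw_x hok
  have e : nb (sw G x y t z) u ∩ nb (sw G x y t z) x = insert z (nb G u ∩ nb G x) := by
    rw [hu, hx]
    ext w
    simp only [mem_inter, mem_insert, mem_erase, mem_nb]
    constructor
    · rintro ⟨a, b | ⟨b, c⟩⟩
      · left; exact b
      · right; exact ⟨a, c⟩
    · rintro (a | ⟨a, b⟩)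
      · subst a; exact ⟨h5, Or.inl rfl⟩
      · refine ⟨a, Or.inr ⟨?_, b⟩⟩
        rintro rfl; exact h3 a
  constructor
  · unfold cd
    rw [e, card_insert_of_notMem]
    simp only [mem_inter, mem_nb]
    exact fun h => h6 h.2
  · unfold Bw
    simp only [mem_filter, mem_univ, true_and]
    refine ⟨?_, ?_⟩
    · rw [e]; exact mem_insert_self _ _
    · rw [sw_adj hok]; right; right; exact Sym2.eq_swap

theorem card_Bw {d : ℕ} {u v : Fin n} {G : Gr n} (hG : G ∈ Reg n d) :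
    (Bw u v G).card ≤ cd G u v * (n * d) := by
  rw [← card_darts hG]
  unfold cd
  rw [← card_product]
  refine card_le_card_of_injOn (fun q => (q.2.2.2, (q.2.2.1, q.2.1))) ?_ ?_
  · intro q hq
    simp only [Bw, mem_coe, mem_filter, mem_univ, true_and] at hq
    simp only [mem_coe, mem_product, mem_filter, mem_univ, true_and]
    exact ⟨hq.2.1, hq.2.2⟩
  · rintro ⟨a, b, c, e⟩ hq ⟨a', b', c', e'⟩ hq' he
    simp only [Bw, mem_coe, mem_filter, mem_univ, true_and] at hq hq'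
    simp only [Prod.mk.injEq] at he ⊢
    exact ⟨hq.1.trans hq'.1.symm, he.2.2, he.2.1, he.1⟩

theorem card_Fw (u v : Fin n) (G : Gr n) :
    ∑ t ∈ univ.erase u, ((S0 u v G ∩ nb G t).card *
      ((Y0 u v G).filter fun y => y ≠ t ∧ ¬ G.Adj t y).card) ≤ (Fw u v G).card := by
  have : ∑ t ∈ univ.erase u, ((S0 u v G ∩ nb G t).card *
      ((Y0 u v G).filter fun y => y ≠ t ∧ ¬ G.Adj t y).card) =
      ((univ.erase u).sigma fun t => (S0 u v G ∩ nb G t) ×ˢ
        ((Y0 u v G).filter fun y => y ≠ t ∧ ¬ G.Adj t y)).card := by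
    rw [card_sigma]
    refine sum_congr rfl fun t _ => ?_
    rw [card_product]
  rw [this]
  refine card_le_card_of_injOn (fun p => (v, p.2.2, p.1, p.2.1)) ?_ ?_
  · rintro ⟨t, z, y⟩ hp
    simp only [mem_coe, mem_sigma, mem_erase, mem_univ, and_true, mem_product, mem_inter,
      mem_filter, mem_nb] at hp
    rw [mem_coe, mem_Fw]
    exact ⟨rfl, hp.2.2.1, hp.2.1.1, hp.2.1.2, hp.1, hp.2.2.2.1, hp.2.2.2.2⟩
  · rintro ⟨t, z, y⟩ _ ⟨t', z', y'⟩ _ he
    simp only [Prod.mk.injEq, true_and] at he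
    obtain ⟨rfl, rfl, rfl⟩ := he
    rfl

theorem card_S0_ge {d : ℕ} {u v : Fin n} {G : Gr n} (hG : G ∈ Reg n d) :
    d ≤ (S0 u v G).card + cd G u v + 1 := by
  have h1 : nb G u ⊆ insert v (S0 u v G ∪ (nb G u ∩ nb G v)) := by
    intro z hz
    rw [mem_insert, mem_union, mem_S0, mem_inter, mem_nb, mem_nb]
    rw [mem_nb] at hz
    tauto
  have h2 := card_le_card h1
  rw [mem_Reg.1 hG u] at h2
  have h3 := card_insert_le v (S0 u v G ∪ (nb G u ∩ nb G v))
  have h4 := card_union_le (S0 u v G) (nb G u ∩ nb G v)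
  unfold cd
  omega

theorem card_S0_le {d : ℕ} {u v : Fin n} {G : Gr n} (hG : G ∈ Reg n d) :
    (S0 u v G).card ≤ d := by
  rw [← mem_Reg.1 hG u]
  refine card_le_card fun z hz => ?_
  rw [mem_S0] at hz
  rw [mem_nb]; exact hz.1

theorem disj_SY (u v : Fin n) (G : Gr n) : Disjoint (S0 u v G) (Y0 u v G) := by
  rw [Finset.disjoint_left]
  intro z h1 h2
  rw [mem_S0] at h1
  rw [mem_Y0] at h2
  exact h1.2.1 h2.1

/-- `∑_{t ≠ u} |S0 ∩ N(t)| = |S0| (d-1)` -/
theorem sum_s {d : ℕ} {u v : Fin n} {G : Gr n} (hG : G ∈ Reg n d) :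
    ∑ t ∈ univ.erase u, (S0 u v G ∩ nb G t).card = (S0 u v G).card * (d - 1) := by
  have h1 : ∀ t, (S0 u v G ∩ nb G t).card = ∑ z ∈ S0 u v G, if G.Adj z t then 1 else 0 := by
    intro t
    rw [← card_filter]
    congr 1
    ext z
    simp only [mem_inter, mem_nb, mem_filter]
    rw [G.adj_comm]
  simp_rw [h1]
  rw [sum_comm]
  rw [← smul_eq_mul, ← sum_const]
  refine sum_congr rfl fun z hz => ?_
  rw [← card_filter]
  have : (univ.erase u).filter (fun t => G.Adj z t) = (nb G z).erase u := by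
    ext t
    simp only [mem_filter, mem_erase, mem_univ, and_true, mem_nb]
  rw [this, card_erase_of_mem, mem_Reg.1 hG z]
  rw [mem_nb]; exact (mem_S0.1 hz).1.symm

theorem c_ge (u v : Fin n) (G : Gr n) (t : Fin n) :
    (Y0 u v G).card ≤ ((Y0 u v G).filter fun y => y ≠ t ∧ ¬ G.Adj t y).card +
      (Y0 u v G ∩ nb G t).card + 1 := by
  have h1 : Y0 u v G ⊆ insert t (((Y0 u v G).filter fun y => y ≠ t ∧ ¬ G.Adj t y) ∪
      (Y0 u v G ∩ nb G t)) := by
    intro z hz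
    rw [mem_insert, mem_union, mem_filter, mem_inter, mem_nb]
    tauto
  have h2 := card_le_card h1
  have h3 := card_insert_le t (((Y0 u v G).filter fun y => y ≠ t ∧ ¬ G.Adj t y) ∪
      (Y0 u v G ∩ nb G t))
  have h4 := card_union_le ((Y0 u v G).filter fun y => y ≠ t ∧ ¬ G.Adj t y) (Y0 u v G ∩ nb G t)
  omega

/-- one step of the switching argument, for a subset `A` of graphs with codegree `k` -/
theorem step {d k : ℕ} {u v : Fin n} (huv : u ≠ v) (A : Finset (Gr n))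
    (hA : ∀ G ∈ A, G ∈ Reg n d ∧ cd G u v = k) (f : ℝ) (hf : ∀ G ∈ A, f ≤ ((Fw u v G).card : ℝ)) :
    (A.card : ℝ) * f ≤ (((Reg n d).filter fun G => cd G u v = k + 1).card : ℝ) *
      (((k : ℝ) + 1) * (n * d)) := by
  refine switch_count (Fw u v) (Bw u v) f _ hf ?_ ?_
  · intro G hG q hq
    obtain ⟨hR, hk⟩ := hA G hG
    have hok := OK_of_Fw hq
    obtain ⟨h1, h2⟩ := cd_sw huv hq
    refine ⟨hok, ?_, h2⟩
    rw [mem_filter]
    exact ⟨sw_mem_Reg hok hR, by rw [h1, hk]⟩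
  · intro G hG
    rw [mem_filter] at hG
    have := card_Bw (u := u) (v := v) hG.1
    rw [hG.2] at this
    exact_mod_cast this

/-- the ladder -/
theorem ladder (N : ℕ → ℝ) (E T : ℝ) (hE : 0 ≤ E) :
    ∀ K : ℕ, (∀ k < K, N k ≤ (N (k + 1) + E) / 2) → N K ≤ T → N 0 ≤ (1 / 2) ^ K * T + E := by
  intro K
  have key : ∀ K : ℕ, (∀ k < K, N k ≤ (N (k + 1) + E) / 2) → N 0 ≤ (1 / 2) ^ K * N K + (1 - (1 / 2) ^ K) * E := by
    intro K
    induction K with
    | zero => intro _; simp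
    | succ K ih =>
      intro h
      have h1 := ih fun k hk => h k (by omega)
      have h2 := h K (by omega)
      have h3 : (0 : ℝ) ≤ (1 / 2) ^ K := by positivity
      calc N 0 ≤ (1 / 2) ^ K * N K + (1 - (1 / 2) ^ K) * E := h1
        _ ≤ (1 / 2) ^ K * ((N (K + 1) + E) / 2) + (1 - (1 / 2) ^ K) * E := by gcongr
        _ = _ := by ring
  intro h hT
  have h1 := key K h
  have h3 : (0 : ℝ) ≤ (1 / 2) ^ K := by positivity
  calc N 0 ≤ (1 / 2) ^ K * N K + (1 - (1 / 2) ^ K) * E := h1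
    _ ≤ (1 / 2) ^ K * T + 1 * E := by
        gcongr
        linarith
    _ = _ := by ring

/-- dense forward bound -/
theorem Fw_dense {d k : ℕ} {u v : Fin n} {G : Gr n} (hG : G ∈ Reg n d) (hk : cd G u v = k)
    (hn : 0 < n) (h8 : 8 ≤ d) (hk1 : 8 * (k + 1) ≤ d) (hk2 : 16 * n * (k + 2) ≤ d ^ 2) :
    (d : ℝ) ^ 4 / (2 * n) ≤ ((Fw u v G).card : ℝ) := by
  have h0 := card_Fw u v G
  set s : Fin n → ℕ := fun t => (S0 u v G ∩ nb G t).card with hs
  set c : Fin n → ℕ := fun t => ((Y0 u v G).filter fun y => y ≠ t ∧ ¬ G.Adj t y).card with hc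
  have h1 : ∀ t ∈ univ.erase u, (s t : ℝ) * ((s t : ℝ) - (k + 2)) ≤ (s t : ℝ) * (c t : ℝ) := by
    intro t _
    refine mul_le_mul_of_nonneg_left ?_ (Nat.cast_nonneg _)
    have h2 := c_ge u v G t
    have h3 : (Y0 u v G ∩ nb G t).card + s t ≤ d := by
      rw [← mem_Reg.1 hG t, ← card_union_of_disjoint]
      · refine card_le_card fun z hz => ?_
        rw [mem_union, mem_inter, mem_inter] at hz
        tauto
      · have := disj_SY u v G
        exact (this.symm.mono inter_subset_left inter_subset_left)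
    have h4 : d ≤ (Y0 u v G).card + k + 1 := by
      rw [Y0_eq]
      have := card_S0_ge (u := v) (v := u) hG
      have e : cd G v u = k := by rw [← hk]; unfold cd; rw [inter_comm]
      rw [e] at this; exact this
    have h5 : s t ≤ c t + (k + 2) := by
      simp only [hc]
      omega
    have h6 : (s t : ℝ) ≤ (c t : ℝ) + (k + 2) := by exact_mod_cast h5
    linarith
  have h2 : ∑ t ∈ univ.erase u, (s t : ℝ) * ((s t : ℝ) - (k + 2)) ≤ ((Fw u v G).card : ℝ) := by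
    refine (sum_le_sum h1).trans ?_
    exact_mod_cast h0
  refine le_trans ?_ h2
  have h3 : ∑ t ∈ univ.erase u, (s t : ℝ) * ((s t : ℝ) - (k + 2)) =
      ∑ t ∈ univ.erase u, (s t : ℝ) ^ 2 - (k + 2) * ∑ t ∈ univ.erase u, (s t : ℝ) := by
    rw [mul_sum, ← sum_sub_distrib]
    refine sum_congr rfl fun t _ => by ring
  rw [h3]
  have h4 : ∑ t ∈ univ.erase u, (s t : ℝ) = ((S0 u v G).card : ℝ) * ((d : ℝ) - 1) := by
    have := sum_s (u := u) (v := v) hG
    have h5 : ((d - 1 : ℕ) : ℝ) = (d : ℝ) - 1 := by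
      rw [Nat.cast_sub (by omega)]; simp
    rw [← h5]
    exact_mod_cast this
  have h5 : (∑ t ∈ univ.erase u, (s t : ℝ)) ^ 2 ≤ n * ∑ t ∈ univ.erase u, (s t : ℝ) ^ 2 := by
    have h6 := sq_sum_le_card_mul_sum_sq (s := univ.erase u) (f := fun t => (s t : ℝ))
    refine h6.trans ?_
    refine mul_le_mul_of_nonneg_right ?_ (sum_nonneg fun _ _ => by positivity)
    have : (univ.erase u).card ≤ n := by
      refine (card_le_univ _).trans ?_
      simp
    exact_mod_cast this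
  set Q : ℝ := ∑ t ∈ univ.erase u, (s t : ℝ) with hQ
  have hnR : (0 : ℝ) < n := by exact_mod_cast hn
  have h8R : (8 : ℝ) ≤ d := by exact_mod_cast h8
  have h7 : (3 / 4 : ℝ) * d ^ 2 ≤ Q := by
    rw [h4]
    have h8 : d ≤ (S0 u v G).card + k + 1 := by
      have := card_S0_ge (u := u) (v := v) hG
      rw [hk] at this; exact this
    have h9 : (d : ℝ) ≤ (S0 u v G).card + k + 1 := by exact_mod_cast h8
    have h10 : 8 * ((k : ℝ) + 1) ≤ d := by exact_mod_cast hk1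
    have h11 : (7 / 8 : ℝ) * d ≤ (S0 u v G).card := by linarith
    have : (7 / 8 : ℝ) * d * (d - 1) ≤ (S0 u v G).card * ((d : ℝ) - 1) :=
      mul_le_mul_of_nonneg_right h11 (by linarith)
    nlinarith
  have h9 : 16 * n * ((k : ℝ) + 2) ≤ d ^ 2 := by exact_mod_cast hk2
  have h10 : Q ^ 2 / n ≤ ∑ t ∈ univ.erase u, (s t : ℝ) ^ 2 := by
    rw [div_le_iff₀ hnR]; linarith
  have h11 : (d : ℝ) ^ 4 / (2 * n) ≤ Q ^ 2 / n - (k + 2) * Q := by
    rw [div_le_iff₀ (by positivity)]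
    have h12 : (Q ^ 2 / n - (k + 2) * Q) * (2 * n) = 2 * Q * (Q - n * (k + 2)) := by
      field_simp
    rw [h12]
    have h13 : (11 / 16 : ℝ) * d ^ 2 ≤ Q - n * (k + 2) := by linarith
    have h14 : 0 ≤ (11 / 16 : ℝ) * d ^ 2 := by positivity
    calc (d : ℝ) ^ 4 ≤ 2 * (3 / 4 * d ^ 2) * (11 / 16 * d ^ 2) := by nlinarith [sq_nonneg ((d : ℝ) ^ 2)]
      _ ≤ 2 * Q * (Q - n * (k + 2)) := by
        refine mul_le_mul (by linarith) h13 h14 (by linarith)
  linarith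

/-- union bound over pairs -/
theorem union_bound (S : Finset (Gr n)) (b : ℝ) (hb0 : 0 ≤ b)
    (hS : ∀ G ∈ S, ¬ ∀ u v, u ≠ v → (nb G u ∩ nb G v).Nonempty)
    (hb : ∀ u v : Fin n, u ≠ v → ((S.filter fun G => cd G u v = 0).card : ℝ) ≤ b) :
    (S.card : ℝ) ≤ (n : ℝ) ^ 2 * b := by
  have h1 : S ⊆ ((univ : Finset (Fin n × Fin n)).filter fun p => p.1 ≠ p.2).biUnion
        (fun p => S.filter fun G => cd G p.1 p.2 = 0) := by
    intro G hG
    have hn := hS G hG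
    push Not at hn
    obtain ⟨u, v, huv, he⟩ := hn
    rw [mem_biUnion]
    refine ⟨(u, v), by simpa using huv, ?_⟩
    rw [mem_filter]
    exact ⟨hG, by unfold cd; rw [he]; rfl⟩
  have h2 := (card_le_card h1).trans card_biUnion_le
  have h3 : (S.card : ℝ) ≤
      ∑ p ∈ (univ : Finset (Fin n × Fin n)).filter (fun p => p.1 ≠ p.2),
        ((S.filter fun G => cd G p.1 p.2 = 0).card : ℝ) := by exact_mod_cast h2
  refine h3.trans ?_
  have h4 := sum_le_card_nsmul ((univ : Finset (Fin n × Fin n)).filter (fun p => p.1 ≠ p.2))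
    (fun p => ((S.filter fun G => cd G p.1 p.2 = 0).card : ℝ)) b
    (fun p hp => hb p.1 p.2 (by simpa using hp))
  refine h4.trans ?_
  rw [nsmul_eq_mul]
  refine mul_le_mul_of_nonneg_right ?_ hb0
  have : ((univ : Finset (Fin n × Fin n)).filter (fun p => p.1 ≠ p.2)).card ≤ n ^ 2 := by
    refine (card_le_univ _).trans ?_
    simp [sq]
  exact_mod_cast this

theorem tendsto_aux : Tendsto (fun n : ℕ => (n : ℝ) ^ 2 * (1 / 2) ^ (n / 2 ^ 30)) atTop (𝓝 0) := by
  set r : ℝ := (1 / 2 : ℝ) ^ (1 / (2 : ℝ) ^ 30) with hr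
  have hr0 : 0 < r := Real.rpow_pos_of_pos (by norm_num) _
  have hr1 : r < 1 := Real.rpow_lt_one (by norm_num) (by norm_num) (by positivity)
  have hrM : r ^ (2 ^ 30) = 1 / 2 := by
    rw [hr, ← Real.rpow_natCast, ← Real.rpow_mul (by norm_num)]
    norm_num
  have h1 : Tendsto (fun n : ℕ => (n : ℝ) ^ 2 * r ^ n) atTop (𝓝 0) :=
    tendsto_pow_const_mul_const_pow_of_abs_lt_one 2 (by rw [abs_of_pos hr0]; exact hr1)
  have h2 : Tendsto (fun n : ℕ => 2 * ((n : ℝ) ^ 2 * r ^ n)) atTop (𝓝 0) := by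
    simpa using h1.const_mul 2
  refine squeeze_zero (fun n => by positivity) (fun n => ?_) h2
  have h3 : n ≤ 2 ^ 30 * (n / 2 ^ 30 + 1) := by
    have := Nat.lt_mul_div_succ n (show 0 < 2 ^ 30 by norm_num)
    omega
  have h4 : r ^ (2 ^ 30 * (n / 2 ^ 30 + 1)) ≤ r ^ n := pow_le_pow_of_le_one hr0.le hr1.le h3
  rw [pow_mul, hrM, pow_succ] at h4
  have h5 : (0 : ℝ) ≤ (n : ℝ) ^ 2 := by positivity
  nlinarith

end D12

/-- **D1** -/
theorem D1_proof : Stmt_D1 := by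
  unfold Stmt_D1
  refine Whp.of_bound (fun n => (n : ℝ) ^ 2 * (1 / 2) ^ (n / 2 ^ 30)) D12.tendsto_aux ?_
  refine ⟨2 ^ 40, fun n hn d hd => ?_⟩
  obtain ⟨hd1, hd2⟩ := hd
  have hb : ∀ u v : Fin n, u ≠ v →
      (((Reg n d).filter fun G => D12.cd G u v = 0).card : ℝ) ≤ (1 / 2) ^ (n / 2 ^ 30) * (Reg n d).card := by
    intro u v huv
    have h1 := D12.ladder (fun k => (((Reg n d).filter fun G => D12.cd G u v = k).card : ℝ)) 0
      ((Reg n d).card : ℝ) le_rfl (n / 2 ^ 30) ?_ ?_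
    · simpa using h1
    · intro k hk
      have hk' : 2 ^ 30 * (k + 1) ≤ n := by
        have := Nat.div_mul_le_self n (2 ^ 30)
        have : k + 1 ≤ n / 2 ^ 30 := hk
        omega
      have hn0 : 0 < n := by omega
      have e1 : 16 * n * (k + 2) ≤ d ^ 2 := by
        have h2 : (k + 2) * 2 ^ 29 ≤ n := by omega
        have h3 : n ^ 2 ≤ 65536 * d ^ 2 := by nlinarith
        nlinarith
      have e2 : 4 * n ^ 2 * (k + 1) ≤ d ^ 3 := by
        have h3 : n ^ 3 ≤ (256 * d) ^ 3 := Nat.pow_le_pow_left hd1 3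
        have h4 : n ^ 2 * (2 ^ 30 * (k + 1)) ≤ n ^ 3 := by
          rw [pow_succ n 2]; exact Nat.mul_le_mul_left _ hk'
        nlinarith
      have h2 := D12.step (d := d) (k := k) huv ((Reg n d).filter fun G => D12.cd G u v = k)
        (fun G hG => mem_filter.1 hG) ((d : ℝ) ^ 4 / (2 * n))
        (fun G hG => D12.Fw_dense (mem_filter.1 hG).1 (mem_filter.1 hG).2 hn0 (by omega) (by omega) e1)
      have hnR : (0 : ℝ) < n := by exact_mod_cast hn0
      have hdR : (0 : ℝ) < d := by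
        have : 0 < d := by omega
        exact_mod_cast this
      have e3 : 4 * (n : ℝ) ^ 2 * ((k : ℝ) + 1) ≤ (d : ℝ) ^ 3 := by exact_mod_cast e2
      have h3 : ((k : ℝ) + 1) * (n * d) ≤ (d : ℝ) ^ 4 / (2 * n) / 2 := by
        rw [div_div, le_div_iff₀ (by positivity)]
        calc ((k : ℝ) + 1) * (n * d) * (2 * n * 2) = (4 * (n : ℝ) ^ 2 * ((k : ℝ) + 1)) * d := by ring
          _ ≤ (d : ℝ) ^ 3 * d := mul_le_mul_of_nonneg_right e3 hdR.le
          _ = _ := by ring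
      have h4 : (0 : ℝ) < (d : ℝ) ^ 4 / (2 * n) := by positivity
      simp only [add_zero]
      have h5 := h2.trans (mul_le_mul_of_nonneg_left h3 (Nat.cast_nonneg _))
      have h6 : (((Reg n d).filter fun G => D12.cd G u v = k).card : ℝ) * ((d : ℝ) ^ 4 / (2 * n)) ≤
          ((((Reg n d).filter fun G => D12.cd G u v = k + 1).card : ℝ) / 2) * ((d : ℝ) ^ 4 / (2 * n)) := by
        calc _ ≤ _ := h5
          _ = _ := by ring
      exact le_of_mul_le_mul_right h6 h4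
    · exact_mod_cast card_le_card (filter_subset _ _)
  refine (D12.union_bound _ ((1 / 2) ^ (n / 2 ^ 30) * (Reg n d).card) (by positivity) ?_ ?_).trans
    (le_of_eq ?_)
  · intro G hG
    simp only [mem_filter] at hG
    exact hG.2
  · intro u v huv
    refine le_trans (Nat.cast_le.2 (card_le_card ?_)) (hb u v huv)
    intro G hG
    simp only [mem_filter] at hG ⊢
    exact ⟨hG.1.1, hG.2⟩
  · ring

end Pool.Agent.RRG
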