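import Pool.Agent.RRG.D1

/-!
# Regime D2: every two vertices have a common neighbour (MP_d15a9b_pr)
-/

open Finset Filter Topology
open scoped Classical

set_option linter.unusedSimpArgs false
set_option linter.unusedVariables false

namespace Pool.Agent.RRG.D12

variable {n : ℕ}

/-- good event: codegrees at most `d/8` -/
def GoodCd (d : ℕ) (G : Gr n) : Prop := ∀ u v, u ≠ v → 8 * cd G u v ≤ d

theorem sum_prod (S Y : Finset (Fin n)) (G : Gr n) :
    ∑ t : Fin n, (S ∩ nb G t).card * (Y ∩ nb G t).card = ∑ z ∈ S, ∑ y ∈ Y, cd G z y := by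
  have h1 : ∀ (S : Finset (Fin n)) t, (S ∩ nb G t).card = ∑ z ∈ S, if G.Adj z t then 1 else 0 := by
    intro S t
    rw [← card_filter]
    congr 1
    ext z
    simp only [mem_inter, mem_nb, mem_filter]
    rw [G.adj_comm]
  simp_rw [h1, sum_mul_sum]
  rw [sum_comm]
  refine sum_congr rfl fun z _ => ?_
  rw [sum_comm]
  refine sum_congr rfl fun y _ => ?_
  unfold cd
  have : nb G z ∩ nb G y = univ.filter fun t => G.Adj z t ∧ G.Adj y t := by
    ext t; simp
  rw [this, card_filter]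
  refine sum_congr rfl fun t _ => ?_
  by_cases h1 : G.Adj z t <;> by_cases h2 : G.Adj y t <;> simp [h1, h2]

theorem Fw_mid {d k : ℕ} {u v : Fin n} {G : Gr n} (hG : G ∈ Reg n d) (hg : GoodCd d G)
    (hk : cd G u v = k) (h64 : 64 ≤ d) (hk1 : 8 * (k + 2) ≤ d) :
    (d : ℝ) ^ 3 / 2 ≤ ((Fw u v G).card : ℝ) := by
  have h0 := card_Fw u v G
  set s : Fin n → ℕ := fun t => (S0 u v G ∩ nb G t).card with hs
  set r : Fin n → ℕ := fun t => (Y0 u v G ∩ nb G t).card with hr
  set c : Fin n → ℕ := fun t => ((Y0 u v G).filter fun y => y ≠ t ∧ ¬ G.Adj t y).card with hc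
  have h1 : ∀ t ∈ univ.erase u, (s t : ℝ) * (((Y0 u v G).card : ℝ) - 1) - (s t : ℝ) * r t ≤
      (s t : ℝ) * (c t : ℝ) := by
    intro t _
    have h2 : (Y0 u v G).card ≤ c t + r t + 1 := c_ge u v G t
    have h3 : ((Y0 u v G).card : ℝ) ≤ (c t : ℝ) + r t + 1 := by exact_mod_cast h2
    have h4 : (0 : ℝ) ≤ s t := Nat.cast_nonneg _
    nlinarith
  have h2 : ∑ t ∈ univ.erase u, ((s t : ℝ) * (((Y0 u v G).card : ℝ) - 1) - (s t : ℝ) * r t) ≤
      ((Fw u v G).card : ℝ) := by
    refine (sum_le_sum h1).trans ?_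
    exact_mod_cast h0
  refine le_trans ?_ h2
  rw [sum_sub_distrib, ← sum_mul]
  have h4 : ∑ t ∈ univ.erase u, (s t : ℝ) = ((S0 u v G).card : ℝ) * ((d : ℝ) - 1) := by
    have := sum_s (u := u) (v := v) hG
    have h5 : ((d - 1 : ℕ) : ℝ) = (d : ℝ) - 1 := by
      rw [Nat.cast_sub (by omega)]; simp
    rw [← h5]
    exact_mod_cast this
  have h5 : ∑ t ∈ univ.erase u, (s t : ℝ) * r t ≤ ((S0 u v G).card : ℝ) * (Y0 u v G).card * (d / 8) := by
    have h6 : ∑ t ∈ univ.erase u, s t * r t ≤ ∑ t : Fin n, s t * r t :=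
      sum_le_sum_of_subset (erase_subset _ _)
    have h7 : ∑ t : Fin n, s t * r t = ∑ z ∈ S0 u v G, ∑ y ∈ Y0 u v G, cd G z y :=
      sum_prod _ _ _
    have h8 : (∑ z ∈ S0 u v G, ∑ y ∈ Y0 u v G, (cd G z y : ℝ)) ≤
        ∑ z ∈ S0 u v G, ∑ y ∈ Y0 u v G, (d / 8 : ℝ) := by
      refine sum_le_sum fun z hz => sum_le_sum fun y hy => ?_
      have hzy : z ≠ y := by
        rintro rfl
        exact Finset.disjoint_left.1 (disj_SY u v G) hz hy
      have := hg z y hzy
      have h9 : 8 * (cd G z y : ℝ) ≤ d := by exact_mod_cast this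
      linarith
    rw [sum_const, sum_const, nsmul_eq_mul, nsmul_eq_mul] at h8
    have h9 : (∑ t ∈ univ.erase u, (s t : ℝ) * r t) ≤ ∑ z ∈ S0 u v G, ∑ y ∈ Y0 u v G, (cd G z y : ℝ) := by
      have := h6.trans_eq h7
      exact_mod_cast this
    refine h9.trans (h8.trans (le_of_eq ?_))
    ring
  rw [h4]
  have hS1 : d ≤ (S0 u v G).card + k + 1 := by
    have := card_S0_ge (u := u) (v := v) hG
    rw [hk] at this; exact this
  have hY1 : d ≤ (Y0 u v G).card + k + 1 := by
    rw [Y0_eq]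
    have := card_S0_ge (u := v) (v := u) hG
    have e : cd G v u = k := by rw [← hk]; unfold cd; rw [inter_comm]
    rw [e] at this; exact this
  have hY2 : (Y0 u v G).card ≤ d := by
    rw [Y0_eq]; exact card_S0_le hG
  have hS1' : (d : ℝ) ≤ (S0 u v G).card + k + 1 := by exact_mod_cast hS1
  have hY1' : (d : ℝ) ≤ (Y0 u v G).card + k + 1 := by exact_mod_cast hY1
  have hY2' : ((Y0 u v G).card : ℝ) ≤ d := by exact_mod_cast hY2
  have hk2 : 8 * ((k : ℝ) + 2) ≤ d := by exact_mod_cast hk1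
  have hd : (64 : ℝ) ≤ d := by exact_mod_cast h64
  set S : ℝ := ((S0 u v G).card : ℝ) with hSdef
  set Y : ℝ := ((Y0 u v G).card : ℝ) with hYdef
  set D : ℝ := (d : ℝ) with hD
  have hS2 : (7 / 8 : ℝ) * D ≤ S := by linarith
  have hY3 : (7 / 8 : ℝ) * D + 1 ≤ Y := by linarith
  have h6 : (5 / 8 : ℝ) * D ^ 2 ≤ (D - 1) * (Y - 1) - Y * (D / 8) := by
    have h7 : (D - 1) * (7 / 8 * D) ≤ (D - 1) * (Y - 1) :=
      mul_le_mul_of_nonneg_left (by linarith) (by linarith)
    have h8 : Y * (D / 8) ≤ D * (D / 8) := mul_le_mul_of_nonneg_right hY2' (by linarith)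
    nlinarith
  have h7 : D ^ 3 / 2 ≤ S * ((D - 1) * (Y - 1) - Y * (D / 8)) := by
    have h8 : (7 / 8 : ℝ) * D * (5 / 8 * D ^ 2) ≤ S * ((D - 1) * (Y - 1) - Y * (D / 8)) := by
      refine mul_le_mul hS2 h6 (by positivity) (by linarith)
    have h9 : 0 ≤ D ^ 3 := by positivity
    nlinarith
  calc D ^ 3 / 2 ≤ S * ((D - 1) * (Y - 1) - Y * (D / 8)) := h7
    _ = S * (D - 1) * (Y - 1) - S * Y * (D / 8) := by ring
    _ ≤ _ := by linarith

/-- large codegrees are rare -/
theorem bad_cd (h : Stmt_DO) {d : ℕ} (hn : 64 ≤ n) (hd2 : 2 ≤ d) (hd : 256 * d ≤ n) (u v : Fin n)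
    (huv : u ≠ v) :
    (((Reg n d).filter fun G => d < 8 * cd G u v).card : ℝ) ≤ (1 / 2) ^ (d / 8 + 1) * (Reg n d).card := by
  set m : ℕ := d / 8 + 1 with hm
  have hmd : m ≤ d := by omega
  have h0 := h n d hn (by omega) ∅ ∅ (by simp) (Fin n) (univ.filter fun x => x ≠ u ∧ x ≠ v)
    (fun x => {s(u, x), s(x, v)}) m 2 ?_ ?_
  · have hsum : (∑ i ∈ (univ : Finset (Fin n)).filter (fun x => x ≠ u ∧ x ≠ v),
        (2 * (d : ℝ) / n) ^ ((({s(u, i), s(i, v)} : Finset (Sym2 (Fin n)))).card)) ≤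
        4 * (d : ℝ) ^ 2 / n := by
      have h1 : ∀ i ∈ (univ : Finset (Fin n)).filter (fun x => x ≠ u ∧ x ≠ v),
          (2 * (d : ℝ) / n) ^ ((({s(u, i), s(i, v)} : Finset (Sym2 (Fin n)))).card) =
            (2 * (d : ℝ) / n) ^ 2 := by
        intro i hi
        simp only [mem_filter, mem_univ, true_and] at hi
        rw [card_pair]
        rw [ne_eq, Sym2.eq_iff]
        rintro (⟨a, b⟩ | ⟨a, b⟩)
        · exact hi.1 a.symm
        · exact huv a
      rw [sum_congr rfl h1, sum_const, nsmul_eq_mul]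
      have h2 : (((univ : Finset (Fin n)).filter (fun x => x ≠ u ∧ x ≠ v)).card : ℝ) ≤ n := by
        have := card_le_univ ((univ : Finset (Fin n)).filter (fun x => x ≠ u ∧ x ≠ v))
        rw [Fintype.card_fin] at this
        exact_mod_cast this
      have hnR : (0 : ℝ) < n := by
        have : 0 < n := by omega
        exact_mod_cast this
      calc _ ≤ (n : ℝ) * (2 * (d : ℝ) / n) ^ 2 := mul_le_mul_of_nonneg_right h2 (by positivity)
        _ = _ := by field_simp; ring
    have hnR : (0 : ℝ) < n := by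
      have : 0 < n := by omega
      exact_mod_cast this
    have hmR : (d : ℝ) / 8 ≤ m := by
      have : d ≤ 8 * m := by omega
      have : (d : ℝ) ≤ 8 * m := by exact_mod_cast this
      linarith
    have hdn : 256 * (d : ℝ) ≤ n := by exact_mod_cast hd
    have hd0 : (0 : ℝ) ≤ d := Nat.cast_nonneg _
    have hmu : 4 * (d : ℝ) ^ 2 / n ≤ 1 / 8 * m := by
      rw [div_le_iff₀ hnR]
      nlinarith
    have hfac : ((m : ℝ) / 8) ^ m ≤ (1 / 2) ^ m * (m.factorial : ℝ) := by
      have h1 := Real.pow_div_factorial_le_exp (m : ℝ) (Nat.cast_nonneg _) m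
      have hf : (0 : ℝ) < m.factorial := by exact_mod_cast Nat.factorial_pos m
      rw [div_le_iff₀ hf] at h1
      have h2 : Real.exp (m : ℝ) ≤ 4 ^ m := by
        have h3 : Real.exp 1 ≤ 4 := by
          have := Real.exp_one_lt_d9
          linarith
        calc Real.exp (m : ℝ) = Real.exp 1 ^ m := by rw [← Real.exp_nat_mul]; simp
          _ ≤ 4 ^ m := pow_le_pow_left₀ (Real.exp_pos _).le h3 m
      calc ((m : ℝ) / 8) ^ m = (m : ℝ) ^ m * (1 / 8) ^ m := by rw [div_pow, one_div, inv_pow, div_eq_mul_inv]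
        _ ≤ (Real.exp (m : ℝ) * m.factorial) * (1 / 8) ^ m := mul_le_mul_of_nonneg_right h1 (by positivity)
        _ ≤ (4 ^ m * m.factorial) * (1 / 8) ^ m := by gcongr
        _ = (4 * (1 / 8)) ^ m * m.factorial := by rw [mul_pow]; ring
        _ = _ := by norm_num
    have hRHS : (∑ i ∈ (univ : Finset (Fin n)).filter (fun x => x ≠ u ∧ x ≠ v),
        (2 * (d : ℝ) / n) ^ ((({s(u, i), s(i, v)} : Finset (Sym2 (Fin n)))).card)) ^ m ≤
        (1 / 2) ^ m * (m.factorial : ℝ) := by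
      refine le_trans (pow_le_pow_left₀ (sum_nonneg fun _ _ => by positivity) (hsum.trans hmu) m) ?_
      rw [show (1 / 8 : ℝ) * m = m / 8 by ring]
      exact hfac
    have hf : (0 : ℝ) < m.factorial := by exact_mod_cast Nat.factorial_pos m
    have hLHS : (((Reg n d).filter fun G => d < 8 * cd G u v).card : ℝ) * (m.factorial : ℝ) ≤
        (1 / 2) ^ m * (m.factorial : ℝ) * (Reg n d).card := by
      refine le_trans (mul_le_mul_of_nonneg_right (Nat.cast_le.2 (card_le_card ?_)) hf.le)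
        (h0.trans (mul_le_mul hRHS (Nat.cast_le.2 (card_le_card (filter_subset _ _)))
          (Nat.cast_nonneg _) (by positivity)))
      intro G hG
      simp only [mem_filter] at hG ⊢
      refine ⟨hG.1, by simp, ?_⟩
      have hc : m ≤ (nb G u ∩ nb G v).card := by
        have := hG.2
        unfold cd at this
        omega
      obtain ⟨J, hJ, hJm⟩ := exists_subset_card_eq hc
      have hJa : ∀ x ∈ J, G.Adj u x ∧ G.Adj v x := by
        intro x hx
        have := hJ hx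
        simpa using this
      refine ⟨J, ?_, hJm, ?_, ?_⟩
      · intro x hx
        simp only [mem_filter, mem_univ, true_and]
        exact ⟨(hJa x hx).1.ne', (hJa x hx).2.ne'⟩
      · intro i hi j hj hij
        have hiu := (hJa i hi).1.ne'
        have hiv := (hJa i hi).2.ne'
        have hju := (hJa j hj).1.ne'
        have hjv := (hJa j hj).2.ne'
        rw [Finset.disjoint_left]
        intro e he he'
        simp only [mem_insert, mem_singleton] at he he'
        rcases he with rfl | rfl <;> rcases he' with he' | he' <;> rw [Sym2.eq_iff] at he' <;>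
          rcases he' with ⟨a, b⟩ | ⟨a, b⟩
        · exact hij b
        · exact hiu b
        · exact hju a.symm
        · exact huv a
        · exact hiu a
        · exact huv b.symm
        · exact hij a
        · exact hiv a
      · intro i hi
        intro e he
        simp only [mem_insert, mem_singleton] at he
        rcases he with rfl | rfl
        · rw [mk_mem_ed]; exact (hJa i hi).1
        · rw [mk_mem_ed]; exact (hJa i hi).2.symm
    have h1 : (((Reg n d).filter fun G => d < 8 * cd G u v).card : ℝ) * (m.factorial : ℝ) ≤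
        ((1 / 2) ^ m * (Reg n d).card) * (m.factorial : ℝ) := by
      refine hLHS.trans (le_of_eq ?_); ring
    exact le_of_mul_le_mul_right h1 hf
  · intro i hi
    simp only [mem_filter, mem_univ, true_and] at hi
    refine ⟨card_le_two, ?_⟩
    intro e he
    simp only [mem_insert, mem_singleton] at he
    refine ⟨by simp, ?_, by simp⟩
    rcases he with rfl | rfl
    · simp only [Sym2.isDiag_iff_proj_eq]; exact hi.1.symm
    · simp only [Sym2.isDiag_iff_proj_eq]; exact hi.2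
  · have : 64 * m ≤ n * d := Nat.mul_le_mul hn hmd
    omega

theorem pair_bound (h : Stmt_DO) {d : ℕ} (hn : 64 ≤ n) (hd2 : 64 ≤ d) (hd : 256 * d ≤ n) (B : ℝ)
    (hB : (((Reg n d).filter fun G => ¬ GoodCd d G).card : ℝ) ≤ B) (u v : Fin n) (huv : u ≠ v) :
    (((Reg n d).filter fun G => GoodCd d G ∧ cd G u v = 0).card : ℝ) ≤
      (1 / 2) ^ (d ^ 2 / (4 * n)) * (Reg n d).card + B := by
  have hn0 : 0 < n := by omega
  have hnR : (0 : ℝ) < n := by exact_mod_cast hn0
  have hd0 : (0 : ℝ) < d := by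
    have : 0 < d := by omega
    exact_mod_cast this
  have hB0 : 0 ≤ B := le_trans (Nat.cast_nonneg _) hB
  refine ladder (fun k => (((Reg n d).filter fun G => GoodCd d G ∧ cd G u v = k).card : ℝ)) B
    ((Reg n d).card : ℝ) hB0 (d ^ 2 / (4 * n)) ?_ ?_
  · intro k hk
    have hk1 : (k + 1) * (4 * n) ≤ d ^ 2 := by
      have := Nat.div_mul_le_self (d ^ 2) (4 * n)
      have h2 : k + 1 ≤ d ^ 2 / (4 * n) := hk
      exact (Nat.mul_le_mul_right _ h2).trans this
    have hk2 : 8 * (k + 2) ≤ d := by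
      have h3 : (k + 1) * (1024 * d) ≤ d * d := by nlinarith
      have h4 : (k + 1) * 1024 ≤ d := by
        have : (k + 1) * 1024 * d ≤ d * d := by nlinarith
        exact Nat.le_of_mul_le_mul_right this (by omega)
      omega
    have h2 := step (d := d) (k := k) huv ((Reg n d).filter fun G => GoodCd d G ∧ cd G u v = k)
      (fun G hG => ⟨(mem_filter.1 hG).1, (mem_filter.1 hG).2.2⟩) ((d : ℝ) ^ 3 / 2)
      (fun G hG => Fw_mid (mem_filter.1 hG).1 (mem_filter.1 hG).2.1 (mem_filter.1 hG).2.2 hd2 hk2)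
    have e3 : ((k : ℝ) + 1) * (4 * n) ≤ (d : ℝ) ^ 2 := by exact_mod_cast hk1
    have h3 : ((k : ℝ) + 1) * (n * d) ≤ (d : ℝ) ^ 3 / 2 / 2 := by nlinarith
    have h4 : (0 : ℝ) < (d : ℝ) ^ 3 / 2 := by positivity
    have h5 := h2.trans (mul_le_mul_of_nonneg_left h3 (Nat.cast_nonneg _))
    have h6 : (((Reg n d).filter fun G => GoodCd d G ∧ cd G u v = k).card : ℝ) * ((d : ℝ) ^ 3 / 2) ≤
        ((((Reg n d).filter fun G => cd G u v = k + 1).card : ℝ) / 2) * ((d : ℝ) ^ 3 / 2) := by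
      calc _ ≤ _ := h5
        _ = _ := by ring
    have h7 := le_of_mul_le_mul_right h6 h4
    refine h7.trans ?_
    have h8 : (((Reg n d).filter fun G => cd G u v = k + 1).card : ℝ) ≤
        (((Reg n d).filter fun G => GoodCd d G ∧ cd G u v = k + 1).card : ℝ) +
          (((Reg n d).filter fun G => ¬ GoodCd d G).card : ℝ) := by
      rw [← Nat.cast_add]
      refine Nat.cast_le.2 ((card_le_card ?_).trans (card_union_le _ _))
      intro G hG
      rw [mem_filter] at hG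
      rw [mem_union, mem_filter, mem_filter]
      by_cases hg : GoodCd d G
      · left; exact ⟨hG.1, hg, hG.2⟩
      · right; exact ⟨hG.1, hg⟩
    show _ ≤ ((((Reg n d).filter fun G => GoodCd d G ∧ cd G u v = k + 1).card : ℝ) + B) / 2
    linarith
  · exact Nat.cast_le.2 (card_le_card (filter_subset _ _))

theorem not_good (h : Stmt_DO) {d : ℕ} (hn : 64 ≤ n) (hd2 : 2 ≤ d) (hd : 256 * d ≤ n) :
    (((Reg n d).filter fun G => ¬ GoodCd d G).card : ℝ) ≤
      (n : ℝ) ^ 2 * ((1 / 2) ^ (d / 8 + 1) * (Reg n d).card) := by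
  have h1 : ((Reg n d).filter fun G => ¬ GoodCd d G) ⊆
      ((univ : Finset (Fin n × Fin n)).filter fun p => p.1 ≠ p.2).biUnion
        (fun p => (Reg n d).filter fun G => d < 8 * cd G p.1 p.2) := by
    intro G hG
    rw [mem_filter] at hG
    obtain ⟨hR, hn⟩ := hG
    unfold GoodCd at hn
    push Not at hn
    obtain ⟨u, v, huv, he⟩ := hn
    rw [mem_biUnion]
    refine ⟨(u, v), by simpa using huv, ?_⟩
    rw [mem_filter]
    exact ⟨hR, he⟩
  have h2 := (card_le_card h1).trans card_biUnion_le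
  have h3 : (((Reg n d).filter fun G => ¬ GoodCd d G).card : ℝ) ≤
      ∑ p ∈ (univ : Finset (Fin n × Fin n)).filter (fun p => p.1 ≠ p.2),
        (((Reg n d).filter fun G => d < 8 * cd G p.1 p.2).card : ℝ) := by exact_mod_cast h2
  refine h3.trans ?_
  have h4 := sum_le_card_nsmul ((univ : Finset (Fin n × Fin n)).filter (fun p => p.1 ≠ p.2))
    (fun p => (((Reg n d).filter fun G => d < 8 * cd G p.1 p.2).card : ℝ))
    ((1 / 2) ^ (d / 8 + 1) * (Reg n d).card)
    (fun p hp => bad_cd h hn hd2 hd p.1 p.2 (by simpa using hp))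
  refine h4.trans ?_
  rw [nsmul_eq_mul]
  refine mul_le_mul_of_nonneg_right ?_ (by positivity)
  have : ((univ : Finset (Fin n × Fin n)).filter (fun p => p.1 ≠ p.2)).card ≤ n ^ 2 := by
    refine (card_le_univ _).trans ?_
    simp [sq]
  exact_mod_cast this

/-- numeric bounds -/
theorem num1 {n d : ℕ} (hn : 64 ≤ n) (hd : 16 * Real.sqrt (n * Real.log n) ≤ d) :
    (n : ℝ) ^ 2 * (1 / 2) ^ (d ^ 2 / (4 * n)) ≤ 2 / n := by
  have hnR : (64 : ℝ) ≤ n := by exact_mod_cast hn
  have hlog : 1 ≤ Real.log n := by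
    rw [Real.le_log_iff_exp_le (by linarith)]
    have := Real.exp_one_lt_d9
    linarith
  have h1 : (16 * Real.sqrt (n * Real.log n)) ^ 2 ≤ (d : ℝ) ^ 2 :=
    pow_le_pow_left₀ (by positivity) hd 2
  rw [mul_pow, Real.sq_sqrt (by positivity)] at h1
  set K : ℕ := d ^ 2 / (4 * n) with hK
  have h2 : (d : ℝ) ^ 2 ≤ 4 * n * (K + 1) := by
    have := Nat.lt_mul_div_succ (d ^ 2) (show 0 < 4 * n by omega)
    have h3 : d ^ 2 ≤ 4 * n * (K + 1) := this.le
    exact_mod_cast h3
  have h3 : 64 * Real.log n ≤ K + 1 := by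
    have h4 : 4 * (n : ℝ) * (64 * Real.log n) ≤ 4 * n * (K + 1) := by nlinarith
    exact le_of_mul_le_mul_left h4 (by positivity)
  have h4 : 6 * Real.log n ≤ K := by linarith
  have h5 : ((1 : ℝ) / 2) ^ K ≤ Real.exp (-(K / 2 : ℝ)) := by
    have h6 : (1 / 2 : ℝ) ≤ Real.exp (-(1 / 2 : ℝ)) := by
      have := Real.add_one_le_exp (-(1 / 2 : ℝ))
      linarith
    calc ((1 : ℝ) / 2) ^ K ≤ Real.exp (-(1 / 2 : ℝ)) ^ K := pow_le_pow_left₀ (by norm_num) h6 K
      _ = _ := by rw [← Real.exp_nat_mul]; congr 1; ring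
  have h6 : Real.exp (-(K / 2 : ℝ)) ≤ ((n : ℝ) ^ 3)⁻¹ := by
    have h7 : Real.exp (-(K / 2 : ℝ)) ≤ Real.exp (-(3 * Real.log n)) :=
      Real.exp_le_exp.2 (by linarith)
    refine h7.trans (le_of_eq ?_)
    rw [Real.exp_neg, show (3 : ℝ) * Real.log n = ((3 : ℕ) : ℝ) * Real.log n by norm_num,
      Real.exp_nat_mul, Real.exp_log (by linarith)]
  calc (n : ℝ) ^ 2 * (1 / 2) ^ K ≤ (n : ℝ) ^ 2 * ((n : ℝ) ^ 3)⁻¹ :=
        mul_le_mul_of_nonneg_left (h5.trans h6) (by positivity)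
    _ = 1 / n := by field_simp
    _ ≤ 2 / n := by gcongr; norm_num

theorem num2 {n d : ℕ} (hn : 64 ≤ n) (hd : 16 * Real.sqrt (n * Real.log n) ≤ d) :
    ((n : ℝ) ^ 2 + 1) * ((n : ℝ) ^ 2 * (1 / 2) ^ (d / 8 + 1)) ≤ 2 * (Nat.factorial 10 : ℝ) / n := by
  have hnR : (64 : ℝ) ≤ n := by exact_mod_cast hn
  have hlog : 1 ≤ Real.log n := by
    rw [Real.le_log_iff_exp_le (by linarith)]
    have := Real.exp_one_lt_d9
    linarith
  have h1 : 16 * Real.sqrt n ≤ d := by
    refine le_trans ?_ hd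
    have : Real.sqrt n ≤ Real.sqrt (n * Real.log n) := Real.sqrt_le_sqrt (by nlinarith)
    linarith
  set m : ℕ := d / 8 + 1 with hm
  have hmR : (d : ℝ) / 8 ≤ m := by
    have : d ≤ 8 * m := by omega
    have : (d : ℝ) ≤ 8 * m := by exact_mod_cast this
    linarith
  have h5 : ((1 : ℝ) / 2) ^ m ≤ Real.exp (-(m / 2 : ℝ)) := by
    have h6 : (1 / 2 : ℝ) ≤ Real.exp (-(1 / 2 : ℝ)) := by
      have := Real.add_one_le_exp (-(1 / 2 : ℝ))
      linarith
    calc ((1 : ℝ) / 2) ^ m ≤ Real.exp (-(1 / 2 : ℝ)) ^ m := pow_le_pow_left₀ (by norm_num) h6 m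
      _ = _ := by rw [← Real.exp_nat_mul]; congr 1; ring
  have h6 : Real.exp (-(m / 2 : ℝ)) ≤ Real.exp (-Real.sqrt n) := Real.exp_le_exp.2 (by linarith)
  have h7 : (n : ℝ) ^ 5 / (Nat.factorial 10 : ℝ) ≤ Real.exp (Real.sqrt n) := by
    have := Real.pow_div_factorial_le_exp (Real.sqrt n) (Real.sqrt_nonneg _) 10
    have e : Real.sqrt n ^ 10 = (n : ℝ) ^ 5 := by
      rw [show (10 : ℕ) = 2 * 5 by norm_num, pow_mul, Real.sq_sqrt (by positivity)]
    rwa [e] at this
  have hf : (0 : ℝ) < Nat.factorial 10 := by exact_mod_cast Nat.factorial_pos 10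
  have h8 : Real.exp (-Real.sqrt n) ≤ (Nat.factorial 10 : ℝ) / (n : ℝ) ^ 5 := by
    rw [Real.exp_neg, inv_le_comm₀ (Real.exp_pos _) (by positivity), inv_div]
    exact h7
  have h9 : ((1 : ℝ) / 2) ^ m ≤ (Nat.factorial 10 : ℝ) / (n : ℝ) ^ 5 := h5.trans (h6.trans h8)
  calc ((n : ℝ) ^ 2 + 1) * ((n : ℝ) ^ 2 * (1 / 2) ^ m)
      ≤ (2 * (n : ℝ) ^ 2) * ((n : ℝ) ^ 2 * ((Nat.factorial 10 : ℝ) / (n : ℝ) ^ 5)) := by
        have : (1 : ℝ) ≤ (n : ℝ) ^ 2 := by nlinarith
        gcongr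
        linarith
    _ = _ := by field_simp

end D12

/-- **D2** -/
theorem D2_proof (h : Stmt_DO) : Stmt_D2 := by
  refine ⟨16, by norm_num, ?_⟩
  refine Whp.of_bound (fun n => (2 + 2 * (Nat.factorial 10 : ℝ)) / (n : ℝ)) ?_ ?_
  · exact tendsto_const_div_atTop_nhds_zero_nat _
  · refine ⟨64, fun n hn d hd => ?_⟩
    obtain ⟨hd1, hd2⟩ := hd
    have hnR : (64 : ℝ) ≤ n := by exact_mod_cast hn
    have hlog : 1 ≤ Real.log n := by
      rw [Real.le_log_iff_exp_le (by linarith)]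
      have := Real.exp_one_lt_d9
      linarith
    have hd64 : 64 ≤ d := by
      have h1 : (8 : ℝ) ≤ Real.sqrt (n * Real.log n) := by
        rw [Real.le_sqrt (by norm_num) (by positivity)]
        nlinarith
      have : (64 : ℝ) ≤ d := by linarith
      exact_mod_cast this
    set R : ℝ := ((Reg n d).card : ℝ) with hR
    have hR0 : 0 ≤ R := Nat.cast_nonneg _
    set B : ℝ := (n : ℝ) ^ 2 * ((1 / 2) ^ (d / 8 + 1) * R) with hB
    have hB0 : 0 ≤ B := by positivity
    have hng : (((Reg n d).filter fun G => ¬ D12.GoodCd d G).card : ℝ) ≤ B :=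
      D12.not_good h hn (by omega) hd2
    have hpair := D12.pair_bound h hn hd64 hd2 B hng
    have h1 : (((Reg n d).filter fun G => D12.GoodCd d G ∧
        ¬ ∀ u v, u ≠ v → (nb G u ∩ nb G v).Nonempty).card : ℝ) ≤
        (n : ℝ) ^ 2 * ((1 / 2) ^ (d ^ 2 / (4 * n)) * R + B) := by
      refine D12.union_bound _ _ (by positivity) ?_ ?_
      · intro G hG
        simp only [mem_filter] at hG
        exact hG.2.2
      · intro u v huv
        refine le_trans (Nat.cast_le.2 (card_le_card ?_)) (hpair u v huv)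
        intro G hG
        simp only [mem_filter] at hG ⊢
        exact ⟨hG.1.1, hG.1.2.1, hG.2⟩
    have h2 : (((Reg n d).filter fun G => D12.GoodCd d G ∧
        ¬ ∀ u v, u ≠ v → (nb G u ∩ nb G v).Nonempty).card : ℝ) +
        (((Reg n d).filter fun G => ¬ D12.GoodCd d G).card : ℝ) ≤
        (2 + 2 * (Nat.factorial 10 : ℝ)) / (n : ℝ) * R := by
      have n1 := D12.num1 hn hd1
      have n2 := D12.num2 hn hd1
      calc _ ≤ (n : ℝ) ^ 2 * ((1 / 2) ^ (d ^ 2 / (4 * n)) * R + B) + B := add_le_add h1 hng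
        _ = ((n : ℝ) ^ 2 * (1 / 2) ^ (d ^ 2 / (4 * n)) +
            ((n : ℝ) ^ 2 + 1) * ((n : ℝ) ^ 2 * (1 / 2) ^ (d / 8 + 1))) * R := by rw [hB]; ring
        _ ≤ (2 / n + 2 * (Nat.factorial 10 : ℝ) / n) * R :=
            mul_le_mul_of_nonneg_right (add_le_add n1 n2) hR0
        _ = _ := by ring
    refine le_trans ?_ h2
    rw [← Nat.cast_add]
    refine Nat.cast_le.2 (le_trans (card_le_card ?_) (card_union_le _ _))
    intro G hG
    simp only [mem_filter, mem_union] at hG ⊢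
    by_cases hg : D12.GoodCd d G
    · left; exact ⟨hG.1, hg, hG.2⟩
    · right; exact ⟨hG.1, hg⟩

end Pool.Agent.RRG
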