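import Pool.Agent.RRG.Basic

/-!
# DO: disjoint occurrences (MP_d15a9b_pr)
-/

open Finset Filter Topology
open scoped Classical

namespace Pool.Agent.RRG

namespace DOm

/-- `m! e_m(x) ≤ (∑ x)^m` -/
theorem esymm_le {ι : Type} (I : Finset ι) (x : ι → ℝ) (hx : ∀ i, 0 ≤ x i) (m : ℕ) :
    (m.factorial : ℝ) * ∑ J ∈ I.powersetCard m, ∏ i ∈ J, x i ≤ (∑ i ∈ I, x i) ^ m := by
  induction I using Finset.induction_on generalizing m with
  | empty =>
    cases m with
    | zero => simp
    | succ m =>
      rw [powersetCard_eq_empty.2 (by simp)]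
      simp
  | insert a I ha ih =>
    cases m with
    | zero => simp
    | succ m =>
      rw [powersetCard_succ_insert ha, sum_union, sum_image, sum_insert ha]
      · have h1 := ih (m + 1)
        have h2 := ih m
        have h3 : ∑ J ∈ powersetCard m I, ∏ i ∈ insert a J, x i
            = x a * ∑ J ∈ powersetCard m I, ∏ i ∈ J, x i := by
          rw [mul_sum]
          refine sum_congr rfl fun J hJ => ?_
          rw [prod_insert]
          intro h
          exact ha ((mem_powersetCard.1 hJ).1 h)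
        rw [h3]
        set S := ∑ i ∈ I, x i with hS
        have hS0 : 0 ≤ S := sum_nonneg fun i _ => hx i
        have hxa := hx a
        have h4 : S ^ (m + 1) + (m + 1) * x a * S ^ m ≤ (x a + S) ^ (m + 1) := by
          clear h1 h2 h3
          clear ih
          induction m with
          | zero => simp; linarith
          | succ k ih =>
            have h5 : (x a + S) ^ (k + 1 + 1) = (x a + S) * (x a + S) ^ (k + 1) := by ring
            rw [h5]
            have h6 : (x a + S) * (S ^ (k + 1) + (k + 1) * x a * S ^ k) ≤ (x a + S) * (x a + S) ^ (k + 1) :=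
              mul_le_mul_of_nonneg_left ih (by linarith)
            refine le_trans ?_ h6
            have h7 : 0 ≤ (k + 1) * x a * x a * S ^ k := by positivity
            have h8 : (x a + S) * (S ^ (k + 1) + (k + 1) * x a * S ^ k)
                = S ^ (k + 1 + 1) + (((k + 1 : ℕ) : ℝ) + 1) * x a * S ^ (k + 1) + (k + 1) * x a * x a * S ^ k := by
              push_cast; ring
            rw [h8]
            linarith
        have h8 : ((m + 1).factorial : ℝ) = (m + 1) * (m.factorial : ℝ) := by
          rw [Nat.factorial_succ]; push_cast; ring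
        refine le_trans ?_ h4
        rw [mul_add]
        refine add_le_add h1 ?_
        rw [h8]
        have h9 : (m + 1) * x a * ((m.factorial : ℝ) * ∑ J ∈ powersetCard m I, ∏ i ∈ J, x i)
            ≤ (m + 1) * x a * S ^ m := mul_le_mul_of_nonneg_left h2 (by positivity)
        linarith
      · intro J hJ J' hJ' h
        have e1 : a ∉ J := fun h => ha ((mem_powersetCard.1 hJ).1 h)
        have e2 : a ∉ J' := fun h => ha ((mem_powersetCard.1 hJ').1 h)
        have h' : insert a J = insert a J' := h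
        rw [← erase_insert e1, ← erase_insert e2, h']
      · rw [disjoint_left]
        intro J hJ hJ'
        obtain ⟨J0, _, rfl⟩ := mem_image.1 hJ'
        exact ha ((mem_powersetCard.1 hJ).1 (mem_insert_self a J0))

end DOm

open DOm

theorem DO_proof (hUp : Stmt_Up) : Stmt_DO := by
  intro n d hn hd Ω g hg ι I E m r hE hm
  set X := ((Reg n d).filter fun G => ed G ∩ Ω = g) with hX
  have hw : 0 ≤ 2 * (d : ℝ) / n := by positivity
  -- one family
  have h1 : ∀ J ∈ I.powersetCard m, (((Reg n d).filter fun G => ed G ∩ Ω = g ∧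
      (∀ i ∈ J, ∀ j ∈ J, i ≠ j → Disjoint (E i) (E j)) ∧ ∀ i ∈ J, E i ⊆ ed G).card : ℝ)
      ≤ (∏ i ∈ J, (2 * (d : ℝ) / n) ^ (E i).card) * X.card := by
    intro J hJ
    obtain ⟨hJI, hJm⟩ := mem_powersetCard.1 hJ
    by_cases hdis : ∀ i ∈ J, ∀ j ∈ J, i ≠ j → Disjoint (E i) (E j)
    · have hcard : (J.biUnion E).card = ∑ i ∈ J, (E i).card := by
        refine card_biUnion ?_
        intro i hi j hj hij
        exact hdis i hi j hj hij
      have h2 := hUp n d hn hd Ω g (J.biUnion E) ?_ ?_ hg ?_
      · rw [hcard, ← prod_pow_eq_pow_sum] at h2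
        refine le_trans ?_ h2
        refine Nat.cast_le.2 (card_le_card ?_)
        intro G hG
        simp only [mem_filter] at hG ⊢
        refine ⟨hG.1, hG.2.1, ?_⟩
        rw [biUnion_subset]
        exact hG.2.2.2
      · intro e he
        obtain ⟨i, hi, hei⟩ := mem_biUnion.1 he
        exact ⟨((hE i (hJI hi)).2 e hei).1, ((hE i (hJI hi)).2 e hei).2.1⟩
      · intro e he
        obtain ⟨i, hi, hei⟩ := mem_biUnion.1 he
        exact ((hE i (hJI hi)).2 e hei).2.2
      · rw [hcard]
        have : ∑ i ∈ J, (E i).card ≤ m * r := by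
          rw [← hJm, ← smul_eq_mul]
          exact sum_le_card_nsmul _ _ _ fun i hi => (hE i (hJI hi)).1
        omega
    · have : ((Reg n d).filter fun G => ed G ∩ Ω = g ∧
        (∀ i ∈ J, ∀ j ∈ J, i ≠ j → Disjoint (E i) (E j)) ∧ ∀ i ∈ J, E i ⊆ ed G) = ∅ := by
        rw [filter_eq_empty_iff]
        rintro G _ ⟨_, h, _⟩
        exact hdis h
      rw [this]
      simp only [card_empty, Nat.cast_zero]
      positivity
  have h2 : (((Reg n d).filter fun G => ed G ∩ Ω = g ∧ ∃ J ⊆ I, J.card = m ∧
        (∀ i ∈ J, ∀ j ∈ J, i ≠ j → Disjoint (E i) (E j)) ∧ ∀ i ∈ J, E i ⊆ ed G).card : ℝ)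
      ≤ ∑ J ∈ I.powersetCard m, (((Reg n d).filter fun G => ed G ∩ Ω = g ∧
      (∀ i ∈ J, ∀ j ∈ J, i ≠ j → Disjoint (E i) (E j)) ∧ ∀ i ∈ J, E i ⊆ ed G).card : ℝ) := by
    rw [← Nat.cast_sum]
    refine Nat.cast_le.2 ((card_le_card ?_).trans card_biUnion_le)
    intro G hG
    simp only [mem_filter, mem_biUnion, mem_powersetCard] at hG ⊢
    obtain ⟨a, b, J, hJ, hJm, c, e⟩ := hG
    exact ⟨J, ⟨hJ, hJm⟩, a, b, c, e⟩
  have h3 := esymm_le I (fun i => (2 * (d : ℝ) / n) ^ (E i).card) (fun i => by positivity) m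
  have h4 : (0 : ℝ) ≤ (m.factorial : ℝ) := by positivity
  calc _ ≤ (∑ J ∈ I.powersetCard m, (∏ i ∈ J, (2 * (d : ℝ) / n) ^ (E i).card) * (X.card : ℝ)) * (m.factorial : ℝ) := by
        refine mul_le_mul_of_nonneg_right (h2.trans (sum_le_sum h1)) h4
    _ = ((m.factorial : ℝ) * ∑ J ∈ I.powersetCard m, ∏ i ∈ J, (2 * (d : ℝ) / n) ^ (E i).card) * (X.card : ℝ) := by
        rw [← sum_mul]; ring
    _ ≤ _ := mul_le_mul_of_nonneg_right h3 (by positivity)

end Pool.Agent.RRG
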