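import Pool.Agent.RRG.Basic

/-!
# How DO is used (MP_d15a9b_pr): greedy disjoint selection and the resulting bound
-/

open Finset Filter Topology
open scoped Classical

namespace Pool.Agent.RRG

namespace DOUse

/-- greedy choice of pairwise disjoint sets -/
theorem greedy {ι β : Type} [DecidableEq β] (W : Finset ι) (E : ι → Finset β) (r D m : ℕ) (hrD : 0 < r * D)
    (hr : ∀ i ∈ W, (E i).card ≤ r) (hne : ∀ i ∈ W, (E i).Nonempty)
    (hD : ∀ e : β, (W.filter fun i => e ∈ E i).card ≤ D) (hm : m * (r * D) ≤ W.card) :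
    ∃ J ⊆ W, J.card = m ∧ ∀ i ∈ J, ∀ j ∈ J, i ≠ j → Disjoint (E i) (E j) := by
  obtain ⟨P, hP⟩ : ∃ P : Finset ι → Prop,
      P = fun J => ∀ i ∈ J, ∀ j ∈ J, i ≠ j → Disjoint (E i) (E j) := ⟨_, rfl⟩
  have hSne : (W.powerset.filter P).Nonempty := ⟨∅, by simp [hP]⟩
  obtain ⟨J, hJ, hmax⟩ := exists_max_image _ Finset.card hSne
  rw [mem_filter, mem_powerset] at hJ
  obtain ⟨hJW, hJd⟩ := hJ
  rw [hP] at hJd
  have hcov : W ⊆ J.biUnion (fun j => (E j).biUnion (fun e => W.filter fun i => e ∈ E i)) := by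
    intro c hc
    by_cases hcJ : c ∈ J
    · obtain ⟨e, he⟩ := hne c hc
      simp only [mem_biUnion, mem_filter]
      exact ⟨c, hcJ, e, he, hc, he⟩
    · by_contra hcon
      have hins : insert c J ∈ W.powerset.filter P := by
        rw [mem_filter, mem_powerset, hP]
        refine ⟨insert_subset hc hJW, ?_⟩
        have key : ∀ j ∈ J, Disjoint (E c) (E j) := by
          intro j hj
          rw [Finset.disjoint_left]
          intro e he he'
          apply hcon
          simp only [mem_biUnion, mem_filter]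
          exact ⟨j, hj, e, he', hc, he⟩
        intro i hi j hj hij
        rw [mem_insert] at hi hj
        rcases hi with rfl | hi <;> rcases hj with rfl | hj
        · exact absurd rfl hij
        · exact key j hj
        · exact (key i hi).symm
        · exact hJd i hi j hj hij
      have := hmax _ hins
      rw [card_insert_of_notMem hcJ] at this
      omega
  have hcard : W.card ≤ J.card * (r * D) := by
    refine (card_le_card hcov).trans ?_
    refine (card_biUnion_le).trans ?_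
    rw [← smul_eq_mul, ← sum_const]
    refine sum_le_sum fun j hj => ?_
    refine (card_biUnion_le).trans ?_
    calc ∑ e ∈ E j, (W.filter fun i => e ∈ E i).card ≤ ∑ _e ∈ E j, D := sum_le_sum fun e _ => hD e
      _ = (E j).card * D := by rw [sum_const, smul_eq_mul]
      _ ≤ r * D := Nat.mul_le_mul_right _ (hr j (hJW hj))
  have hmJ : m ≤ J.card := Nat.le_of_mul_le_mul_right (hm.trans hcard) hrD
  obtain ⟨J', hJ', hJ'c⟩ := exists_subset_card_eq hmJ
  exact ⟨J', hJ'.trans hJW, hJ'c, fun i hi j hj hij => hJd i (hJ' hi) j (hJ' hj) hij⟩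

/-- the way DO is applied (`Ω = ∅`): if every graph of `S` has many configurations with few conflicts
then `S` is small -/
theorem apply (hDO : Stmt_DO) {n d : ℕ} (hn : 64 ≤ n) (hd : 64 * d ≤ n)
    {ι : Type} (I : Finset ι) (E : ι → Finset (Sym2 (Fin n))) (r D m : ℕ) (μ : ℝ)
    (hrD : 0 < r * D) (hm0 : 0 < m) (hr : ∀ i ∈ I, (E i).card ≤ r) (hdiag : ∀ i ∈ I, ∀ e ∈ E i, ¬ e.IsDiag)
    (hne : ∀ i ∈ I, (E i).Nonempty)
    (hμ : ∑ i ∈ I, (2 * (d : ℝ) / n) ^ (E i).card ≤ μ) (hm : 32 * (m * r) ≤ n * d)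
    (S : Finset (Gr n)) (hS : S ⊆ Reg n d)
    (hW : ∀ G ∈ S, ∃ W ⊆ I, (∀ i ∈ W, E i ⊆ ed G) ∧
      (∀ e : Sym2 (Fin n), (W.filter fun i => e ∈ E i).card ≤ D) ∧ m * (r * D) ≤ W.card) :
    (S.card : ℝ) ≤ (Real.exp 1 * μ / m) ^ m * (Reg n d).card := by
  have h1 := hDO n d hn hd ∅ ∅ (by simp) ι I E m r (by
    intro i hi
    refine ⟨hr i hi, fun e he => ⟨by simp, hdiag i hi e he, fun x _ => by simp⟩⟩) hm
  have hsub : S ⊆ (Reg n d).filter fun G => ed G ∩ ∅ = (∅ : Finset (Sym2 (Fin n))) ∧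
      ∃ J ⊆ I, J.card = m ∧ (∀ i ∈ J, ∀ j ∈ J, i ≠ j → Disjoint (E i) (E j)) ∧
        ∀ i ∈ J, E i ⊆ ed G := by
    intro G hG
    rw [mem_filter]
    refine ⟨hS hG, by simp, ?_⟩
    obtain ⟨W, hWI, hWE, hWD, hWc⟩ := hW G hG
    obtain ⟨J, hJW, hJc, hJd⟩ := greedy W E r D m hrD (fun i hi => hr i (hWI hi))
      (fun i hi => hne i (hWI hi)) hWD hWc
    exact ⟨J, hJW.trans hWI, hJc, hJd, fun i hi => hWE i (hJW hi)⟩
  have h2 : (S.card : ℝ) * m.factorial ≤ μ ^ m * (Reg n d).card := by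
    have hnn : 0 ≤ ∑ i ∈ I, (2 * (d : ℝ) / n) ^ (E i).card :=
      sum_nonneg fun i _ => by positivity
    calc (S.card : ℝ) * m.factorial ≤ _ := by
          refine mul_le_mul_of_nonneg_right ?_ (by positivity)
          exact_mod_cast card_le_card hsub
      _ ≤ _ := h1
      _ ≤ μ ^ m * (Reg n d).card := by
          refine mul_le_mul (pow_le_pow_left₀ hnn hμ m) ?_ (by positivity)
            (pow_nonneg (hnn.trans hμ) m)
          exact_mod_cast card_le_card (filter_subset _ _)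
  have hmp : (0 : ℝ) < m := by exact_mod_cast hm0
  have h3 : (m : ℝ) ^ m / m.factorial ≤ Real.exp m :=
    Real.pow_div_factorial_le_exp _ (by positivity) m
  have hfp : (0 : ℝ) < m.factorial := by exact_mod_cast m.factorial_pos
  have hμ0 : 0 ≤ μ := le_trans (sum_nonneg fun i _ => by positivity) hμ
  have h4 : (S.card : ℝ) ≤ μ ^ m / m.factorial * (Reg n d).card := by
    rw [div_mul_eq_mul_div, le_div_iff₀ hfp]; exact h2
  refine h4.trans (mul_le_mul_of_nonneg_right ?_ (by positivity))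
  have e1 : (Real.exp 1 * μ / m) ^ m = Real.exp m * (μ ^ m / (m : ℝ) ^ m) := by
    rw [div_pow, mul_pow, ← Real.exp_nat_mul, mul_one]; ring
  rw [e1]
  have : μ ^ m / (m.factorial : ℝ) = ((m : ℝ) ^ m / m.factorial) * (μ ^ m / (m : ℝ) ^ m) := by
    field_simp
  rw [this]
  exact mul_le_mul_of_nonneg_right h3 (by positivity)

end DOUse

end Pool.Agent.RRG
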