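import Mathlib

/-!
# Definitions for MP_d15a9b_pr (random regular graphs and 2-neighbourhoods)

Paper proof: /team-store/MP_d15a9b_PROOF.md (module names there = module names here).
-/

open Finset Filter Topology
open scoped Classical

namespace Pool.Agent.RRG

noncomputable section

/-- graphs on `{0,…,n-1}` -/
abbrev Gr (n : ℕ) := SimpleGraph (Fin n)

/-- neighbours of `v` -/
def nb {n : ℕ} (G : Gr n) (v : Fin n) : Finset (Fin n) := univ.filter fun w => G.Adj v w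

/-- edges, as unordered pairs -/
def ed {n : ℕ} (G : Gr n) : Finset (Sym2 (Fin n)) := univ.filter fun e => e ∈ G.edgeSet

/-- the `d`-regular graphs on `{0,…,n-1}` -/
def Reg (n d : ℕ) : Finset (Gr n) := univ.filter fun G => ∀ v, (nb G v).card = d

/-- vertices at distance at most 2 from `v` -/
def ball2 {n : ℕ} (G : Gr n) (v : Fin n) : Set (Fin n) :=
  {x | x = v ∨ G.Adj v x ∨ ∃ y, G.Adj v y ∧ G.Adj y x}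

/-- `(H, σ)` is a partner of `G`: `σ v` restricts to an isomorphism of the rooted 2-balls at `v`. -/
structure IsPartner {n : ℕ} (G H : Gr n) (σ : Fin n → Equiv.Perm (Fin n)) : Prop where
  root : ∀ v, σ v v = v
  ball : ∀ v x, x ∈ ball2 G v ↔ σ v x ∈ ball2 H v
  adj : ∀ v x y, x ∈ ball2 G v → y ∈ ball2 G v → (G.Adj x y ↔ H.Adj (σ v x) (σ v y))

/-- every partner of `G` is `G` -/
def Rigid {n : ℕ} (G : Gr n) : Prop := ∀ (H : Gr n) (σ : Fin n → Equiv.Perm (Fin n)), IsPartner G H σ → H = G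

/-- with high probability in the regime `Rg`, for the uniform measure on `Reg n d`, in counting form -/
def Whp (Rg : ℕ → ℕ → Prop) (P : (n d : ℕ) → Gr n → Prop) : Prop :=
  ∀ η : ℝ, 0 < η → ∃ n₀ : ℕ, ∀ n ≥ n₀, ∀ d : ℕ, Rg n d →
    (((Reg n d).filter fun G => ¬ P n d G).card : ℝ) ≤ η * ((Reg n d).card : ℝ)

/-- `x - y - y' - z` is a path (four distinct vertices) -/
def P3 {n : ℕ} (G : Gr n) (x y y' z : Fin n) : Prop :=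
  G.Adj x y ∧ G.Adj y y' ∧ G.Adj y' z ∧ x ≠ y' ∧ x ≠ z ∧ y ≠ z

/-- `v - w - p - q - c - v` is a 5-cycle (five distinct vertices) -/
def C5 {n : ℕ} (G : Gr n) (v w p q c : Fin n) : Prop :=
  G.Adj v w ∧ G.Adj w p ∧ G.Adj p q ∧ G.Adj q c ∧ G.Adj c v ∧ v ≠ p ∧ v ≠ q ∧ w ≠ q ∧ w ≠ c ∧ p ≠ c

/-- `λ = d⁴/n` -/
def lam (n d : ℕ) : ℝ := (d : ℝ) ^ 4 / n

/-- `γ = d³/n` -/
def gam (n d : ℕ) : ℝ := (d : ℝ) ^ 3 / n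

/-! ### typical properties -/

/-- codegrees at most `K` -/
def T1 {n : ℕ} (K : ℕ) (G : Gr n) : Prop := ∀ u v, u ≠ v → (nb G u ∩ nb G v).card ≤ K

/-- at most `K` 3-paths between two distinct vertices -/
def T2 {n : ℕ} (K : ℕ) (G : Gr n) : Prop :=
  ∀ x z, x ≠ z → (univ.filter fun t : Fin n × Fin n => P3 G x t.1 t.2 z).card ≤ K

/-- number of 5-cycles through the edge `v w` (as tuples `(p,q,c)`) -/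
def nC5 {n : ℕ} (G : Gr n) (v w : Fin n) : ℕ :=
  (univ.filter fun t : Fin n × Fin n × Fin n => C5 G v w t.1 t.2.1 t.2.2).card

def T3 (c₁ c₂ : ℝ) (n d : ℕ) (G : Gr n) : Prop :=
  ∀ v w, G.Adj v w → c₁ * lam n d ≤ nC5 G v w ∧ (nC5 G v w : ℝ) ≤ c₂ * lam n d

/-- `c` and `u` are joined by a 3-path avoiding `v` -/
def J3 {n : ℕ} (G : Gr n) (v c u : Fin n) : Prop := ∃ a b, P3 G c a b u ∧ a ≠ v ∧ b ≠ v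

def T4 {n : ℕ} (L : ℝ) (G : Gr n) : Prop :=
  ∀ v u u', u ≠ u' → u ≠ v → u' ≠ v →
    (((nb G v).filter fun c => J3 G v c u ∧ J3 G v c u').card : ℝ) ≤ L

def T5 {n : ℕ} (L : ℝ) (G : Gr n) : Prop :=
  ∀ p q, p ≠ q → ¬ G.Adj p q →
    ((univ.filter fun t : Fin n × Fin n × Fin n =>
      -- t = (w, v, c): path p - w - v - c - q and a 3-path w - .. - c avoiding v
      G.Adj p t.1 ∧ G.Adj t.1 t.2.1 ∧ G.Adj t.2.1 t.2.2 ∧ G.Adj t.2.2 q ∧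
      p ≠ t.2.1 ∧ p ≠ t.2.2 ∧ t.1 ≠ t.2.2 ∧ t.1 ≠ q ∧ t.2.1 ≠ q ∧ J3 G t.2.1 t.1 t.2.2).card : ℝ) ≤ L

/-- number of 3-paths avoiding `v` from `A` to `B` -/
def nP3 {n : ℕ} (G : Gr n) (v : Fin n) (A B : Finset (Fin n)) : ℕ :=
  (univ.filter fun t : Fin n × Fin n × Fin n × Fin n =>
    t.1 ∈ A ∧ t.2.2.2 ∈ B ∧ P3 G t.1 t.2.1 t.2.2.1 t.2.2.2 ∧ t.2.1 ≠ v ∧ t.2.2.1 ≠ v).card

def T6 (C : ℝ) (n d : ℕ) (G : Gr n) : Prop :=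
  ∀ v (A B : Finset (Fin n)), A ⊆ nb G v → B ⊆ nb G v →
    (nP3 G v A B : ℝ) ≤ C * (gam n d * A.card * B.card + (A.card + B.card) * Real.log n)

def T7 (c δ : ℝ) (n d : ℕ) (G : Gr n) : Prop :=
  ∀ B : Finset (Fin n), (B.card : ℝ) ≤ (n : ℝ) ^ (1 - 2 * δ) →
    (((B ×ˢ B).filter fun t => G.Adj t.1 t.2).card : ℝ) ≤ (n : ℝ) ^ (-c) * d * B.card

/-- the `H`-edge `v w` is changed -/
def Ch {n : ℕ} (H : Gr n) (σ : Fin n → Equiv.Perm (Fin n)) (v w : Fin n) : Prop :=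
  H.Adj v w ∧ ((σ v).symm w ≠ w ∨ (σ w).symm v ≠ v)

/-- number of changed edges at `x` -/
def Fd {n : ℕ} (H : Gr n) (σ : Fin n → Equiv.Perm (Fin n)) (x : Fin n) : ℕ :=
  (univ.filter fun y => Ch H σ x y).card

/-- number of ordered changed edges -/
def Mch {n : ℕ} (H : Gr n) (σ : Fin n → Equiv.Perm (Fin n)) : ℕ :=
  (univ.filter fun t : Fin n × Fin n => Ch H σ t.1 t.2).card

def T8 {n : ℕ} (L : ℝ) (G : Gr n) : Prop :=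
  ∀ (H : Gr n) (σ : Fin n → Equiv.Perm (Fin n)), IsPartner G H σ → ∀ b,
    ((univ.filter fun t : Fin n × Fin n × Fin n × Fin n =>
      -- t = (u, u', y, y')
      G.Adj b t.1 ∧ G.Adj b t.2.1 ∧
      ¬ ((σ b t.1 = t.1 ∧ σ b t.2.1 = t.2.1) ∨ (σ b t.1 = t.2.1 ∧ σ b t.2.1 = t.1)) ∧
      C5 H b (σ b t.1) t.2.2.1 t.2.2.2 (σ b t.2.1) ∧
      P3 G (σ b t.1) t.2.2.1 t.2.2.2 (σ b t.2.1)).card : ℝ) ≤ L

def T9 (δ c : ℝ) (n d : ℕ) (G : Gr n) : Prop :=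
  ∀ (H : Gr n) (σ : Fin n → Equiv.Perm (Fin n)), IsPartner G H σ →
    (Mch H σ : ℝ) ≤ (n : ℝ) ^ (1 - 3 * δ) * d →
    ((univ.filter fun t : Fin n × Fin n × Fin n × Fin n × Fin n =>
      -- t = (v, w, p, q, c)
      C5 H t.1 t.2.1 t.2.2.1 t.2.2.2.1 t.2.2.2.2 ∧ Ch H σ t.1 t.2.1 ∧ Ch H σ t.2.2.1 t.2.2.2.1 ∧
      ¬ Ch H σ t.2.1 t.2.2.1 ∧ ¬ Ch H σ t.2.2.2.1 t.2.2.2.2 ∧ ¬ Ch H σ t.2.2.2.2 t.1).card : ℝ)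
        ≤ (n : ℝ) ^ (-c) * lam n d * Mch H σ ∧
    ((univ.filter fun t : Fin n × Fin n × Fin n × Fin n × Fin n =>
      C5 H t.1 t.2.1 t.2.2.1 t.2.2.2.1 t.2.2.2.2 ∧ Ch H σ t.1 t.2.1 ∧ Ch H σ t.2.2.2.2 t.1 ∧
      Ch H σ t.2.2.1 t.2.2.2.1 ∧ ¬ Ch H σ t.2.1 t.2.2.1 ∧ ¬ Ch H σ t.2.2.2.1 t.2.2.2.2).card : ℝ)
        ≤ (n : ℝ) ^ (-c) * lam n d * Mch H σ

/-- Phase 1: every partner has few changed edges -/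
def PH1 (δ : ℝ) (n d : ℕ) (G : Gr n) : Prop :=
  ∀ (H : Gr n) (σ : Fin n → Equiv.Perm (Fin n)), IsPartner G H σ →
    (Mch H σ : ℝ) ≤ (n : ℝ) ^ (1 - 3 * δ) * d

/-- regime C -/
def RegC (ε ε₀ : ℝ) (n d : ℕ) : Prop :=
  (n : ℝ) ^ (1 / 4 + ε) ≤ d ∧ (d : ℝ) ^ 3 ≤ (n : ℝ) ^ (1 - ε₀)

/-- FIVELOW: many `y` completing the edge `v u` to a 5-cycle -/
def FiveLow (c : ℝ) (n d : ℕ) (G : Gr n) : Prop :=
  ∀ v u, G.Adj v u →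
    c * lam n d ≤ ((univ.filter fun y : Fin n =>
      y ≠ v ∧ y ≠ u ∧ ¬ G.Adj v y ∧ ¬ G.Adj u y ∧
      (∃ a, G.Adj v a ∧ a ≠ u ∧ ¬ G.Adj u a ∧ G.Adj a y) ∧
      (∃ z, G.Adj u z ∧ z ≠ v ∧ ¬ G.Adj v z ∧ G.Adj z y)).card : ℝ)

/-! ### regime A -/

def Star1 {n : ℕ} (G : Gr n) (v u a z : Fin n) : Prop :=
  G.Adj v a ∧ a ≠ u ∧ G.Adj u z ∧ z ≠ v ∧ a ≠ z ∧ ∃ y, y ≠ v ∧ y ≠ u ∧ G.Adj a y ∧ G.Adj z y

def Star2 {n : ℕ} (G : Gr n) (v u a a' z : Fin n) : Prop :=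
  G.Adj v a ∧ a ≠ u ∧ G.Adj v a' ∧ a' ≠ u ∧ G.Adj u z ∧ z ≠ v ∧ a ≠ a' ∧ a ≠ z ∧ a' ≠ z ∧
    ∃ y, y ≠ v ∧ y ≠ u ∧ G.Adj a y ∧ G.Adj a' y ∧ G.Adj z y

/-- `ψ` maps the pair of neighbourhoods of `(v,u)` to that of `(v',u')` -/
def MapsPair {n : ℕ} (G : Gr n) (v u v' u' : Fin n) (ψ : Equiv.Perm (Fin n)) : Prop :=
  ψ v = v' ∧ ψ u = u' ∧ (∀ a, G.Adj v a ↔ G.Adj v' (ψ a)) ∧ (∀ z, G.Adj u z ↔ G.Adj u' (ψ z))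

def FP1 {n : ℕ} (G : Gr n) : Prop :=
  ∀ v u v' u', G.Adj v u → G.Adj v' u' → (v, u) ≠ (v', u') → ∀ ψ : Equiv.Perm (Fin n),
    MapsPair G v u v' u' ψ → ¬ (∀ a z, Star1 G v u a z ↔ Star1 G v' u' (ψ a) (ψ z))

def FP2 {n : ℕ} (G : Gr n) : Prop :=
  ∀ v u v' u', G.Adj v u → G.Adj v' u' → (v, u) ≠ (v', u') → ∀ ψ : Equiv.Perm (Fin n),
    MapsPair G v u v' u' ψ → ¬ (∀ a a' z, Star2 G v u a a' z ↔ Star2 G v' u' (ψ a) (ψ a') (ψ z))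

/-! ### regime B -/

/-- number of `(y,z)` such that `v - a - y - z - u` -/
def Xc {n : ℕ} (G : Gr n) (v u a : Fin n) : ℕ :=
  (univ.filter fun t : Fin n × Fin n =>
    G.Adj a t.1 ∧ t.1 ≠ v ∧ t.1 ≠ u ∧ G.Adj t.1 t.2 ∧ G.Adj u t.2 ∧ t.2 ≠ v ∧ t.2 ≠ a).card

/-- number of `a ∈ N(v) \ {u}` with `Xc = k` -/
def prof {n : ℕ} (G : Gr n) (v u : Fin n) (k : ℕ) : ℕ :=
  (univ.filter fun a : Fin n => G.Adj v a ∧ a ≠ u ∧ Xc G v u a = k).card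

def FPB {n : ℕ} (G : Gr n) : Prop :=
  ∀ v u v' u', G.Adj v u → G.Adj v' u' → (v, u) ≠ (v', u') → ∃ k, prof G v u k ≠ prof G v' u' k

def TB2 {n : ℕ} (K : ℝ) (G : Gr n) : Prop :=
  ∀ x z, x ≠ z → ((univ.filter fun t : Fin n × Fin n => P3 G x t.1 t.2 z).card : ℝ) ≤ K * Real.log n

def TB3 {n : ℕ} (G : Gr n) : Prop :=
  ∀ x₁ x₂ x₃, ((univ.filter fun y : Fin n =>
    y ≠ x₁ ∧ y ≠ x₂ ∧ y ≠ x₃ ∧ ¬ G.Adj x₁ y ∧ ¬ G.Adj x₂ y ∧ ¬ G.Adj x₃ y ∧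
    ∃ t₁ t₂ t₃, t₁ ≠ t₂ ∧ t₁ ≠ t₃ ∧ t₂ ≠ t₃ ∧ G.Adj x₁ t₁ ∧ G.Adj x₂ t₂ ∧ G.Adj x₃ t₃ ∧
      G.Adj t₁ y ∧ G.Adj t₂ y ∧ G.Adj t₃ y).card : ℝ) ≤ (n : ℝ) ^ (1 / 10 : ℝ)

def TB4 {n : ℕ} (d : ℕ) (G : Gr n) : Prop :=
  ∀ v u, v ≠ u → ((univ.filter fun y : Fin n =>
    y ≠ v ∧ y ≠ u ∧ ¬ G.Adj v y ∧ ¬ G.Adj u y ∧
      ∃ a z, a ≠ z ∧ G.Adj v a ∧ G.Adj u z ∧ G.Adj a y ∧ G.Adj z y).card : ℝ) ≤ 30 * lam n d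

def TB6 {n : ℕ} (G : Gr n) : Prop :=
  ∀ v, ((univ.filter fun t : Fin n × Fin n => G.Adj v t.1 ∧ G.Adj v t.2 ∧ G.Adj t.1 t.2).card : ℝ)
    ≤ (n : ℝ) ^ (1 / 10 : ℝ)

/-- all typical properties used in regime B -/
def TypB (K : ℕ) (K₃ c : ℝ) (n d : ℕ) (G : Gr n) : Prop :=
  T1 K G ∧ TB2 K₃ G ∧ TB3 G ∧ TB4 d G ∧ TB6 G ∧ FiveLow c n d G

end

end Pool.Agent.RRG
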