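import Pool.Agent.RRG.Basic

/-!
# Extraction of edge-disjoint families and the basic consequence of DO
-/

open Finset Filter Topology
open scoped Classical

namespace Pool.Agent.RRG

/-- If every element of the ground set is in at most `D` of the sets, there is a large disjoint
subfamily. -/
theorem disj_extract {ι β : Type*} (I : Finset ι) (E : ι → Finset β) (r D : ℕ)
    (hne : ∀ i ∈ I, (E i).Nonempty) (hr : ∀ i ∈ I, (E i).card ≤ r)
    (hD : ∀ e : β, (I.filter fun i => e ∈ E i).card ≤ D) :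
    ∃ J ⊆ I, (∀ i ∈ J, ∀ j ∈ J, i ≠ j → Disjoint (E i) (E j)) ∧ I.card ≤ J.card * (r * D) := by
  have hfin : ((I.powerset).filter fun J => ∀ i ∈ J, ∀ j ∈ J, i ≠ j → Disjoint (E i) (E j)).Nonempty :=
    ⟨∅, by simp⟩
  obtain ⟨J, hJ, hmax⟩ := exists_max_image _ Finset.card hfin
  simp only [mem_filter, mem_powerset] at hJ
  refine ⟨J, hJ.1, hJ.2, ?_⟩
  -- every `i ∈ I` meets some `j ∈ J`
  have hcov : I ⊆ J.biUnion fun j => (E j).biUnion fun e => I.filter fun i => e ∈ E i := by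
    intro i hi
    by_contra hcon
    simp only [mem_biUnion, mem_filter, not_exists, not_and] at hcon
    have hdis : ∀ j ∈ J, Disjoint (E i) (E j) := by
      intro j hj
      rw [disjoint_left]
      intro e he he'
      exact hcon j hj e he' hi he
    have hiJ : i ∉ J := by
      intro hiJ
      obtain ⟨e, he⟩ := hne i hi
      exact hcon i hiJ e he hi he
    have hins : insert i J ∈ (I.powerset).filter
        fun J => ∀ i ∈ J, ∀ j ∈ J, i ≠ j → Disjoint (E i) (E j) := by
      simp only [mem_filter, mem_powerset]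
      refine ⟨insert_subset hi hJ.1, ?_⟩
      intro a ha b hb hab
      rw [mem_insert] at ha hb
      rcases ha with rfl | ha
      · rcases hb with rfl | hb
        · exact absurd rfl hab
        · exact hdis b hb
      · rcases hb with rfl | hb
        · exact (hdis a ha).symm
        · exact hJ.2 a ha b hb hab
    have := hmax _ hins
    rw [card_insert_of_notMem hiJ] at this
    omega
  calc I.card ≤ _ := card_le_card hcov
    _ ≤ ∑ j ∈ J, ((E j).biUnion fun e => I.filter fun i => e ∈ E i).card := card_biUnion_le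
    _ ≤ ∑ j ∈ J, r * D := by
        refine sum_le_sum fun j hj => ?_
        calc _ ≤ ∑ e ∈ E j, (I.filter fun i => e ∈ E i).card := card_biUnion_le
          _ ≤ ∑ e ∈ E j, D := sum_le_sum fun e _ => hD e
          _ = (E j).card * D := by rw [sum_const, smul_eq_mul]
          _ ≤ r * D := Nat.mul_le_mul_right _ (hr j (hJ.1 hj))
    _ = J.card * (r * D) := by rw [sum_const, smul_eq_mul]

/-- DO with conflict bound: `P` is a property guaranteeing that every pair is in at most `D`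
configurations contained in `G`. -/
theorem DO_conf (h : Stmt_DO) {n d : ℕ} (hn : 64 ≤ n) (hd : 64 * d ≤ n) {ι : Type}
    (I : Finset ι) (E : ι → Finset (Sym2 (Fin n))) (m r D : ℕ) (hrD : 0 < r * D)
    (hE : ∀ i ∈ I, (E i).Nonempty ∧ (E i).card ≤ r ∧ ∀ e ∈ E i, ¬ e.IsDiag)
    (hm : 32 * (m * r) ≤ n * d) (P : Gr n → Prop)
    (hP : ∀ G ∈ Reg n d, P G → ∀ e, (I.filter fun i => E i ⊆ ed G ∧ e ∈ E i).card ≤ D) :
    (((Reg n d).filter fun G => P G ∧ m * (r * D) ≤ (I.filter fun i => E i ⊆ ed G).card).card : ℝ) *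
        (m.factorial : ℝ) ≤
      (∑ i ∈ I, (2 * (d : ℝ) / n) ^ (E i).card) ^ m * ((Reg n d).card : ℝ) := by
  have h1 := h n d hn hd ∅ ∅ (by simp) ι I E m r (by
    intro i hi
    obtain ⟨_, h2, h3⟩ := hE i hi
    refine ⟨h2, fun e he => ⟨by simp, h3 e he, fun x _ => by simp⟩⟩) hm
  have e1 : (Reg n d).filter (fun G => ed G ∩ (∅ : Finset (Sym2 (Fin n))) = ∅) = Reg n d := by
    rw [filter_true_of_mem]
    intro G _
    simp
  rw [e1] at h1
  refine le_trans ?_ h1
  refine mul_le_mul_of_nonneg_right ?_ (by positivity)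
  refine Nat.cast_le.2 (card_le_card ?_)
  intro G hG
  simp only [mem_filter] at hG ⊢
  obtain ⟨hGR, hPG, hcard⟩ := hG
  refine ⟨hGR, by simp, ?_⟩
  obtain ⟨J, hJI, hJd, hJc⟩ := disj_extract (I.filter fun i => E i ⊆ ed G) E r D
    (fun i hi => (hE i (mem_filter.1 hi).1).1) (fun i hi => (hE i (mem_filter.1 hi).1).2.1)
    (fun e => by
      refine (card_le_card ?_).trans (hP G hGR hPG e)
      intro i hi
      simp only [mem_filter] at hi ⊢
      exact ⟨hi.1.1, hi.1.2, hi.2⟩)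
  have hJm : m ≤ J.card := by
    have := hcard.trans hJc
    exact Nat.le_of_mul_le_mul_right this hrD
  obtain ⟨J', hJ'J, hJ'c⟩ := exists_subset_card_eq hJm
  refine ⟨J', ?_, hJ'c, ?_, ?_⟩
  · exact hJ'J.trans (hJI.trans (filter_subset _ _))
  · exact fun i hi j hj hij => hJd i (hJ'J hi) j (hJ'J hj) hij
  · exact fun i hi => (mem_filter.1 (hJI (hJ'J hi))).2

/-- `μ^m ≤ e^{-m} m!` if `e² μ ≤ m` -/
theorem pow_le_exp_neg_mul_factorial {μ : ℝ} {m : ℕ} (h0 : 0 ≤ μ)
    (h : Real.exp 2 * μ ≤ m) : μ ^ m ≤ Real.exp (-(m : ℝ)) * (m.factorial : ℝ) := by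
  have h1 : (m : ℝ) ^ m / (m.factorial : ℝ) ≤ Real.exp m :=
    Real.pow_div_factorial_le_exp (m : ℝ) (by positivity) m
  have hf : (0 : ℝ) < m.factorial := by positivity
  rw [div_le_iff₀ hf] at h1
  have h2 : (Real.exp 2 * μ) ^ m ≤ (m : ℝ) ^ m := pow_le_pow_left₀ (by positivity) h m
  rw [mul_pow] at h2
  have h3 : Real.exp 2 ^ m = Real.exp m * Real.exp m := by
    rw [← Real.exp_nat_mul, ← Real.exp_add]
    congr 1
    ring
  rw [h3] at h2
  have h4 : Real.exp m * (Real.exp m * μ ^ m) ≤ Real.exp m * (m.factorial : ℝ) := by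
    calc _ = Real.exp m * Real.exp m * μ ^ m := by ring
      _ ≤ _ := h2.trans h1
  have h5 : Real.exp m * μ ^ m ≤ (m.factorial : ℝ) := le_of_mul_le_mul_left h4 (Real.exp_pos _)
  rw [Real.exp_neg, inv_mul_eq_div, le_div_iff₀ (Real.exp_pos _)]
  linarith

/-- `64 d ≤ n` in the sparse regime -/
theorem d_small_of_cube {n d : ℕ} (hn : 512 ≤ n) (h : d ^ 3 ≤ n) : 64 * d ≤ n := by
  by_contra hlt
  push Not at hlt
  have h1 : n ^ 3 < (64 * d) ^ 3 := Nat.pow_lt_pow_left hlt (by norm_num)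
  have h2 : (64 * d) ^ 3 = 262144 * d ^ 3 := by ring
  have h3 : n ^ 3 < 262144 * n := by
    calc n ^ 3 < 262144 * d ^ 3 := by rw [← h2]; exact h1
      _ ≤ 262144 * n := Nat.mul_le_mul_left _ h
  have h4 : n * n < 262144 := by
    have : n * (n * n) < n * 262144 := by
      calc n * (n * n) = n ^ 3 := by ring
        _ < 262144 * n := h3
        _ = n * 262144 := by ring
    exact Nat.lt_of_mul_lt_mul_left this
  nlinarith

theorem cube_le_of_rpow {n d : ℕ} {ε₀ : ℝ} (hn : 1 ≤ n) (hε : 0 < ε₀)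
    (h : (d : ℝ) ^ 3 ≤ (n : ℝ) ^ (1 - ε₀)) : d ^ 3 ≤ n := by
  have h1 : (n : ℝ) ^ (1 - ε₀) ≤ (n : ℝ) ^ (1 : ℝ) :=
    Real.rpow_le_rpow_of_exponent_le (by exact_mod_cast hn) (by linarith)
  rw [Real.rpow_one] at h1
  have h2 := h.trans h1
  exact_mod_cast h2

end Pool.Agent.RRG
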