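import Pool.Agent.RRG.LowTools

/-!
# FIVELOW (MP_d15a9b_pr)
-/

open Finset Filter Topology
open scoped Classical

namespace Pool.Agent.RRG.FiveLowM

open Pool.Agent.RRG.LowTools

variable {n d K : ℕ}

/-- the `y` of FIVELOW -/
noncomputable def Ys (G : Gr n) (v u : Fin n) : Finset (Fin n) := univ.filter fun y : Fin n =>
      y ≠ v ∧ y ≠ u ∧ ¬ G.Adj v y ∧ ¬ G.Adj u y ∧
      (∃ a, G.Adj v a ∧ a ≠ u ∧ ¬ G.Adj u a ∧ G.Adj a y) ∧
      (∃ z, G.Adj u z ∧ z ≠ v ∧ ¬ G.Adj v z ∧ G.Adj z y)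

noncomputable def Rs (v u : Fin n) (G : Gr n) : Finset (Fin n) := insert v (insert u (nb G v))

theorem same_nb {R : Finset (Fin n)} {G G₀ : Gr n} (h : Same R G G₀) {r : Fin n} (hr : r ∈ R) :
    nb G r = nb G₀ r := by
  ext x
  rw [mem_nb, mem_nb]
  exact h r hr x

theorem Rs_loc (v u : Fin n) (G G' : Gr n) (h : Same (Rs v u G) G' G) : Rs v u G' = Rs v u G := by
  have : nb G' v = nb G v := same_nb h (by simp [Rs])
  simp [Rs, this]

theorem nb_comm {G : Gr n} {x y : Fin n} : x ∈ nb G y ↔ y ∈ nb G x := by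
  rw [mem_nb, mem_nb, G.adj_comm]

/-- the construction of `A` and `S` -/
theorem data (G₀ : Gr n) (h0 : G₀ ∈ Reg n d) (hT : T1 K G₀) (hK : 1 ≤ K) (hd : 200 * K ≤ d)
    (hn : 10 * d ^ 2 ≤ n) (v u : Fin n) (hvu : G₀.Adj v u) :
    ∃ A S : Finset (Fin n), Disjoint A S ∧ Disjoint A (Rs v u G₀) ∧
      Disjoint S (Rs v u G₀) ∧ 100 * d ≤ A.card ∧ 10 * A.card ≤ n ∧ 10 * S.card ≤ n ∧
      (∀ x ∈ A ∪ S, 4 * (nb G₀ x ∩ Rs v u G₀).card ≤ d) ∧ d ^ 2 ≤ 2 * K * A.card ∧ d ≤ 2 * S.card ∧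
      (∀ b ∈ A, ¬ G₀.Adj u b ∧ ∃ a, G₀.Adj v a ∧ a ≠ u ∧ ¬ G₀.Adj u a ∧ G₀.Adj a b) ∧
      (∀ z ∈ S, G₀.Adj u z) := by
  have hne : v ≠ u := hvu.ne
  have hcod : ∀ x y : Fin n, x ≠ y → (nb G₀ x ∩ nb G₀ y).card ≤ K := fun x y h => hT x y h
  set P : Finset (Fin n) := (nb G₀ v \ nb G₀ u).erase u with hP
  set A : Finset (Fin n) := (P.biUnion (nb G₀)) \ (insert v (nb G₀ v ∪ nb G₀ u)) with hA
  set S : Finset (Fin n) := nb G₀ u \ insert v (nb G₀ v) with hS
  have hReq : Rs v u G₀ = insert v (nb G₀ v) := by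
    unfold Rs
    rw [insert_eq_of_mem (a := u) (mem_nb.2 hvu)]
  have hPc : d ≤ P.card + K + 1 := by
    have h1 : (nb G₀ v \ nb G₀ u).card + (nb G₀ v ∩ nb G₀ u).card = (nb G₀ v).card :=
      card_sdiff_add_card_inter _ _
    have h2 : (nb G₀ v \ nb G₀ u).card ≤ P.card + 1 := by
      have := pred_card_le_card_erase (s := nb G₀ v \ nb G₀ u) (a := u)
      rw [hP]
      omega
    have h3 := hcod v u hne
    have h4 := card_nb h0 v
    omega
  have hPm : ∀ a ∈ P, G₀.Adj v a ∧ a ≠ u ∧ ¬ G₀.Adj u a := by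
    intro a ha
    simp only [hP, mem_erase, Finset.mem_sdiff, mem_nb] at ha
    exact ⟨ha.2.1, ha.1, ha.2.2⟩
  have hAc1 : ∀ a ∈ P, d - 2 * K - 1 ≤ (A.filter fun b => G₀.Adj a b).card := by
    intro a ha
    obtain ⟨a1, a2, a3⟩ := hPm a ha
    have hsub : nb G₀ a ⊆ (A.filter fun b => G₀.Adj a b) ∪ ((nb G₀ a ∩ nb G₀ v) ∪ (nb G₀ a ∩ nb G₀ u) ∪ {v}) := by
      intro b hb
      by_cases hbA : b ∈ A
      · exact mem_union_left _ (mem_filter.2 ⟨hbA, mem_nb.1 hb⟩)
      · apply mem_union_right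
        have hb1 : b ∈ P.biUnion (nb G₀) := mem_biUnion.2 ⟨a, ha, hb⟩
        have hb2 : b ∈ insert v (nb G₀ v ∪ nb G₀ u) := by
          by_contra hc
          exact hbA (Finset.mem_sdiff.2 ⟨hb1, hc⟩)
        simp only [mem_insert, mem_union, mem_inter, mem_singleton] at hb2 ⊢
        tauto
    have h1 := card_le_card hsub
    have h2 := card_union_le (A.filter fun b => G₀.Adj a b) ((nb G₀ a ∩ nb G₀ v) ∪ (nb G₀ a ∩ nb G₀ u) ∪ {v})
    have h3 := card_union_le ((nb G₀ a ∩ nb G₀ v) ∪ (nb G₀ a ∩ nb G₀ u)) {v}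
    have h4 := card_union_le (nb G₀ a ∩ nb G₀ v) (nb G₀ a ∩ nb G₀ u)
    have h5 := hcod a v a1.ne'
    have h6 := hcod a u a2
    have h7 := card_nb h0 a
    rw [card_singleton] at h3
    omega
  have hAc2 : ∀ b ∈ A, (P.filter fun a => G₀.Adj a b).card ≤ K := by
    intro b hb
    have hbv : b ≠ v := by
      rintro rfl
      simp [hA] at hb
    refine le_trans (card_le_card ?_) (hcod b v hbv)
    intro a ha
    rw [mem_filter] at ha
    rw [mem_inter, mem_nb, mem_nb]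
    exact ⟨ha.2.symm, (hPm a ha.1).1⟩
  have hdc := double_count P A (fun a b => G₀.Adj a b) _ _ hAc1 hAc2
  have hPd : P.card ≤ d := by
    have := card_le_card ((erase_subset u (nb G₀ v \ nb G₀ u)).trans sdiff_subset)
    rw [card_nb h0 v] at this
    exact this
  have hAle : A.card ≤ d ^ 2 := by
    have h1 : A.card ≤ (P.biUnion (nb G₀)).card := card_le_card sdiff_subset
    have h2 : (P.biUnion (nb G₀)).card ≤ ∑ a ∈ P, (nb G₀ a).card := card_biUnion_le
    have h3 : ∑ a ∈ P, (nb G₀ a).card = P.card * d := by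
      rw [sum_congr rfl (fun a _ => card_nb h0 a), sum_const, smul_eq_mul]
    have h4 : P.card * d ≤ d ^ 2 := by
      rw [pow_two]; exact Nat.mul_le_mul_right d hPd
    omega
  have hSc : d ≤ S.card + K + 1 := by
    have hsub : nb G₀ u ⊆ S ∪ ((nb G₀ u ∩ nb G₀ v) ∪ {v}) := by
      intro z hz
      by_cases hzS : z ∈ S
      · exact mem_union_left _ hzS
      · apply mem_union_right
        have : z ∈ insert v (nb G₀ v) := by
          by_contra hc
          exact hzS (Finset.mem_sdiff.2 ⟨hz, hc⟩)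
        simp only [mem_insert, mem_union, mem_inter, mem_singleton] at this ⊢
        tauto
    have h1 := card_le_card hsub
    have h2 := card_union_le S ((nb G₀ u ∩ nb G₀ v) ∪ {v})
    have h3 := card_union_le (nb G₀ u ∩ nb G₀ v) {v}
    have h5 := hcod u v hne.symm
    have h7 := card_nb h0 u
    rw [card_singleton] at h3
    omega
  have hSle : S.card ≤ d := by
    have := card_le_card (sdiff_subset : S ⊆ nb G₀ u)
    rw [card_nb h0 u] at this
    exact this
  have hAbig : d ^ 2 ≤ 2 * K * A.card := by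
    -- (d-K-1)(d-2K-1) ≥ d²/2
    have h1 : 9 * d ≤ 10 * P.card := by omega
    have h2 : 9 * d ≤ 10 * (d - 2 * K - 1) := by omega
    have h3 : (9 * d) * (9 * d) ≤ (10 * P.card) * (10 * (d - 2 * K - 1)) := Nat.mul_le_mul h1 h2
    have h4 : (10 * P.card) * (10 * (d - 2 * K - 1)) = 100 * (P.card * (d - 2 * K - 1)) := by ring
    nlinarith [hdc]
  have hnd : 10 * d ≤ n := by
    have : d ≤ d ^ 2 := by nlinarith
    omega
  refine ⟨A, S, ?_, ?_, ?_, ?_, ?_, ?_, ?_, hAbig, ?_, ?_, ?_⟩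
  · rw [disjoint_left]
    intro x hx hx'
    simp only [hA, hS, Finset.mem_sdiff, mem_insert, mem_union] at hx hx'
    tauto
  · rw [hReq, disjoint_left]
    intro x hx hx'
    simp only [hA, Finset.mem_sdiff, mem_insert, mem_union] at hx hx'
    tauto
  · rw [hReq, disjoint_left]
    intro x hx hx'
    simp only [hS, Finset.mem_sdiff, mem_insert] at hx hx'
    tauto
  · have h1 : 2 * K * (100 * d) ≤ 2 * K * A.card := by
      calc 2 * K * (100 * d) = (200 * K) * d := by ring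
        _ ≤ d * d := Nat.mul_le_mul_right d hd
        _ = d ^ 2 := by ring
        _ ≤ _ := hAbig
    exact Nat.le_of_mul_le_mul_left h1 (by omega)
  · omega
  · omega
  · intro x hx
    rw [hReq]
    have hxv : x ≠ v := by
      rintro rfl
      simp [hA, hS] at hx
    have h1 : (nb G₀ x ∩ insert v (nb G₀ v)).card ≤ K + 1 := by
      have hsub : nb G₀ x ∩ insert v (nb G₀ v) ⊆ (nb G₀ x ∩ nb G₀ v) ∪ {v} := by
        intro y hy
        simp only [mem_insert, mem_union, mem_inter, mem_singleton] at hy ⊢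
        tauto
      have h2 := card_le_card hsub
      have h3 := card_union_le (nb G₀ x ∩ nb G₀ v) {v}
      have h4 := hcod x v hxv
      rw [card_singleton] at h3
      omega
    omega
  · omega
  · intro b hb
    simp only [hA, Finset.mem_sdiff, mem_biUnion, mem_insert, mem_union, mem_nb, not_or] at hb
    obtain ⟨⟨a, ha, hab⟩, -, -, hub⟩ := hb
    exact ⟨hub, a, (hPm a ha).1, (hPm a ha).2.1, (hPm a ha).2.2, hab⟩
  · intro z hz
    simp only [hS, Finset.mem_sdiff, mem_nb] at hz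
    exact hz.1

theorem pair_bound (hLow : Stmt_Low) (hK : 1 ≤ K) (hd : 200 * K ≤ d) (hn : 10 * d ^ 2 ≤ n) (h64 : 64 * d ≤ n)
    (v u : Fin n) (t : ℝ) (ht : t ≤ lam n d / (128 * K)) :
    (((Reg n d).filter fun G => T1 K G ∧ G.Adj v u ∧
      ((Ys G v u).card : ℝ) < 1 / (256 * (K : ℝ) ^ 2) * lam n d).card : ℝ)
      ≤ 4 * (2 : ℝ) ^ (-t) * (Reg n d).card := by
  have hKr : (1 : ℝ) ≤ K := by exact_mod_cast hK
  have hd0 : 0 < d := by omega
  have hn0 : 0 < n := by omega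
  have hdr : (0 : ℝ) < d := by exact_mod_cast hd0
  have hnr : (0 : ℝ) < n := by exact_mod_cast hn0
  refine low_class hLow hd0 h64 (Rs v u) (Rs_loc v u) (fun G => T1 K G ∧ G.Adj v u ∧
      ((Ys G v u).card : ℝ) < 1 / (256 * (K : ℝ) ^ 2) * lam n d) t ?_
  intro G₀ h0 hb
  obtain ⟨hT, hvu, -⟩ := hb
  obtain ⟨A, S, b1, b2, b3, b4, b5, b6, b7, b8, b9, b10, b11⟩ := data G₀ h0 hT hK hd hn v u hvu
  have b8r : (d : ℝ) ^ 2 ≤ 2 * K * A.card := by exact_mod_cast b8
  have b9r : (d : ℝ) ≤ 2 * S.card := by exact_mod_cast b9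
  have hAS : (d : ℝ) ^ 4 ≤ 4 * K * (A.card * S.card * d) := by
    have h1 : (d : ℝ) ^ 2 * d ≤ (2 * K * A.card) * (2 * S.card) :=
      mul_le_mul b8r b9r hdr.le (by positivity)
    have h2 : (d : ℝ) ^ 2 * d * d ≤ (2 * K * A.card) * (2 * S.card) * d :=
      mul_le_mul_of_nonneg_right h1 hdr.le
    calc (d : ℝ) ^ 4 = (d : ℝ) ^ 2 * d * d := by ring
      _ ≤ _ := h2
      _ = _ := by ring
  refine ⟨A, S, b1, b2, b3, b4, b5, b6, b7, ?_, ?_⟩
  · refine ht.trans ?_
    unfold lam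
    rw [div_div, div_le_div_iff₀ (by positivity) (by positivity)]
    nlinarith [mul_le_mul_of_nonneg_right hAS (by positivity : (0 : ℝ) ≤ 32 * n)]
  · intro G hG hs hbad
    obtain ⟨hT', hvu', hcard⟩ := hbad
    by_contra hcon
    push Not at hcon
    have huR : u ∈ Rs v u G₀ := by simp [Rs]
    have hvR : v ∈ Rs v u G₀ := by simp [Rs]
    -- `e(A,S) ≤ K #Ys`
    have he : ((A ×ˢ S).filter fun t => G.Adj t.1 t.2).card ≤ K * (Ys G v u).card := by
      have h1 : ((A ×ˢ S).filter fun t => G.Adj t.1 t.2).card ≤ ∑ y ∈ Ys G v u, (nb G y ∩ nb G u).card := by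
        have h2 : ((A ×ˢ S).filter fun t => G.Adj t.1 t.2) ⊆
            (Ys G v u).biUnion fun y => ({y} : Finset (Fin n)) ×ˢ (nb G y ∩ nb G u) := by
          intro t ht
          simp only [mem_filter, mem_product] at ht
          obtain ⟨⟨hA, hS⟩, hadj⟩ := ht
          have hz : G.Adj u t.2 := (hs u huR _).2 (b11 _ hS)
          obtain ⟨c1, a, c2, c3, c4, c5⟩ := b10 _ hA
          have haR : a ∈ Rs v u G₀ := by simp [Rs, c2]
          have hAR : t.1 ∉ Rs v u G₀ := fun h => (disjoint_left.1 b2) hA h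
          have hSR : t.2 ∉ Rs v u G₀ := fun h => (disjoint_left.1 b3) hS h
          simp only [Rs, mem_insert, mem_nb, not_or] at hAR hSR
          rw [mem_biUnion]
          refine ⟨t.1, ?_, ?_⟩
          · unfold Ys
            rw [mem_filter]
            refine ⟨mem_univ _, hAR.1, hAR.2.1, ?_, ?_, ⟨a, ?_, c3, ?_, ?_⟩, ⟨t.2, hz, hSR.1, ?_, hadj.symm⟩⟩
            · rw [hs v hvR]; exact hAR.2.2
            · rw [hs u huR]; exact c1
            · rw [hs v hvR]; exact c2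
            · rw [hs u huR]; exact c4
            · rw [hs a haR]; exact c5
            · rw [hs v hvR]; exact hSR.2.2
          · rw [mem_product, mem_singleton, mem_inter, mem_nb, mem_nb]
            exact ⟨rfl, hadj, hz⟩
        refine (card_le_card h2).trans (card_biUnion_le.trans ?_)
        refine sum_le_sum fun y _ => ?_
        rw [card_product, card_singleton, one_mul]
      refine h1.trans ?_
      have h3 : ∑ y ∈ Ys G v u, (nb G y ∩ nb G u).card ≤ ∑ y ∈ Ys G v u, K := by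
        refine sum_le_sum fun y hy => ?_
        simp only [Ys, mem_filter] at hy
        exact hT' y u hy.2.2.1
      rw [sum_const, smul_eq_mul, mul_comm] at h3
      exact h3
    have her : (((A ×ˢ S).filter fun t => G.Adj t.1 t.2).card : ℝ) ≤ K * (Ys G v u).card := by
      exact_mod_cast he
    have h5 : 64 * (n : ℝ) * (((A ×ˢ S).filter fun t => G.Adj t.1 t.2).card : ℝ)
        ≤ 64 * n * (K * (Ys G v u).card) := mul_le_mul_of_nonneg_left her (by positivity)
    have h6 : 64 * (n : ℝ) * (K * (Ys G v u).card) ≤ 64 * n * (K * (1 / (256 * (K : ℝ) ^ 2) * lam n d)) := by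
      refine mul_le_mul_of_nonneg_left (mul_le_mul_of_nonneg_left hcard.le (by positivity)) (by positivity)
    have h7 : 64 * (n : ℝ) * (K * (1 / (256 * (K : ℝ) ^ 2) * lam n d)) = (d : ℝ) ^ 4 / (4 * K) := by
      unfold lam
      field_simp
      ring
    have h8 : (d : ℝ) ^ 4 / (4 * K) ≤ A.card * S.card * d := by
      rw [div_le_iff₀ (by positivity)]
      linarith
    linarith

theorem T1_mono' {G : Gr n} {K K' : ℕ} (h : K ≤ K') (hK : T1 K G) : T1 K' G :=
  fun u v huv => (hK u v huv).trans h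

def PB (K : ℕ) (n d : ℕ) (G : Gr n) : Prop := T1 K G → FiveLow (1 / (256 * (K : ℝ) ^ 2)) n d G

end Pool.Agent.RRG.FiveLowM

namespace Pool.Agent.RRG

open Pool.Agent.RRG.LowTools Pool.Agent.RRG.FiveLowM

theorem fivelow_proof (hLow : Stmt_Low) (hCod : Stmt_Codeg) : Stmt_FiveLow := by
  intro α hα
  obtain ⟨K0, hK0⟩ := hCod α hα
  set K : ℕ := max K0 1 with hKdef
  have hK1 : 1 ≤ K := le_max_right _ _
  have hKr : (1 : ℝ) ≤ K := by exact_mod_cast hK1
  refine ⟨1 / (256 * (K : ℝ) ^ 2), by positivity, ?_⟩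
  have hA : Whp (fun n d => (n : ℝ) ^ (1 / 4 + α) ≤ d ∧ (d : ℝ) ≤ (n : ℝ) ^ (1 / 2 - α))
      (fun _ _ G => T1 K G) := by
    refine hK0.mono ⟨0, fun n _ d h => h.2⟩ ⟨0, fun n _ d _ G _ h => T1_mono' (le_max_left _ _) h⟩
  have hB : Whp (fun n d => (n : ℝ) ^ (1 / 4 + α) ≤ d ∧ (d : ℝ) ≤ (n : ℝ) ^ (1 / 2 - α))
      (fun n d G => PB K n d G) := by
    refine Whp.of_bound (fun n : ℕ => 4 * (n : ℝ) ^ (2 : ℝ) * (2 : ℝ) ^ (-(1 / (128 * K) * (n : ℝ) ^ (4 * α))))
      (tend_zero 4 (1 / (128 * K)) (4 * α) 2 (by positivity) (by positivity)) ?_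
    have e1 : ∀ᶠ n : ℕ in atTop, (200 * K : ℝ) ≤ (n : ℝ) ^ (1 / 4 + α) :=
      ((tendsto_rpow_atTop (by positivity : (0 : ℝ) < 1 / 4 + α)).comp tendsto_natCast_atTop_atTop).eventually_ge_atTop _
    have e2 : ∀ᶠ n : ℕ in atTop, (10 : ℝ) ≤ (n : ℝ) ^ (2 * α) :=
      ((tendsto_rpow_atTop (by positivity : (0 : ℝ) < 2 * α)).comp tendsto_natCast_atTop_atTop).eventually_ge_atTop _
    obtain ⟨n₁, hn₁⟩ := eventually_atTop.1 (e1.and e2)
    refine ⟨max n₁ 1, fun n hn d hd => ?_⟩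
    obtain ⟨f1, f2⟩ := hn₁ n (le_trans (le_max_left _ _) hn)
    have hn1 : 1 ≤ n := le_trans (le_max_right _ _) hn
    have hnr : (0 : ℝ) < n := by exact_mod_cast hn1
    obtain ⟨hd1, hd2⟩ := hd
    have hd200 : 200 * K ≤ d := by
      have : (200 * K : ℝ) ≤ d := f1.trans hd1
      exact_mod_cast this
    have hn10 : 10 * d ^ 2 ≤ n := by
      have h1 : (d : ℝ) ^ 2 ≤ ((n : ℝ) ^ (1 / 2 - α)) ^ 2 := by
        exact pow_le_pow_left₀ (by positivity) hd2 2
      have h2 : ((n : ℝ) ^ (1 / 2 - α)) ^ 2 * (n : ℝ) ^ (2 * α) = n := by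
        rw [← Real.rpow_natCast, ← Real.rpow_mul hnr.le, ← Real.rpow_add hnr]
        have : (1 / 2 - α) * ((2 : ℕ) : ℝ) + 2 * α = 1 := by push_cast; ring
        rw [this, Real.rpow_one]
      have h3 : (10 : ℝ) * d ^ 2 ≤ n := by
        calc (10 : ℝ) * d ^ 2 ≤ (n : ℝ) ^ (2 * α) * ((n : ℝ) ^ (1 / 2 - α)) ^ 2 :=
              mul_le_mul f2 h1 (by positivity) (by positivity)
          _ = n := by rw [mul_comm]; exact h2
      exact_mod_cast h3
    have h64 : 64 * d ≤ n := by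
      have : 64 * d ≤ 10 * d ^ 2 := by nlinarith
      omega
    have hlam : (n : ℝ) ^ (4 * α) ≤ lam n d := by
      unfold lam
      rw [le_div_iff₀ hnr]
      have h1 : ((n : ℝ) ^ (1 / 4 + α)) ^ 4 ≤ (d : ℝ) ^ 4 := pow_le_pow_left₀ (by positivity) hd1 4
      have h2 : ((n : ℝ) ^ (1 / 4 + α)) ^ 4 = (n : ℝ) ^ (4 * α) * n := by
        rw [← Real.rpow_natCast, ← Real.rpow_mul hnr.le]
        have : (1 / 4 + α) * ((4 : ℕ) : ℝ) = 4 * α + 1 := by push_cast; ring
        rw [this, Real.rpow_add_one hnr.ne']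
      linarith
    have hb : ∀ v u : Fin n, (((Reg n d).filter fun G => T1 K G ∧ G.Adj v u ∧
        ((Ys G v u).card : ℝ) < 1 / (256 * (K : ℝ) ^ 2) * lam n d).card : ℝ)
        ≤ 4 * (2 : ℝ) ^ (-(1 / (128 * K) * (n : ℝ) ^ (4 * α))) * (Reg n d).card := by
      intro v u
      refine pair_bound hLow hK1 hd200 hn10 h64 v u _ ?_
      rw [one_div_mul_eq_div]
      exact div_le_div_of_nonneg_right hlam (by positivity)
    have hsub : ((Reg n d).filter fun G => ¬ PB K n d G) ⊆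
        (univ : Finset (Fin n × Fin n)).biUnion fun t => (Reg n d).filter fun G => T1 K G ∧ G.Adj t.1 t.2 ∧
        ((Ys G t.1 t.2).card : ℝ) < 1 / (256 * (K : ℝ) ^ 2) * lam n d := by
      intro G hG
      rw [mem_filter] at hG
      obtain ⟨g1, g2⟩ := hG
      unfold PB at g2
      push Not at g2
      obtain ⟨g3, g4⟩ := g2
      unfold FiveLow at g4
      push Not at g4
      obtain ⟨v, u, g5, g6⟩ := g4
      rw [mem_biUnion]
      refine ⟨(v, u), mem_univ _, ?_⟩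
      rw [mem_filter]
      refine ⟨g1, g3, g5, ?_⟩
      unfold Ys
      convert g6 using 10
    have h1 : (((Reg n d).filter fun G => ¬ PB K n d G).card : ℝ)
        ≤ ∑ t ∈ (univ : Finset (Fin n × Fin n)), (((Reg n d).filter fun G => T1 K G ∧ G.Adj t.1 t.2 ∧
        ((Ys G t.1 t.2).card : ℝ) < 1 / (256 * (K : ℝ) ^ 2) * lam n d).card : ℝ) := by
      rw [← Nat.cast_sum]
      exact Nat.cast_le.2 ((card_le_card hsub).trans card_biUnion_le)
    refine h1.trans ((sum_le_sum fun t _ => hb t.1 t.2).trans ?_)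
    rw [sum_const, card_univ, Fintype.card_prod, Fintype.card_fin, nsmul_eq_mul]
    have : (n : ℝ) ^ (2 : ℝ) = ((n * n : ℕ) : ℝ) := by
      rw [Real.rpow_two]; push_cast; ring
    rw [this]
    apply le_of_eq
    ring
  refine (hA.and hB).mono ⟨0, fun n _ d h => h⟩ ⟨0, fun n _ d _ G _ h => h.2 h.1⟩

end Pool.Agent.RRG
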