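import Pool.Agent.RRG.Key3

/-!
# KEY (MP_d15a9b_pr): the resampling estimate in regime B
-/

open Finset Filter Topology
open scoped Classical

namespace Pool.Agent.RRG

namespace KEY

noncomputable section

variable {n : ℕ} {G : Gr n} {v u v' u' : Fin n} {d : ℕ}

theorem Ap_sub : Ap G v u v' u' ⊆ nb G v := by
  intro a ha
  rw [mem_nb]; exact (mem_Ap.1 ha).adj

theorem Ap_card_le (hG : G ∈ Reg n d) : (Ap G v u v' u').card ≤ d := by
  rw [← mem_Reg.1 hG v]; exact card_le_card Ap_sub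

theorem Ap_card_ge (hG : G ∈ Reg n d) : d ≤ (Ap G v u v' u').card + (EE G v u v' u').card := by
  rw [← mem_Reg.1 hG v]
  refine (card_le_card ?_).trans (card_union_le _ _)
  intro a ha
  rw [mem_nb] at ha
  simp only [mem_union, mem_Ap, EE, mem_filter, mem_univ, true_and]
  tauto

theorem sz_lt (hG : G ∈ Reg n d) (b : {a // a ∈ Ap G v u v' u'}) : sz G v u v' u' b + 1 ≤ d := by
  have hb := mem_Ap.1 b.2
  rw [← mem_Reg.1 hG b.1]
  unfold sz
  have hv : v ∉ (univ.filter fun y => Ym G v u v' u' y ∧ G.Adj b.1 y) := by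
    simp only [mem_filter, mem_univ, true_and, not_and]
    intro h; exact absurd Exm.root h.nex
  rw [← card_insert_of_notMem hv]
  refine card_le_card ?_
  intro y hy
  rw [mem_insert] at hy
  rw [mem_nb]
  rcases hy with rfl | hy
  · exact hb.adj.symm
  · exact (mem_filter.1 hy).2.2

theorem card_eq_sum_sz : Fintype.card {y // y ∈ Yp G v u v' u'} = ∑ b, sz G v u v' u' b := by
  obtain ⟨π, hπ, _⟩ := exists_rs (G := G) (G' := G) (v := v) (u := u) (v' := v') (u' := u') rfl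
  simp only [fits, mem_filter, mem_univ, true_and] at hπ
  have h := card_eq_sum_card_fiberwise (s := (univ : Finset {y // y ∈ Yp G v u v' u'})) (f := π)
    (t := univ) (fun _ _ => mem_univ _)
  rw [← card_univ, h]
  refine sum_congr rfl fun b _ => ?_
  rw [← hπ b]
  congr

theorem rpow_one_tenth_facts {n K : ℕ} {K₃ : ℝ} (hn : 1 ≤ n) (hL : 0 ≤ K₃ * Real.log n)
    (hL2 : K₃ * Real.log n ≤ (n : ℝ) ^ (1 / 100 : ℝ)) :
    B1 n K K₃ ≤ (7 + 8 * K) * (n : ℝ) ^ (1 / 10 : ℝ) ∧ B2 n K K₃ ≤ (19 + 11 * K) * (n : ℝ) ^ (11 / 100 : ℝ) := by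
  have hn1 : (1 : ℝ) ≤ n := by exact_mod_cast hn
  set R := (n : ℝ) ^ (1 / 10 : ℝ) with hR
  set S := (n : ℝ) ^ (1 / 100 : ℝ) with hS
  have hR1 : 1 ≤ R := Real.one_le_rpow hn1 (by norm_num)
  have hS1 : 1 ≤ S := Real.one_le_rpow hn1 (by norm_num)
  have hSR : S ≤ R := Real.rpow_le_rpow_of_exponent_le hn1 (by norm_num)
  have hRS : (n : ℝ) ^ (11 / 100 : ℝ) = R * S := by
    rw [hR, hS, ← Real.rpow_add (by linarith)]; norm_num
  have hK : (0 : ℝ) ≤ K := Nat.cast_nonneg K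
  have h1 : B1 n K K₃ ≤ (7 + 8 * K) * R := by
    unfold B1
    have a1 : 3 * (1 + (K : ℝ)) ≤ 3 * (1 + K) * R := by nlinarith
    have a2 : (3 + 2 * (K : ℝ)) * (K₃ * Real.log n) ≤ (3 + 2 * K) * R :=
      mul_le_mul_of_nonneg_left (hL2.trans hSR) (by positivity)
    nlinarith
  refine ⟨h1, ?_⟩
  rw [hRS]
  unfold B2
  have hRS1 : R ≤ R * S := by nlinarith
  have h1' : (B1 n K K₃ + 3 + K) * (K₃ * Real.log n) ≤ ((10 + 9 * K) * R) * S := by
    have b1 : B1 n K K₃ + 3 + K ≤ (10 + 9 * K) * R := by nlinarith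
    have b0 : 0 ≤ (10 + 9 * (K : ℝ)) * R := by positivity
    calc _ ≤ ((10 + 9 * K) * R) * (K₃ * Real.log n) := mul_le_mul_of_nonneg_right b1 hL
      _ ≤ _ := mul_le_mul_of_nonneg_left hL2 b0
  have h2 : (3 + 2 * (K : ℝ)) * (K₃ * Real.log n) ≤ (3 + 2 * K) * (R * S) :=
    mul_le_mul_of_nonneg_left (hL2.trans (hSR.trans hRS1)) (by positivity)
  have h3 : (1 : ℝ) ≤ R * S := hR1.trans hRS1
  nlinarith

end

end KEY

open KEY in
theorem KEY_proof (hO : Stmt_OCC) : Stmt_Key := by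
  intro CA K K₃ c hCA hK₃ hc
  obtain ⟨κ, hκ, k₀, L, n₀, hocc⟩ := hO CA (c / 2) (4 * K + 2 * K₃) hCA (by positivity) (by positivity)
  refine ⟨min κ (1 / 10), by positivity, ?_⟩
  have e1 : ∀ᶠ n : ℕ in atTop, 1 ≤ Real.log n :=
    (Real.tendsto_log_atTop.comp tendsto_natCast_atTop_atTop).eventually_ge_atTop 1
  have e2 : ∀ᶠ n : ℕ in atTop, K₃ * Real.log n ≤ (n : ℝ) ^ (1 / 100 : ℝ) := by
    have h := (isLittleO_log_rpow_atTop (show (0 : ℝ) < 1 / 100 by norm_num)).bound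
      (show (0 : ℝ) < 1 / K₃ by positivity)
    have h' := tendsto_natCast_atTop_atTop (R := ℝ) |>.eventually h
    filter_upwards [h', e1] with n hn h1
    rw [Real.norm_of_nonneg (by linarith), Real.norm_of_nonneg (by positivity)] at hn
    have := mul_le_mul_of_nonneg_left hn hK₃.le
    calc K₃ * Real.log n ≤ K₃ * (1 / K₃ * (n : ℝ) ^ (1 / 100 : ℝ)) := this
      _ = (n : ℝ) ^ (1 / 100 : ℝ) := by field_simp
  have e3 : ∀ᶠ n : ℕ in atTop, 2 * (7 + 8 * (K : ℝ)) ≤ (n : ℝ) ^ (1 / 5 : ℝ) :=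
    ((tendsto_rpow_atTop (show (0 : ℝ) < 1 / 5 by norm_num)).comp tendsto_natCast_atTop_atTop).eventually_ge_atTop _
  have e4 : ∀ᶠ n : ℕ in atTop, 2 / c * (19 + 11 * (K : ℝ)) ≤ (n : ℝ) ^ (9 / 100 : ℝ) :=
    ((tendsto_rpow_atTop (show (0 : ℝ) < 9 / 100 by norm_num)).comp tendsto_natCast_atTop_atTop).eventually_ge_atTop _
  obtain ⟨n₁, h1⟩ := eventually_atTop.1 (e1.and (e2.and (e3.and e4)))
  refine ⟨max (max n₀ n₁) 1, fun n hn d hd1 hd2 v u v' u' hvu hvu' hne => ?_⟩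
  have hn0 : n₀ ≤ n := le_trans (le_trans (le_max_left _ _) (le_max_left _ _)) hn
  have hnn1 : n₁ ≤ n := le_trans (le_trans (le_max_right _ _) (le_max_left _ _)) hn
  have hn1 : 1 ≤ n := le_trans (le_max_right _ _) hn
  obtain ⟨hlog, hL2, hN1, hN2⟩ := h1 n hnn1
  have hnR : (1 : ℝ) ≤ n := by exact_mod_cast hn1
  have hnpos : (0 : ℝ) < n := by linarith
  have hL : 0 ≤ K₃ * Real.log n := by positivity
  obtain ⟨hB1, hB2⟩ := rpow_one_tenth_facts (K := K) hn1 hL hL2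
  -- `d ≥ n^{3/10}`
  have hd3 : (n : ℝ) ^ (3 / 10 : ℝ) ≤ d := by
    have h : ((n : ℝ) ^ (3 / 10 : ℝ)) ^ 3 ≤ (d : ℝ) ^ 3 := by
      calc ((n : ℝ) ^ (3 / 10 : ℝ)) ^ 3 = (n : ℝ) ^ (9 / 10 : ℝ) := by
            rw [← Real.rpow_natCast, ← Real.rpow_mul hnpos.le]; norm_num
        _ ≤ (n : ℝ) ^ (1 - min κ (1 / 10)) := by
            refine Real.rpow_le_rpow_of_exponent_le hnR ?_
            have := min_le_right κ (1 / 10); linarith
        _ ≤ _ := hd1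
    exact le_of_pow_le_pow_left₀ (by norm_num) (Nat.cast_nonneg d) h
  have hlam : (n : ℝ) ^ (1 / 5 : ℝ) ≤ lam n d := by
    unfold lam
    rw [le_div_iff₀ hnpos]
    calc (n : ℝ) ^ (1 / 5 : ℝ) * n = ((n : ℝ) ^ (3 / 10 : ℝ)) ^ 4 := by
          rw [← Real.rpow_natCast, ← Real.rpow_mul hnpos.le]
          nth_rewrite 2 [← Real.rpow_one (n : ℝ)]
          rw [← Real.rpow_add hnpos]; norm_num
      _ ≤ _ := by gcongr
  have hM1 : B1 n K K₃ ≤ d / 2 := by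
    refine hB1.trans ?_
    have : (n : ℝ) ^ (3 / 10 : ℝ) = (n : ℝ) ^ (1 / 5 : ℝ) * (n : ℝ) ^ (1 / 10 : ℝ) := by
      rw [← Real.rpow_add hnpos]; norm_num
    have h10 : 0 < (n : ℝ) ^ (1 / 10 : ℝ) := by positivity
    have h2 : 2 * (7 + 8 * (K : ℝ)) * (n : ℝ) ^ (1 / 10 : ℝ) ≤ (n : ℝ) ^ (1 / 5 : ℝ) * (n : ℝ) ^ (1 / 10 : ℝ) :=
      mul_le_mul_of_nonneg_right hN1 h10.le
    rw [← this] at h2
    linarith
  have hM2 : B2 n K K₃ ≤ c / 2 * lam n d := by
    refine hB2.trans ?_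
    have : (n : ℝ) ^ (1 / 5 : ℝ) = (n : ℝ) ^ (9 / 100 : ℝ) * (n : ℝ) ^ (11 / 100 : ℝ) := by
      rw [← Real.rpow_add hnpos]; norm_num
    have h10 : 0 < (n : ℝ) ^ (11 / 100 : ℝ) := by positivity
    have h2 : 2 / c * (19 + 11 * (K : ℝ)) * (n : ℝ) ^ (11 / 100 : ℝ) ≤ (n : ℝ) ^ (9 / 100 : ℝ) * (n : ℝ) ^ (11 / 100 : ℝ) :=
      mul_le_mul_of_nonneg_right hN2 h10.le
    rw [← this] at h2
    have h3 : c / 2 * (2 / c * (19 + 11 * (K : ℝ)) * (n : ℝ) ^ (11 / 100 : ℝ)) ≤ c / 2 * lam n d :=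
      mul_le_mul_of_nonneg_left (h2.trans hlam) (by positivity)
    calc (19 + 11 * (K : ℝ)) * (n : ℝ) ^ (11 / 100 : ℝ) = c / 2 * (2 / c * (19 + 11 * (K : ℝ)) * (n : ℝ) ^ (11 / 100 : ℝ)) := by
          field_simp
      _ ≤ _ := h3
  have hd1' : (n : ℝ) ^ (1 - κ) ≤ (d : ℝ) ^ 3 := by
    refine le_trans (Real.rpow_le_rpow_of_exponent_le hnR ?_) hd1
    have := min_le_left κ (1 / 10); linarith
  have he : (0 : ℝ) ≤ (n : ℝ) ^ (-5 : ℝ) := by positivity
  have main := orbit_bound (n := n) (v := v) (u := u) (v' := v') (u' := u') (d := d)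
    (fun G => TypB K K₃ c n d G ∧ G.Adj v u ∧ G.Adj v' u') (fun G => ∀ k, prof G v u k = prof G v' u' k)
    ((n : ℝ) ^ (-5 : ℝ)) ?_ he
  · refine le_trans ?_ main
    refine Nat.cast_le.2 (card_le_card ?_)
    intro G hG
    simp only [mem_filter] at hG ⊢
    exact ⟨hG.1, ⟨hG.2.1, hG.2.2.1, hG.2.2.2.1⟩, hG.2.2.2.2⟩
  · rintro G hG ⟨hT, hadj, -⟩
    refine fibre_bound hG hvu hvu' (Finset.Ico k₀ (k₀ + L)) _ he ?_
    have hA1 : (Ap G v u v' u').card ≤ d := Ap_card_le hG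
    have hA2 : d ≤ 2 * (Ap G v u v' u').card := by
      have h := Ap_card_ge (v := v) (u := u) (v' := v') (u' := u') hG
      have h' := EE_le hL hT hvu hvu' hne
      have h'' : ((EE G v u v' u').card : ℝ) ≤ (d : ℝ) / 2 := h'.trans hM1
      have h3 : 2 * ((EE G v u v' u').card : ℝ) ≤ (d : ℝ) := by linarith
      have h4 : 2 * (EE G v u v' u').card ≤ d := by exact_mod_cast h3
      omega
    have hfin := hocc n hn0 d hd1' hd2 _ _ (sz G v u v' u') (mkd G v u v' u') (FF G v u v' u')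
      (by rw [Fintype.card_coe]; exact hA2) (by rw [Fintype.card_coe]; exact hA1)
      (sz_lt hG) card_eq_sum_sz ?_ ?_ ?_
    · convert hfin
    · have hb : ∀ b : {a // a ∈ Ap G v u v' u'}, ((d : ℝ) - 1 - sz G v u v' u' b) ≤ (4 * K + 2 * K₃) * Real.log n := by
        intro b
        have h := sz_ge hG hT hL hvu hvu' (mem_Ap.1 b.2)
        unfold sz
        refine h.trans ?_
        have hK : (0 : ℝ) ≤ 4 * K := by positivity
        nlinarith
      refine (sum_le_sum fun b _ => hb b).trans ?_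
      rw [sum_const, card_univ, Fintype.card_coe, nsmul_eq_mul]
      have h1 : ((Ap G v u v' u').card : ℝ) ≤ d := by exact_mod_cast hA1
      have h2 : 0 ≤ (4 * K + 2 * K₃) * Real.log n := by positivity
      calc ((Ap G v u v' u').card : ℝ) * ((4 * K + 2 * K₃) * Real.log n) ≤ d * ((4 * K + 2 * K₃) * Real.log n) :=
            mul_le_mul_of_nonneg_right h1 h2
        _ = _ := by ring
    · rw [mkd_card]
      have := MM_ge hL hT hvu hvu' hne hadj
      linarith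
    · rw [mkd_card]
      exact MM_le hT hvu

end Pool.Agent.RRG
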