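import Pool.Agent.RRG.Up

/-!
# LOW: the lower tail of the number of edges between two sets (MP_d15a9b_pr)
-/

open Finset Filter Topology
open scoped Classical

namespace Pool.Agent.RRG

variable {n : ℕ}

/-- edges between `A` and `S` -/
noncomputable def EAS (G : Gr n) (A S : Finset (Fin n)) : Finset (Fin n × Fin n) :=
  (A ×ˢ S).filter fun t => G.Adj t.1 t.2

theorem mem_EAS {G : Gr n} {A S : Finset (Fin n)} {p : Fin n × Fin n} :
    p ∈ EAS G A S ↔ p.1 ∈ A ∧ p.2 ∈ S ∧ G.Adj p.1 p.2 := by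
  unfold EAS
  rw [mem_filter, mem_product, and_assoc]

/-- ordered edges from `A` which avoid `R` -/
noncomputable def PA (G : Gr n) (A R : Finset (Fin n)) : Finset (Fin n × Fin n) :=
  (darts G).filter fun p => p.2 ∉ R ∧ p.1 ∈ A

theorem card_PA {G : Gr n} {d : ℕ} (hG : G ∈ Reg n d) (A R : Finset (Fin n))
    (h : ∀ x ∈ A, 4 * (nb G x ∩ R).card ≤ d) : 3 * (A.card * d) ≤ 4 * (PA G A R).card := by
  have h1 := card_darts_fst hG A
  have h2 := filter_and_card (darts G) (fun p => p.2 ∈ R) (fun p => p.1 ∈ A)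
  have h3 : 4 * ((darts G).filter fun p => p.1 ∈ A ∧ p.2 ∈ R).card ≤ A.card * d := by
    have e1 : (darts G).filter (fun p => p.1 ∈ A ∧ p.2 ∈ R)
        = A.biUnion (fun v => (nb G v ∩ R).image fun w => (v, w)) := by
      ext ⟨a, b⟩
      simp only [mem_filter, mem_darts, mem_biUnion, mem_image, mem_inter, mem_nb, Prod.mk.injEq]
      constructor
      · rintro ⟨h1, h2, h3⟩; exact ⟨a, h2, b, ⟨h1, h3⟩, rfl, rfl⟩
      · rintro ⟨a', h2, b', ⟨h1, h3⟩, rfl, rfl⟩; exact ⟨h1, h2, h3⟩
    have e2 : ((darts G).filter fun p => p.1 ∈ A ∧ p.2 ∈ R).card ≤ ∑ v ∈ A, (nb G v ∩ R).card := by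
      rw [e1]
      exact card_biUnion_le.trans (sum_le_sum fun v _ => card_image_le)
    have e3 : 4 * ∑ v ∈ A, (nb G v ∩ R).card ≤ A.card * d := by
      rw [mul_sum, ← smul_eq_mul (A.card), ← sum_const]
      exact sum_le_sum h
    omega
  -- refine the exceptional set
  have h4 : ((darts G).filter fun p => p.1 ∈ A).card
      ≤ (PA G A R).card + ((darts G).filter fun p => p.1 ∈ A ∧ p.2 ∈ R).card := by
    refine (card_le_card ?_).trans (card_union_le _ _)
    intro p hp
    unfold PA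
    simp only [mem_filter, mem_union] at hp ⊢
    by_cases hR : p.2 ∈ R
    · exact Or.inr ⟨hp.1, hp.2, hR⟩
    · exact Or.inl ⟨hp.1, hR, hp.2⟩
  omega

theorem PA_subset (G : Gr n) (A R : Finset (Fin n)) :
    PA G A R ⊆ (darts G).filter fun p => p.1 ∈ A := by
  intro p hp
  unfold PA at hp
  simp only [mem_filter] at hp ⊢
  exact ⟨hp.1, hp.2.2⟩

/-- forward switchings: `((b,b'),(a,a'))` -/
noncomputable def FwL (G : Gr n) (A S R : Finset (Fin n)) :
    Finset ((Fin n × Fin n) × (Fin n × Fin n)) :=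
  (PA G A R ×ˢ PA G S R).filter fun q => ¬ q.1.2 ∈ S ∧ ¬ q.2.2 ∈ A ∧ ¬ G.Adj q.1.1 q.2.1 ∧
    ¬ G.Adj q.1.2 q.2.2 ∧ ¬ q.2.2 = q.1.2

theorem card_FwL {G : Gr n} {d : ℕ} (hG : G ∈ Reg n d) (A S R : Finset (Fin n)) (k : ℕ)
    (hd : 0 < d) (hdn : 64 * d ≤ n) (hA : 100 * d ≤ A.card) (hA2 : 10 * A.card ≤ n)
    (hS2 : 10 * S.card ≤ n) (hAR : ∀ x ∈ A, 4 * (nb G x ∩ R).card ≤ d)
    (hSR : ∀ x ∈ S, 4 * (nb G x ∩ R).card ≤ d) (hk : (EAS G A S).card ≤ k)
    (hk2 : 16 * (k * n) ≤ A.card * S.card * d) :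
    A.card * S.card * (d * d) ≤ 2 * (FwL G A S R).card := by
  have hG' := mem_Reg.1 hG
  have hPA := card_PA hG A R hAR
  have hPS := card_PA hG S R hSR
  have cA := card_darts_fst hG A
  have cS := card_darts_fst hG S
  set D := PA G A R ×ˢ PA G S R with hD
  have hDc : D.card = (PA G A R).card * (PA G S R).card := card_product _ _
  have u5 := filter_not_card D (fun q => q.2.2 = q.1.2)
  have u4 := filter_and_card D (fun q => G.Adj q.1.2 q.2.2) (fun q => ¬ q.2.2 = q.1.2)
  have u3 := filter_and_card D (fun q => G.Adj q.1.1 q.2.1)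
    (fun q => ¬ G.Adj q.1.2 q.2.2 ∧ ¬ q.2.2 = q.1.2)
  have u2 := filter_and_card D (fun q => q.2.2 ∈ A)
    (fun q => ¬ G.Adj q.1.1 q.2.1 ∧ ¬ G.Adj q.1.2 q.2.2 ∧ ¬ q.2.2 = q.1.2)
  have u1 := filter_and_card D (fun q => q.1.2 ∈ S)
    (fun q => ¬ q.2.2 ∈ A ∧ ¬ G.Adj q.1.1 q.2.1 ∧ ¬ G.Adj q.1.2 q.2.2 ∧ ¬ q.2.2 = q.1.2)
  -- T1
  have t1 : (D.filter fun q => q.1.2 ∈ S).card ≤ (EAS G A S).card * (S.card * d) := by
    rw [← cS, ← card_product]
    apply card_le_card
    intro q hq
    rw [mem_filter, hD, mem_product] at hq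
    have h1 := PA_subset _ _ _ hq.1.1
    rw [mem_filter, mem_darts] at h1
    exact mem_product.2 ⟨mem_EAS.2 ⟨h1.2, hq.2, h1.1⟩, PA_subset _ _ _ hq.1.2⟩
  -- T2
  have t2 : (D.filter fun q => q.2.2 ∈ A).card ≤ (A.card * d) * (EAS G A S).card := by
    have e1 : ((EAS G A S).image Prod.swap).card ≤ (EAS G A S).card := card_image_le
    refine le_trans ?_ (Nat.mul_le_mul_left _ e1)
    rw [← cA, ← card_product]
    apply card_le_card
    intro q hq
    rw [mem_filter, hD, mem_product] at hq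
    have h1 := PA_subset _ _ _ hq.1.2
    rw [mem_filter, mem_darts] at h1
    refine mem_product.2 ⟨PA_subset _ _ _ hq.1.1, ?_⟩
    rw [mem_image]
    exact ⟨(q.2.2, q.2.1), mem_EAS.2 ⟨hq.2, h1.2, h1.1.symm⟩, rfl⟩
  -- T3
  have t3 : (D.filter fun q => G.Adj q.1.1 q.2.1).card ≤ (d * d) * (EAS G A S).card := by
    apply card_le_mul_card_image_of_maps_to
      (f := fun q : (Fin n × Fin n) × (Fin n × Fin n) => (q.1.1, q.2.1))
    · intro q hq
      rw [mem_filter, hD, mem_product] at hq
      have h1 := PA_subset _ _ _ hq.1.1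
      have h2 := PA_subset _ _ _ hq.1.2
      rw [mem_filter, mem_darts] at h1 h2
      exact mem_EAS.2 ⟨h1.2, h2.2, hq.2⟩
    · rintro ⟨b, a⟩ _
      have e1 : (nb G b ×ˢ nb G a).card = d * d := by rw [card_product, hG' b, hG' a]
      rw [← e1]
      apply card_le_card_of_injOn (fun q => (q.1.2, q.2.2))
      · intro q hq
        have hq' := mem_filter.1 (mem_coe.1 hq)
        have hq2 := mem_filter.1 hq'.1
        rw [hD, mem_product] at hq2
        have h1 := PA_subset _ _ _ hq2.1.1
        have h2 := PA_subset _ _ _ hq2.1.2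
        rw [mem_filter, mem_darts] at h1 h2
        have h3 := Prod.mk.inj hq'.2
        refine mem_coe.2 (mem_product.2 ⟨?_, ?_⟩)
        · rw [mem_nb, ← h3.1]; exact h1.1
        · rw [mem_nb, ← h3.2]; exact h2.1
      · intro q hq q' hq' h
        have h1 := (mem_filter.1 (mem_coe.1 hq)).2
        have h2 := (mem_filter.1 (mem_coe.1 hq')).2
        have h3 := Prod.mk.inj h
        have h4 := Prod.mk.inj (h1.trans h2.symm)
        exact Prod.ext (Prod.ext h4.1 h3.1) (Prod.ext h4.2 h3.2)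
  -- T4
  have t4 : (D.filter fun q => G.Adj q.1.2 q.2.2).card ≤ (d * d) * (S.card * d) := by
    rw [← cS]
    apply card_le_mul_card_image_of_maps_to
      (f := fun q : (Fin n × Fin n) × (Fin n × Fin n) => q.2)
    · intro q hq
      rw [mem_filter, hD, mem_product] at hq
      exact PA_subset _ _ _ hq.1.2
    · rintro ⟨a, a'⟩ _
      have e1 := card_darts_snd hG (nb G a')
      rw [hG' a'] at e1
      rw [← e1]
      apply card_le_card_of_injOn (fun q => q.1)
      · intro q hq
        have hq' := mem_filter.1 (mem_coe.1 hq)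
        have hq2 := mem_filter.1 hq'.1
        rw [hD, mem_product] at hq2
        have h1 := PA_subset _ _ _ hq2.1.1
        rw [mem_filter] at h1
        refine mem_coe.2 (mem_filter.2 ⟨h1.1, ?_⟩)
        rw [mem_nb]
        have h3 : q.2.2 = a' := by rw [hq'.2]
        rw [← h3]; exact hq2.2.symm
      · intro q hq q' hq' h
        have h1 := (mem_filter.1 (mem_coe.1 hq)).2
        have h2 := (mem_filter.1 (mem_coe.1 hq')).2
        exact Prod.ext h (h1.trans h2.symm)
  -- T5
  have t5 : (D.filter fun q => q.2.2 = q.1.2).card ≤ d * (S.card * d) := by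
    rw [← cS]
    apply card_le_mul_card_image_of_maps_to
      (f := fun q : (Fin n × Fin n) × (Fin n × Fin n) => q.2)
    · intro q hq
      rw [mem_filter, hD, mem_product] at hq
      exact PA_subset _ _ _ hq.1.2
    · rintro ⟨a, a'⟩ _
      have e1 := card_darts_snd hG {a'}
      rw [card_singleton, one_mul] at e1
      rw [← e1]
      apply card_le_card_of_injOn (fun q => q.1)
      · intro q hq
        have hq' := mem_filter.1 (mem_coe.1 hq)
        have hq2 := mem_filter.1 hq'.1
        rw [hD, mem_product] at hq2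
        have h1 := PA_subset _ _ _ hq2.1.1
        rw [mem_filter] at h1
        refine mem_coe.2 (mem_filter.2 ⟨h1.1, ?_⟩)
        rw [mem_singleton]
        have h3 : q.2.2 = a' := by rw [hq'.2]
        rw [← h3]; exact hq2.2.symm
      · intro q hq q' hq' h
        have h1 := (mem_filter.1 (mem_coe.1 hq)).2
        have h2 := (mem_filter.1 (mem_coe.1 hq')).2
        exact Prod.ext h (h1.trans h2.symm)
  set e := (EAS G A S).card
  have f1 : 160 * (e * (S.card * d)) ≤ A.card * S.card * (d * d) := by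
    calc 160 * (e * (S.card * d)) = 16 * e * d * (10 * S.card) := by ring
      _ ≤ 16 * e * d * n := Nat.mul_le_mul_left _ hS2
      _ ≤ 16 * k * d * n := by gcongr
      _ = (16 * (k * n)) * d := by ring
      _ ≤ (A.card * S.card * d) * d := Nat.mul_le_mul_right _ hk2
      _ = _ := by ring
  have f2 : 160 * ((A.card * d) * e) ≤ A.card * S.card * (d * d) := by
    calc 160 * ((A.card * d) * e) = 16 * e * d * (10 * A.card) := by ring
      _ ≤ 16 * e * d * n := Nat.mul_le_mul_left _ hA2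
      _ ≤ 16 * k * d * n := by gcongr
      _ = (16 * (k * n)) * d := by ring
      _ ≤ (A.card * S.card * d) * d := Nat.mul_le_mul_right _ hk2
      _ = _ := by ring
  have f3 : 1024 * ((d * d) * e) ≤ A.card * S.card * (d * d) := by
    calc 1024 * ((d * d) * e) = 16 * e * d * (64 * d) := by ring
      _ ≤ 16 * e * d * n := Nat.mul_le_mul_left _ hdn
      _ ≤ 16 * k * d * n := by gcongr
      _ = (16 * (k * n)) * d := by ring
      _ ≤ (A.card * S.card * d) * d := Nat.mul_le_mul_right _ hk2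
      _ = _ := by ring
  have f4 : 100 * ((d * d) * (S.card * d)) ≤ A.card * S.card * (d * d) := by
    calc 100 * ((d * d) * (S.card * d)) = (100 * d) * (S.card * (d * d)) := by ring
      _ ≤ A.card * (S.card * (d * d)) := Nat.mul_le_mul_right _ hA
      _ = _ := by ring
  have f5 : 100 * (d * (S.card * d)) ≤ A.card * S.card * (d * d) := by
    calc 100 * (d * (S.card * d)) ≤ (100 * d) * (S.card * (d * d)) := by nlinarith [Nat.zero_le (S.card * d * d)]
      _ ≤ A.card * (S.card * (d * d)) := Nat.mul_le_mul_right _ hA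
      _ = _ := by ring
  have f6 : 9 * (A.card * S.card * (d * d)) ≤ 16 * D.card := by
    rw [hDc]
    calc 9 * (A.card * S.card * (d * d)) = (3 * (A.card * d)) * (3 * (S.card * d)) := by ring
      _ ≤ (4 * (PA G A R).card) * (4 * (PA G S R).card) := Nat.mul_le_mul hPA hPS
      _ = _ := by ring
  have hF : (FwL G A S R).card = (D.filter fun q => ¬ q.1.2 ∈ S ∧ ¬ q.2.2 ∈ A ∧ ¬ G.Adj q.1.1 q.2.1 ∧
    ¬ G.Adj q.1.2 q.2.2 ∧ ¬ q.2.2 = q.1.2).card := rfl
  rw [hF]
  generalize A.card * S.card * (d * d) = X at *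
  omega

/-- the class of graphs with the same stars at `R` -/
noncomputable def CR (d : ℕ) (G₀ : Gr n) (R : Finset (Fin n)) : Finset (Gr n) :=
  (Reg n d).filter fun G => ∀ r ∈ R, ∀ x, G.Adj r x ↔ G₀.Adj r x

theorem low_step (d : ℕ) (G₀ : Gr n) (R A S : Finset (Fin n)) (hd : 0 < d) (hdn : 64 * d ≤ n)
    (hAS : Disjoint A S) (hAR : Disjoint A R) (hSR : Disjoint S R)
    (hA : 100 * d ≤ A.card) (hA2 : 10 * A.card ≤ n) (hS2 : 10 * S.card ≤ n)
    (h4 : ∀ x ∈ A ∪ S, 4 * (nb G₀ x ∩ R).card ≤ d) (k : ℕ)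
    (hk : 16 * ((k + 2) * n) ≤ A.card * S.card * d) :
    8 * (((CR d G₀ R).filter fun G => (EAS G A S).card ≤ k).card : ℝ)
      ≤ (((CR d G₀ R).filter fun G => (EAS G A S).card ≤ k + 2).card : ℝ) := by
  have hn : 0 < n := by omega
  have hA0 : 0 < A.card := by omega
  have hS0 : 0 < S.card := by
    rcases Nat.eq_zero_or_pos S.card with h | h
    · rw [h, mul_zero, zero_mul] at hk
      have : 0 < (k + 2) * n := by positivity
      omega
    · exact h
  have hnbR : ∀ G ∈ CR d G₀ R, ∀ x, nb G x ∩ R = nb G₀ x ∩ R := by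
    intro G hG x
    unfold CR at hG
    rw [mem_filter] at hG
    ext r
    simp only [mem_inter, mem_nb]
    constructor
    · rintro ⟨h1, h2⟩; exact ⟨((hG.2 r h2 x).1 h1.symm).symm, h2⟩
    · rintro ⟨h1, h2⟩; exact ⟨((hG.2 r h2 x).2 h1.symm).symm, h2⟩
  have key := switch_count (A := (CR d G₀ R).filter fun G => (EAS G A S).card ≤ k)
    (B := (CR d G₀ R).filter fun G => (EAS G A S).card ≤ k + 2)
    (fun G => (FwL G A S R).image fun q => (q.1.1, q.1.2, q.2.2, q.2.1))
    (fun G => ((EAS G A S) ×ˢ (darts G)).image fun q => (q.1.1, q.2.1, q.2.2, q.1.2))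
    ((A.card : ℝ) * S.card * (d * d) / 2) (((k : ℝ) + 2) * ((n : ℝ) * d)) ?_ ?_ ?_
  · set a : ℝ := (((CR d G₀ R).filter fun G => (EAS G A S).card ≤ k).card : ℝ)
    set b : ℝ := (((CR d G₀ R).filter fun G => (EAS G A S).card ≤ k + 2).card : ℝ)
    have hk' : 16 * (((k : ℝ) + 2) * n) ≤ A.card * S.card * d := by exact_mod_cast hk
    have hd' : (0 : ℝ) < d := by exact_mod_cast hd
    have hA' : (0 : ℝ) < A.card := by exact_mod_cast hA0
    have hS' : (0 : ℝ) < S.card := by exact_mod_cast hS0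
    have hb : 0 ≤ b := by positivity
    have h1 : b * (((k : ℝ) + 2) * ((n : ℝ) * d)) ≤ b * ((A.card : ℝ) * S.card * d * d / 16) := by
      apply mul_le_mul_of_nonneg_left _ hb
      nlinarith
    have h2 : a * ((A.card : ℝ) * S.card * (d * d) / 2)
        ≤ b * ((A.card : ℝ) * S.card * d * d / 16) := key.trans h1
    have h3 : (8 * a) * ((A.card : ℝ) * S.card * (d * d) / 16)
        ≤ b * ((A.card : ℝ) * S.card * (d * d) / 16) := by
      calc (8 * a) * ((A.card : ℝ) * S.card * (d * d) / 16)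
          = a * ((A.card : ℝ) * S.card * (d * d) / 2) := by ring
        _ ≤ b * ((A.card : ℝ) * S.card * d * d / 16) := h2
        _ = _ := by ring
    exact le_of_mul_le_mul_right h3 (by positivity)
  · intro G hG
    rw [mem_filter] at hG
    have hGR := hG.1
    unfold CR at hGR
    rw [mem_filter] at hGR
    rw [card_image_of_injective _ (fun p q h => by
      have h1 := Prod.mk.inj h
      have h2 := Prod.mk.inj h1.2
      have h3 := Prod.mk.inj h2.2
      exact Prod.ext (Prod.ext h1.1 h2.1) (Prod.ext h3.2 h3.1))]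
    have := card_FwL hGR.1 A S R k hd hdn hA hA2 hS2
      (fun x hx => by rw [hnbR G hG.1]; exact h4 x (mem_union_left _ hx))
      (fun x hx => by rw [hnbR G hG.1]; exact h4 x (mem_union_right _ hx)) hG.2
      (by nlinarith)
    have h2 : (A.card : ℝ) * S.card * (d * d) ≤ 2 * ((FwL G A S R).card : ℝ) := by
      exact_mod_cast this
    linarith
  · intro G hG q hq
    rw [mem_filter] at hG
    simp only [mem_image] at hq
    obtain ⟨⟨⟨b, b'⟩, ⟨a, a'⟩⟩, hp, rfl⟩ := hq
    unfold FwL at hp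
    rw [mem_filter, mem_product] at hp
    obtain ⟨⟨hp1, hp2⟩, h5, h6, h7, h8, h9⟩ := hp
    unfold PA at hp1 hp2
    rw [mem_filter, mem_darts] at hp1 hp2
    obtain ⟨g1, g2, g3⟩ := hp1
    obtain ⟨g4, g5, g6⟩ := hp2
    simp only at g1 g2 g3 g4 g5 g6 h5 h6 h7 h8 h9
    have hok : OKsw G b b' a' a := by
      refine ⟨g1, g4.symm, ?_, ?_, fun h => h9 h.symm, ?_, h7, h8⟩
      · rintro rfl; exact h6 g3
      · rintro rfl; exact disjoint_left.1 hAS g3 g6
      · rintro rfl; exact h5 g6
    have hGR := hG.1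
    unfold CR at hGR
    rw [mem_filter] at hGR
    have hbR : b ∉ R := disjoint_left.1 hAR g3
    have haR : a ∉ R := disjoint_left.1 hSR g6
    refine ⟨hok, ?_, ?_⟩
    · simp only
      rw [mem_filter]
      constructor
      · unfold CR
        rw [mem_filter]
        refine ⟨sw_mem_Reg hok hGR.1, ?_⟩
        intro r hr x
        rw [sw_adj hok, ← hGR.2 r hr x]
        have n1 : r ≠ b := by rintro rfl; exact hbR hr
        have n2 : r ≠ b' := by rintro rfl; exact g2 hr
        have n3 : r ≠ a := by rintro rfl; exact haR hr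
        have n4 : r ≠ a' := by rintro rfl; exact g5 hr
        simp only [Sym2.eq_iff, ne_eq, n1, n2, n3, n4, false_and, or_false, not_false_eq_true,
          and_true]
      · have hsub : EAS (sw G b b' a' a) A S ⊆ EAS G A S ∪ {(b, a), (b', a')} := by
          rintro ⟨p, q⟩ hpq
          rw [mem_EAS] at hpq
          obtain ⟨i1, i2, i3⟩ := hpq
          simp only at i1 i2 i3
          rw [sw_adj hok] at i3
          rw [mem_union, mem_EAS, mem_insert, mem_singleton]
          rcases i3 with i3 | i3 | i3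
          · left; exact ⟨i1, i2, i3.1⟩
          · rcases Sym2.eq_iff.1 i3 with ⟨j1, j2⟩ | ⟨j1, j2⟩
            · right; left; rw [j1, j2]
            · exfalso; rw [j1] at i1; exact disjoint_left.1 hAS i1 g6
          · rcases Sym2.eq_iff.1 i3 with ⟨j1, j2⟩ | ⟨j1, j2⟩
            · right; right; rw [j1, j2]
            · exfalso; rw [j1] at i1; exact h6 i1
        have hc := (card_le_card hsub).trans (card_union_le _ _)
        have hc2 : ({(b, a), (b', a')} : Finset (Fin n × Fin n)).card ≤ 2 := card_le_two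
        have hc3 := hG.2
        omega
    · simp only
      rw [mem_image]
      refine ⟨((b, a), (b', a')), ?_, rfl⟩
      rw [mem_product, mem_EAS, mem_darts]
      refine ⟨⟨g3, g6, hok.rev.1⟩, ?_⟩
      exact hok.rev.2.1.symm
  · intro G hG
    rw [mem_filter] at hG
    have hGR := hG.1
    unfold CR at hGR
    rw [mem_filter] at hGR
    have h1 := card_image_le (s := (EAS G A S) ×ˢ (darts G))
      (f := fun q : (Fin n × Fin n) × (Fin n × Fin n) => (q.1.1, q.2.1, q.2.2, q.1.2))
    rw [card_product, card_darts' hGR.1] at h1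
    have h2 : (EAS G A S).card * (n * d) ≤ (k + 2) * (n * d) := Nat.mul_le_mul_right _ hG.2
    have h3 := h1.trans h2
    exact_mod_cast h3

theorem low_proof : Stmt_Low := by
  intro n d G₀ R A S hd hdn hG₀ hAS hAR hSR hA hA2 hS2 h4
  have hn : 0 < n := by omega
  have hn' : (0 : ℝ) < n := by exact_mod_cast hn
  set W := A.card * S.card * d with hW
  -- iterate
  have hit : ∀ s k : ℕ, 16 * ((k + 2 * s) * n) ≤ W →
      (8 : ℝ) ^ s * (((CR d G₀ R).filter fun G => (EAS G A S).card ≤ k).card : ℝ)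
        ≤ ((CR d G₀ R).card : ℝ) := by
    intro s
    induction s with
    | zero =>
      intro k _
      rw [pow_zero, one_mul]
      exact_mod_cast card_le_card (filter_subset _ _)
    | succ s ih =>
      intro k hk
      have h1 := low_step d G₀ R A S hd hdn hAS hAR hSR hA hA2 hS2 h4 k (by
        refine le_trans (Nat.mul_le_mul_left _ (Nat.mul_le_mul_right _ ?_)) hk
        omega)
      have h2 := ih (k + 2) (by
        refine le_trans (Nat.mul_le_mul_left _ (Nat.mul_le_mul_right _ ?_)) hk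
        omega)
      refine le_trans ?_ h2
      rw [pow_succ, mul_assoc]
      exact mul_le_mul_of_nonneg_left h1 (by positivity)
  -- the parameters
  set k0 := W / (64 * n) with hk0
  set K1 := W / (16 * n) with hK1
  set s := (K1 - k0) / 2 with hs
  have hk1 : k0 ≤ K1 := by
    rw [hk0, hK1]
    exact Nat.div_le_div_left (by omega) (by omega)
  have hcond : 16 * ((k0 + 2 * s) * n) ≤ W := by
    have h1 : k0 + 2 * s ≤ K1 := by omega
    have h2 : K1 * (16 * n) ≤ W := Nat.div_mul_le_self _ _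
    calc 16 * ((k0 + 2 * s) * n) ≤ 16 * (K1 * n) :=
          Nat.mul_le_mul_left _ (Nat.mul_le_mul_right _ h1)
      _ = K1 * (16 * n) := by ring
      _ ≤ W := h2
  have hmain := hit s k0 hcond
  -- the exceptional set
  have hset : (((Reg n d).filter fun G => (∀ r ∈ R, ∀ x, G.Adj r x ↔ G₀.Adj r x) ∧
        64 * (n : ℝ) * (((A ×ˢ S).filter fun t => G.Adj t.1 t.2).card : ℝ)
          ≤ (A.card : ℝ) * S.card * d).card : ℝ)
      ≤ (((CR d G₀ R).filter fun G => (EAS G A S).card ≤ k0).card : ℝ) := by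
    have : ((Reg n d).filter fun G => (∀ r ∈ R, ∀ x, G.Adj r x ↔ G₀.Adj r x) ∧
        64 * (n : ℝ) * (((A ×ˢ S).filter fun t => G.Adj t.1 t.2).card : ℝ)
          ≤ (A.card : ℝ) * S.card * d) ⊆ ((CR d G₀ R).filter fun G => (EAS G A S).card ≤ k0) := by
      intro G hG
      rw [mem_filter] at hG
      obtain ⟨h1, h2, h3⟩ := hG
      rw [mem_filter]
      unfold CR
      rw [mem_filter]
      refine ⟨⟨h1, h2⟩, ?_⟩
      have h5 : 64 * n * (EAS G A S).card ≤ W := by
        have : ((64 * n * (EAS G A S).card : ℕ) : ℝ) ≤ ((W : ℕ) : ℝ) := by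
          rw [hW]; push_cast; exact h3
        exact_mod_cast this
      rw [hk0, Nat.le_div_iff_mul_le (by omega)]
      linarith
    exact_mod_cast card_le_card this
  refine hset.trans ?_
  have hCR : (((Reg n d).filter fun G => ∀ r ∈ R, ∀ x, G.Adj r x ↔ G₀.Adj r x).card : ℝ)
      = ((CR d G₀ R).card : ℝ) := rfl
  rw [hCR]
  have h8 : (0 : ℝ) < 8 ^ s := by positivity
  have hle : (((CR d G₀ R).filter fun G => (EAS G A S).card ≤ k0).card : ℝ)
      ≤ (1 / 8 ^ s) * ((CR d G₀ R).card : ℝ) := by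
    rw [one_div_mul_eq_div, le_div_iff₀ h8, mul_comm]
    exact hmain
  refine hle.trans (mul_le_mul_of_nonneg_right ?_ (by positivity))
  -- numerical part
  have hM : (A.card : ℝ) * S.card * d / (32 * n) ≤ 2 + 3 * (s : ℝ) := by
    have e1 : (W : ℝ) < (K1 + 1) * (16 * n) := by
      have h := Nat.lt_mul_div_succ W (b := 16 * n) (by omega)
      have h' : W < (K1 + 1) * (16 * n) := by rw [mul_comm]; exact h
      exact_mod_cast h'
    have e2 : (k0 : ℝ) * (64 * n) ≤ W := by exact_mod_cast Nat.div_mul_le_self W (64 * n)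
    have e3 : (K1 : ℝ) ≤ k0 + 2 * s + 1 := by
      have : K1 ≤ k0 + 2 * s + 1 := by omega
      exact_mod_cast this
    have e4 : (A.card : ℝ) * S.card * d = W := by rw [hW]; push_cast; ring
    rw [e4, div_le_iff₀ (by positivity)]
    nlinarith
  have h2 : (2 : ℝ) ^ (-((A.card : ℝ) * S.card * d / (32 * n))) ≥ (2 : ℝ) ^ (-(2 + 3 * (s : ℝ))) :=
    Real.rpow_le_rpow_of_exponent_le (by norm_num) (by linarith)
  have h3 : (2 : ℝ) ^ (-(2 + 3 * (s : ℝ))) = 1 / 4 * (1 / 8 ^ s) := by
    rw [Real.rpow_neg (by norm_num), Real.rpow_add (by norm_num), Real.rpow_mul (by norm_num),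
      Real.rpow_natCast, mul_inv]
    norm_num
  rw [h3] at h2
  linarith

end Pool.Agent.RRG
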