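import Pool.Agent.RRG.Stmts

/-!
# Module OCC (MP_d15a9b_pr): occupancy anticoncentration
-/

open Finset Filter Topology
open scoped Classical

namespace Pool.Agent.RRG

namespace OCC

noncomputable section

/-! ### the binomial mass function -/

/-- ratio of consecutive terms -/
theorem ratio (N m : ℕ) (x y : ℝ) (hm : m < N) :
    ((N.choose (m + 1) : ℝ) * x ^ (m + 1) * y ^ (N - (m + 1))) * (((m : ℝ) + 1) * y)
      = ((N.choose m : ℝ) * x ^ m * y ^ (N - m)) * (((N : ℝ) - m) * x) := by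
  have h1 : ((N.choose (m + 1) : ℝ)) * ((m : ℝ) + 1) = (N.choose m : ℝ) * ((N : ℝ) - m) := by
    have h := Nat.choose_succ_right_eq N m
    have h' : ((N.choose (m + 1) * (m + 1) : ℕ) : ℝ) = ((N.choose m * (N - m) : ℕ) : ℝ) := by
      rw [h]
    push_cast [Nat.cast_sub hm.le] at h'
    linarith
  have h2 : y ^ (N - m) = y ^ (N - (m + 1)) * y := by
    rw [← pow_succ]
    congr 1
    omega
  rw [h2, pow_succ]
  linear_combination (x ^ m * x * y ^ (N - (m + 1)) * y) * h1

theorem binom_half {N j τ : ℕ} {x y : ℝ} (hx : 0 < x) (hy : 0 < y)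
    (h : 2 * (τ : ℝ) ^ 2 * (x + y) ^ 2 ≤ N * x * y) (hj : j * (x + y) ≤ N * x) :
    τ * ((N.choose j : ℝ) * x ^ j * y ^ (N - j)) ≤ 2 * (x + y) ^ N := by
  rcases Nat.eq_zero_or_pos τ with hτ | hτ
  · subst hτ
    simp only [CharP.cast_eq_zero, zero_mul]
    positivity
  set f : ℕ → ℝ := fun i => (N.choose i : ℝ) * x ^ i * y ^ (N - i) with hf
  have hf0 : ∀ i, 0 ≤ f i := fun i => by
    rw [hf]; positivity
  have hsum : ∑ i ∈ range (N + 1), f i = (x + y) ^ N := by
    rw [add_pow]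
    refine Finset.sum_congr rfl fun i _ => ?_
    rw [hf]; ring
  have hτ' : (0 : ℝ) < τ := by exact_mod_cast hτ
  set ε : ℝ := 1 / (2 * (τ : ℝ)) with hε
  have hε0 : 0 < ε := by positivity
  have hε1 : ε ≤ 1 / 2 := by
    rw [hε]
    apply one_div_le_one_div_of_le (by norm_num)
    have : (1 : ℝ) ≤ τ := by exact_mod_cast hτ
    linarith
  have hετ : ε * τ = 1 / 2 := by
    rw [hε]; field_simp
  have hs : 0 < x + y := by linarith
  -- ratio
  have hr : ∀ i, i < τ → (1 - ε) * f (j + i) ≤ f (j + i + 1) := by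
    intro i hi
    have hi' : (i : ℝ) + 1 ≤ τ := by exact_mod_cast hi
    have key : (1 - ε) * (((j + i : ℕ) : ℝ) + 1) * y ≤ ((N : ℝ) - ((j + i : ℕ) : ℝ)) * x := by
      push_cast
      have h1 : ((j : ℝ) + i + 1) * (x + y) ≤ N * x + τ * (x + y) := by nlinarith
      have h2 : N * y - τ * (x + y) ≤ ((N : ℝ) - (j + i)) * (x + y) := by nlinarith
      have h3 : ((N : ℝ) * y - τ * (x + y)) * x ≤ (((N : ℝ) - (j + i)) * (x + y)) * x :=
        mul_le_mul_of_nonneg_right h2 hx.le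
      have h4 : (1 - ε) * (((j : ℝ) + i + 1) * (x + y)) * y ≤ (1 - ε) * (N * x + τ * (x + y)) * y := by
        apply mul_le_mul_of_nonneg_right _ hy.le
        apply mul_le_mul_of_nonneg_left h1 (by linarith)
      have h5 : (1 - ε) * (N * x + τ * (x + y)) * y ≤ ((N : ℝ) * y - τ * (x + y)) * x := by
        have h6 : ((N : ℝ) * y - τ * (x + y)) * x - (1 - ε) * (N * x + τ * (x + y)) * y
            = - τ * (x + y) ^ 2 + ε * (N * x * y) + (ε * τ) * ((x + y) * y) := by ring
        have h7 : ε * (2 * (τ : ℝ) ^ 2 * (x + y) ^ 2) ≤ ε * (N * x * y) :=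
          mul_le_mul_of_nonneg_left h hε0.le
        have h8 : ε * (2 * (τ : ℝ) ^ 2 * (x + y) ^ 2) = τ * (x + y) ^ 2 := by
          have : ε * (2 * (τ : ℝ) ^ 2 * (x + y) ^ 2) = 2 * (ε * τ) * (τ * (x + y) ^ 2) := by ring
          rw [this, hετ]; ring
        have h9 : 0 ≤ (ε * τ) * ((x + y) * y) := by positivity
        linarith
      have h10 : (1 - ε) * ((j : ℝ) + i + 1) * y * (x + y) ≤ ((N : ℝ) - (j + i)) * x * (x + y) := by
        have e1 : (1 - ε) * ((j : ℝ) + i + 1) * y * (x + y) = (1 - ε) * (((j : ℝ) + i + 1) * (x + y)) * y := by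
          ring
        have e2 : ((N : ℝ) - (j + i)) * x * (x + y) = (((N : ℝ) - (j + i)) * (x + y)) * x := by ring
        rw [e1, e2]
        linarith
      exact le_of_mul_le_mul_right h10 hs
    have hlt : j + i < N := by
      have h0 : 0 < (1 - ε) * (((j + i : ℕ) : ℝ) + 1) * y := by
        have : 0 < 1 - ε := by linarith
        positivity
      have h1 : 0 < ((N : ℝ) - ((j + i : ℕ) : ℝ)) * x := lt_of_lt_of_le h0 key
      have h2 : 0 < (N : ℝ) - ((j + i : ℕ) : ℝ) := by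
        by_contra hcon
        push Not at hcon
        have := mul_nonpos_of_nonpos_of_nonneg hcon hx.le
        linarith
      have h3 : ((j + i : ℕ) : ℝ) < N := by linarith
      exact_mod_cast h3
    have hrat := ratio N (j + i) x y hlt
    have hpos : 0 < (((j + i : ℕ) : ℝ) + 1) * y := by positivity
    have h1 : (1 - ε) * f (j + i) * ((((j + i : ℕ) : ℝ) + 1) * y) ≤ f (j + i + 1) * ((((j + i : ℕ) : ℝ) + 1) * y) := by
      have e1 : f (j + i + 1) * ((((j + i : ℕ) : ℝ) + 1) * y) = f (j + i) * (((N : ℝ) - ((j + i : ℕ) : ℝ)) * x) := hrat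
      rw [e1]
      have e2 : (1 - ε) * f (j + i) * ((((j + i : ℕ) : ℝ) + 1) * y)
          = f (j + i) * ((1 - ε) * (((j + i : ℕ) : ℝ) + 1) * y) := by ring
      rw [e2]
      exact mul_le_mul_of_nonneg_left key (hf0 _)
    exact le_of_mul_le_mul_right h1 hpos
  have hl : ∀ i, i ≤ τ → (1 - ε) ^ i * f j ≤ f (j + i) := by
    intro i
    induction i with
    | zero => intro _; simp
    | succ i ih =>
      intro hi
      have h1 := ih (by omega)
      have h2 := hr i (by omega)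
      have h3 : (1 - ε) * ((1 - ε) ^ i * f j) ≤ (1 - ε) * f (j + i) :=
        mul_le_mul_of_nonneg_left h1 (by linarith)
      calc (1 - ε) ^ (i + 1) * f j = (1 - ε) * ((1 - ε) ^ i * f j) := by ring
        _ ≤ (1 - ε) * f (j + i) := h3
        _ ≤ f (j + (i + 1)) := h2
  have hl2 : ∀ i, i ≤ τ → f j / 2 ≤ f (j + i) := by
    intro i hi
    have h1 := hl i hi
    have h2 : 1 / 2 ≤ (1 - ε) ^ i := by
      have hB := one_add_mul_le_pow (a := -ε) (by linarith) i
      have hi' : (i : ℝ) ≤ τ := by exact_mod_cast hi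
      have : (i : ℝ) * ε ≤ τ * ε := mul_le_mul_of_nonneg_right hi' hε0.le
      have e : (1 : ℝ) + -ε = 1 - ε := by ring
      rw [e] at hB
      linarith
    have h3 : 1 / 2 * f j ≤ (1 - ε) ^ i * f j := mul_le_mul_of_nonneg_right h2 (hf0 j)
    linarith
  have h1 : (τ : ℝ) * (f j / 2) ≤ ∑ i ∈ range τ, f (j + i) := by
    have : ∑ i ∈ range τ, (f j / 2) ≤ ∑ i ∈ range τ, f (j + i) :=
      Finset.sum_le_sum fun i hi => hl2 i (Finset.mem_range.mp hi).le
    simpa using this
  have h2 : ∑ i ∈ range τ, f (j + i) ≤ ∑ i ∈ range (N + 1 + (j + τ)), f i := by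
    have e : ∑ i ∈ range τ, f (j + i) = ∑ i ∈ (range τ).map (addLeftEmbedding j), f i := by
      rw [Finset.sum_map]; rfl
    rw [e]
    apply Finset.sum_le_sum_of_subset_of_nonneg
    · intro a ha
      simp only [Finset.mem_map, Finset.mem_range, addLeftEmbedding_apply] at ha ⊢
      obtain ⟨b, hb, rfl⟩ := ha
      omega
    · intro i _ _; exact hf0 i
  have h3 : ∑ i ∈ range (N + 1 + (j + τ)), f i = ∑ i ∈ range (N + 1), f i := by
    symm
    apply Finset.sum_subset
    · intro a ha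
      simp only [Finset.mem_range] at ha ⊢
      omega
    · intro a _ ha
      simp only [Finset.mem_range, not_lt] at ha
      rw [hf]
      simp only
      rw [Nat.choose_eq_zero_of_lt (by omega)]
      simp
  have h4 : f j = (N.choose j : ℝ) * x ^ j * y ^ (N - j) := rfl
  rw [← h4]
  linarith

theorem binom_pmf {N τ : ℕ} {x y : ℝ} (hx : 0 < x) (hy : 0 < y)
    (h : 2 * (τ : ℝ) ^ 2 * (x + y) ^ 2 ≤ N * x * y) (j : ℕ) :
    τ * ((N.choose j : ℝ) * x ^ j * y ^ (N - j)) ≤ 2 * (x + y) ^ N := by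
  by_cases hjN : N < j
  · rw [Nat.choose_eq_zero_of_lt hjN]
    simp only [CharP.cast_eq_zero, zero_mul, mul_zero]
    positivity
  push Not at hjN
  rcases le_total ((j : ℝ) * (x + y)) (N * x) with h1 | h1
  · exact binom_half hx hy h h1
  · have h2 := binom_half (N := N) (j := N - j) (τ := τ) hy hx (by rw [add_comm y x]; linarith)
      (by push_cast [Nat.cast_sub hjN]; nlinarith)
    rw [Nat.choose_symm hjN, Nat.sub_sub_self hjN, add_comm y x] at h2
    calc (τ : ℝ) * ((N.choose j : ℝ) * x ^ j * y ^ (N - j))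
        = τ * ((N.choose j : ℝ) * y ^ (N - j) * x ^ j) := by ring
      _ ≤ _ := h2

/-- the mean is a mode of the binomial distribution -/
theorem mode {S M : ℕ} (hM : 0 < M) (hMS : M < S) :
    (1 : ℝ) ≤ ((S : ℝ) + 1) * ((S.choose M : ℝ) * ((M : ℝ) / S) ^ M * (1 - (M : ℝ) / S) ^ (S - M)) := by
  have hS : (0 : ℝ) < S := by
    have : 0 < S := by omega
    exact_mod_cast this
  have hM' : (0 : ℝ) < M := by exact_mod_cast hM
  have hMS' : (M : ℝ) < S := by exact_mod_cast hMS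
  set p : ℝ := (M : ℝ) / S with hp
  have hp0 : 0 < p := by positivity
  have hp1 : p < 1 := by rw [hp, div_lt_one hS]; exact hMS'
  have hSp : (S : ℝ) * p = M := by rw [hp]; field_simp
  set f : ℕ → ℝ := fun i => (S.choose i : ℝ) * p ^ i * (1 - p) ^ (S - i) with hf
  have h1p : 0 < 1 - p := by linarith
  have hf0 : ∀ i, 0 ≤ f i := fun i => by
    rw [hf]; positivity
  have hsum : ∑ i ∈ range (S + 1), f i = 1 := by
    have h := add_pow p (1 - p) S
    have e : p + (1 - p) = 1 := by ring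
    rw [e, one_pow] at h
    rw [h]
    refine Finset.sum_congr rfl fun i _ => ?_
    rw [hf]; ring
  have hup : ∀ j, j < M → f j ≤ f (j + 1) := by
    intro j hj
    have hrat : f (j + 1) * (((j : ℝ) + 1) * (1 - p)) = f j * (((S : ℝ) - j) * p) := ratio S j p (1 - p) (by omega)
    have hj' : (j : ℝ) + 1 ≤ M := by exact_mod_cast hj
    have hk : ((j : ℝ) + 1) * (1 - p) ≤ ((S : ℝ) - j) * p := by nlinarith
    have hpos : 0 < ((j : ℝ) + 1) * (1 - p) := by positivity
    have : f j * (((j : ℝ) + 1) * (1 - p)) ≤ f (j + 1) * (((j : ℝ) + 1) * (1 - p)) := by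
      rw [hrat]
      exact mul_le_mul_of_nonneg_left hk (hf0 j)
    exact le_of_mul_le_mul_right this hpos
  have hdown : ∀ j, M ≤ j → f (j + 1) ≤ f j := by
    intro j hj
    by_cases hjS : j < S
    · have hrat : f (j + 1) * (((j : ℝ) + 1) * (1 - p)) = f j * (((S : ℝ) - j) * p) := ratio S j p (1 - p) hjS
      have hj' : (M : ℝ) ≤ j := by exact_mod_cast hj
      have hk : ((S : ℝ) - j) * p ≤ ((j : ℝ) + 1) * (1 - p) := by nlinarith
      have hpos : 0 < ((j : ℝ) + 1) * (1 - p) := by positivity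
      have : f (j + 1) * (((j : ℝ) + 1) * (1 - p)) ≤ f j * (((j : ℝ) + 1) * (1 - p)) := by
        rw [hrat]
        exact mul_le_mul_of_nonneg_left hk (hf0 j)
      exact le_of_mul_le_mul_right this hpos
    · have : f (j + 1) = 0 := by
        rw [hf]
        simp only
        rw [Nat.choose_eq_zero_of_lt (by omega)]
        simp
      rw [this]
      exact hf0 j
  have hle1 : ∀ k, k ≤ M → f (M - k) ≤ f M := by
    intro k
    induction k with
    | zero => intro _; simp
    | succ k ih =>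
      intro hk
      have h1 := ih (by omega)
      have h2 := hup (M - (k + 1)) (by omega)
      have e : M - (k + 1) + 1 = M - k := by omega
      rw [e] at h2
      linarith
  have hle2 : ∀ k, f (M + k) ≤ f M := by
    intro k
    induction k with
    | zero => simp
    | succ k ih =>
      have h2 := hdown (M + k) (by omega)
      have e : M + (k + 1) = M + k + 1 := by omega
      rw [e]
      linarith
  have hle : ∀ j, f j ≤ f M := by
    intro j
    rcases le_total j M with h | h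
    · have := hle1 (M - j) (by omega)
      rwa [Nat.sub_sub_self h] at this
    · have := hle2 (j - M)
      rwa [Nat.add_sub_cancel' h] at this
  have : ∑ i ∈ range (S + 1), f i ≤ ∑ i ∈ range (S + 1), f M := Finset.sum_le_sum fun i _ => hle i
  rw [hsum] at this
  simpa using this

/-! ### level by level -/

theorem level {w : ℕ → ℝ} (hw : ∀ k, 0 ≤ w k) (bnd : ℝ) (hb : 0 ≤ bnd) (core : Finset ℕ) (Nmin : ℕ)
    (I : Finset ℕ) :
    ∀ (A : Finset ℕ) (β : Type) [Fintype β] (F : ℕ → ℕ), Disjoint I core →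
      (∀ k ∈ I, ∀ N ≥ Nmin, ∀ (j : ℕ) (y : ℝ), ∑ a ∈ core, w a ≤ y → w k + y ≤ 1 →
        (N.choose j : ℝ) * w k ^ j * y ^ (N - j) ≤ bnd * (w k + y) ^ N) →
      core ⊆ A → I ⊆ A → ∑ a ∈ A, w a ≤ 1 →
      Nmin + ∑ k ∈ I, F k ≤ Fintype.card β →
      ∑ Y ∈ (Fintype.piFinset fun _ : β => A).filter
        (fun Y => ∀ k ∈ I, (univ.filter fun b => Y b = k).card = F k), ∏ b, w (Y b)
        ≤ bnd ^ I.card * (∑ a ∈ A, w a) ^ Fintype.card β := by
  induction I using Finset.induction_on with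
  | empty =>
    intro A β _ F _ _ _ _ _ _
    have h1 : (Fintype.piFinset fun _ : β => A).filter
        (fun Y => ∀ k ∈ (∅ : Finset ℕ), (univ.filter fun b => Y b = k).card = F k)
        = Fintype.piFinset fun _ : β => A := by
      apply Finset.filter_true_of_mem
      intro Y _ k hk
      exact absurd hk (Finset.notMem_empty k)
    rw [h1, Finset.card_empty, pow_zero, one_mul]
    have h2 := (Finset.prod_univ_sum (fun _ : β => A) (fun _ a => w a)).symm
    rw [h2, Finset.prod_const, Finset.card_univ]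
  | insert k I' hk ih =>
    intro A β _ F hdis hp hcA hIA hA1 hN
    have hkI : k ∈ insert k I' := Finset.mem_insert_self _ _
    have hkcore : k ∉ core := fun h => (Finset.disjoint_left.mp hdis) hkI h
    have hkA : k ∈ A := hIA hkI
    have hI'A : I' ⊆ A := fun a ha => hIA (Finset.mem_insert_of_mem ha)
    have hsum : ∑ a ∈ A, w a = w k + ∑ a ∈ A.erase k, w a := by
      rw [Finset.add_sum_erase _ _ hkA]
    have hdis' : Disjoint I' core :=
      Finset.disjoint_of_subset_left (Finset.subset_insert _ _) hdis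
    have hp' : ∀ k' ∈ I', ∀ N ≥ Nmin, ∀ (j : ℕ) (y : ℝ), ∑ a ∈ core, w a ≤ y → w k' + y ≤ 1 →
        (N.choose j : ℝ) * w k' ^ j * y ^ (N - j) ≤ bnd * (w k' + y) ^ N :=
      fun k' hk' => hp k' (Finset.mem_insert_of_mem hk')
    rw [Finset.sum_insert hk] at hN
    set X := (Fintype.piFinset fun _ : β => A).filter
        (fun Y => ∀ k' ∈ insert k I', (univ.filter fun b => Y b = k').card = F k') with hX
    have hmaps : ∀ Y ∈ X, (univ.filter fun b => Y b = k) ∈ powersetCard (F k) (univ : Finset β) := by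
      intro Y hY
      rw [hX, Finset.mem_filter] at hY
      rw [Finset.mem_powersetCard]
      exact ⟨Finset.subset_univ _, hY.2 k hkI⟩
    rw [← Finset.sum_fiberwise_of_maps_to hmaps]
    set W' := ∑ a ∈ A.erase k, w a with hW'
    have hW'0 : 0 ≤ W' := Finset.sum_nonneg fun a _ => hw a
    have hinner : ∀ B₁ ∈ powersetCard (F k) (univ : Finset β),
        ∑ Y ∈ X.filter (fun Y => (univ.filter fun b => Y b = k) = B₁), ∏ b, w (Y b)
          ≤ w k ^ F k * (bnd ^ I'.card * W' ^ (Fintype.card β - F k)) := by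
      intro B₁ hB₁
      rw [Finset.mem_powersetCard] at hB₁
      have hcard : Fintype.card {b // b ∉ B₁} = Fintype.card β - F k := by
        rw [Fintype.card_subtype_compl, Fintype.card_coe, hB₁.2]
      set res : (β → ℕ) → ({b // b ∉ B₁} → ℕ) := fun Y b => Y b.1 with hres
      set X' := (Fintype.piFinset fun _ : {b // b ∉ B₁} => A.erase k).filter
        (fun Y => ∀ k' ∈ I', (univ.filter fun b => Y b = k').card = F k') with hX'
      have hmem : ∀ Y ∈ X.filter (fun Y => (univ.filter fun b => Y b = k) = B₁),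
          (∀ b, b ∈ B₁ ↔ Y b = k) ∧ (∀ b, Y b ∈ A) ∧
            ∀ k' ∈ I', (univ.filter fun b => Y b = k').card = F k' := by
        intro Y hY
        rw [Finset.mem_filter, hX, Finset.mem_filter, Fintype.mem_piFinset] at hY
        refine ⟨fun b => ?_, hY.1.1, fun k' hk' => hY.1.2 k' (Finset.mem_insert_of_mem hk')⟩
        rw [← hY.2]
        simp
      have hprod : ∀ Y ∈ X.filter (fun Y => (univ.filter fun b => Y b = k) = B₁),
          ∏ b, w (Y b) = w k ^ F k * ∏ b, w (res Y b) := by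
        intro Y hY
        obtain ⟨h1, _, _⟩ := hmem Y hY
        rw [← Finset.prod_mul_prod_compl B₁ (fun b => w (Y b))]
        congr 1
        · rw [Finset.prod_congr rfl fun b hb => by rw [(h1 b).mp hb], Finset.prod_const, hB₁.2]
        · exact Finset.prod_subtype (B₁ᶜ) (fun b => by simp) (fun b => w (Y b))
      rw [Finset.sum_congr rfl hprod, ← Finset.mul_sum]
      apply mul_le_mul_of_nonneg_left _ (pow_nonneg (hw k) _)
      have hinj : Set.InjOn res (X.filter (fun Y => (univ.filter fun b => Y b = k) = B₁) : Set (β → ℕ)) := by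
        intro Y hY Z hZ hYZ
        obtain ⟨h1, _, _⟩ := hmem Y hY
        obtain ⟨h2, _, _⟩ := hmem Z hZ
        funext b
        by_cases hb : b ∈ B₁
        · rw [(h1 b).mp hb, (h2 b).mp hb]
        · have := congrFun hYZ ⟨b, hb⟩
          exact this
      have himg : ∑ Y ∈ X.filter (fun Y => (univ.filter fun b => Y b = k) = B₁), ∏ b, w (res Y b)
          = ∑ Z ∈ (X.filter (fun Y => (univ.filter fun b => Y b = k) = B₁)).image res, ∏ b, w (Z b) := by
        rw [Finset.sum_image hinj]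
      rw [himg]
      have hsub : (X.filter (fun Y => (univ.filter fun b => Y b = k) = B₁)).image res ⊆ X' := by
        intro Z hZ
        rw [Finset.mem_image] at hZ
        obtain ⟨Y, hY, rfl⟩ := hZ
        obtain ⟨h1, h2, h3⟩ := hmem Y hY
        rw [hX', Finset.mem_filter, Fintype.mem_piFinset]
        refine ⟨fun b => ?_, fun k' hk' => ?_⟩
        · rw [Finset.mem_erase]
          exact ⟨fun h => b.2 ((h1 b.1).mpr h), h2 b.1⟩
        · rw [← h3 k' hk']
          have hne : k' ≠ k := fun h => hk (h ▸ hk')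
          rw [← Finset.card_map (Function.Embedding.subtype fun b => b ∉ B₁)]
          congr 1
          ext b
          simp only [Finset.mem_map, Finset.mem_filter, Finset.mem_univ, true_and,
            Function.Embedding.coe_subtype]
          constructor
          · rintro ⟨a, ha, rfl⟩
            exact ha
          · intro hb
            refine ⟨⟨b, fun hcon => hne ?_⟩, hb, rfl⟩
            rw [← hb]
            exact (h1 b).mp hcon
      refine (Finset.sum_le_sum_of_subset_of_nonneg hsub fun Z _ _ =>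
        Finset.prod_nonneg fun b _ => hw _).trans ?_
      have hih := ih (A.erase k) {b // b ∉ B₁} F hdis' hp' (fun a ha => by
        rw [Finset.mem_erase]
        exact ⟨fun h => hkcore (h ▸ ha), hcA ha⟩) (fun a ha => by
        rw [Finset.mem_erase]
        exact ⟨fun h => hk (h ▸ ha), hI'A ha⟩) (by
        have := hw k
        rw [hsum] at hA1
        linarith) (by rw [hcard]; omega)
      rw [hcard] at hih
      refine le_trans (le_of_eq ?_) hih
      refine Finset.sum_congr ?_ fun _ _ => rfl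
      rw [hX']
      ext Z
      simp only [Finset.mem_filter, Fintype.mem_piFinset]
    refine (Finset.sum_le_sum hinner).trans ?_
    rw [Finset.sum_const, Finset.card_powersetCard, Finset.card_univ, nsmul_eq_mul,
      Finset.card_insert_of_notMem hk, hsum]
    have hcore : ∑ a ∈ core, w a ≤ W' := by
      apply Finset.sum_le_sum_of_subset_of_nonneg
      · intro a ha
        rw [Finset.mem_erase]
        exact ⟨fun h => hkcore (h ▸ ha), hcA ha⟩
      · intro a _ _; exact hw a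
    have hfin := hp k hkI (Fintype.card β) (by omega) (F k) W' hcore (by rw [← hsum]; exact hA1)
    have hbp : 0 ≤ bnd ^ I'.card := pow_nonneg hb _
    calc ((Fintype.card β).choose (F k) : ℝ) * (w k ^ F k * (bnd ^ I'.card * W' ^ (Fintype.card β - F k)))
        = bnd ^ I'.card * (((Fintype.card β).choose (F k) : ℝ) * w k ^ F k * W' ^ (Fintype.card β - F k)) := by
          ring
      _ ≤ bnd ^ I'.card * (bnd * (w k + W') ^ Fintype.card β) := mul_le_mul_of_nonneg_left hfin hbp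
      _ = bnd ^ (I'.card + 1) * (w k + W') ^ Fintype.card β := by ring

/-! ### from functions to subsets -/

/-- number of elements of `T` in the bin `b` -/
def occ {ι β : Type} (π : ι → β) (T : Finset ι) (b : β) : ℕ := (T.filter fun i => π i = b).card

theorem exists_perm {α γ : Type} [Fintype α] (f f' : α → γ)
    (h : ∀ c, (univ.filter fun a => f a = c).card = (univ.filter fun a => f' a = c).card) :
    ∃ e : Equiv.Perm α, ∀ a, f (e a) = f' a := by
  have h' : ∀ c, Nonempty ({a // f' a = c} ≃ {a // f a = c}) := fun c => by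
    rw [← Fintype.card_eq, Fintype.card_subtype, Fintype.card_subtype, h]
  refine ⟨(Equiv.sigmaFiberEquiv f').symm.trans
    ((Equiv.sigmaCongrRight fun c => (h' c).some).trans (Equiv.sigmaFiberEquiv f)), fun a => ?_⟩
  exact ((h' (f' a)).some ⟨a, rfl⟩).2

theorem coset_right {α γ : Type} [Fintype α] (f f' f'' : α → γ)
    (h : ∀ c, (univ.filter fun a => f' a = c).card = (univ.filter fun a => f'' a = c).card) :
    (univ.filter fun g : Equiv.Perm α => ∀ a, f (g a) = f' a).card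
      = (univ.filter fun g : Equiv.Perm α => ∀ a, f (g a) = f'' a).card := by
  obtain ⟨e, he⟩ := exists_perm f' f'' h
  apply Finset.card_nbij' (fun g => e.trans g) (fun g => e.symm.trans g)
  · intro g hg
    simp only [Finset.coe_filter, Finset.mem_univ, true_and, Set.mem_ofPred_eq] at hg ⊢
    intro a
    rw [Equiv.trans_apply, hg, he]
  · intro g hg
    simp only [Finset.coe_filter, Finset.mem_univ, true_and, Set.mem_ofPred_eq] at hg ⊢
    intro a
    rw [Equiv.trans_apply, hg, ← he, Equiv.apply_symm_apply]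
  · intro g _; ext a; simp
  · intro g _; ext a; simp

theorem coset_left {α γ : Type} [Fintype α] (f f' f'' : α → γ)
    (h : ∀ c, (univ.filter fun a => f' a = c).card = (univ.filter fun a => f'' a = c).card) :
    (univ.filter fun g : Equiv.Perm α => ∀ a, f' (g a) = f a).card
      = (univ.filter fun g : Equiv.Perm α => ∀ a, f'' (g a) = f a).card := by
  obtain ⟨e, he⟩ := exists_perm f' f'' h
  apply Finset.card_nbij' (fun g => g.trans e.symm) (fun g => g.trans e)
  · intro g hg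
    simp only [Finset.coe_filter, Finset.mem_univ, true_and, Set.mem_ofPred_eq] at hg ⊢
    intro a
    rw [Equiv.trans_apply, ← he, Equiv.apply_symm_apply, hg]
  · intro g hg
    simp only [Finset.coe_filter, Finset.mem_univ, true_and, Set.mem_ofPred_eq] at hg ⊢
    intro a
    rw [Equiv.trans_apply, he, hg]
  · intro g _; ext a; simp
  · intro g _; ext a; simp

theorem dbl1 {ι β : Type} [Fintype ι] [Fintype β] (s : β → ℕ) (π₀ : ι → β) (h0 : π₀ ∈ (fits s : Finset (ι → β)))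
    (mk : Finset ι) (P : (β → ℕ) → Prop) :
    (univ.filter fun g : Equiv.Perm ι => P (occ (fun i => π₀ (g i)) mk)).card
      = ((fits s).filter fun π : ι → β => P (occ π mk)).card *
        (univ.filter fun g : Equiv.Perm ι => ∀ a, π₀ (g a) = π₀ a).card := by
  have hfit : ∀ π : ι → β, π ∈ (fits s : Finset (ι → β)) ↔ ∀ b, (univ.filter fun i => π i = b).card = s b := by
    intro π
    simp [fits]
  have hmaps : ∀ g ∈ (univ.filter fun g : Equiv.Perm ι => P (occ (fun i => π₀ (g i)) mk)),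
      (fun i => π₀ (g i)) ∈ (fits s).filter fun π : ι → β => P (occ π mk) := by
    intro g hg
    rw [Finset.mem_filter] at hg
    rw [Finset.mem_filter, hfit]
    refine ⟨fun b => ?_, hg.2⟩
    rw [← (hfit π₀).mp h0 b]
    apply Finset.card_nbij' (fun i => g i) (fun i => g.symm i)
    · intro i hi
      simpa using hi
    · intro i hi
      simpa using hi
    · intro i _; simp
    · intro i _; simp
  rw [Finset.card_eq_sum_card_fiberwise hmaps]
  rw [Finset.sum_const_nat (m := (univ.filter fun g : Equiv.Perm ι => ∀ a, π₀ (g a) = π₀ a).card)]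
  intro π hπ
  rw [Finset.mem_filter, hfit] at hπ
  rw [coset_right π₀ π₀ π (fun c => by rw [(hfit π₀).mp h0 c, hπ.1 c])]
  congr 1
  ext g
  simp only [Finset.mem_filter, Finset.mem_univ, true_and]
  constructor
  · rintro ⟨_, h⟩ a
    exact congrFun h a
  · intro h
    have : (fun i => π₀ (g i)) = π := funext h
    rw [this]
    exact ⟨hπ.2, rfl⟩

theorem dbl2 {ι β : Type} [Fintype ι] [Fintype β] (π₀ : ι → β)
    (mk : Finset ι) (P : (β → ℕ) → Prop) :
    (univ.filter fun g : Equiv.Perm ι => P (occ (fun i => π₀ (g i)) mk)).card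
      = (((univ : Finset ι).powersetCard mk.card).filter fun T => P (occ π₀ T)).card *
        (univ.filter fun g : Equiv.Perm ι => ∀ a, (g a ∈ mk) = (a ∈ mk)).card := by
  have hocc : ∀ g : Equiv.Perm ι, occ π₀ (mk.map g.toEmbedding) = occ (fun i => π₀ (g i)) mk := by
    intro g
    funext b
    unfold occ
    rw [Finset.filter_map, Finset.card_map]
    rfl
  have hmaps : ∀ g ∈ (univ.filter fun g : Equiv.Perm ι => P (occ (fun i => π₀ (g i)) mk)),
      mk.map g.toEmbedding ∈ ((univ : Finset ι).powersetCard mk.card).filter fun T => P (occ π₀ T) := by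
    intro g hg
    rw [Finset.mem_filter] at hg
    rw [Finset.mem_filter, Finset.mem_powersetCard, hocc]
    exact ⟨⟨Finset.subset_univ _, Finset.card_map _⟩, hg.2⟩
  rw [Finset.card_eq_sum_card_fiberwise hmaps]
  rw [Finset.sum_const_nat (m := (univ.filter fun g : Equiv.Perm ι => ∀ a, (g a ∈ mk) = (a ∈ mk)).card)]
  intro T hT
  rw [Finset.mem_filter, Finset.mem_powersetCard] at hT
  have hc : ∀ c : Prop, (univ.filter fun a => (a ∈ mk) = c).card = (univ.filter fun a => (a ∈ T) = c).card := by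
    intro c
    by_cases hcc : c
    · have e1 : (univ.filter fun a => (a ∈ mk) = c) = mk := by
        ext a; simp [hcc]
      have e2 : (univ.filter fun a => (a ∈ T) = c) = T := by
        ext a; simp [hcc]
      rw [e1, e2, hT.1.2]
    · have e1 : (univ.filter fun a => (a ∈ mk) = c) = mkᶜ := by
        ext a; simp [hcc]
      have e2 : (univ.filter fun a => (a ∈ T) = c) = Tᶜ := by
        ext a; simp [hcc]
      rw [e1, e2, Finset.card_compl, Finset.card_compl, hT.1.2]
  have hcl : (univ.filter fun g : Equiv.Perm ι => ∀ a, (g a ∈ mk) = (a ∈ mk)).card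
      = (univ.filter fun g : Equiv.Perm ι => ∀ a, (g a ∈ T) = (a ∈ mk)).card := by
    have := coset_left (fun a => a ∈ mk) (fun a => a ∈ mk) (fun a => a ∈ T) (fun c => by convert hc c)
    convert this
  rw [hcl]
  congr 1
  ext g
  simp only [Finset.mem_filter, Finset.mem_univ, true_and]
  constructor
  · rintro ⟨_, h⟩ a
    rw [← h]
    simp
  · intro h
    have e : mk.map g.toEmbedding = T := by
      ext a
      rw [Finset.mem_map]
      constructor
      · rintro ⟨b, hb, rfl⟩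
        have := h b
        simp only [eq_iff_iff] at this
        exact this.mpr hb
      · intro ha
        refine ⟨g.symm a, ?_, by simp⟩
        have := h (g.symm a)
        simp only [eq_iff_iff, Equiv.apply_symm_apply] at this
        exact this.mp ha
    refine ⟨?_, e⟩
    rw [← hocc, e]
    exact hT.2

theorem transfer {ι β : Type} [Fintype ι] [Fintype β] (s : β → ℕ) (π₀ : ι → β)
    (h0 : π₀ ∈ (fits s : Finset (ι → β))) (mk : Finset ι) (P : (β → ℕ) → Prop) :
    ((fits s).filter fun π : ι → β => P (occ π mk)).card * (Fintype.card ι).choose mk.card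
      = (((univ : Finset ι).powersetCard mk.card).filter fun T => P (occ π₀ T)).card *
          (fits s : Finset (ι → β)).card := by
  have a1 := dbl1 s π₀ h0 mk P
  have a2 := dbl2 π₀ mk P
  have b1 := dbl1 s π₀ h0 mk (fun _ => True)
  have b2 := dbl2 π₀ mk (fun _ => True)
  simp only [Finset.filter_true, Finset.card_powersetCard, Finset.card_univ] at b1 b2
  set c₀ := (univ.filter fun g : Equiv.Perm ι => ∀ a, π₀ (g a) = π₀ a).card
  set e₀ := (univ.filter fun g : Equiv.Perm ι => ∀ a, (g a ∈ mk) = (a ∈ mk)).card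
  have hc0 : 0 < c₀ := Finset.card_pos.mpr ⟨1, by simp⟩
  have he0 : 0 < e₀ := Finset.card_pos.mpr ⟨1, by simp⟩
  set X := ((fits s).filter fun π : ι → β => P (occ π mk)).card
  set Y := (((univ : Finset ι).powersetCard mk.card).filter fun T => P (occ π₀ T)).card
  have h1 : X * c₀ = Y * e₀ := by rw [← a1, ← a2]
  have h2 : (fits s : Finset (ι → β)).card * c₀ = (Fintype.card ι).choose mk.card * e₀ := by rw [← b1, ← b2]
  have h3 : (X * (Fintype.card ι).choose mk.card) * (c₀ * e₀)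
      = (Y * (fits s : Finset (ι → β)).card) * (c₀ * e₀) := by
    calc (X * (Fintype.card ι).choose mk.card) * (c₀ * e₀)
        = (X * c₀) * ((Fintype.card ι).choose mk.card * e₀) := by ring
      _ = (Y * e₀) * ((fits s : Finset (ι → β)).card * c₀) := by rw [h1, h2]
      _ = _ := by ring
  exact Nat.eq_of_mul_eq_mul_right (Nat.mul_pos hc0 he0) h3

theorem T_count {ι β : Type} [Fintype ι] [Fintype β] (π₀ : ι → β) (M D : ℕ)
    (hD : ∀ b, (univ.filter fun i => π₀ i = b).card ≤ D) (P : (β → ℕ) → Prop) :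
    (((univ : Finset ι).powersetCard M).filter fun T => P (occ π₀ T)).card
      ≤ ∑ Y ∈ (Fintype.piFinset fun _ : β => range (D + 1)).filter (fun Y => ∑ b, Y b = M ∧ P Y),
          ∏ b, D.choose (Y b) := by
  have hmaps : ∀ T ∈ (((univ : Finset ι).powersetCard M).filter fun T => P (occ π₀ T)),
      occ π₀ T ∈ (Fintype.piFinset fun _ : β => range (D + 1)).filter (fun Y => ∑ b, Y b = M ∧ P Y) := by
    intro T hT
    rw [Finset.mem_filter, Finset.mem_powersetCard] at hT
    rw [Finset.mem_filter, Fintype.mem_piFinset]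
    refine ⟨fun b => ?_, ?_, hT.2⟩
    · rw [Finset.mem_range, Nat.lt_succ_iff]
      exact (Finset.card_le_card (Finset.filter_subset_filter _ (Finset.subset_univ T))).trans (hD b)
    · rw [← hT.1.2]
      exact (Finset.card_eq_sum_card_fiberwise (fun i _ => Finset.mem_univ (π₀ i))).symm
  rw [Finset.card_eq_sum_card_fiberwise hmaps]
  apply Finset.sum_le_sum
  intro Y _
  have hle : ((((univ : Finset ι).powersetCard M).filter fun T => P (occ π₀ T)).filter
      fun T => occ π₀ T = Y).card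
      ≤ (Fintype.piFinset fun b : β => powersetCard (Y b) (univ.filter fun i => π₀ i = b)).card := by
    apply Finset.card_le_card_of_injOn (fun T b => T.filter fun i => π₀ i = b)
    · intro T hT
      simp only [Finset.coe_filter, Set.mem_ofPred_eq, Finset.mem_filter] at hT
      rw [Finset.mem_coe, Fintype.mem_piFinset]
      intro b
      rw [Finset.mem_powersetCard]
      refine ⟨Finset.filter_subset_filter _ (Finset.subset_univ T), ?_⟩
      rw [← hT.2]
      rfl
    · intro T _ T' _ h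
      ext i
      have := congrFun h (π₀ i)
      have h2 : i ∈ (T.filter fun j => π₀ j = π₀ i) ↔ i ∈ (T'.filter fun j => π₀ j = π₀ i) := by
        simp only at this
        rw [this]
      simpa using h2
  refine hle.trans ?_
  rw [Fintype.card_piFinset]
  apply Finset.prod_le_prod'
  intro b _
  rw [Finset.card_powersetCard]
  exact Nat.choose_le_choose _ (hD b)

/-! ### the finite bound -/

theorem bound {ι β : Type} [Fintype ι] [Fintype β] (s : β → ℕ) (mk : Finset ι) (F : ℕ → ℕ)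
    (D k₀ L τ Nmin : ℕ) (p : ℝ) (hD : ∀ b, s b ≤ D) (hι : Fintype.card ι = ∑ b, s b)
    (hM0 : 0 < mk.card) (hMS : mk.card < Fintype.card ι) (hp : p = (mk.card : ℝ) / Fintype.card ι)
    (hp2 : p ≤ 1 / 2) (hτ : 0 < τ) (hk0 : 1 ≤ k₀) (hkL : k₀ + L ≤ D + 1)
    (hNmin : Nmin * k₀ + mk.card ≤ Fintype.card β * k₀) (hmono : 2 * (D : ℝ) * p ≤ k₀)
    (hw : ∀ k ∈ Ico k₀ (k₀ + L),
      4 * (τ : ℝ) ^ 2 ≤ Nmin * ((D.choose k : ℝ) * p ^ k * (1 - p) ^ (D - k)))
    (P : (β → ℕ) → Prop)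
    (hP : ∀ Y, P Y → ∀ k ∈ Finset.Ico k₀ (k₀ + L), (univ.filter fun b => Y b = k).card = F k) :
    (((fits s : Finset (ι → β)).filter fun π => P (occ π mk)).card : ℝ)
        * (1 - p) ^ (D * Fintype.card β - Fintype.card ι)
      ≤ (2 / τ) ^ L * ((Fintype.card ι : ℝ) + 1) * (fits s : Finset (ι → β)).card := by
  set S := Fintype.card ι with hS
  set N := Fintype.card β with hN
  set M := mk.card with hM
  have hSpos : (0 : ℝ) < S := by
    have : 0 < S := by omega
    exact_mod_cast this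
  have hMpos : (0 : ℝ) < M := by exact_mod_cast hM0
  have hp0 : 0 < p := by rw [hp]; positivity
  have h1p : 0 < 1 - p := by linarith
  have hτ' : (0 : ℝ) < τ := by exact_mod_cast hτ
  rcases Finset.eq_empty_or_nonempty ((fits s).filter fun π : ι → β => P (occ π mk)) with hE | ⟨π₀, hπ₀⟩
  · rw [hE]
    simp only [Finset.card_empty, CharP.cast_eq_zero, zero_mul]
    positivity
  rw [Finset.mem_filter] at hπ₀
  obtain ⟨h0, hP0⟩ := hπ₀
  have hfit : ∀ b, (univ.filter fun i => π₀ i = b).card = s b := by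
    simpa [fits] using h0
  have htr := transfer s π₀ h0 mk P
  have hTc := T_count π₀ M D (fun b => by rw [hfit b]; exact hD b) P
  set X := ((fits s).filter fun π : ι → β => P (occ π mk)).card
  set T := (((univ : Finset ι).powersetCard mk.card).filter fun T => P (occ π₀ T)).card
  set w : ℕ → ℝ := fun k => (D.choose k : ℝ) * p ^ k * (1 - p) ^ (D - k) with hwdef
  have hw0 : ∀ k, 0 ≤ w k := fun k => by rw [hwdef]; positivity
  -- the sum of the profile
  have hsumF : k₀ * ∑ k ∈ Ico k₀ (k₀ + L), F k ≤ M := by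
    have h1 : ∑ b, occ π₀ mk b = M :=
      (Finset.card_eq_sum_card_fiberwise (fun i _ => Finset.mem_univ (π₀ i))).symm
    rw [← h1, Finset.mul_sum]
    calc ∑ k ∈ Ico k₀ (k₀ + L), k₀ * F k
        ≤ ∑ k ∈ Ico k₀ (k₀ + L), ∑ b : β, (if occ π₀ mk b = k then k else 0) := by
          apply Finset.sum_le_sum
          intro k hk
          rw [← hP _ hP0 k hk, ← Finset.sum_filter, Finset.sum_const, smul_eq_mul, mul_comm]
          exact Nat.mul_le_mul_left _ (Finset.mem_Ico.mp hk).1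
      _ = ∑ b : β, ∑ k ∈ Ico k₀ (k₀ + L), (if occ π₀ mk b = k then k else 0) := Finset.sum_comm
      _ ≤ ∑ b, occ π₀ mk b := by
          apply Finset.sum_le_sum
          intro b _
          rw [Finset.sum_ite_eq]
          split_ifs <;> simp
  have hNF : Nmin + ∑ k ∈ Ico k₀ (k₀ + L), F k ≤ N := by
    have h1 : (Nmin + ∑ k ∈ Ico k₀ (k₀ + L), F k) * k₀ ≤ N * k₀ := by
      have : (Nmin + ∑ k ∈ Ico k₀ (k₀ + L), F k) * k₀ = Nmin * k₀ + k₀ * ∑ k ∈ Ico k₀ (k₀ + L), F k := by ring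
      rw [this]
      omega
    exact Nat.le_of_mul_le_mul_right h1 (by omega)
  -- monotonicity of the weights
  have hwmono : ∀ j, k₀ ≤ j + 1 → w (j + 1) ≤ w j := by
    intro j hj
    by_cases hjD : j < D
    · have hrat : w (j + 1) * (((j : ℝ) + 1) * (1 - p)) = w j * (((D : ℝ) - j) * p) :=
        ratio D j p (1 - p) hjD
      have hj' : (k₀ : ℝ) ≤ (j : ℝ) + 1 := by exact_mod_cast hj
      have hk : ((D : ℝ) - j) * p ≤ ((j : ℝ) + 1) * (1 - p) := by
        have hj0 : (0 : ℝ) ≤ j := Nat.cast_nonneg j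
        have e1 : ((D : ℝ) - j) * p ≤ D * p := by nlinarith
        have e2 : ((j : ℝ) + 1) * (1 / 2) ≤ ((j : ℝ) + 1) * (1 - p) :=
          mul_le_mul_of_nonneg_left (by linarith) (by linarith)
        linarith
      have hpos : 0 < ((j : ℝ) + 1) * (1 - p) := by positivity
      have : w (j + 1) * (((j : ℝ) + 1) * (1 - p)) ≤ w j * (((j : ℝ) + 1) * (1 - p)) := by
        rw [hrat]
        exact mul_le_mul_of_nonneg_left hk (hw0 j)
      exact le_of_mul_le_mul_right this hpos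
    · have : w (j + 1) = 0 := by
        rw [hwdef]
        simp only
        rw [Nat.choose_eq_zero_of_lt (by omega)]
        simp
      rw [this]
      exact hw0 j
  have hwle : ∀ i, w (k₀ - 1 + i) ≤ w (k₀ - 1) := by
    intro i
    induction i with
    | zero => simp
    | succ i ih => exact (hwmono (k₀ - 1 + i) (by omega)).trans ih
  have hbnd0 : (0 : ℝ) ≤ 2 / τ := by positivity
  have hsum1 : ∑ a ∈ range (D + 1), w a = 1 := by
    have h := add_pow p (1 - p) D
    have e : p + (1 - p) = 1 := by ring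
    rw [e, one_pow] at h
    rw [h]
    refine Finset.sum_congr rfl fun i _ => ?_
    rw [hwdef]; ring
  have hlev := level hw0 (2 / (τ : ℝ)) hbnd0 {k₀ - 1} Nmin (Ico k₀ (k₀ + L)) (range (D + 1)) β F
    (by
      rw [Finset.disjoint_singleton_right, Finset.mem_Ico]
      omega)
    (by
      intro k hk N' hN' j y hy1 hy2
      rw [Finset.sum_singleton] at hy1
      have hk' := Finset.mem_Ico.mp hk
      have hwk : w k ≤ w (k₀ - 1) := by
        have := hwle (k - (k₀ - 1))
        rwa [Nat.add_sub_cancel' (by omega)] at this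
      have h4 : 4 * (τ : ℝ) ^ 2 ≤ Nmin * w k := hw k hk
      have hwkpos : 0 < w k := by
        rcases (hw0 k).lt_or_eq with h | h
        · exact h
        · rw [← h, mul_zero] at h4
          have : (0 : ℝ) < 4 * (τ : ℝ) ^ 2 := by positivity
          linarith
      have hxy : w k ≤ y := hwk.trans hy1
      have hy : 0 < y := lt_of_lt_of_le hwkpos hxy
      have hN'' : (Nmin : ℝ) ≤ N' := by exact_mod_cast hN'
      have hcond : 2 * (τ : ℝ) ^ 2 * (w k + y) ^ 2 ≤ N' * w k * y := by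
        have e1 : (w k + y) ^ 2 ≤ 2 * y := by nlinarith
        have e2 : 2 * (τ : ℝ) ^ 2 * (w k + y) ^ 2 ≤ 2 * (τ : ℝ) ^ 2 * (2 * y) :=
          mul_le_mul_of_nonneg_left e1 (by positivity)
        have e3 : 4 * (τ : ℝ) ^ 2 * y ≤ Nmin * w k * y := mul_le_mul_of_nonneg_right h4 hy.le
        have e4 : (Nmin : ℝ) * (w k * y) ≤ N' * (w k * y) :=
          mul_le_mul_of_nonneg_right hN'' (by positivity)
        linarith
      have := binom_pmf hwkpos hy hcond j
      rw [div_mul_eq_mul_div, le_div_iff₀ hτ']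
      linarith)
    (by
      intro a ha
      rw [Finset.mem_singleton] at ha
      rw [Finset.mem_range]
      omega)
    (by
      intro a ha
      rw [Finset.mem_Ico] at ha
      rw [Finset.mem_range]
      omega)
    hsum1.le hNF
  rw [hsum1, one_pow, mul_one, Nat.card_Ico, Nat.add_sub_cancel_left] at hlev
  -- DN is at least S
  have hDN : S ≤ D * N := by
    rw [hι]
    calc ∑ b, s b ≤ ∑ _b : β, D := Finset.sum_le_sum fun b _ => hD b
      _ = D * N := by rw [Finset.sum_const, Finset.card_univ, smul_eq_mul, mul_comm]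
  have hTw : (T : ℝ) * (p ^ M * (1 - p) ^ (D * N - M)) ≤ (2 / (τ : ℝ)) ^ L := by
    refine le_trans ?_ hlev
    have h1 : (T : ℝ) ≤ ((∑ Y ∈ (Fintype.piFinset fun _ : β => range (D + 1)).filter
        (fun Y => ∑ b, Y b = M ∧ P Y), ∏ b, D.choose (Y b) : ℕ) : ℝ) := Nat.cast_le.mpr hTc
    have hq0 : 0 ≤ p ^ M * (1 - p) ^ (D * N - M) := by positivity
    refine (mul_le_mul_of_nonneg_right h1 hq0).trans ?_
    push_cast
    rw [Finset.sum_mul]
    have h2 : ∀ Y ∈ (Fintype.piFinset fun _ : β => range (D + 1)).filter (fun Y => ∑ b, Y b = M ∧ P Y),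
        (∏ b, (D.choose (Y b) : ℝ)) * (p ^ M * (1 - p) ^ (D * N - M)) = ∏ b, w (Y b) := by
      intro Y hY
      rw [Finset.mem_filter, Fintype.mem_piFinset] at hY
      obtain ⟨hY1, hY2, _⟩ := hY
      have hY1' : ∀ b, Y b ≤ D := fun b => by
        have := hY1 b
        rw [Finset.mem_range] at this
        omega
      rw [hwdef]
      simp only
      rw [Finset.prod_mul_distrib, Finset.prod_mul_distrib, Finset.prod_pow_eq_pow_sum,
        Finset.prod_pow_eq_pow_sum, hY2]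
      have h3 : ∑ b, (D - Y b) = D * N - M := by
        have h4 : ∑ b, (D - Y b) + ∑ b, Y b = D * N := by
          rw [← Finset.sum_add_distrib]
          rw [Finset.sum_congr rfl fun b _ => Nat.sub_add_cancel (hY1' b)]
          rw [Finset.sum_const, Finset.card_univ, smul_eq_mul, mul_comm]
        rw [hY2] at h4
        omega
      rw [h3, mul_assoc]
    rw [Finset.sum_congr rfl h2]
    apply Finset.sum_le_sum_of_subset_of_nonneg
    · intro Y hY
      rw [Finset.mem_filter] at hY ⊢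
      exact ⟨hY.1, hP _ hY.2.2⟩
    · intro Y _ _
      exact Finset.prod_nonneg fun b _ => hw0 _
  have hmode := mode hM0 hMS
  rw [← hp] at hmode
  have htr' : (X : ℝ) * (S.choose M : ℝ) = T * ((fits s : Finset (ι → β)).card : ℝ) := by
    have h := congrArg (fun a : ℕ => (a : ℝ)) htr
    simp only [Nat.cast_mul] at h
    exact h
  have hsplit : (1 - p) ^ (D * N - M) = (1 - p) ^ (D * N - S) * (1 - p) ^ (S - M) := by
    rw [← pow_add]
    congr 1
    omega
  have hX0 : (0 : ℝ) ≤ (X : ℝ) * (1 - p) ^ (D * N - S) := by positivity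
  calc (X : ℝ) * (1 - p) ^ (D * N - S) = (X : ℝ) * (1 - p) ^ (D * N - S) * 1 := by ring
    _ ≤ (X : ℝ) * (1 - p) ^ (D * N - S) * (((S : ℝ) + 1) * ((S.choose M : ℝ) * p ^ M * (1 - p) ^ (S - M))) :=
        mul_le_mul_of_nonneg_left hmode hX0
    _ = ((S : ℝ) + 1) * ((X : ℝ) * (S.choose M : ℝ)) * (p ^ M * ((1 - p) ^ (D * N - S) * (1 - p) ^ (S - M))) := by
        ring
    _ = ((S : ℝ) + 1) * ((fits s : Finset (ι → β)).card : ℝ) * (T * (p ^ M * (1 - p) ^ (D * N - M))) := by
        rw [htr', hsplit]; ring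
    _ ≤ ((S : ℝ) + 1) * ((fits s : Finset (ι → β)).card : ℝ) * (2 / (τ : ℝ)) ^ L :=
        mul_le_mul_of_nonneg_left hTw (by positivity)
    _ = _ := by ring

/-! ### numerics -/

theorem one_sub_ge {p : ℝ} (h0 : 0 ≤ p) (h : p ≤ 1 / 2) : Real.exp (-(2 * p)) ≤ 1 - p := by
  rw [Real.exp_neg]
  have h1 : 2 * p + 1 ≤ Real.exp (2 * p) := Real.add_one_le_exp _
  have h2 : 0 < Real.exp (2 * p) := Real.exp_pos _
  rw [inv_le_iff_one_le_mul₀ h2]
  have h3 : (1 - p) * (2 * p + 1) ≤ (1 - p) * Real.exp (2 * p) :=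
    mul_le_mul_of_nonneg_left h1 (by linarith)
  nlinarith

theorem one_sub_pow_ge {p : ℝ} (h0 : 0 ≤ p) (h : p ≤ 1 / 2) (k : ℕ) :
    Real.exp (-(2 * p * k)) ≤ (1 - p) ^ k := by
  have h1 := one_sub_ge h0 h
  calc Real.exp (-(2 * p * k)) = (Real.exp (-(2 * p))) ^ k := by
        rw [← Real.exp_nat_mul]; congr 1; ring
    _ ≤ _ := pow_le_pow_left₀ (Real.exp_pos _).le h1 k

theorem events (CA C' cst : ℝ) (R : ℕ) (hC' : 0 < C') :
    ∀ᶠ n : ℕ in atTop, 1 ≤ (n : ℝ) ∧ 240 * CA + 2 * R + 16 ≤ (n : ℝ) ^ (7 / 24 : ℝ) ∧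
      C' * Real.log n ≤ (n : ℝ) ^ (7 / 24 : ℝ) / 16 ∧ 32 / cst ≤ (n : ℝ) ^ (1 / 6 : ℝ) ∧
      4 ≤ (n : ℝ) ^ (1 / 600 : ℝ) := by
  have t := tendsto_natCast_atTop_atTop (R := ℝ)
  have e1 : ∀ᶠ n : ℕ in atTop, 1 ≤ (n : ℝ) := t.eventually_ge_atTop 1
  have e2 : ∀ᶠ n : ℕ in atTop, 240 * CA + 2 * R + 16 ≤ (n : ℝ) ^ (7 / 24 : ℝ) :=
    ((tendsto_rpow_atTop (by norm_num : (0 : ℝ) < 7 / 24)).comp t).eventually_ge_atTop _
  have e4 : ∀ᶠ n : ℕ in atTop, 32 / cst ≤ (n : ℝ) ^ (1 / 6 : ℝ) :=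
    ((tendsto_rpow_atTop (by norm_num : (0 : ℝ) < 1 / 6)).comp t).eventually_ge_atTop _
  have e5 : ∀ᶠ n : ℕ in atTop, (4 : ℝ) ≤ (n : ℝ) ^ (1 / 600 : ℝ) :=
    ((tendsto_rpow_atTop (by norm_num : (0 : ℝ) < 1 / 600)).comp t).eventually_ge_atTop _
  have e3 : ∀ᶠ n : ℕ in atTop, C' * Real.log n ≤ (n : ℝ) ^ (7 / 24 : ℝ) / 16 := by
    have h := (isLittleO_log_rpow_atTop (by norm_num : (0 : ℝ) < 7 / 24)).def
      (c := 1 / (16 * C')) (by positivity)
    have h' := t.eventually h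
    filter_upwards [h', e1] with n hn hn1
    have h1 : 0 ≤ Real.log n := Real.log_nonneg hn1
    have h2 : 0 ≤ (n : ℝ) ^ (7 / 24 : ℝ) := Real.rpow_nonneg (by linarith) _
    rw [Real.norm_eq_abs, Real.norm_eq_abs, abs_of_nonneg h1, abs_of_nonneg h2] at hn
    calc C' * Real.log n ≤ C' * (1 / (16 * C') * (n : ℝ) ^ (7 / 24 : ℝ)) :=
          mul_le_mul_of_nonneg_left hn hC'.le
      _ = (n : ℝ) ^ (7 / 24 : ℝ) / 16 := by field_simp
  filter_upwards [e1, e2, e3, e4, e5] with n a b c d e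
  exact ⟨a, b, c, d, e⟩

end

end OCC

noncomputable section

open OCC in
theorem OCC_proof : Stmt_OCC := by
  intro CA c C' hCA hc hC'
  obtain ⟨k₀, hk₀⟩ : ∃ k₀ : ℕ, k₀ = ⌈240 * CA⌉₊ + 1 := ⟨_, rfl⟩
  obtain ⟨C2, hC2⟩ : ∃ C2 : ℝ, C2 = 240 * C' * CA := ⟨_, rfl⟩
  obtain ⟨L, hL⟩ : ∃ L : ℕ, L = 25 * (⌈C2⌉₊ + 8) := ⟨_, rfl⟩
  obtain ⟨R, hR⟩ : ∃ R : ℕ, R = k₀ + L := ⟨_, rfl⟩
  have hk₀' : 240 * CA ≤ k₀ := by
    rw [hk₀]
    push_cast
    have := Nat.le_ceil (240 * CA)
    linarith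
  have hk₀1 : 1 ≤ k₀ := by omega
  have hR1 : 1 ≤ R := by omega
  have hR1' : (1 : ℝ) ≤ R := by exact_mod_cast hR1
  have hC20 : 0 < C2 := by rw [hC2]; positivity
  obtain ⟨κ, hκ⟩ : ∃ κ : ℝ, κ = 1 / (24 * (R : ℝ)) := ⟨_, rfl⟩
  have hκ0 : 0 < κ := by rw [hκ]; positivity
  have hκR : κ * R = 1 / 24 := by rw [hκ]; field_simp
  have hκ1 : κ ≤ 1 / 24 := by
    have := mul_le_mul_of_nonneg_left hR1' hκ0.le
    linarith
  obtain ⟨c1, hc1⟩ : ∃ c1 : ℝ, c1 = min 1 (c / 2) := ⟨_, rfl⟩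
  have hc10 : 0 < c1 := by rw [hc1]; exact lt_min one_pos (by linarith)
  have hc11 : c1 ≤ 1 := by rw [hc1]; exact min_le_left _ _
  have hc1c : c1 ≤ c / 2 := by rw [hc1]; exact min_le_right _ _
  obtain ⟨cst, hcst⟩ : ∃ cst : ℝ, cst = c1 ^ R / (R.factorial : ℝ) * Real.exp (-(240 * CA)) := ⟨_, rfl⟩
  have hRf : (0 : ℝ) < R.factorial := by exact_mod_cast Nat.factorial_pos R
  have hcst0 : 0 < cst := by rw [hcst]; positivity
  obtain ⟨n₀, hn₀⟩ := eventually_atTop.mp (events CA C' cst R hC')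
  refine ⟨κ, hκ0, k₀, L, n₀, ?_⟩
  intro n hn d hd1 hd2 ι β _ _ s mk F hβ1 hβ2 hs hι hsum hM1 hM2
  obtain ⟨E1, E2, E3, E4, E5⟩ := hn₀ n hn
  have hn0 : (0 : ℝ) < n := by linarith
  -- the size of `d`
  have hdn : (n : ℝ) ^ (7 / 24 : ℝ) ≤ d := by
    have h1 : ((n : ℝ) ^ (7 / 24 : ℝ)) ^ 3 ≤ (d : ℝ) ^ 3 := by
      refine le_trans ?_ hd1
      rw [← Real.rpow_natCast, ← Real.rpow_mul hn0.le]
      apply Real.rpow_le_rpow_of_exponent_le E1
      push_cast
      linarith
    exact (pow_le_pow_iff_left₀ (by positivity) (by positivity) (by norm_num)).mp h1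
  have hd16 : 240 * CA + 2 * R + 16 ≤ (d : ℝ) := E2.trans hdn
  have hd0 : (0 : ℝ) < d := by linarith
  have hdR : 2 * R + 16 ≤ d := by
    have : (2 * (R : ℝ) + 16) ≤ d := by linarith
    exact_mod_cast this
  obtain ⟨γ, hγ⟩ : ∃ γ : ℝ, γ = (d : ℝ) ^ 3 / n := ⟨_, rfl⟩
  have hγ0 : 0 < γ := by rw [hγ]; positivity
  have hγCA : γ ≤ CA := by
    rw [hγ, div_le_iff₀ hn0]; exact hd2
  have hγκ : (n : ℝ) ^ (-κ) ≤ γ := by
    rw [hγ, le_div_iff₀ hn0]
    calc (n : ℝ) ^ (-κ) * n = (n : ℝ) ^ (-κ) * (n : ℝ) ^ (1 : ℝ) := by rw [Real.rpow_one]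
      _ = (n : ℝ) ^ (1 - κ) := by rw [← Real.rpow_add hn0]; congr 1; ring
      _ ≤ _ := hd1
  have hlam : lam n d = d * γ := by
    rw [hγ, lam]; field_simp
  have hdγ : (d : ℝ) ^ 2 / n * d = γ := by rw [hγ]; field_simp
  have hd2n : (d : ℝ) ^ 2 / n ≤ 1 / 240 := by
    have h1 : (d : ℝ) ^ 2 / n * (240 * CA) ≤ (d : ℝ) ^ 2 / n * d :=
      mul_le_mul_of_nonneg_left (by linarith) (by positivity)
    rw [hdγ] at h1
    have h2 : (d : ℝ) ^ 2 / n * 240 ≤ 1 := by
      have h3 : ((d : ℝ) ^ 2 / n * 240) * CA ≤ 1 * CA := by linarith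
      exact le_of_mul_le_mul_right h3 hCA
    linarith
  have hdnn : (d : ℝ) ^ 2 ≤ n := by
    rw [div_le_iff₀ hn0] at hd2n
    linarith
  -- notation
  obtain ⟨N, hN⟩ : ∃ N : ℕ, N = Fintype.card β := ⟨_, rfl⟩
  obtain ⟨S, hS⟩ : ∃ S : ℕ, S = Fintype.card ι := ⟨_, rfl⟩
  obtain ⟨M, hM⟩ : ∃ M : ℕ, M = mk.card := ⟨_, rfl⟩
  rw [← hN] at hβ1 hβ2
  rw [← hM, hlam] at hM1 hM2
  have hβ1' : (d : ℝ) ≤ 2 * N := by exact_mod_cast hβ1
  have hβ2' : (N : ℝ) ≤ d := by exact_mod_cast hβ2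
  have hN0 : (0 : ℝ) < N := by linarith
  obtain ⟨D, hD⟩ : ∃ D : ℕ, D = d - 1 := ⟨_, rfl⟩
  have hDd : d = D + 1 := by omega
  have hDd' : (d : ℝ) = D + 1 := by exact_mod_cast hDd
  have hsD : ∀ b, s b ≤ D := fun b => by have := hs b; omega
  have hSsum : (S : ℝ) = ∑ b, (s b : ℝ) := by rw [hS, hι]; push_cast; rfl
  have hdef : (D : ℝ) * N - S ≤ C' * d * Real.log n := by
    refine le_trans (le_of_eq ?_) hsum
    rw [Finset.sum_sub_distrib, ← hSsum, Finset.sum_const, Finset.card_univ, ← hN, nsmul_eq_mul, hDd']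
    ring
  have hSD : S ≤ D * N := by
    rw [hS, hι]
    calc ∑ b, s b ≤ ∑ _b : β, D := Finset.sum_le_sum fun b _ => hsD b
      _ = D * N := by rw [Finset.sum_const, Finset.card_univ, smul_eq_mul, mul_comm, hN]
  have hSD' : (S : ℝ) ≤ D * N := by exact_mod_cast hSD
  have hSd2 : (S : ℝ) ≤ (d : ℝ) ^ 2 := by
    have : (D : ℝ) * N ≤ d * d := by
      apply mul_le_mul (by linarith) hβ2' hN0.le hd0.le
    rw [sq]
    linarith
  have hSlow : (d : ℝ) ^ 2 / 4 ≤ S := by
    have h1 : C' * d * Real.log n ≤ d * (d / 16) := by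
      have : C' * Real.log n ≤ d / 16 := by linarith
      calc C' * d * Real.log n = d * (C' * Real.log n) := by ring
        _ ≤ d * (d / 16) := mul_le_mul_of_nonneg_left this hd0.le
    have h2 : (D : ℝ) * (d / 2) ≤ D * N := mul_le_mul_of_nonneg_left (by linarith) (Nat.cast_nonneg D)
    have h3 : (D : ℝ) = d - 1 := by linarith
    rw [h3] at h2 hdef
    have h5 : 16 * (d : ℝ) ≤ d * d := by
      have hR0 : (0 : ℝ) ≤ R := Nat.cast_nonneg R
      exact mul_le_mul_of_nonneg_right (by linarith) hd0.le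
    rw [sq]
    linarith
  have hS0 : (0 : ℝ) < S := by
    have : 0 < (d : ℝ) ^ 2 / 4 := by positivity
    linarith
  have hM0 : (0 : ℝ) < M := by
    have : 0 < c * (d * γ) := by positivity
    linarith
  obtain ⟨p, hp⟩ : ∃ p : ℝ, p = (M : ℝ) / S := ⟨_, rfl⟩
  have hp0 : 0 < p := by rw [hp]; positivity
  have hpup : p ≤ 120 * ((d : ℝ) ^ 2 / n) := by
    rw [hp, div_le_iff₀ hS0]
    have h1 : 120 * ((d : ℝ) ^ 2 / n) * ((d : ℝ) ^ 2 / 4) ≤ 120 * ((d : ℝ) ^ 2 / n) * S :=
      mul_le_mul_of_nonneg_left hSlow (by positivity)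
    have h2 : 120 * ((d : ℝ) ^ 2 / n) * ((d : ℝ) ^ 2 / 4) = 30 * (d * γ) := by
      rw [hγ]; field_simp; ring
    linarith
  have hplow : c * ((d : ℝ) ^ 2 / n) ≤ p := by
    rw [hp, le_div_iff₀ hS0]
    have h1 : c * ((d : ℝ) ^ 2 / n) * S ≤ c * ((d : ℝ) ^ 2 / n) * (d : ℝ) ^ 2 :=
      mul_le_mul_of_nonneg_left hSd2 (by positivity)
    have h2 : c * ((d : ℝ) ^ 2 / n) * (d : ℝ) ^ 2 = c * (d * γ) := by
      rw [hγ]; field_simp
    linarith
  have hp2 : p ≤ 1 / 2 := by linarith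
  have h1p : 0 < 1 - p := by linarith
  have hMS : M < S := by
    have : (M : ℝ) < S := by
      rw [hp, div_le_iff₀ hS0] at hp2
      linarith
    exact_mod_cast this
  have hDp : 2 * (D : ℝ) * p ≤ 240 * CA := by
    have h1 : (D : ℝ) * p ≤ d * (120 * ((d : ℝ) ^ 2 / n)) :=
      mul_le_mul (by linarith) hpup hp0.le hd0.le
    have h2 : (d : ℝ) * (120 * ((d : ℝ) ^ 2 / n)) = 120 * γ := by rw [← hdγ]; ring
    linarith
  -- tau and Nmin
  obtain ⟨τ, hτ⟩ : ∃ τ : ℕ, τ = ⌊(n : ℝ) ^ (1 / 24 : ℝ)⌋₊ := ⟨_, rfl⟩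
  have hx24 : (1 : ℝ) ≤ (n : ℝ) ^ (1 / 24 : ℝ) := Real.one_le_rpow E1 (by norm_num)
  have hτle : (τ : ℝ) ≤ (n : ℝ) ^ (1 / 24 : ℝ) := by
    rw [hτ]; exact Nat.floor_le (by positivity)
  have hτ0 : 0 < τ := by
    rw [hτ]; exact Nat.floor_pos.mpr hx24
  have hτge : (n : ℝ) ^ (1 / 24 : ℝ) / 2 ≤ τ := by
    have h1 : (n : ℝ) ^ (1 / 24 : ℝ) < τ + 1 := by rw [hτ]; exact Nat.lt_floor_add_one _
    have h2 : (1 : ℝ) ≤ τ := by exact_mod_cast hτ0
    linarith
  have hτ0' : (0 : ℝ) < τ := by exact_mod_cast hτ0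
  obtain ⟨Nmin, hNmin⟩ : ∃ Nmin : ℕ, Nmin = N / 2 := ⟨_, rfl⟩
  have hNmin1 : (d : ℝ) / 8 ≤ Nmin := by
    have h1 : N ≤ 2 * Nmin + 1 := by omega
    have h2 : (N : ℝ) ≤ 2 * Nmin + 1 := by exact_mod_cast h1
    have hR0 : (0 : ℝ) ≤ R := Nat.cast_nonneg R
    linarith
  have hNmin2 : Nmin * k₀ + M ≤ N * k₀ := by
    have h1 : 2 * Nmin ≤ N := by omega
    have h1' : 2 * (Nmin : ℝ) ≤ N := by exact_mod_cast h1
    have h2 : (M : ℝ) ≤ 60 * CA * N := by
      have : (d : ℝ) * γ ≤ (2 * N) * CA := mul_le_mul hβ1' hγCA hγ0.le (by positivity)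
      linarith
    have hk00 : (0 : ℝ) < k₀ := by exact_mod_cast hk₀1
    have h3 : (Nmin : ℝ) * k₀ + M ≤ N * k₀ := by
      have h4 : (Nmin : ℝ) * k₀ ≤ (N / 2) * k₀ := mul_le_mul_of_nonneg_right (by linarith) hk00.le
      have h5 : 240 * CA * N ≤ k₀ * N := mul_le_mul_of_nonneg_right hk₀' hN0.le
      linarith
    exact_mod_cast h3
  -- the weights
  have hexpD : Real.exp (-(240 * CA)) ≤ (1 - p) ^ D := by
    refine le_trans ?_ (one_sub_pow_ge hp0.le hp2 D)
    apply Real.exp_le_exp.mpr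
    linarith
  have hw : ∀ k ∈ Ico k₀ (k₀ + L),
      4 * (τ : ℝ) ^ 2 ≤ Nmin * ((D.choose k : ℝ) * p ^ k * (1 - p) ^ (D - k)) := by
    intro k hk
    have hk' := Finset.mem_Ico.mp hk
    have hkR : k ≤ R := by omega
    have h1 : ((d : ℝ) / 2) ^ k ≤ (k.factorial : ℝ) * (D.choose k : ℝ) := by
      have h2 := Nat.pow_le_choose (α := ℝ) k D
      have h3 : (d : ℝ) / 2 ≤ ((D + 1 - k : ℕ) : ℝ) := by
        have h4 : d ≤ 2 * (D + 1 - k) := by omega
        have h5 : (d : ℝ) ≤ 2 * ((D + 1 - k : ℕ) : ℝ) := by exact_mod_cast h4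
        linarith
      have h6 := pow_le_pow_left₀ (by positivity) h3 k
      have hkf : (0 : ℝ) < k.factorial := by exact_mod_cast Nat.factorial_pos k
      rw [div_le_iff₀ hkf] at h2
      linarith
    have hkf : (0 : ℝ) < k.factorial := by exact_mod_cast Nat.factorial_pos k
    have hkfR : (k.factorial : ℝ) ≤ R.factorial := by exact_mod_cast Nat.factorial_le hkR
    have h2 : (c * ((d : ℝ) ^ 2 / n)) ^ k ≤ p ^ k := pow_le_pow_left₀ (by positivity) hplow k
    have h3 : (c / 2 * γ) ^ k ≤ (k.factorial : ℝ) * ((D.choose k : ℝ) * p ^ k) := by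
      have h4 : (c / 2 * γ) ^ k = ((d : ℝ) / 2) ^ k * (c * ((d : ℝ) ^ 2 / n)) ^ k := by
        rw [← mul_pow]
        congr 1
        rw [← hdγ]; ring
      rw [h4]
      calc ((d : ℝ) / 2) ^ k * (c * ((d : ℝ) ^ 2 / n)) ^ k
          ≤ ((k.factorial : ℝ) * (D.choose k : ℝ)) * p ^ k := mul_le_mul h1 h2 (by positivity) (by positivity)
        _ = _ := by ring
    have hnκ : (n : ℝ) ^ (-κ) ≤ 1 := by
      apply Real.rpow_le_one_of_one_le_of_nonpos E1
      linarith
    have hnκ0 : 0 < (n : ℝ) ^ (-κ) := Real.rpow_pos_of_pos hn0 _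
    have h4 : (c1 * (n : ℝ) ^ (-κ)) ^ R ≤ (c / 2 * γ) ^ k := by
      calc (c1 * (n : ℝ) ^ (-κ)) ^ R ≤ (c1 * (n : ℝ) ^ (-κ)) ^ k := by
            apply pow_le_pow_of_le_one (by positivity) _ hkR
            calc c1 * (n : ℝ) ^ (-κ) ≤ 1 * 1 := mul_le_mul hc11 hnκ hnκ0.le (by norm_num)
              _ = 1 := by norm_num
        _ ≤ (c / 2 * γ) ^ k := by
            apply pow_le_pow_left₀ (by positivity)
            exact mul_le_mul hc1c hγκ hnκ0.le (by linarith)
    have h5 : (c1 * (n : ℝ) ^ (-κ)) ^ R = c1 ^ R * (n : ℝ) ^ (-(1 / 24) : ℝ) := by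
      rw [mul_pow]
      congr 1
      rw [← Real.rpow_natCast, ← Real.rpow_mul hn0.le]
      congr 1
      linarith
    rw [h5] at h4
    have h6 : c1 ^ R / (R.factorial : ℝ) * (n : ℝ) ^ (-(1 / 24) : ℝ) ≤ (D.choose k : ℝ) * p ^ k := by
      rw [div_mul_eq_mul_div, div_le_iff₀ hRf]
      have : (k.factorial : ℝ) * ((D.choose k : ℝ) * p ^ k) ≤ R.factorial * ((D.choose k : ℝ) * p ^ k) :=
        mul_le_mul_of_nonneg_right hkfR (by positivity)
      linarith
    have h7 : Real.exp (-(240 * CA)) ≤ (1 - p) ^ (D - k) :=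
      hexpD.trans (pow_le_pow_of_le_one h1p.le (by linarith) (Nat.sub_le _ _))
    have h8 : cst * (n : ℝ) ^ (-(1 / 24) : ℝ) ≤ (D.choose k : ℝ) * p ^ k * (1 - p) ^ (D - k) := by
      calc cst * (n : ℝ) ^ (-(1 / 24) : ℝ)
          = (c1 ^ R / (R.factorial : ℝ) * (n : ℝ) ^ (-(1 / 24) : ℝ)) * Real.exp (-(240 * CA)) := by
            rw [hcst]; ring
        _ ≤ _ := mul_le_mul h6 h7 (Real.exp_pos _).le (by positivity)
    have h9 : (n : ℝ) ^ (7 / 24 : ℝ) / 8 * (cst * (n : ℝ) ^ (-(1 / 24) : ℝ))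
        ≤ Nmin * ((D.choose k : ℝ) * p ^ k * (1 - p) ^ (D - k)) :=
      mul_le_mul (by linarith) h8 (by positivity) (by positivity)
    refine le_trans ?_ h9
    have h10 : (n : ℝ) ^ (7 / 24 : ℝ) / 8 * (cst * (n : ℝ) ^ (-(1 / 24) : ℝ))
        = cst / 8 * ((n : ℝ) ^ (1 / 6 : ℝ) * (n : ℝ) ^ (1 / 12 : ℝ)) := by
      rw [← Real.rpow_add hn0]
      have : (n : ℝ) ^ (1 / 6 + 1 / 12 : ℝ) = (n : ℝ) ^ (7 / 24 : ℝ) * (n : ℝ) ^ (-(1 / 24) : ℝ) := by
        rw [← Real.rpow_add hn0]; congr 1; norm_num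
      rw [this]; ring
    rw [h10]
    have h11 : (τ : ℝ) ^ 2 ≤ (n : ℝ) ^ (1 / 12 : ℝ) := by
      have e : (n : ℝ) ^ (1 / 12 : ℝ) = ((n : ℝ) ^ (1 / 24 : ℝ)) ^ 2 := by
        rw [← Real.rpow_natCast, ← Real.rpow_mul hn0.le]
        congr 1; norm_num
      rw [e]
      exact pow_le_pow_left₀ hτ0'.le hτle 2
    have h12 : 4 ≤ cst / 8 * (n : ℝ) ^ (1 / 6 : ℝ) := by
      rw [div_le_iff₀ hcst0] at E4
      linarith
    have h13 : 4 * (n : ℝ) ^ (1 / 12 : ℝ) ≤ (cst / 8 * (n : ℝ) ^ (1 / 6 : ℝ)) * (n : ℝ) ^ (1 / 12 : ℝ) :=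
      mul_le_mul_of_nonneg_right h12 (by positivity)
    calc 4 * (τ : ℝ) ^ 2 ≤ 4 * (n : ℝ) ^ (1 / 12 : ℝ) := by linarith
      _ ≤ _ := h13
      _ = _ := by ring
  have hb := bound s mk F D k₀ L τ Nmin p hsD hι (by rw [← hM]; exact_mod_cast hM0)
    (by rw [← hM, ← hS]; exact hMS) (by rw [hp, hM, hS]) hp2 hτ0 hk₀1 (by omega)
    (by rw [← hM, ← hN]; exact hNmin2) (hDp.trans hk₀') hw
    (fun Y => ∀ k ∈ Finset.Ico k₀ (k₀ + L), (univ.filter fun b => Y b = k).card = F k) (fun Y hY => hY)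
  rw [← hN, ← hS] at hb
  obtain ⟨X, hX⟩ : ∃ X : ℝ, X = ((((fits s : Finset (ι → β)).filter fun π => ∀ k ∈ Finset.Ico k₀ (k₀ + L),
          (univ.filter fun b => (mk.filter fun i => π i = b).card = k).card = F k).card : ℕ) : ℝ) := ⟨_, rfl⟩
  have hb' : X * (1 - p) ^ (D * N - S) ≤ (2 / τ) ^ L * ((S : ℝ) + 1) * (fits s : Finset (ι → β)).card := by
    refine le_trans (le_of_eq ?_) hb
    rw [hX]
    congr
  rw [← hX]
  have hX0 : 0 ≤ X := by rw [hX]; exact Nat.cast_nonneg _
  obtain ⟨Φ, hΦ⟩ : ∃ Φ : ℝ, Φ = ((fits s : Finset (ι → β)).card : ℝ) := ⟨_, rfl⟩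
  rw [← hΦ] at hb' ⊢
  have hΦ0 : 0 ≤ Φ := by rw [hΦ]; exact Nat.cast_nonneg _
  -- lower bound for the power
  have hpow : (n : ℝ) ^ (-C2) ≤ (1 - p) ^ (D * N - S) := by
    refine le_trans ?_ (one_sub_pow_ge hp0.le hp2 (D * N - S))
    rw [Real.rpow_def_of_pos hn0]
    apply Real.exp_le_exp.mpr
    push_cast [Nat.cast_sub hSD]
    have hlog : 0 ≤ Real.log n := Real.log_nonneg E1
    have h1 : 2 * p * ((D : ℝ) * N - S) ≤ 2 * (120 * ((d : ℝ) ^ 2 / n)) * (C' * d * Real.log n) :=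
      mul_le_mul (by linarith) hdef (by linarith) (by positivity)
    have h2 : 2 * (120 * ((d : ℝ) ^ 2 / n)) * (C' * d * Real.log n) = 240 * C' * γ * Real.log n := by
      rw [← hdγ]; ring
    have h3 : 240 * C' * γ * Real.log n ≤ 240 * C' * CA * Real.log n := by
      apply mul_le_mul_of_nonneg_right _ hlog
      apply mul_le_mul_of_nonneg_left hγCA (by positivity)
    have h4 : Real.log n * -C2 = -(240 * C' * CA * Real.log n) := by rw [hC2]; ring
    rw [h4]
    linarith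
  have h2τ : 2 / (τ : ℝ) ≤ (n : ℝ) ^ (-(1 / 25) : ℝ) := by
    rw [div_le_iff₀ hτ0']
    have h1 : (n : ℝ) ^ (-(1 / 25) : ℝ) * ((n : ℝ) ^ (1 / 24 : ℝ) / 2) ≤ (n : ℝ) ^ (-(1 / 25) : ℝ) * τ :=
      mul_le_mul_of_nonneg_left hτge (by positivity)
    have h2 : (n : ℝ) ^ (-(1 / 25) : ℝ) * ((n : ℝ) ^ (1 / 24 : ℝ) / 2) = (n : ℝ) ^ (1 / 600 : ℝ) / 2 := by
      rw [← mul_div_assoc, ← Real.rpow_add hn0]
      congr 2
      norm_num
    linarith
  have h2τL : (2 / (τ : ℝ)) ^ L ≤ (n : ℝ) ^ (-(C2 + 8)) := by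
    calc (2 / (τ : ℝ)) ^ L ≤ ((n : ℝ) ^ (-(1 / 25) : ℝ)) ^ L := pow_le_pow_left₀ (by positivity) h2τ L
      _ = (n : ℝ) ^ (-(1 / 25) * (L : ℝ) : ℝ) := by rw [← Real.rpow_natCast, ← Real.rpow_mul hn0.le]
      _ ≤ (n : ℝ) ^ (-(C2 + 8)) := by
          apply Real.rpow_le_rpow_of_exponent_le E1
          rw [hL]
          push_cast
          have := Nat.le_ceil C2
          linarith
  have hS1 : (S : ℝ) + 1 ≤ (n : ℝ) ^ (2 : ℝ) := by
    have h1 : (n : ℝ) ^ (2 : ℝ) = (n : ℝ) ^ 2 := by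
      rw [← Real.rpow_natCast]; norm_num
    rw [h1]
    have h16 : (16 : ℝ) ≤ n := by
      have hR0 : (0 : ℝ) ≤ R := Nat.cast_nonneg R
      have hd16' : (16 : ℝ) ≤ d := by linarith
      have h2 : (16 : ℝ) * 16 ≤ d * d := mul_le_mul hd16' hd16' (by norm_num) hd0.le
      rw [sq] at hdnn
      linarith
    have h3 : (16 : ℝ) * n ≤ n * n := mul_le_mul_of_nonneg_right h16 hn0.le
    rw [sq (n : ℝ)]
    linarith
  have hfin : X * (n : ℝ) ^ (-C2) ≤ ((n : ℝ) ^ (-(C2 + 8)) * (n : ℝ) ^ (2 : ℝ)) * Φ := by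
    calc X * (n : ℝ) ^ (-C2) ≤ X * (1 - p) ^ (D * N - S) := mul_le_mul_of_nonneg_left hpow hX0
      _ ≤ (2 / τ) ^ L * ((S : ℝ) + 1) * Φ := hb'
      _ ≤ _ := by
          apply mul_le_mul_of_nonneg_right _ hΦ0
          exact mul_le_mul h2τL hS1 (by positivity) (by positivity)
  have hnC : 0 < (n : ℝ) ^ (-C2) := Real.rpow_pos_of_pos hn0 _
  have e1 : (n : ℝ) ^ (-(C2 + 8)) * (n : ℝ) ^ (2 : ℝ) = (n : ℝ) ^ (-6 : ℝ) * (n : ℝ) ^ (-C2) := by
    rw [← Real.rpow_add hn0, ← Real.rpow_add hn0]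
    congr 1
    ring
  rw [e1] at hfin
  have h6 : X ≤ (n : ℝ) ^ (-6 : ℝ) * Φ := by
    have : X * (n : ℝ) ^ (-C2) ≤ ((n : ℝ) ^ (-6 : ℝ) * Φ) * (n : ℝ) ^ (-C2) := by linarith
    exact le_of_mul_le_mul_right this hnC
  refine h6.trans ?_
  apply mul_le_mul_of_nonneg_right _ hΦ0
  apply Real.rpow_le_rpow_of_exponent_le E1
  norm_num

end

end Pool.Agent.RRG
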