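import Pool.Agent.RRG.CFin

/-!
# Module PH1 (MP_d15a9b_pr): Phase 1 from PH1a and PH1b
-/

open Finset Filter Topology
open scoped Classical

namespace Pool.Agent.RRG

namespace PH1M

theorem wt_nonneg {α : Type} {s : ℝ} (h0 : 0 ≤ s) (h1 : s ≤ 1) (U A : Finset α) : 0 ≤ wt s U A := by
  unfold wt
  have : 0 ≤ 1 - s := by linarith
  positivity

theorem wt_sum {α : Type} (s : ℝ) (U : Finset α) : ∑ A ∈ U.powerset, wt s U A = 1 := by
  have := Finset.sum_pow_mul_eq_add_pow s (1 - s) U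
  unfold wt
  rw [this]
  simp

end PH1M

open PH1M

theorem PH1_proof (hCod : Stmt_Codeg) (h2 : Stmt_T2) (h3 : Stmt_T3) (h4 : Stmt_T4) (ha : Stmt_PH1a)
    (hb : Stmt_PH1b) : Stmt_PH1 := by
  intro ε ε₀ hε hε₀
  obtain ⟨K1, w1⟩ := hCod (1 / 6) (by norm_num)
  obtain ⟨K2, w2⟩ := h2 ε₀ hε₀
  obtain ⟨c₁, c₂, hc₁, hc₂, w3⟩ := h3 ε ε₀ hε hε₀
  obtain ⟨c₄, hc₄, w4⟩ := h4 ε ε₀ hε hε₀
  set K := max K1 K2 with hK
  set δ₁ : ℝ := min (1 / 100) (min (c₄ / 16) (ε / 16)) with hδ₁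
  have hδ₁p : 0 < δ₁ := lt_min (by norm_num) (lt_min (by positivity) (by positivity))
  have hδ₁a : δ₁ ≤ 1 / 100 := min_le_left _ _
  have hδ₁b : 16 * δ₁ ≤ c₄ := by
    have : δ₁ ≤ c₄ / 16 := (min_le_right _ _).trans (min_le_left _ _)
    linarith
  have hδ₁c : 16 * δ₁ ≤ ε := by
    have : δ₁ ≤ ε / 16 := (min_le_right _ _).trans (min_le_right _ _)
    linarith
  refine ⟨δ₁ / 4, by positivity, ?_⟩
  set δ := δ₁ / 4 with hδ
  have w1' : Whp (RegC ε ε₀) (fun _ _ G => T1 K1 G) :=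
    w1.mono ⟨1, fun n hn d hd => CFin.RegC_le hε₀ hn hd⟩ ⟨0, fun _ _ _ _ _ _ h => h⟩
  have w2' : Whp (RegC ε ε₀) (fun _ _ G => T2 K2 G) :=
    w2.mono ⟨0, fun n _ d hd => hd.2⟩ ⟨0, fun _ _ _ _ _ _ h => h⟩
  have W := (w1'.and w2').and (w3.and w4)
  intro η hη
  obtain ⟨n₁, W'⟩ := W (η / 2) (by linarith)
  obtain ⟨n₂, ha'⟩ := ha ε ε₀ c₁ c₂ c₄ δ₁ K hε hε₀ hc₁ hc₂ hc₄ hδ₁p hδ₁b hδ₁c
  obtain ⟨n₃, hb'⟩ := hb ε ε₀ c₄ δ δ₁ hε hε₀ hc₄ (by positivity) (by rw [hδ]; linarith) hδ₁a (η / 4)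
    (by linarith)
  refine ⟨max 1 (max n₁ (max n₂ n₃)), fun n hn d hd => ?_⟩
  have hn0 : 1 ≤ n := le_trans (le_max_left _ _) hn
  have hn1 : n₁ ≤ n := le_trans (le_trans (le_max_left _ _) (le_max_right _ _)) hn
  have hn2 : n₂ ≤ n := le_trans (le_trans (le_trans (le_max_left _ _) (le_max_right _ _)) (le_max_right _ _)) hn
  have hn3 : n₃ ≤ n := le_trans (le_trans (le_trans (le_max_right _ _) (le_max_right _ _)) (le_max_right _ _)) hn
  have hn' : (1 : ℝ) ≤ n := by exact_mod_cast hn0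
  -- the density
  set s : ℝ := (n : ℝ) ^ (-δ₁) with hs
  have hs0 : 0 ≤ s := by positivity
  have hs1 : s ≤ 1 := Real.rpow_le_one_of_one_le_of_nonpos hn' (by linarith)
  set U : Finset (Sym2 (Fin n)) := (univ : Finset (Sym2 (Fin n))).filter fun e => ¬ e.IsDiag with hU
  -- the exceptional set
  set typ : Gr n → Prop := fun G => (T1 K1 G ∧ T2 K2 G) ∧ T3 c₁ c₂ n d G ∧ T4 ((n : ℝ) ^ (-c₄) * lam n d) G
    with htyp
  set B := (Reg n d).filter fun G => typ G ∧ ¬ PH1 δ n d G with hB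
  have key : ∀ G ∈ B, 1 / 2 ≤ ∑ Ω ∈ U.powerset, wt s U Ω *
      (if T4 ((n : ℝ) ^ (-c₄) * lam n d) G ∧
        ∃ (H : Gr n) (σ : Fin n → Equiv.Perm (Fin n)), IsPartner G H σ ∧
          (n : ℝ) ^ (1 - 3 * δ) * d < Mch H σ ∧
          GoodΩ d s ((n : ℝ) ^ (-c₄) * lam n d) G H σ Ω then 1 else 0) := by
    intro G hG
    rw [hB, mem_filter] at hG
    obtain ⟨hGr, ⟨⟨t1, t2⟩, t3, t4⟩, hP⟩ := hG
    unfold PH1 at hP
    push Not at hP
    obtain ⟨H, σ, hpart, hM⟩ := hP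
    refine (ha' n hn2 d hd G H σ hGr hpart (CFin.T1_mono (le_max_left _ _) t1)
      (CFin.T2_mono (le_max_right _ _) t2) t3).trans ?_
    refine sum_le_sum fun Ω _ => ?_
    refine mul_le_mul_of_nonneg_left ?_ (wt_nonneg hs0 hs1 U Ω)
    by_cases hg : GoodΩ d s ((n : ℝ) ^ (-c₄) * lam n d) G H σ Ω
    · rw [if_pos hg, if_pos ⟨t4, H, σ, hpart, hM, hg⟩]
    · rw [if_neg hg]
      split_ifs <;> norm_num
  have hBc : (B.card : ℝ) ≤ η / 2 * (Reg n d).card := by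
    have h1 : (B.card : ℝ) * (1 / 2) ≤ ∑ G ∈ B, ∑ Ω ∈ U.powerset, wt s U Ω *
      (if T4 ((n : ℝ) ^ (-c₄) * lam n d) G ∧
        ∃ (H : Gr n) (σ : Fin n → Equiv.Perm (Fin n)), IsPartner G H σ ∧
          (n : ℝ) ^ (1 - 3 * δ) * d < Mch H σ ∧
          GoodΩ d s ((n : ℝ) ^ (-c₄) * lam n d) G H σ Ω then 1 else 0) := by
      rw [← nsmul_eq_mul, ← sum_const]
      exact sum_le_sum key
    rw [sum_comm] at h1
    have h2 : ∀ Ω ∈ U.powerset, ∑ G ∈ B, wt s U Ω *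
      (if T4 ((n : ℝ) ^ (-c₄) * lam n d) G ∧
        ∃ (H : Gr n) (σ : Fin n → Equiv.Perm (Fin n)), IsPartner G H σ ∧
          (n : ℝ) ^ (1 - 3 * δ) * d < Mch H σ ∧
          GoodΩ d s ((n : ℝ) ^ (-c₄) * lam n d) G H σ Ω then (1 : ℝ) else 0)
        ≤ wt s U Ω * (η / 4 * (Reg n d).card) := by
      intro Ω _
      rw [← mul_sum]
      refine mul_le_mul_of_nonneg_left ?_ (wt_nonneg hs0 hs1 U Ω)
      rw [← sum_filter, sum_const, nsmul_eq_mul, mul_one]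
      refine le_trans ?_ (hb' n hn3 d hd Ω)
      refine Nat.cast_le.2 (card_le_card ?_)
      intro G hG
      simp only [hB, mem_filter] at hG ⊢
      exact ⟨hG.1.1, hG.2⟩
    have h3 := h1.trans (sum_le_sum h2)
    rw [← sum_mul, wt_sum, one_mul] at h3
    linarith
  have hall : (((Reg n d).filter fun G => ¬ PH1 δ n d G).card : ℝ) ≤
      (((Reg n d).filter fun G => ¬ typ G).card : ℝ) + B.card := by
    rw [← Nat.cast_add]
    refine Nat.cast_le.2 ((card_le_card ?_).trans (card_union_le _ _))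
    intro G hG
    rw [mem_filter] at hG
    rw [mem_union]
    by_cases ht : typ G
    · exact Or.inr (by rw [hB, mem_filter]; exact ⟨hG.1, ht, hG.2⟩)
    · exact Or.inl (by rw [mem_filter]; exact ⟨hG.1, ht⟩)
  refine hall.trans ?_
  have hW : (((Reg n d).filter fun G => ¬ typ G).card : ℝ) ≤ η / 2 * ((Reg n d).card : ℝ) := by
    convert W' n hn1 d hd
  linarith

end Pool.Agent.RRG
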