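import Pool.Agent.RRG.Basic

/-!
# PH1B: the compression step of Phase 1 (MP_d15a9b_pr)
-/

open Finset Filter Topology
open scoped Classical

namespace Pool.Agent.RRG.PH1B

open Pool.Agent.RRG

noncomputable section

/-! ### 1. abstract lemmas -/

/-- pairwise disjoint -/
def PD {α β : Type} (C : α → Finset β) (S : Finset α) : Prop :=
  ∀ x ∈ S, ∀ y ∈ S, x ≠ y → Disjoint (C x) (C y)

/-- greedy choice of pairwise disjoint sets -/
theorem greedy {α β : Type} [DecidableEq α] [DecidableEq β] (L : Finset α) (C : α → Finset β)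
    (k r : ℕ)
    (hk : ∀ e ∈ L, (C e).card ≤ k) (h0 : ∀ e ∈ L, (C e).Nonempty)
    (hdeg : ∀ b, (L.filter fun e => b ∈ C e).card ≤ r) :
    ∃ S ⊆ L, (∀ x ∈ S, ∀ y ∈ S, x ≠ y → Disjoint (C x) (C y)) ∧ L.card ≤ k * r * S.card := by
  set P := L.powerset.filter (fun S => PD C S) with hP
  have hne : P.Nonempty := ⟨∅, by
    rw [hP, mem_filter]
    exact ⟨empty_mem_powerset _, fun x hx => absurd hx (notMem_empty x)⟩⟩
  obtain ⟨S, hS, hmax⟩ := Finset.exists_max_image P (fun S => S.card) hne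
  rw [hP, mem_filter, mem_powerset] at hS
  refine ⟨S, hS.1, hS.2, ?_⟩
  have hcov : L ⊆ S.biUnion (fun x => (C x).biUnion (fun b => L.filter fun e => b ∈ C e)) := by
    intro e he
    by_contra hcon
    have hdis : ∀ x ∈ S, Disjoint (C x) (C e) := by
      intro x hx
      rw [Finset.disjoint_left]
      intro b hb hb'
      apply hcon
      simp only [mem_biUnion, mem_filter]
      exact ⟨x, hx, b, hb, he, hb'⟩
    have heS : e ∉ S := by
      intro heS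
      have h1 := hdis e heS
      rw [Finset.disjoint_self_iff_empty] at h1
      obtain ⟨b, hb⟩ := h0 e he
      rw [h1] at hb
      exact absurd hb (Finset.notMem_empty b)
    have hmem : insert e S ∈ P := by
      rw [hP, mem_filter, mem_powerset]
      refine ⟨insert_subset he hS.1, ?_⟩
      intro x hx y hy hxy
      rw [mem_insert] at hx hy
      rcases hx with rfl | hx
      · rcases hy with rfl | hy
        · exact absurd rfl hxy
        · exact (hdis y hy).symm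
      · rcases hy with rfl | hy
        · exact hdis x hx
        · exact hS.2 x hx y hy hxy
    have := hmax _ hmem
    rw [card_insert_of_notMem heS] at this
    omega
  calc L.card ≤ _ := card_le_card hcov
    _ ≤ ∑ x ∈ S, ((C x).biUnion (fun b => L.filter fun e => b ∈ C e)).card := card_biUnion_le
    _ ≤ ∑ x ∈ S, k * r := by
        refine sum_le_sum fun x hx => ?_
        calc _ ≤ ∑ b ∈ C x, (L.filter fun e => b ∈ C e).card := card_biUnion_le
          _ ≤ ∑ b ∈ C x, r := sum_le_sum fun b _ => hdeg b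
          _ = (C x).card * r := by rw [sum_const, smul_eq_mul]
          _ ≤ k * r := Nat.mul_le_mul_right r (hk x (hS.1 hx))
    _ = k * r * S.card := by rw [sum_const, smul_eq_mul, mul_comm]

/-- the number of sets with at most `m` elements -/
theorem card_small {α : Type} [Fintype α] (m : ℕ) :
    ((univ : Finset (Finset α)).filter fun T => T.card ≤ m).card ≤ (Fintype.card α + 1) ^ m := by
  have hsurj : ((univ : Finset (Finset α)).filter fun T => T.card ≤ m) ⊆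
      (univ : Finset (Fin m → Option α)).image
        (fun f => univ.filter fun a : α => ∃ i, f i = some a) := by
    intro T hT
    simp only [mem_filter, mem_univ, true_and] at hT
    simp only [mem_image, mem_univ, true_and]
    let e := T.equivFin
    refine ⟨fun i => if h : (i : ℕ) < T.card then some (e.symm ⟨i, h⟩ : α) else none, ?_⟩
    ext a
    simp only [mem_filter, mem_univ, true_and]
    constructor
    · rintro ⟨i, hi⟩
      by_cases h : (i : ℕ) < T.card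
      · rw [dif_pos h] at hi
        have := (e.symm ⟨i, h⟩).2
        rw [Option.some.injEq] at hi
        rwa [hi] at this
      · rw [dif_neg h] at hi
        exact absurd hi (by simp)
    · intro ha
      have hlt : ((e ⟨a, ha⟩ : Fin T.card) : ℕ) < T.card := (e ⟨a, ha⟩).2
      refine ⟨⟨(e ⟨a, ha⟩ : ℕ), lt_of_lt_of_le hlt hT⟩, ?_⟩
      simp
  calc _ ≤ _ := card_le_card hsurj
    _ ≤ (univ : Finset (Fin m → Option α)).card := card_image_le
    _ = (Fintype.card α + 1) ^ m := by simp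

/-- bound for binomial coefficients -/
theorem choose_bound (N s : ℕ) : ((N.choose s : ℕ) : ℝ) * (s : ℝ) ^ s ≤ (3 * (N : ℝ)) ^ s := by
  have h1 : ((N.choose s : ℕ) : ℝ) ≤ (N : ℝ) ^ s / (s.factorial : ℝ) := Nat.choose_le_pow_div s N
  have h2 : ((s : ℝ)) ^ s / (s.factorial : ℝ) ≤ Real.exp s :=
    Real.pow_div_factorial_le_exp (s : ℝ) (Nat.cast_nonneg s) s
  have hf : (0 : ℝ) < (s.factorial : ℝ) := by exact_mod_cast s.factorial_pos
  have h3 : Real.exp s ≤ 3 ^ s := by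
    have : Real.exp (s : ℝ) = Real.exp 1 ^ s := by rw [← Real.exp_nat_mul, mul_one]
    rw [this]
    exact pow_le_pow_left₀ (Real.exp_pos _).le (by linarith [Real.exp_one_lt_d9]) s
  calc ((N.choose s : ℕ) : ℝ) * (s : ℝ) ^ s ≤ (N : ℝ) ^ s / (s.factorial : ℝ) * (s : ℝ) ^ s := by
        gcongr
    _ = (N : ℝ) ^ s * ((s : ℝ) ^ s / (s.factorial : ℝ)) := by ring
    _ ≤ (N : ℝ) ^ s * 3 ^ s := by
        gcongr
        exact h2.trans h3
    _ = (3 * (N : ℝ)) ^ s := by rw [mul_pow]; ring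

/-! ### 2. certificates -/

variable {n : ℕ}

/-- the restriction of `G` to the pairs in `g` -/
def decG (g : Finset (Sym2 (Fin n))) : Gr n := SimpleGraph.fromEdgeSet (g : Set (Sym2 (Fin n)))

def decH (T : Finset (Fin n × Fin n × Fin n)) : Gr n :=
  SimpleGraph.fromRel fun x y => ∃ c, (x, y, c) ∈ T

def decτ (T : Finset (Fin n × Fin n × Fin n)) (v z : Fin n) : Fin n :=
  if h : ∃ c, (v, z, c) ∈ T then h.choose else v

def hitsD (g : Finset (Sym2 (Fin n))) (T : Finset (Fin n × Fin n × Fin n)) (v w u' : Fin n) : ℕ :=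
  (univ.filter fun z : Fin n => (decH T).Adj v z ∧ z ≠ w ∧ J3 (decH T) v w z ∧
    J3 (decG g) v u' (decτ T v z)).card

def dec (h₀ : ℝ) (g : Finset (Sym2 (Fin n))) (T : Finset (Fin n × Fin n × Fin n))
    (v w : Fin n) : Fin n :=
  if h : ∃ u', u' ≠ v ∧ h₀ < (hitsD g T v w u' : ℝ) then h.choose else v

/-- labelled pairs -/
abbrev Lab (n : ℕ) : Type := Fin n × Fin n × Bool × Bool × Bool

def E1 (h₀ : ℝ) (g : Finset (Sym2 (Fin n))) (T : Finset (Fin n × Fin n × Fin n)) (q : Lab n) :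
    Finset (Sym2 (Fin n)) :=
  (if q.2.2.1 then {s(q.1, q.2.1)} else ∅) ∪
    ((if q.2.2.2.1 then {s(q.1, dec h₀ g T q.1 q.2.1)} else ∅) ∪
      (if q.2.2.2.2 then {s(q.2.1, dec h₀ g T q.2.1 q.1)} else ∅))

def E0 (h₀ : ℝ) (g : Finset (Sym2 (Fin n))) (T : Finset (Fin n × Fin n × Fin n))
    (Q : Finset (Lab n)) : Finset (Sym2 (Fin n)) := Q.biUnion (E1 h₀ g T)

/-- the true table -/
def Tset (Ω : Finset (Sym2 (Fin n))) (H : Gr n) (σ : Fin n → Equiv.Perm (Fin n)) :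
    Finset (Fin n × Fin n × Fin n) :=
  univ.filter fun t => H.Adj t.1 t.2.1 ∧ s(t.1, t.2.1) ∈ Ω ∧ (σ t.1).symm t.2.1 = t.2.2

theorem mem_Tset {Ω : Finset (Sym2 (Fin n))} {H : Gr n} {σ : Fin n → Equiv.Perm (Fin n)}
    {v z c : Fin n} : (v, z, c) ∈ Tset Ω H σ ↔ H.Adj v z ∧ s(v, z) ∈ Ω ∧ (σ v).symm z = c := by
  simp [Tset]

theorem card_Tset (Ω : Finset (Sym2 (Fin n))) (H : Gr n) (σ : Fin n → Equiv.Perm (Fin n)) :
    (Tset Ω H σ).card ≤ 2 * (ed H ∩ Ω).card := by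
  apply Finset.card_le_mul_card_image_of_maps_to (f := fun t => s(t.1, t.2.1))
  · rintro ⟨v, z, c⟩ ht
    rw [mem_Tset] at ht
    simp only [mem_inter]
    exact ⟨mk_mem_ed.2 ht.1, ht.2.1⟩
  · intro b _
    induction b using Sym2.ind with
    | _ x y =>
      have : ((Tset Ω H σ).filter fun t => s(t.1, t.2.1) = s(x, y)) ⊆
          {(x, y, (σ x).symm y), (y, x, (σ y).symm x)} := by
        rintro ⟨v, z, c⟩ ht
        rw [mem_filter, mem_Tset] at ht
        obtain ⟨⟨-, -, hc⟩, he⟩ := ht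
        simp only [Sym2.eq_iff] at he
        simp only [mem_insert, mem_singleton, Prod.mk.injEq]
        rcases he with ⟨rfl, rfl⟩ | ⟨rfl, rfl⟩
        · left; exact ⟨rfl, rfl, hc.symm⟩
        · right; exact ⟨rfl, rfl, hc.symm⟩
      exact (card_le_card this).trans card_le_two

theorem decH_adj {Ω : Finset (Sym2 (Fin n))} {H : Gr n} {σ : Fin n → Equiv.Perm (Fin n)}
    (x y : Fin n) : (decH (Tset Ω H σ)).Adj x y ↔ H.Adj x y ∧ s(x, y) ∈ Ω := by
  unfold decH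
  rw [SimpleGraph.fromRel_adj]
  simp only [mem_Tset]
  constructor
  · rintro ⟨-, ⟨c, h1, h2, -⟩ | ⟨c, h1, h2, -⟩⟩
    · exact ⟨h1, h2⟩
    · exact ⟨h1.symm, by rwa [Sym2.eq_swap]⟩
  · rintro ⟨h1, h2⟩
    exact ⟨h1.ne, Or.inl ⟨_, h1, h2, rfl⟩⟩

theorem decG_adj {Ω : Finset (Sym2 (Fin n))} {G : Gr n} (x y : Fin n) :
    (decG (ed G ∩ Ω)).Adj x y ↔ G.Adj x y ∧ s(x, y) ∈ Ω := by
  unfold decG
  rw [SimpleGraph.fromEdgeSet_adj]
  simp only [coe_inter, Set.mem_inter_iff, mem_coe, mk_mem_ed]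
  constructor
  · rintro ⟨h, -⟩; exact h
  · intro h; exact ⟨h, h.1.ne⟩

theorem decτ_eq {Ω : Finset (Sym2 (Fin n))} {H : Gr n} {σ : Fin n → Equiv.Perm (Fin n)}
    (v z : Fin n) (h : H.Adj v z) (h' : s(v, z) ∈ Ω) :
    decτ (Tset Ω H σ) v z = (σ v).symm z := by
  unfold decτ
  have hex : ∃ c, (v, z, c) ∈ Tset Ω H σ := ⟨_, mem_Tset.2 ⟨h, h', rfl⟩⟩
  rw [dif_pos hex]
  exact (mem_Tset.1 hex.choose_spec).2.2.symm

theorem J3H_iff {Ω : Finset (Sym2 (Fin n))} {H : Gr n} {σ : Fin n → Equiv.Perm (Fin n)}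
    (v x z : Fin n) : J3 (decH (Tset Ω H σ)) v x z ↔ J3Ω Ω H v x z := by
  unfold J3 J3Ω P3
  simp only [decH_adj]
  constructor
  · rintro ⟨a, b, ⟨⟨h1, h2⟩, ⟨h3, h4⟩, ⟨h5, h6⟩, h7, h8, h9⟩, h10, h11⟩
    exact ⟨a, b, ⟨h1, h3, h5, h7, h8, h9⟩, h10, h11, h2, h4, h6⟩
  · rintro ⟨a, b, ⟨h1, h3, h5, h7, h8, h9⟩, h10, h11, h2, h4, h6⟩
    exact ⟨a, b, ⟨⟨h1, h2⟩, ⟨h3, h4⟩, ⟨h5, h6⟩, h7, h8, h9⟩, h10, h11⟩

theorem J3G_iff {Ω : Finset (Sym2 (Fin n))} {G : Gr n}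
    (v x z : Fin n) : J3 (decG (ed G ∩ Ω)) v x z ↔ J3Ω Ω G v x z := by
  unfold J3 J3Ω P3
  simp only [decG_adj]
  constructor
  · rintro ⟨a, b, ⟨⟨h1, h2⟩, ⟨h3, h4⟩, ⟨h5, h6⟩, h7, h8, h9⟩, h10, h11⟩
    exact ⟨a, b, ⟨h1, h3, h5, h7, h8, h9⟩, h10, h11, h2, h4, h6⟩
  · rintro ⟨a, b, ⟨h1, h3, h5, h7, h8, h9⟩, h10, h11, h2, h4, h6⟩
    exact ⟨a, b, ⟨⟨h1, h2⟩, ⟨h3, h4⟩, ⟨h5, h6⟩, h7, h8, h9⟩, h10, h11⟩

theorem hits_eq (Ω : Finset (Sym2 (Fin n))) (G H : Gr n) (σ : Fin n → Equiv.Perm (Fin n))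
    (v w u' : Fin n) : hitsD (ed G ∩ Ω) (Tset Ω H σ) v w u' = hits Ω G H σ v w u' := by
  unfold hitsD hits
  congr 1
  ext z
  simp only [mem_filter, mem_univ, true_and, decH_adj, J3H_iff, J3G_iff]
  constructor
  · rintro ⟨⟨h1, h2⟩, h3, h4, h5⟩
    rw [decτ_eq v z h1 h2] at h5
    exact ⟨h1, h3, h2, h4, h5⟩
  · rintro ⟨h1, h3, h2, h4, h5⟩
    refine ⟨⟨h1, h2⟩, h3, h4, ?_⟩
    rw [decτ_eq v z h1 h2]
    exact h5

theorem J3_symm {G : Gr n} {v x z : Fin n} (h : J3 G v x z) : J3 G v z x := by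
  obtain ⟨a, b, ⟨h1, h2, h3, h4, h5, h6⟩, h7, h8⟩ := h
  exact ⟨b, a, ⟨h3.symm, h2.symm, h1.symm, fun e => h6 e.symm, fun e => h5 e.symm,
    fun e => h4 e.symm⟩, h8, h7⟩

theorem J3_of_Ω {Ω : Finset (Sym2 (Fin n))} {G : Gr n} {v x z : Fin n} (h : J3Ω Ω G v x z) :
    J3 G v x z := by
  obtain ⟨a, b, h1, h2, h3, -⟩ := h
  exact ⟨a, b, h1, h2, h3⟩

/-- (i): wrong targets have few hits -/
theorem hits_le {L : ℝ} {G H : Gr n} {σ : Fin n → Equiv.Perm (Fin n)} (hp : IsPartner G H σ)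
    (h4 : T4 L G) (Ω : Finset (Sym2 (Fin n))) (v w u' : Fin n) (hvw : H.Adj v w) (hu' : u' ≠ v)
    (hne : (σ v).symm w ≠ u') : (hits Ω G H σ v w u' : ℝ) ≤ L := by
  have hu : (σ v).symm w ≠ v := by
    intro e
    have := (hp.adj_root_symm v w).1 hvw
    rw [e] at this
    exact this.ne rfl
  refine le_trans ?_ (h4 v ((σ v).symm w) u' hne hu hu')
  rw [Nat.cast_le]
  unfold hits
  refine card_le_card_of_injOn (fun z => (σ v).symm z) ?_ ((σ v).symm.injective.injOn)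
  intro z hz
  simp only [coe_filter, mem_univ, true_and, Set.mem_ofPred_eq, mem_nb] at hz ⊢
  obtain ⟨h1, -, -, h5, h6⟩ := hz
  refine ⟨(hp.adj_root_symm v z).1 h1, ?_, J3_symm (J3_of_Ω h6)⟩
  obtain ⟨a, b, h7, h8, h9⟩ := J3_of_Ω h5
  apply J3_symm
  refine ⟨(σ v).symm a, (σ v).symm b, (hp.symm.P3_iff hvw h1 a b).1 h7, ?_, ?_⟩
  · rwa [ne_eq, hp.symm.ne_root_iff v]
  · rwa [ne_eq, hp.symm.ne_root_iff v]

/-- the decoder finds the target -/
theorem dec_eq {h₀ : ℝ} {G H : Gr n} {σ : Fin n → Equiv.Perm (Fin n)} (hp : IsPartner G H σ)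
    (h4 : T4 h₀ G) (Ω : Finset (Sym2 (Fin n))) (v w : Fin n) (hvw : H.Adj v w)
    (hhit : h₀ < hits Ω G H σ v w ((σ v).symm w)) :
    dec h₀ (ed G ∩ Ω) (Tset Ω H σ) v w = (σ v).symm w := by
  have hu : (σ v).symm w ≠ v := by
    intro e
    have := (hp.adj_root_symm v w).1 hvw
    rw [e] at this
    exact this.ne rfl
  unfold dec
  have hex : ∃ u', u' ≠ v ∧ h₀ < (hitsD (ed G ∩ Ω) (Tset Ω H σ) v w u' : ℝ) := by
    refine ⟨_, hu, ?_⟩
    rw [hits_eq]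
    exact hhit
  rw [dif_pos hex]
  obtain ⟨h1, h2⟩ := hex.choose_spec
  by_contra hcon
  have := hits_le hp h4 Ω v w hex.choose hvw h1 (fun e => hcon e.symm)
  rw [hits_eq] at h2
  linarith

/-! ### 3. the true certificate -/

/-- the cost of an ordered changed edge -/
def cost (G : Gr n) (σ : Fin n → Equiv.Perm (Fin n)) (t : Fin n × Fin n) :
    Finset (Sym2 (Fin n)) :=
  (if G.Adj t.1 t.2 then {s(t.1, t.2)} else ∅) ∪
    ((if (σ t.1).symm t.2 ≠ t.2 then {s(t.1, (σ t.1).symm t.2)} else ∅) ∪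
      (if (σ t.2).symm t.1 ≠ t.1 then {s(t.2, (σ t.2).symm t.1)} else ∅))

def lab (G : Gr n) (σ : Fin n → Equiv.Perm (Fin n)) (t : Fin n × Fin n) : Lab n :=
  (t.1, t.2, decide (G.Adj t.1 t.2), decide ((σ t.1).symm t.2 ≠ t.2),
    decide ((σ t.2).symm t.1 ≠ t.1))

theorem E1_lab {h₀ : ℝ} {G H : Gr n} {σ : Fin n → Equiv.Perm (Fin n)} (hp : IsPartner G H σ)
    (h4 : T4 h₀ G) (Ω : Finset (Sym2 (Fin n)))
    (hhit : ∀ v w, H.Adj v w → (σ v).symm w ≠ w → h₀ < hits Ω G H σ v w ((σ v).symm w))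
    (t : Fin n × Fin n) (ht : H.Adj t.1 t.2) :
    E1 h₀ (ed G ∩ Ω) (Tset Ω H σ) (lab G σ t) = cost G σ t := by
  unfold E1 lab cost
  simp only [decide_eq_true_eq]
  congr 1
  congr 1
  · by_cases h : (σ t.1).symm t.2 ≠ t.2
    · rw [if_pos h, if_pos h, dec_eq hp h4 Ω t.1 t.2 ht (hhit _ _ ht h)]
    · rw [if_neg h, if_neg h]
  · by_cases h : (σ t.2).symm t.1 ≠ t.1
    · rw [if_pos h, if_pos h, dec_eq hp h4 Ω t.2 t.1 ht.symm (hhit _ _ ht.symm h)]
    · rw [if_neg h, if_neg h]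

theorem mem_cost {G : Gr n} {σ : Fin n → Equiv.Perm (Fin n)} {t : Fin n × Fin n}
    {e : Sym2 (Fin n)} : e ∈ cost G σ t ↔ (G.Adj t.1 t.2 ∧ e = s(t.1, t.2)) ∨
      ((σ t.1).symm t.2 ≠ t.2 ∧ e = s(t.1, (σ t.1).symm t.2)) ∨
      ((σ t.2).symm t.1 ≠ t.1 ∧ e = s(t.2, (σ t.2).symm t.1)) := by
  unfold cost
  rw [mem_union, mem_union]
  have aux : ∀ (p : Prop) [Decidable p] (a : Sym2 (Fin n)),
      e ∈ (if p then ({a} : Finset (Sym2 (Fin n))) else ∅) ↔ p ∧ e = a := by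
    intro p _ a
    by_cases h : p
    · simp [h]
    · simp [h]
  rw [aux, aux, aux]

theorem card_cost_le (G : Gr n) (σ : Fin n → Equiv.Perm (Fin n)) (t : Fin n × Fin n) :
    (cost G σ t).card ≤ 3 := by
  have h : cost G σ t ⊆ {s(t.1, t.2), s(t.1, (σ t.1).symm t.2), s(t.2, (σ t.2).symm t.1)} := by
    intro e he
    rw [mem_cost] at he
    simp only [mem_insert, mem_singleton]
    tauto
  exact (card_le_card h).trans card_le_three

theorem two_le_card_cost {G H : Gr n} {σ : Fin n → Equiv.Perm (Fin n)} (hp : IsPartner G H σ)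
    (t : Fin n × Fin n) (ht : Ch H σ t.1 t.2) : 2 ≤ (cost G σ t).card := by
  obtain ⟨v, w⟩ := t
  obtain ⟨hvw, hch⟩ := ht
  simp only at hvw hch
  have key : ∃ a b, a ∈ cost G σ (v, w) ∧ b ∈ cost G σ (v, w) ∧ a ≠ b := by
    by_cases hG : G.Adj v w
    · rcases hch with h | h
      · refine ⟨s(v, w), s(v, (σ v).symm w), mem_cost.2 (Or.inl ⟨hG, rfl⟩),
          mem_cost.2 (Or.inr (Or.inl ⟨h, rfl⟩)), ?_⟩
        intro e
        rw [Sym2.eq_iff] at e
        rcases e with ⟨-, e⟩ | ⟨e1, e2⟩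
        · exact h e.symm
        · exact hvw.ne e2.symm
      · refine ⟨s(v, w), s(w, (σ w).symm v), mem_cost.2 (Or.inl ⟨hG, rfl⟩),
          mem_cost.2 (Or.inr (Or.inr ⟨h, rfl⟩)), ?_⟩
        intro e
        rw [Sym2.eq_iff] at e
        rcases e with ⟨e, -⟩ | ⟨e1, e2⟩
        · exact hvw.ne e
        · exact h e1.symm
    · have h1 : (σ v).symm w ≠ w := by
        intro e
        have := (hp.adj_root_symm v w).1 hvw
        rw [e] at this
        exact hG this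
      have h2 : (σ w).symm v ≠ v := by
        intro e
        have := (hp.adj_root_symm w v).1 hvw.symm
        rw [e] at this
        exact hG this.symm
      refine ⟨s(v, (σ v).symm w), s(w, (σ w).symm v), mem_cost.2 (Or.inr (Or.inl ⟨h1, rfl⟩)),
          mem_cost.2 (Or.inr (Or.inr ⟨h2, rfl⟩)), ?_⟩
      intro e
      rw [Sym2.eq_iff] at e
      rcases e with ⟨e, -⟩ | ⟨e1, e2⟩
      · exact hvw.ne e
      · exact h1 e2
  obtain ⟨a, b, ha, hb, hab⟩ := key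
  have : ({a, b} : Finset (Sym2 (Fin n))) ⊆ cost G σ (v, w) := by
    intro x hx
    simp only [mem_insert, mem_singleton] at hx
    rcases hx with rfl | rfl
    · exact ha
    · exact hb
  calc 2 = ({a, b} : Finset (Sym2 (Fin n))).card := (card_pair hab).symm
    _ ≤ _ := card_le_card this

theorem cost_deg (G : Gr n) (σ : Fin n → Equiv.Perm (Fin n)) (L : Finset (Fin n × Fin n))
    (b : Sym2 (Fin n)) : (L.filter fun t => b ∈ cost G σ t).card ≤ 6 := by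
  induction b using Sym2.ind with
  | _ x y =>
    have : (L.filter fun t => s(x, y) ∈ cost G σ t) ⊆
        {(x, y), (y, x), (x, σ x y), (y, σ y x), (σ x y, x), (σ y x, y)} := by
      rintro ⟨v, w⟩ ht
      rw [mem_filter, mem_cost] at ht
      obtain ⟨-, ht⟩ := ht
      simp only [mem_insert, mem_singleton, Prod.mk.injEq]
      rcases ht with ⟨-, e⟩ | ⟨-, e⟩ | ⟨-, e⟩
      · rw [Sym2.eq_iff] at e
        rcases e with ⟨rfl, rfl⟩ | ⟨rfl, rfl⟩
        · left; exact ⟨rfl, rfl⟩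
        · right; left; exact ⟨rfl, rfl⟩
      · rw [Sym2.eq_iff] at e
        rcases e with ⟨rfl, e⟩ | ⟨e, rfl⟩
        · right; right; left
          exact ⟨rfl, by rw [e]; simp⟩
        · right; right; right; left
          exact ⟨rfl, by rw [e]; simp⟩
      · rw [Sym2.eq_iff] at e
        rcases e with ⟨rfl, e⟩ | ⟨e, rfl⟩
        · right; right; right; right; left
          exact ⟨by rw [e]; simp, rfl⟩
        · right; right; right; right; right
          exact ⟨by rw [e]; simp, rfl⟩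
    exact (card_le_card this).trans card_le_six

/-- existence of a good certificate -/
theorem exists_cert {h₀ : ℝ} {G H : Gr n} {σ : Fin n → Equiv.Perm (Fin n)} (hp : IsPartner G H σ)
    (h4 : T4 h₀ G) (Ω : Finset (Sym2 (Fin n)))
    (hhit : ∀ v w, H.Adj v w → (σ v).symm w ≠ w → h₀ < hits Ω G H σ v w ((σ v).symm w))
    (hlive : 2 * (univ.filter fun t : Fin n × Fin n =>
      Ch H σ t.1 t.2 ∧ ¬ Live Ω H σ t.1 t.2).card ≤ Mch H σ) (k : ℕ) (hk : 36 * k ≤ Mch H σ) :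
    ∃ Q : Finset (Lab n), Q.card = k ∧
      E0 h₀ (ed G ∩ Ω) (Tset Ω H σ) Q ⊆ ed G ∧
      (∀ e ∈ E0 h₀ (ed G ∩ Ω) (Tset Ω H σ) Q, e ∉ Ω) ∧
      2 * k ≤ (E0 h₀ (ed G ∩ Ω) (Tset Ω H σ) Q).card ∧
      (E0 h₀ (ed G ∩ Ω) (Tset Ω H σ) Q).card ≤ 3 * k := by
  set L := univ.filter (fun t : Fin n × Fin n => Ch H σ t.1 t.2 ∧ Live Ω H σ t.1 t.2) with hL
  have hLcard : Mch H σ ≤ 2 * L.card := by
    have h1 : Mch H σ = L.card + (univ.filter fun t : Fin n × Fin n =>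
        Ch H σ t.1 t.2 ∧ ¬ Live Ω H σ t.1 t.2).card := by
      unfold Mch
      rw [hL, ← card_union_of_disjoint]
      · congr 1
        ext t
        simp only [mem_filter, mem_univ, true_and, mem_union]
        tauto
      · rw [Finset.disjoint_left]
        intro t ht ht'
        simp only [mem_filter, mem_univ, true_and] at ht ht'
        exact ht'.2 ht.2
    omega
  have hmem : ∀ t ∈ L, Ch H σ t.1 t.2 ∧ Live Ω H σ t.1 t.2 := by
    intro t ht
    simpa [hL] using ht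
  obtain ⟨S, hSL, hSd, hScard⟩ := greedy L (cost G σ) 3 6 (fun t _ => card_cost_le G σ t)
    (fun t ht => card_pos.1 (lt_of_lt_of_le (by norm_num) (two_le_card_cost hp t (hmem t ht).1)))
    (cost_deg G σ L)
  have hkS : k ≤ S.card := by omega
  obtain ⟨S', hS'S, hS'k⟩ := exists_subset_card_eq hkS
  have hlabinj : Function.Injective (lab G σ) := by
    intro a b hab
    unfold lab at hab
    simp only [Prod.mk.injEq] at hab
    exact Prod.ext hab.1 hab.2.1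
  have hE0 : E0 h₀ (ed G ∩ Ω) (Tset Ω H σ) (S'.image (lab G σ)) = S'.biUnion (cost G σ) := by
    unfold E0
    rw [image_biUnion]
    refine biUnion_congr rfl fun t ht => ?_
    exact E1_lab hp h4 Ω hhit t (hmem t (hSL (hS'S ht))).1.1
  have hcard : (S'.biUnion (cost G σ)).card = ∑ t ∈ S', (cost G σ t).card := by
    apply card_biUnion
    intro x hx y hy hxy
    exact hSd x (hS'S hx) y (hS'S hy) hxy
  refine ⟨S'.image (lab G σ), ?_, ?_, ?_, ?_, ?_⟩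
  · rw [card_image_of_injective _ hlabinj, hS'k]
  · rw [hE0]
    intro e he
    rw [mem_biUnion] at he
    obtain ⟨t, ht, he⟩ := he
    have hvw := (hmem t (hSL (hS'S ht))).1.1
    rw [mem_cost] at he
    rcases he with ⟨h, rfl⟩ | ⟨-, rfl⟩ | ⟨-, rfl⟩
    · exact mk_mem_ed.2 h
    · exact mk_mem_ed.2 ((hp.adj_root_symm _ _).1 hvw)
    · exact mk_mem_ed.2 ((hp.adj_root_symm _ _).1 hvw.symm)
  · rw [hE0]
    intro e he
    rw [mem_biUnion] at he
    obtain ⟨t, ht, he⟩ := he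
    obtain ⟨l1, l2, l3⟩ := (hmem t (hSL (hS'S ht))).2
    rw [mem_cost] at he
    rcases he with ⟨-, rfl⟩ | ⟨h, rfl⟩ | ⟨h, rfl⟩
    · exact l1
    · exact l2 h
    · exact l3 h
  · rw [hE0, hcard]
    calc 2 * k = ∑ t ∈ S', 2 := by rw [sum_const, smul_eq_mul, hS'k]; ring
      _ ≤ _ := sum_le_sum fun t ht => two_le_card_cost hp t (hmem t (hSL (hS'S ht))).1
  · rw [hE0, hcard]
    calc ∑ t ∈ S', (cost G σ t).card ≤ ∑ t ∈ S', 3 := sum_le_sum fun t _ => card_cost_le G σ t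
      _ = 3 * k := by rw [sum_const, smul_eq_mul, hS'k]; ring

/-! ### 4. counting -/

/-- the graphs with a certificate `(T, Q)` -/
def Bset (d : ℕ) (h₀ : ℝ) (Ω : Finset (Sym2 (Fin n))) (k : ℕ)
    (c : Finset (Fin n × Fin n × Fin n) × Finset (Lab n)) : Finset (Gr n) :=
  (Reg n d).filter fun G => E0 h₀ (ed G ∩ Ω) c.1 c.2 ⊆ ed G ∧
    (∀ e ∈ E0 h₀ (ed G ∩ Ω) c.1 c.2, e ∉ Ω) ∧
    2 * k ≤ (E0 h₀ (ed G ∩ Ω) c.1 c.2).card ∧ (E0 h₀ (ed G ∩ Ω) c.1 c.2).card ≤ 3 * k ∧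
    32 * (ed G ∩ Ω).card ≤ n * d

theorem card_Bset (hUp : Stmt_Up) (d : ℕ) (h₀ : ℝ) (Ω : Finset (Sym2 (Fin n))) (k : ℕ)
    (c : Finset (Fin n × Fin n × Fin n) × Finset (Lab n)) (hn : 64 ≤ n) (hd : 64 * d ≤ n)
    (hΩ : ∀ x : Fin n, 16 * (Ω.filter fun f => x ∈ f).card ≤ n) (hk : 96 * k ≤ n * d) :
    ((Bset d h₀ Ω k c).card : ℝ) ≤ (2 * (d : ℝ) / n) ^ (2 * k) * (Reg n d).card := by
  have hn0 : (0 : ℝ) < n := by
    have : 0 < n := by omega
    exact_mod_cast this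
  have hw0 : (0 : ℝ) ≤ 2 * (d : ℝ) / n := by positivity
  have hw1 : 2 * (d : ℝ) / n ≤ 1 := by
    rw [div_le_one hn0]
    have : (64 : ℝ) * d ≤ n := by exact_mod_cast hd
    have : (0 : ℝ) ≤ d := by positivity
    linarith
  have h1 : (Bset d h₀ Ω k c).card = ∑ g ∈ Ω.powerset,
      ((Bset d h₀ Ω k c).filter fun G => ed G ∩ Ω = g).card :=
    card_eq_sum_card_fiberwise (fun G _ => by
      simp only [coe_powerset, Set.mem_preimage, Set.mem_powerset_iff, coe_subset]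
      exact inter_subset_right)
  have h2 : (Reg n d).card = ∑ g ∈ Ω.powerset, ((Reg n d).filter fun G => ed G ∩ Ω = g).card :=
    card_eq_sum_card_fiberwise (fun G _ => by
      simp only [coe_powerset, Set.mem_preimage, Set.mem_powerset_iff, coe_subset]
      exact inter_subset_right)
  rw [h1, h2]
  push_cast
  rw [mul_sum]
  refine sum_le_sum fun g _ => ?_
  set E := E0 h₀ g c.1 c.2 with hE
  by_cases hval : (∀ e ∈ E, e ∉ Ω ∧ ¬ e.IsDiag) ∧ 2 * k ≤ E.card ∧ E.card ≤ 3 * k ∧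
      32 * g.card ≤ n * d
  · obtain ⟨v1, v2, v3, v4⟩ := hval
    have h3 := hUp n d hn hd Ω g E v1 (fun e _ x _ => hΩ x) v4 (by omega)
    have h4 : ((Bset d h₀ Ω k c).filter fun G => ed G ∩ Ω = g) ⊆
        (Reg n d).filter fun G => ed G ∩ Ω = g ∧ E ⊆ ed G := by
      intro G hG
      unfold Bset at hG
      simp only [mem_filter] at hG ⊢
      obtain ⟨⟨hr, hs, -⟩, hg⟩ := hG
      rw [hg] at hs
      exact ⟨hr, hg, hs⟩
    calc (((Bset d h₀ Ω k c).filter fun G => ed G ∩ Ω = g).card : ℝ)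
        ≤ (((Reg n d).filter fun G => ed G ∩ Ω = g ∧ E ⊆ ed G).card : ℝ) := by
          exact_mod_cast card_le_card h4
      _ ≤ _ := h3
      _ ≤ _ := by
          apply mul_le_mul_of_nonneg_right _ (Nat.cast_nonneg _)
          exact pow_le_pow_of_le_one hw0 hw1 v2
  · have h4 : ((Bset d h₀ Ω k c).filter fun G => ed G ∩ Ω = g) = ∅ := by
      rw [Finset.filter_eq_empty_iff]
      intro G hG hg
      apply hval
      unfold Bset at hG
      simp only [mem_filter] at hG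
      obtain ⟨hr, hs, hdis, c1, c2, c3⟩ := hG
      rw [hg] at hs hdis c1 c2 c3
      refine ⟨fun e he => ⟨hdis e he, ?_⟩, c1, c2, c3⟩
      have := mem_ed.1 (hs he)
      exact SimpleGraph.not_isDiag_of_mem_edgeSet _ this
    rw [h4]
    simp only [card_empty, Nat.cast_zero]
    positivity

/-- the combinatorial part: a bound for the number of bad graphs -/
theorem count_bad (hUp : Stmt_Up) (d : ℕ) (M₀ ρ h₀ : ℝ) (Ω : Finset (Sym2 (Fin n))) (k m : ℕ)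
    (hn : 64 ≤ n) (hd : 64 * d ≤ n) (hk : 96 * k ≤ n * d) (hkM : 36 * (k : ℝ) ≤ M₀)
    (hm : 16 * ρ * n * d ≤ m) (hρ : 256 * ρ ≤ 1) :
    (((Reg n d).filter fun G => T4 h₀ G ∧
        ∃ (H : Gr n) (σ : Fin n → Equiv.Perm (Fin n)), IsPartner G H σ ∧
          M₀ < Mch H σ ∧ GoodΩ d ρ h₀ G H σ Ω).card : ℝ) ≤
      ((n : ℝ) ^ 3 + 1) ^ m * ((8 * n ^ 2).choose k : ℕ) *
        ((2 * (d : ℝ) / n) ^ (2 * k) * (Reg n d).card) := by
  by_cases hΩ : ∀ x : Fin n, 16 * (Ω.filter fun f => x ∈ f).card ≤ n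
  swap
  · have : ((Reg n d).filter fun G => T4 h₀ G ∧
        ∃ (H : Gr n) (σ : Fin n → Equiv.Perm (Fin n)), IsPartner G H σ ∧
          M₀ < Mch H σ ∧ GoodΩ d ρ h₀ G H σ Ω) = ∅ := by
      rw [Finset.filter_eq_empty_iff]
      rintro G _ ⟨-, H, σ, -, -, hg⟩
      exact hΩ hg.1
    rw [this]
    simp only [card_empty, Nat.cast_zero]
    positivity
  set 𝒯 := (univ : Finset (Finset (Fin n × Fin n × Fin n))).filter (fun T => T.card ≤ m) with h𝒯
  set 𝒬 := powersetCard k (univ : Finset (Lab n)) with h𝒬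
  have hsub : ((Reg n d).filter fun G => T4 h₀ G ∧
        ∃ (H : Gr n) (σ : Fin n → Equiv.Perm (Fin n)), IsPartner G H σ ∧
          M₀ < Mch H σ ∧ GoodΩ d ρ h₀ G H σ Ω) ⊆ (𝒯 ×ˢ 𝒬).biUnion (Bset d h₀ Ω k) := by
    intro G hG
    rw [mem_filter] at hG
    obtain ⟨hr, h4, H, σ, hp, hM, hg1, hg2, hg3, hg4, hg5⟩ := hG
    have hkM' : 36 * k ≤ Mch H σ := by
      have : (36 : ℝ) * k ≤ Mch H σ := hkM.trans hM.le
      exact_mod_cast this
    obtain ⟨Q, hQ1, hQ2, hQ3, hQ4, hQ5⟩ := exists_cert hp h4 Ω hg4 hg5 k hkM'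
    rw [mem_biUnion]
    refine ⟨(Tset Ω H σ, Q), ?_, ?_⟩
    · rw [mem_product, h𝒯, h𝒬, mem_filter, mem_powersetCard]
      refine ⟨⟨mem_univ _, ?_⟩, subset_univ _, hQ1⟩
      have h1 := card_Tset Ω H σ
      have h2 : ((Tset Ω H σ).card : ℝ) ≤ m := by
        calc ((Tset Ω H σ).card : ℝ) ≤ ((2 * (ed H ∩ Ω).card : ℕ) : ℝ) := by exact_mod_cast h1
          _ = 2 * ((ed H ∩ Ω).card : ℝ) := by push_cast; ring
          _ ≤ 2 * (8 * ρ * n * d) := by linarith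
          _ = 16 * ρ * n * d := by ring
          _ ≤ m := hm
      exact_mod_cast h2
    · unfold Bset
      rw [mem_filter]
      refine ⟨hr, hQ2, hQ3, hQ4, hQ5, ?_⟩
      have h3 : (32 : ℝ) * (ed G ∩ Ω).card ≤ n * d := by
        have hnd : (0 : ℝ) ≤ (n : ℝ) * d := by positivity
        nlinarith
      exact_mod_cast h3
  have hcard𝒯 : (𝒯.card : ℝ) ≤ ((n : ℝ) ^ 3 + 1) ^ m := by
    have h1 := card_small (α := Fin n × Fin n × Fin n) m
    have h2 : Fintype.card (Fin n × Fin n × Fin n) = n ^ 3 := by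
      simp only [Fintype.card_prod, Fintype.card_fin]; ring
    rw [h2] at h1
    have h3 : (𝒯.card : ℝ) ≤ (((n ^ 3 + 1) ^ m : ℕ) : ℝ) := by exact_mod_cast h1
    push_cast at h3
    exact h3
  have hcard𝒬 : 𝒬.card = (8 * n ^ 2).choose k := by
    rw [h𝒬, card_powersetCard, card_univ]
    congr 1
    simp only [Fintype.card_prod, Fintype.card_fin, Fintype.card_bool]
    ring
  calc (((Reg n d).filter fun G => T4 h₀ G ∧
        ∃ (H : Gr n) (σ : Fin n → Equiv.Perm (Fin n)), IsPartner G H σ ∧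
          M₀ < Mch H σ ∧ GoodΩ d ρ h₀ G H σ Ω).card : ℝ)
      ≤ (((𝒯 ×ˢ 𝒬).biUnion (Bset d h₀ Ω k)).card : ℝ) := by exact_mod_cast card_le_card hsub
    _ ≤ ((∑ c ∈ 𝒯 ×ˢ 𝒬, (Bset d h₀ Ω k c).card : ℕ) : ℝ) := by
        exact_mod_cast card_biUnion_le
    _ = ∑ c ∈ 𝒯 ×ˢ 𝒬, ((Bset d h₀ Ω k c).card : ℝ) := by push_cast; rfl
    _ ≤ ∑ c ∈ 𝒯 ×ˢ 𝒬, ((2 * (d : ℝ) / n) ^ (2 * k) * (Reg n d).card) :=
        sum_le_sum fun c _ => card_Bset hUp d h₀ Ω k c hn hd hΩ hk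
    _ = (𝒯.card : ℝ) * ((8 * n ^ 2).choose k : ℕ) *
        ((2 * (d : ℝ) / n) ^ (2 * k) * (Reg n d).card) := by
        rw [sum_const, card_product, hcard𝒬, nsmul_eq_mul]
        push_cast
        ring
    _ ≤ _ := by gcongr

/-! ### 5. asymptotics -/

theorem ev_rpow (c A : ℝ) (hc : 0 < c) : ∀ᶠ n : ℕ in atTop, A ≤ (n : ℝ) ^ c :=
  ((tendsto_rpow_atTop hc).comp tendsto_natCast_atTop_atTop).eventually_ge_atTop A

theorem final_est (x D M₀ δ δ₁ : ℝ) (k m : ℕ) (C : ℕ) (hx : 64 ≤ x) (hδ : 0 < δ)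
    (hδ₁ : 3 * δ < δ₁) (hδ₁' : δ₁ ≤ 1 / 100) (hD1 : 1 ≤ D) (hD : D ≤ x ^ (1 / 3 : ℝ))
    (hM₀ : M₀ = x ^ (1 - 3 * δ) * D) (hk : M₀ / 200 ≤ k) (hm : (m : ℝ) ≤ 16 * x ^ (-δ₁) * x * D + 1)
    (e1 : 19200 ≤ x ^ (0.15 : ℝ)) (e2 : 51200 ≤ x ^ (δ₁ - 3 * δ)) (e3 : 4000 ≤ x ^ (0.9 : ℝ))
    (hC : (C : ℝ) * (k : ℝ) ^ k ≤ (3 * (8 * x ^ 2)) ^ k) :
    (x ^ 3 + 1) ^ m * C * (2 * D / x) ^ (2 * k) ≤ x ^ (-1 : ℝ) := by
  have hx0 : 0 < x := by linarith
  have hx1 : 1 ≤ x := by linarith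
  have hM0 : 4000 ≤ M₀ := by
    rw [hM₀]
    have h1 : x ^ (0.9 : ℝ) ≤ x ^ (1 - 3 * δ) :=
      Real.rpow_le_rpow_of_exponent_le hx1 (by linarith)
    have h2 : (0 : ℝ) < x ^ (1 - 3 * δ) := by positivity
    nlinarith
  have hk0 : (0 : ℝ) < k := by linarith
  -- claim A
  have hA : 96 * D ^ 2 ≤ x ^ (-(1 / 2) : ℝ) * k := by
    have h1 : 19200 * D ≤ x ^ (-(1 / 2) : ℝ) * x ^ (1 - 3 * δ) := by
      rw [← Real.rpow_add hx0]
      calc 19200 * D ≤ x ^ (0.15 : ℝ) * x ^ (1 / 3 : ℝ) := by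
            apply mul_le_mul e1 hD (by linarith) (by positivity)
        _ = x ^ (0.15 + 1 / 3 : ℝ) := by rw [← Real.rpow_add hx0]
        _ ≤ _ := Real.rpow_le_rpow_of_exponent_le hx1 (by linarith)
    have h2 : (0 : ℝ) < x ^ (-(1 / 2) : ℝ) := by positivity
    calc 96 * D ^ 2 = 19200 * D * (D / 200) := by ring
      _ ≤ x ^ (-(1 / 2) : ℝ) * x ^ (1 - 3 * δ) * (D / 200) := by
          apply mul_le_mul_of_nonneg_right h1 (by linarith)
      _ = x ^ (-(1 / 2) : ℝ) * (M₀ / 200) := by rw [hM₀]; ring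
      _ ≤ _ := by apply mul_le_mul_of_nonneg_left hk h2.le
  have hB : (C : ℝ) * (2 * D / x) ^ (2 * k) ≤ (x ^ (-(1 / 2) : ℝ)) ^ k := by
    have hkk : (0 : ℝ) < (k : ℝ) ^ k := by positivity
    have h1 : (C : ℝ) * (2 * D / x) ^ (2 * k) * (k : ℝ) ^ k ≤ (x ^ (-(1 / 2) : ℝ)) ^ k * (k : ℝ) ^ k := by
      calc (C : ℝ) * (2 * D / x) ^ (2 * k) * (k : ℝ) ^ k
          = (C : ℝ) * (k : ℝ) ^ k * ((2 * D / x) ^ 2) ^ k := by rw [pow_mul]; ring
        _ ≤ (3 * (8 * x ^ 2)) ^ k * ((2 * D / x) ^ 2) ^ k := by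
            apply mul_le_mul_of_nonneg_right hC (by positivity)
        _ = (96 * D ^ 2) ^ k := by
            rw [← mul_pow]
            congr 1
            field_simp
            ring
        _ ≤ (x ^ (-(1 / 2) : ℝ) * k) ^ k := by
            apply pow_le_pow_left₀ (by positivity) hA
        _ = _ := by rw [mul_pow]
    exact le_of_mul_le_mul_right h1 hkk
  have hCm : (x ^ 3 + 1) ^ m ≤ (x ^ (4 : ℕ)) ^ m := by
    apply pow_le_pow_left₀ (by positivity)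
    nlinarith [pow_pos hx0 3]
  have hexp : 4 * (m : ℝ) - k / 2 ≤ -1 := by
    have h1 : x ^ (-δ₁) * x * D * x ^ (δ₁ - 3 * δ) = M₀ := by
      rw [hM₀]
      calc x ^ (-δ₁) * x * D * x ^ (δ₁ - 3 * δ)
          = x ^ (-δ₁) * x ^ (1 : ℝ) * x ^ (δ₁ - 3 * δ) * D := by rw [Real.rpow_one]; ring
        _ = x ^ (-δ₁ + 1 + (δ₁ - 3 * δ)) * D := by
            rw [← Real.rpow_add hx0, ← Real.rpow_add hx0]
        _ = _ := by congr 2; ring
    have h2 : 0 ≤ x ^ (-δ₁) * x * D := by positivity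
    have h3 : x ^ (-δ₁) * x * D * 51200 ≤ M₀ := by
      rw [← h1]
      exact mul_le_mul_of_nonneg_left e2 h2
    nlinarith
  calc (x ^ 3 + 1) ^ m * C * (2 * D / x) ^ (2 * k)
      = (x ^ 3 + 1) ^ m * (C * (2 * D / x) ^ (2 * k)) := by ring
    _ ≤ (x ^ (4 : ℕ)) ^ m * (x ^ (-(1 / 2) : ℝ)) ^ k := by
        apply mul_le_mul hCm hB (by positivity) (by positivity)
    _ = x ^ (4 * (m : ℝ) - k / 2) := by
        rw [← pow_mul, ← Real.rpow_natCast x (4 * m), ← Real.rpow_natCast (x ^ (-(1 / 2) : ℝ)) k,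
          ← Real.rpow_mul hx0.le, ← Real.rpow_add hx0]
        congr 1
        push_cast
        ring
    _ ≤ x ^ (-1 : ℝ) := Real.rpow_le_rpow_of_exponent_le hx1 hexp

end

end Pool.Agent.RRG.PH1B

namespace Pool.Agent.RRG

open PH1B in
theorem PH1B_proof (hUp : Stmt_Up) : Stmt_PH1b := by
  intro ε ε₀ c₄ δ δ₁ hε hε₀ hc₄ hδ hδ₁ hδ₁' η hη
  have hev : ∀ᶠ n : ℕ in atTop, 200 ≤ (n : ℝ) ∧ 64 ≤ (n : ℝ) ^ (2 / 3 : ℝ) ∧
      256 ≤ (n : ℝ) ^ δ₁ ∧ 19200 ≤ (n : ℝ) ^ (0.15 : ℝ) ∧ 51200 ≤ (n : ℝ) ^ (δ₁ - 3 * δ) ∧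
      4000 ≤ (n : ℝ) ^ (0.9 : ℝ) ∧ 1 / η ≤ (n : ℝ) := by
    refine (tendsto_natCast_atTop_atTop.eventually_ge_atTop 200).and ?_
    refine (ev_rpow _ _ (by norm_num)).and ?_
    refine (ev_rpow _ _ (by linarith)).and ?_
    refine (ev_rpow _ _ (by norm_num)).and ?_
    refine (ev_rpow _ _ (by linarith)).and ?_
    exact (ev_rpow _ _ (by norm_num)).and (tendsto_natCast_atTop_atTop.eventually_ge_atTop _)
  obtain ⟨n₀, h0⟩ := eventually_atTop.1 hev
  refine ⟨n₀, fun n hn d hd Ω => ?_⟩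
  obtain ⟨f1, f2, f3, f4, f5, f6, f7⟩ := h0 n hn
  set x : ℝ := (n : ℝ) with hx
  set D : ℝ := (d : ℝ) with hDdef
  have hx0 : 0 < x := by linarith
  have hx1 : 1 ≤ x := by linarith
  obtain ⟨r1, r2⟩ := hd
  have hD1 : 1 ≤ D := by
    refine le_trans ?_ r1
    exact Real.one_le_rpow hx1 (by linarith)
  have hD : D ≤ x ^ (1 / 3 : ℝ) := by
    have h1 : D ^ 3 ≤ x := by
      refine r2.trans ?_
      calc x ^ (1 - ε₀) ≤ x ^ (1 : ℝ) := Real.rpow_le_rpow_of_exponent_le hx1 (by linarith)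
        _ = x := Real.rpow_one x
    calc D = (D ^ (3 : ℝ)) ^ (1 / 3 : ℝ) := by
          rw [← Real.rpow_mul (by linarith)]
          norm_num
      _ ≤ x ^ (1 / 3 : ℝ) := by
          apply Real.rpow_le_rpow (by positivity) _ (by norm_num)
          have : D ^ (3 : ℝ) = D ^ 3 := by
            rw [← Real.rpow_natCast]
            norm_num
          rw [this]
          exact h1
  have h64n : 64 ≤ n := by
    have : (64 : ℝ) ≤ n := by linarith
    exact_mod_cast this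
  have h64d : 64 * d ≤ n := by
    have h1 : 64 * D ≤ x := by
      calc 64 * D ≤ x ^ (2 / 3 : ℝ) * x ^ (1 / 3 : ℝ) := by
            apply mul_le_mul f2 hD (by linarith) (by positivity)
        _ = x := by
            rw [← Real.rpow_add hx0]
            norm_num
    have h2 : (64 : ℝ) * (d : ℝ) ≤ (n : ℝ) := h1
    exact_mod_cast h2
  set M₀ : ℝ := x ^ (1 - 3 * δ) * D with hM₀
  have hM0 : 4000 ≤ M₀ := by
    have h1 : x ^ (0.9 : ℝ) ≤ x ^ (1 - 3 * δ) :=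
      Real.rpow_le_rpow_of_exponent_le hx1 (by linarith)
    have h2 : (0 : ℝ) < x ^ (1 - 3 * δ) := by positivity
    rw [hM₀]
    nlinarith
  have hMle : M₀ ≤ x * D := by
    rw [hM₀]
    apply mul_le_mul_of_nonneg_right _ (by linarith)
    calc x ^ (1 - 3 * δ) ≤ x ^ (1 : ℝ) := Real.rpow_le_rpow_of_exponent_le hx1 (by linarith)
      _ = x := Real.rpow_one x
  set k := ⌈M₀ / 200⌉₊ with hk
  have hk1 : M₀ / 200 ≤ k := Nat.le_ceil _
  have hk2 : (k : ℝ) < M₀ / 200 + 1 := Nat.ceil_lt_add_one (by positivity)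
  set ρ : ℝ := x ^ (-δ₁) with hρ
  have hρ0 : 0 ≤ ρ := by positivity
  have hρ1 : 256 * ρ ≤ 1 := by
    have h1 : ρ * x ^ δ₁ = 1 := by
      rw [hρ, ← Real.rpow_add hx0]
      simp
    nlinarith
  set m := ⌈16 * ρ * x * D⌉₊ with hm
  have hm1 : 16 * ρ * x * D ≤ m := Nat.le_ceil _
  have hm2 : (m : ℝ) < 16 * ρ * x * D + 1 := Nat.ceil_lt_add_one (by positivity)
  have h96 : 96 * k ≤ n * d := by
    have h1 : 96 * (k : ℝ) ≤ x * D := by
      nlinarith
    have h2 : 96 * (k : ℝ) ≤ (n : ℝ) * (d : ℝ) := h1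
    exact_mod_cast h2
  have hmain := count_bad hUp d M₀ ρ (x ^ (-c₄) * lam n d) Ω k m h64n h64d h96 (by linarith)
    hm1 hρ1
  have hest := final_est x D M₀ δ δ₁ k m ((8 * n ^ 2).choose k) (by linarith) hδ hδ₁ hδ₁' hD1 hD
    rfl hk1 hm2.le f4 f5 f6 (by
      have := choose_bound (8 * n ^ 2) k
      push_cast at this
      exact this)
  refine hmain.trans ?_
  rw [← mul_assoc]
  apply mul_le_mul_of_nonneg_right _ (Nat.cast_nonneg _)
  refine hest.trans ?_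
  rw [Real.rpow_neg_one]
  rw [inv_le_comm₀ hx0 hη, ← one_div]
  exact f7

end Pool.Agent.RRG
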