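import Pool.Agent.RRG.Stmts

/-!
# Module RAND (MP_d15a9b_pr): random subsets
-/

open Finset
open scoped Classical

namespace Pool.Agent.RRG

namespace RAND

noncomputable section

variable {α : Type} [DecidableEq α]

/-- expectation over a random subset of `U` of density `s` -/
def Ex (s : ℝ) (U : Finset α) (f : Finset α → ℝ) : ℝ := ∑ A ∈ U.powerset, wt s U A * f A

theorem wt_nonneg {s : ℝ} (h0 : 0 ≤ s) (h1 : s ≤ 1) (U A : Finset α) : 0 ≤ wt s U A := by
  unfold wt
  exact mul_nonneg (pow_nonneg h0 _) (pow_nonneg (by linarith) _)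

theorem Ex_one (s : ℝ) (U : Finset α) : Ex s U (fun _ => 1) = 1 := by
  unfold Ex wt
  simp only [mul_one]
  rw [Finset.sum_pow_mul_eq_add_pow]
  simp

theorem Ex_const (s : ℝ) (U : Finset α) (c : ℝ) : Ex s U (fun _ => c) = c := by
  have := Ex_one s U
  unfold Ex at *
  rw [← Finset.sum_mul]
  simp only [mul_one] at this
  rw [this, one_mul]

theorem Ex_mono {s : ℝ} (h0 : 0 ≤ s) (h1 : s ≤ 1) {U : Finset α} {f g : Finset α → ℝ}
    (h : ∀ A ⊆ U, f A ≤ g A) : Ex s U f ≤ Ex s U g := by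
  unfold Ex
  refine Finset.sum_le_sum fun A hA => ?_
  exact mul_le_mul_of_nonneg_left (h A (mem_powerset.1 hA)) (wt_nonneg h0 h1 U A)

theorem Ex_congr {s : ℝ} {U : Finset α} {f g : Finset α → ℝ}
    (h : ∀ A ⊆ U, f A = g A) : Ex s U f = Ex s U g := by
  unfold Ex
  refine Finset.sum_congr rfl fun A hA => ?_
  rw [h A (mem_powerset.1 hA)]

theorem Ex_add (s : ℝ) (U : Finset α) (f g : Finset α → ℝ) :
    Ex s U (fun A => f A + g A) = Ex s U f + Ex s U g := by
  unfold Ex
  rw [← Finset.sum_add_distrib]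
  exact Finset.sum_congr rfl fun A _ => by ring

theorem Ex_mul (s : ℝ) (U : Finset α) (c : ℝ) (f : Finset α → ℝ) :
    Ex s U (fun A => c * f A) = c * Ex s U f := by
  unfold Ex
  rw [Finset.mul_sum]
  exact Finset.sum_congr rfl fun A _ => by ring

theorem Ex_sum (s : ℝ) (U : Finset α) {ι : Type*} (J : Finset ι) (f : ι → Finset α → ℝ) :
    Ex s U (fun A => ∑ i ∈ J, f i A) = ∑ i ∈ J, Ex s U (f i) := by
  unfold Ex
  rw [Finset.sum_comm]
  exact Finset.sum_congr rfl fun A _ => by rw [Finset.mul_sum]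

theorem wt_union (s : ℝ) {U₁ U₂ A₁ A₂ : Finset α} (hd : Disjoint U₁ U₂) (h₁ : A₁ ⊆ U₁)
    (h₂ : A₂ ⊆ U₂) : wt s (U₁ ∪ U₂) (A₁ ∪ A₂) = wt s U₁ A₁ * wt s U₂ A₂ := by
  unfold wt
  have hA : Disjoint A₁ A₂ := Disjoint.mono h₁ h₂ hd
  rw [card_union_of_disjoint hd, card_union_of_disjoint hA]
  have e : U₁.card + U₂.card - (A₁.card + A₂.card) = (U₁.card - A₁.card) + (U₂.card - A₂.card) := by
    have := card_le_card h₁
    have := card_le_card h₂
    omega
  rw [e, pow_add, pow_add]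
  ring

/-- splitting the ground set -/
theorem Ex_union (s : ℝ) {U₁ U₂ : Finset α} (hd : Disjoint U₁ U₂) (f : Finset α → ℝ) :
    Ex s (U₁ ∪ U₂) f = Ex s U₁ (fun A₁ => Ex s U₂ (fun A₂ => f (A₁ ∪ A₂))) := by
  unfold Ex
  simp only [Finset.mul_sum]
  rw [← Finset.sum_product']
  symm
  refine Finset.sum_nbij' (fun p => p.1 ∪ p.2) (fun A => (A ∩ U₁, A ∩ U₂)) ?_ ?_ ?_ ?_ ?_
  · intro p hp
    simp only [mem_product, mem_powerset] at hp ⊢
    exact union_subset_union hp.1 hp.2
  · intro A _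
    simp only [mem_product, mem_powerset]
    exact ⟨inter_subset_right, inter_subset_right⟩
  · intro p hp
    simp only [mem_product, mem_powerset] at hp
    have h1 : p.2 ∩ U₁ = ∅ := by
      rw [← disjoint_iff_inter_eq_empty]
      exact Disjoint.mono_left hp.2 hd.symm
    have h2 : p.1 ∩ U₂ = ∅ := by
      rw [← disjoint_iff_inter_eq_empty]
      exact Disjoint.mono_left hp.1 hd
    refine Prod.ext ?_ ?_
    · simp only [union_inter_distrib_right, h1, union_empty]
      exact inter_eq_left.2 hp.1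
    · simp only [union_inter_distrib_right, h2, empty_union]
      exact inter_eq_left.2 hp.2
  · intro A hA
    simp only [mem_powerset] at hA
    rw [← inter_union_distrib_left]
    exact inter_eq_left.2 hA
  · intro p hp
    simp only [mem_product, mem_powerset] at hp
    rw [wt_union s hd hp.1 hp.2]
    ring

/-- if `f` only sees `A ∩ U₁` and `g` only sees `A ∩ U₂` the expectation of the product is the product -/
theorem Ex_mul_indep (s : ℝ) {U₁ U₂ : Finset α} (hd : Disjoint U₁ U₂) (f g : Finset α → ℝ)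
    (hf : ∀ A₁ ⊆ U₁, ∀ A₂ ⊆ U₂, f (A₁ ∪ A₂) = f A₁) (hg : ∀ A₁ ⊆ U₁, ∀ A₂ ⊆ U₂, g (A₁ ∪ A₂) = g A₂) :
    Ex s (U₁ ∪ U₂) (fun A => f A * g A) = Ex s U₁ f * Ex s U₂ g := by
  rw [Ex_union s hd]
  have : ∀ A₁ ⊆ U₁, Ex s U₂ (fun A₂ => f (A₁ ∪ A₂) * g (A₁ ∪ A₂)) = Ex s U₂ g * f A₁ := by
    intro A₁ h₁
    have e : Ex s U₂ (fun A₂ => f (A₁ ∪ A₂) * g (A₁ ∪ A₂)) = Ex s U₂ (fun A₂ => f A₁ * g A₂) :=
      Ex_congr fun A₂ h₂ => by rw [hf A₁ h₁ A₂ h₂, hg A₁ h₁ A₂ h₂]
    rw [e, Ex_mul]
    ring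
  rw [Ex_congr this, Ex_mul]
  ring

theorem Ex_full (s : ℝ) (U : Finset α) (θ : ℝ) :
    Ex s U (fun A => if U ⊆ A then θ else 1) = 1 - (1 - θ) * s ^ U.card := by
  have e : Ex s U (fun A => if U ⊆ A then θ else 1) = Ex s U (fun A => 1 + (if U ⊆ A then θ - 1 else 0)) :=
    Ex_congr fun A _ => by split_ifs <;> ring
  rw [e, Ex_add, Ex_one]
  have e2 : Ex s U (fun A => if U ⊆ A then θ - 1 else 0) = s ^ U.card * (θ - 1) := by
    unfold Ex
    rw [Finset.sum_eq_single U]
    · simp [wt]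
    · intro A hA hne
      have : ¬ U ⊆ A := fun h => hne (Subset.antisymm (mem_powerset.1 hA) h)
      simp [this]
    · intro h; simp at h
  rw [e2]; ring

/-- the generating function of the number of `κ i ⊆ A`, for disjoint `κ i` -/
theorem Ex_prod (s : ℝ) (U : Finset α) {ι : Type*} (J : Finset ι) (κ : ι → Finset α) (θ : ι → ℝ)
    (hU : ∀ i ∈ J, κ i ⊆ U) (hd : ∀ i ∈ J, ∀ j ∈ J, i ≠ j → Disjoint (κ i) (κ j)) :
    Ex s U (fun A => ∏ i ∈ J, (if κ i ⊆ A then θ i else 1)) = ∏ i ∈ J, (1 - (1 - θ i) * s ^ (κ i).card) := by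
  induction J using Finset.induction_on generalizing U with
  | empty => simp [Ex_one]
  | insert i J hi ih =>
    have hiU : κ i ⊆ U := hU i (mem_insert_self i J)
    have hdis : Disjoint (κ i) (U \ κ i) := disjoint_sdiff
    have hun : κ i ∪ (U \ κ i) = U := union_sdiff_of_subset hiU
    have hJ : ∀ j ∈ J, κ j ⊆ U \ κ i := by
      intro j hj x hx
      have hne : j ≠ i := fun h => hi (h ▸ hj)
      have := hd j (mem_insert_of_mem hj) i (mem_insert_self i J) hne
      exact mem_sdiff.2 ⟨hU j (mem_insert_of_mem hj) hx, fun h => (disjoint_left.1 this) hx h⟩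
    have key := Ex_mul_indep s hdis (fun A => if κ i ⊆ A then θ i else 1)
      (fun A => ∏ j ∈ J, (if κ j ⊆ A then θ j else 1)) ?_ ?_
    · rw [hun] at key
      simp only [Finset.prod_insert hi]
      rw [key, Ex_full, ih (U \ κ i) hJ]
      intro a ha b hb hab
      exact hd a (mem_insert_of_mem ha) b (mem_insert_of_mem hb) hab
    · intro A₁ _ A₂ h₂
      have : κ i ⊆ A₁ ∪ A₂ ↔ κ i ⊆ A₁ := by
        constructor
        · intro h x hx
          rcases mem_union.1 (h hx) with h' | h'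
          · exact h'
          · exact absurd (h₂ h') (fun hh => (mem_sdiff.1 hh).2 hx)
        · intro h; exact h.trans subset_union_left
      simp only [this]
    · intro A₁ h₁ A₂ _
      refine Finset.prod_congr rfl fun j hj => ?_
      have : κ j ⊆ A₁ ∪ A₂ ↔ κ j ⊆ A₂ := by
        constructor
        · intro h x hx
          rcases mem_union.1 (h hx) with h' | h'
          · exact absurd (h₁ h') (mem_sdiff.1 (hJ j hj hx)).2
          · exact h'
        · intro h; exact h.trans subset_union_right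
      simp only [this]

theorem Ex_subset (s : ℝ) (U κ : Finset α) (h : κ ⊆ U) :
    Ex s U (fun A => if κ ⊆ A then 1 else 0) = s ^ κ.card := by
  have := Ex_prod s U {()} (fun _ => κ) (fun _ => 0) (fun _ _ => h)
    (fun i _ j _ hij => absurd (Subsingleton.elim i j) hij)
  simp only [Finset.prod_singleton] at this
  have e : Ex s U (fun A => if κ ⊆ A then (1 : ℝ) else 0) =
      Ex s U (fun A => 1 + (-1) * (if κ ⊆ A then (0 : ℝ) else 1)) :=
    Ex_congr fun A _ => by split_ifs <;> ring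
  rw [e, Ex_add, Ex_one, Ex_mul, this]
  ring

theorem sum_filter_wt (s : ℝ) (U : Finset α) (P : Finset α → Prop) [DecidablePred P]
    (f : Finset α → ℝ) (hf : ∀ A, P A → f A = 1) (hf' : ∀ A, ¬ P A → f A = 0) :
    ∑ A ∈ U.powerset.filter P, wt s U A = Ex s U f := by
  unfold Ex
  rw [Finset.sum_filter]
  refine Finset.sum_congr rfl fun A _ => ?_
  by_cases h : P A
  · simp [h, hf A h]
  · simp [h, hf' A h]

end

end RAND

open RAND in
theorem rand_proof : Stmt_Rand := by
  intro α s U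
  refine ⟨?_, ?_, ?_⟩
  · have := Ex_one s U
    unfold Ex at this
    simpa using this
  · intro κ hκ
    rw [← Ex_subset s U κ hκ]
    refine sum_filter_wt s U _ _ (fun A h => ?_) (fun A h => ?_)
    · simp [h]
    · simp [h]
  · intro ι J κ hU hd
    have := Ex_prod s U J κ (fun _ => 0) hU hd
    rw [show (∏ i ∈ J, (1 - s ^ (κ i).card)) = ∏ i ∈ J, (1 - (1 - (0:ℝ)) * s ^ (κ i).card) by simp,
      ← this]
    refine sum_filter_wt s U _ _ (fun A h => ?_) (fun A h => ?_)
    · rw [Finset.prod_eq_one]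
      intro i hi
      simp [h i hi]
    · push Not at h
      obtain ⟨i, hi, hs⟩ := h
      rw [Finset.prod_eq_zero hi]
      simp [hs]

end Pool.Agent.RRG
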