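import Pool.Agent.RRG.Basic
import Pool.Agent.RRG.Rand

/-!
# Module PH1A (MP_d15a9b_pr): a random set of pairs is good
-/

open Finset Filter Topology
open scoped Classical

namespace Pool.Agent.RRG

namespace PH1A

noncomputable section

/-! ### a greedy lemma -/

theorem greedy {ι β : Type*} [DecidableEq β] (S : Finset ι) (κ : ι → Finset β) (r D : ℕ)
    (hne : ∀ i ∈ S, (κ i).Nonempty) (hr : ∀ i ∈ S, (κ i).card ≤ r)
    (hD : ∀ e, (S.filter fun i => e ∈ κ i).card ≤ D) :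
    ∃ J ⊆ S, (∀ i ∈ J, ∀ j ∈ J, i ≠ j → Disjoint (κ i) (κ j)) ∧ S.card ≤ J.card * (r * D) := by
  classical
  let P : Finset (Finset ι) := S.powerset.filter
    fun J => ∀ i ∈ J, ∀ j ∈ J, i ≠ j → Disjoint (κ i) (κ j)
  have hP : P.Nonempty := ⟨∅, by simp [P]⟩
  obtain ⟨J, hJ, hmax⟩ := Finset.exists_max_image P (fun J => J.card) hP
  simp only [P, mem_filter, mem_powerset] at hJ
  refine ⟨J, hJ.1, hJ.2, ?_⟩
  have hcov : S ⊆ J.biUnion fun j => (κ j).biUnion fun e => S.filter fun i => e ∈ κ i := by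
    intro i hi
    by_contra hcon
    simp only [mem_biUnion, mem_filter, not_exists, not_and] at hcon
    have hdis : ∀ j ∈ J, Disjoint (κ i) (κ j) := by
      intro j hj
      rw [disjoint_left]
      intro e he hej
      exact hcon j hj e hej hi he
    have hiJ : i ∉ J := by
      intro hiJ
      have := hdis i hiJ
      rw [disjoint_self] at this
      obtain ⟨e, he⟩ := hne i hi
      simp only [bot_eq_empty] at this
      rw [this] at he
      simp at he
    have : insert i J ∈ P := by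
      simp only [P, mem_filter, mem_powerset]
      refine ⟨insert_subset hi hJ.1, ?_⟩
      intro a ha b hb hab
      rcases mem_insert.1 ha with rfl | ha'
      · rcases mem_insert.1 hb with rfl | hb'
        · exact absurd rfl hab
        · exact hdis b hb'
      · rcases mem_insert.1 hb with rfl | hb'
        · exact (hdis a ha').symm
        · exact hJ.2 a ha' b hb' hab
    have := hmax _ this
    rw [card_insert_of_notMem hiJ] at this
    omega
  refine (card_le_card hcov).trans (card_biUnion_le.trans ?_)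
  refine (Finset.sum_le_card_nsmul _ _ (r * D) ?_).trans_eq (by simp)
  intro j hj
  refine card_biUnion_le.trans ?_
  refine (Finset.sum_le_card_nsmul _ _ D (fun e _ => hD e)).trans ?_
  rw [smul_eq_mul]
  exact Nat.mul_le_mul_right _ (hr j (hJ.1 hj))

/-! ### the sets of pairs attached to a port -/

variable {n : ℕ} {G H : Gr n} {σ : Fin n → Equiv.Perm (Fin n)}

/-- the non-diagonal pairs -/
def UU (n : ℕ) : Finset (Sym2 (Fin n)) := univ.filter fun e => ¬ e.IsDiag

theorem mem_UU {x y : Fin n} : s(x, y) ∈ UU n ↔ x ≠ y := by simp [UU]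

/-- the three pairs of the path `u - p - q - c` -/
def k3 (u p q c : Fin n) : Finset (Sym2 (Fin n)) := {s(u, p), s(p, q), s(q, c)}

def kap (τ : Equiv.Perm (Fin n)) (v u p q c : Fin n) : Finset (Sym2 (Fin n)) :=
  k3 u p q c ∪ (insert s(v, c) (k3 u p q c)).image (Sym2.map τ)

theorem card_kap (τ : Equiv.Perm (Fin n)) (v u p q c : Fin n) : (kap τ v u p q c).card ≤ 7 := by
  unfold kap
  have h3 : (k3 u p q c).card ≤ 3 := card_le_three
  have h4 : ((insert s(v, c) (k3 u p q c)).image (Sym2.map τ)).card ≤ 4 :=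
    card_image_le.trans ((card_insert_le _ _).trans (by omega))
  exact (card_union_le _ _).trans (by omega)

theorem kap_nonempty (τ : Equiv.Perm (Fin n)) (v u p q c : Fin n) : (kap τ v u p q c).Nonempty :=
  ⟨s(u, p), by simp [kap, k3]⟩

/-- the conflicts in `G` -/
theorem conf3 {K : ℕ} (h1 : T1 K G) (h2 : T2 K G) {v u : Fin n} (S : Finset (Fin n))
    (p q : Fin n → Fin n) (hS : ∀ c ∈ S, C5 G v u (p c) (q c) c) (e : Sym2 (Fin n)) :
    (S.filter fun c => e ∈ insert s(v, c) (k3 u (p c) (q c) c)).card ≤ 3 * K + 3 := by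
  have hsub : (S.filter fun c => e ∈ insert s(v, c) (k3 u (p c) (q c) c)) ⊆
      (S.filter fun c => e = s(v, c)) ∪ ((S.filter fun c => e = s(u, p c)) ∪
        ((S.filter fun c => e = s(p c, q c)) ∪ (S.filter fun c => e = s(q c, c)))) := by
    intro c hc
    simp only [mem_filter, mem_insert, mem_union, k3, mem_singleton] at hc ⊢
    tauto
  have b0 : (S.filter fun c => e = s(v, c)).card ≤ 1 := by
    rw [card_le_one]
    intro a ha b hb
    simp only [mem_filter] at ha hb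
    exact Sym2.congr_right.1 (ha.2.symm.trans hb.2)
  have b1 : (S.filter fun c => e = s(u, p c)).card ≤ K := by
    rcases (S.filter fun c => e = s(u, p c)).eq_empty_or_nonempty with h | ⟨c0, hc0⟩
    · rw [h]; simp
    · simp only [mem_filter] at hc0
      have hx : p c0 ≠ v := (hS c0 hc0.1).2.2.2.2.2.1.symm
      refine le_trans ?_ (h2 (p c0) v hx)
      refine card_le_card_of_injOn (fun c => (q c, c)) ?_ ?_
      · intro c hc
        simp only [coe_filter, Set.mem_ofPred_eq, mem_univ, true_and] at hc ⊢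
        have hpc : p c = p c0 := Sym2.congr_right.1 (hc.2.symm.trans hc0.2)
        obtain ⟨_, _, a3, a4, a5, a6, a7, a8, a9, a10⟩ := hS c hc.1
        rw [hpc] at a3 a10
        exact ⟨a3, a4, a5, a10, hx, fun h => a7 h.symm⟩
      · intro a _ b _ hab
        exact (Prod.mk.inj hab).2
  have b2 : (S.filter fun c => e = s(p c, q c)).card ≤ 2 * K := by
    induction e using Sym2.ind with
    | _ a b =>
      have hs : (S.filter fun c => s(a, b) = s(p c, q c)) ⊆
          (S.filter fun c => q c = b) ∩ (nb G b ∩ nb G v) ∪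
            (S.filter fun c => q c = a) ∩ (nb G a ∩ nb G v) := by
        intro c hc
        simp only [mem_filter, mem_union, mem_inter, mem_nb, Sym2.eq_iff] at hc ⊢
        obtain ⟨hcS, hc⟩ := hc
        obtain ⟨_, _, a3, a4, a5, a6, a7, a8, a9, a10⟩ := hS c hcS
        rcases hc with ⟨_, h⟩ | ⟨h, _⟩
        · left; rw [h]; exact ⟨⟨hcS, rfl⟩, a4, a5.symm⟩
        · right; rw [h]; exact ⟨⟨hcS, rfl⟩, a4, a5.symm⟩
      refine (card_le_card hs).trans ((card_union_le _ _).trans ?_)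
      have gen : ∀ x : Fin n, ((S.filter fun c => q c = x) ∩ (nb G x ∩ nb G v)).card ≤ K := by
        intro x
        by_cases hx : x = v
        · have : (S.filter fun c => q c = x) = ∅ := by
            rw [filter_eq_empty_iff]
            intro c hc hq
            obtain ⟨_, _, a3, a4, a5, a6, a7, a8, a9, a10⟩ := hS c hc
            exact a7 (by rw [hq, hx])
          rw [this]; simp
        · exact (card_le_card inter_subset_right).trans (h1 x v hx)
      have := gen a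
      have := gen b
      omega
  have b3 : (S.filter fun c => e = s(q c, c)).card ≤ 2 := by
    induction e using Sym2.ind with
    | _ a b =>
      have hs : (S.filter fun c => s(a, b) = s(q c, c)) ⊆ {a, b} := by
        intro c hc
        simp only [mem_filter, Sym2.eq_iff, mem_insert, mem_singleton] at hc ⊢
        rcases hc.2 with ⟨_, h⟩ | ⟨h, _⟩
        · right; exact h.symm
        · left; exact h.symm
      exact (card_le_card hs).trans card_le_two
  refine (card_le_card hsub).trans ((card_union_le _ _).trans ?_)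
  refine (Nat.add_le_add b0 ((card_union_le _ _).trans (Nat.add_le_add b1
    ((card_union_le _ _).trans (Nat.add_le_add b2 b3))))).trans ?_
  omega

theorem port {K : ℕ} (hp : IsPartner G H σ) (h1 : T1 K G) (h2 : T2 K G) {v w : Fin n}
    (hvw : H.Adj v w) :
    ∃ (J : Finset (Fin n)) (κ : Fin n → Finset (Sym2 (Fin n))),
      (∀ c ∈ J, κ c ⊆ UU n ∧ (κ c).card ≤ 7) ∧ (∀ i ∈ J, ∀ j ∈ J, i ≠ j → Disjoint (κ i) (κ j)) ∧
      (∀ Ω : Finset (Sym2 (Fin n)), (J.filter fun c => κ c ⊆ Ω).card ≤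
        hits Ω G H σ v w ((σ v).symm w)) ∧
      nC5 G v ((σ v).symm w) ≤ K * (J.card * (7 * (6 * K + 6))) := by
  classical
  set u := (σ v).symm w with hu
  have huw : σ v u = w := by rw [hu]; simp
  have hvu : G.Adj v u := (hp.adj_root_symm v w).1 hvw
  let S : Finset (Fin n) := univ.filter fun c => ∃ p q, C5 G v u p q c
  have hS : ∀ c ∈ S, ∃ p q, C5 G v u p q c := fun c hc => (mem_filter.1 hc).2
  choose! p q hpq using hS
  let κ : Fin n → Finset (Sym2 (Fin n)) := fun c => kap (σ v) v u (p c) (q c) c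
  have hconf : ∀ e, (S.filter fun c => e ∈ κ c).card ≤ 6 * K + 6 := by
    intro e
    have hs : (S.filter fun c => e ∈ κ c) ⊆
        (S.filter fun c => e ∈ insert s(v, c) (k3 u (p c) (q c) c)) ∪
        (S.filter fun c => Sym2.map (σ v).symm e ∈ insert s(v, c) (k3 u (p c) (q c) c)) := by
      intro c hc
      simp only [mem_filter, mem_union, κ, kap] at hc ⊢
      obtain ⟨hc, h | h⟩ := hc
      · left; exact ⟨hc, mem_insert_of_mem h⟩
      · right
        obtain ⟨f, hf, hfe⟩ := mem_image.1 h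
        refine ⟨hc, ?_⟩
        rw [← hfe, Sym2.map_map]
        simpa using hf
    refine (card_le_card hs).trans ((card_union_le _ _).trans ?_)
    have a := conf3 h1 h2 S p q hpq e
    have b := conf3 h1 h2 S p q hpq (Sym2.map (σ v).symm e)
    omega
  obtain ⟨J, hJS, hJd, hJc⟩ := greedy S κ 7 (6 * K + 6) (fun c _ => kap_nonempty _ _ _ _ _ _)
    (fun c _ => card_kap _ _ _ _ _ _)
    (fun e => by convert hconf e)
  refine ⟨J, κ, ?_, hJd, ?_, ?_⟩
  · intro c hc
    refine ⟨?_, card_kap _ _ _ _ _ _⟩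
    obtain ⟨a1, a2, a3, a4, a5, a6, a7, a8, a9, a10⟩ := hpq c (hJS hc)
    have m1 : ∀ e ∈ insert s(v, c) (k3 u (p c) (q c) c), e ∈ UU n := by
      intro e he
      simp only [k3, mem_insert, mem_singleton] at he
      rcases he with rfl | rfl | rfl | rfl
      · exact mem_UU.2 a5.ne.symm
      · exact mem_UU.2 a2.ne
      · exact mem_UU.2 a3.ne
      · exact mem_UU.2 a4.ne
    intro e he
    simp only [κ, kap, mem_union, mem_image] at he
    rcases he with he | ⟨f, hf, rfl⟩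
    · exact m1 e (mem_insert_of_mem he)
    · have := m1 f hf
      induction f using Sym2.ind with
      | _ a b =>
        rw [Sym2.map_mk]
        exact mem_UU.2 fun h => (mem_UU.1 this) ((σ v).injective h)
  · intro Ω
    unfold hits
    refine card_le_card_of_injOn (fun c => σ v c) ?_ (fun a _ b _ hab => (σ v).injective hab)
    intro c hc
    simp only [coe_filter, Set.mem_ofPred_eq, mem_univ, true_and] at hc ⊢
    obtain ⟨hcJ, hcΩ⟩ := hc
    obtain ⟨a1, a2, a3, a4, a5, a6, a7, a8, a9, a10⟩ := hpq c (hJS hcJ)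
    have hP : P3 G u (p c) (q c) c := ⟨a2, a3, a4, a8, a9, a10⟩
    have hP' := (hp.P3_iff hvu a5.symm (p c) (q c)).1 hP
    rw [huw] at hP'
    have im : ∀ e ∈ insert s(v, c) (k3 u (p c) (q c) c), Sym2.map (σ v) e ∈ Ω := by
      intro e he
      exact hcΩ (mem_union_right _ (mem_image_of_mem _ he))
    have im' : ∀ e ∈ k3 u (p c) (q c) c, e ∈ Ω := by
      intro e he
      exact hcΩ (mem_union_left _ he)
    refine ⟨(hp.adj_root v c).1 a5.symm, ?_, ?_, ?_, ?_⟩
    · intro h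
      rw [← huw] at h
      exact a9 ((σ v).injective h).symm
    · have := im s(v, c) (mem_insert_self _ _)
      rwa [Sym2.map_mk, hp.root] at this
    · refine ⟨σ v (p c), σ v (q c), hP', ?_, ?_, ?_, ?_, ?_⟩
      · rw [ne_eq, hp.ne_root_iff]; exact a6.symm
      · rw [ne_eq, hp.ne_root_iff]; exact a7.symm
      · have := im s(u, p c) (by simp [k3])
        rwa [Sym2.map_mk, huw] at this
      · have := im s(p c, q c) (by simp [k3])
        rwa [Sym2.map_mk] at this
      · have := im s(q c, c) (by simp [k3])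
        rwa [Sym2.map_mk] at this
    · refine ⟨p c, q c, ?_, a6.symm, a7.symm, ?_, ?_, ?_⟩
      · simpa using hP
      · exact im' _ (by simp [k3])
      · exact im' _ (by simp [k3])
      · simpa using im' s(q c, c) (by simp [k3])
  · have hfib : nC5 G v u ≤ K * S.card := by
      unfold nC5
      refine card_le_mul_card_image_of_maps_to (f := fun t : Fin n × Fin n × Fin n => t.2.2) ?_ K ?_
      · intro t ht
        simp only [mem_filter, mem_univ, true_and, S] at ht ⊢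
        exact ⟨_, _, ht⟩
      · intro c _
        by_cases hc : u = c
        · refine le_trans (le_of_eq ?_) (Nat.zero_le K)
          rw [card_eq_zero, filter_eq_empty_iff]
          intro t ht h
          simp only [mem_filter, mem_univ, true_and] at ht
          exact ht.2.2.2.2.2.2.2.2.1 (by rw [h]; exact hc)
        · refine le_trans ?_ (h2 u c hc)
          refine card_le_card_of_injOn (fun t => (t.1, t.2.1)) ?_ ?_
          · intro t ht
            simp only [coe_filter, Set.mem_ofPred_eq, mem_univ, true_and, mem_filter] at ht ⊢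
            obtain ⟨⟨b1, b2, b3, b4, b5, b6, b7, b8, b9, b10⟩, rfl⟩ := ht
            exact ⟨b2, b3, b4, b8, b9, b10⟩
          · intro a ha b hb hab
            simp only [coe_filter, Set.mem_ofPred_eq, mem_univ, true_and, mem_filter] at ha hb
            have := Prod.mk.inj hab
            exact Prod.ext this.1 (Prod.ext this.2 (ha.2.trans hb.2.symm))
    exact hfib.trans (Nat.mul_le_mul_left _ hJc)

/-! ### probability -/

open RAND

theorem prod_ite_eq_pow {α ι : Type*} [DecidableEq α] (J : Finset ι) (κ : ι → Finset α) (A : Finset α) (θ : ℝ) :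
    ∏ i ∈ J, (if κ i ⊆ A then θ else 1) = θ ^ (J.filter fun i => κ i ⊆ A).card := by
  rw [Finset.prod_ite, Finset.prod_const, Finset.prod_const_one, mul_one]

theorem Ex_half {α ι : Type} [DecidableEq α] {s : ℝ} (h0 : 0 ≤ s) (h1 : s ≤ 1) (U : Finset α) (J : Finset ι)
    (κ : ι → Finset α) (r : ℕ) (hU : ∀ i ∈ J, κ i ⊆ U ∧ (κ i).card ≤ r)
    (hd : ∀ i ∈ J, ∀ j ∈ J, i ≠ j → Disjoint (κ i) (κ j)) :
    Ex s U (fun A => ∏ i ∈ J, (if κ i ⊆ A then (1 / 2 : ℝ) else 1)) ≤
      Real.exp (-(s ^ r * J.card / 2)) := by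
  rw [Ex_prod s U J κ (fun _ => 1 / 2) (fun i hi => (hU i hi).1) hd]
  have : ∀ i ∈ J, (1 - (1 - 1 / 2) * s ^ (κ i).card : ℝ) ≤ Real.exp (-(s ^ r / 2)) := by
    intro i hi
    have h2 : s ^ r ≤ s ^ (κ i).card := pow_le_pow_of_le_one h0 h1 (hU i hi).2
    have h3 := Real.add_one_le_exp (-(s ^ r / 2))
    linarith
  have hnn : ∀ i ∈ J, (0 : ℝ) ≤ (1 - (1 - 1 / 2) * s ^ (κ i).card) := by
    intro i _
    have := pow_le_one₀ (n := (κ i).card) h0 h1
    linarith
  refine (Finset.prod_le_prod hnn this).trans ?_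
  rw [Finset.prod_const, ← Real.exp_nat_mul]
  apply le_of_eq
  congr 1
  ring

theorem Ex_mem {α : Type} [DecidableEq α] (s : ℝ) (U : Finset α) {e : α} (he : e ∈ U) :
    Ex s U (fun A => if e ∈ A then 1 else 0) = s := by
  have := Ex_subset s U {e} (singleton_subset_iff.2 he)
  simpa using this

/-- pairs at `x` -/
def star (n : ℕ) (x : Fin n) : Finset (Sym2 (Fin n)) := (UU n).filter fun e => x ∈ e

theorem card_star (x : Fin n) : (star n x).card ≤ n := by
  have : star n x ⊆ univ.image fun y => s(x, y) := by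
    intro e he
    simp only [star, mem_filter] at he
    obtain ⟨y, rfl⟩ := Sym2.mem_iff_exists.1 he.2
    simp
  exact (card_le_card this).trans (card_image_le.trans (by simp))

/-- (a) -/
theorem bad_a {s : ℝ} (h0 : 0 ≤ s) (h1 : (2 ^ 32 - 1) * s ≤ 1) (x : Fin n) :
    (∀ Ω ⊆ UU n, ¬ (16 * (Ω.filter fun f => x ∈ f).card ≤ n) →
      1 ≤ (1 / 4 : ℝ) ^ n * ∏ e ∈ star n x, (if {e} ⊆ Ω then (2 ^ 32 : ℝ) else 1)) ∧
    (∀ Ω : Finset (Sym2 (Fin n)), 0 ≤ (1 / 4 : ℝ) ^ n * ∏ e ∈ star n x, (if {e} ⊆ Ω then (2 ^ 32 : ℝ) else 1)) ∧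
    Ex s (UU n) (fun Ω => (1 / 4 : ℝ) ^ n * ∏ e ∈ star n x, (if {e} ⊆ Ω then (2 ^ 32 : ℝ) else 1)) ≤
      (1 / 2) ^ n := by
  refine ⟨?_, ?_, ?_⟩
  · intro Ω hΩ hbad
    rw [prod_ite_eq_pow (star n x) (fun e => {e}) Ω (2 ^ 32)]
    have e1 : (star n x).filter (fun i => {i} ⊆ Ω) = Ω.filter fun f => x ∈ f := by
      ext e
      simp only [star, mem_filter, singleton_subset_iff]
      constructor
      · rintro ⟨⟨_, h⟩, h'⟩; exact ⟨h', h⟩
      · rintro ⟨h, h'⟩; exact ⟨⟨hΩ h, h'⟩, h⟩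
    rw [e1]
    set k := (Ω.filter fun f => x ∈ f).card
    have hk : n ≤ 16 * k := by omega
    have : (2 ^ 32 : ℝ) ^ k = 4 ^ (16 * k) := by
      rw [show (4 : ℝ) = 2 ^ 2 by norm_num, ← pow_mul, ← pow_mul]
      congr 1
      ring
    rw [this, one_div, inv_pow, inv_mul_eq_div, le_div_iff₀ (by positivity), one_mul]
    exact pow_le_pow_right₀ (by norm_num) hk
  · intro Ω
    refine mul_nonneg (by positivity) (Finset.prod_nonneg fun e _ => ?_)
    split_ifs <;> norm_num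
  · rw [Ex_mul, Ex_prod s (UU n) (star n x) (fun e => {e}) (fun _ => 2 ^ 32)]
    · have h2 : ∏ i ∈ star n x, (1 - (1 - 2 ^ 32) * s ^ ({i} : Finset (Sym2 (Fin n))).card) ≤
          (2 : ℝ) ^ n := by
        have : ∀ i ∈ star n x, (1 - (1 - 2 ^ 32) * s ^ ({i} : Finset (Sym2 (Fin n))).card) ≤ (2 : ℝ) := by
          intro i _
          rw [card_singleton, pow_one]
          linarith
        refine (Finset.prod_le_prod (fun i _ => ?_) this).trans ?_
        · rw [card_singleton, pow_one]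
          nlinarith
        · rw [Finset.prod_const]
          exact pow_le_pow_right₀ (by norm_num) (card_star x)
      calc (1 / 4 : ℝ) ^ n * _ ≤ (1 / 4 : ℝ) ^ n * 2 ^ n := mul_le_mul_of_nonneg_left h2 (by positivity)
        _ = (1 / 2) ^ n := by rw [← mul_pow]; norm_num
    · intro e he
      rw [singleton_subset_iff]
      exact (mem_filter.1 he).1
    · intro i _ j _ hij
      simpa using hij

theorem ed_subset (G : Gr n) : ed G ⊆ UU n := by
  intro e he
  induction e using Sym2.ind with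
  | _ x y => exact mem_UU.2 (mk_mem_ed.1 he).ne

theorem card_ed {d : ℕ} (hG : G ∈ Reg n d) : (ed G).card ≤ n * d := by
  have : ed G ⊆ ((univ : Finset (Fin n)).biUnion fun x => (nb G x).image fun y => s(x, y)) := by
    intro e he
    induction e using Sym2.ind with
    | _ x y =>
      simp only [mem_biUnion, mem_univ, true_and, mem_image, mem_nb]
      exact ⟨x, y, mk_mem_ed.1 he, rfl⟩
  refine (card_le_card this).trans (card_biUnion_le.trans ?_)
  calc ∑ x, ((nb G x).image fun y => s(x, y)).card ≤ ∑ x : Fin n, d :=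
        Finset.sum_le_sum fun x _ => card_image_le.trans_eq (mem_Reg.1 hG x)
    _ = n * d := by simp

/-- (b) -/
theorem bad_b {s : ℝ} (h0 : 0 < s) {d : ℕ} (hn : 0 < n) (hd : 0 < d) (hG : G ∈ Reg n d) :
    (∀ Ω : Finset (Sym2 (Fin n)), ¬ (((ed G ∩ Ω).card : ℝ) ≤ 8 * s * n * d) →
      1 ≤ (8 * s * n * d)⁻¹ * ∑ e ∈ ed G, (if e ∈ Ω then (1 : ℝ) else 0)) ∧
    (∀ Ω : Finset (Sym2 (Fin n)), 0 ≤ (8 * s * n * d)⁻¹ * ∑ e ∈ ed G, (if e ∈ Ω then (1 : ℝ) else 0)) ∧
    Ex s (UU n) (fun Ω => (8 * s * n * d)⁻¹ * ∑ e ∈ ed G, (if e ∈ Ω then (1 : ℝ) else 0)) ≤ 1 / 8 := by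
  have hn' : (0 : ℝ) < n := by exact_mod_cast hn
  have hd' : (0 : ℝ) < d := by exact_mod_cast hd
  have hpos : 0 < 8 * s * n * d := by positivity
  refine ⟨?_, ?_, ?_⟩
  · intro Ω h
    push Not at h
    rw [inv_mul_eq_div, le_div_iff₀ hpos, one_mul]
    rw [Finset.sum_ite_mem, Finset.sum_const, nsmul_eq_mul, mul_one]
    exact h.le
  · intro Ω
    refine mul_nonneg (by positivity) (Finset.sum_nonneg fun e _ => ?_)
    split_ifs <;> norm_num
  · rw [Ex_mul, Ex_sum]
    have : ∑ i ∈ ed G, Ex s (UU n) (fun A => if i ∈ A then (1 : ℝ) else 0) = (ed G).card * s := by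
      rw [Finset.sum_congr rfl (fun i hi => Ex_mem s (UU n) (ed_subset G hi)), Finset.sum_const,
        nsmul_eq_mul]
    rw [this, inv_mul_eq_div, div_le_iff₀ hpos]
    have hc : ((ed G).card : ℝ) ≤ n * d := by exact_mod_cast card_ed hG
    nlinarith

/-- (d) -/
theorem bad_d {s : ℝ} (h0 : 0 ≤ s) (h1 : s ≤ 1) (hp : IsPartner G H σ) :
    ∃ B : Finset (Sym2 (Fin n)) → ℝ,
    (∀ Ω, ¬ (2 * (univ.filter fun t : Fin n × Fin n => Ch H σ t.1 t.2 ∧ ¬ Live Ω H σ t.1 t.2).card ≤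
      Mch H σ) → 1 ≤ B Ω) ∧ (∀ Ω, 0 ≤ B Ω) ∧ Ex s (UU n) B ≤ 6 * s := by
  let C : Finset (Fin n × Fin n) := univ.filter fun t => Ch H σ t.1 t.2
  have hC : Mch H σ = C.card := rfl
  let ind : Finset (Sym2 (Fin n)) → Sym2 (Fin n) → ℝ := fun Ω e => if e ∈ Ω then (1 : ℝ) else 0
  have hind : ∀ Ω e, 0 ≤ ind Ω e := by
    intro Ω e
    simp only [ind]
    split_ifs <;> norm_num
  let B : Finset (Sym2 (Fin n)) → ℝ := fun Ω => (2 / (Mch H σ : ℝ)) * ∑ t ∈ C,
    (ind Ω s(t.1, t.2) + (ind Ω s(t.1, (σ t.1).symm t.2) + ind Ω s(t.2, (σ t.2).symm t.1)))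
  refine ⟨B, ?_, ?_, ?_⟩
  · intro Ω h
    push Not at h
    have hX : ((univ.filter fun t : Fin n × Fin n => Ch H σ t.1 t.2 ∧ ¬ Live Ω H σ t.1 t.2).card : ℝ) ≤
        ∑ t ∈ C, (ind Ω s(t.1, t.2) + (ind Ω s(t.1, (σ t.1).symm t.2) +
          ind Ω s(t.2, (σ t.2).symm t.1))) := by
      have e1 : (univ.filter fun t : Fin n × Fin n => Ch H σ t.1 t.2 ∧ ¬ Live Ω H σ t.1 t.2) =
          C.filter fun t => ¬ Live Ω H σ t.1 t.2 := by
        ext t; simp [C]
      rw [e1, Finset.card_filter]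
      push_cast
      refine Finset.sum_le_sum fun t ht => ?_
      have n1 := hind Ω s(t.1, t.2)
      have n2 := hind Ω s(t.1, (σ t.1).symm t.2)
      have n3 := hind Ω s(t.2, (σ t.2).symm t.1)
      by_cases hL : Live Ω H σ t.1 t.2
      · simp only [hL, not_true_eq_false, if_false, Nat.cast_zero]
        linarith
      · simp only [hL, not_false_eq_true, if_true, Nat.cast_one]
        unfold Live at hL
        by_cases a1 : s(t.1, t.2) ∈ Ω
        · have : ind Ω s(t.1, t.2) = 1 := by simp only [ind, a1, if_true]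
          linarith
        · by_cases a2 : s(t.1, (σ t.1).symm t.2) ∈ Ω
          · have : ind Ω s(t.1, (σ t.1).symm t.2) = 1 := by simp only [ind, a2, if_true]
            linarith
          · by_cases a3 : s(t.2, (σ t.2).symm t.1) ∈ Ω
            · have : ind Ω s(t.2, (σ t.2).symm t.1) = 1 := by simp only [ind, a3, if_true]
              linarith
            · exact absurd ⟨a1, fun _ => a2, fun _ => a3⟩ hL
    have hM : 0 < Mch H σ := by
      have : (univ.filter fun t : Fin n × Fin n => Ch H σ t.1 t.2 ∧ ¬ Live Ω H σ t.1 t.2).card ≤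
          Mch H σ := by
        rw [hC]
        refine card_le_card fun t ht => ?_
        simp only [mem_filter, mem_univ, true_and, C] at ht ⊢
        exact ht.1
      omega
    have hM' : (0 : ℝ) < Mch H σ := by exact_mod_cast hM
    have h' : (Mch H σ : ℝ) ≤ 2 * ((univ.filter fun t : Fin n × Fin n =>
        Ch H σ t.1 t.2 ∧ ¬ Live Ω H σ t.1 t.2).card : ℝ) := by exact_mod_cast h.le
    simp only [B]
    rw [div_mul_eq_mul_div, le_div_iff₀ hM', one_mul]
    linarith
  · intro Ω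
    refine mul_nonneg (by positivity) (Finset.sum_nonneg fun t _ => ?_)
    have n1 := hind Ω s(t.1, t.2)
    have n2 := hind Ω s(t.1, (σ t.1).symm t.2)
    have n3 := hind Ω s(t.2, (σ t.2).symm t.1)
    linarith
  · simp only [B]
    rw [Ex_mul, Ex_sum]
    have : ∀ t ∈ C, Ex s (UU n) (fun Ω => ind Ω s(t.1, t.2) + (ind Ω s(t.1, (σ t.1).symm t.2) +
        ind Ω s(t.2, (σ t.2).symm t.1))) = 3 * s := by
      intro t ht
      have hch : Ch H σ t.1 t.2 := (mem_filter.1 ht).2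
      rw [Ex_add, Ex_add]
      have e1 : Ex s (UU n) (fun Ω => ind Ω s(t.1, t.2)) = s :=
        Ex_mem s (UU n) (mem_UU.2 hch.1.ne)
      have e2 : Ex s (UU n) (fun Ω => ind Ω s(t.1, (σ t.1).symm t.2)) = s :=
        Ex_mem s (UU n) (mem_UU.2 ((hp.adj_root_symm _ _).1 hch.1).ne)
      have e3 : Ex s (UU n) (fun Ω => ind Ω s(t.2, (σ t.2).symm t.1)) = s :=
        Ex_mem s (UU n) (mem_UU.2 ((hp.adj_root_symm _ _).1 hch.1.symm).ne)
      rw [e1, e2, e3]; ring
    rw [Finset.sum_congr rfl this, Finset.sum_const, nsmul_eq_mul, ← hC]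
    by_cases hM : (Mch H σ : ℝ) = 0
    · rw [hM]; simp; exact h0
    · rw [div_mul_eq_mul_div, div_le_iff₀ (lt_of_le_of_ne (by positivity) (Ne.symm hM))]
      nlinarith

/-- (c) -/
theorem bad_c {s : ℝ} (h0 : 0 ≤ s) (h1 : s ≤ 1) {K : ℕ} {h₀ : ℝ} (hp : IsPartner G H σ) (hT1 : T1 K G)
    (hT2 : T2 K G) {v w : Fin n} (hvw : H.Adj v w) :
    ∃ (B : Finset (Sym2 (Fin n)) → ℝ) (m : ℕ), nC5 G v ((σ v).symm w) ≤ K * (m * (7 * (6 * K + 6))) ∧
    (∀ Ω, ¬ (h₀ < hits Ω G H σ v w ((σ v).symm w)) → 1 ≤ B Ω) ∧ (∀ Ω, 0 ≤ B Ω) ∧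
    Ex s (UU n) B ≤ (2 : ℝ) ^ h₀ * Real.exp (-(s ^ 7 * m / 2)) := by
  obtain ⟨J, κ, hκ, hd, hh, hm⟩ := port hp hT1 hT2 hvw
  refine ⟨fun Ω => (2 : ℝ) ^ h₀ * ∏ c ∈ J, (if κ c ⊆ Ω then (1 / 2 : ℝ) else 1), J.card, hm, ?_, ?_, ?_⟩
  · intro Ω h
    push Not at h
    simp only
    rw [prod_ite_eq_pow]
    have hle : ((J.filter fun c => κ c ⊆ Ω).card : ℝ) ≤ h₀ := by
      refine le_trans ?_ h
      have := hh Ω
      refine Nat.cast_le.2 (le_trans (le_of_eq ?_) this)
      congr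
    rw [one_div, inv_pow, ← div_eq_mul_inv, le_div_iff₀ (by positivity), one_mul, ← Real.rpow_natCast]
    exact Real.rpow_le_rpow_of_exponent_le (by norm_num) hle
  · intro Ω
    refine mul_nonneg (by positivity) (Finset.prod_nonneg fun e _ => ?_)
    split_ifs <;> norm_num
  · rw [Ex_mul]
    exact mul_le_mul_of_nonneg_left (Ex_half h0 h1 (UU n) J κ 7 hκ hd) (by positivity)

/-! ### asymptotics -/

theorem ev_rpow {δ : ℝ} (hδ : 0 < δ) (C : ℝ) : ∀ᶠ n : ℕ in atTop, C ≤ (n : ℝ) ^ δ :=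
  ((tendsto_rpow_atTop hδ).comp tendsto_natCast_atTop_atTop).eventually_ge_atTop C

theorem ev_exp {δ b : ℝ} (hδ : 0 < δ) (hb : 0 < b) (η : ℝ) (hη : 0 < η) :
    ∀ᶠ n : ℕ in atTop, (n : ℝ) ^ 2 * Real.exp (-b * (n : ℝ) ^ δ) ≤ η := by
  have h1 := tendsto_rpow_mul_exp_neg_mul_atTop_nhds_zero (2 / δ) b hb
  have h2 := h1.comp ((tendsto_rpow_atTop hδ).comp tendsto_natCast_atTop_atTop)
  have h3 : ∀ᶠ n : ℕ in atTop, ((fun x : ℝ => x ^ (2 / δ) * Real.exp (-b * x)) ∘
      ((fun x : ℝ => x ^ δ) ∘ (Nat.cast : ℕ → ℝ))) n < η := (tendsto_order.1 h2).2 η hη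
  filter_upwards [h3] with n hn
  simp only [Function.comp] at hn
  rw [← Real.rpow_mul (Nat.cast_nonneg n), mul_div_cancel₀ _ hδ.ne'] at hn
  have : ((n : ℝ)) ^ (2 : ℝ) = (n : ℝ) ^ 2 := by
    rw [← Real.rpow_natCast]; norm_num
  rw [this] at hn
  exact hn.le

theorem ev_half : ∀ᶠ n : ℕ in atTop, (n : ℝ) * (1 / 2) ^ n ≤ 1 / 16 := by
  have := tendsto_self_mul_const_pow_of_lt_one (r := 1 / 2) (by norm_num) (by norm_num)
  filter_upwards [(tendsto_order.1 this).2 (1 / 16) (by norm_num)] with n hn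
  exact hn.le

theorem lam_ge {ε ε₀ : ℝ} {n d : ℕ} (hn : 0 < n) (hd : RegC ε ε₀ n d) : (n : ℝ) ^ (4 * ε) ≤ lam n d := by
  have hn' : (0 : ℝ) < n := by exact_mod_cast hn
  unfold lam
  rw [le_div_iff₀ hn']
  have h1 : ((n : ℝ) ^ (1 / 4 + ε)) ^ 4 ≤ (d : ℝ) ^ 4 := pow_le_pow_left₀ (by positivity) hd.1 4
  refine le_trans (le_of_eq ?_) h1
  rw [← Real.rpow_natCast ((n : ℝ) ^ (1 / 4 + ε)), ← Real.rpow_mul hn'.le]
  nth_rewrite 2 [← Real.rpow_one (n : ℝ)]
  rw [← Real.rpow_add hn']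
  congr 1
  push_cast
  ring

end

end PH1A

open PH1A RAND in
theorem ph1a_proof : Stmt_PH1a := by
  intro ε ε₀ c₁ c₂ c₄ δ₁ K hε hε₀ hc₁ hc₂ hc₄ hδ₁ h16c h16e
  set c' : ℝ := c₁ / (42 * ((K : ℝ) + 1) ^ 2) with hc'
  have hc'0 : 0 < c' := by positivity
  obtain ⟨n₀, hn₀⟩ := eventually_atTop.1 ((ev_rpow hδ₁ (2 ^ 32)).and ((ev_rpow hδ₁ (4 / c')).and
    ((ev_exp hδ₁ (show 0 < c' / 4 by positivity) (1 / 16) (by norm_num)).and
      (ev_half.and (eventually_ge_atTop 1)))))
  refine ⟨n₀, fun n hn d hd G H σ hG hp h1 h2 h3 => ?_⟩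
  obtain ⟨a1, a2, a3, a4, a5⟩ := hn₀ n hn
  have hn' : (0 : ℝ) < n := by exact_mod_cast a5
  have hn1 : (1 : ℝ) ≤ n := by exact_mod_cast a5
  set s : ℝ := (n : ℝ) ^ (-δ₁) with hs
  have hs0 : 0 < s := by positivity
  have hsmul : (n : ℝ) ^ δ₁ * s = 1 := by
    rw [hs, ← Real.rpow_add hn']; simp
  have hs32 : (2 ^ 32 - 1) * s ≤ 1 := by nlinarith
  have hs1 : s ≤ 1 := by nlinarith
  have hs6 : 6 * s ≤ 1 / 16 := by nlinarith
  have hd0 : 0 < d := by
    have : (0 : ℝ) < d := lt_of_lt_of_le (by positivity) hd.1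
    exact_mod_cast this
  have hlam := lam_ge a5 hd
  have hlam0 : 0 < lam n d := lt_of_lt_of_le (by positivity) hlam
  set h₀ : ℝ := (n : ℝ) ^ (-c₄) * lam n d with hh₀
  have hh₀0 : 0 ≤ h₀ := by positivity
  -- the exponents
  have hs7 : s ^ 7 = (n : ℝ) ^ (-(7 * δ₁)) := by
    rw [hs, ← Real.rpow_natCast, ← Real.rpow_mul hn'.le]
    congr 1
    push_cast; ring
  have hE1 : h₀ ≤ s ^ 7 * c' * lam n d / 4 := by
    have e1 : (n : ℝ) ^ (-c₄) ≤ s ^ 7 * (c' / 4) := by
      have : (n : ℝ) ^ (-c₄) ≤ (n : ℝ) ^ (-(7 * δ₁)) * (n : ℝ) ^ (-δ₁) := by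
        rw [← Real.rpow_add hn']
        exact Real.rpow_le_rpow_of_exponent_le hn1 (by linarith)
      refine this.trans ?_
      rw [← hs7, ← hs]
      refine mul_le_mul_of_nonneg_left ?_ (by positivity)
      rw [div_le_iff₀ hc'0] at a2
      nlinarith
    calc h₀ ≤ s ^ 7 * (c' / 4) * lam n d := mul_le_mul_of_nonneg_right e1 hlam0.le
      _ = s ^ 7 * c' * lam n d / 4 := by ring
  have hE2 : (n : ℝ) ^ δ₁ ≤ s ^ 7 * lam n d := by
    calc (n : ℝ) ^ δ₁ ≤ (n : ℝ) ^ (-(7 * δ₁)) * (n : ℝ) ^ (4 * ε) := by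
          rw [← Real.rpow_add hn']
          exact Real.rpow_le_rpow_of_exponent_le hn1 (by linarith)
      _ ≤ s ^ 7 * lam n d := by
          rw [hs7]
          exact mul_le_mul_of_nonneg_left hlam (by positivity)
  -- bad events
  let Bp : Finset (Fin n × Fin n) := univ.filter fun t => H.Adj t.1 t.2
  have hC : ∀ t ∈ Bp, ∃ B : Finset (Sym2 (Fin n)) → ℝ,
      (∀ Ω, ¬ (h₀ < hits Ω G H σ t.1 t.2 ((σ t.1).symm t.2)) → 1 ≤ B Ω) ∧ (∀ Ω, 0 ≤ B Ω) ∧
      Ex s (UU n) B ≤ Real.exp (-(c' / 4) * (n : ℝ) ^ δ₁) := by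
    intro t ht
    have hadj : H.Adj t.1 t.2 := (mem_filter.1 ht).2
    obtain ⟨B, m, hm, hB1, hB0, hBe⟩ := bad_c (h₀ := h₀) hs0.le hs1 hp h1 h2 hadj
    refine ⟨B, hB1, hB0, hBe.trans ?_⟩
    have hm' : c' * lam n d ≤ m := by
      have b1 := (h3 t.1 _ ((hp.adj_root_symm _ _).1 hadj)).1
      have b2 : (nC5 G t.1 ((σ t.1).symm t.2) : ℝ) ≤ K * (m * (7 * (6 * K + 6))) := by exact_mod_cast hm
      have b3 : c₁ * lam n d ≤ 42 * ((K : ℝ) + 1) ^ 2 * m := by
        have hK : (0 : ℝ) ≤ K := Nat.cast_nonneg K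
        have hmm : (0 : ℝ) ≤ m := Nat.cast_nonneg m
        have : (K : ℝ) * (m * (7 * (6 * K + 6))) = 42 * (K * (K + 1)) * m := by ring
        nlinarith [mul_nonneg hK hmm]
      rw [hc', div_mul_eq_mul_div, div_le_iff₀ (by positivity)]
      linarith
    have b4 : (2 : ℝ) ^ h₀ ≤ Real.exp h₀ := by
      rw [← Real.exp_one_rpow]
      exact Real.rpow_le_rpow (by norm_num) (by have := Real.add_one_le_exp 1; linarith) hh₀0
    calc (2 : ℝ) ^ h₀ * Real.exp (-(s ^ 7 * m / 2)) ≤ Real.exp h₀ * Real.exp (-(s ^ 7 * m / 2)) :=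
          mul_le_mul_of_nonneg_right b4 (Real.exp_pos _).le
      _ = Real.exp (h₀ - s ^ 7 * m / 2) := by rw [← Real.exp_add]; ring_nf
      _ ≤ Real.exp (-(c' / 4) * (n : ℝ) ^ δ₁) := by
          apply Real.exp_le_exp.2
          have hs7' : 0 ≤ s ^ 7 := by positivity
          have b5 : s ^ 7 * (c' * lam n d) ≤ s ^ 7 * m := mul_le_mul_of_nonneg_left hm' hs7'
          have b6 : c' * (n : ℝ) ^ δ₁ ≤ c' * (s ^ 7 * lam n d) := mul_le_mul_of_nonneg_left hE2 hc'0.le
          nlinarith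
  choose! B hB1 hB0 hBe using hC
  obtain ⟨D, hD1, hD0, hDe⟩ := bad_d hs0.le hs1 hp
  have hH := hp.reg hG
  obtain ⟨hG1, hG0, hGe⟩ := bad_b hs0 a5 hd0 hG
  obtain ⟨hH1, hH0, hHe⟩ := bad_b hs0 a5 hd0 hH
  set FG : Finset (Sym2 (Fin n)) → ℝ := fun Ω => (8 * s * n * d)⁻¹ * ∑ e ∈ ed G, (if e ∈ Ω then (1 : ℝ) else 0)
  set FH : Finset (Sym2 (Fin n)) → ℝ := fun Ω => (8 * s * n * d)⁻¹ * ∑ e ∈ ed H, (if e ∈ Ω then (1 : ℝ) else 0)
  set FA : Fin n → Finset (Sym2 (Fin n)) → ℝ := fun x Ω =>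
    (1 / 4 : ℝ) ^ n * ∏ e ∈ star n x, (if {e} ⊆ Ω then (2 ^ 32 : ℝ) else 1) with hFA
  set good : Finset (Sym2 (Fin n)) → ℝ := fun Ω => if GoodΩ d s h₀ G H σ Ω then 1 else 0 with hgood
  have key : ∀ Ω ⊆ UU n, (1 : ℝ) ≤ good Ω + ((∑ x : Fin n, FA x Ω) + (FG Ω + (FH Ω +
      ((∑ t ∈ Bp, B t Ω) + D Ω)))) := by
    intro Ω hΩ
    have n1 : 0 ≤ ∑ x : Fin n, FA x Ω := Finset.sum_nonneg fun x _ => (bad_a hs0.le hs32 x).2.1 Ω
    have n2 := hG0 Ω
    have n3 := hH0 Ω
    have n4 : 0 ≤ ∑ t ∈ Bp, B t Ω := Finset.sum_nonneg fun t ht => hB0 t ht Ω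
    have n5 := hD0 Ω
    by_cases hg : GoodΩ d s h₀ G H σ Ω
    · have : good Ω = 1 := by simp only [hgood, hg, if_true]
      have n2' : 0 ≤ FG Ω := n2
      have n3' : 0 ≤ FH Ω := n3
      linarith
    · have n0 : 0 ≤ good Ω := by simp only [hgood]; split_ifs <;> norm_num
      have n2' : 0 ≤ FG Ω := n2
      have n3' : 0 ≤ FH Ω := n3
      by_cases q1 : ∀ x : Fin n, 16 * (Ω.filter fun f => x ∈ f).card ≤ n
      · by_cases q2 : ((ed G ∩ Ω).card : ℝ) ≤ 8 * s * n * d
        · by_cases q3 : ((ed H ∩ Ω).card : ℝ) ≤ 8 * s * n * d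
          · by_cases q4 : ∀ v w, H.Adj v w → (σ v).symm w ≠ w → h₀ < hits Ω G H σ v w ((σ v).symm w)
            · by_cases q5 : 2 * (univ.filter fun t : Fin n × Fin n => Ch H σ t.1 t.2 ∧
                  ¬ Live Ω H σ t.1 t.2).card ≤ Mch H σ
              · exact absurd ⟨q1, q2, q3, q4, q5⟩ hg
              · have := hD1 Ω q5
                linarith
            · push Not at q4
              obtain ⟨v, w, hvw, _, hle⟩ := q4
              have hmem : (v, w) ∈ Bp := by simpa [Bp] using hvw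
              have r1 := hB1 (v, w) hmem Ω (not_lt.2 hle)
              have r2 : B (v, w) Ω ≤ ∑ t ∈ Bp, B t Ω :=
                Finset.single_le_sum (f := fun t => B t Ω) (fun t ht => hB0 t ht Ω) hmem
              linarith
          · have : 1 ≤ FH Ω := hH1 Ω q3
            linarith
        · have : 1 ≤ FG Ω := hG1 Ω q2
          linarith
      · rw [not_forall] at q1
        obtain ⟨x, hx⟩ := q1
        have r1 : 1 ≤ FA x Ω := (bad_a hs0.le hs32 x).1 Ω hΩ hx
        have r2 : FA x Ω ≤ ∑ x : Fin n, FA x Ω :=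
          Finset.single_le_sum (f := fun t => FA t Ω) (fun t _ => (bad_a hs0.le hs32 t).2.1 Ω) (mem_univ x)
        linarith
  have main := Ex_mono hs0.le hs1 key
  rw [Ex_one, Ex_add, Ex_add, Ex_add, Ex_add, Ex_add, Ex_sum, Ex_sum] at main
  have m1 : ∑ x : Fin n, Ex s (UU n) (FA x) ≤ 1 / 16 := by
    refine le_trans ?_ a4
    refine (Finset.sum_le_sum fun x _ => (bad_a hs0.le hs32 x).2.2).trans_eq ?_
    simp
  have m4 : ∑ t ∈ Bp, Ex s (UU n) (B t) ≤ 1 / 16 := by
    refine le_trans ?_ a3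
    refine (Finset.sum_le_sum fun t ht => hBe t ht).trans ?_
    rw [Finset.sum_const, nsmul_eq_mul]
    refine mul_le_mul_of_nonneg_right ?_ (Real.exp_pos _).le
    have : Bp.card ≤ n * n := by
      refine (card_le_univ _).trans ?_
      simp
    calc (Bp.card : ℝ) ≤ ((n * n : ℕ) : ℝ) := by exact_mod_cast this
      _ = (n : ℝ) ^ 2 := by push_cast; ring
  have m2 : Ex s (UU n) FG ≤ 1 / 8 := hGe
  have m3 : Ex s (UU n) FH ≤ 1 / 8 := hHe
  have fin : 1 / 2 ≤ Ex s (UU n) good := by linarith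
  exact fin

end Pool.Agent.RRG
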