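import Pool.Agent.RRG.Basic

/-!
# Module S: the sampling lemma (MP_d15a9b_pr)
-/

open Finset Filter Topology
open scoped Classical

namespace Pool.Agent.RRG
namespace S

theorem wt_nonneg {α : Type} {s : ℝ} (h0 : 0 ≤ s) (h1 : s ≤ 1) (U A : Finset α) : 0 ≤ wt s U A := by
  unfold wt
  have : 0 ≤ 1 - s := by linarith
  positivity

/-- linearity -/
theorem sum_card (hR : Stmt_Rand) {α ι : Type} (s : ℝ) (U : Finset α) (J : Finset ι) (κ : ι → Finset α)
    (hκ : ∀ j ∈ J, κ j ⊆ U) :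
    ∑ A ∈ U.powerset, wt s U A * ((J.filter fun j => κ j ⊆ A).card : ℝ) = ∑ j ∈ J, s ^ (κ j).card := by
  have h1 : ∀ A ∈ U.powerset, wt s U A * ((J.filter fun j => κ j ⊆ A).card : ℝ)
      = ∑ j ∈ J, if κ j ⊆ A then wt s U A else 0 := by
    intro A _
    rw [← sum_filter, sum_const, nsmul_eq_mul, mul_comm]
  rw [sum_congr rfl h1, sum_comm]
  refine sum_congr rfl fun j hj => ?_
  rw [← sum_filter]
  exact (hR α s U).2.1 (κ j) (hκ j hj)

/-- delete one element of each conflicting pair -/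
theorem delete {Z : Type} (conf : Z → Z → Prop) (hs : ∀ z z', conf z z' → conf z' z) :
    ∀ (N : ℕ) (Y : Finset Z), Y.card = N → ∃ Y' ⊆ Y, (∀ z ∈ Y', ∀ z' ∈ Y', z ≠ z' → ¬ conf z z') ∧
      (Y.card : ℝ) - (((Y ×ˢ Y).filter fun t => t.1 ≠ t.2 ∧ conf t.1 t.2).card : ℝ) / 2 ≤ Y'.card := by
  intro N
  induction N with
  | zero =>
    intro Y hY
    rw [card_eq_zero] at hY
    subst hY
    exact ⟨∅, by simp, by simp, by simp⟩
  | succ N ih =>
    intro Y hY
    by_cases hc : ∃ z ∈ Y, ∃ z' ∈ Y, z ≠ z' ∧ conf z z'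
    · obtain ⟨z, hz, z', hz', hne, hcf⟩ := hc
      obtain ⟨Y', hY', hcf', hcard⟩ := ih (Y.erase z) (by rw [card_erase_of_mem hz, hY]; rfl)
      refine ⟨Y', hY'.trans (erase_subset _ _), hcf', le_trans ?_ hcard⟩
      have e1 : ((Y.erase z).card : ℝ) = Y.card - 1 := by
        rw [card_erase_of_mem hz, Nat.cast_sub (by omega)]; simp
      have e2 : (((Y.erase z) ×ˢ (Y.erase z)).filter fun t => t.1 ≠ t.2 ∧ conf t.1 t.2).card + 2
          ≤ ((Y ×ˢ Y).filter fun t => t.1 ≠ t.2 ∧ conf t.1 t.2).card := by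
        have h2 : ({(z, z'), (z', z)} : Finset (Z × Z)).card = 2 := by
          rw [card_pair]
          intro h
          exact hne (Prod.mk.inj h).1
        rw [← h2, ← card_union_of_disjoint]
        · refine card_le_card ?_
          intro t ht
          simp only [mem_union, mem_filter, mem_product, mem_erase, mem_insert, mem_singleton] at ht ⊢
          rcases ht with ⟨⟨⟨_, ha⟩, ⟨_, hb⟩⟩, hcc⟩ | rfl | rfl
          · exact ⟨⟨ha, hb⟩, hcc⟩
          · exact ⟨⟨hz, hz'⟩, hne, hcf⟩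
          · exact ⟨⟨hz', hz⟩, hne.symm, hs _ _ hcf⟩
        · rw [disjoint_left]
          intro t ht ht'
          simp only [mem_filter, mem_product, mem_erase, mem_insert, mem_singleton] at ht ht'
          rcases ht' with rfl | rfl
          · exact ht.1.1.1 rfl
          · exact ht.1.2.1 rfl
      have e2' : ((((Y.erase z) ×ˢ (Y.erase z)).filter fun t => t.1 ≠ t.2 ∧ conf t.1 t.2).card : ℝ) + 2
          ≤ (((Y ×ˢ Y).filter fun t => t.1 ≠ t.2 ∧ conf t.1 t.2).card : ℝ) := by exact_mod_cast e2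
      rw [e1]
      linarith
    · push Not at hc
      refine ⟨Y, Subset.rfl, hc, ?_⟩
      have : (0 : ℝ) ≤ (((Y ×ˢ Y).filter fun t => t.1 ≠ t.2 ∧ conf t.1 t.2).card : ℝ) := by positivity
      linarith

/-- averaging -/
theorem exists_ge_avg (hR : Stmt_Rand) {α : Type} {s : ℝ} (h0 : 0 ≤ s) (h1 : s ≤ 1) (U : Finset α)
    (g : Finset α → ℝ) : ∃ A ∈ U.powerset, ∑ A ∈ U.powerset, wt s U A * g A ≤ g A := by
  by_contra hcon
  push Not at hcon
  set T := ∑ A ∈ U.powerset, wt s U A * g A with hT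
  have hsum : ∑ A ∈ U.powerset, wt s U A = 1 := (hR α s U).1
  have : ∑ A ∈ U.powerset, wt s U A * (T - g A) = 0 := by
    simp only [mul_sub]
    rw [sum_sub_distrib, ← sum_mul, hsum, ← hT]; ring
  have hz : ∀ A ∈ U.powerset, wt s U A * (T - g A) = 0 := by
    refine (sum_eq_zero_iff_of_nonneg ?_).1 this
    intro A hA
    exact mul_nonneg (wt_nonneg h0 h1 U A) (by linarith [hcon A hA])
  have hw : ∀ A ∈ U.powerset, wt s U A = 0 := by
    intro A hA
    rcases mul_eq_zero.1 (hz A hA) with h | h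
    · exact h
    · linarith [hcon A hA]
  rw [sum_congr rfl hw] at hsum
  simp at hsum

/-- independent sets -/
theorem indep (hR : Stmt_Rand) {Z : Type} (conf : Z → Z → Prop) (hs : ∀ z z', conf z z' → conf z' z)
    {τ : ℝ} (h0 : 0 ≤ τ) (h1 : τ ≤ 1) (X : Finset Z) :
    ∃ Y' ⊆ X, (∀ z ∈ Y', ∀ z' ∈ Y', z ≠ z' → ¬ conf z z') ∧
      τ * (X.card : ℝ) - τ ^ 2 * (((X ×ˢ X).filter fun t => t.1 ≠ t.2 ∧ conf t.1 t.2).card : ℝ) / 2 ≤ Y'.card := by
  obtain ⟨Y, hY, hle⟩ := exists_ge_avg hR h0 h1 X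
    (fun Y => (Y.card : ℝ) - (((Y ×ˢ Y).filter fun t => t.1 ≠ t.2 ∧ conf t.1 t.2).card : ℝ) / 2)
  rw [mem_powerset] at hY
  obtain ⟨Y', hY', hcf, hcard⟩ := delete conf hs Y.card Y rfl
  refine ⟨Y', hY'.trans hY, hcf, le_trans (le_trans (le_of_eq ?_) hle) hcard⟩
  have e1 : ∑ A ∈ X.powerset, wt τ X A * (A.card : ℝ) = τ * X.card := by
    have := sum_card hR τ X X (fun z => {z}) (fun z hz => by simpa using hz)
    simp only [card_singleton, pow_one, sum_const, nsmul_eq_mul] at this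
    rw [mul_comm, ← this]
    refine sum_congr rfl fun A hA => ?_
    rw [mem_powerset] at hA
    congr 3
    ext z
    simp only [mem_filter, singleton_subset_iff]
    exact ⟨fun h => ⟨hA h, h⟩, fun h => h.2⟩
  have e2 : ∑ A ∈ X.powerset, wt τ X A * (((A ×ˢ A).filter fun t => t.1 ≠ t.2 ∧ conf t.1 t.2).card : ℝ)
      = τ ^ 2 * (((X ×ˢ X).filter fun t => t.1 ≠ t.2 ∧ conf t.1 t.2).card : ℝ) := by
    have := sum_card hR τ X ((X ×ˢ X).filter fun t => t.1 ≠ t.2 ∧ conf t.1 t.2) (fun t => {t.1, t.2})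
      (fun t ht => by
        simp only [mem_filter, mem_product] at ht
        intro z hz
        simp only [mem_insert, mem_singleton] at hz
        rcases hz with rfl | rfl
        · exact ht.1.1
        · exact ht.1.2)
    have hc : ∑ t ∈ ((X ×ˢ X).filter fun t => t.1 ≠ t.2 ∧ conf t.1 t.2), τ ^ ({t.1, t.2} : Finset Z).card
        = ∑ t ∈ ((X ×ˢ X).filter fun t => t.1 ≠ t.2 ∧ conf t.1 t.2), τ ^ 2 := by
      refine sum_congr rfl fun t ht => ?_
      simp only [mem_filter] at ht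
      rw [card_pair ht.2.1]
    rw [hc, sum_const, nsmul_eq_mul] at this
    rw [mul_comm (τ ^ 2), ← this]
    refine sum_congr rfl fun A hA => ?_
    rw [mem_powerset] at hA
    congr 3
    ext t
    simp only [mem_filter, mem_product, insert_subset_iff, singleton_subset_iff]
    constructor
    · rintro ⟨⟨ha, hb⟩, hc⟩
      exact ⟨⟨⟨hA ha, hA hb⟩, hc⟩, ha, hb⟩
    · rintro ⟨⟨_, hc⟩, ha, hb⟩
      exact ⟨⟨ha, hb⟩, hc⟩
  simp only [mul_sub]
  rw [sum_sub_distrib, e1]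
  congr 1
  rw [← e2, sum_div]
  refine sum_congr rfl fun A _ => ?_
  ring

theorem S_proof (hR : Stmt_Rand) : Stmt_S := by
  intro α Z U Zs κ k s Q ψ₀ conf ψ hs0 hs1 hQ hκ hsym hconf hψ hψ₀ hlt
  set τ : ℝ := 1 / (2 * (Q + 1)) with hτ
  have hτ0 : 0 < τ := by positivity
  have hτ1 : τ ≤ 1 := by
    rw [hτ, div_le_one (by positivity)]; linarith
  set ZA : Finset α → Finset Z := fun A => Zs.filter fun z => κ z ⊆ A with hZA
  set PA : Finset α → ℝ := fun A => ((((ZA A) ×ˢ (ZA A)).filter fun t => t.1 ≠ t.2 ∧ conf t.1 t.2).card : ℝ) with hPA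
  -- expectation of |Z_A|
  have e1 : ∑ A ∈ U.powerset, wt s U A * ((ZA A).card : ℝ) = s ^ k * Zs.card := by
    have := sum_card hR s U Zs κ (fun z hz => (hκ z hz).1)
    rw [this, sum_congr rfl (fun z hz => by rw [(hκ z hz).2]), sum_const, nsmul_eq_mul, mul_comm]
  -- expectation of conflicting pairs
  have e2 : ∑ A ∈ U.powerset, wt s U A * PA A ≤ s ^ k * Zs.card * Q := by
    have h1 := sum_card hR s U ((Zs ×ˢ Zs).filter fun t => t.1 ≠ t.2 ∧ conf t.1 t.2) (fun t => κ t.1 ∪ κ t.2)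
      (fun t ht => by
        simp only [mem_filter, mem_product] at ht
        exact union_subset (hκ _ ht.1.1).1 (hκ _ ht.1.2).1)
    have h2 : ∑ A ∈ U.powerset, wt s U A * PA A
        = ∑ t ∈ ((Zs ×ˢ Zs).filter fun t => t.1 ≠ t.2 ∧ conf t.1 t.2), s ^ (κ t.1 ∪ κ t.2).card := by
      rw [← h1]
      refine sum_congr rfl fun A _ => ?_
      simp only [hPA, hZA]
      congr 3
      ext t
      simp only [mem_filter, mem_product, union_subset_iff]
      tauto
    rw [h2, sum_filter, sum_product]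
    have h3 : ∀ z ∈ Zs, ∑ z' ∈ Zs, (if z ≠ z' ∧ conf z z' then s ^ (κ z ∪ κ z').card else 0) ≤ s ^ k * Q := by
      intro z hz
      have h4 := hconf z hz
      have h5 : ∑ z' ∈ Zs, (if z ≠ z' ∧ conf z z' then s ^ (κ z ∪ κ z').card else 0)
          = s ^ k * ∑ z' ∈ Zs.filter (fun z' => z' ≠ z ∧ conf z z'), s ^ (κ z' \ κ z).card := by
        rw [mul_sum, sum_filter]
        refine sum_congr rfl fun z' _ => ?_
        have : (z ≠ z' ∧ conf z z') ↔ (z' ≠ z ∧ conf z z') := by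
          rw [ne_comm]
        by_cases hc : z' ≠ z ∧ conf z z'
        · rw [if_pos (this.2 hc), if_pos hc, ← pow_add]
          congr 1
          rw [← (hκ z hz).2, ← card_union_of_disjoint (disjoint_sdiff)]
          congr 1
          exact (union_sdiff_self_eq_union).symm
        · rw [if_neg (fun h => hc (this.1 h)), if_neg hc]
      rw [h5]
      exact mul_le_mul_of_nonneg_left h4 (by positivity)
    refine (sum_le_sum h3).trans ?_
    rw [sum_const, nsmul_eq_mul]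
    apply le_of_eq; ring
  -- averaging
  obtain ⟨A, hA, hAle⟩ := exists_ge_avg hR hs0.le hs1 U
    (fun A => τ * ((ZA A).card : ℝ) - τ ^ 2 * PA A / 2 - ψ A)
  have hpos : 0 < ∑ A ∈ U.powerset, wt s U A * (τ * ((ZA A).card : ℝ) - τ ^ 2 * PA A / 2 - ψ A) := by
    have : ∑ A ∈ U.powerset, wt s U A * (τ * ((ZA A).card : ℝ) - τ ^ 2 * PA A / 2 - ψ A)
        = τ * ∑ A ∈ U.powerset, wt s U A * ((ZA A).card : ℝ) - τ ^ 2 / 2 * ∑ A ∈ U.powerset, wt s U A * PA A
          - ∑ A ∈ U.powerset, wt s U A * ψ A := by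
      rw [mul_sum, mul_sum, ← sum_sub_distrib, ← sum_sub_distrib]
      refine sum_congr rfl fun A _ => ?_
      ring
    rw [this, e1]
    have h5 : τ ^ 2 / 2 * ∑ A ∈ U.powerset, wt s U A * PA A ≤ τ ^ 2 / 2 * (s ^ k * Zs.card * Q) :=
      mul_le_mul_of_nonneg_left e2 (by positivity)
    have hX : 0 ≤ s ^ k * (Zs.card : ℝ) := by positivity
    have h6 : s ^ k * (Zs.card : ℝ) / (4 * (Q + 1)) ≤ τ * (s ^ k * Zs.card) - τ ^ 2 / 2 * (s ^ k * Zs.card * Q) := by
      have hQ1 : τ * (Q + 1) = 1 / 2 := by rw [hτ]; field_simp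
      have : τ * Q ≤ 1 / 2 := by nlinarith
      have e4 : s ^ k * (Zs.card : ℝ) / (4 * (Q + 1)) = (s ^ k * Zs.card) * (τ / 2) := by
        rw [hτ]; field_simp; ring
      rw [e4]
      have : τ ^ 2 / 2 * (s ^ k * Zs.card * Q) = (s ^ k * Zs.card) * (τ * (τ * Q) / 2) := by ring
      rw [this]
      have : τ * (τ * Q) / 2 ≤ τ / 2 := by nlinarith
      nlinarith
    linarith
  have hA' : ψ A < τ * ((ZA A).card : ℝ) - τ ^ 2 * PA A / 2 := by
    have := lt_of_lt_of_le hpos hAle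
    linarith
  obtain ⟨Z', hZ', hcf, hcard⟩ := indep hR conf hsym hτ0.le hτ1 (ZA A)
  refine ⟨A, mem_powerset.1 hA, Z', hZ'.trans (filter_subset _ _), ?_, hcf, ?_⟩
  · intro z hz
    exact (mem_filter.1 (hZ' hz)).2
  · exact lt_of_lt_of_le hA' hcard

end S

theorem S_proof (hR : Stmt_Rand) : Stmt_S := S.S_proof hR

end Pool.Agent.RRG
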