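import Pool.Agent.RRG.FiveLow

/-!
# STAR2LOW (MP_d15a9b_pr)
-/

open Finset Filter Topology
open scoped Classical

namespace Pool.Agent.RRG.Star2LowM

open Pool.Agent.RRG.LowTools Pool.Agent.RRG.FiveLowM

variable {n d K : ℕ}

theorem exists_half (T : Finset (Fin n)) : ∃ P ⊆ T, P.card = T.card / 2 :=
  exists_subset_card_eq (Nat.div_le_self _ _)

/-- a fixed half of a set -/
noncomputable def half (T : Finset (Fin n)) : Finset (Fin n) := (exists_half T).choose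

theorem half_sub (T : Finset (Fin n)) : half T ⊆ T := (exists_half T).choose_spec.1
theorem half_card (T : Finset (Fin n)) : (half T).card = T.card / 2 := (exists_half T).choose_spec.2

/-- the vertices outside `N[v]` with two neighbours in `N(v) \ {u}` -/
noncomputable def B2 (G : Gr n) (v u : Fin n) : Finset (Fin n) := univ.filter fun b =>
  b ≠ v ∧ ¬ G.Adj v b ∧ ∃ a a', a ≠ a' ∧ a ≠ u ∧ a' ≠ u ∧ G.Adj v a ∧ G.Adj v a' ∧ G.Adj a b ∧ G.Adj a' b

/-- the first revealed set -/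
noncomputable def R1 (v u : Fin n) (G : Gr n) : Finset (Fin n) := insert v (half ((nb G v).erase u))

theorem R1_loc (v u : Fin n) (G G' : Gr n) (h : Same (R1 v u G) G' G) : R1 v u G' = R1 v u G := by
  have : nb G' v = nb G v := same_nb h (by simp [R1])
  simp [R1, this]

/-- construction of `A`, `S` in the first round -/
theorem data1 (G₀ : Gr n) (h0 : G₀ ∈ Reg n d) (hT : T1 K G₀) (hK : 1 ≤ K) (hd : 1000 * K ≤ d)
    (hn : 5 * d ^ 2 ≤ K * n) (v u : Fin n) (hvu : G₀.Adj v u) :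
    ∃ A S : Finset (Fin n), Disjoint A S ∧ Disjoint A (R1 v u G₀) ∧
      Disjoint S (R1 v u G₀) ∧ 100 * d ≤ A.card ∧ 10 * A.card ≤ n ∧ 10 * S.card ≤ n ∧
      (∀ x ∈ A ∪ S, 4 * (nb G₀ x ∩ R1 v u G₀).card ≤ d) ∧ d ^ 2 ≤ 4 * K * A.card ∧ d ≤ 3 * S.card ∧
      (∀ b ∈ A, b ≠ v ∧ ¬ G₀.Adj v b ∧ ∃ a ∈ R1 v u G₀, G₀.Adj v a ∧ a ≠ u ∧ G₀.Adj a b) ∧
      (∀ z ∈ S, G₀.Adj v z ∧ z ≠ u) := by
  have hne : v ≠ u := hvu.ne
  have hcod : ∀ x y : Fin n, x ≠ y → (nb G₀ x ∩ nb G₀ y).card ≤ K := fun x y h => hT x y h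
  set P1 : Finset (Fin n) := half ((nb G₀ v).erase u) with hP1
  set P2 : Finset (Fin n) := ((nb G₀ v).erase u) \ P1 with hP2
  set A0 : Finset (Fin n) := (P1.biUnion (nb G₀)) \ (insert v (nb G₀ v)) with hA0
  have hP1s : P1 ⊆ (nb G₀ v).erase u := half_sub _
  have hNc : ((nb G₀ v).erase u).card = d - 1 := by
    rw [card_erase_of_mem (mem_nb.2 hvu), card_nb h0 v]
  have hP1c : P1.card = (d - 1) / 2 := by rw [hP1, half_card, hNc]
  have hP2c : P2.card + P1.card = d - 1 := by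
    rw [hP2, card_sdiff_add_card_eq_card hP1s, hNc]
  have hP1m : ∀ a ∈ P1, G₀.Adj v a ∧ a ≠ u := by
    intro a ha
    have := hP1s ha
    rw [mem_erase, mem_nb] at this
    exact ⟨this.2, this.1⟩
  have hP2m : ∀ a ∈ P2, G₀.Adj v a ∧ a ≠ u := by
    intro a ha
    rw [hP2, Finset.mem_sdiff, mem_erase, mem_nb] at ha
    exact ⟨ha.1.2, ha.1.1⟩
  have hAc1 : ∀ a ∈ P1, d - K - 1 ≤ (A0.filter fun b => G₀.Adj a b).card := by
    intro a ha
    obtain ⟨a1, a2⟩ := hP1m a ha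
    have hsub : nb G₀ a ⊆ (A0.filter fun b => G₀.Adj a b) ∪ ((nb G₀ a ∩ nb G₀ v) ∪ {v}) := by
      intro b hb
      by_cases hbA : b ∈ A0
      · exact mem_union_left _ (mem_filter.2 ⟨hbA, mem_nb.1 hb⟩)
      · apply mem_union_right
        have hb1 : b ∈ P1.biUnion (nb G₀) := mem_biUnion.2 ⟨a, ha, hb⟩
        have hb2 : b ∈ insert v (nb G₀ v) := by
          by_contra hc
          exact hbA (Finset.mem_sdiff.2 ⟨hb1, hc⟩)
        simp only [mem_insert, mem_union, mem_inter, mem_singleton] at hb2 ⊢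
        tauto
    have h1 := card_le_card hsub
    have h2 := card_union_le (A0.filter fun b => G₀.Adj a b) ((nb G₀ a ∩ nb G₀ v) ∪ {v})
    have h3 := card_union_le (nb G₀ a ∩ nb G₀ v) {v}
    have h5 := hcod a v a1.ne'
    have h7 := card_nb h0 a
    rw [card_singleton] at h3
    omega
  have hAc2 : ∀ b ∈ A0, (P1.filter fun a => G₀.Adj a b).card ≤ K := by
    intro b hb
    have hbv : b ≠ v := by
      rintro rfl
      simp [hA0] at hb
    refine le_trans (card_le_card ?_) (hcod b v hbv)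
    intro a ha
    rw [mem_filter] at ha
    rw [mem_inter, mem_nb, mem_nb]
    exact ⟨ha.2.symm, (hP1m a ha.1).1⟩
  have hdc := double_count P1 A0 (fun a b => G₀.Adj a b) _ _ hAc1 hAc2
  have hA0big : d ^ 2 + 4 * K ≤ 4 * K * A0.card := by
    have h1 : 49 * d ≤ 100 * P1.card := by omega
    have h2 : 99 * d ≤ 100 * (d - K - 1) := by omega
    have h3 : (49 * d) * (99 * d) ≤ (100 * P1.card) * (100 * (d - K - 1)) := Nat.mul_le_mul h1 h2
    have h4 : (100 * P1.card) * (100 * (d - K - 1)) = 10000 * (P1.card * (d - K - 1)) := by ring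
    have h5 : 1000 * K ≤ d * d := by nlinarith
    nlinarith [hdc]
  obtain ⟨m, hm1, hm2⟩ : ∃ m, d ^ 2 ≤ 4 * K * m ∧ 4 * K * m ≤ d ^ 2 + 4 * K := by
    refine ⟨d ^ 2 / (4 * K) + 1, ?_, ?_⟩
    · have := Nat.lt_mul_div_succ (d ^ 2) (b := 4 * K) (by omega)
      exact this.le
    · have := Nat.mul_div_le (d ^ 2) (4 * K)
      rw [mul_add, mul_one]; omega
  have hmA : m ≤ A0.card := Nat.le_of_mul_le_mul_left (hm2.trans hA0big) (by omega)
  obtain ⟨A, hAs, hAc⟩ := exists_subset_card_eq hmA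
  have hAm : ∀ b ∈ A, b ≠ v ∧ b ∉ nb G₀ v ∧ ∃ a ∈ P1, G₀.Adj a b := by
    intro b hb
    have := hAs hb
    simp only [hA0, Finset.mem_sdiff, mem_biUnion, mem_insert, not_or] at this
    obtain ⟨⟨a, ha, hab⟩, h1, h2⟩ := this
    exact ⟨h1, h2, a, ha, mem_nb.1 hab⟩
  have hn20 : 20 ≤ n := by
    have h1 : 5 * (1000 * K) * (1000 * K) ≤ K * n := by
      calc 5 * (1000 * K) * (1000 * K) ≤ 5 * d * d := by
            exact Nat.mul_le_mul (Nat.mul_le_mul_left 5 hd) hd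
        _ = 5 * d ^ 2 := by ring
        _ ≤ _ := hn
    have h2 : K * (5000000 * K) ≤ K * n := by
      calc K * (5000000 * K) = 5 * (1000 * K) * (1000 * K) := by ring
        _ ≤ _ := h1
    have h3 := Nat.le_of_mul_le_mul_left h2 (by omega)
    omega
  have hdn : 5000 * d ≤ n := by
    have h1 : K * (5000 * d) ≤ K * n := by
      calc K * (5000 * d) = 5 * ((1000 * K) * d) := by ring
        _ ≤ 5 * (d * d) := Nat.mul_le_mul_left 5 (Nat.mul_le_mul_right d hd)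
        _ = 5 * d ^ 2 := by ring
        _ ≤ _ := hn
    exact Nat.le_of_mul_le_mul_left h1 (by omega)
  refine ⟨A, P2, ?_, ?_, ?_, ?_, ?_, ?_, ?_, ?_, ?_, ?_, ?_⟩
  · rw [disjoint_left]
    intro x hx hx'
    exact (hAm x hx).2.1 (mem_nb.2 (hP2m x hx').1)
  · rw [disjoint_left]
    intro x hx hx'
    rw [R1, mem_insert] at hx'
    rcases hx' with h | h
    · exact (hAm x hx).1 h
    · exact (hAm x hx).2.1 (mem_nb.2 (hP1m x h).1)
  · rw [disjoint_left]
    intro x hx hx'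
    rw [R1, mem_insert] at hx'
    rcases hx' with h | h
    · exact (hP2m x hx).1.ne h.symm
    · rw [hP2, Finset.mem_sdiff] at hx
      exact hx.2 h
  · rw [hAc]
    have h1 : 4 * K * (100 * d) ≤ 4 * K * m := by
      calc 4 * K * (100 * d) ≤ (1000 * K) * d := by nlinarith
        _ ≤ d * d := Nat.mul_le_mul_right d hd
        _ = d ^ 2 := by ring
        _ ≤ _ := hm1
    exact Nat.le_of_mul_le_mul_left h1 (by omega)
  · rw [hAc]
    have h1 : 4 * K * (10 * m) ≤ 4 * K * n := by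
      calc 4 * K * (10 * m) = 10 * (4 * K * m) := by ring
        _ ≤ 10 * (d ^ 2 + 4 * K) := Nat.mul_le_mul_left 10 hm2
        _ ≤ 2 * (K * n) + 40 * K := by omega
        _ ≤ 2 * (K * n) + 2 * (K * n) := by nlinarith
        _ = 4 * K * n := by ring
    exact Nat.le_of_mul_le_mul_left h1 (by omega)
  · omega
  · intro x hx
    have hxv : x ≠ v := by
      rcases mem_union.1 hx with h | h
      · exact (hAm x h).1
      · exact (hP2m x h).1.ne'
    have h1 : (nb G₀ x ∩ R1 v u G₀).card ≤ K + 1 := by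
      have hsub : nb G₀ x ∩ R1 v u G₀ ⊆ (nb G₀ x ∩ nb G₀ v) ∪ {v} := by
        intro y hy
        rw [mem_inter, R1, mem_insert] at hy
        rw [mem_union, mem_inter, mem_singleton]
        rcases hy.2 with h | h
        · exact Or.inr h
        · exact Or.inl ⟨hy.1, mem_nb.2 (hP1m y h).1⟩
      have h2 := card_le_card hsub
      have h3 := card_union_le (nb G₀ x ∩ nb G₀ v) {v}
      have h4 := hcod x v hxv
      rw [card_singleton] at h3
      omega
    omega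
  · rw [hAc]; exact hm1
  · omega
  · intro b hb
    obtain ⟨h1, h2, a, ha, hab⟩ := hAm b hb
    exact ⟨h1, fun h => h2 (mem_nb.2 h), a, by rw [R1]; exact mem_insert_of_mem ha, (hP1m a ha).1, (hP1m a ha).2, hab⟩
  · exact hP2m

theorem bound1 (hLow : Stmt_Low) (hK : 1 ≤ K) (hd : 1000 * K ≤ d) (hn : 5 * d ^ 2 ≤ K * n) (h64 : 64 * d ≤ n)
    (v u : Fin n) (t : ℝ) (ht : t ≤ (d : ℝ) ^ 4 / (384 * K * n)) :
    (((Reg n d).filter fun G => T1 K G ∧ G.Adj v u ∧
      768 * (K : ℝ) ^ 2 * n * ((B2 G v u).card : ℝ) < (d : ℝ) ^ 4).card : ℝ)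
      ≤ 4 * (2 : ℝ) ^ (-t) * (Reg n d).card := by
  have hKr : (1 : ℝ) ≤ K := by exact_mod_cast hK
  have hd0 : 0 < d := by omega
  have hn0 : 0 < n := by omega
  have hdr : (0 : ℝ) < d := by exact_mod_cast hd0
  have hnr : (0 : ℝ) < n := by exact_mod_cast hn0
  refine low_class hLow hd0 h64 (R1 v u) (R1_loc v u) (fun G => T1 K G ∧ G.Adj v u ∧
      768 * (K : ℝ) ^ 2 * n * ((B2 G v u).card : ℝ) < (d : ℝ) ^ 4) t ?_
  intro G₀ h0 hb
  obtain ⟨hT, hvu, -⟩ := hb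
  obtain ⟨A, S, b1, b2, b3, b4, b5, b6, b7, b8, b9, b10, b11⟩ := data1 G₀ h0 hT hK hd hn v u hvu
  have b8r : (d : ℝ) ^ 2 ≤ 4 * K * A.card := by exact_mod_cast b8
  have b9r : (d : ℝ) ≤ 3 * S.card := by exact_mod_cast b9
  have hAS : (d : ℝ) ^ 4 ≤ 12 * K * (A.card * S.card * d) := by
    have h1 : (d : ℝ) ^ 2 * d ≤ (4 * K * A.card) * (3 * S.card) :=
      mul_le_mul b8r b9r hdr.le (by positivity)
    have h2 : (d : ℝ) ^ 2 * d * d ≤ (4 * K * A.card) * (3 * S.card) * d :=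
      mul_le_mul_of_nonneg_right h1 hdr.le
    calc (d : ℝ) ^ 4 = (d : ℝ) ^ 2 * d * d := by ring
      _ ≤ _ := h2
      _ = _ := by ring
  refine ⟨A, S, b1, b2, b3, b4, b5, b6, b7, ?_, ?_⟩
  · refine ht.trans ?_
    rw [div_le_div_iff₀ (by positivity) (by positivity)]
    nlinarith [mul_le_mul_of_nonneg_right hAS (by positivity : (0 : ℝ) ≤ 32 * n)]
  · intro G hG hs hbad
    obtain ⟨hT', hvu', hcard⟩ := hbad
    by_contra hcon
    push Not at hcon
    have hvR : v ∈ R1 v u G₀ := by simp [R1]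
    have he : ((A ×ˢ S).filter fun t => G.Adj t.1 t.2).card ≤ K * (B2 G v u).card := by
      have h1 : ((A ×ˢ S).filter fun t => G.Adj t.1 t.2).card ≤ ∑ y ∈ B2 G v u, (nb G y ∩ nb G v).card := by
        have h2 : ((A ×ˢ S).filter fun t => G.Adj t.1 t.2) ⊆
            (B2 G v u).biUnion fun y => ({y} : Finset (Fin n)) ×ˢ (nb G y ∩ nb G v) := by
          intro t ht
          simp only [mem_filter, mem_product] at ht
          obtain ⟨⟨hA, hS⟩, hadj⟩ := ht
          have hz : G.Adj v t.2 := (hs v hvR _).2 (b11 _ hS).1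
          obtain ⟨c0, c1, a, haR, c2, c3, c5⟩ := b10 _ hA
          have hSR : t.2 ∉ R1 v u G₀ := fun h => (disjoint_left.1 b3) hS h
          rw [mem_biUnion]
          refine ⟨t.1, ?_, ?_⟩
          · unfold B2
            rw [mem_filter]
            refine ⟨mem_univ _, c0, ?_, a, t.2, ?_, c3, (b11 _ hS).2, ?_, hz, ?_, hadj.symm⟩
            · rw [hs v hvR]; exact c1
            · rintro rfl; exact hSR haR
            · rw [hs v hvR]; exact c2
            · rw [hs a haR]; exact c5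
          · rw [mem_product, mem_singleton, mem_inter, mem_nb, mem_nb]
            exact ⟨rfl, hadj, hz⟩
        refine (card_le_card h2).trans (card_biUnion_le.trans ?_)
        refine sum_le_sum fun y _ => ?_
        rw [card_product, card_singleton, one_mul]
      refine h1.trans ?_
      have h3 : ∑ y ∈ B2 G v u, (nb G y ∩ nb G v).card ≤ ∑ y ∈ B2 G v u, K := by
        refine sum_le_sum fun y hy => ?_
        simp only [B2, mem_filter] at hy
        exact hT' y v hy.2.1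
      rw [sum_const, smul_eq_mul, mul_comm] at h3
      exact h3
    have her : (((A ×ˢ S).filter fun t => G.Adj t.1 t.2).card : ℝ) ≤ K * (B2 G v u).card := by
      exact_mod_cast he
    have h5 : 64 * (n : ℝ) * (((A ×ˢ S).filter fun t => G.Adj t.1 t.2).card : ℝ)
        ≤ 64 * n * (K * (B2 G v u).card) := mul_le_mul_of_nonneg_left her (by positivity)
    have h6 : 12 * (K : ℝ) * (64 * n * (K * (B2 G v u).card)) < (d : ℝ) ^ 4 := by
      calc 12 * (K : ℝ) * (64 * n * (K * (B2 G v u).card))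
          = 768 * (K : ℝ) ^ 2 * n * ((B2 G v u).card : ℝ) := by ring
        _ < _ := hcard
    have h7 : 12 * (K : ℝ) * (A.card * S.card * d) < 12 * (K : ℝ) * (64 * n * (K * (B2 G v u).card)) :=
      mul_lt_mul_of_pos_left (lt_of_lt_of_le hcon h5) (by positivity)
    linarith

/-- the tuples of STAR2LOW -/
noncomputable def St (G : Gr n) (v u : Fin n) : Finset (Fin n × Fin n × Fin n) :=
  univ.filter fun t : Fin n × Fin n × Fin n => Star2 G v u t.1 t.2.1 t.2.2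

/-- construction of `A`, `S` in the second round -/
theorem data2 (G₀ : Gr n) (h0 : G₀ ∈ Reg n d) (hT : T1 K G₀) (hK : 1 ≤ K) (hd : 1000 * K ≤ d)
    (hn : 5 * d ^ 2 ≤ K * n) (hn3 : 100000 * K ^ 2 * n ≤ d ^ 3) (v u : Fin n) (hvu : G₀.Adj v u)
    (hB : d ^ 4 ≤ 768 * K ^ 2 * n * (B2 G₀ v u).card) :
    ∃ A S : Finset (Fin n), Disjoint A S ∧ Disjoint A (Rs v u G₀) ∧
      Disjoint S (Rs v u G₀) ∧ 100 * d ≤ A.card ∧ 10 * A.card ≤ n ∧ 10 * S.card ≤ n ∧
      (∀ x ∈ A ∪ S, 4 * (nb G₀ x ∩ Rs v u G₀).card ≤ d) ∧ d ^ 4 ≤ 1000 * K ^ 2 * n * A.card ∧ d ≤ 2 * S.card ∧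
      (∀ b ∈ A, b ∈ B2 G₀ v u ∧ b ≠ u) ∧ (∀ z ∈ S, G₀.Adj u z ∧ z ≠ v ∧ ¬ G₀.Adj v z) := by
  have hne : v ≠ u := hvu.ne
  have hcod : ∀ x y : Fin n, x ≠ y → (nb G₀ x ∩ nb G₀ y).card ≤ K := fun x y h => hT x y h
  set S : Finset (Fin n) := nb G₀ u \ insert v (nb G₀ v) with hS
  set A0 : Finset (Fin n) := B2 G₀ v u \ insert u (nb G₀ u) with hA0
  have hReq : Rs v u G₀ = insert v (nb G₀ v) := by
    unfold Rs
    rw [insert_eq_of_mem (a := u) (mem_nb.2 hvu)]
  have hSc : d ≤ S.card + K + 1 := by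
    have hsub : nb G₀ u ⊆ S ∪ ((nb G₀ u ∩ nb G₀ v) ∪ {v}) := by
      intro z hz
      by_cases hzS : z ∈ S
      · exact mem_union_left _ hzS
      · apply mem_union_right
        have : z ∈ insert v (nb G₀ v) := by
          by_contra hc
          exact hzS (Finset.mem_sdiff.2 ⟨hz, hc⟩)
        simp only [mem_insert, mem_union, mem_inter, mem_singleton] at this ⊢
        tauto
    have h1 := card_le_card hsub
    have h2 := card_union_le S ((nb G₀ u ∩ nb G₀ v) ∪ {v})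
    have h3 := card_union_le (nb G₀ u ∩ nb G₀ v) {v}
    have h5 := hcod u v hne.symm
    have h7 := card_nb h0 u
    rw [card_singleton] at h3
    omega
  have hSle : S.card ≤ d := by
    have := card_le_card (sdiff_subset : S ⊆ nb G₀ u)
    rw [card_nb h0 u] at this
    exact this
  have hA0c : (B2 G₀ v u).card ≤ A0.card + d + 1 := by
    have h1 : A0.card + (B2 G₀ v u ∩ insert u (nb G₀ u)).card
        = (B2 G₀ v u).card := card_sdiff_add_card_inter _ _
    have h2 : (B2 G₀ v u ∩ insert u (nb G₀ u)).card ≤ (insert u (nb G₀ u)).card :=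
      card_le_card inter_subset_right
    have h3 := card_insert_le u (nb G₀ u)
    have h4 := card_nb h0 u
    omega
  have hK2 : 1 ≤ K ^ 2 := Nat.one_le_pow _ _ (by omega)
  have hd0 : 1000 ≤ d := by omega
  have hdn : 5000 * d ≤ n := by
    have h1 : K * (5000 * d) ≤ K * n := by
      calc K * (5000 * d) = 5 * ((1000 * K) * d) := by ring
        _ ≤ 5 * (d * d) := Nat.mul_le_mul_left 5 (Nat.mul_le_mul_right d hd)
        _ = 5 * d ^ 2 := by ring
        _ ≤ _ := hn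
    exact Nat.le_of_mul_le_mul_left h1 (by omega)
  obtain ⟨D, hD⟩ : ∃ D, D = 1000 * K ^ 2 * n := ⟨_, rfl⟩
  have hDpos : 0 < D := by
    rw [hD]
    have : 0 < n := by omega
    positivity
  have hD3 : 100 * D ≤ d ^ 3 := by
    calc 100 * D = 100000 * K ^ 2 * n := by rw [hD]; ring
      _ ≤ _ := hn3
  have hD4 : 100 * D * d ≤ d ^ 4 := by
    calc 100 * D * d ≤ d ^ 3 * d := Nat.mul_le_mul_right d hD3
      _ = d ^ 4 := by ring
  have hA0big : d ^ 4 + D ≤ D * A0.card := by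
    have h1 : 1000 * d ^ 4 ≤ 768 * (D * (B2 G₀ v u).card) := by
      calc 1000 * d ^ 4 ≤ 1000 * (768 * K ^ 2 * n * (B2 G₀ v u).card) := Nat.mul_le_mul_left _ hB
        _ = 768 * (D * (B2 G₀ v u).card) := by rw [hD]; ring
    have h2 : D * (B2 G₀ v u).card ≤ D * A0.card + D * d + D := by
      calc D * (B2 G₀ v u).card ≤ D * (A0.card + d + 1) := Nat.mul_le_mul_left _ hA0c
        _ = _ := by ring
    have h3 : D ≤ D * d := Nat.le_mul_of_pos_right D (by omega)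
    nlinarith
  obtain ⟨m, hm1, hm2⟩ : ∃ m, d ^ 4 ≤ D * m ∧ D * m ≤ d ^ 4 + D := by
    refine ⟨d ^ 4 / D + 1, ?_, ?_⟩
    · have := Nat.lt_mul_div_succ (d ^ 4) (b := D) hDpos
      exact this.le
    · have := Nat.mul_div_le (d ^ 4) D
      rw [mul_add, mul_one]; omega
  have hmA : m ≤ A0.card := Nat.le_of_mul_le_mul_left (hm2.trans hA0big) hDpos
  obtain ⟨A, hAs, hAc⟩ := exists_subset_card_eq hmA
  have hAm : ∀ b ∈ A, b ∈ B2 G₀ v u ∧ b ≠ u ∧ b ∉ nb G₀ u := by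
    intro b hb
    have := hAs hb
    simp only [hA0, Finset.mem_sdiff, mem_insert, not_or] at this
    exact ⟨this.1, this.2.1, this.2.2⟩
  have hBm : ∀ b ∈ B2 G₀ v u, b ≠ v ∧ b ∉ nb G₀ v := by
    intro b hb
    simp only [B2, mem_filter] at hb
    exact ⟨hb.2.1, fun h => hb.2.2.1 (mem_nb.1 h)⟩
  refine ⟨A, S, ?_, ?_, ?_, ?_, ?_, ?_, ?_, ?_, ?_, ?_, ?_⟩
  · rw [disjoint_left]
    intro x hx hx'
    rw [hS, Finset.mem_sdiff] at hx'
    exact (hAm x hx).2.2 hx'.1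
  · rw [hReq, disjoint_left]
    intro x hx hx'
    have := hBm x (hAm x hx).1
    rw [mem_insert] at hx'
    rcases hx' with h | h
    · exact this.1 h
    · exact this.2 h
  · rw [hReq, disjoint_left]
    intro x hx hx'
    rw [hS, Finset.mem_sdiff] at hx
    exact hx.2 hx'
  · rw [hAc]
    have h1 : D * (100 * d) ≤ D * m := by
      calc D * (100 * d) = 100 * D * d := by ring
        _ ≤ d ^ 4 := hD4
        _ ≤ _ := hm1
    exact Nat.le_of_mul_le_mul_left h1 hDpos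
  · rw [hAc]
    have h2 : (5 * d ^ 2) * (5 * d ^ 2) ≤ (K * n) * (K * n) := Nat.mul_le_mul hn hn
    have h3 : 25 * d ^ 4 ≤ K ^ 2 * n * n := by
      calc 25 * d ^ 4 = (5 * d ^ 2) * (5 * d ^ 2) := by ring
        _ ≤ _ := h2
        _ = _ := by ring
    have h4 : D * n = 1000 * (K ^ 2 * n * n) := by rw [hD]; ring
    have h5 : 20 * D ≤ D * n := by
      rw [mul_comm]
      exact Nat.mul_le_mul_left D (by omega)
    have h1 : D * (10 * m) ≤ D * n := by
      calc D * (10 * m) = 10 * (D * m) := by ring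
        _ ≤ 10 * (d ^ 4 + D) := Nat.mul_le_mul_left 10 hm2
        _ ≤ D * n := by omega
    exact Nat.le_of_mul_le_mul_left h1 hDpos
  · omega
  · intro x hx
    rw [hReq]
    have hxv : x ≠ v := by
      rcases mem_union.1 hx with h | h
      · exact (hBm x (hAm x h).1).1
      · rintro rfl
        simp [hS] at h
    have h1 : (nb G₀ x ∩ insert v (nb G₀ v)).card ≤ K + 1 := by
      have hsub : nb G₀ x ∩ insert v (nb G₀ v) ⊆ (nb G₀ x ∩ nb G₀ v) ∪ {v} := by
        intro y hy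
        simp only [mem_insert, mem_union, mem_inter, mem_singleton] at hy ⊢
        tauto
      have h2 := card_le_card hsub
      have h3 := card_union_le (nb G₀ x ∩ nb G₀ v) {v}
      have h4 := hcod x v hxv
      rw [card_singleton] at h3
      omega
    omega
  · rw [hAc, ← hD]; exact hm1
  · omega
  · intro b hb
    exact ⟨(hAm b hb).1, (hAm b hb).2.1⟩
  · intro z hz
    simp only [hS, Finset.mem_sdiff, mem_nb, mem_insert, not_or] at hz
    exact ⟨hz.1, hz.2.1, hz.2.2⟩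

theorem bound2 (hLow : Stmt_Low) (hK : 1 ≤ K) (hd : 1000 * K ≤ d) (hn : 5 * d ^ 2 ≤ K * n) (h64 : 64 * d ≤ n)
    (hn3 : 100000 * K ^ 2 * n ≤ d ^ 3) (v u : Fin n) (t : ℝ) (ht : t ≤ (d : ℝ) ^ 3 / n) :
    (((Reg n d).filter fun G => T1 K G ∧ G.Adj v u ∧
      (d : ℝ) ^ 4 ≤ 768 * (K : ℝ) ^ 2 * n * ((B2 G v u).card : ℝ) ∧
      128000 * (K : ℝ) ^ 3 * (n : ℝ) ^ 2 * ((St G v u).card : ℝ) < (d : ℝ) ^ 6).card : ℝ)
      ≤ 4 * (2 : ℝ) ^ (-t) * (Reg n d).card := by
  have hKr : (1 : ℝ) ≤ K := by exact_mod_cast hK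
  have hd0 : 0 < d := by omega
  have hn0 : 0 < n := by omega
  have hdr : (0 : ℝ) < d := by exact_mod_cast hd0
  have hnr : (0 : ℝ) < n := by exact_mod_cast hn0
  refine low_class hLow hd0 h64 (Rs v u) (Rs_loc v u) (fun G => T1 K G ∧ G.Adj v u ∧
      (d : ℝ) ^ 4 ≤ 768 * (K : ℝ) ^ 2 * n * ((B2 G v u).card : ℝ) ∧
      128000 * (K : ℝ) ^ 3 * (n : ℝ) ^ 2 * ((St G v u).card : ℝ) < (d : ℝ) ^ 6) t ?_
  intro G₀ h0 hb
  obtain ⟨hT, hvu, hB, -⟩ := hb
  have hB' : d ^ 4 ≤ 768 * K ^ 2 * n * (B2 G₀ v u).card := by exact_mod_cast hB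
  obtain ⟨A, S, b1, b2, b3, b4, b5, b6, b7, b8, b9, b10, b11⟩ := data2 G₀ h0 hT hK hd hn hn3 v u hvu hB'
  have b4r : 100 * (d : ℝ) ≤ A.card := by exact_mod_cast b4
  have b8r : (d : ℝ) ^ 4 ≤ 1000 * (K : ℝ) ^ 2 * n * A.card := by exact_mod_cast b8
  have b9r : (d : ℝ) ≤ 2 * S.card := by exact_mod_cast b9
  refine ⟨A, S, b1, b2, b3, b4, b5, b6, b7, ?_, ?_⟩
  · refine ht.trans ?_
    rw [div_le_div_iff₀ (by positivity) (by positivity)]
    have h1 : 100 * (d : ℝ) * d ≤ A.card * (2 * S.card) := mul_le_mul b4r b9r hdr.le (by positivity)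
    have h2 : 100 * (d : ℝ) * d * (d * n) ≤ A.card * (2 * S.card) * (d * n) :=
      mul_le_mul_of_nonneg_right h1 (by positivity)
    have h3 : 0 ≤ (d : ℝ) ^ 3 * n := by positivity
    nlinarith
  · intro G hG hs hbad
    obtain ⟨hT', hvu', -, hcard⟩ := hbad
    by_contra hcon
    push Not at hcon
    have huR : u ∈ Rs v u G₀ := by simp [Rs]
    have hvR : v ∈ Rs v u G₀ := by simp [Rs]
    -- choose the two feet
    have hfeet : ∀ b : Fin n, ∃ aa : Fin n × Fin n, b ∈ A → (aa.1 ≠ aa.2 ∧ aa.1 ≠ u ∧ aa.2 ≠ u ∧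
        G.Adj v aa.1 ∧ G.Adj v aa.2 ∧ G.Adj aa.1 b ∧ G.Adj aa.2 b) := by
      intro b
      by_cases hbA : b ∈ A
      · have h1 := (b10 b hbA).1
        unfold B2 at h1
        rw [mem_filter] at h1
        obtain ⟨-, -, -, a, a', c1, c2, c3, c4, c5, c6, c7⟩ := h1
        refine ⟨(a, a'), fun _ => ⟨c1, c2, c3, ?_, ?_, ?_, ?_⟩⟩
        · rw [hs v hvR]; exact c4
        · rw [hs v hvR]; exact c5
        · rw [hs a (by simp [Rs, c4])]; exact c6
        · rw [hs a' (by simp [Rs, c5])]; exact c7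
      · exact ⟨(b, b), fun h => absurd h hbA⟩
    choose ft hft using hfeet
    have he : ((A ×ˢ S).filter fun t => G.Adj t.1 t.2).card ≤ K * (St G v u).card := by
      refine card_le_mul_card_image_of_maps_to (f := fun t : Fin n × Fin n => ((ft t.1).1, (ft t.1).2, t.2)) ?_ K ?_
      · intro t ht
        rw [mem_filter, mem_product] at ht
        obtain ⟨⟨hA, hS⟩, hadj⟩ := ht
        obtain ⟨c1, c2, c3, c4, c5, c6, c7⟩ := hft t.1 hA
        obtain ⟨e1, e2, e3⟩ := b11 t.2 hS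
        have hz : G.Adj u t.2 := (hs u huR _).2 e1
        have hzv : ¬ G.Adj v t.2 := fun h => e3 ((hs v hvR _).1 h)
        have hbv : t.1 ≠ v := by
          intro h
          have := (disjoint_left.1 b2) hA
          rw [h] at this
          exact this hvR
        have hbu : t.1 ≠ u := (b10 t.1 hA).2
        unfold St
        rw [mem_filter]
        refine ⟨mem_univ _, c4, c2, c5, c3, hz, e2, c1, ?_, ?_, t.1, hbv, hbu, c6, c7, hadj.symm⟩
        · intro h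
          apply hzv
          have h' : (ft t.1).1 = t.2 := h
          rw [← h']
          exact c4
        · intro h
          apply hzv
          have h' : (ft t.1).2 = t.2 := h
          rw [← h']
          exact c5
      · intro x hx
        -- fibre: `t.2 = x.2.2`, `t.1` common neighbour of `x.1` and `x.2.2`
        by_cases hx2 : x.1 = x.2.2
        · have : ((((A ×ˢ S).filter fun t => G.Adj t.1 t.2)).filter
              fun t => ((ft t.1).1, (ft t.1).2, t.2) = x) = ∅ := by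
            rw [filter_eq_empty_iff]
            rintro t ht he
            unfold St at hx
            rw [mem_filter] at hx
            exact hx.2.2.2.2.2.2.2.2.1 hx2
          rw [this]
          simp
        · refine le_trans ?_ (hT' x.1 x.2.2 hx2)
          refine card_le_card_of_injOn (fun t => t.1) ?_ ?_
          · intro t ht
            simp only [coe_filter, mem_filter, mem_product, Set.mem_ofPred_eq] at ht
            obtain ⟨⟨⟨hA, hS⟩, hadj⟩, heq⟩ := ht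
            obtain ⟨c1, c2, c3, c4, c5, c6, c7⟩ := hft t.1 hA
            rw [← heq]
            simp only [coe_inter, Set.mem_inter_iff, mem_coe, mem_nb]
            exact ⟨c6, hadj.symm⟩
          · intro t ht t' ht' hee
            simp only [coe_filter, mem_filter, mem_product, Set.mem_ofPred_eq] at ht ht'
            have h1 : t.2 = x.2.2 := by rw [← ht.2]
            have h2 : t'.2 = x.2.2 := by rw [← ht'.2]
            exact Prod.ext hee (h1.trans h2.symm)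
    have her : (((A ×ˢ S).filter fun t => G.Adj t.1 t.2).card : ℝ) ≤ K * (St G v u).card := by
      exact_mod_cast he
    have h5 : (A.card : ℝ) * S.card * d < 64 * n * (K * (St G v u).card) :=
      lt_of_lt_of_le hcon (mul_le_mul_of_nonneg_left her (by positivity))
    have h6 : (d : ℝ) ^ 4 * d ≤ (1000 * (K : ℝ) ^ 2 * n * A.card) * (2 * S.card) :=
      mul_le_mul b8r b9r hdr.le (by positivity)
    have h7 : (d : ℝ) ^ 6 ≤ 2000 * (K : ℝ) ^ 2 * n * (A.card * S.card * d) := by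
      calc (d : ℝ) ^ 6 = (d : ℝ) ^ 4 * d * d := by ring
        _ ≤ (1000 * (K : ℝ) ^ 2 * n * A.card) * (2 * S.card) * d := mul_le_mul_of_nonneg_right h6 hdr.le
        _ = _ := by ring
    have h8 : 2000 * (K : ℝ) ^ 2 * n * (A.card * S.card * d)
        < 2000 * (K : ℝ) ^ 2 * n * (64 * n * (K * (St G v u).card)) :=
      mul_lt_mul_of_pos_left h5 (by positivity)
    have h9 : 2000 * (K : ℝ) ^ 2 * n * (64 * n * (K * (St G v u).card))
        = 128000 * (K : ℝ) ^ 3 * (n : ℝ) ^ 2 * ((St G v u).card : ℝ) := by ring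
    linarith

/-- the codegree bound in terms of `n` -/
noncomputable def Kn (K₂ : ℝ) (n : ℕ) : ℕ := ⌈K₂ * Real.log n⌉₊

/-- the statement of STAR2LOW for a given constant -/
def QB (c : ℝ) (n d : ℕ) (G : Gr n) : Prop := ∀ v u, G.Adj v u →
  c * (d : ℝ) ^ 6 / ((Real.log n) ^ 3 * (n : ℝ) ^ 2) ≤
          ((univ.filter fun t : Fin n × Fin n × Fin n => Star2 G v u t.1 t.2.1 t.2.2).card : ℝ)

def PB2 (K₂ c : ℝ) (n d : ℕ) (G : Gr n) : Prop := T1 (Kn K₂ n) G → QB c n d G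

/-- numerical facts, `n` large -/
theorem numerics (C K₂ : ℝ) (hC : 0 < C) (hK : 1 ≤ K₂) (hKC : 5 * C ^ 2 ≤ K₂) :
    ∃ n₀ : ℕ, ∀ n ≥ n₀, ∀ d : ℕ, (n : ℝ) ^ (0.42 : ℝ) ≤ d → (d : ℝ) ≤ C * Real.sqrt (n * Real.log n) →
      1 ≤ n ∧ 1 ≤ Real.log n ∧ 1 ≤ Kn K₂ n ∧ K₂ * Real.log n ≤ Kn K₂ n ∧ (Kn K₂ n : ℝ) ≤ 2 * K₂ * Real.log n ∧
      1000 * Kn K₂ n ≤ d ∧ 5 * d ^ 2 ≤ Kn K₂ n * n ∧ 64 * d ≤ n ∧ 100000 * (Kn K₂ n) ^ 2 * n ≤ d ^ 3 ∧
      (n : ℝ) ^ (0.26 : ℝ) ≤ (d : ℝ) ^ 3 / n := by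
  have hlog : Tendsto (fun n : ℕ => Real.log n) atTop atTop := Real.tendsto_log_atTop.comp tendsto_natCast_atTop_atTop
  have e1 : ∀ᶠ n : ℕ in atTop, 1 ≤ Real.log n := hlog.eventually_ge_atTop 1
  have e2 : ∀ᶠ n : ℕ in atTop, 2000 * K₂ * Real.log n ≤ (n : ℝ) ^ (0.42 : ℝ) := by
    have h1 := (isLittleO_log_rpow_atTop (by norm_num : (0 : ℝ) < 0.42)).bound
      (by positivity : 0 < (1 / (2000 * K₂)))
    have h2 := tendsto_natCast_atTop_atTop (R := ℝ) |>.eventually h1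
    filter_upwards [h2, e1] with n hn hn1
    rw [Real.norm_of_nonneg (by linarith), Real.norm_of_nonneg (by positivity)] at hn
    calc 2000 * K₂ * Real.log n ≤ 2000 * K₂ * (1 / (2000 * K₂) * (n : ℝ) ^ (0.42 : ℝ)) :=
          mul_le_mul_of_nonneg_left hn (by positivity)
      _ = _ := by field_simp
  have e3 : ∀ᶠ n : ℕ in atTop, 1000 * K₂ * Real.log n ≤ (n : ℝ) ^ (0.13 : ℝ) := by
    have h1 := (isLittleO_log_rpow_atTop (by norm_num : (0 : ℝ) < 0.13)).bound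
      (by positivity : 0 < (1 / (1000 * K₂)))
    have h2 := tendsto_natCast_atTop_atTop (R := ℝ) |>.eventually h1
    filter_upwards [h2, e1] with n hn hn1
    rw [Real.norm_of_nonneg (by linarith), Real.norm_of_nonneg (by positivity)] at hn
    calc 1000 * K₂ * Real.log n ≤ 1000 * K₂ * (1 / (1000 * K₂) * (n : ℝ) ^ (0.13 : ℝ)) :=
          mul_le_mul_of_nonneg_left hn (by positivity)
      _ = _ := by field_simp
  obtain ⟨n₁, hn₁⟩ := eventually_atTop.1 (e1.and (e2.and e3))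
  refine ⟨max n₁ 1, fun n hn d hd1 hd2 => ?_⟩
  obtain ⟨f1, f2, f3⟩ := hn₁ n (le_trans (le_max_left _ _) hn)
  have hn1 : 1 ≤ n := le_trans (le_max_right _ _) hn
  have hnr : (0 : ℝ) < n := by exact_mod_cast hn1
  have hKL : 1 ≤ K₂ * Real.log n := by nlinarith
  have k1 : K₂ * Real.log n ≤ Kn K₂ n := Nat.le_ceil _
  have k2 : (Kn K₂ n : ℝ) ≤ 2 * K₂ * Real.log n := by
    have : (Kn K₂ n : ℝ) < K₂ * Real.log n + 1 := Nat.ceil_lt_add_one (by linarith)
    linarith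
  have k0 : 1 ≤ Kn K₂ n := by
    have : (1 : ℝ) ≤ Kn K₂ n := hKL.trans k1
    exact_mod_cast this
  have k3 : 1000 * Kn K₂ n ≤ d := by
    have : (1000 : ℝ) * Kn K₂ n ≤ d := by linarith
    exact_mod_cast this
  have k4 : 5 * d ^ 2 ≤ Kn K₂ n * n := by
    have h1 : (d : ℝ) ^ 2 ≤ (C * Real.sqrt (n * Real.log n)) ^ 2 := pow_le_pow_left₀ (by positivity) hd2 2
    rw [mul_pow, Real.sq_sqrt (by positivity)] at h1
    have h2 : (5 : ℝ) * d ^ 2 ≤ Kn K₂ n * n := by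
      calc (5 : ℝ) * d ^ 2 ≤ (5 * C ^ 2) * (n * Real.log n) := by linarith
        _ ≤ K₂ * (n * Real.log n) := mul_le_mul_of_nonneg_right hKC (by positivity)
        _ = (K₂ * Real.log n) * n := by ring
        _ ≤ _ := mul_le_mul_of_nonneg_right k1 hnr.le
    exact_mod_cast h2
  have k5 : 64 * d ≤ n := by
    have h1 : Kn K₂ n * (5000 * d) ≤ Kn K₂ n * n := by
      calc Kn K₂ n * (5000 * d) = 5 * ((1000 * Kn K₂ n) * d) := by ring
        _ ≤ 5 * (d * d) := Nat.mul_le_mul_left 5 (Nat.mul_le_mul_right d k3)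
        _ = 5 * d ^ 2 := by ring
        _ ≤ _ := k4
    have := Nat.le_of_mul_le_mul_left h1 (by omega)
    omega
  have k6 : (n : ℝ) ^ (0.26 : ℝ) * n ≤ (d : ℝ) ^ 3 := by
    have h1 : ((n : ℝ) ^ (0.42 : ℝ)) ^ 3 ≤ (d : ℝ) ^ 3 := pow_le_pow_left₀ (by positivity) hd1 3
    have h2 : ((n : ℝ) ^ (0.42 : ℝ)) ^ 3 = (n : ℝ) ^ (0.26 : ℝ) * n := by
      rw [← Real.rpow_natCast, ← Real.rpow_mul hnr.le, ← Real.rpow_add_one hnr.ne']
      norm_num
    linarith
  have k7 : 100000 * (Kn K₂ n) ^ 2 * n ≤ d ^ 3 := by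
    have h1 : (100000 : ℝ) * (Kn K₂ n : ℝ) ^ 2 ≤ (n : ℝ) ^ (0.26 : ℝ) := by
      have h2 : (1000 * K₂ * Real.log n) ^ 2 ≤ ((n : ℝ) ^ (0.13 : ℝ)) ^ 2 :=
        pow_le_pow_left₀ (by positivity) f3 2
      have h3 : ((n : ℝ) ^ (0.13 : ℝ)) ^ 2 = (n : ℝ) ^ (0.26 : ℝ) := by
        rw [← Real.rpow_natCast, ← Real.rpow_mul hnr.le]
        norm_num
      have h4 : (Kn K₂ n : ℝ) ^ 2 ≤ (2 * K₂ * Real.log n) ^ 2 := pow_le_pow_left₀ (by positivity) k2 2
      have h5 : 0 ≤ (K₂ * Real.log n) ^ 2 := by positivity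
      calc (100000 : ℝ) * (Kn K₂ n : ℝ) ^ 2 ≤ 100000 * (2 * K₂ * Real.log n) ^ 2 := by linarith
        _ = 400000 * (K₂ * Real.log n) ^ 2 := by ring
        _ ≤ 1000000 * (K₂ * Real.log n) ^ 2 := by linarith
        _ = (1000 * K₂ * Real.log n) ^ 2 := by ring
        _ ≤ _ := by rw [← h3]; exact h2
    have h6 : (100000 : ℝ) * (Kn K₂ n : ℝ) ^ 2 * n ≤ (d : ℝ) ^ 3 :=
      (mul_le_mul_of_nonneg_right h1 hnr.le).trans k6
    exact_mod_cast h6
  exact ⟨hn1, f1, k0, k1, k2, k3, k4, k5, k7, by rw [le_div_iff₀ hnr]; exact k6⟩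

end Pool.Agent.RRG.Star2LowM

namespace Pool.Agent.RRG

open Pool.Agent.RRG.LowTools Pool.Agent.RRG.FiveLowM Pool.Agent.RRG.Star2LowM

theorem star2low_proof (hLow : Stmt_Low) (hCod : Stmt_CodegLog) : Stmt_Star2Low := by
  intro C hC
  obtain ⟨K0, hK0p, hK0⟩ := hCod C hC
  obtain ⟨K₂, hK1, hK2, hKC⟩ : ∃ K₂ : ℝ, 1 ≤ K₂ ∧ K0 ≤ K₂ ∧ 5 * C ^ 2 ≤ K₂ :=
    ⟨max 1 (max K0 (5 * C ^ 2)), le_max_left _ _, (le_max_left _ _).trans (le_max_right _ _),
      (le_max_right _ _).trans (le_max_right _ _)⟩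
  obtain ⟨n₀, hnum⟩ := numerics C K₂ hC hK1 hKC
  refine ⟨1 / (1024000 * K₂ ^ 3), by positivity, ?_⟩
  have hA : Whp (fun n d => (n : ℝ) ^ (0.42 : ℝ) ≤ d ∧ (d : ℝ) ≤ C * Real.sqrt (n * Real.log n))
      (fun n _ G => T1 (Kn K₂ n) G) := by
    refine hK0.mono ⟨0, fun n _ d h => h.2⟩ ⟨max n₀ 0, fun n hn d hd G _ h => ?_⟩
    obtain ⟨g1, g2, g3, g4, g5, g6, g7, g8, g9, g10⟩ := hnum n (by omega) d hd.1 hd.2
    intro x y hxy
    have h1 := h x y hxy
    have h2 : ((nb G x ∩ nb G y).card : ℝ) ≤ Kn K₂ n := by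
      refine h1.trans (le_trans ?_ g4)
      exact mul_le_mul_of_nonneg_right hK2 (by linarith)
    exact_mod_cast h2
  have hB : Whp (fun n d => (n : ℝ) ^ (0.42 : ℝ) ≤ d ∧ (d : ℝ) ≤ C * Real.sqrt (n * Real.log n))
      (fun n d G => PB2 K₂ (1 / (1024000 * K₂ ^ 3)) n d G) := by
    refine Whp.of_bound (fun n : ℕ => 8 * (n : ℝ) ^ (2 : ℝ) * (2 : ℝ) ^ (-(1 * (n : ℝ) ^ (0.26 : ℝ))))
      (tend_zero 8 1 0.26 2 (by norm_num) (by norm_num)) ?_
    refine ⟨n₀, fun n hn d hd => ?_⟩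
    obtain ⟨g1, g2, g3, g4, g5, g6, g7, g8, g9, g10⟩ := hnum n hn d hd.1 hd.2
    set K : ℕ := Kn K₂ n with hK
    have hnr : (0 : ℝ) < n := by exact_mod_cast g1
    have hKr : (1 : ℝ) ≤ K := by exact_mod_cast g3
    have hd0 : 0 < d := by omega
    have hdr : (0 : ℝ) < d := by exact_mod_cast hd0
    have ht1 : (1 * (n : ℝ) ^ (0.26 : ℝ)) ≤ (d : ℝ) ^ 4 / (384 * K * n) := by
      rw [one_mul]
      refine g10.trans ?_
      rw [div_le_div_iff₀ (by positivity) (by positivity)]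
      have h1 : (1000 * K : ℝ) ≤ d := by exact_mod_cast g6
      have h2 : (d : ℝ) ^ 3 * (384 * K) ≤ (d : ℝ) ^ 3 * d :=
        mul_le_mul_of_nonneg_left (by linarith) (by positivity)
      calc (d : ℝ) ^ 3 * (384 * K * n) = (d : ℝ) ^ 3 * (384 * K) * n := by ring
        _ ≤ (d : ℝ) ^ 3 * d * n := mul_le_mul_of_nonneg_right h2 hnr.le
        _ = _ := by ring
    have ht2 : (1 * (n : ℝ) ^ (0.26 : ℝ)) ≤ (d : ℝ) ^ 3 / n := by rw [one_mul]; exact g10
    have hb1 := fun v u : Fin n => bound1 hLow g3 g6 g7 g8 v u _ ht1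
    have hb2 := fun v u : Fin n => bound2 hLow g3 g6 g7 g8 g9 v u _ ht2
    have hsub : ((Reg n d).filter fun G => ¬ PB2 K₂ (1 / (1024000 * K₂ ^ 3)) n d G) ⊆
        (univ : Finset (Fin n × Fin n)).biUnion fun t =>
          ((Reg n d).filter fun G => T1 K G ∧ G.Adj t.1 t.2 ∧
            768 * (K : ℝ) ^ 2 * n * ((B2 G t.1 t.2).card : ℝ) < (d : ℝ) ^ 4) ∪
          ((Reg n d).filter fun G => T1 K G ∧ G.Adj t.1 t.2 ∧
            (d : ℝ) ^ 4 ≤ 768 * (K : ℝ) ^ 2 * n * ((B2 G t.1 t.2).card : ℝ) ∧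
            128000 * (K : ℝ) ^ 3 * (n : ℝ) ^ 2 * ((St G t.1 t.2).card : ℝ) < (d : ℝ) ^ 6) := by
      intro G hG
      rw [mem_filter] at hG
      obtain ⟨g1', g2'⟩ := hG
      unfold PB2 at g2'
      push Not at g2'
      obtain ⟨g3', g4'⟩ := g2'
      unfold QB at g4'
      push Not at g4'
      obtain ⟨v, u, g5', g6'⟩ := g4'
      rw [mem_biUnion]
      refine ⟨(v, u), mem_univ _, ?_⟩
      rw [mem_union, mem_filter, mem_filter]
      by_cases hc : 768 * (K : ℝ) ^ 2 * n * ((B2 G v u).card : ℝ) < (d : ℝ) ^ 4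
      · exact Or.inl ⟨g1', g3', g5', hc⟩
      · right
        refine ⟨g1', g3', g5', not_lt.1 hc, ?_⟩
        have h1 : ((St G v u).card : ℝ) < 1 / (1024000 * K₂ ^ 3) * (d : ℝ) ^ 6 / ((Real.log n) ^ 3 * (n : ℝ) ^ 2) := g6'
        have h2 : 128000 * (K : ℝ) ^ 3 * (n : ℝ) ^ 2 * ((St G v u).card : ℝ)
            < 128000 * (K : ℝ) ^ 3 * (n : ℝ) ^ 2 *
              (1 / (1024000 * K₂ ^ 3) * (d : ℝ) ^ 6 / ((Real.log n) ^ 3 * (n : ℝ) ^ 2)) :=
          mul_lt_mul_of_pos_left h1 (by positivity)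
        refine lt_of_lt_of_le h2 ?_
        have h3 : (K : ℝ) ^ 3 ≤ (2 * K₂ * Real.log n) ^ 3 := pow_le_pow_left₀ (by positivity) g5 3
        have hlp : 0 < Real.log n := by linarith
        calc 128000 * (K : ℝ) ^ 3 * (n : ℝ) ^ 2 *
              (1 / (1024000 * K₂ ^ 3) * (d : ℝ) ^ 6 / ((Real.log n) ^ 3 * (n : ℝ) ^ 2))
            ≤ 128000 * (2 * K₂ * Real.log n) ^ 3 * (n : ℝ) ^ 2 *
              (1 / (1024000 * K₂ ^ 3) * (d : ℝ) ^ 6 / ((Real.log n) ^ 3 * (n : ℝ) ^ 2)) := by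
              gcongr
          _ = (d : ℝ) ^ 6 := by
              field_simp
              ring
    have h1 : (((Reg n d).filter fun G => ¬ PB2 K₂ (1 / (1024000 * K₂ ^ 3)) n d G).card : ℝ)
        ≤ ∑ t ∈ (univ : Finset (Fin n × Fin n)),
          ((((Reg n d).filter fun G => T1 K G ∧ G.Adj t.1 t.2 ∧
            768 * (K : ℝ) ^ 2 * n * ((B2 G t.1 t.2).card : ℝ) < (d : ℝ) ^ 4).card : ℝ) +
          (((Reg n d).filter fun G => T1 K G ∧ G.Adj t.1 t.2 ∧
            (d : ℝ) ^ 4 ≤ 768 * (K : ℝ) ^ 2 * n * ((B2 G t.1 t.2).card : ℝ) ∧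
            128000 * (K : ℝ) ^ 3 * (n : ℝ) ^ 2 * ((St G t.1 t.2).card : ℝ) < (d : ℝ) ^ 6).card : ℝ)) := by
      have h2 := (card_le_card hsub).trans card_biUnion_le
      have h3 : ((((Reg n d).filter fun G => ¬ PB2 K₂ (1 / (1024000 * K₂ ^ 3)) n d G).card : ℕ) : ℝ) ≤ _ :=
        Nat.cast_le.2 (h2.trans (sum_le_sum fun t _ => card_union_le _ _))
      refine h3.trans (le_of_eq ?_)
      push_cast
      rfl
    refine h1.trans ((sum_le_sum fun t _ => add_le_add (hb1 t.1 t.2) (hb2 t.1 t.2)).trans ?_)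
    rw [sum_const, card_univ, Fintype.card_prod, Fintype.card_fin, nsmul_eq_mul]
    have : (n : ℝ) ^ (2 : ℝ) = ((n * n : ℕ) : ℝ) := by
      rw [Real.rpow_two]; push_cast; ring
    rw [this]
    apply le_of_eq
    ring
  refine (hA.and hB).mono ⟨0, fun n _ d h => h⟩ ⟨0, fun n _ d _ G _ h => h.2 h.1⟩

end Pool.Agent.RRG
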