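import Pool.Agent.RRG.Basic

/-!
# Module STEPA (MP_d15a9b_pr): 5-cycles through a changed edge whose other edges are unchanged
-/

open Finset Filter Topology
open scoped Classical

namespace Pool.Agent.RRG

namespace StepA

variable {n : ℕ} {G H : Gr n} {σ : Fin n → Equiv.Perm (Fin n)}

/-- the tuples `(v, w, c)` with `v w p q c` a 5-cycle of `H` all of whose edges except `p q` are unchanged -/
noncomputable def tup (H : Gr n) (σ : Fin n → Equiv.Perm (Fin n)) (p q : Fin n) : Finset (Fin n × Fin n × Fin n) :=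
  univ.filter fun t : Fin n × Fin n × Fin n =>
    C5 H t.1 t.2.1 p q t.2.2 ∧ ¬ Ch H σ t.1 t.2.1 ∧ ¬ Ch H σ t.2.1 p ∧ ¬ Ch H σ q t.2.2 ∧
      ¬ Ch H σ t.2.2 t.1

theorem aux {K : ℕ} {L : ℝ} (h : IsPartner G H σ) (t2 : T2 K G) (t4 : T4 L G) {p q : Fin n}
    (hpq : H.Adj p q) (hne : (σ p).symm q ≠ q) : ((tup H σ p q).card : ℝ) ≤ K * L := by
  set u := (σ p).symm q with hu
  have hup : u ≠ p := by
    intro e
    have : q = σ p u := by simp [hu]
    rw [e, h.root] at this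
    exact hpq.ne this.symm
  have hW := t4 p q u hne.symm hpq.ne.symm hup
  set W := (nb G p).filter fun c => J3 G p c q ∧ J3 G p c u with hWd
  have hs := h.symm
  have key : ∀ t ∈ tup H σ p q, t.2.1 ∈ W ∧ H.Adj p t.2.1 ∧ t.2.1 ≠ q ∧ P3 H t.2.1 t.1 t.2.2 q := by
    rintro ⟨v, w, c⟩ ht
    simp only [tup, mem_filter, mem_univ, true_and] at ht
    obtain ⟨⟨a1, a2, a3, a4, a5, n1, n2, n3, n4, n5⟩, b1, b2, b3, b4⟩ := ht
    have e1 := not_Ch h a1 b1
    have e2 := not_Ch h a2 b2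
    have e3 := not_Ch h a4 b3
    have e4 := not_Ch h a5 b4
    have pH : P3 H w v c q := ⟨a1.symm, a5.symm, a4.symm, n4, n3, n2⟩
    have pG : P3 G w v c q := ⟨e1.1.symm, e4.1.symm, e3.1.symm, n4, n3, n2⟩
    refine ⟨?_, a2.symm, n3, pH⟩
    simp only [hWd, mem_filter, mem_nb]
    refine ⟨e2.1.symm, ⟨v, c, pG, n1, n5.symm⟩, ?_⟩
    have := (hs.P3_iff a2.symm hpq v c).1 pH
    rw [e2.2.2.1] at this
    refine ⟨(σ p).symm v, (σ p).symm c, this, ?_, ?_⟩
    · rw [ne_eq, hs.ne_root_iff]; exact n1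
    · rw [ne_eq, hs.ne_root_iff]; exact n5.symm
  have hc : (tup H σ p q).card ≤ K * W.card := by
    refine card_le_mul_card_image_of_maps_to (f := fun t => t.2.1) (fun t ht => (key t ht).1) K ?_
    intro w _
    by_cases hem : ((tup H σ p q).filter fun t => t.2.1 = w).Nonempty
    · obtain ⟨t₀, ht₀⟩ := hem
      rw [mem_filter] at ht₀
      obtain ⟨-, k1, k2, -⟩ := key t₀ ht₀.1
      rw [ht₀.2] at k1 k2
      refine le_trans ?_ (h.P3_card_le t2 k1 hpq k2)
      refine card_le_card_of_injOn (fun t => (t.1, t.2.2)) ?_ ?_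
      · intro t ht
        simp only [coe_filter, Set.mem_ofPred_eq] at ht
        simp only [coe_filter, mem_univ, true_and, Set.mem_ofPred_eq]
        have := (key t ht.1).2.2.2
        rwa [ht.2] at this
      · intro a ha b hb hab
        simp only [coe_filter, Set.mem_ofPred_eq] at ha hb
        simp only [Prod.mk.injEq] at hab
        exact Prod.ext hab.1 (Prod.ext (ha.2.trans hb.2.symm) hab.2)
    · rw [not_nonempty_iff_eq_empty] at hem
      rw [hem]; simp
  calc ((tup H σ p q).card : ℝ) ≤ ((K * W.card : ℕ) : ℝ) := by exact_mod_cast hc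
    _ = K * (W.card : ℝ) := by push_cast; ring
    _ ≤ K * L := mul_le_mul_of_nonneg_left hW (by positivity)

theorem tup_swap (p q : Fin n) : (tup H σ p q).card ≤ (tup H σ q p).card := by
  refine card_le_card_of_injOn (fun t => (t.1, t.2.2, t.2.1)) ?_ ?_
  · rintro ⟨v, w, c⟩ ht
    simp only [tup, coe_filter, mem_univ, true_and, Set.mem_ofPred_eq] at ht ⊢
    obtain ⟨⟨a1, a2, a3, a4, a5, n1, n2, n3, n4, n5⟩, b1, b2, b3, b4⟩ := ht
    refine ⟨⟨a5.symm, a4.symm, a3.symm, a2.symm, a1.symm, n2, n1, n5.symm, n4.symm, n3.symm⟩, ?_, ?_, ?_, ?_⟩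
    · rwa [Ch.comm]
    · rwa [Ch.comm]
    · rwa [Ch.comm]
    · rwa [Ch.comm]
  · rintro ⟨v, w, c⟩ _ ⟨v', w', c'⟩ _ hab
    simp only [Prod.mk.injEq] at hab ⊢
    tauto

/-- the sharp form of Step A -/
theorem main {K : ℕ} {L : ℝ} (h : IsPartner G H σ) (t2 : T2 K G) (t4 : T4 L G) {p q : Fin n}
    (hpq : Ch H σ p q) : ((tup H σ p q).card : ℝ) ≤ K * L := by
  rcases hpq.2 with h1 | h1
  · exact aux h t2 t4 hpq.1 h1
  · refine le_trans ?_ (aux h t2 t4 hpq.1.symm h1)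
    exact_mod_cast tup_swap p q

end StepA

theorem StepA_proof : Stmt_StepA := by
  intro K c₁ c₂ c₄ c₅ C₆ δ c₇ c₈ c₉ n d G H σ ctx p q hpq
  have := StepA.main ctx.part ctx.t2 ctx.t4 hpq
  unfold StepA.tup at this
  refine this.trans ?_
  have hl : 0 ≤ lam n d := by unfold lam; positivity
  have h5 : 0 ≤ (n : ℝ) ^ (-c₅) * lam n d := by positivity
  have h4 : 0 ≤ (K : ℝ) * ((n : ℝ) ^ (-c₄) * lam n d) := by positivity
  linarith

end Pool.Agent.RRG
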