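import Pool.Agent.RRG.FiveCount

/-!
# STEPD (MP_d15a9b_pr, section 8, Steps C, D)
-/

open Finset Filter Topology
open scoped Classical

namespace Pool.Agent.RRG

namespace StepD

open FiveCount

variable {n : ℕ}

theorem N5_rot3 {P Q : Fin n → Fin n → Fin n → Fin n → Fin n → Prop}
    (h : ∀ v w p q c, P v w p q c → Q q c v w p) : N5 P ≤ N5 Q := by
  refine N5_le_of_map (fun t => (t.2.2.2.1, t.2.2.2.2, t.1, t.2.1, t.2.2.1)) ?_ ?_
  · rintro ⟨a, b, c, d, e⟩ ⟨a', b', c', d', e'⟩ h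
    simp only [Prod.mk.injEq] at h ⊢
    tauto
  · intro v w p q c hP
    exact h v w p q c hP

theorem N5_swap {P Q : Fin n → Fin n → Fin n → Fin n → Fin n → Prop}
    (h : ∀ v w p q c, P v w p q c → Q w v c q p) : N5 P ≤ N5 Q := by
  refine N5_le_of_map (fun t => (t.2.1, t.1, t.2.2.2.2, t.2.2.2.1, t.2.2.1)) ?_ ?_
  · rintro ⟨a, b, c, d, e⟩ ⟨a', b', c', d', e'⟩ h
    simp only [Prod.mk.injEq] at h ⊢
    tauto
  · intro v w p q c hP
    exact h v w p q c hP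

theorem C5_swap {G : Gr n} {v w p q c : Fin n} (h : C5 G v w p q c) : C5 G w v c q p :=
  C5_rot (C5_rot (C5_rot (C5_rot (C5_refl h))))

variable {K : ℕ} {c₁ c₂ c₄ c₅ C₆ δ c₇ c₈ c₉ : ℝ} {d : ℕ} {G H : Gr n} {σ : Fin n → Equiv.Perm (Fin n)}

/-- Step C, summed over light vertices -/
theorem light_pairs (hC : 0 < C₆) {η : ℝ} (hη : 0 ≤ η) (ctx : Ctx K c₁ c₂ c₄ c₅ C₆ δ c₇ c₈ c₉ n d G H σ) :
    (N5 (fun x a b c e => C5 H x a b c e ∧ Ch H σ x a ∧ Ch H σ e x ∧ (Fd H σ x : ℝ) ≤ η * d) : ℝ)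
      ≤ C₆ * (η * lam n d + 2 * Real.log n) * Mch H σ := by
  set X : Finset (Fin n) := univ.filter fun x => (Fd H σ x : ℝ) ≤ η * d with hX
  have h1 : N5 (fun x a b c e => C5 H x a b c e ∧ Ch H σ x a ∧ Ch H σ e x ∧ (Fd H σ x : ℝ) ≤ η * d)
      ≤ ∑ x ∈ X, nP3 H x (F H σ x) (F H σ x) := by
    refine N5_le_nP3 fun x a b c e h => ⟨h.1, ?_, ?_, ?_⟩
    · simp only [hX, mem_filter, mem_univ, true_and]; exact h.2.2.2
    · simp only [F, mem_filter, mem_univ, true_and]; exact h.2.1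
    · simp only [F, mem_filter, mem_univ, true_and]; exact h.2.2.1.symm
  have h2 : (∑ x ∈ X, (nP3 H x (F H σ x) (F H σ x) : ℝ)) ≤
      ∑ x ∈ X, C₆ * (η * lam n d + 2 * Real.log n) * Fd H σ x := by
    refine sum_le_sum fun x hx => ?_
    simp only [hX, mem_filter, mem_univ, true_and] at hx
    refine (t6_nP3 ctx x (F_sub x) (F_sub x)).trans ?_
    rw [card_F]
    have hg : gam n d * (Fd H σ x : ℝ) ≤ gam n d * (η * d) :=
      mul_le_mul_of_nonneg_left hx (by unfold gam; positivity)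
    have hg2 : gam n d * (Fd H σ x : ℝ) ≤ η * lam n d := by
      rw [← gam_mul]; linarith [hg, mul_comm (gam n d) (η * d), mul_assoc η (gam n d) d]
    have hF : (0 : ℝ) ≤ Fd H σ x := by positivity
    have hg3 := mul_le_mul_of_nonneg_right hg2 hF
    rw [mul_assoc C₆]
    refine mul_le_mul_of_nonneg_left ?_ hC.le
    linarith
  have h3 : ∑ x ∈ X, C₆ * (η * lam n d + 2 * Real.log n) * (Fd H σ x : ℝ)
      ≤ C₆ * (η * lam n d + 2 * Real.log n) * Mch H σ := by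
    rw [← mul_sum, Mch_eq_sum]
    have hl : 0 ≤ lam n d := by unfold lam; positivity
    have hg : 0 ≤ Real.log n := Real.log_natCast_nonneg n
    refine mul_le_mul_of_nonneg_left ?_ (by positivity)
    push_cast
    exact sum_le_sum_of_subset_of_nonneg (subset_univ _) fun x _ _ => by positivity
  refine le_trans ?_ h3
  refine le_trans ?_ h2
  exact_mod_cast h1

/-- all 5-cycles through light changed edges -/
theorem total (hA : Stmt_StepA) (hC : 0 < C₆) (ctx : Ctx K c₁ c₂ c₄ c₅ C₆ δ c₇ c₈ c₉ n d G H σ)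
    {η : ℝ} (hη : 0 ≤ η) :
    (N5 (fun v w p q c => C5 H v w p q c ∧ Ch H σ v w ∧ (Fd H σ v : ℝ) ≤ η * d ∧ (Fd H σ w : ℝ) ≤ η * d) : ℝ)
      ≤ (sm K c₄ c₅ n d + 2 * (C₆ * (η * lam n d + 2 * Real.log n)) + 3 * ((n : ℝ) ^ (-c₉) * lam n d)) *
        Mch H σ := by
  set P1 : Fin n → Fin n → Fin n → Fin n → Fin n → Prop := fun v w p q c => C5 H v w p q c ∧ Ch H σ v w ∧
    ¬ Ch H σ w p ∧ ¬ Ch H σ p q ∧ ¬ Ch H σ q c ∧ ¬ Ch H σ c v with hP1
  set P2 : Fin n → Fin n → Fin n → Fin n → Fin n → Prop := fun v w p q c => C5 H v w p q c ∧ Ch H σ v w ∧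
    Ch H σ w p ∧ (Fd H σ w : ℝ) ≤ η * d with hP2
  set P3 : Fin n → Fin n → Fin n → Fin n → Fin n → Prop := fun v w p q c => C5 H v w p q c ∧ Ch H σ v w ∧
    Ch H σ c v ∧ (Fd H σ v : ℝ) ≤ η * d with hP3
  set P4 : Fin n → Fin n → Fin n → Fin n → Fin n → Prop := fun v w p q c => C5 H v w p q c ∧ Ch H σ v w ∧
    Ch H σ p q ∧ ¬ Ch H σ w p ∧ ¬ Ch H σ q c ∧ ¬ Ch H σ c v with hP4
  set P5 : Fin n → Fin n → Fin n → Fin n → Fin n → Prop := fun v w p q c => C5 H v w p q c ∧ Ch H σ v w ∧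
    Ch H σ q c ∧ ¬ Ch H σ w p ∧ ¬ Ch H σ p q ∧ ¬ Ch H σ c v with hP5
  set P6 : Fin n → Fin n → Fin n → Fin n → Fin n → Prop := fun v w p q c => C5 H v w p q c ∧ Ch H σ v w ∧
    Ch H σ q c ∧ Ch H σ p q ∧ ¬ Ch H σ w p ∧ ¬ Ch H σ c v with hP6
  have b1 : (N5 P1 : ℝ) ≤ Mch H σ * sm K c₄ c₅ n d := one_changed hA ctx
  have b3 : (N5 P3 : ℝ) ≤ C₆ * (η * lam n d + 2 * Real.log n) * Mch H σ := light_pairs hC hη ctx
  have b2 : (N5 P2 : ℝ) ≤ C₆ * (η * lam n d + 2 * Real.log n) * Mch H σ := by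
    refine le_trans ?_ b3
    refine Nat.cast_le.2 (N5_rot fun v w p q c h => ?_)
    exact ⟨C5_rot h.1, h.2.2.1, h.2.1, h.2.2.2⟩
  have b4 : (N5 P4 : ℝ) ≤ (n : ℝ) ^ (-c₉) * lam n d * Mch H σ := two_changed ctx
  have b5 : (N5 P5 : ℝ) ≤ (n : ℝ) ^ (-c₉) * lam n d * Mch H σ := by
    refine le_trans (Nat.cast_le.2 (N5_swap fun v w p q c h => ?_)) b4
    obtain ⟨h0, h1, h2, h3, h4, h5⟩ := h
    exact ⟨C5_swap h0, h1.symm, h2.symm, fun h => h5 h.symm, fun h => h4 h.symm, fun h => h3 h.symm⟩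
  have b6 : (N5 P6 : ℝ) ≤ (n : ℝ) ^ (-c₉) * lam n d * Mch H σ := by
    refine le_trans (Nat.cast_le.2 (N5_rot3 fun v w p q c h => ?_)) (three_changed ctx)
    obtain ⟨h0, h1, h2, h3, h4, h5⟩ := h
    exact ⟨C5_rot (C5_rot (C5_rot h0)), h2, h3, h1, h5, h4⟩
  have key : N5 (fun v w p q c => C5 H v w p q c ∧ Ch H σ v w ∧ (Fd H σ v : ℝ) ≤ η * d ∧ (Fd H σ w : ℝ) ≤ η * d)
      ≤ N5 P1 + (N5 P2 + (N5 P3 + (N5 P4 + (N5 P5 + N5 P6)))) := by
    refine le_trans (N5_mono (Q := fun v w p q c => P1 v w p q c ∨ (P2 v w p q c ∨ (P3 v w p q c ∨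
      (P4 v w p q c ∨ (P5 v w p q c ∨ P6 v w p q c))))) ?_) ?_
    · rintro v w p q c ⟨h0, h1, h2, h3⟩
      simp only [hP1, hP2, hP3, hP4, hP5, hP6]
      by_cases e1 : Ch H σ w p
      · exact Or.inr (Or.inl ⟨h0, h1, e1, h3⟩)
      by_cases e2 : Ch H σ c v
      · exact Or.inr (Or.inr (Or.inl ⟨h0, h1, e2, h2⟩))
      by_cases e3 : Ch H σ p q
      · by_cases e4 : Ch H σ q c
        · exact Or.inr (Or.inr (Or.inr (Or.inr (Or.inr ⟨h0, h1, e4, e3, e1, e2⟩))))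
        · exact Or.inr (Or.inr (Or.inr (Or.inl ⟨h0, h1, e3, e1, e4, e2⟩)))
      · by_cases e4 : Ch H σ q c
        · exact Or.inr (Or.inr (Or.inr (Or.inr (Or.inl ⟨h0, h1, e4, e1, e3, e2⟩))))
        · exact Or.inl ⟨h0, h1, e1, e3, e4, e2⟩
    · refine (N5_or _ _).trans (Nat.add_le_add_left ?_ _)
      refine (N5_or _ _).trans (Nat.add_le_add_left ?_ _)
      refine (N5_or _ _).trans (Nat.add_le_add_left ?_ _)
      refine (N5_or _ _).trans (Nat.add_le_add_left ?_ _)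
      exact N5_or _ _
  have key' : (N5 (fun v w p q c => C5 H v w p q c ∧ Ch H σ v w ∧ (Fd H σ v : ℝ) ≤ η * d ∧
      (Fd H σ w : ℝ) ≤ η * d) : ℝ) ≤ N5 P1 + (N5 P2 + (N5 P3 + (N5 P4 + (N5 P5 + N5 P6)))) := by
    exact_mod_cast key
  refine key'.trans ?_
  linarith

end StepD

open FiveCount StepD

theorem stepD_proof (hA : Stmt_StepA) : Stmt_StepD := by
  intro K ε ε₀ c₁ c₂ c₄ c₅ C₆ δ c₇ c₈ c₉ hε hε₀ h1 h2 h4 h5 h6 hδ h7 h8 h9
  refine ⟨(4 * C₆ + 4) / c₁, by positivity, fun η hη => ?_⟩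
  obtain ⟨n₁, e1⟩ := ev_sm (K := K) h4 h5 hη
  obtain ⟨n₂, e2⟩ := ev_log_lam (ε₀ := ε₀) hε (η := η / 2) (by linarith)
  obtain ⟨n₃, e3⟩ := ev_pow_small h9 hη
  refine ⟨max 1 (max n₁ (max n₂ n₃)), fun n hn d hd G H σ ctx => ?_⟩
  have hn1 : 1 ≤ n := by omega
  have hn' : (0 : ℝ) < n := by exact_mod_cast hn1
  have a1 := e1 n (by omega) d
  have a2 := e2 n (by omega) d hd
  have a3 := e3 n (by omega)
  have hl : 0 < lam n d := lt_of_lt_of_le (Real.rpow_pos_of_pos hn' _) (lam_ge hn1 hd)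
  have hT := total hA h6 ctx hη.le
  have hL := mul_le_N5 (P := fun v w p q c => C5 H v w p q c ∧ Ch H σ v w ∧ (Fd H σ v : ℝ) ≤ η * d ∧
      (Fd H σ w : ℝ) ≤ η * d) (R := fun v w => Ch H σ v w ∧ (Fd H σ v : ℝ) ≤ η * d ∧ (Fd H σ w : ℝ) ≤ η * d)
      (L := c₁ * lam n d) (fun v w h => by
        refine ((ctx.part.T3' ctx.t3) v w h.1.1).1.trans ?_
        refine Nat.cast_le.2 (card_le_card fun t ht => ?_)
        simp only [mem_filter, mem_univ, true_and] at ht ⊢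
        exact ⟨ht, h⟩)
  have hM : (0 : ℝ) ≤ Mch H σ := by positivity
  have hle : sm K c₄ c₅ n d + 2 * (C₆ * (η * lam n d + 2 * Real.log n)) + 3 * ((n : ℝ) ^ (-c₉) * lam n d)
      ≤ (4 * C₆ + 4) * η * lam n d := by
    have x1 : C₆ * (η * lam n d + 2 * Real.log n) ≤ C₆ * (η * lam n d + 2 * (η / 2 * lam n d)) := by
      refine mul_le_mul_of_nonneg_left ?_ h6.le
      linarith
    have x2 : (n : ℝ) ^ (-c₉) * lam n d ≤ η * lam n d := mul_le_mul_of_nonneg_right a3 hl.le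
    nlinarith
  have hfin : ((univ.filter fun t : Fin n × Fin n => Ch H σ t.1 t.2 ∧
      (Fd H σ t.1 : ℝ) ≤ η * d ∧ (Fd H σ t.2 : ℝ) ≤ η * d).card : ℝ) * (c₁ * lam n d)
      ≤ (4 * C₆ + 4) * η * lam n d * Mch H σ := by
    refine le_trans ?_ (hL.trans (hT.trans (mul_le_mul_of_nonneg_right hle hM)))
    refine mul_le_mul_of_nonneg_right (Nat.cast_le.2 (card_le_card fun t ht => ?_)) (by positivity)
    simp only [mem_filter, mem_univ, true_and] at ht ⊢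
    exact ht
  have h10 : ((univ.filter fun t : Fin n × Fin n => Ch H σ t.1 t.2 ∧
      (Fd H σ t.1 : ℝ) ≤ η * d ∧ (Fd H σ t.2 : ℝ) ≤ η * d).card : ℝ) * c₁
      ≤ (4 * C₆ + 4) * η * Mch H σ := by
    refine le_of_mul_le_mul_right (a := lam n d) ?_ hl
    linarith
  rw [div_mul_eq_mul_div, div_mul_eq_mul_div, le_div_iff₀ h1]
  exact h10

end Pool.Agent.RRG
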