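import Pool.Agent.RRG.FiveCount

/-!
# STEPF (MP_d15a9b_pr, section 8, Steps E, F)
-/

open Finset Filter Topology
open scoped Classical

namespace Pool.Agent.RRG

namespace StepF

open FiveCount

variable {n : ℕ}

theorem N5_rot2 {P Q : Fin n → Fin n → Fin n → Fin n → Fin n → Prop}
    (h : ∀ v w p q c, P v w p q c → Q p q c v w) : N5 P ≤ N5 Q := by
  refine N5_le_of_map (fun t => (t.2.2.1, t.2.2.2.1, t.2.2.2.2, t.1, t.2.1)) ?_ ?_
  · rintro ⟨a, b, c, d, e⟩ ⟨a', b', c', d', e'⟩ h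
    simp only [Prod.mk.injEq] at h ⊢
    tauto
  · intro v w p q c hP
    exact h v w p q c hP

/-! ### the degree balance -/

/-- ordered pairs in `S × T` with a property -/
noncomputable def eN (R : Fin n → Fin n → Prop) (S T : Finset (Fin n)) : ℕ :=
  ((S ×ˢ T).filter fun t => R t.1 t.2).card

theorem eN_eq_sum (R : Fin n → Fin n → Prop) (S T : Finset (Fin n)) :
    eN R S T = ∑ x ∈ S, (T.filter fun y => R x y).card := by
  unfold eN
  simp only [card_filter, sum_product]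

theorem eN_add (R : Fin n → Fin n → Prop) (S T : Finset (Fin n)) :
    eN R S T + eN R S Tᶜ = ∑ x ∈ S, (univ.filter fun y => R x y).card := by
  rw [eN_eq_sum, eN_eq_sum, ← sum_add_distrib]
  refine sum_congr rfl fun x _ => ?_
  rw [← card_union_of_disjoint]
  · rw [← filter_union, union_compl]
  · exact disjoint_filter_filter (disjoint_compl_right)

theorem eN_symm {R : Fin n → Fin n → Prop} (hR : ∀ x y, R x y → R y x) (S T : Finset (Fin n)) :
    eN R S T = eN R T S := by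
  unfold eN
  refine card_bij (fun t _ => (t.2, t.1)) ?_ ?_ ?_
  · intro t ht
    simp only [mem_filter, mem_product] at ht ⊢
    exact ⟨⟨ht.1.2, ht.1.1⟩, hR _ _ ht.2⟩
  · intro a _ b _ h
    simp only [Prod.mk.injEq] at h
    exact Prod.ext h.2 h.1
  · intro t ht
    simp only [mem_filter, mem_product] at ht
    exact ⟨(t.2, t.1), by simp only [mem_filter, mem_product]; exact ⟨⟨ht.1.2, ht.1.1⟩, hR _ _ ht.2⟩, rfl⟩

/-- edges of `H` which are not edges of `G` -/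
def RN (H G : Gr n) (x y : Fin n) : Prop := H.Adj x y ∧ ¬ G.Adj x y

theorem RN_symm {H G : Gr n} (x y : Fin n) (h : RN H G x y) : RN H G y x :=
  ⟨h.1.symm, fun g => h.2 g.symm⟩

theorem card_filter_prod'' {α β : Type} [Fintype α] [Fintype β] (P : α × β → Prop) [DecidablePred P] :
    (univ.filter P).card = ∑ a, (univ.filter fun b => P (a, b)).card := by
  simp only [card_filter, Fintype.sum_prod_type]

theorem deg_balance {d : ℕ} {G H : Gr n} (hG : G ∈ Reg n d) (hH : H ∈ Reg n d) (x : Fin n) :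
    (univ.filter fun y => RN H G x y).card = (univ.filter fun y => RN G H x y).card := by
  have e1 : (univ.filter fun y => RN H G x y) = nb H x \ nb G x := by
    ext y; simp only [mem_filter, mem_univ, true_and, Finset.mem_sdiff, mem_nb]; rfl
  have e2 : (univ.filter fun y => RN G H x y) = nb G x \ nb H x := by
    ext y; simp only [mem_filter, mem_univ, true_and, Finset.mem_sdiff, mem_nb]; rfl
  rw [e1, e2]
  exact card_sdiff_comm (by rw [mem_Reg.1 hG x, mem_Reg.1 hH x])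

theorem balance {d : ℕ} {G H : Gr n} (hG : G ∈ Reg n d) (hH : H ∈ Reg n d) (B : Finset (Fin n)) :
    eN (RN H G) B B ≤ eN (RN H G) Bᶜ Bᶜ + eN (RN G H) B B := by
  have h1 := eN_add (RN H G) B B
  have h2 := eN_add (RN G H) B B
  have h3 := eN_add (RN H G) Bᶜ B
  have h4 := eN_add (RN G H) Bᶜ B
  have h5 := eN_symm (R := RN H G) RN_symm Bᶜ B
  have h6 := eN_symm (R := RN G H) RN_symm Bᶜ B
  have h7 : ∑ x ∈ B, (univ.filter fun y => RN H G x y).card =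
      ∑ x ∈ B, (univ.filter fun y => RN G H x y).card :=
    sum_congr rfl fun x _ => deg_balance hG hH x
  have h8 : ∑ x ∈ Bᶜ, (univ.filter fun y => RN H G x y).card =
      ∑ x ∈ Bᶜ, (univ.filter fun y => RN G H x y).card :=
    sum_congr rfl fun x _ => deg_balance hG hH x
  omega

/-- edges of `H` inside `B` -/
theorem eH_le {d : ℕ} {G H : Gr n} (hG : G ∈ Reg n d) (hH : H ∈ Reg n d) (B : Finset (Fin n)) :
    eN H.Adj B B ≤ 2 * eN G.Adj B B + eN (RN H G) Bᶜ Bᶜ := by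
  have h1 := balance hG hH B
  have h2 : eN H.Adj B B ≤ eN G.Adj B B + eN (RN H G) B B := by
    unfold eN
    refine (card_le_card fun t ht => ?_).trans (card_union_le _ _)
    simp only [mem_filter, mem_union, mem_product] at ht ⊢
    by_cases hg : G.Adj t.1 t.2
    · exact Or.inl ⟨ht.1, hg⟩
    · exact Or.inr ⟨ht.1, ht.2, hg⟩
  have h3 : eN (RN G H) B B ≤ eN G.Adj B B := by
    unfold eN
    refine card_le_card fun t ht => ?_
    simp only [mem_filter] at ht ⊢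
    exact ⟨ht.1, ht.2.1⟩
  omega

variable {K : ℕ} {c₁ c₂ c₄ c₅ C₆ δ c₇ c₈ c₉ : ℝ} {d : ℕ} {G H : Gr n} {σ : Fin n → Equiv.Perm (Fin n)}

/-- vertices with more than `η d` changed edges -/
noncomputable def Hv (η : ℝ) (d : ℕ) (H : Gr n) (σ : Fin n → Equiv.Perm (Fin n)) : Finset (Fin n) :=
  univ.filter fun x => η * d < Fd H σ x

theorem mem_Hv {η : ℝ} {x : Fin n} : x ∈ Hv η d H σ ↔ η * d < Fd H σ x := by simp [Hv]

theorem not_mem_Hv {η : ℝ} {x : Fin n} : x ∉ Hv η d H σ ↔ (Fd H σ x : ℝ) ≤ η * d := by simp [Hv]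

theorem Fd_le (hH : H ∈ Reg n d) (x : Fin n) : Fd H σ x ≤ d := by
  rw [← mem_Reg.1 hH x]
  exact card_le_card (F_sub x)

/-- Step E, first part: `M ≤ 4 d |B₁|` -/
theorem M_le {C₂ η : ℝ} (hη : C₂ * η ≤ 1 / 4) (hH : H ∈ Reg n d)
    (hD : ((univ.filter fun t : Fin n × Fin n => Ch H σ t.1 t.2 ∧
            (Fd H σ t.1 : ℝ) ≤ η * d ∧ (Fd H σ t.2 : ℝ) ≤ η * d).card : ℝ) ≤ C₂ * η * Mch H σ) :
    (Mch H σ : ℝ) ≤ 4 * (d * (Hv η d H σ).card) := by
  have h1 : Mch H σ ≤ (univ.filter fun t : Fin n × Fin n => Ch H σ t.1 t.2 ∧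
            (Fd H σ t.1 : ℝ) ≤ η * d ∧ (Fd H σ t.2 : ℝ) ≤ η * d).card +
        ((univ.filter fun t : Fin n × Fin n => Ch H σ t.1 t.2 ∧ t.1 ∈ Hv η d H σ).card +
         (univ.filter fun t : Fin n × Fin n => Ch H σ t.1 t.2 ∧ t.2 ∈ Hv η d H σ).card) := by
    unfold Mch
    refine (card_le_card fun t ht => ?_).trans
      ((card_union_le _ _).trans (Nat.add_le_add_left (card_union_le _ _) _))
    simp only [mem_filter, mem_univ, true_and, mem_union] at ht ⊢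
    by_cases a : t.1 ∈ Hv η d H σ
    · exact Or.inr (Or.inl ⟨ht, a⟩)
    by_cases b : t.2 ∈ Hv η d H σ
    · exact Or.inr (Or.inr ⟨ht, b⟩)
    exact Or.inl ⟨ht, not_mem_Hv.1 a, not_mem_Hv.1 b⟩
  have h2 : (univ.filter fun t : Fin n × Fin n => Ch H σ t.1 t.2 ∧ t.1 ∈ Hv η d H σ).card ≤
      d * (Hv η d H σ).card := by
    rw [card_filter_prod'']
    have : ∑ a : Fin n, (univ.filter fun b : Fin n => Ch H σ (a, b).1 (a, b).2 ∧ (a, b).1 ∈ Hv η d H σ).card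
        ≤ ∑ a : Fin n, if a ∈ Hv η d H σ then d else 0 := by
      refine sum_le_sum fun a _ => ?_
      split_ifs with ha
      · refine le_trans (card_le_card fun y hy => ?_) (Fd_le (σ := σ) hH a)
        simp only [mem_filter, mem_univ, true_and] at hy ⊢
        exact hy.1
      · rw [Nat.le_zero, card_eq_zero, filter_eq_empty_iff]
        intro y _ hy
        exact ha hy.2
    refine this.trans ?_
    rw [sum_ite_mem, univ_inter, sum_const, smul_eq_mul, mul_comm]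
  have h3 : (univ.filter fun t : Fin n × Fin n => Ch H σ t.1 t.2 ∧ t.2 ∈ Hv η d H σ).card ≤
      (univ.filter fun t : Fin n × Fin n => Ch H σ t.1 t.2 ∧ t.1 ∈ Hv η d H σ).card := by
    refine card_le_card_of_injOn (fun t => (t.2, t.1)) ?_ ?_
    · intro t ht
      simp only [coe_filter, mem_univ, true_and, Set.mem_ofPred_eq] at ht ⊢
      exact ⟨ht.1.symm, ht.2⟩
    · rintro ⟨a, b⟩ _ ⟨a', b'⟩ _ h
      simp only [Prod.mk.injEq] at h ⊢
      tauto
  have h4 : (Mch H σ : ℝ) ≤ C₂ * η * Mch H σ + (d * (Hv η d H σ).card + d * (Hv η d H σ).card) := by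
    refine le_trans ?_ (add_le_add_left hD _)
    have : Mch H σ ≤ (univ.filter fun t : Fin n × Fin n => Ch H σ t.1 t.2 ∧
            (Fd H σ t.1 : ℝ) ≤ η * d ∧ (Fd H σ t.2 : ℝ) ≤ η * d).card + (d * (Hv η d H σ).card +
            d * (Hv η d H σ).card) := by omega
    exact_mod_cast this
  have h5 : C₂ * η * (Mch H σ : ℝ) ≤ 1 / 4 * Mch H σ := mul_le_mul_of_nonneg_right hη (by positivity)
  have h6 : (0 : ℝ) ≤ d * (Hv η d H σ).card := by positivity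
  linarith

/-- `η d |B| ≤ M` -/
theorem Hv_card {η : ℝ} : η * (d * (Hv η d H σ).card) ≤ (Mch H σ : ℝ) := by
  rw [Mch_eq_sum]
  push_cast
  have h1 : ∑ x ∈ Hv η d H σ, (η * d) ≤ ∑ x ∈ Hv η d H σ, (Fd H σ x : ℝ) :=
    sum_le_sum fun x hx => (mem_Hv.1 hx).le
  have h2 : ∑ x ∈ Hv η d H σ, (Fd H σ x : ℝ) ≤ ∑ x, (Fd H σ x : ℝ) :=
    sum_le_sum_of_subset_of_nonneg (subset_univ _) fun x _ _ => by positivity
  rw [sum_const, nsmul_eq_mul] at h1
  refine le_trans (le_of_eq ?_) (h1.trans h2)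
  ring

/-- double counting of the edges between `B` and everything -/
theorem sum_nb_inter (hH : H ∈ Reg n d) (B : Finset (Fin n)) :
    ∑ x : Fin n, (B.filter fun b => H.Adj x b).card = d * B.card := by
  simp only [card_filter]
  rw [sum_comm]
  have : ∀ b ∈ B, ∑ x : Fin n, (if H.Adj x b then 1 else 0) = d := by
    intro b _
    rw [← card_filter, ← mem_Reg.1 hH b]
    congr 1
    ext x
    simp only [mem_filter, mem_univ, true_and, mem_nb]
    exact H.adj_comm x b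
  rw [sum_congr rfl this, sum_const, smul_eq_mul, mul_comm]

/-- case `xy` changed, `x` light -/
theorem q1_bound (hC : 0 < C₆) {η : ℝ} (hη : 0 ≤ η) (B : Finset (Fin n))
    (ctx : Ctx K c₁ c₂ c₄ c₅ C₆ δ c₇ c₈ c₉ n d G H σ) :
    (N5 (fun b x y y' x' => C5 H b x y y' x' ∧ b ∈ B ∧ Ch H σ x y ∧ (Fd H σ x : ℝ) ≤ η * d) : ℝ)
      ≤ C₆ * (η * lam n d * (d * B.card) + (Mch H σ + d * B.card) * Real.log n) := by
  have hH := ctx.part.reg ctx.reg
  set X : Finset (Fin n) := univ.filter fun x => (Fd H σ x : ℝ) ≤ η * d with hX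
  have h0 : N5 (fun b x y y' x' => C5 H b x y y' x' ∧ b ∈ B ∧ Ch H σ x y ∧ (Fd H σ x : ℝ) ≤ η * d) ≤
      N5 (fun x y y' x' b => C5 H x y y' x' b ∧ b ∈ B ∧ Ch H σ x y ∧ (Fd H σ x : ℝ) ≤ η * d) :=
    N5_rot fun v w p q c h => ⟨C5_rot h.1, h.2⟩
  have h1 : N5 (fun x y y' x' b => C5 H x y y' x' b ∧ b ∈ B ∧ Ch H σ x y ∧ (Fd H σ x : ℝ) ≤ η * d)
      ≤ ∑ x ∈ X, nP3 H x (F H σ x) (B.filter fun b => H.Adj x b) := by
    refine N5_le_nP3 fun x a b c e h => ⟨h.1, ?_, ?_, ?_⟩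
    · simp only [hX, mem_filter, mem_univ, true_and]; exact h.2.2.2
    · simp only [F, mem_filter, mem_univ, true_and]; exact h.2.2.1
    · simp only [mem_filter]; exact ⟨h.2.1, h.1.2.2.2.2.1.symm⟩
  have hlam : 0 ≤ lam n d := by unfold lam; positivity
  have hlog : 0 ≤ Real.log n := Real.log_natCast_nonneg n
  have h2 : (∑ x ∈ X, (nP3 H x (F H σ x) (B.filter fun b => H.Adj x b) : ℝ)) ≤
      ∑ x ∈ X, (C₆ * (η * lam n d) * ((B.filter fun b => H.Adj x b).card : ℝ) +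
        C₆ * Real.log n * (Fd H σ x + (B.filter fun b => H.Adj x b).card)) := by
    refine sum_le_sum fun x hx => ?_
    simp only [hX, mem_filter, mem_univ, true_and] at hx
    have hsub : (B.filter fun b => H.Adj x b) ⊆ nb H x := by
      intro y hy
      simp only [mem_filter] at hy
      exact mem_nb.2 hy.2
    refine (t6_nP3 ctx x (F_sub x) hsub).trans ?_
    rw [card_F]
    have hg : gam n d * (Fd H σ x : ℝ) ≤ gam n d * (η * d) :=
      mul_le_mul_of_nonneg_left hx (by unfold gam; positivity)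
    have hg2 : gam n d * (Fd H σ x : ℝ) ≤ η * lam n d := by
      rw [← gam_mul]; linarith [hg, mul_comm (gam n d) (η * d), mul_assoc η (gam n d) d]
    have hg3 := mul_le_mul_of_nonneg_right hg2
      (by positivity : (0 : ℝ) ≤ ((B.filter fun b => H.Adj x b).card : ℝ))
    have : C₆ * (η * lam n d) * ((B.filter fun b => H.Adj x b).card : ℝ) +
        C₆ * Real.log n * (Fd H σ x + (B.filter fun b => H.Adj x b).card) =
        C₆ * (η * lam n d * ((B.filter fun b => H.Adj x b).card : ℝ) +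
          (Fd H σ x + (B.filter fun b => H.Adj x b).card) * Real.log n) := by ring
    rw [this]
    refine mul_le_mul_of_nonneg_left ?_ hC.le
    linarith
  have h3 : ∑ x ∈ X, (C₆ * (η * lam n d) * ((B.filter fun b => H.Adj x b).card : ℝ) +
        C₆ * Real.log n * (Fd H σ x + (B.filter fun b => H.Adj x b).card))
      ≤ ∑ x, (C₆ * (η * lam n d) * ((B.filter fun b => H.Adj x b).card : ℝ) +
        C₆ * Real.log n * (Fd H σ x + (B.filter fun b => H.Adj x b).card)) :=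
    sum_le_sum_of_subset_of_nonneg (subset_univ _) fun x _ _ => by positivity
  have h4 : ∑ x, ((B.filter fun b => H.Adj x b).card : ℝ) = d * B.card := by
    exact_mod_cast sum_nb_inter hH B
  have h5 : ∑ x, (C₆ * (η * lam n d) * ((B.filter fun b => H.Adj x b).card : ℝ) +
        C₆ * Real.log n * (Fd H σ x + (B.filter fun b => H.Adj x b).card)) =
      C₆ * (η * lam n d) * (d * B.card) + C₆ * Real.log n * (Mch H σ + d * B.card) := by
    rw [sum_add_distrib, ← mul_sum, ← mul_sum, sum_add_distrib, h4, Mch_eq_sum]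
    push_cast
    ring
  have h01 : (N5 (fun b x y y' x' => C5 H b x y y' x' ∧ b ∈ B ∧ Ch H σ x y ∧ (Fd H σ x : ℝ) ≤ η * d) : ℝ) ≤
      ∑ x ∈ X, (nP3 H x (F H σ x) (B.filter fun b => H.Adj x b) : ℝ) := by
    exact_mod_cast h0.trans h1
  refine h01.trans (h2.trans (h3.trans (le_of_eq ?_)))
  rw [h5]; ring

/-- case `x` heavy -/
theorem q2_bound (B : Finset (Fin n)) (ctx : Ctx K c₁ c₂ c₄ c₅ C₆ δ c₇ c₈ c₉ n d G H σ) :
    (N5 (fun b x y y' x' => C5 H b x y y' x' ∧ b ∈ B ∧ x ∈ B) : ℝ) ≤ eN H.Adj B B * (c₂ * lam n d) := by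
  refine (N5_le_mul (R := fun v w => H.Adj v w ∧ v ∈ B ∧ w ∈ B) (L := c₂ * lam n d)
    (fun v w p q c h => ⟨h.1.1, h.2⟩) fun v w h => ?_).trans ?_
  · refine le_trans ?_ ((ctx.part.T3' ctx.t3) v w h.1).2
    refine Nat.cast_le.2 (card_le_card fun t ht => ?_)
    simp only [mem_filter, mem_univ, true_and] at ht ⊢
    exact ht.1
  · by_cases h0 : 0 ≤ c₂ * lam n d
    · refine mul_le_mul_of_nonneg_right (Nat.cast_le.2 (card_le_card fun t ht => ?_)) h0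
      simp only [mem_filter, mem_univ, true_and, mem_product] at ht ⊢
      exact ⟨ht.2, ht.1⟩
    · refine mul_le_mul_of_nonpos_right (Nat.cast_le.2 (card_le_card fun t ht => ?_)) (not_le.1 h0).le
      simp only [mem_filter, mem_univ, true_and, mem_product] at ht ⊢
      exact ⟨ht.2, ht.1⟩

/-- the sum of `Bad5` over `B` -/
theorem bad_eq (B : Finset (Fin n)) :
    ∑ b ∈ B, Bad5 H σ b = N5 (fun b x y y' x' => C5 H b x y y' x' ∧ b ∈ B ∧
      (Ch H σ x y ∨ Ch H σ y y' ∨ Ch H σ y' x')) := by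
  rw [N5_eq_sum1, ← sum_subset (subset_univ B)]
  · refine sum_congr rfl fun b hb => ?_
    unfold Bad5
    refine le_antisymm (card_le_card fun t ht => ?_) (card_le_card fun t ht => ?_)
    · simp only [mem_filter, mem_univ, true_and] at ht ⊢
      exact ⟨ht.1, hb, ht.2⟩
    · simp only [mem_filter, mem_univ, true_and] at ht ⊢
      exact ⟨ht.1, ht.2.2⟩
  · intro b _ hb
    refine card_eq_zero.2 (eq_empty_of_forall_notMem fun t ht => ?_)
    simp only [mem_filter, mem_univ, true_and] at ht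
    exact hb ht.2.1

/-- Step F, summed -/
theorem total (hA : Stmt_StepA) (hC : 0 < C₆) {η : ℝ} (hη : 0 ≤ η) {B : Finset (Fin n)}
    (hB : B ⊆ Hv η d H σ) (ctx : Ctx K c₁ c₂ c₄ c₅ C₆ δ c₇ c₈ c₉ n d G H σ) :
    ((∑ b ∈ B, Bad5 H σ b : ℕ) : ℝ) ≤
      2 * (C₆ * (η * lam n d * (d * B.card) + (Mch H σ + d * B.card) * Real.log n)) +
      2 * (eN H.Adj (Hv η d H σ) (Hv η d H σ) * (c₂ * lam n d)) + Mch H σ * sm K c₄ c₅ n d +
      3 * ((n : ℝ) ^ (-c₉) * lam n d * Mch H σ) := by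
  rw [bad_eq]
  set Q1 : Fin n → Fin n → Fin n → Fin n → Fin n → Prop := fun b x y y' x' => C5 H b x y y' x' ∧ b ∈ B ∧
    Ch H σ x y ∧ (Fd H σ x : ℝ) ≤ η * d with hQ1
  set Q1' : Fin n → Fin n → Fin n → Fin n → Fin n → Prop := fun b x y y' x' => C5 H b x y y' x' ∧ b ∈ B ∧
    Ch H σ x' y' ∧ (Fd H σ x' : ℝ) ≤ η * d with hQ1'
  set Q2 : Fin n → Fin n → Fin n → Fin n → Fin n → Prop := fun b x y y' x' => C5 H b x y y' x' ∧
    b ∈ Hv η d H σ ∧ x ∈ Hv η d H σ with hQ2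
  set Q2' : Fin n → Fin n → Fin n → Fin n → Fin n → Prop := fun b x y y' x' => C5 H b x y y' x' ∧
    b ∈ Hv η d H σ ∧ x' ∈ Hv η d H σ with hQ2'
  set R0 : Fin n → Fin n → Fin n → Fin n → Fin n → Prop := fun b x y y' x' => C5 H b x y y' x' ∧
    Ch H σ y y' ∧ ¬ Ch H σ y' x' ∧ ¬ Ch H σ x' b ∧ ¬ Ch H σ b x ∧ ¬ Ch H σ x y with hR0
  set R1 : Fin n → Fin n → Fin n → Fin n → Fin n → Prop := fun b x y y' x' => C5 H b x y y' x' ∧
    Ch H σ b x ∧ Ch H σ y y' ∧ ¬ Ch H σ x y ∧ ¬ Ch H σ y' x' ∧ ¬ Ch H σ x' b with hR1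
  set R1' : Fin n → Fin n → Fin n → Fin n → Fin n → Prop := fun b x y y' x' => C5 H b x y y' x' ∧
    Ch H σ x' b ∧ Ch H σ y y' ∧ ¬ Ch H σ x y ∧ ¬ Ch H σ y' x' ∧ ¬ Ch H σ b x with hR1'
  set R2 : Fin n → Fin n → Fin n → Fin n → Fin n → Prop := fun b x y y' x' => C5 H b x y y' x' ∧
    Ch H σ b x ∧ Ch H σ x' b ∧ Ch H σ y y' ∧ ¬ Ch H σ x y ∧ ¬ Ch H σ y' x' with hR2
  have b1 : (N5 Q1 : ℝ) ≤ C₆ * (η * lam n d * (d * B.card) + (Mch H σ + d * B.card) * Real.log n) :=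
    q1_bound hC hη B ctx
  have b1' : (N5 Q1' : ℝ) ≤ C₆ * (η * lam n d * (d * B.card) + (Mch H σ + d * B.card) * Real.log n) := by
    refine le_trans (Nat.cast_le.2 (N5_refl fun v w p q c h => ?_)) b1
    exact ⟨C5_refl h.1, h.2⟩
  have b2 : (N5 Q2 : ℝ) ≤ eN H.Adj (Hv η d H σ) (Hv η d H σ) * (c₂ * lam n d) := q2_bound _ ctx
  have b2' : (N5 Q2' : ℝ) ≤ eN H.Adj (Hv η d H σ) (Hv η d H σ) * (c₂ * lam n d) := by
    refine le_trans (Nat.cast_le.2 (N5_refl fun v w p q c h => ?_)) b2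
    exact ⟨C5_refl h.1, h.2⟩
  have b3 : (N5 R0 : ℝ) ≤ Mch H σ * sm K c₄ c₅ n d := by
    refine le_trans (Nat.cast_le.2 (N5_rot2 fun v w p q c h => ?_)) (one_changed hA ctx)
    obtain ⟨h0, h1, h2, h3, h4, h5⟩ := h
    exact ⟨C5_rot (C5_rot h0), h1, h2, h3, h4, h5⟩
  have b4 : (N5 R1 : ℝ) ≤ (n : ℝ) ^ (-c₉) * lam n d * Mch H σ := two_changed ctx
  have b5 : (N5 R1' : ℝ) ≤ (n : ℝ) ^ (-c₉) * lam n d * Mch H σ := by
    refine le_trans (Nat.cast_le.2 (N5_refl fun v w p q c h => ?_)) b4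
    obtain ⟨h0, h1, h2, h3, h4, h5⟩ := h
    exact ⟨C5_refl h0, h1.symm, h2.symm, fun h => h4 h.symm, fun h => h3 h.symm, fun h => h5 h.symm⟩
  have b6 : (N5 R2 : ℝ) ≤ (n : ℝ) ^ (-c₉) * lam n d * Mch H σ := three_changed ctx
  have key : N5 (fun b x y y' x' => C5 H b x y y' x' ∧ b ∈ B ∧ (Ch H σ x y ∨ Ch H σ y y' ∨ Ch H σ y' x'))
      ≤ N5 Q1 + (N5 Q1' + (N5 Q2 + (N5 Q2' + (N5 R0 + (N5 R1 + (N5 R1' + N5 R2)))))) := by
    refine le_trans (N5_mono (Q := fun v w p q c => Q1 v w p q c ∨ (Q1' v w p q c ∨ (Q2 v w p q c ∨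
      (Q2' v w p q c ∨ (R0 v w p q c ∨ (R1 v w p q c ∨ (R1' v w p q c ∨ R2 v w p q c))))))) ?_) ?_
    · rintro b x y y' x' ⟨h0, h1, h2⟩
      simp only [hQ1, hQ1', hQ2, hQ2', hR0, hR1, hR1', hR2]
      have hbv := hB h1
      by_cases hx : x ∈ Hv η d H σ
      · exact Or.inr (Or.inr (Or.inl ⟨h0, hbv, hx⟩))
      by_cases hx' : x' ∈ Hv η d H σ
      · exact Or.inr (Or.inr (Or.inr (Or.inl ⟨h0, hbv, hx'⟩)))
      by_cases e1 : Ch H σ x y
      · exact Or.inl ⟨h0, h1, e1, not_mem_Hv.1 hx⟩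
      by_cases e2 : Ch H σ y' x'
      · exact Or.inr (Or.inl ⟨h0, h1, e2.symm, not_mem_Hv.1 hx'⟩)
      have e3 : Ch H σ y y' := by tauto
      by_cases f1 : Ch H σ b x
      · by_cases f2 : Ch H σ x' b
        · exact Or.inr (Or.inr (Or.inr (Or.inr (Or.inr (Or.inr (Or.inr ⟨h0, f1, f2, e3, e1, e2⟩))))))
        · exact Or.inr (Or.inr (Or.inr (Or.inr (Or.inr (Or.inl ⟨h0, f1, e3, e1, e2, f2⟩)))))
      · by_cases f2 : Ch H σ x' b
        · exact Or.inr (Or.inr (Or.inr (Or.inr (Or.inr (Or.inr (Or.inl ⟨h0, f2, e3, e1, e2, f1⟩))))))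
        · exact Or.inr (Or.inr (Or.inr (Or.inr (Or.inl ⟨h0, e3, e2, f2, f1, e1⟩))))
    · refine (N5_or _ _).trans (Nat.add_le_add_left ?_ _)
      refine (N5_or _ _).trans (Nat.add_le_add_left ?_ _)
      refine (N5_or _ _).trans (Nat.add_le_add_left ?_ _)
      refine (N5_or _ _).trans (Nat.add_le_add_left ?_ _)
      refine (N5_or _ _).trans (Nat.add_le_add_left ?_ _)
      refine (N5_or _ _).trans (Nat.add_le_add_left ?_ _)
      exact N5_or _ _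
  have key' : (N5 (fun b x y y' x' => C5 H b x y y' x' ∧ b ∈ B ∧
      (Ch H σ x y ∨ Ch H σ y y' ∨ Ch H σ y' x')) : ℝ)
      ≤ N5 Q1 + (N5 Q1' + (N5 Q2 + (N5 Q2' + (N5 R0 + (N5 R1 + (N5 R1' + N5 R2)))))) := by
    exact_mod_cast key
  refine key'.trans ?_
  linarith

end StepF

open FiveCount StepF

theorem stepF_proof (hA : Stmt_StepA) (hD : Stmt_StepD) : Stmt_StepF := by
  intro K ε ε₀ c₁ c₂ c₄ c₅ C₆ δ c₇ c₈ c₉ hε hε₀ h1 h2 h4 h5 h6 hδ h7 h8 h9
  obtain ⟨C₂, hC₂, HD⟩ := hD K ε ε₀ c₁ c₂ c₄ c₅ C₆ δ c₇ c₈ c₉ hε hε₀ h1 h2 h4 h5 h6 hδ h7 h8 h9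
  set η₁ : ℝ := 1 / (4 * C₂) with hη₁
  have hη₁p : 0 < η₁ := by positivity
  have hCη : C₂ * η₁ ≤ 1 / 4 := by
    rw [hη₁]; field_simp; norm_num
  refine ⟨η₁, 12 * C₆ + 8 * (2 + C₂) * c₂ + 16, hη₁p, by positivity, fun η₂ hη₂ hle => ?_⟩
  obtain ⟨m₁, E1⟩ := HD η₁ hη₁p
  obtain ⟨m₂, E2⟩ := HD η₂ hη₂
  obtain ⟨m₃, E3⟩ := ev_sm (K := K) h4 h5 hη₂
  obtain ⟨m₄, E4⟩ := ev_log_lam (ε₀ := ε₀) hε hη₂
  obtain ⟨m₅, E5⟩ := ev_pow_small h9 hη₂
  obtain ⟨m₆, E6⟩ := ev_pow_small h7 (η := η₂ * η₂) (by positivity)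
  obtain ⟨m₇, E7⟩ := ev_pow_small hδ hη₂
  refine ⟨max 1 (max m₁ (max m₂ (max m₃ (max m₄ (max m₅ (max m₆ m₇)))))), fun n hn d hd G H σ ctx hM0 => ?_⟩
  have hn1 : 1 ≤ n := by omega
  have hn' : (0 : ℝ) < n := by exact_mod_cast hn1
  have a1 := E1 n (by omega) d hd G H σ ctx
  have a2 := E2 n (by omega) d hd G H σ ctx
  have a3 := E3 n (by omega) d
  have a4 := E4 n (by omega) d hd
  have a5 := E5 n (by omega)
  have a6 := E6 n (by omega)
  have a7 := E7 n (by omega)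
  have hl : 0 < lam n d := lt_of_lt_of_le (Real.rpow_pos_of_pos hn' _) (lam_ge hn1 hd)
  have hd0 : (0 : ℝ) < d := lt_of_lt_of_le (Real.rpow_pos_of_pos hn' _) hd.1
  have hH := ctx.part.reg ctx.reg
  set B₁ := Hv η₁ d H σ with hB₁
  set B₂ := Hv η₂ d H σ with hB₂
  have hB12 : B₁ ⊆ B₂ := by
    intro x hx
    rw [hB₁, mem_Hv] at hx
    rw [hB₂, mem_Hv]
    exact lt_of_le_of_lt (mul_le_mul_of_nonneg_right hle hd0.le) hx
  have hMB : (Mch H σ : ℝ) ≤ 4 * (d * B₁.card) := M_le hCη hH a1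
  have hMpos : (0 : ℝ) < Mch H σ := by exact_mod_cast hM0
  have hne : B₁.Nonempty := by
    rw [nonempty_iff_ne_empty]
    intro h
    rw [h, card_empty] at hMB
    push_cast at hMB
    linarith
  -- the size of `B₂`
  have hB2M : η₂ * (d * B₂.card) ≤ (Mch H σ : ℝ) := Hv_card
  have hB2size : (B₂.card : ℝ) ≤ (n : ℝ) ^ (1 - 2 * δ) := by
    have x1 : η₂ * (d * (B₂.card : ℝ)) ≤ (n : ℝ) ^ (1 - 3 * δ) * d := hB2M.trans ctx.ph1
    have x2 : η₂ * (B₂.card : ℝ) ≤ (n : ℝ) ^ (1 - 3 * δ) := by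
      refine le_of_mul_le_mul_right (a := (d : ℝ)) ?_ hd0
      linarith
    have x3 : (n : ℝ) ^ (1 - 3 * δ) = (n : ℝ) ^ (1 - 2 * δ) * (n : ℝ) ^ (-δ) := by
      rw [← Real.rpow_add hn']; congr 1; ring
    have x4 : (n : ℝ) ^ (1 - 3 * δ) ≤ (n : ℝ) ^ (1 - 2 * δ) * η₂ := by
      rw [x3]; exact mul_le_mul_of_nonneg_left a7 (by positivity)
    refine le_of_mul_le_mul_left (a := η₂) ?_ hη₂
    linarith
  have hT7 := ctx.t7 B₂ hB2size
  have hG2 : (eN G.Adj B₂ B₂ : ℝ) ≤ η₂ * Mch H σ := by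
    have y1 : (eN G.Adj B₂ B₂ : ℝ) ≤ (n : ℝ) ^ (-c₇) * d * B₂.card := by
      refine le_trans (Nat.cast_le.2 (card_le_card fun t ht => ?_)) hT7
      simp only [mem_filter] at ht ⊢
      exact ht
    have y2 : (n : ℝ) ^ (-c₇) * d * B₂.card ≤ η₂ * η₂ * (d * B₂.card) := by
      rw [mul_assoc]
      exact mul_le_mul_of_nonneg_right a6 (by positivity)
    have y3 : η₂ * (η₂ * (d * (B₂.card : ℝ))) ≤ η₂ * Mch H σ := mul_le_mul_of_nonneg_left hB2M hη₂.le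
    linarith
  have hNout : (eN (RN H G) B₂ᶜ B₂ᶜ : ℝ) ≤ C₂ * η₂ * Mch H σ := by
    refine le_trans (Nat.cast_le.2 (card_le_card fun t ht => ?_)) a2
    simp only [mem_filter, mem_product, mem_compl, mem_univ, true_and] at ht ⊢
    exact ⟨Ch_of_not_adj ctx.part ht.2.1 ht.2.2, not_mem_Hv.1 ht.1.1, not_mem_Hv.1 ht.1.2⟩
  have hEH : (eN H.Adj B₂ B₂ : ℝ) ≤ (2 + C₂) * η₂ * Mch H σ := by
    have z : (eN H.Adj B₂ B₂ : ℝ) ≤ 2 * eN G.Adj B₂ B₂ + eN (RN H G) B₂ᶜ B₂ᶜ := by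
      exact_mod_cast eH_le ctx.reg hH B₂
    linarith
  have hT := total hA h6 hη₂.le hB12 ctx
  set D : ℝ := d * B₁.card with hDdef
  have hD0 : 0 ≤ D := by positivity
  have s1 : C₆ * (η₂ * lam n d * D + (Mch H σ + D) * Real.log n) ≤ C₆ * (6 * (η₂ * lam n d * D)) := by
    refine mul_le_mul_of_nonneg_left ?_ h6.le
    have t1 : (Mch H σ + D) * Real.log n ≤ (5 * D) * (η₂ * lam n d) := by
      refine mul_le_mul (by linarith) a4 (Real.log_natCast_nonneg n) (by positivity)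
    linarith
  have s2 : eN H.Adj B₂ B₂ * (c₂ * lam n d) ≤ 4 * (2 + C₂) * c₂ * (η₂ * lam n d * D) := by
    have t2 : (eN H.Adj B₂ B₂ : ℝ) ≤ (2 + C₂) * η₂ * (4 * D) :=
      hEH.trans (mul_le_mul_of_nonneg_left hMB (by positivity))
    refine (mul_le_mul_of_nonneg_right t2 (by positivity)).trans (le_of_eq ?_)
    ring
  have s3 : Mch H σ * sm K c₄ c₅ n d ≤ 4 * (η₂ * lam n d * D) := by
    have t3 : Mch H σ * sm K c₄ c₅ n d ≤ Mch H σ * (η₂ * lam n d) := mul_le_mul_of_nonneg_left a3 hMpos.le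
    refine t3.trans ((mul_le_mul_of_nonneg_right hMB (by positivity)).trans (le_of_eq ?_))
    ring
  have s4 : (n : ℝ) ^ (-c₉) * lam n d * Mch H σ ≤ 4 * (η₂ * lam n d * D) := by
    have t4 : (n : ℝ) ^ (-c₉) * lam n d * Mch H σ ≤ η₂ * lam n d * Mch H σ :=
      mul_le_mul_of_nonneg_right (mul_le_mul_of_nonneg_right a5 hl.le) hMpos.le
    refine t4.trans ((mul_le_mul_of_nonneg_left hMB (by positivity)).trans (le_of_eq ?_))
    ring
  have hfin : ∑ b ∈ B₁, (Bad5 H σ b : ℝ) ≤ ∑ b ∈ B₁, (12 * C₆ + 8 * (2 + C₂) * c₂ + 16) * η₂ * d * lam n d := by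
    rw [sum_const, nsmul_eq_mul]
    have : ∑ b ∈ B₁, (Bad5 H σ b : ℝ) = ((∑ b ∈ B₁, Bad5 H σ b : ℕ) : ℝ) := by push_cast; rfl
    rw [this]
    refine hT.trans ?_
    have hr : (B₁.card : ℝ) * ((12 * C₆ + 8 * (2 + C₂) * c₂ + 16) * η₂ * d * lam n d) =
        (12 * C₆ + 8 * (2 + C₂) * c₂ + 16) * (η₂ * lam n d * D) := by rw [hDdef]; ring
    rw [hr]
    linarith
  obtain ⟨b, hb, hbad⟩ := exists_le_of_sum_le hne hfin
  exact ⟨b, mem_Hv.1 hb, hbad⟩

end Pool.Agent.RRG
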