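import Pool.Agent.RRG.Basic

/-!
# Step G (MP_d15a9b_pr, section 8)
-/

open Finset Filter Topology
open scoped Classical

namespace Pool.Agent.RRG.StepG

variable {n : ℕ} {G H : Gr n} {σ : Fin n → Equiv.Perm (Fin n)}

theorem sum_fiber_le {α β γ : Type} [Fintype β] (U : Finset α) (P : α → β → Prop)
    [∀ u, DecidablePred (P u)] (T : Finset γ)
    (f : α → β → γ) (hmaps : ∀ u ∈ U, ∀ t, P u t → f u t ∈ T)
    (hinj : ∀ u ∈ U, ∀ u' ∈ U, ∀ t t', P u t → P u' t' → f u t = f u' t' → u = u' ∧ t = t') :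
    ∑ u ∈ U, (univ.filter fun t => P u t).card ≤ T.card := by
  rw [← card_sigma]
  refine card_le_card_of_injOn (fun s => f s.1 s.2) ?_ ?_
  · intro s hs
    simp only [coe_sigma, Set.mem_sigma_iff, mem_coe, mem_filter, mem_univ, true_and] at hs
    exact hmaps _ hs.1 _ hs.2
  · rintro ⟨u, t⟩ hs ⟨u', t'⟩ hs' he
    simp only [coe_sigma, Set.mem_sigma_iff, mem_coe, mem_filter, mem_univ, true_and] at hs hs'
    obtain ⟨h1, h2⟩ := hinj _ hs.1 _ hs'.1 _ _ hs.2 hs'.2 he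
    subst h1; subst h2; rfl

theorem C5.rev {b x y y' x' : Fin n} (h : C5 H b x y y' x') : C5 H b x' y' y x := by
  obtain ⟨a1, a2, a3, a4, a5, n1, n2, n3, n4, n5⟩ := h
  exact ⟨a5.symm, a4.symm, a3.symm, a2.symm, a1.symm, n2, n1, n5.symm, n4.symm, n3.symm⟩

/-- neighbours of `b` moved by `σ b` -/
noncomputable def mv (G : Gr n) (σ : Fin n → Equiv.Perm (Fin n)) (b : Fin n) : Finset (Fin n) :=
  univ.filter fun u => G.Adj b u ∧ σ b u ≠ u

/-- new neighbours of `b` -/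
noncomputable def nw (G H : Gr n) (b : Fin n) : Finset (Fin n) :=
  univ.filter fun x => H.Adj b x ∧ ¬ G.Adj b x

/-- common neighbours `x` of `b` with `b` moved by `(σ x)⁻¹` -/
noncomputable def cm (G H : Gr n) (σ : Fin n → Equiv.Perm (Fin n)) (b : Fin n) : Finset (Fin n) :=
  univ.filter fun x => H.Adj b x ∧ G.Adj b x ∧ (σ x).symm b ≠ b

/-- changed inner edge -/
def BI (H : Gr n) (σ : Fin n → Equiv.Perm (Fin n)) (x y y' x' : Fin n) : Prop :=
  Ch H σ x y ∨ Ch H σ y y' ∨ Ch H σ y' x'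

theorem nw_le_mv (h : IsPartner G H σ) (b : Fin n) : (nw G H b).card ≤ (mv G σ b).card := by
  refine card_le_card_of_injOn (fun x => (σ b).symm x) ?_ ?_
  · intro x hx
    simp only [nw, mv, coe_filter, mem_univ, true_and, Set.mem_ofPred_eq] at hx ⊢
    have h1 := (h.adj_root_symm b x).1 hx.1
    refine ⟨h1, ?_⟩
    simp only [Equiv.apply_symm_apply]
    intro e
    rw [← e] at h1
    exact hx.2 h1
  · intro a _ c _ e
    exact (σ b).symm.injective e

theorem Fd_le (h : IsPartner G H σ) (b : Fin n) :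
    Fd H σ b ≤ 2 * (mv G σ b).card + (cm G H σ b).card := by
  have h1 : (univ.filter fun y => Ch H σ b y) ⊆
      ((mv G σ b).map (σ b).toEmbedding) ∪ (nw G H b ∪ cm G H σ b) := by
    intro x hx
    have hx' : Ch H σ b x := (mem_filter.1 hx).2
    obtain ⟨h1, h2⟩ := hx'
    simp only [mem_filter, mem_univ, true_and, mem_union, mem_map_equiv, mv, nw, cm,
      Equiv.apply_symm_apply]
    have h3 := (h.adj_root_symm b x).1 h1
    rcases h2 with h2 | h2
    · left; exact ⟨h3, fun e => h2 e.symm⟩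
    · right
      by_cases hg : G.Adj b x
      · right; exact ⟨h1, hg, h2⟩
      · left; exact ⟨h1, hg⟩
  have h2 := card_le_card h1
  have h3 := card_union_le ((mv G σ b).map (σ b).toEmbedding) (nw G H b ∪ cm G H σ b)
  have h4 := card_union_le (nw G H b) (cm G H σ b)
  rw [card_map] at h3
  have h5 := nw_le_mv h b
  unfold Fd
  omega

/-- (G1) -/
theorem mv_bound {K : ℕ} {c₁ c₂ L : ℝ} {d : ℕ} (h : IsPartner G H σ) (h2 : T2 K G)
    (h3 : T3 c₁ c₂ n d G) (h8 : T8 L G) (b : Fin n) :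
    ((mv G σ b).card : ℝ) * (c₁ * lam n d) ≤ (mv G σ b).card * K + Bad5 H σ b + L := by
  have key : ∀ u ∈ mv G σ b, nC5 H b (σ b u) ≤ K +
      (univ.filter fun t : Fin n × Fin n × Fin n => C5 H b (σ b u) t.1 t.2.1 t.2.2 ∧
        BI H σ (σ b u) t.1 t.2.1 t.2.2).card +
      (univ.filter fun t : Fin n × Fin n × Fin n => C5 H b (σ b u) t.1 t.2.1 t.2.2 ∧
        P3 G (σ b u) t.1 t.2.1 t.2.2 ∧
        ¬ ((σ b u = u ∧ t.2.2 = (σ b).symm t.2.2) ∨ (σ b u = (σ b).symm t.2.2 ∧ t.2.2 = u))).card := by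
    intro u hu
    simp only [mv, mem_filter, mem_univ, true_and] at hu
    have hx : H.Adj b (σ b u) := (h.adj_root b u).1 hu.1
    have hsub : (univ.filter fun t : Fin n × Fin n × Fin n => C5 H b (σ b u) t.1 t.2.1 t.2.2) ⊆
        ((univ.filter fun t : Fin n × Fin n × Fin n => C5 H b (σ b u) t.1 t.2.1 t.2.2 ∧ t.2.2 = u) ∪
        (univ.filter fun t : Fin n × Fin n × Fin n => C5 H b (σ b u) t.1 t.2.1 t.2.2 ∧
        BI H σ (σ b u) t.1 t.2.1 t.2.2)) ∪
        (univ.filter fun t : Fin n × Fin n × Fin n => C5 H b (σ b u) t.1 t.2.1 t.2.2 ∧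
        P3 G (σ b u) t.1 t.2.1 t.2.2 ∧
        ¬ ((σ b u = u ∧ t.2.2 = (σ b).symm t.2.2) ∨ (σ b u = (σ b).symm t.2.2 ∧ t.2.2 = u))) := by
      intro t ht
      simp only [mem_filter, mem_univ, true_and, mem_union] at ht ⊢
      by_cases hc : t.2.2 = u
      · left; left; exact ⟨ht, hc⟩
      by_cases hb : BI H σ (σ b u) t.1 t.2.1 t.2.2
      · left; right; exact ⟨ht, hb⟩
      right
      refine ⟨ht, ?_, ?_⟩
      · unfold BI at hb
        push Not at hb
        obtain ⟨b1, b2, b3⟩ := hb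
        obtain ⟨a1, a2, a3, a4, a5, n1, n2, n3, n4, n5⟩ := ht
        exact ⟨(not_Ch h a2 b1).1, (not_Ch h a3 b2).1, (not_Ch h a4 b3).1, n3, n4, n5⟩
      · rintro (e | e)
        · exact hu.2 e.1
        · exact hc e.2
    have hK : (univ.filter fun t : Fin n × Fin n × Fin n => C5 H b (σ b u) t.1 t.2.1 t.2.2 ∧ t.2.2 = u).card
        ≤ K := by
      by_cases hub : H.Adj b u
      · refine le_trans ?_ (h.P3_card_le h2 hx hub hu.2)
        refine card_le_card_of_injOn (fun t => (t.1, t.2.1)) ?_ ?_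
        · intro t ht
          simp only [coe_filter, mem_univ, true_and, Set.mem_ofPred_eq] at ht ⊢
          obtain ⟨⟨a1, a2, a3, a4, a5, n1, n2, n3, n4, n5⟩, e⟩ := ht
          rw [e] at a4 n4 n5
          exact ⟨a2, a3, a4, n3, n4, n5⟩
        · intro a ha c hc e
          simp only [coe_filter, mem_univ, true_and, Set.mem_ofPred_eq] at ha hc
          simp only [Prod.mk.injEq] at e
          exact Prod.ext e.1 (Prod.ext e.2 (ha.2.trans hc.2.symm))
      · have : (univ.filter fun t : Fin n × Fin n × Fin n => C5 H b (σ b u) t.1 t.2.1 t.2.2 ∧ t.2.2 = u) = ∅ := by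
          rw [filter_eq_empty_iff]
          rintro t _ ⟨⟨a1, a2, a3, a4, a5, n1, n2, n3, n4, n5⟩, e⟩
          rw [e] at a5
          exact hub a5.symm
        rw [this]; simp
    unfold nC5
    refine (card_le_card hsub).trans ?_
    refine (card_union_le _ _).trans ?_
    have := card_union_le (univ.filter fun t : Fin n × Fin n × Fin n => C5 H b (σ b u) t.1 t.2.1 t.2.2 ∧ t.2.2 = u)
        (univ.filter fun t : Fin n × Fin n × Fin n => C5 H b (σ b u) t.1 t.2.1 t.2.2 ∧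
        BI H σ (σ b u) t.1 t.2.1 t.2.2)
    omega
  have s1 : ∑ u ∈ mv G σ b, (univ.filter fun t : Fin n × Fin n × Fin n => C5 H b (σ b u) t.1 t.2.1 t.2.2 ∧
        BI H σ (σ b u) t.1 t.2.1 t.2.2).card ≤ Bad5 H σ b := by
    unfold Bad5
    refine sum_fiber_le _ (fun (u : Fin n) (t : Fin n × Fin n × Fin n) => C5 H b (σ b u) t.1 t.2.1 t.2.2 ∧
        BI H σ (σ b u) t.1 t.2.1 t.2.2) _ (fun (u : Fin n) (t : Fin n × Fin n × Fin n) => (σ b u, t.1, t.2.1, t.2.2)) ?_ ?_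
    · intro u _ t ht
      simp only [mem_filter, mem_univ, true_and]
      exact ht
    · intro u _ u' _ t t' _ _ e
      simp only [Prod.mk.injEq, EmbeddingLike.apply_eq_iff_eq] at e
      exact ⟨e.1, Prod.ext e.2.1 (Prod.ext e.2.2.1 e.2.2.2)⟩
  have s2 : ((∑ u ∈ mv G σ b, (univ.filter fun t : Fin n × Fin n × Fin n => C5 H b (σ b u) t.1 t.2.1 t.2.2 ∧
        P3 G (σ b u) t.1 t.2.1 t.2.2 ∧
        ¬ ((σ b u = u ∧ t.2.2 = (σ b).symm t.2.2) ∨ (σ b u = (σ b).symm t.2.2 ∧ t.2.2 = u))).card : ℕ) : ℝ)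
        ≤ L := by
    refine le_trans (Nat.cast_le.2 ?_) (h8 H σ h b)
    refine sum_fiber_le _ (fun (u : Fin n) (t : Fin n × Fin n × Fin n) => C5 H b (σ b u) t.1 t.2.1 t.2.2 ∧
        P3 G (σ b u) t.1 t.2.1 t.2.2 ∧
        ¬ ((σ b u = u ∧ t.2.2 = (σ b).symm t.2.2) ∨ (σ b u = (σ b).symm t.2.2 ∧ t.2.2 = u))) _
        (fun (u : Fin n) (t : Fin n × Fin n × Fin n) => (u, (σ b).symm t.2.2, t.1, t.2.1)) ?_ ?_
    · intro u hu t ht
      simp only [mv, mem_filter, mem_univ, true_and] at hu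
      simp only [mem_filter, mem_univ, true_and, Equiv.apply_symm_apply]
      obtain ⟨h5, hp, hn⟩ := ht
      refine ⟨hu.1, (h.adj_root_symm b t.2.2).1 ?_, ?_, h5, hp⟩
      · obtain ⟨a1, a2, a3, a4, a5, -⟩ := h5
        exact a5.symm
      · rintro (e | e)
        · exact hn (Or.inl e)
        · exact hn (Or.inr e)
    · intro u _ u' _ t t' _ _ e
      simp only [Prod.mk.injEq, EmbeddingLike.apply_eq_iff_eq] at e
      exact ⟨e.1, Prod.ext e.2.2.1 (Prod.ext e.2.2.2 e.2.1)⟩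
  have h3' := h.T3' h3
  have s3 : ((mv G σ b).card : ℝ) * (c₁ * lam n d) ≤ ∑ u ∈ mv G σ b, (nC5 H b (σ b u) : ℝ) := by
    rw [← nsmul_eq_mul]
    refine card_nsmul_le_sum _ _ _ ?_
    intro u hu
    simp only [mv, mem_filter, mem_univ, true_and] at hu
    exact (h3' b (σ b u) ((h.adj_root b u).1 hu.1)).1
  have s4 : ∑ u ∈ mv G σ b, nC5 H b (σ b u) ≤ (mv G σ b).card * K + Bad5 H σ b +
      ∑ u ∈ mv G σ b, (univ.filter fun t : Fin n × Fin n × Fin n => C5 H b (σ b u) t.1 t.2.1 t.2.2 ∧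
        P3 G (σ b u) t.1 t.2.1 t.2.2 ∧
        ¬ ((σ b u = u ∧ t.2.2 = (σ b).symm t.2.2) ∨ (σ b u = (σ b).symm t.2.2 ∧ t.2.2 = u))).card := by
    refine (sum_le_sum key).trans ?_
    rw [sum_add_distrib, sum_add_distrib, sum_const, smul_eq_mul]
    omega
  have s4' : (∑ u ∈ mv G σ b, (nC5 H b (σ b u) : ℝ)) ≤ (mv G σ b).card * K + Bad5 H σ b + L := by
    have : ((∑ u ∈ mv G σ b, nC5 H b (σ b u) : ℕ) : ℝ) ≤ _ := Nat.cast_le.2 s4
    push_cast at this s2
    linarith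
  linarith

/-- (G3) -/
theorem cm_bound {K : ℕ} {c₁ c₂ L : ℝ} {d : ℕ} (h : IsPartner G H σ) (h2 : T2 K G)
    (h3 : T3 c₁ c₂ n d G) (h4 : T4 L G) (b : Fin n) :
    ((cm G H σ b).card : ℝ) * (c₁ * lam n d) ≤
      (cm G H σ b).card * (K * L) + Bad5 H σ b + (nw G H b).card * (c₂ * lam n d) := by
  have key : ∀ x ∈ cm G H σ b, (nC5 H b x : ℝ) ≤ K * L +
      (univ.filter fun t : Fin n × Fin n × Fin n => C5 H b x t.1 t.2.1 t.2.2 ∧
        BI H σ x t.1 t.2.1 t.2.2).card +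
      (univ.filter fun t : Fin n × Fin n × Fin n => C5 H b x t.1 t.2.1 t.2.2 ∧ ¬ G.Adj b t.2.2).card := by
    intro x hx
    simp only [cm, mem_filter, mem_univ, true_and] at hx
    obtain ⟨hxH, hxG, hw⟩ := hx
    have hsub : (univ.filter fun t : Fin n × Fin n × Fin n => C5 H b x t.1 t.2.1 t.2.2) ⊆
        ((univ.filter fun t : Fin n × Fin n × Fin n => C5 H b x t.1 t.2.1 t.2.2 ∧
          ¬ BI H σ x t.1 t.2.1 t.2.2 ∧ G.Adj b t.2.2) ∪
        (univ.filter fun t : Fin n × Fin n × Fin n => C5 H b x t.1 t.2.1 t.2.2 ∧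
        BI H σ x t.1 t.2.1 t.2.2)) ∪
        (univ.filter fun t : Fin n × Fin n × Fin n => C5 H b x t.1 t.2.1 t.2.2 ∧ ¬ G.Adj b t.2.2) := by
      intro t ht
      simp only [mem_filter, mem_univ, true_and, mem_union] at ht ⊢
      tauto
    have hK : ((univ.filter fun t : Fin n × Fin n × Fin n => C5 H b x t.1 t.2.1 t.2.2 ∧
          ¬ BI H σ x t.1 t.2.1 t.2.2 ∧ G.Adj b t.2.2).card : ℝ) ≤ K * L := by
      have hbx : b ≠ x := hxG.ne
      have hwx : (σ x).symm b ≠ x := by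
        intro e
        rw [h.symm.ne_root_iff x b] at e
        exact hbx e
      have h4' := h4 x b ((σ x).symm b) (fun e => hw e.symm) hbx hwx
      have hle : (univ.filter fun t : Fin n × Fin n × Fin n => C5 H b x t.1 t.2.1 t.2.2 ∧
          ¬ BI H σ x t.1 t.2.1 t.2.2 ∧ G.Adj b t.2.2).card ≤
          ∑ y ∈ (nb G x).filter (fun c => J3 G x c b ∧ J3 G x c ((σ x).symm b)), K := by
        rw [card_eq_sum_card_fiberwise (f := fun t : Fin n × Fin n × Fin n => t.1)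
          (t := (nb G x).filter (fun c => J3 G x c b ∧ J3 G x c ((σ x).symm b)))]
        · refine sum_le_sum fun y hy => ?_
          by_cases hyb : y = b
          · have : (filter (fun t : Fin n × Fin n × Fin n => t.1 = y) (univ.filter fun t : Fin n × Fin n × Fin n => C5 H b x t.1 t.2.1 t.2.2 ∧
                ¬ BI H σ x t.1 t.2.1 t.2.2 ∧ G.Adj b t.2.2)) = ∅ := by
              rw [filter_eq_empty_iff]
              intro t ht e
              simp only [mem_filter, mem_univ, true_and] at ht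
              obtain ⟨⟨a1, a2, a3, a4, a5, n1, n2, n3, n4, n5⟩, -⟩ := ht
              rw [e, hyb] at n1
              exact n1 rfl
            rw [this]; simp
          · refine le_trans ?_ (h2 y b hyb)
            refine card_le_card_of_injOn (fun t => (t.2.1, t.2.2)) ?_ ?_
            · intro t ht
              simp only [coe_filter, mem_filter, mem_univ, true_and, Set.mem_ofPred_eq] at ht ⊢
              obtain ⟨⟨⟨a1, a2, a3, a4, a5, n1, n2, n3, n4, n5⟩, hb, hg⟩, e⟩ := ht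
              unfold BI at hb
              push Not at hb
              obtain ⟨b1, b2, b3⟩ := hb
              rw [e] at *
              exact ⟨(not_Ch h a3 b2).1, (not_Ch h a4 b3).1, hg.symm, n5, hyb, n2.symm⟩
            · intro a ha c hc e
              simp only [coe_filter, mem_filter, mem_univ, true_and, Set.mem_ofPred_eq] at ha hc
              simp only [Prod.mk.injEq] at e
              exact Prod.ext (ha.2.trans hc.2.symm) (Prod.ext e.1 e.2)
        · intro t ht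
          simp only [coe_filter, mem_univ, true_and, Set.mem_ofPred_eq] at ht
          simp only [coe_filter, mem_nb, Set.mem_ofPred_eq]
          obtain ⟨⟨a1, a2, a3, a4, a5, n1, n2, n3, n4, n5⟩, hb, hg⟩ := ht
          unfold BI at hb
          push Not at hb
          obtain ⟨b1, b2, b3⟩ := hb
          have e1 := not_Ch h a2 b1
          refine ⟨e1.1, ?_, ?_⟩
          · exact ⟨t.2.1, t.2.2, ⟨(not_Ch h a3 b2).1, (not_Ch h a4 b3).1, hg.symm, n5, n1.symm, n2.symm⟩,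
              n3.symm, n4.symm⟩
          · have hp : P3 H t.1 t.2.1 t.2.2 b := ⟨a3, a4, a5, n5, n1.symm, n2.symm⟩
            have hp' := (h.symm.P3_iff a2 hxH.symm t.2.1 t.2.2).1 hp
            simp only [e1.2.1] at hp'
            refine ⟨_, _, hp', ?_, ?_⟩
            · rw [ne_eq, h.symm.ne_root_iff x]; exact n3.symm
            · rw [ne_eq, h.symm.ne_root_iff x]; exact n4.symm
      rw [sum_const, smul_eq_mul] at hle
      have hle' : ((univ.filter fun t : Fin n × Fin n × Fin n => C5 H b x t.1 t.2.1 t.2.2 ∧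
          ¬ BI H σ x t.1 t.2.1 t.2.2 ∧ G.Adj b t.2.2).card : ℝ) ≤
          (((nb G x).filter (fun c => J3 G x c b ∧ J3 G x c ((σ x).symm b))).card : ℝ) * K := by
        exact_mod_cast hle
      have hK0 : (0 : ℝ) ≤ K := Nat.cast_nonneg K
      nlinarith
    have hu1 := card_union_le (univ.filter fun t : Fin n × Fin n × Fin n => C5 H b x t.1 t.2.1 t.2.2 ∧
          ¬ BI H σ x t.1 t.2.1 t.2.2 ∧ G.Adj b t.2.2)
        (univ.filter fun t : Fin n × Fin n × Fin n => C5 H b x t.1 t.2.1 t.2.2 ∧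
        BI H σ x t.1 t.2.1 t.2.2)
    have hu2 := card_union_le ((univ.filter fun t : Fin n × Fin n × Fin n => C5 H b x t.1 t.2.1 t.2.2 ∧
          ¬ BI H σ x t.1 t.2.1 t.2.2 ∧ G.Adj b t.2.2) ∪
        (univ.filter fun t : Fin n × Fin n × Fin n => C5 H b x t.1 t.2.1 t.2.2 ∧
        BI H σ x t.1 t.2.1 t.2.2))
        (univ.filter fun t : Fin n × Fin n × Fin n => C5 H b x t.1 t.2.1 t.2.2 ∧ ¬ G.Adj b t.2.2)
    have hu3 := (card_le_card hsub).trans (hu2.trans (Nat.add_le_add_right hu1 _))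
    unfold nC5
    have hu4 : ((univ.filter fun t : Fin n × Fin n × Fin n => C5 H b x t.1 t.2.1 t.2.2).card : ℝ) ≤ _ :=
      Nat.cast_le.2 hu3
    push_cast at hu4
    linarith
  have s1 : ∑ x ∈ cm G H σ b, (univ.filter fun t : Fin n × Fin n × Fin n => C5 H b x t.1 t.2.1 t.2.2 ∧
        BI H σ x t.1 t.2.1 t.2.2).card ≤ Bad5 H σ b := by
    unfold Bad5
    refine sum_fiber_le _ (fun (u : Fin n) (t : Fin n × Fin n × Fin n) => C5 H b u t.1 t.2.1 t.2.2 ∧
        BI H σ u t.1 t.2.1 t.2.2) _ (fun (u : Fin n) (t : Fin n × Fin n × Fin n) => (u, t.1, t.2.1, t.2.2)) ?_ ?_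
    · intro u _ t ht
      simp only [mem_filter, mem_univ, true_and]
      exact ht
    · intro u _ u' _ t t' _ _ e
      simp only [Prod.mk.injEq] at e
      exact ⟨e.1, Prod.ext e.2.1 (Prod.ext e.2.2.1 e.2.2.2)⟩
  have s2 : ∑ x ∈ cm G H σ b, (univ.filter fun t : Fin n × Fin n × Fin n => C5 H b x t.1 t.2.1 t.2.2 ∧
      ¬ G.Adj b t.2.2).card ≤ ∑ x' ∈ nw G H b, nC5 H b x' := by
    unfold nC5
    rw [← card_sigma (nw G H b)]
    refine sum_fiber_le _ (fun (u : Fin n) (t : Fin n × Fin n × Fin n) => C5 H b u t.1 t.2.1 t.2.2 ∧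
      ¬ G.Adj b t.2.2) _ (fun (u : Fin n) (t : Fin n × Fin n × Fin n) =>
      (⟨t.2.2, (t.2.1, t.1, u)⟩ : (_ : Fin n) × (Fin n × Fin n × Fin n))) ?_ ?_
    · intro u _ t ht
      simp only [mem_sigma, nw, mem_filter, mem_univ, true_and]
      exact ⟨⟨ht.1.2.2.2.2.1.symm, ht.2⟩, C5.rev ht.1⟩
    · rintro u _ u' _ ⟨t1, t2, t3⟩ ⟨t1', t2', t3'⟩ _ _ e
      simp only [Sigma.mk.injEq] at e
      obtain ⟨e1, e2⟩ := e
      have e3 := eq_of_heq e2
      simp only [Prod.mk.injEq] at e3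
      exact ⟨e3.2.2, Prod.ext e3.2.1 (Prod.ext e3.1 e1)⟩
  have h3' := h.T3' h3
  have s3 : ((cm G H σ b).card : ℝ) * (c₁ * lam n d) ≤ ∑ x ∈ cm G H σ b, (nC5 H b x : ℝ) := by
    rw [← nsmul_eq_mul]
    refine card_nsmul_le_sum _ _ _ ?_
    intro x hx
    simp only [cm, mem_filter, mem_univ, true_and] at hx
    exact (h3' b x hx.1).1
  have s4 : (∑ x' ∈ nw G H b, (nC5 H b x' : ℝ)) ≤ (nw G H b).card * (c₂ * lam n d) := by
    rw [← nsmul_eq_mul]
    refine sum_le_card_nsmul _ _ _ ?_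
    intro x hx
    simp only [nw, mem_filter, mem_univ, true_and] at hx
    exact (h3' b x hx.1).2
  have s5 : (∑ x ∈ cm G H σ b, (nC5 H b x : ℝ)) ≤ (cm G H σ b).card * (K * L) +
      (∑ x ∈ cm G H σ b, ((univ.filter fun t : Fin n × Fin n × Fin n => C5 H b x t.1 t.2.1 t.2.2 ∧
        BI H σ x t.1 t.2.1 t.2.2).card : ℝ)) +
      ∑ x ∈ cm G H σ b, ((univ.filter fun t : Fin n × Fin n × Fin n => C5 H b x t.1 t.2.1 t.2.2 ∧
        ¬ G.Adj b t.2.2).card : ℝ) := by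
    refine (sum_le_sum key).trans (le_of_eq ?_)
    rw [sum_add_distrib, sum_add_distrib, sum_const, nsmul_eq_mul]
  have s1' : (∑ x ∈ cm G H σ b, ((univ.filter fun t : Fin n × Fin n × Fin n => C5 H b x t.1 t.2.1 t.2.2 ∧
        BI H σ x t.1 t.2.1 t.2.2).card : ℝ)) ≤ Bad5 H σ b := by exact_mod_cast s1
  have s2' : (∑ x ∈ cm G H σ b, ((univ.filter fun t : Fin n × Fin n × Fin n => C5 H b x t.1 t.2.1 t.2.2 ∧
        ¬ G.Adj b t.2.2).card : ℝ)) ≤ ∑ x' ∈ nw G H b, (nC5 H b x' : ℝ) := by exact_mod_cast s2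
  linarith

/-- `λ ≥ n^{4ε}` in regime C -/
theorem lam_ge {ε ε₀ : ℝ} {n d : ℕ} (hn : 1 ≤ n) (h : RegC ε ε₀ n d) : (n : ℝ) ^ (4 * ε) ≤ lam n d := by
  have hn0 : (0 : ℝ) < n := by exact_mod_cast hn
  unfold lam
  rw [le_div_iff₀ hn0]
  have h1 : (n : ℝ) ^ (1 / 4 + ε) ≤ d := h.1
  have h2 : ((n : ℝ) ^ (1 / 4 + ε)) ^ (4 : ℕ) ≤ (d : ℝ) ^ (4 : ℕ) :=
    pow_le_pow_left₀ (Real.rpow_nonneg hn0.le _) h1 4
  refine le_trans (le_of_eq ?_) h2
  rw [← Real.rpow_natCast, ← Real.rpow_mul hn0.le]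
  nth_rewrite 2 [← Real.rpow_one (n : ℝ)]
  rw [← Real.rpow_add hn0]
  congr 1
  push_cast
  ring

theorem ev_ge {ε : ℝ} (hε : 0 < ε) (A : ℝ) : ∀ᶠ n : ℕ in atTop, A ≤ (n : ℝ) ^ ε := by
  have : Tendsto (fun n : ℕ => (n : ℝ) ^ ε) atTop atTop :=
    (tendsto_rpow_atTop hε).comp tendsto_natCast_atTop_atTop
  exact this.eventually_ge_atTop A

theorem ev_le {c : ℝ} (hc : 0 < c) {A : ℝ} (hA : 0 < A) : ∀ᶠ n : ℕ in atTop, (n : ℝ) ^ (-c) ≤ A := by
  have h1 : Tendsto (fun n : ℕ => (n : ℝ) ^ (-c)) atTop (𝓝 0) :=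
    (tendsto_rpow_neg_atTop hc).comp tendsto_natCast_atTop_atTop
  exact (h1.eventually (gt_mem_nhds hA)).mono fun _ h => h.le

theorem StepG_proof : Stmt_StepG := by
  intro K ε ε₀ c₁ c₂ c₄ c₅ C₆ δ c₇ c₈ c₉ hε hε₀ hc₁ hc₂ hc₄ hc₅ hC₆ hδ hc₇ hc₈ hc₉
  refine ⟨8 / c₁ + 2 / c₁ * (1 + 4 * c₂ / c₁), by positivity, ?_⟩
  intro η hη
  have e1 := ev_ge (ε := 4 * ε) (by linarith) (2 * K / c₁)
  have e2 := ev_le hc₈ hη
  have e3 := ev_le hc₄ (A := c₁ / (2 * (K + 1))) (by positivity)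
  obtain ⟨n₀, hn₀⟩ := eventually_atTop.1 (e1.and (e2.and (e3.and (eventually_ge_atTop 1))))
  refine ⟨n₀, fun n hn d hR G H σ hX b hb => ?_⟩
  obtain ⟨f1, f2, f3, f4⟩ := hn₀ n hn
  have hl := lam_ge f4 hR
  have hn0 : (0 : ℝ) < n := by exact_mod_cast f4
  set l := lam n d with hldef
  have hlpos : 0 < l := lt_of_lt_of_le (Real.rpow_pos_of_pos hn0 _) hl
  have hK0 : (0 : ℝ) ≤ K := Nat.cast_nonneg K
  have hd0 : (0 : ℝ) ≤ d := Nat.cast_nonneg d
  have a1 := mv_bound hX.part hX.t2 hX.t3 hX.t8 b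
  have a2 := cm_bound hX.part hX.t2 hX.t3 hX.t4 b
  have a3 := nw_le_mv hX.part b
  have a4 := Fd_le hX.part b
  rw [← hldef] at a1 a2
  set m : ℝ := ((mv G σ b).card : ℝ) with hm
  set w : ℝ := ((nw G H b).card : ℝ) with hw
  set c : ℝ := ((cm G H σ b).card : ℝ) with hcdef
  have hm0 : 0 ≤ m := Nat.cast_nonneg _
  have hc0 : 0 ≤ c := Nat.cast_nonneg _
  have hwm : w ≤ m := Nat.cast_le.2 a3
  have hF : (Fd H σ b : ℝ) ≤ 2 * m + c := by
    have : (Fd H σ b : ℝ) ≤ ((2 * (mv G σ b).card + (cm G H σ b).card : ℕ) : ℝ) := Nat.cast_le.2 a4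
    push_cast at this
    exact this
  have hK1 : (K : ℝ) ≤ c₁ * l / 2 := by
    have : 2 * K / c₁ ≤ l := f1.trans hl
    rw [div_le_iff₀ hc₁] at this
    linarith
  have hm1 : m * (c₁ / 2) ≤ 2 * η * d := by
    have h8 : (n : ℝ) ^ (-c₈) * d * l ≤ η * d * l := by gcongr
    have h9 : m * (c₁ * l) ≤ m * (c₁ * l / 2) + η * d * l + η * d * l := by
      have : m * K ≤ m * (c₁ * l / 2) := by gcongr
      linarith
    have h10 : (m * (c₁ / 2)) * l ≤ (2 * η * d) * l := by nlinarith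
    exact le_of_mul_le_mul_right h10 hlpos
  have hm2 : m ≤ 4 / c₁ * η * d := by
    have : m = m * (c₁ / 2) * (2 / c₁) := by field_simp
    rw [this]
    calc m * (c₁ / 2) * (2 / c₁) ≤ 2 * η * d * (2 / c₁) := by gcongr
      _ = 4 / c₁ * η * d := by ring
  have hKL : (K : ℝ) * ((n : ℝ) ^ (-c₄) * l) ≤ c₁ / 2 * l := by
    have h5 : (K : ℝ) * (n : ℝ) ^ (-c₄) ≤ c₁ / 2 := by
      calc (K : ℝ) * (n : ℝ) ^ (-c₄) ≤ (K + 1) * (c₁ / (2 * (K + 1))) := by gcongr; linarith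
        _ = c₁ / 2 := by field_simp
    calc (K : ℝ) * ((n : ℝ) ^ (-c₄) * l) = (K : ℝ) * (n : ℝ) ^ (-c₄) * l := by ring
      _ ≤ c₁ / 2 * l := by gcongr
  have hc1 : c * (c₁ / 2) ≤ η * d + m * c₂ := by
    have h6 : c * (K * ((n : ℝ) ^ (-c₄) * l)) ≤ c * (c₁ / 2 * l) := by gcongr
    have h7 : w * (c₂ * l) ≤ m * (c₂ * l) := by gcongr
    have h8 : (c * (c₁ / 2)) * l ≤ (η * d + m * c₂) * l := by nlinarith
    exact le_of_mul_le_mul_right h8 hlpos
  have hc2 : c ≤ 2 / c₁ * (1 + 4 * c₂ / c₁) * η * d := by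
    have : c = c * (c₁ / 2) * (2 / c₁) := by field_simp
    rw [this]
    calc c * (c₁ / 2) * (2 / c₁) ≤ (η * d + m * c₂) * (2 / c₁) := by gcongr
      _ ≤ (η * d + 4 / c₁ * η * d * c₂) * (2 / c₁) := by gcongr
      _ = 2 / c₁ * (1 + 4 * c₂ / c₁) * η * d := by field_simp
  calc (Fd H σ b : ℝ) ≤ 2 * m + c := hF
    _ ≤ 2 * (4 / c₁ * η * d) + 2 / c₁ * (1 + 4 * c₂ / c₁) * η * d := by gcongr
    _ = (8 / c₁ + 2 / c₁ * (1 + 4 * c₂ / c₁)) * η * d := by ring

end Pool.Agent.RRG.StepG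

namespace Pool.Agent.RRG

theorem StepG_proof : Stmt_StepG := StepG.StepG_proof

end Pool.Agent.RRG
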