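import Pool.Agent.RRG.Disj

/-! # T2: few 3-paths between two vertices -/

open Finset Filter Topology
open scoped Classical

namespace Pool.Agent.RRG

/-- the three edges of the path `x y y' z` -/
def pE {n : ℕ} (x y y' z : Fin n) : Finset (Sym2 (Fin n)) := {s(x, y), s(y, y'), s(y', z)}

theorem pE_card {n : ℕ} {x y y' z : Fin n} (h1 : x ≠ y) (h2 : y ≠ y') (_h3 : y' ≠ z) (h4 : x ≠ y')
    (_h5 : x ≠ z) (h6 : y ≠ z) : (pE x y y' z).card = 3 := by
  unfold pE
  rw [card_insert_of_notMem, card_insert_of_notMem, card_singleton]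
  · simp only [mem_singleton, Sym2.eq_iff]
    tauto
  · simp only [mem_insert, mem_singleton, Sym2.eq_iff]
    tauto

theorem pE_subset_iff {n : ℕ} {G : Gr n} {x y y' z : Fin n} :
    pE x y y' z ⊆ ed G ↔ G.Adj x y ∧ G.Adj y y' ∧ G.Adj y' z := by
  unfold pE
  simp only [insert_subset_iff, singleton_subset_iff, mk_mem_ed]

theorem pE_not_diag {n : ℕ} {x y y' z : Fin n} (h1 : x ≠ y) (h2 : y ≠ y') (h3 : y' ≠ z) :
    ∀ e ∈ pE x y y' z, ¬ e.IsDiag := by
  intro e he
  unfold pE at he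
  simp only [mem_insert, mem_singleton] at he
  rcases he with rfl | rfl | rfl <;> simpa

/-- at most two elements -/
theorem card_pair_le {n : ℕ} (e : Sym2 (Fin n)) (S : Finset (Fin n × Fin n))
    (h : ∀ t ∈ S, e = s(t.1, t.2)) : S.card ≤ 2 := by
  induction e using Sym2.ind with
  | _ a b =>
    have : S ⊆ {(a, b), (b, a)} := by
      intro t ht
      have := h t ht
      simp only [Sym2.eq_iff] at this
      simp only [mem_insert, mem_singleton]
      rcases this with ⟨rfl, rfl⟩ | ⟨rfl, rfl⟩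
      · left; rfl
      · right; rfl
    exact (card_le_card this).trans (card_insert_le _ _)

theorem card_fst {n K : ℕ} (S : Finset (Fin n × Fin n)) (h : ∀ t ∈ S, ∀ t' ∈ S, t.1 = t'.1)
    (h2 : ∀ t ∈ S, ∃ T : Finset (Fin n), T.card ≤ K ∧ ∀ t' ∈ S, t'.2 ∈ T) : S.card ≤ K := by
  rcases S.eq_empty_or_nonempty with rfl | ⟨t₀, ht₀⟩
  · simp
  · obtain ⟨T, hT, hT'⟩ := h2 t₀ ht₀
    refine le_trans (card_le_card_of_injOn (fun t => t.2) (fun t ht => hT' t ht) ?_) hT
    intro a ha b hb hab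
    exact Prod.ext (h a ha b hb) hab

theorem card_snd {n K : ℕ} (S : Finset (Fin n × Fin n)) (h : ∀ t ∈ S, ∀ t' ∈ S, t.2 = t'.2)
    (h2 : ∀ t ∈ S, ∃ T : Finset (Fin n), T.card ≤ K ∧ ∀ t' ∈ S, t'.1 ∈ T) : S.card ≤ K := by
  rcases S.eq_empty_or_nonempty with rfl | ⟨t₀, ht₀⟩
  · simp
  · obtain ⟨T, hT, hT'⟩ := h2 t₀ ht₀
    refine le_trans (card_le_card_of_injOn (fun t => t.1) (fun t ht => hT' t ht) ?_) hT
    intro a ha b hb hab
    exact Prod.ext hab (h a ha b hb)

/-- configurations: inner vertices of possible 3-paths from `x` to `z` -/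
def I3 {n : ℕ} (x z : Fin n) : Finset (Fin n × Fin n) :=
  univ.filter fun t => x ≠ t.1 ∧ t.1 ≠ t.2 ∧ t.2 ≠ z ∧ x ≠ t.2 ∧ t.1 ≠ z

theorem mem_I3 {n : ℕ} {x z : Fin n} {t : Fin n × Fin n} :
    t ∈ I3 x z ↔ x ≠ t.1 ∧ t.1 ≠ t.2 ∧ t.2 ≠ z ∧ x ≠ t.2 ∧ t.1 ≠ z := by simp [I3]

theorem P3_filter_eq {n : ℕ} {G : Gr n} {x z : Fin n} (hxz : x ≠ z) :
    (univ.filter fun t : Fin n × Fin n => P3 G x t.1 t.2 z) =
      (I3 x z).filter fun t => pE x t.1 t.2 z ⊆ ed G := by
  ext t
  simp only [mem_filter, mem_univ, true_and, mem_I3, pE_subset_iff]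
  unfold P3
  constructor
  · rintro ⟨a, b, c, h1, h2, h3⟩
    exact ⟨⟨a.ne, b.ne, c.ne, h1, h3⟩, a, b, c⟩
  · rintro ⟨⟨h1, h2, h3, h4, h5⟩, a, b, c⟩
    exact ⟨a, b, c, h4, hxz, h5⟩

theorem I3_conf {n K : ℕ} {G : Gr n} (hT : T1 K G) {x z : Fin n} (e : Sym2 (Fin n)) :
    ((I3 x z).filter fun t => pE x t.1 t.2 z ⊆ ed G ∧ e ∈ pE x t.1 t.2 z).card ≤ 2 * K + 2 := by
  set S := (I3 x z).filter fun t => pE x t.1 t.2 z ⊆ ed G ∧ e ∈ pE x t.1 t.2 z with hS
  have hcov : S ⊆ (S.filter fun t => e = s(x, t.1)) ∪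
      ((S.filter fun t => e = s(t.2, z)) ∪ (S.filter fun t => e = s(t.1, t.2))) := by
    intro t ht
    have ht' := ht
    rw [hS] at ht'
    simp only [mem_filter, pE, mem_insert, mem_singleton] at ht'
    simp only [mem_union, mem_filter]
    rcases ht'.2.2 with h | h | h
    · exact Or.inl ⟨ht, h⟩
    · exact Or.inr (Or.inr ⟨ht, h⟩)
    · exact Or.inr (Or.inl ⟨ht, h⟩)
  have hSm : ∀ t ∈ S, (x ≠ t.1 ∧ t.1 ≠ t.2 ∧ t.2 ≠ z ∧ x ≠ t.2 ∧ t.1 ≠ z) ∧
      G.Adj x t.1 ∧ G.Adj t.1 t.2 ∧ G.Adj t.2 z := by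
    intro t ht
    rw [hS] at ht
    simp only [mem_filter, mem_I3, pE_subset_iff] at ht
    exact ⟨ht.1, ht.2.1⟩
  have h1 : (S.filter fun t => e = s(x, t.1)).card ≤ K := by
    apply card_fst
    · intro t ht t' ht'
      simp only [mem_filter] at ht ht'
      have := ht.2.symm.trans ht'.2
      rw [Sym2.congr_right] at this
      exact this
    · intro t ht
      refine ⟨nb G t.1 ∩ nb G z, hT _ _ (hSm t (mem_filter.1 ht).1).1.2.2.2.2, ?_⟩
      intro t' ht'
      simp only [mem_filter] at ht ht'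
      have := ht.2.symm.trans ht'.2
      rw [Sym2.congr_right] at this
      have h3 := (hSm t' ht'.1).2
      simp only [mem_inter, mem_nb]
      rw [this]
      exact ⟨h3.2.1, h3.2.2.symm⟩
  have h2 : (S.filter fun t => e = s(t.2, z)).card ≤ K := by
    apply card_snd
    · intro t ht t' ht'
      simp only [mem_filter] at ht ht'
      have := ht.2.symm.trans ht'.2
      rw [Sym2.congr_left] at this
      exact this
    · intro t ht
      refine ⟨nb G x ∩ nb G t.2, hT _ _ (hSm t (mem_filter.1 ht).1).1.2.2.2.1, ?_⟩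
      intro t' ht'
      simp only [mem_filter] at ht ht'
      have := ht.2.symm.trans ht'.2
      rw [Sym2.congr_left] at this
      have h3 := (hSm t' ht'.1).2
      simp only [mem_inter, mem_nb]
      rw [this]
      exact ⟨h3.1, h3.2.1.symm⟩
  have h3 : (S.filter fun t => e = s(t.1, t.2)).card ≤ 2 :=
    card_pair_le e _ (fun t ht => (mem_filter.1 ht).2)
  have h4 := (card_le_card hcov).trans ((card_union_le _ _).trans
    (Nat.add_le_add_left (card_union_le _ _) _))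
  omega

/-- bad event for the pair `x z` -/
def BadP {n : ℕ} (K m : ℕ) (x z : Fin n) (G : Gr n) : Prop :=
  T1 K G ∧ m * (3 * (2 * K + 2)) ≤ (univ.filter fun t : Fin n × Fin n => P3 G x t.1 t.2 z).card

def Imp12 {n : ℕ} (K K' : ℕ) (G : Gr n) : Prop := T1 K G → T2 K' G

/-- the number of graphs with many 3-paths between `x` and `z` -/
theorem T2_pair (h : Stmt_DO) {n d m K : ℕ} (hn : 64 ≤ n) (hd : 64 * d ≤ n) (hm : 96 * m ≤ n * d)
    (x z : Fin n) (hxz : x ≠ z) :
    (((Reg n d).filter fun G => BadP K m x z G).card : ℝ) *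
        (m.factorial : ℝ) ≤ (8 * gam n d) ^ m * ((Reg n d).card : ℝ) := by
  have h1 := DO_conf h hn hd (I3 x z) (fun t => pE x t.1 t.2 z) m 3 (2 * K + 2) (by omega)
    (by
      intro t ht
      rw [mem_I3] at ht
      obtain ⟨a, b, c, e, f⟩ := ht
      refine ⟨?_, (pE_card a b c e hxz f).le, pE_not_diag a b c⟩
      rw [← card_pos, pE_card a b c e hxz f]
      norm_num)
    (by omega) (T1 K) (fun G _ hG e => I3_conf hG e)
  have hsub : ((Reg n d).filter fun G => BadP K m x z G) ⊆ ((Reg n d).filter fun G => T1 K G ∧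
      m * (3 * (2 * K + 2)) ≤ ((I3 x z).filter fun t => pE x t.1 t.2 z ⊆ ed G).card) := by
    intro G hG
    rw [mem_filter] at hG
    refine mem_filter.2 ⟨hG.1, hG.2.1, ?_⟩
    rw [← P3_filter_eq hxz]
    exact hG.2.2
  refine (mul_le_mul_of_nonneg_right (Nat.cast_le.2 (card_le_card hsub)) (by positivity)).trans
    (h1.trans (mul_le_mul_of_nonneg_right (pow_le_pow_left₀ (by positivity) ?_ m)
    (by positivity)))
  have e2 : ∑ t ∈ I3 x z, (2 * (d : ℝ) / n) ^ (pE x t.1 t.2 z).card =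
      ∑ t ∈ I3 x z, (2 * (d : ℝ) / n) ^ 3 := by
    refine sum_congr rfl fun t ht => ?_
    rw [mem_I3] at ht
    obtain ⟨a, b, c, e, f⟩ := ht
    rw [pE_card a b c e hxz f]
  rw [e2, sum_const, nsmul_eq_mul]
  have h3 : ((I3 x z).card : ℝ) ≤ (n : ℝ) ^ 2 := by
    have : (I3 x z).card ≤ n ^ 2 := by
      refine (card_le_univ _).trans ?_
      simp [sq]
    exact_mod_cast this
  have hn0 : (0 : ℝ) < n := by
    have : 0 < n := by omega
    exact_mod_cast this
  calc ((I3 x z).card : ℝ) * (2 * (d : ℝ) / n) ^ 3 ≤ (n : ℝ) ^ 2 * (2 * (d : ℝ) / n) ^ 3 :=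
        mul_le_mul_of_nonneg_right h3 (by positivity)
    _ = 8 * gam n d := by
        unfold gam
        field_simp
        ring

/-- a property holding for every pair except with small probability -/
theorem pair_union {n d : ℕ} (P : Fin n → Fin n → Gr n → Prop) (Q : Gr n → Prop) [DecidablePred Q]
    (f : ℝ) (hf : 0 ≤ f)
    (h : ∀ x z, x ≠ z → (((Reg n d).filter fun G => P x z G).card : ℝ) ≤ f * (Reg n d).card)
    (hQ : ∀ G ∈ Reg n d, Q G → ∃ x z, x ≠ z ∧ P x z G) :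
    (((Reg n d).filter Q).card : ℝ) ≤ (n : ℝ) ^ 2 * f * (Reg n d).card := by
  have hcov : ((Reg n d).filter Q) ⊆
      ((univ : Finset (Fin n × Fin n)).filter fun t => t.1 ≠ t.2).biUnion
        fun t => (Reg n d).filter fun G => P t.1 t.2 G := by
    intro G hG
    rw [mem_filter] at hG
    obtain ⟨x, z, hxz, hP⟩ := hQ G hG.1 hG.2
    rw [mem_biUnion]
    exact ⟨(x, z), mem_filter.2 ⟨mem_univ _, hxz⟩, mem_filter.2 ⟨hG.1, hP⟩⟩
  have h1 : (((Reg n d).filter Q).card : ℝ) ≤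
      ∑ t ∈ (univ : Finset (Fin n × Fin n)).filter (fun t => t.1 ≠ t.2),
        (((Reg n d).filter fun G => P t.1 t.2 G).card : ℝ) := by
    rw [← Nat.cast_sum]
    exact Nat.cast_le.2 ((card_le_card hcov).trans card_biUnion_le)
  refine h1.trans ?_
  calc _ ≤ ∑ t ∈ (univ : Finset (Fin n × Fin n)).filter (fun t => t.1 ≠ t.2), f * (Reg n d).card :=
        sum_le_sum fun t ht => h _ _ (mem_filter.1 ht).2
    _ = (((univ : Finset (Fin n × Fin n)).filter (fun t => t.1 ≠ t.2)).card : ℝ) *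
          (f * (Reg n d).card) := by rw [sum_const, nsmul_eq_mul]
    _ ≤ (n : ℝ) ^ 2 * (f * (Reg n d).card) := by
        refine mul_le_mul_of_nonneg_right ?_ (by positivity)
        have : ((univ : Finset (Fin n × Fin n)).filter (fun t => t.1 ≠ t.2)).card ≤ n ^ 2 := by
          refine (card_le_univ _).trans ?_
          simp [sq]
        exact_mod_cast this
    _ = _ := by ring

theorem gam_le {n d : ℕ} {ε₀ : ℝ} (hn : 1 ≤ n) (h : (d : ℝ) ^ 3 ≤ (n : ℝ) ^ (1 - ε₀)) :
    gam n d ≤ (n : ℝ) ^ (-ε₀) := by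
  unfold gam
  have hn0 : (0 : ℝ) < n := by exact_mod_cast hn
  rw [div_le_iff₀ hn0]
  have : (n : ℝ) ^ (-ε₀) * n = (n : ℝ) ^ (1 - ε₀) := by
    nth_rewrite 2 [← Real.rpow_one (n : ℝ)]
    rw [← Real.rpow_add hn0]
    congr 1
    ring
  rw [this]
  exact h

theorem d_le_rpow_third {n d : ℕ} {ε₀ : ℝ} (hn : 1 ≤ n) (hε : 0 < ε₀)
    (h : (d : ℝ) ^ 3 ≤ (n : ℝ) ^ (1 - ε₀)) : (d : ℝ) ≤ (n : ℝ) ^ (1 / 2 - 1 / 6 : ℝ) := by
  have h1 := cube_le_of_rpow hn hε h
  have h2 : (d : ℝ) ^ 3 ≤ n := by exact_mod_cast h1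
  have h3 : ((n : ℝ) ^ (1 / 2 - 1 / 6 : ℝ)) ^ 3 = n := by
    rw [← Real.rpow_natCast, ← Real.rpow_mul (by positivity)]
    norm_num
  rw [← h3] at h2
  exact le_of_pow_le_pow_left₀ (by norm_num) (by positivity) h2

theorem T2_proof (h : Stmt_DO) (hc : Stmt_Codeg) : Stmt_T2 := by
  intro ε₀ hε
  obtain ⟨K, hK⟩ := hc (1 / 6) (by norm_num)
  obtain ⟨m, hm⟩ := exists_nat_ge (3 / ε₀)
  have hm' : 3 ≤ ε₀ * m := by
    rw [div_le_iff₀ hε] at hm
    linarith
  have hm0 : 0 < m := by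
    rcases Nat.eq_zero_or_pos m with rfl | h
    · simp at hm'; linarith
    · exact h
  refine ⟨m * (3 * (2 * K + 2)), ?_⟩
  have hT1 : Whp (fun n d => (d : ℝ) ^ 3 ≤ (n : ℝ) ^ (1 - ε₀)) (fun _ _ G => T1 K G) :=
    hK.mono ⟨1, fun n hn d hd => d_le_rpow_third hn hε hd⟩ ⟨0, fun _ _ _ _ _ _ h => h⟩
  have hmain : Whp (fun n d => (d : ℝ) ^ 3 ≤ (n : ℝ) ^ (1 - ε₀))
      (fun _ _ G => Imp12 K (m * (3 * (2 * K + 2))) G) := by
    apply Whp.of_bound (fun n => (8 : ℝ) ^ m * (n : ℝ)⁻¹)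
    · have : Tendsto (fun n : ℕ => (8 : ℝ) ^ m * (n : ℝ)⁻¹) atTop (𝓝 ((8 : ℝ) ^ m * 0)) :=
        tendsto_const_nhds.mul tendsto_inv_atTop_nhds_zero_nat
      simpa using this
    · refine ⟨max 512 (96 * m), fun n hn d hd => ?_⟩
      have hn1 : 512 ≤ n := (le_max_left _ _).trans hn
      have hn2 : 96 * m ≤ n := (le_max_right _ _).trans hn
      have hn0 : (0 : ℝ) < n := by
        have : 0 < n := by omega
        exact_mod_cast this
      rcases Nat.eq_zero_or_pos d with rfl | hd0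
      · refine le_trans (le_of_eq ?_) (show (0 : ℝ) ≤ _ by positivity)
        rw [Nat.cast_eq_zero, card_eq_zero, filter_eq_empty_iff]
        intro G hG hcon
        apply hcon
        intro _ x z hxz
        have : (univ.filter fun t : Fin n × Fin n => P3 G x t.1 t.2 z) = ∅ := by
          rw [filter_eq_empty_iff]
          intro t _ hP
          have h1 := (mem_Reg.1 hG) x
          rw [card_eq_zero] at h1
          have h2 := mem_nb.2 hP.1
          rw [h1] at h2
          simp at h2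
        rw [this]
        simp
      · have hcube := cube_le_of_rpow (by omega) hε hd
        have h64 := d_small_of_cube hn1 hcube
        have hmd : 96 * m ≤ n * d := hn2.trans (Nat.le_mul_of_pos_right n hd0)
        have hpair : ∀ x z : Fin n, x ≠ z → (((Reg n d).filter fun G => BadP K m x z G).card : ℝ) ≤
            ((8 : ℝ) ^ m * (n : ℝ) ^ (-(3 : ℝ))) * (Reg n d).card := by
          intro x z hxz
          have h1 := T2_pair h (m := m) (K := K) (by omega) h64 hmd x z hxz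
          have h2 : (1 : ℝ) ≤ (m.factorial : ℝ) := by exact_mod_cast Nat.factorial_pos m
          have h3 : (8 * gam n d) ^ m ≤ (8 : ℝ) ^ m * (n : ℝ) ^ (-(3 : ℝ)) := by
            rw [mul_pow]
            refine mul_le_mul_of_nonneg_left ?_ (by positivity)
            have hg : 0 ≤ gam n d := by unfold gam; positivity
            calc gam n d ^ m ≤ ((n : ℝ) ^ (-ε₀)) ^ m :=
                  pow_le_pow_left₀ hg (gam_le (by omega) hd) m
              _ = (n : ℝ) ^ (-(ε₀ * m)) := by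
                  rw [← Real.rpow_natCast, ← Real.rpow_mul hn0.le]
                  congr 1
                  ring
              _ ≤ (n : ℝ) ^ (-(3 : ℝ)) := by
                  apply Real.rpow_le_rpow_of_exponent_le
                  · have : 1 ≤ n := by omega
                    exact_mod_cast this
                  · linarith
          calc _ ≤ _ * (m.factorial : ℝ) := le_mul_of_one_le_right (by positivity) h2
            _ ≤ _ := h1
            _ ≤ _ := mul_le_mul_of_nonneg_right h3 (by positivity)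
        refine (pair_union (BadP K m) _ _ (by positivity) hpair ?_).trans (le_of_eq ?_)
        · intro G _ hG
          obtain ⟨hT, hn2⟩ := Classical.not_imp.1 hG
          unfold T2 at hn2
          push Not at hn2
          obtain ⟨x, z, hxz, hlt⟩ := hn2
          exact ⟨x, z, hxz, hT, hlt.le⟩
        · have e3 : (n : ℝ) ^ 2 * (n : ℝ) ^ (-(3 : ℝ)) = (n : ℝ)⁻¹ := by
            rw [← Real.rpow_natCast, ← Real.rpow_add hn0]
            norm_num
            rw [Real.rpow_neg_one]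
          calc (n : ℝ) ^ 2 * ((8 : ℝ) ^ m * (n : ℝ) ^ (-(3 : ℝ))) * (Reg n d).card
              = (8 : ℝ) ^ m * ((n : ℝ) ^ 2 * (n : ℝ) ^ (-(3 : ℝ))) * (Reg n d).card := by ring
            _ = _ := by rw [e3]
  exact (hT1.and hmain).mono ⟨0, fun _ _ _ h => h⟩ ⟨0, fun _ _ _ _ _ _ h => h.2 h.1⟩

end Pool.Agent.RRG
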