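import Pool.Agent.RRG.T6

/-! # T3: every edge is in about `λ` 5-cycles -/

open Finset Filter Topology
open scoped Classical

namespace Pool.Agent.RRG

/-- the four edges of the path `w p q c v` -/
def E5 {n : ℕ} (v w : Fin n) (t : Fin n × Fin n × Fin n) : Finset (Sym2 (Fin n)) :=
  {s(w, t.1), s(t.1, t.2.1), s(t.2.1, t.2.2), s(t.2.2, v)}

def D5 {n : ℕ} (v w : Fin n) (t : Fin n × Fin n × Fin n) : Prop :=
  w ≠ t.1 ∧ t.1 ≠ t.2.1 ∧ t.2.1 ≠ t.2.2 ∧ t.2.2 ≠ v ∧ v ≠ t.1 ∧ v ≠ t.2.1 ∧ w ≠ t.2.1 ∧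
    w ≠ t.2.2 ∧ t.1 ≠ t.2.2

noncomputable def I5 {n : ℕ} (v w : Fin n) : Finset (Fin n × Fin n × Fin n) := univ.filter fun t => D5 v w t

theorem mem_I5 {n : ℕ} {v w : Fin n} {t : Fin n × Fin n × Fin n} : t ∈ I5 v w ↔ D5 v w t := by
  simp [I5]

theorem E5_card {n : ℕ} {v w : Fin n} (hvw : v ≠ w) {t : Fin n × Fin n × Fin n} (h : D5 v w t) :
    (E5 v w t).card = 4 := by
  obtain ⟨h1, h2, h3, h4, h5, h6, h7, h8, h9⟩ := h
  unfold E5
  rw [card_insert_of_notMem, card_insert_of_notMem, card_insert_of_notMem, card_singleton]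
  · simp only [mem_singleton, Sym2.eq_iff]
    rintro (⟨a, b⟩ | ⟨a, b⟩)
    · exact h3 a
    · exact h6 a.symm
  · simp only [mem_insert, mem_singleton, Sym2.eq_iff]
    rintro ((⟨a, b⟩ | ⟨a, b⟩) | (⟨a, b⟩ | ⟨a, b⟩))
    · exact h2 a
    · exact h9 a
    · exact h9 a
    · exact h5 a.symm
  · simp only [mem_insert, mem_singleton, Sym2.eq_iff]
    rintro ((⟨a, b⟩ | ⟨a, b⟩) | (⟨a, b⟩ | ⟨a, b⟩) | (⟨a, b⟩ | ⟨a, b⟩))
    · exact h1 a
    · exact h7 a
    · exact h7 a
    · exact h8 a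
    · exact h8 a
    · exact hvw a.symm

theorem E5_subset_iff {n : ℕ} {G : Gr n} {v w : Fin n} {t : Fin n × Fin n × Fin n} :
    E5 v w t ⊆ ed G ↔ G.Adj w t.1 ∧ G.Adj t.1 t.2.1 ∧ G.Adj t.2.1 t.2.2 ∧ G.Adj t.2.2 v := by
  unfold E5
  simp only [insert_subset_iff, singleton_subset_iff, mk_mem_ed]

theorem E5_not_diag {n : ℕ} {v w : Fin n} {t : Fin n × Fin n × Fin n} (h : D5 v w t) :
    ∀ e ∈ E5 v w t, ¬ e.IsDiag := by
  obtain ⟨h1, h2, h3, h4, h5, h6, h7, h8, h9⟩ := h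
  intro e he
  unfold E5 at he
  simp only [mem_insert, mem_singleton] at he
  rcases he with rfl | rfl | rfl | rfl <;> simpa

theorem nC5_le {n : ℕ} {G : Gr n} {v w : Fin n} :
    nC5 G v w ≤ ((I5 v w).filter fun t => E5 v w t ⊆ ed G).card := by
  unfold nC5
  refine card_le_card fun t ht => ?_
  rw [mem_filter] at ht
  obtain ⟨_, a1, a2, a3, a4, a5, a6, a7, a8, a9, a10⟩ := ht
  rw [mem_filter, mem_I5, E5_subset_iff]
  exact ⟨⟨a2.ne, a3.ne, a4.ne, a5.ne, a6, a7, a8, a9, a10⟩, a2, a3, a4, a5⟩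

def Ev5 {n : ℕ} (K : ℕ) (G : Gr n) : Prop := T1 K G ∧ T2 K G

theorem I5_conf {n K : ℕ} {G : Gr n} (hE : Ev5 K G) {v w : Fin n} (e : Sym2 (Fin n)) :
    ((I5 v w).filter fun t => E5 v w t ⊆ ed G ∧ e ∈ E5 v w t).card ≤ 8 * K := by
  obtain ⟨hT1, hT2⟩ := hE
  induction e using Sym2.ind with
  | _ a b =>
    set S := (I5 v w).filter fun t => E5 v w t ⊆ ed G ∧ s(a, b) ∈ E5 v w t with hS
    have hSm : ∀ t ∈ S, D5 v w t ∧ (G.Adj w t.1 ∧ G.Adj t.1 t.2.1 ∧ G.Adj t.2.1 t.2.2 ∧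
        G.Adj t.2.2 v) ∧ s(a, b) ∈ E5 v w t := by
      intro t ht
      rw [hS, mem_filter, mem_I5, E5_subset_iff] at ht
      exact ⟨ht.1, ht.2.1, ht.2.2⟩
    let g1 : Fin n → Finset (Fin n × Fin n × Fin n) := fun x => S.filter fun t => t.1 = x
    let g4 : Fin n → Finset (Fin n × Fin n × Fin n) := fun x => S.filter fun t => t.2.2 = x
    let g2 : Fin n → Fin n → Finset (Fin n × Fin n × Fin n) := fun x y =>
      S.filter fun t => t.1 = x ∧ t.2.1 = y
    let g3 : Fin n → Fin n → Finset (Fin n × Fin n × Fin n) := fun x y =>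
      S.filter fun t => t.2.1 = x ∧ t.2.2 = y
    have hcov : S ⊆ ((g1 a ∪ g1 b) ∪ (g4 a ∪ g4 b)) ∪ ((g2 a b ∪ g2 b a) ∪ (g3 a b ∪ g3 b a)) := by
      intro t ht
      have h := (hSm t ht).2.2
      unfold E5 at h
      simp only [mem_insert, mem_singleton, Sym2.eq_iff] at h
      simp only [mem_union, g1, g2, g3, g4, mem_filter]
      rcases h with (⟨h1, h2⟩ | ⟨h1, h2⟩) | (⟨h1, h2⟩ | ⟨h1, h2⟩) | (⟨h1, h2⟩ | ⟨h1, h2⟩) |
        (⟨h1, h2⟩ | ⟨h1, h2⟩)
      · exact Or.inl (Or.inl (Or.inr ⟨ht, h2.symm⟩))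
      · exact Or.inl (Or.inl (Or.inl ⟨ht, h1.symm⟩))
      · exact Or.inr (Or.inl (Or.inl ⟨ht, h1.symm, h2.symm⟩))
      · exact Or.inr (Or.inl (Or.inr ⟨ht, h2.symm, h1.symm⟩))
      · exact Or.inr (Or.inr (Or.inl ⟨ht, h1.symm, h2.symm⟩))
      · exact Or.inr (Or.inr (Or.inr ⟨ht, h2.symm, h1.symm⟩))
      · exact Or.inl (Or.inr (Or.inl ⟨ht, h1.symm⟩))
      · exact Or.inl (Or.inr (Or.inr ⟨ht, h2.symm⟩))
    have hg1 : ∀ x, (g1 x).card ≤ K := by
      intro x
      rcases (g1 x).eq_empty_or_nonempty with h | ⟨t₀, ht₀⟩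
      · rw [h]; simp
      · simp only [g1, mem_filter] at ht₀
        have hx : x ≠ v := by
          rw [← ht₀.2]
          exact fun h => (hSm t₀ ht₀.1).1.2.2.2.2.1 h.symm
        refine le_trans (card_le_card_of_injOn (fun t => (t.2.1, t.2.2)) ?_ ?_) (hT2 x v hx)
        · intro t ht
          simp only [g1, coe_filter, Set.mem_ofPred_eq] at ht
          obtain ⟨⟨d1, d2, d3, d4, d5, d6, d7, d8, d9⟩, ⟨b1, b2, b3, b4⟩, _⟩ := hSm t ht.1
          simp only [coe_filter, mem_univ, true_and, Set.mem_ofPred_eq]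
          rw [← ht.2]
          exact ⟨b2, b3, b4, d9, d5.symm, d6.symm⟩
        · intro t ht t' ht' htt
          simp only [g1, coe_filter, Set.mem_ofPred_eq] at ht ht'
          simp only [Prod.mk.injEq] at htt
          exact Prod.ext (ht.2.trans ht'.2.symm) (Prod.ext htt.1 htt.2)
    have hg4 : ∀ x, (g4 x).card ≤ K := by
      intro x
      rcases (g4 x).eq_empty_or_nonempty with h | ⟨t₀, ht₀⟩
      · rw [h]; simp
      · simp only [g4, mem_filter] at ht₀
        have hx : w ≠ x := by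
          rw [← ht₀.2]
          exact (hSm t₀ ht₀.1).1.2.2.2.2.2.2.2.1
        refine le_trans (card_le_card_of_injOn (fun t => (t.1, t.2.1)) ?_ ?_) (hT2 w x hx)
        · intro t ht
          simp only [g4, coe_filter, Set.mem_ofPred_eq] at ht
          obtain ⟨⟨d1, d2, d3, d4, d5, d6, d7, d8, d9⟩, ⟨b1, b2, b3, b4⟩, _⟩ := hSm t ht.1
          simp only [coe_filter, mem_univ, true_and, Set.mem_ofPred_eq]
          rw [← ht.2]
          exact ⟨b1, b2, b3, d7, d8, d9⟩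
        · intro t ht t' ht' htt
          simp only [g4, coe_filter, Set.mem_ofPred_eq] at ht ht'
          simp only [Prod.mk.injEq] at htt
          exact Prod.ext htt.1 (Prod.ext htt.2 (ht.2.trans ht'.2.symm))
    have hg2 : ∀ x y, (g2 x y).card ≤ K := by
      intro x y
      rcases (g2 x y).eq_empty_or_nonempty with h | ⟨t₀, ht₀⟩
      · rw [h]; simp
      · simp only [g2, mem_filter] at ht₀
        have hy : y ≠ v := by
          rw [← ht₀.2.2]
          exact fun h => (hSm t₀ ht₀.1).1.2.2.2.2.2.1 h.symm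
        refine le_trans (card_le_card_of_injOn (fun t => t.2.2) ?_ ?_) (hT1 y v hy)
        · intro t ht
          simp only [g2, coe_filter, Set.mem_ofPred_eq] at ht
          obtain ⟨_, ⟨b1, b2, b3, b4⟩, _⟩ := hSm t ht.1
          simp only [coe_inter, Set.mem_inter_iff, mem_coe, mem_nb]
          rw [← ht.2.2]
          exact ⟨b3, b4.symm⟩
        · intro t ht t' ht' htt
          simp only [g2, coe_filter, Set.mem_ofPred_eq] at ht ht'
          exact Prod.ext (ht.2.1.trans ht'.2.1.symm) (Prod.ext (ht.2.2.trans ht'.2.2.symm) htt)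
    have hg3 : ∀ x y, (g3 x y).card ≤ K := by
      intro x y
      rcases (g3 x y).eq_empty_or_nonempty with h | ⟨t₀, ht₀⟩
      · rw [h]; simp
      · simp only [g3, mem_filter] at ht₀
        have hx : w ≠ x := by
          rw [← ht₀.2.1]
          exact (hSm t₀ ht₀.1).1.2.2.2.2.2.2.1
        refine le_trans (card_le_card_of_injOn (fun t => t.1) ?_ ?_) (hT1 w x hx)
        · intro t ht
          simp only [g3, coe_filter, Set.mem_ofPred_eq] at ht
          obtain ⟨_, ⟨b1, b2, b3, b4⟩, _⟩ := hSm t ht.1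
          simp only [coe_inter, Set.mem_inter_iff, mem_coe, mem_nb]
          rw [← ht.2.1]
          exact ⟨b1, b2.symm⟩
        · intro t ht t' ht' htt
          simp only [g3, coe_filter, Set.mem_ofPred_eq] at ht ht'
          exact Prod.ext htt (Prod.ext (ht.2.1.trans ht'.2.1.symm) (ht.2.2.trans ht'.2.2.symm))
    have h4 := card_le_card hcov
    have u1 := card_union_le ((g1 a ∪ g1 b) ∪ (g4 a ∪ g4 b)) ((g2 a b ∪ g2 b a) ∪ (g3 a b ∪ g3 b a))
    have u2 := card_union_le (g1 a ∪ g1 b) (g4 a ∪ g4 b)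
    have u3 := card_union_le (g1 a) (g1 b)
    have u4 := card_union_le (g4 a) (g4 b)
    have u5 := card_union_le (g2 a b ∪ g2 b a) (g3 a b ∪ g3 b a)
    have u6 := card_union_le (g2 a b) (g2 b a)
    have u7 := card_union_le (g3 a b) (g3 b a)
    have c1 := hg1 a
    have c2 := hg1 b
    have c3 := hg4 a
    have c4 := hg4 b
    have c5 := hg2 a b
    have c6 := hg2 b a
    have c7 := hg3 a b
    have c8 := hg3 b a
    omega

/-- bad event -/
def Bad5c {n : ℕ} (K m : ℕ) (v w : Fin n) (G : Gr n) : Prop :=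
  Ev5 K G ∧ m * (4 * (8 * K)) ≤ nC5 G v w

theorem T3_one (h : Stmt_DO) {n d m K : ℕ} (hn : 64 ≤ n) (hd : 64 * d ≤ n) (hm : 128 * m ≤ n * d)
    (hK : 0 < K) (v w : Fin n) (hvw : v ≠ w) :
    (((Reg n d).filter fun G => Bad5c K m v w G).card : ℝ) * (m.factorial : ℝ) ≤
      (16 * lam n d) ^ m * ((Reg n d).card : ℝ) := by
  have h1 := DO_conf h hn hd (I5 v w) (E5 v w) m 4 (8 * K) (by positivity)
    (by
      intro t ht
      rw [mem_I5] at ht
      have hc := E5_card hvw ht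
      refine ⟨?_, hc.le, E5_not_diag ht⟩
      rw [← card_pos, hc]
      norm_num)
    (by omega) (Ev5 K) (fun G _ hG e => I5_conf hG e)
  have hsub : ((Reg n d).filter fun G => Bad5c K m v w G) ⊆ ((Reg n d).filter fun G =>
      Ev5 K G ∧ m * (4 * (8 * K)) ≤ ((I5 v w).filter fun t => E5 v w t ⊆ ed G).card) := by
    intro G hG
    rw [mem_filter] at hG
    exact mem_filter.2 ⟨hG.1, hG.2.1, hG.2.2.trans nC5_le⟩
  refine (mul_le_mul_of_nonneg_right (Nat.cast_le.2 (card_le_card hsub)) (by positivity)).trans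
    (h1.trans (mul_le_mul_of_nonneg_right (pow_le_pow_left₀ (by positivity) ?_ m)
    (by positivity)))
  have e2 : ∑ t ∈ I5 v w, (2 * (d : ℝ) / n) ^ (E5 v w t).card =
      ∑ t ∈ I5 v w, (2 * (d : ℝ) / n) ^ 4 := by
    refine sum_congr rfl fun t ht => ?_
    rw [mem_I5] at ht
    rw [E5_card hvw ht]
  rw [e2, sum_const, nsmul_eq_mul]
  have h3 : ((I5 v w).card : ℝ) ≤ (n : ℝ) ^ 3 := by
    have : (I5 v w).card ≤ n ^ 3 := by
      refine (card_le_univ _).trans (le_of_eq ?_)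
      simp only [Fintype.card_prod, Fintype.card_fin]
      ring
    exact_mod_cast this
  have hn0 : (0 : ℝ) < n := by
    have : 0 < n := by omega
    exact_mod_cast this
  calc ((I5 v w).card : ℝ) * (2 * (d : ℝ) / n) ^ 4 ≤ (n : ℝ) ^ 3 * (2 * (d : ℝ) / n) ^ 4 :=
        mul_le_mul_of_nonneg_right h3 (by positivity)
    _ = 16 * lam n d := by
        unfold lam
        field_simp
        ring

theorem nC5_ge_of_five {n d : ℕ} {c : ℝ} {G : Gr n} (h : FiveLow c n d G) {v u : Fin n}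
    (hvu : G.Adj v u) : c * lam n d ≤ nC5 G v u := by
  refine (h v u hvu).trans (Nat.cast_le.2 ?_)
  unfold nC5
  set Y := univ.filter fun y : Fin n =>
      y ≠ v ∧ y ≠ u ∧ ¬ G.Adj v y ∧ ¬ G.Adj u y ∧
      (∃ a, G.Adj v a ∧ a ≠ u ∧ ¬ G.Adj u a ∧ G.Adj a y) ∧
      (∃ z, G.Adj u z ∧ z ≠ v ∧ ¬ G.Adj v z ∧ G.Adj z y) with hY
  have hch : ∀ y, ∃ p : Fin n × Fin n, y ∈ Y → C5 G v u p.2 y p.1 := by
    intro y
    by_cases hy : y ∈ Y
    · have hy' := hy
      rw [hY, mem_filter] at hy'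
      obtain ⟨_, h1, h2, h3, h4, ⟨a, a1, a2, a3, a4⟩, ⟨z, z1, z2, z3, z4⟩⟩ := hy'
      refine ⟨(a, z), fun _ => ⟨hvu, z1, z4, a4.symm, a1.symm, z2.symm, h1.symm, h2.symm, a2.symm, ?_⟩⟩
      intro he
      have he' : z = a := he
      exact z3 (he' ▸ a1)
    · exact ⟨(v, v), fun h => absurd h hy⟩
  choose f hf using hch
  refine card_le_card_of_injOn (fun y => ((f y).2, y, (f y).1)) ?_ ?_
  · intro y hy
    simp only [coe_filter, mem_univ, true_and, Set.mem_ofPred_eq]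
    exact hf y hy
  · intro y _ y' _ hyy
    simp only [Prod.mk.injEq] at hyy
    exact hyy.2.1

def Imp3 {n : ℕ} (K d : ℕ) (C : ℝ) (G : Gr n) : Prop :=
  Ev5 K G → ∀ v w, v ≠ w → (nC5 G v w : ℝ) ≤ C * lam n d

theorem log_le_rpow_nat {s : ℝ} (hs : 0 < s) : ∃ n₀ : ℕ, ∀ n : ℕ, n₀ ≤ n →
    3 * Real.log n ≤ (n : ℝ) ^ s := by
  have h1 : Tendsto (fun n : ℕ => (n : ℝ)) atTop atTop := tendsto_natCast_atTop_atTop
  have h2 := ((isLittleO_log_rpow_atTop hs).comp_tendsto h1).def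
    (show (0 : ℝ) < 1 / 3 by norm_num)
  obtain ⟨n₀, hn₀⟩ := eventually_atTop.1 h2
  refine ⟨max 1 n₀, fun n hn => ?_⟩
  have h3 := hn₀ n ((le_max_right _ _).trans hn)
  simp only [Function.comp_apply, Real.norm_eq_abs] at h3
  have hn1 : 1 ≤ n := (le_max_left _ _).trans hn
  have hlog : 0 ≤ Real.log n := Real.log_nonneg (by exact_mod_cast hn1)
  have hp : (0 : ℝ) ≤ (n : ℝ) ^ s := by positivity
  rw [abs_of_nonneg hlog, abs_of_nonneg hp] at h3
  linarith

theorem lam_ge {n d : ℕ} {ε : ℝ} (hn : 1 ≤ n) (h : (n : ℝ) ^ (1 / 4 + ε) ≤ d) :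
    (n : ℝ) ^ (4 * ε) ≤ lam n d := by
  have hn0 : (0 : ℝ) < n := by exact_mod_cast hn
  unfold lam
  rw [le_div_iff₀ hn0]
  calc (n : ℝ) ^ (4 * ε) * n = ((n : ℝ) ^ (1 / 4 + ε)) ^ 4 := by
        rw [← Real.rpow_natCast, ← Real.rpow_mul hn0.le]
        nth_rewrite 2 [← Real.rpow_one (n : ℝ)]
        rw [← Real.rpow_add hn0]
        congr 1
        push_cast
        ring
    _ ≤ (d : ℝ) ^ 4 := pow_le_pow_left₀ (by positivity) h 4

theorem T3_proof (h : Stmt_DO) (hc : Stmt_Codeg) (h2 : Stmt_T2) (h5 : Stmt_FiveLow) : Stmt_T3 := by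
  intro ε ε₀ hε hε₀
  obtain ⟨K₁, hK₁⟩ := hc (1 / 6) (by norm_num)
  obtain ⟨K₂, hK₂⟩ := h2 ε₀ hε₀
  obtain ⟨c, hc0, hfive⟩ := h5 (min ε (1 / 6)) (by positivity)
  set K := K₁ + K₂ + 1 with hK
  have hK0 : 0 < K := by omega
  refine ⟨c, 32 * K * (16 * Real.exp 2 + 1), hc0, by positivity, ?_⟩
  have hT1 : Whp (RegC ε ε₀) (fun _ _ G => T1 K G) := by
    refine hK₁.mono ⟨1, fun n hn d hd => d_le_rpow_third hn hε₀ hd.2⟩ ⟨0, fun _ _ _ _ G _ h => ?_⟩
    exact fun u v huv => (h u v huv).trans (by omega)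
  have hT2 : Whp (RegC ε ε₀) (fun _ _ G => T2 K G) := by
    refine hK₂.mono ⟨1, fun n hn d hd => hd.2⟩ ⟨0, fun _ _ _ _ G _ h => ?_⟩
    exact fun u v huv => (h u v huv).trans (by omega)
  have hF : Whp (RegC ε ε₀) (fun n d G => FiveLow c n d G) := by
    refine hfive.mono ⟨1, fun n hn d hd => ⟨?_, ?_⟩⟩ ⟨0, fun _ _ _ _ G _ h => h⟩
    · refine le_trans (Real.rpow_le_rpow_of_exponent_le (by exact_mod_cast hn) ?_) hd.1
      have := min_le_left ε (1 / 6)
      linarith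
    · refine (d_le_rpow_third hn hε₀ hd.2).trans
        (Real.rpow_le_rpow_of_exponent_le (by exact_mod_cast hn) ?_)
      have := min_le_right ε (1 / 6)
      linarith
  have hmain : Whp (RegC ε ε₀) (fun _ d G => Imp3 K d (32 * K * (16 * Real.exp 2 + 1)) G) := by
    apply Whp.of_bound (fun n => (n : ℝ)⁻¹)
    · exact tendsto_inv_atTop_nhds_zero_nat
    · obtain ⟨n₁, hn₁⟩ := log_le_rpow_nat (s := 4 * ε) (by positivity)
      obtain ⟨n₂, hn₂⟩ := exists_nat_ge ((128 * (16 * Real.exp 2 + 1)) ^ 3 : ℝ)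
      refine ⟨max 512 (max n₁ n₂), fun n hn d hd => ?_⟩
      have a1 : 512 ≤ n := (le_max_left _ _).trans hn
      have a2 : n₁ ≤ n := (le_max_left _ _).trans ((le_max_right _ _).trans hn)
      have a3 : n₂ ≤ n := (le_max_right _ _).trans ((le_max_right _ _).trans hn)
      have hn0 : (0 : ℝ) < n := by
        have : 0 < n := by omega
        exact_mod_cast this
      have hn1 : (1 : ℝ) ≤ n := by
        have : 1 ≤ n := by omega
        exact_mod_cast this
      have hcube := cube_le_of_rpow (by omega) hε₀ hd.2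
      have h64 := d_small_of_cube a1 hcube
      have hlam := lam_ge (by omega) hd.1
      have hlam1 : 1 ≤ lam n d := le_trans (Real.one_le_rpow hn1 (by positivity)) hlam
      have hlogn := (hn₁ n a2).trans hlam
      have hd1 : (1 : ℝ) ≤ d := le_trans (Real.one_le_rpow hn1 (by positivity)) hd.1
      have hd4 : 128 * (16 * Real.exp 2 + 1) * (d : ℝ) ^ 4 ≤ (n : ℝ) ^ 2 := by
        refine d_pow_four _ (by positivity) hcube ?_ (by omega)
        have : (n₂ : ℝ) ≤ n := by exact_mod_cast a3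
        nlinarith
      set m := ⌈16 * Real.exp 2 * lam n d⌉₊ with hm
      have hm1 : 16 * Real.exp 2 * lam n d ≤ m := Nat.le_ceil _
      have hm2 : (m : ℝ) < 16 * Real.exp 2 * lam n d + 1 := Nat.ceil_lt_add_one (by positivity)
      have hm3 : (m : ℝ) ≤ (16 * Real.exp 2 + 1) * lam n d := by nlinarith
      have hmd : 128 * m ≤ n * d := by
        have e1 : 128 * (16 * Real.exp 2 + 1) * lam n d ≤ n := by
          unfold lam
          rw [← mul_div_assoc, div_le_iff₀ hn0]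
          calc _ ≤ (n : ℝ) ^ 2 := hd4
            _ = _ := by ring
        have : (128 * m : ℝ) ≤ n * d := by nlinarith
        exact_mod_cast this
      have hpair : ∀ v w : Fin n, v ≠ w → (((Reg n d).filter fun G => Bad5c K m v w G).card : ℝ) ≤
          (n : ℝ) ^ (-(3 : ℝ)) * (Reg n d).card := by
        intro v w hvw
        have hone := T3_one h (m := m) (K := K) (by omega) h64 hmd hK0 v w hvw
        have hfac := pow_le_exp_neg_mul_factorial (μ := 16 * lam n d) (m := m)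
          (by positivity) (by
            refine le_trans (le_of_eq ?_) hm1
            ring)
        have hf0 : (0 : ℝ) < m.factorial := by positivity
        have h5 : (((Reg n d).filter fun G => Bad5c K m v w G).card : ℝ) * (m.factorial : ℝ) ≤
            (Real.exp (-(m : ℝ)) * (Reg n d).card) * (m.factorial : ℝ) := by
          refine hone.trans ?_
          calc _ ≤ (Real.exp (-(m : ℝ)) * (m.factorial : ℝ)) * (Reg n d).card :=
                mul_le_mul_of_nonneg_right hfac (by positivity)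
            _ = _ := by ring
        have h6 := le_of_mul_le_mul_right h5 hf0
        refine h6.trans (mul_le_mul_of_nonneg_right ?_ (by positivity))
        rw [Real.rpow_def_of_pos hn0]
        apply Real.exp_le_exp.2
        have e2 : 1 ≤ Real.exp 2 := Real.one_le_exp (by norm_num)
        nlinarith
      refine (pair_union (Bad5c K m) _ _ (by positivity) hpair ?_).trans (le_of_eq ?_)
      · intro G _ hG
        unfold Imp3 at hG
        push Not at hG
        obtain ⟨hE, v, w, hvw, hlt⟩ := hG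
        refine ⟨v, w, hvw, hE, ?_⟩
        have : ((m * (4 * (8 * K)) : ℕ) : ℝ) ≤ nC5 G v w := by
          push_cast
          refine le_trans ?_ hlt.le
          have hK' : (0 : ℝ) ≤ 32 * K := by positivity
          calc (m : ℝ) * (4 * (8 * K)) = 32 * K * m := by ring
            _ ≤ 32 * K * ((16 * Real.exp 2 + 1) * lam n d) := mul_le_mul_of_nonneg_left hm3 hK'
            _ = _ := by ring
        exact_mod_cast this
      · congr 1
        rw [← Real.rpow_natCast, ← Real.rpow_add hn0]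
        norm_num
        rw [Real.rpow_neg_one]
  refine (((hT1.and hT2).and hF).and hmain).mono ⟨0, fun _ _ _ h => h⟩ ⟨0, fun _ _ _ _ _ _ h => ?_⟩
  obtain ⟨⟨⟨t1, t2⟩, hf⟩, hi⟩ := h
  intro v w hvw
  exact ⟨nC5_ge_of_five hf hvw, hi ⟨t1, t2⟩ v w hvw.ne⟩

end Pool.Agent.RRG
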