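import Pool.Agent.RRG.T45Aux

/-!
# T4 (MP_d15a9b_pr)
-/

open Finset Filter Topology
open scoped Classical

namespace Pool.Agent.RRG

namespace T4mod

/-- first four edges of a configuration -/
def B4 {n : ℕ} (v u : Fin n) (x : Fin n × Fin n × Fin n) : Finset (Sym2 (Fin n)) :=
  {s(v, x.1), s(x.1, x.2.1), s(x.2.1, x.2.2), s(x.2.2, u)}

/-- last three edges of a configuration -/
def P4 {n : ℕ} (u' c : Fin n) (y : Fin n × Fin n) : Finset (Sym2 (Fin n)) :=
  {s(c, y.1), s(y.1, y.2), s(y.2, u')}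

/-- all seven edges -/
def E4 {n : ℕ} (v u u' : Fin n) (t : (Fin n × Fin n × Fin n) × (Fin n × Fin n)) :
    Finset (Sym2 (Fin n)) := B4 v u t.1 ∪ P4 u' t.1.1 t.2

/-- admissible first parts -/
def C4 {n : ℕ} (v u u' : Fin n) : Finset (Fin n × Fin n × Fin n) :=
  univ.filter fun x => x.1 ≠ v ∧ x.1 ≠ x.2.1 ∧ x.1 ≠ x.2.2 ∧ x.1 ≠ u ∧ x.2.1 ≠ x.2.2 ∧ x.2.1 ≠ u ∧
    x.2.2 ≠ u ∧ x.2.1 ≠ v ∧ x.2.2 ≠ v ∧ x.1 ≠ u'

/-- admissible second parts -/
def D4 {n : ℕ} (v u' c : Fin n) : Finset (Fin n × Fin n) :=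
  univ.filter fun y => c ≠ y.1 ∧ c ≠ y.2 ∧ y.1 ≠ y.2 ∧ y.1 ≠ u' ∧ y.2 ≠ u' ∧ y.1 ≠ v ∧ y.2 ≠ v

/-- admissible configurations -/
def I4 {n : ℕ} (v u u' : Fin n) : Finset ((Fin n × Fin n × Fin n) × (Fin n × Fin n)) :=
  (C4 v u u' ×ˢ univ).filter fun t => t.2 ∈ D4 v u' t.1.1

theorem B4_card {n : ℕ} {v u u' : Fin n} (_hu : u ≠ v) {x : Fin n × Fin n × Fin n}
    (hx : x ∈ C4 v u u') : (B4 v u x).card = 4 := by
  obtain ⟨c, a, b⟩ := x
  simp only [C4, mem_filter, mem_univ, true_and] at hx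
  obtain ⟨h1, h2, h3, h4, h5, h6, h7, h8, h9, h10⟩ := hx
  simp only [B4]
  rw [card_insert_of_notMem, card_insert_of_notMem, card_insert_of_notMem, card_singleton]
  · simp only [mem_singleton, Sym2.eq_iff]; grind
  · simp only [mem_insert, mem_singleton, Sym2.eq_iff]; grind
  · simp only [mem_insert, mem_singleton, Sym2.eq_iff]; grind

theorem not_sub {n : ℕ} {v u u' : Fin n} (huu : u ≠ u') (_hu : u ≠ v) (hu' : u' ≠ v)
    {x : Fin n × Fin n × Fin n} (hx : x ∈ C4 v u u') {y : Fin n × Fin n} (hy : y ∈ D4 v u' x.1) :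
    ¬ P4 u' x.1 y ⊆ B4 v u x := by
  obtain ⟨c, a, b⟩ := x
  obtain ⟨a', b'⟩ := y
  simp only [C4, D4, mem_filter, mem_univ, true_and] at hx hy
  obtain ⟨h1, h2, h3, h4, h5, h6, h7, h8, h9, h10⟩ := hx
  obtain ⟨g1, g2, g3, g4, g5, g6, g7⟩ := hy
  intro hsub
  have k1 := hsub (show s(c, a') ∈ P4 u' c (a', b') by simp [P4])
  have k2 := hsub (show s(a', b') ∈ P4 u' c (a', b') by simp [P4])
  have k3 := hsub (show s(b', u') ∈ P4 u' c (a', b') by simp [P4])
  simp only [B4, mem_insert, mem_singleton, Sym2.eq_iff] at k1 k2 k3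
  grind

theorem sum_bound (hPS : Stmt_PS) {n d : ℕ} {v u u' : Fin n} (huu : u ≠ u') (hu : u ≠ v)
    (hu' : u' ≠ v) :
    ∑ t ∈ I4 v u u', (2 * (d : ℝ) / n) ^ (E4 v u u' t).card
      ≤ (n : ℝ) ^ 3 * (2 * (d : ℝ) / n) ^ 4 * T45.Gam n (2 * (d : ℝ) / n) := by
  set w : ℝ := 2 * (d : ℝ) / n with hw
  have hw0 : 0 ≤ w := by positivity
  have h1 : ∑ t ∈ I4 v u u', w ^ (E4 v u u' t).card
      = ∑ x ∈ C4 v u u', ∑ y ∈ D4 v u' x.1, w ^ (E4 v u u' (x, y)).card := by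
    unfold I4
    rw [sum_filter, sum_product]
    refine sum_congr rfl fun x _ => ?_
    rw [← sum_filter]
    refine sum_congr ?_ fun _ _ => rfl
    ext y; simp
  rw [h1]
  have h2 : ∀ x ∈ C4 v u u', ∑ y ∈ D4 v u' x.1, w ^ (E4 v u u' (x, y)).card
      ≤ w ^ 4 * T45.Gam n w := by
    intro x hx
    have hB := B4_card hu hx
    have hPSx := hPS n w hw0 x.1 u' (by
      simp only [C4, mem_filter, mem_univ, true_and] at hx; tauto) (B4 v u x) (by omega)
    calc ∑ y ∈ D4 v u' x.1, w ^ (E4 v u u' (x, y)).card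
        = ∑ y ∈ D4 v u' x.1, w ^ 4 * w ^ ((P4 u' x.1 y) \ (B4 v u x)).card := by
          refine sum_congr rfl fun y _ => ?_
          rw [← pow_add]
          congr 1
          unfold E4
          rw [union_comm, ← sdiff_union_self_eq_union, card_union_of_disjoint sdiff_disjoint, hB]
          simp only
          omega
      _ = w ^ 4 * ∑ y ∈ D4 v u' x.1, w ^ ((P4 u' x.1 y) \ (B4 v u x)).card := by rw [mul_sum]
      _ ≤ w ^ 4 * T45.Gam n w := by
          refine mul_le_mul_of_nonneg_left ?_ (by positivity)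
          refine le_trans ?_ hPSx
          refine sum_le_sum_of_subset_of_nonneg ?_ (fun _ _ _ => by positivity)
          intro y hy
          have hns := not_sub huu hu hu' hx hy
          simp only [D4, mem_filter, mem_univ, true_and] at hy
          simp only [mem_filter, mem_univ, true_and]
          exact ⟨hy.1, hy.2.1, hy.2.2.1, hy.2.2.2.1, hy.2.2.2.2.1, hns⟩
  calc ∑ x ∈ C4 v u u', ∑ y ∈ D4 v u' x.1, w ^ (E4 v u u' (x, y)).card
      ≤ ∑ _x ∈ C4 v u u', w ^ 4 * T45.Gam n w := sum_le_sum h2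
    _ = (C4 v u u').card * (w ^ 4 * T45.Gam n w) := by rw [sum_const, nsmul_eq_mul]
    _ ≤ (n : ℝ) ^ 3 * (w ^ 4 * T45.Gam n w) := by
        refine mul_le_mul_of_nonneg_right ?_ (mul_nonneg (by positivity) (by unfold T45.Gam; positivity))
        have : (C4 v u u').card ≤ n ^ 3 := by
          refine (card_le_univ _).trans (le_of_eq ?_)
          simp [Fintype.card_prod]; ring
        exact_mod_cast this
    _ = _ := by ring

/-- the `c` that can be in conflict through a vertex `x ≠ v` -/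
noncomputable def F4 {n : ℕ} (G : Gr n) (v x : Fin n) : Finset (Fin n) :=
  (univ.filter fun t : Fin n × Fin n => P3 G v t.1 t.2 x).image Prod.fst

theorem conflict {n K : ℕ} {G : Gr n} (h1 : T1 K G) (h2 : T2 K G) {v u u' : Fin n} (hu : u ≠ v)
    (hu' : u' ≠ v) (W : Finset (Fin n)) (a b a' b' : Fin n → Fin n)
    (hW : ∀ c ∈ W, G.Adj v c ∧ (P3 G c (a c) (b c) u ∧ a c ≠ v ∧ b c ≠ v) ∧
      (P3 G c (a' c) (b' c) u' ∧ a' c ≠ v ∧ b' c ≠ v)) (e : Sym2 (Fin n)) :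
    (W.filter fun c => e ∈ E4 v u u' ((c, a c, b c), (a' c, b' c))).card ≤ 4 * K + 2 := by
  induction e using Sym2.inductionOn with
  | _ x y =>
  by_cases hxy : x = v ∨ y = v
  · have hsub : (W.filter fun c => s(x, y) ∈ E4 v u u' ((c, a c, b c), (a' c, b' c)))
        ⊆ {x, y} := by
      intro c hc
      rw [mem_filter] at hc
      obtain ⟨hcW, hc⟩ := hc
      obtain ⟨q0, ⟨q1, q2, q3⟩, ⟨q4, q5, q6⟩⟩ := hW c hcW
      have q7 := q0.ne
      simp only [E4, B4, P4, mem_union, mem_insert, mem_singleton, Sym2.eq_iff] at hc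
      simp only [mem_insert, mem_singleton]
      grind
    refine (card_le_card hsub).trans (card_le_two.trans (by omega))
  · push Not at hxy
    obtain ⟨hx, hy⟩ := hxy
    have hsub : (W.filter fun c => s(x, y) ∈ E4 v u u' ((c, a c, b c), (a' c, b' c)))
        ⊆ {x, y} ∪ ((nb G x ∩ nb G v) ∪ ((nb G y ∩ nb G v) ∪ (F4 G v x ∪ F4 G v y))) := by
      intro c hc
      rw [mem_filter] at hc
      obtain ⟨hcW, hc⟩ := hc
      obtain ⟨q0, ⟨q1, q2, q3⟩, ⟨q4, q5, q6⟩⟩ := hW c hcW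
      have hP : ∀ z α β, P3 G c α β z → α ≠ v → β ≠ v → P3 G v c α β := by
        intro z α β hP hα hβ
        exact ⟨q0, hP.1, hP.2.1, hα.symm, hβ.symm, hP.2.2.2.1⟩
      have hF : ∀ z α β, P3 G c α β z → α ≠ v → β ≠ v → c ∈ F4 G v β := by
        intro z α β hP' hα hβ
        simp only [F4, mem_image, mem_filter, mem_univ, true_and]
        exact ⟨(c, α), hP z α β hP' hα hβ, rfl⟩
      have hN : ∀ z α β, P3 G c α β z → c ∈ nb G α ∩ nb G v := by
        intro z α β hP'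
        simp only [mem_inter, mem_nb]
        exact ⟨hP'.1.symm, q0⟩
      have f1 := hF _ _ _ q1 q2 q3
      have f2 := hF _ _ _ q4 q5 q6
      have g1 := hN _ _ _ q1
      have g2 := hN _ _ _ q4
      simp only [E4, B4, P4, mem_union, mem_insert, mem_singleton, Sym2.eq_iff] at hc
      simp only [mem_union, mem_insert, mem_singleton]
      rcases hc with (((h | h) | (h | h) | (h | h) | (h | h)) | (h | h) | (h | h) | (h | h)) <;>
        obtain ⟨e1, e2⟩ := h <;> first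
          | exact absurd e1 (by assumption)
          | exact absurd e2 (by assumption)
          | (left; left; exact e1.symm)
          | (left; right; exact e2.symm)
          | (right; left; rw [e1]; assumption)
          | (right; right; left; rw [e2]; assumption)
          | (right; right; right; left; rw [e1]; assumption)
          | (right; right; right; right; rw [e2]; assumption)
    have hFc : ∀ z, z ≠ v → (F4 G v z).card ≤ K := fun z hz =>
      card_image_le.trans (h2 v z hz.symm)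
    refine (card_le_card hsub).trans ?_
    refine (card_union_le _ _).trans ?_
    have c1 : ({x, y} : Finset (Fin n)).card ≤ 2 := card_le_two
    have c2 := h1 x v hx
    have c3 := h1 y v hy
    have c4 := hFc x hx
    have c5 := hFc y hy
    have c6 := card_union_le (nb G x ∩ nb G v) ((nb G y ∩ nb G v) ∪ (F4 G v x ∪ F4 G v y))
    have c7 := card_union_le (nb G y ∩ nb G v) (F4 G v x ∪ F4 G v y)
    have c8 := card_union_le (F4 G v x) (F4 G v y)
    omega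

theorem one (hDO : Stmt_DO) (hPS : Stmt_PS) {n d K m : ℕ} {L κ : ℝ} (hκ : κ = 7 * (4 * K + 2))
    (hm : m = ⌊L / κ⌋₊) (hL : 0 ≤ L) (hn : 64 ≤ n) (hd : 64 * d ≤ n) (hm0 : 0 < m)
    (hm1 : 32 * (m * 7) ≤ n * d) {v u u' : Fin n} (huu : u ≠ u') (hu : u ≠ v) (hu' : u' ≠ v)
    (S : Finset (Gr n)) (hS : S ⊆ Reg n d)
    (hT : ∀ G ∈ S, T1 K G ∧ T2 K G ∧
      L < (((nb G v).filter fun c => J3 G v c u ∧ J3 G v c u').card : ℝ)) :
    (S.card : ℝ) ≤ (Real.exp 1 * ((n : ℝ) ^ 3 * (2 * (d : ℝ) / n) ^ 4 *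
      T45.Gam n (2 * (d : ℝ) / n)) / m) ^ m * (Reg n d).card := by
  refine DOUse.apply hDO hn hd (I4 v u u') (E4 v u u') 7 (4 * K + 2) m _ (by positivity) hm0
    ?_ ?_ ?_ (sum_bound hPS huu hu hu') hm1 S hS ?_
  · intro t ht
    unfold E4
    refine (card_union_le _ _).trans ?_
    have h1 : (B4 v u t.1).card ≤ 4 := by unfold B4; exact card_le_four
    have h2 : (P4 u' t.1.1 t.2).card ≤ 3 := by unfold P4; exact card_le_three
    omega
  · rintro ⟨⟨c, a, b⟩, a', b'⟩ ht e he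
    simp only [I4, C4, D4, mem_filter, mem_product, mem_univ, true_and, and_true] at ht
    simp only [E4, B4, P4, mem_union, mem_insert, mem_singleton] at he
    obtain ⟨⟨h1, h2, h3, h4, h5, h6, h7, h8, h9, h10⟩, g1, g2, g3, g4, g5, g6, g7⟩ := ht
    rcases he with (rfl | rfl | rfl | rfl) | rfl | rfl | rfl <;>
      simp only [Sym2.mk_isDiag_iff] <;> tauto
  · rintro ⟨⟨c, a, b⟩, a', b'⟩ _
    exact ⟨s(v, c), by simp [E4, B4]⟩
  · intro G hG
    obtain ⟨t1, t2, hcard⟩ := hT G hG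
    set W0 := (nb G v).filter fun c => J3 G v c u ∧ J3 G v c u' with hW0
    have hex : ∀ c, ∃ q : (Fin n × Fin n) × (Fin n × Fin n), c ∈ W0 →
        (P3 G c q.1.1 q.1.2 u ∧ q.1.1 ≠ v ∧ q.1.2 ≠ v) ∧
        (P3 G c q.2.1 q.2.2 u' ∧ q.2.1 ≠ v ∧ q.2.2 ≠ v) := by
      intro c
      by_cases hc : c ∈ W0
      · rw [hW0, mem_filter] at hc
        obtain ⟨_, ⟨a, b, p1, p2, p3⟩, ⟨a', b', p4, p5, p6⟩⟩ := hc
        exact ⟨((a, b), (a', b')), fun _ => ⟨⟨p1, p2, p3⟩, ⟨p4, p5, p6⟩⟩⟩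
      · exact ⟨((v, v), (v, v)), fun h => absurd h hc⟩
    choose q hq using hex
    set f : Fin n → (Fin n × Fin n × Fin n) × (Fin n × Fin n) :=
      fun c => ((c, (q c).1.1, (q c).1.2), ((q c).2.1, (q c).2.2)) with hf
    have hfinj : Function.Injective f := by
      intro c c' h
      simp only [hf, Prod.mk.injEq] at h
      exact h.1.1
    have hWc : ∀ c ∈ W0, G.Adj v c ∧ (P3 G c (q c).1.1 (q c).1.2 u ∧ (q c).1.1 ≠ v ∧ (q c).1.2 ≠ v) ∧
        (P3 G c (q c).2.1 (q c).2.2 u' ∧ (q c).2.1 ≠ v ∧ (q c).2.2 ≠ v) := by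
      intro c hc
      refine ⟨?_, hq c hc⟩
      rw [hW0, mem_filter, mem_nb] at hc
      exact hc.1
    refine ⟨W0.image f, ?_, ?_, ?_, ?_⟩
    · intro t ht
      rw [mem_image] at ht
      obtain ⟨c, hc, rfl⟩ := ht
      obtain ⟨q0, ⟨q1, q2, q3⟩, ⟨q4, q5, q6⟩⟩ := hWc c hc
      obtain ⟨r1, r2, r3, r4, r5, r6⟩ := q1
      obtain ⟨s1, s2, s3, s4, s5, s6⟩ := q4
      simp only [I4, C4, D4, mem_filter, mem_product, mem_univ, true_and, and_true, hf]
      exact ⟨⟨q0.ne', r1.ne, r4, r5, r2.ne, r6, r3.ne, q2, q3, s5⟩,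
        s1.ne, s4, s2.ne, s6, s3.ne, q5, q6⟩
    · intro t ht
      rw [mem_image] at ht
      obtain ⟨c, hc, rfl⟩ := ht
      obtain ⟨q0, ⟨q1, q2, q3⟩, ⟨q4, q5, q6⟩⟩ := hWc c hc
      obtain ⟨r1, r2, r3, r4, r5, r6⟩ := q1
      obtain ⟨s1, s2, s3, s4, s5, s6⟩ := q4
      intro e he
      simp only [E4, B4, P4, mem_union, mem_insert, mem_singleton, hf] at he
      rcases he with (rfl | rfl | rfl | rfl) | rfl | rfl | rfl <;> rw [mk_mem_ed] <;> assumption
    · intro e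
      have h3 := conflict t1 t2 hu hu' W0 _ _ _ _ hWc e
      refine le_trans (le_of_eq ?_) h3
      rw [filter_image, card_image_of_injective _ hfinj]
    · rw [card_image_of_injective _ hfinj]
      have hκ0 : 0 < κ := by rw [hκ]; positivity
      have h4 : (m : ℝ) ≤ L / κ := by rw [hm]; exact Nat.floor_le (by positivity)
      have h5 : (m : ℝ) * κ ≤ L := (le_div_iff₀ hκ0).1 h4
      have h6 : (m : ℝ) * (7 * (4 * K + 2)) < W0.card := by rw [← hκ]; linarith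
      have h7 : m * (7 * (4 * K + 2)) < W0.card := by exact_mod_cast h6
      exact h7.le

end T4mod

theorem T4_proof (hDO : Stmt_DO) (hPS : Stmt_PS) (hCod : Stmt_Codeg) (hT2 : Stmt_T2) : Stmt_T4 := by
  intro ε ε₀ hε hε₀
  obtain ⟨K1, w1⟩ := hCod (1 / 6) (by norm_num)
  obtain ⟨K2, w2⟩ := hT2 ε₀ hε₀
  set K := max K1 K2 with hK
  set κ : ℝ := 7 * (4 * K + 2) with hκ
  have hκ7 : 7 ≤ κ := by
    have : (0 : ℝ) ≤ K := by positivity
    rw [hκ]; nlinarith
  obtain ⟨c, hc, n₀, hmain⟩ := T45.tail ε ε₀ κ hε hε₀ hκ7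
  refine ⟨c, hc, ?_⟩
  have w1' : Whp (RegC ε ε₀) (fun _ _ G => T1 K G) :=
    w1.mono ⟨1, fun n hn d hd => T45.RegC_le hε₀ hn hd⟩
      ⟨0, fun _ _ _ _ _ _ h u v huv => (h u v huv).trans (le_max_left _ _)⟩
  have w2' : Whp (RegC ε ε₀) (fun _ _ G => T2 K G) :=
    w2.mono ⟨0, fun n _ d hd => hd.2⟩
      ⟨0, fun _ _ _ _ _ _ h u v huv => (h u v huv).trans (le_max_right _ _)⟩
  have w3 : Whp (RegC ε ε₀) (fun n d G => T1 K G ∧ T2 K G → T4 ((n : ℝ) ^ (-c) * lam n d) G) := by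
    refine Whp.of_bound (fun n => (n : ℝ) ^ 3 * (n : ℝ) ^ (-4 : ℝ)) T45.tend3 ⟨max n₀ 1, fun n hn d hd => ?_⟩
    obtain ⟨a1, a2, a3, a4, a5⟩ := hmain n (le_trans (le_max_left _ _) hn) d hd
    set L := (n : ℝ) ^ (-c) * lam n d with hL
    have hL0 : 0 ≤ L := by rw [hL]; unfold lam; positivity
    set Sf : Fin n × Fin n × Fin n → Finset (Gr n) := fun t => (Reg n d).filter fun G =>
      t.2.1 ≠ t.2.2 ∧ t.2.1 ≠ t.1 ∧ t.2.2 ≠ t.1 ∧ T1 K G ∧ T2 K G ∧
        L < (((nb G t.1).filter fun c => J3 G t.1 c t.2.1 ∧ J3 G t.1 c t.2.2).card : ℝ) with hSf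
    have hb : ∀ t, ((Sf t).card : ℝ) ≤ (n : ℝ) ^ (-4 : ℝ) * (Reg n d).card := by
      rintro ⟨v, u, u'⟩
      by_cases hne : u ≠ u' ∧ u ≠ v ∧ u' ≠ v
      · refine (T4mod.one hDO hPS hκ rfl hL0 a1 a2 a3 a4 hne.1 hne.2.1 hne.2.2 (Sf (v, u, u'))
          (filter_subset _ _) ?_).trans (mul_le_mul_of_nonneg_right a5 (by positivity))
        intro G hG
        rw [hSf, mem_filter] at hG
        exact ⟨hG.2.2.2.2.1, hG.2.2.2.2.2.1, hG.2.2.2.2.2.2⟩
      · have : Sf (v, u, u') = ∅ := by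
          rw [hSf, filter_eq_empty_iff]
          intro G _ hG
          exact hne ⟨hG.1, hG.2.1, hG.2.2.1⟩
        rw [this]
        simp only [card_empty, Nat.cast_zero]
        positivity
    have hsub : ∀ G, G ∈ Reg n d → ¬ (T1 K G ∧ T2 K G → T4 L G) → G ∈ univ.biUnion Sf := by
      intro G hGR hG
      rw [Classical.not_imp] at hG
      obtain ⟨⟨b1, b2⟩, b3⟩ := hG
      unfold T4 at b3
      push Not at b3
      obtain ⟨v, u, u', c1, c2, c3, c4⟩ := b3
      rw [mem_biUnion]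
      refine ⟨(v, u, u'), mem_univ _, ?_⟩
      rw [hSf, mem_filter]
      exact ⟨hGR, c1, c2, c3, b1, b2, c4⟩
    refine le_trans (b := ((univ.biUnion Sf).card : ℝ)) ?_ ?_
    · refine Nat.cast_le.2 (card_le_card ?_)
      intro G hG
      simp only [mem_filter] at hG
      exact hsub G hG.1 hG.2
    calc ((univ.biUnion Sf).card : ℝ) ≤ ∑ t, ((Sf t).card : ℝ) := by exact_mod_cast card_biUnion_le
      _ ≤ ∑ _t : Fin n × Fin n × Fin n, (n : ℝ) ^ (-4 : ℝ) * (Reg n d).card :=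
          sum_le_sum fun t _ => hb t
      _ = (n : ℝ) ^ 3 * (n : ℝ) ^ (-4 : ℝ) * (Reg n d).card := by
          rw [sum_const, nsmul_eq_mul]
          simp [Fintype.card_prod]; ring
  refine (w1'.and (w2'.and w3)).mono ⟨0, fun _ _ _ h => h⟩ ⟨0, fun n _ d _ G _ h => ?_⟩
  exact h.2.2 ⟨h.1, h.2.1⟩

end Pool.Agent.RRG
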