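import Pool.Agent.RRG.T2

/-! # T6: 3-paths between two subsets of a neighbourhood -/

open Finset Filter Topology
open scoped Classical

namespace Pool.Agent.RRG

/-- configurations for `T6` -/
def I6 {n : ℕ} (A B : Finset (Fin n)) : Finset (Fin n × Fin n × Fin n × Fin n) :=
  univ.filter fun t => t.1 ∈ A ∧ t.2.2.2 ∈ B ∧ t.1 ≠ t.2.1 ∧ t.2.1 ≠ t.2.2.1 ∧
    t.2.2.1 ≠ t.2.2.2 ∧ t.1 ≠ t.2.2.1 ∧ t.1 ≠ t.2.2.2 ∧ t.2.1 ≠ t.2.2.2

def E6 {n : ℕ} (t : Fin n × Fin n × Fin n × Fin n) : Finset (Sym2 (Fin n)) :=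
  pE t.1 t.2.1 t.2.2.1 t.2.2.2

theorem mem_I6 {n : ℕ} {A B : Finset (Fin n)} {t : Fin n × Fin n × Fin n × Fin n} :
    t ∈ I6 A B ↔ t.1 ∈ A ∧ t.2.2.2 ∈ B ∧ t.1 ≠ t.2.1 ∧ t.2.1 ≠ t.2.2.1 ∧
    t.2.2.1 ≠ t.2.2.2 ∧ t.1 ≠ t.2.2.1 ∧ t.1 ≠ t.2.2.2 ∧ t.2.1 ≠ t.2.2.2 := by simp [I6]

/-- configurations avoiding `v` -/
def I6v {n : ℕ} (v : Fin n) (A B : Finset (Fin n)) : Finset (Fin n × Fin n × Fin n × Fin n) :=
  (I6 A B).filter fun t => t.2.1 ≠ v ∧ t.2.2.1 ≠ v

theorem mem_I6v {n : ℕ} {v : Fin n} {A B : Finset (Fin n)} {t : Fin n × Fin n × Fin n × Fin n} :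
    t ∈ I6v v A B ↔ (t.1 ∈ A ∧ t.2.2.2 ∈ B ∧ t.1 ≠ t.2.1 ∧ t.2.1 ≠ t.2.2.1 ∧
    t.2.2.1 ≠ t.2.2.2 ∧ t.1 ≠ t.2.2.1 ∧ t.1 ≠ t.2.2.2 ∧ t.2.1 ≠ t.2.2.2) ∧
      t.2.1 ≠ v ∧ t.2.2.1 ≠ v := by simp only [I6v, mem_filter, mem_I6]

theorem nP3_eq_card {n : ℕ} {G : Gr n} {v : Fin n} {A B : Finset (Fin n)} :
    nP3 G v A B = ((I6v v A B).filter fun t => E6 t ⊆ ed G).card := by
  unfold nP3
  congr 1
  ext t
  rw [mem_filter, mem_filter, mem_I6v]
  unfold E6
  rw [pE_subset_iff]
  unfold P3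
  constructor
  · rintro ⟨_, hA, hB, ⟨a, b, c, h1, h2, h3⟩, n1, n2⟩
    exact ⟨⟨⟨hA, hB, a.ne, b.ne, c.ne, h1, h2, h3⟩, n1, n2⟩, a, b, c⟩
  · rintro ⟨⟨⟨hA, hB, h1, h2, h3, h4, h5, h6⟩, n1, n2⟩, a, b, c⟩
    exact ⟨mem_univ _, hA, hB, ⟨a, b, c, h4, h5, h6⟩, n1, n2⟩

/-- event that guarantees few conflicts -/
def Ev6 {n : ℕ} (K : ℕ) (v : Fin n) (A B : Finset (Fin n)) (G : Gr n) : Prop :=
  T1 K G ∧ T2 K G ∧ A ⊆ nb G v ∧ B ⊆ nb G v

/-- general fibre bound -/
theorem card_le_mul_of_fst {α β : Type*} (S : Finset (α × β)) (a : α) (K : ℕ)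
    (h1 : ∀ t ∈ S, t.1 = a) (h2 : (S.image Prod.snd).card ≤ K) : S.card ≤ K := by
  refine le_trans ?_ h2
  refine le_of_eq (card_image_of_injOn ?_).symm
  intro x hx y hy hxy
  exact Prod.ext ((h1 x hx).trans (h1 y hy).symm) hxy

theorem I6_conf {n K : ℕ} {G : Gr n} {v : Fin n} {A B : Finset (Fin n)} (hE : Ev6 K v A B G)
    (e : Sym2 (Fin n)) :
    ((I6v v A B).filter fun t => E6 t ⊆ ed G ∧ e ∈ E6 t).card ≤ 4 * K + 2 * (K * K) := by
  obtain ⟨hT1, hT2, hA, hB⟩ := hE
  induction e using Sym2.ind with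
  | _ p q =>
    set S := (I6v v A B).filter fun t => E6 t ⊆ ed G ∧ s(p, q) ∈ E6 t with hS
    have hSm : ∀ t ∈ S, ((t.1 ∈ A ∧ t.2.2.2 ∈ B ∧ t.1 ≠ t.2.1 ∧ t.2.1 ≠ t.2.2.1 ∧
        t.2.2.1 ≠ t.2.2.2 ∧ t.1 ≠ t.2.2.1 ∧ t.1 ≠ t.2.2.2 ∧ t.2.1 ≠ t.2.2.2) ∧
        t.2.1 ≠ v ∧ t.2.2.1 ≠ v) ∧ (G.Adj t.1 t.2.1 ∧ G.Adj t.2.1 t.2.2.1 ∧
        G.Adj t.2.2.1 t.2.2.2) ∧ s(p, q) ∈ E6 t := by
      intro t ht
      rw [hS, mem_filter, mem_I6v] at ht
      exact ⟨ht.1, pE_subset_iff.1 ht.2.1, ht.2.2⟩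
    -- the six cases
    let f1 : Fin n → Fin n → Finset (Fin n × Fin n × Fin n × Fin n) := fun a y =>
      S.filter fun t => t.1 = a ∧ t.2.1 = y
    let f2 : Fin n → Fin n → Finset (Fin n × Fin n × Fin n × Fin n) := fun y y' =>
      S.filter fun t => t.2.1 = y ∧ t.2.2.1 = y'
    let f3 : Fin n → Fin n → Finset (Fin n × Fin n × Fin n × Fin n) := fun y' b =>
      S.filter fun t => t.2.2.1 = y' ∧ t.2.2.2 = b
    have hcov : S ⊆ (f1 p q ∪ f1 q p) ∪ ((f2 p q ∪ f2 q p) ∪ (f3 p q ∪ f3 q p)) := by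
      intro t ht
      have h := (hSm t ht).2.2
      unfold E6 pE at h
      simp only [mem_insert, mem_singleton, Sym2.eq_iff] at h
      simp only [mem_union, f1, f2, f3, mem_filter]
      rcases h with (⟨h1, h2⟩ | ⟨h1, h2⟩) | (⟨h1, h2⟩ | ⟨h1, h2⟩) | (⟨h1, h2⟩ | ⟨h1, h2⟩)
      · exact Or.inl (Or.inl ⟨ht, h1.symm, h2.symm⟩)
      · exact Or.inl (Or.inr ⟨ht, h2.symm, h1.symm⟩)
      · exact Or.inr (Or.inl (Or.inl ⟨ht, h1.symm, h2.symm⟩))
      · exact Or.inr (Or.inl (Or.inr ⟨ht, h2.symm, h1.symm⟩))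
      · exact Or.inr (Or.inr (Or.inl ⟨ht, h1.symm, h2.symm⟩))
      · exact Or.inr (Or.inr (Or.inr ⟨ht, h2.symm, h1.symm⟩))
    have hf1 : ∀ a y, (f1 a y).card ≤ K := by
      intro a y
      rcases (f1 a y).eq_empty_or_nonempty with h | ⟨t₀, ht₀⟩
      · rw [h]; simp
      · simp only [f1, mem_filter] at ht₀
        have hy : y ≠ v := by rw [← ht₀.2.2]; exact (hSm t₀ ht₀.1).1.2.1
        refine le_trans (card_le_card_of_injOn (fun t => (t.2.2.1, t.2.2.2)) ?_ ?_) (hT2 y v hy)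
        · intro t ht
          simp only [f1, coe_filter, Set.mem_ofPred_eq] at ht
          obtain ⟨h1, h2, h3⟩ := hSm t ht.1
          simp only [coe_filter, mem_univ, true_and, Set.mem_ofPred_eq]
          rw [← ht.2.2]
          exact ⟨h2.2.1, h2.2.2, (mem_nb.1 (hB h1.1.2.1)).symm, h1.1.2.2.2.2.2.2.2, h1.2.1, h1.2.2⟩
        · intro t ht t' ht' htt
          simp only [f1, coe_filter, Set.mem_ofPred_eq] at ht ht'
          simp only [Prod.mk.injEq] at htt
          exact Prod.ext (ht.2.1.trans ht'.2.1.symm) (Prod.ext (ht.2.2.trans ht'.2.2.symm)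
            (Prod.ext htt.1 htt.2))
    have hf3 : ∀ y' b, (f3 y' b).card ≤ K := by
      intro y' b
      rcases (f3 y' b).eq_empty_or_nonempty with h | ⟨t₀, ht₀⟩
      · rw [h]; simp
      · simp only [f3, mem_filter] at ht₀
        have hy : y' ≠ v := by rw [← ht₀.2.1]; exact (hSm t₀ ht₀.1).1.2.2
        refine le_trans (card_le_card_of_injOn (fun t => (t.1, t.2.1)) ?_ ?_)
          (hT2 v y' hy.symm)
        · intro t ht
          simp only [f3, coe_filter, Set.mem_ofPred_eq] at ht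
          obtain ⟨h1, h2, h3⟩ := hSm t ht.1
          simp only [coe_filter, mem_univ, true_and, Set.mem_ofPred_eq]
          rw [← ht.2.1]
          exact ⟨mem_nb.1 (hA h1.1.1), h2.1, h2.2.1, h1.2.1.symm, h1.2.2.symm,
            h1.1.2.2.2.2.2.1⟩
        · intro t ht t' ht' htt
          simp only [f3, coe_filter, Set.mem_ofPred_eq] at ht ht'
          simp only [Prod.mk.injEq] at htt
          exact Prod.ext htt.1 (Prod.ext htt.2 (Prod.ext (ht.2.1.trans ht'.2.1.symm)
            (ht.2.2.trans ht'.2.2.symm)))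
    have hf2 : ∀ y y', (f2 y y').card ≤ K * K := by
      intro y y'
      rcases (f2 y y').eq_empty_or_nonempty with h | ⟨t₀, ht₀⟩
      · rw [h]; simp
      · simp only [f2, mem_filter] at ht₀
        have hy : y ≠ v := by rw [← ht₀.2.1]; exact (hSm t₀ ht₀.1).1.2.1
        have hy' : y' ≠ v := by rw [← ht₀.2.2]; exact (hSm t₀ ht₀.1).1.2.2
        have hle : ((nb G y ∩ nb G v) ×ˢ (nb G y' ∩ nb G v)).card ≤ K * K := by
          rw [card_product]
          exact Nat.mul_le_mul (hT1 y v hy) (hT1 y' v hy')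
        refine le_trans (card_le_card_of_injOn (fun t => (t.1, t.2.2.2)) ?_ ?_) hle
        · intro t ht
          simp only [f2, coe_filter, Set.mem_ofPred_eq] at ht
          obtain ⟨h1, h2, h3⟩ := hSm t ht.1
          simp only [coe_product, Set.mem_prod, mem_coe, mem_inter, mem_nb]
          rw [← ht.2.1, ← ht.2.2]
          exact ⟨⟨h2.1.symm, mem_nb.1 (hA h1.1.1)⟩, h2.2.2, mem_nb.1 (hB h1.1.2.1)⟩
        · intro t ht t' ht' htt
          simp only [f2, coe_filter, Set.mem_ofPred_eq] at ht ht'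
          simp only [Prod.mk.injEq] at htt
          exact Prod.ext htt.1 (Prod.ext (ht.2.1.trans ht'.2.1.symm)
            (Prod.ext (ht.2.2.trans ht'.2.2.symm) htt.2))
    have h4 := card_le_card hcov
    have h5 := card_union_le (f1 p q ∪ f1 q p) ((f2 p q ∪ f2 q p) ∪ (f3 p q ∪ f3 q p))
    have h6 := card_union_le (f1 p q) (f1 q p)
    have h7 := card_union_le (f2 p q ∪ f2 q p) (f3 p q ∪ f3 q p)
    have h8 := card_union_le (f2 p q) (f2 q p)
    have h9 := card_union_le (f3 p q) (f3 q p)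
    have a1 := hf1 p q
    have a2 := hf1 q p
    have a3 := hf2 p q
    have a4 := hf2 q p
    have a5 := hf3 p q
    have a6 := hf3 q p
    omega

/-- bad event -/
def Bad6 {n : ℕ} (K m : ℕ) (v : Fin n) (A B : Finset (Fin n)) (G : Gr n) : Prop :=
  Ev6 K v A B G ∧ m * (3 * (4 * K + 2 * (K * K))) ≤ nP3 G v A B

theorem T6_one (h : Stmt_DO) {n d m K : ℕ} (hn : 64 ≤ n) (hd : 64 * d ≤ n) (hm : 96 * m ≤ n * d)
    (hK : 0 < K) (v : Fin n) (A B : Finset (Fin n)) :
    (((Reg n d).filter fun G => Bad6 K m v A B G).card : ℝ) * (m.factorial : ℝ) ≤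
      (8 * gam n d * A.card * B.card) ^ m * ((Reg n d).card : ℝ) := by
  have h1 := DO_conf h hn hd (I6v v A B) E6 m 3 (4 * K + 2 * (K * K)) (by positivity)
    (by
      intro t ht
      rw [mem_I6v] at ht
      obtain ⟨⟨_, _, a, b, c, e, f, g⟩, _⟩ := ht
      have hc := pE_card a b c e f g
      refine ⟨?_, hc.le, pE_not_diag a b c⟩
      rw [← card_pos]
      unfold E6
      rw [hc]
      norm_num)
    (by omega) (Ev6 K v A B) (fun G _ hG e => I6_conf hG e)
  have hsub : ((Reg n d).filter fun G => Bad6 K m v A B G) ⊆ ((Reg n d).filter fun G =>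
      Ev6 K v A B G ∧ m * (3 * (4 * K + 2 * (K * K))) ≤
        ((I6v v A B).filter fun t => E6 t ⊆ ed G).card) := by
    intro G hG
    rw [mem_filter] at hG
    refine mem_filter.2 ⟨hG.1, hG.2.1, ?_⟩
    rw [← nP3_eq_card]
    exact hG.2.2
  refine (mul_le_mul_of_nonneg_right (Nat.cast_le.2 (card_le_card hsub)) (by positivity)).trans
    (h1.trans (mul_le_mul_of_nonneg_right (pow_le_pow_left₀ (by positivity) ?_ m)
    (by positivity)))
  have e2 : ∑ t ∈ I6v v A B, (2 * (d : ℝ) / n) ^ (E6 t).card =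
      ∑ t ∈ I6v v A B, (2 * (d : ℝ) / n) ^ 3 := by
    refine sum_congr rfl fun t ht => ?_
    rw [mem_I6v] at ht
    obtain ⟨⟨_, _, a, b, c, e, f, g⟩, _⟩ := ht
    unfold E6
    rw [pE_card a b c e f g]
  rw [e2, sum_const, nsmul_eq_mul]
  have h3 : ((I6v v A B).card : ℝ) ≤ A.card * (n : ℝ) ^ 2 * B.card := by
    have h4 : (I6v v A B).card ≤ (A ×ˢ ((univ : Finset (Fin n)) ×ˢ ((univ : Finset (Fin n)) ×ˢ B))).card := by
      refine card_le_card fun t ht => ?_
      rw [mem_I6v] at ht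
      simp only [mem_product, mem_univ, true_and]
      exact ⟨ht.1.1, ht.1.2.1⟩
    simp only [card_product, card_univ, Fintype.card_fin] at h4
    calc ((I6v v A B).card : ℝ) ≤ ((A.card * (n * (n * B.card)) : ℕ) : ℝ) := by exact_mod_cast h4
      _ = _ := by push_cast; ring
  have hn0 : (0 : ℝ) < n := by
    have : 0 < n := by omega
    exact_mod_cast this
  calc ((I6v v A B).card : ℝ) * (2 * (d : ℝ) / n) ^ 3 ≤
        (A.card * (n : ℝ) ^ 2 * B.card) * (2 * (d : ℝ) / n) ^ 3 :=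
        mul_le_mul_of_nonneg_right h3 (by positivity)
    _ = 8 * gam n d * A.card * B.card := by
        unfold gam
        field_simp
        ring

theorem log_le_nat (c : ℝ) : ∃ n₀ : ℕ, ∀ n : ℕ, n₀ ≤ n → c * Real.log n ≤ n := by
  have h1 : Tendsto (fun n : ℕ => (n : ℝ)) atTop atTop := tendsto_natCast_atTop_atTop
  have h2 := (Real.isLittleO_log_id_atTop.comp_tendsto h1).def
    (show (0 : ℝ) < 1 / (|c| + 1) by positivity)
  obtain ⟨n₀, hn₀⟩ := eventually_atTop.1 h2
  refine ⟨max 1 n₀, fun n hn => ?_⟩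
  have h3 := hn₀ n ((le_max_right _ _).trans hn)
  simp only [Function.comp_apply, id_eq, Real.norm_eq_abs] at h3
  have hn1 : 1 ≤ n := (le_max_left _ _).trans hn
  have hlog : 0 ≤ Real.log n := Real.log_nonneg (by exact_mod_cast hn1)
  rw [abs_of_nonneg hlog, abs_of_nonneg (by positivity : (0 : ℝ) ≤ n)] at h3
  have h4 : Real.log n * (|c| + 1) ≤ n := by
    have : Real.log n ≤ (n : ℝ) / (|c| + 1) := by
      calc _ ≤ 1 / (|c| + 1) * (n : ℝ) := h3
        _ = _ := by ring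
    rwa [le_div_iff₀ (by positivity)] at this
  calc c * Real.log n ≤ |c| * Real.log n := mul_le_mul_of_nonneg_right (le_abs_self c) hlog
    _ ≤ Real.log n * (|c| + 1) := by nlinarith
    _ ≤ n := h4

theorem sum_pow_card_le {n : ℕ} (hn : 1 ≤ n) :
    ∑ A : Finset (Fin n), ((n : ℝ) ^ (-(2 : ℝ))) ^ A.card ≤ 3 := by
  have h1 := Finset.sum_pow_mul_eq_add_pow ((n : ℝ) ^ (-(2 : ℝ))) 1 (univ : Finset (Fin n))
  simp only [one_pow, mul_one, powerset_univ, card_univ, Fintype.card_fin] at h1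
  rw [h1]
  have hn0 : (0 : ℝ) < n := by exact_mod_cast hn
  have h2 : (n : ℝ) ^ (-(2 : ℝ)) + 1 ≤ Real.exp ((n : ℝ) ^ (-(2 : ℝ))) := Real.add_one_le_exp _
  have h3 : ((n : ℝ) ^ (-(2 : ℝ)) + 1) ^ n ≤ (Real.exp ((n : ℝ) ^ (-(2 : ℝ)))) ^ n :=
    pow_le_pow_left₀ (by positivity) h2 n
  rw [← Real.exp_nat_mul] at h3
  have h4 : (n : ℝ) * (n : ℝ) ^ (-(2 : ℝ)) ≤ 1 := by
    have e1 : (n : ℝ) * (n : ℝ) ^ (-(2 : ℝ)) = (n : ℝ)⁻¹ := by
      nth_rewrite 1 [← Real.rpow_one (n : ℝ)]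
      rw [← Real.rpow_add hn0]
      norm_num
      rw [Real.rpow_neg_one]
    rw [e1]
    exact inv_le_one_of_one_le₀ (by exact_mod_cast hn)
  calc _ ≤ _ := h3
    _ ≤ Real.exp 1 := Real.exp_le_exp.2 h4
    _ ≤ 3 := by have := Real.exp_one_lt_d9; linarith

/-- union bound over `v` and nonempty `A`, `B` -/
theorem union6 {n d : ℕ} (hn : 1 ≤ n) (P : Fin n → Finset (Fin n) → Finset (Fin n) → Gr n → Prop)
    (Q : Gr n → Prop) [DecidablePred Q]
    (h : ∀ v A B, A.Nonempty → B.Nonempty → A.card ≤ d → B.card ≤ d →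
      (((Reg n d).filter fun G => P v A B G).card : ℝ) ≤
        (n : ℝ) ^ (-(10 : ℝ) * (A.card + B.card)) * (Reg n d).card)
    (hQ : ∀ G ∈ Reg n d, Q G → ∃ v A B, (A.Nonempty ∧ B.Nonempty ∧ A.card ≤ d ∧ B.card ≤ d) ∧
      P v A B G) :
    (((Reg n d).filter Q).card : ℝ) ≤ 9 * (n : ℝ)⁻¹ * (Reg n d).card := by
  have hn0 : (0 : ℝ) < n := by exact_mod_cast hn
  have hn1 : (1 : ℝ) ≤ n := by exact_mod_cast hn
  set T : Finset (Fin n × Finset (Fin n) × Finset (Fin n)) :=
    univ.filter fun t => t.2.1.Nonempty ∧ t.2.2.Nonempty ∧ t.2.1.card ≤ d ∧ t.2.2.card ≤ d with hT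
  have hcov : ((Reg n d).filter Q) ⊆ T.biUnion fun t => (Reg n d).filter fun G => P t.1 t.2.1 t.2.2 G := by
    intro G hG
    rw [mem_filter] at hG
    obtain ⟨v, A, B, hAB, hP⟩ := hQ G hG.1 hG.2
    rw [mem_biUnion]
    exact ⟨(v, A, B), mem_filter.2 ⟨mem_univ _, hAB⟩, mem_filter.2 ⟨hG.1, hP⟩⟩
  have h1 : (((Reg n d).filter Q).card : ℝ) ≤
      ∑ t ∈ T, (((Reg n d).filter fun G => P t.1 t.2.1 t.2.2 G).card : ℝ) := by
    rw [← Nat.cast_sum]
    exact Nat.cast_le.2 ((card_le_card hcov).trans card_biUnion_le)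
  set x : ℝ := (n : ℝ) ^ (-(2 : ℝ)) with hx
  have hx0 : 0 ≤ x := by positivity
  have h2 : ∀ t ∈ T, (((Reg n d).filter fun G => P t.1 t.2.1 t.2.2 G).card : ℝ) ≤
      (n : ℝ) ^ (-(2 : ℝ)) * (x ^ t.2.1.card * x ^ t.2.2.card) * (Reg n d).card := by
    intro t ht
    rw [hT, mem_filter] at ht
    obtain ⟨_, hA, hB, hA', hB'⟩ := ht
    refine (h t.1 t.2.1 t.2.2 hA hB hA' hB').trans (mul_le_mul_of_nonneg_right ?_ (by positivity))
    rw [← pow_add, hx, ← Real.rpow_natCast, ← Real.rpow_mul hn0.le, ← Real.rpow_add hn0]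
    apply Real.rpow_le_rpow_of_exponent_le hn1
    have a1 : (1 : ℝ) ≤ (t.2.1.card : ℝ) := by exact_mod_cast hA.card_pos
    push_cast
    have a2 : (0 : ℝ) ≤ (t.2.2.card : ℝ) := by positivity
    nlinarith
  calc _ ≤ _ := h1
    _ ≤ ∑ t ∈ T, (n : ℝ) ^ (-(2 : ℝ)) * (x ^ t.2.1.card * x ^ t.2.2.card) * (Reg n d).card :=
        sum_le_sum h2
    _ ≤ ∑ t : Fin n × Finset (Fin n) × Finset (Fin n),
          (n : ℝ) ^ (-(2 : ℝ)) * (x ^ t.2.1.card * x ^ t.2.2.card) * (Reg n d).card :=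
        sum_le_sum_of_subset_of_nonneg (subset_univ _) (fun _ _ _ => by positivity)
    _ = (n : ℝ) ^ (-(2 : ℝ)) * (Reg n d).card * (n * ((∑ A : Finset (Fin n), x ^ A.card) *
          (∑ B : Finset (Fin n), x ^ B.card))) := by
        rw [Fintype.sum_prod_type]
        simp only [Fintype.sum_prod_type]
        rw [sum_const, card_univ, Fintype.card_fin, nsmul_eq_mul, sum_mul_sum]
        rw [show ∀ a b c : ℝ, a * b * ((n : ℝ) * c) = (n : ℝ) * ((a * b) * c) from fun a b c => by ring]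
        congr 1
        rw [mul_sum]
        refine sum_congr rfl fun A _ => ?_
        rw [mul_sum]
        exact sum_congr rfl fun B _ => by ring
    _ ≤ (n : ℝ) ^ (-(2 : ℝ)) * (Reg n d).card * (n * (3 * 3)) := by
        refine mul_le_mul_of_nonneg_left ?_ (by positivity)
        refine mul_le_mul_of_nonneg_left ?_ hn0.le
        have h3 := sum_pow_card_le hn
        exact mul_le_mul h3 h3 (sum_nonneg fun _ _ => by positivity) (by norm_num)
    _ = 9 * ((n : ℝ) ^ (-(2 : ℝ)) * n) * (Reg n d).card := by ring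
    _ = _ := by
        congr 2
        nth_rewrite 2 [← Real.rpow_one (n : ℝ)]
        rw [← Real.rpow_add hn0]
        norm_num
        rw [Real.rpow_neg_one]

def Imp6 {n : ℕ} (K d : ℕ) (C : ℝ) (G : Gr n) : Prop := T1 K G → T2 K G → T6 C n d G

theorem d_pow_four {n d : ℕ} (c : ℝ) (hc : 0 < c) (h : d ^ 3 ≤ n) (hn : c ^ 3 ≤ (n : ℝ) ^ 2)
    (hn0 : 0 < n) : c * (d : ℝ) ^ 4 ≤ (n : ℝ) ^ 2 := by
  by_contra hlt
  push Not at hlt
  have hnr : (0 : ℝ) < n := by exact_mod_cast hn0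
  have h1 : ((n : ℝ) ^ 2) ^ 3 < (c * (d : ℝ) ^ 4) ^ 3 := pow_lt_pow_left₀ hlt (by positivity) (by norm_num)
  have h2 : ((d : ℝ) ^ 3) ^ 4 ≤ (n : ℝ) ^ 4 := pow_le_pow_left₀ (by positivity) (by exact_mod_cast h) 4
  have h3 : (c * (d : ℝ) ^ 4) ^ 3 = c ^ 3 * ((d : ℝ) ^ 3) ^ 4 := by ring
  rw [h3] at h1
  have h4 : c ^ 3 * ((d : ℝ) ^ 3) ^ 4 ≤ (n : ℝ) ^ 2 * (n : ℝ) ^ 4 :=
    mul_le_mul hn h2 (by positivity) (by positivity)
  have h5 : (n : ℝ) ^ 2 * (n : ℝ) ^ 4 = ((n : ℝ) ^ 2) ^ 3 := by ring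
  linarith

theorem T6_proof (h : Stmt_DO) (hc : Stmt_Codeg) (h2 : Stmt_T2) : Stmt_T6 := by
  intro ε ε₀ hε hε₀
  obtain ⟨K₁, hK₁⟩ := hc (1 / 6) (by norm_num)
  obtain ⟨K₂, hK₂⟩ := h2 ε₀ hε₀
  set K := K₁ + K₂ + 1 with hK
  set D := 4 * K + 2 * (K * K) with hD
  have hK0 : 0 < K := by omega
  refine ⟨3 * D * (8 * Real.exp 2 + 11), by positivity, ?_⟩
  have hT1 : Whp (RegC ε ε₀) (fun _ _ G => T1 K G) := by
    refine hK₁.mono ⟨1, fun n hn d hd => d_le_rpow_third hn hε₀ hd.2⟩ ⟨0, fun _ _ _ _ G _ h => ?_⟩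
    exact fun u v huv => (h u v huv).trans (by omega)
  have hT2 : Whp (RegC ε ε₀) (fun _ _ G => T2 K G) := by
    refine hK₂.mono ⟨1, fun n hn d hd => hd.2⟩ ⟨0, fun _ _ _ _ G _ h => ?_⟩
    exact fun u v huv => (h u v huv).trans (by omega)
  have hmain : Whp (RegC ε ε₀) (fun _ d G => Imp6 K d (3 * D * (8 * Real.exp 2 + 11)) G) := by
    apply Whp.of_bound (fun n => 9 * (n : ℝ)⁻¹)
    · have : Tendsto (fun n : ℕ => (9 : ℝ) * (n : ℝ)⁻¹) atTop (𝓝 ((9 : ℝ) * 0)) :=
        tendsto_const_nhds.mul tendsto_inv_atTop_nhds_zero_nat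
      simpa using this
    · obtain ⟨n₁, hn₁⟩ := log_le_nat 4224
      obtain ⟨n₂, hn₂⟩ := exists_nat_ge ((1536 * Real.exp 2) ^ 3 : ℝ)
      refine ⟨max 512 (max n₁ n₂), fun n hn d hd => ?_⟩
      have a1 : 512 ≤ n := (le_max_left _ _).trans hn
      have a2 : n₁ ≤ n := (le_max_left _ _).trans ((le_max_right _ _).trans hn)
      have a3 : n₂ ≤ n := (le_max_right _ _).trans ((le_max_right _ _).trans hn)
      have hn0 : (0 : ℝ) < n := by
        have : 0 < n := by omega
        exact_mod_cast this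
      have hn1 : (1 : ℝ) ≤ n := by
        have : 1 ≤ n := by omega
        exact_mod_cast this
      have hcube := cube_le_of_rpow (by omega) hε₀ hd.2
      have h64 := d_small_of_cube a1 hcube
      have hlog1 : 1 ≤ Real.log n := by
        rw [Real.le_log_iff_exp_le hn0]
        have : (3 : ℝ) ≤ n := by
          have : 3 ≤ n := by omega
          exact_mod_cast this
        have := Real.exp_one_lt_d9
        linarith
      have hlogn := hn₁ n a2
      have hd4 : 1536 * Real.exp 2 * (d : ℝ) ^ 4 ≤ (n : ℝ) ^ 2 := by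
        refine d_pow_four _ (by positivity) hcube ?_ (by omega)
        have : (n₂ : ℝ) ≤ n := by exact_mod_cast a3
        nlinarith
      -- the number m
      have hg : 0 ≤ gam n d := by unfold gam; positivity
      refine union6 (d := d) (by omega) (fun v A B G => Bad6 K
        ⌈8 * Real.exp 2 * gam n d * A.card * B.card + 10 * ((A.card : ℝ) + B.card) * Real.log n⌉₊
        v A B G) _ ?_ ?_
      · intro v A B hA hB hAd hBd
        set m := ⌈8 * Real.exp 2 * gam n d * A.card * B.card +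
          10 * ((A.card : ℝ) + B.card) * Real.log n⌉₊ with hm
        have hA1 : (1 : ℝ) ≤ A.card := by exact_mod_cast hA.card_pos
        have hB1 : (1 : ℝ) ≤ B.card := by exact_mod_cast hB.card_pos
        have hAd' : (A.card : ℝ) ≤ d := by exact_mod_cast hAd
        have hBd' : (B.card : ℝ) ≤ d := by exact_mod_cast hBd
        have hm1 : 8 * Real.exp 2 * gam n d * A.card * B.card +
          10 * ((A.card : ℝ) + B.card) * Real.log n ≤ m := Nat.le_ceil _
        have hm2 : (m : ℝ) < 8 * Real.exp 2 * gam n d * A.card * B.card +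
          10 * ((A.card : ℝ) + B.card) * Real.log n + 1 := Nat.ceil_lt_add_one (by positivity)
        have hmd : 96 * m ≤ n * d := by
          have e1 : (A.card : ℝ) * B.card ≤ (d : ℝ) * d :=
            mul_le_mul hAd' hBd' (by positivity) (by positivity)
          have e2 : 8 * Real.exp 2 * gam n d * A.card * B.card ≤
              8 * Real.exp 2 * gam n d * ((d : ℝ) * d) := by
            calc _ = 8 * Real.exp 2 * gam n d * ((A.card : ℝ) * B.card) := by ring
              _ ≤ _ := mul_le_mul_of_nonneg_left e1 (by positivity)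
          have e3 : 96 * (8 * Real.exp 2 * gam n d * ((d : ℝ) * d)) ≤ (n : ℝ) * d / 2 := by
            have : gam n d * ((d : ℝ) * d) = (d : ℝ) ^ 4 * d / n := by
              unfold gam; ring
            have e4 : 96 * (8 * Real.exp 2 * gam n d * ((d : ℝ) * d)) =
                1536 * Real.exp 2 * (d : ℝ) ^ 4 * d / n / 2 := by
              calc _ = 768 * Real.exp 2 * (gam n d * ((d : ℝ) * d)) := by ring
                _ = _ := by rw [this]; ring
            rw [e4]
            have e5 : 1536 * Real.exp 2 * (d : ℝ) ^ 4 * d / n ≤ (n : ℝ) * d := by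
              rw [div_le_iff₀ hn0]
              calc _ ≤ (n : ℝ) ^ 2 * d := mul_le_mul_of_nonneg_right hd4 (by positivity)
                _ = _ := by ring
            linarith
          have e6 : 10 * ((A.card : ℝ) + B.card) * Real.log n + 1 ≤ 22 * (d : ℝ) * Real.log n := by
            have : ((A.card : ℝ) + B.card) * Real.log n ≤ (2 * d) * Real.log n :=
              mul_le_mul_of_nonneg_right (by linarith) (by linarith)
            have e7 : 1 ≤ (d : ℝ) * Real.log n := by nlinarith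
            nlinarith
          have e8 : 96 * (22 * (d : ℝ) * Real.log n) ≤ (n : ℝ) * d / 2 := by
            have : (d : ℝ) * (4224 * Real.log n) ≤ d * n :=
              mul_le_mul_of_nonneg_left hlogn (by positivity)
            nlinarith
          have : (96 * m : ℝ) ≤ n * d := by linarith
          exact_mod_cast this
        have hone := T6_one h (m := m) (K := K) (by omega) h64 hmd hK0 v A B
        have hfac := pow_le_exp_neg_mul_factorial (μ := 8 * gam n d * A.card * B.card) (m := m)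
          (by positivity) (by
            refine le_trans ?_ hm1
            have : 0 ≤ 10 * ((A.card : ℝ) + B.card) * Real.log n := by positivity
            calc _ = 8 * Real.exp 2 * gam n d * A.card * B.card := by ring
              _ ≤ _ := by linarith)
        have hf0 : (0 : ℝ) < m.factorial := by positivity
        have h5 : (((Reg n d).filter fun G => Bad6 K m v A B G).card : ℝ) * (m.factorial : ℝ) ≤
            (Real.exp (-(m : ℝ)) * (Reg n d).card) * (m.factorial : ℝ) := by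
          refine hone.trans ?_
          calc _ ≤ (Real.exp (-(m : ℝ)) * (m.factorial : ℝ)) * (Reg n d).card :=
                mul_le_mul_of_nonneg_right hfac (by positivity)
            _ = _ := by ring
        have h6 := le_of_mul_le_mul_right h5 hf0
        refine h6.trans (mul_le_mul_of_nonneg_right ?_ (by positivity))
        rw [Real.rpow_def_of_pos hn0]
        apply Real.exp_le_exp.2
        have : 0 ≤ 8 * Real.exp 2 * gam n d * A.card * B.card := by positivity
        nlinarith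
      · intro G hG hQ
        unfold Imp6 at hQ
        push Not at hQ
        obtain ⟨ht1, ht2, ht6⟩ := hQ
        unfold T6 at ht6
        push Not at ht6
        obtain ⟨v, A, B, hA, hB, hlt⟩ := ht6
        have hAne : A.Nonempty := by
          rw [nonempty_iff_ne_empty]
          rintro rfl
          have : nP3 G v ∅ B = 0 := by
            unfold nP3
            simp
          rw [this] at hlt
          have : (0 : ℝ) ≤ 3 * D * (8 * Real.exp 2 + 11) * (gam n d * ((∅ : Finset (Fin n)).card : ℝ) * B.card +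
            (((∅ : Finset (Fin n)).card : ℝ) + B.card) * Real.log n) := by positivity
          simp only [Nat.cast_zero] at hlt
          linarith
        have hBne : B.Nonempty := by
          rw [nonempty_iff_ne_empty]
          rintro rfl
          have : nP3 G v A ∅ = 0 := by
            unfold nP3
            simp
          rw [this] at hlt
          have : (0 : ℝ) ≤ 3 * D * (8 * Real.exp 2 + 11) * (gam n d * (A.card : ℝ) * ((∅ : Finset (Fin n)).card : ℝ) +
            ((A.card : ℝ) + ((∅ : Finset (Fin n)).card : ℝ)) * Real.log n) := by positivity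
          simp only [Nat.cast_zero] at hlt
          linarith
        have hAd : A.card ≤ d := (card_le_card hA).trans (mem_Reg.1 hG v).le
        have hBd : B.card ≤ d := (card_le_card hB).trans (mem_Reg.1 hG v).le
        refine ⟨v, A, B, ⟨hAne, hBne, hAd, hBd⟩, ⟨ht1, ht2, hA, hB⟩, ?_⟩
        have hm2 : ((⌈8 * Real.exp 2 * gam n d * A.card * B.card +
          10 * ((A.card : ℝ) + B.card) * Real.log n⌉₊ : ℕ) : ℝ) < 8 * Real.exp 2 * gam n d * A.card * B.card +
          10 * ((A.card : ℝ) + B.card) * Real.log n + 1 := Nat.ceil_lt_add_one (by positivity)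
        have hA1 : (1 : ℝ) ≤ A.card := by exact_mod_cast hAne.card_pos
        have hB1 : (1 : ℝ) ≤ B.card := by exact_mod_cast hBne.card_pos
        have e1 : 1 ≤ ((A.card : ℝ) + B.card) * Real.log n := by nlinarith
        have e2 : ((⌈8 * Real.exp 2 * gam n d * A.card * B.card +
          10 * ((A.card : ℝ) + B.card) * Real.log n⌉₊ : ℕ) : ℝ) ≤
          (8 * Real.exp 2 + 11) * (gam n d * A.card * B.card + ((A.card : ℝ) + B.card) * Real.log n) := by
          have e3 : 0 ≤ gam n d * A.card * B.card := by positivity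
          have e4 : 0 ≤ Real.exp 2 * (((A.card : ℝ) + B.card) * Real.log n) := by positivity
          nlinarith
        have e5 : (((⌈8 * Real.exp 2 * gam n d * A.card * B.card +
          10 * ((A.card : ℝ) + B.card) * Real.log n⌉₊ * (3 * D) : ℕ)) : ℝ) ≤ nP3 G v A B := by
          push_cast
          refine le_trans ?_ hlt.le
          have : (0 : ℝ) ≤ 3 * (D : ℝ) := by positivity
          calc _ ≤ ((8 * Real.exp 2 + 11) * (gam n d * A.card * B.card +
                ((A.card : ℝ) + B.card) * Real.log n)) * (3 * (D : ℝ)) :=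
                mul_le_mul_of_nonneg_right e2 this
            _ = _ := by ring
        exact_mod_cast e5
  exact ((hT1.and hT2).and hmain).mono ⟨0, fun _ _ _ h => h⟩
    ⟨0, fun _ _ _ _ _ _ h => h.2 h.1.1 h.1.2⟩

end Pool.Agent.RRG
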