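import Pool.Agent.RRG.DOUse

/-!
# T7: small sets span few edges (MP_d15a9b_pr)
-/

open Finset Filter Topology
open scoped Classical

namespace Pool.Agent.RRG

namespace T7m

/-- one set `B` -/
theorem one (hDO : Stmt_DO) {n d : ℕ} (hn : 64 ≤ n) (hd : 64 * d ≤ n) (B : Finset (Fin n)) (m : ℕ)
    (hm0 : 0 < m) (hm : 32 * m ≤ n * d) :
    (((Reg n d).filter fun G => 2 * m ≤ ((B ×ˢ B).filter fun t => G.Adj t.1 t.2).card + 1).card : ℝ)
      ≤ (Real.exp 1 * ((B.card : ℝ) ^ 2 * (2 * (d : ℝ) / n)) / m) ^ m * (Reg n d).card := by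
  set I : Finset (Sym2 (Fin n)) := ((B ×ˢ B).image fun t => s(t.1, t.2)).filter fun e => ¬ e.IsDiag with hI
  refine DOUse.apply hDO hn hd (ι := Sym2 (Fin n)) I (fun e => {e}) 1 1 m _ (by norm_num) hm0
    (fun i _ => by simp) ?_ (fun i _ => by simp) ?_ (by simpa using hm) _ (filter_subset _ _) ?_
  · intro i hi e he
    rw [mem_singleton] at he
    subst he
    exact (mem_filter.1 hi).2
  · simp only [card_singleton, pow_one, sum_const, nsmul_eq_mul]
    refine mul_le_mul_of_nonneg_right ?_ (by positivity)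
    have : I.card ≤ B.card ^ 2 := by
      refine (card_filter_le _ _).trans (card_image_le.trans ?_)
      rw [card_product, sq]
    exact_mod_cast this
  · intro G hG
    simp only [mem_filter] at hG
    obtain ⟨_, hG⟩ := hG
    refine ⟨I.filter fun e => e ∈ ed G, filter_subset _ _, ?_, ?_, ?_⟩
    · intro i hi
      simp only [mem_filter] at hi
      simpa using hi.2
    · intro e
      have : ((I.filter fun e => e ∈ ed G).filter fun i => e ∈ ({i} : Finset (Sym2 (Fin n)))) ⊆ {e} := by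
        intro i hi
        simp only [mem_filter, mem_singleton] at hi ⊢
        exact hi.2.symm
      exact (card_le_card this).trans (by simp)
    · have h1 : ((B ×ˢ B).filter fun t => G.Adj t.1 t.2).card ≤ 2 * (I.filter fun e => e ∈ ed G).card := by
        refine card_le_mul_card_image_of_maps_to (f := fun t : Fin n × Fin n => s(t.1, t.2)) ?_ 2 ?_
        · intro t ht
          simp only [mem_filter, mem_product] at ht
          simp only [hI, mem_filter, mem_image, mem_product]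
          refine ⟨⟨⟨t, ht.1, rfl⟩, ?_⟩, ?_⟩
          · simpa using ht.2.ne
          · rw [mk_mem_ed]; exact ht.2
        · intro e he
          induction e using Sym2.ind with
          | _ x y =>
            have : (((B ×ˢ B).filter fun t => G.Adj t.1 t.2).filter fun t => s(t.1, t.2) = s(x, y)) ⊆
                {(x, y), (y, x)} := by
              intro t ht
              simp only [mem_filter, mem_insert, mem_singleton] at ht ⊢
              rcases Sym2.eq_iff.1 ht.2 with ⟨a, b⟩ | ⟨a, b⟩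
              · left; exact Prod.ext a b
              · right; exact Prod.ext a b
            exact (card_le_card this).trans card_le_two
      omega

end T7m

open T7m

theorem T7_proof (hDO : Stmt_DO) : Stmt_T7 := by
  intro ε ε₀ δ hε hε₀ hδ
  set c : ℝ := min δ (1 / 8) with hc
  have hcp : 0 < c := lt_min hδ (by norm_num)
  have hcδ : c ≤ δ := min_le_left _ _
  have hc8 : c ≤ 1 / 8 := min_le_right _ _
  refine ⟨c, hcp, Whp.of_bound (fun n : ℕ => 2 * (n : ℝ)⁻¹) ?_ ?_⟩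
  · have := (tendsto_inv_atTop_nhds_zero_nat (𝕜 := ℝ)).const_mul (2 : ℝ)
    simpa using this
  -- large n
  have hg1 : ∀ᶠ n : ℕ in atTop, 4 * Real.exp 1 ≤ (n : ℝ) ^ (δ / 2) :=
    ((tendsto_rpow_atTop (by positivity : 0 < δ / 2)).comp tendsto_natCast_atTop_atTop).eventually_ge_atTop _
  have hg2 : ∀ᶠ n : ℕ in atTop, 12 / δ ≤ (n : ℝ) ^ (1 / 8 : ℝ) :=
    ((tendsto_rpow_atTop (by norm_num : (0 : ℝ) < 1 / 8)).comp tendsto_natCast_atTop_atTop).eventually_ge_atTop _
  have hg3 : ∀ᶠ n : ℕ in atTop, 64 ≤ (n : ℝ) ^ (2 * δ) :=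
    ((tendsto_rpow_atTop (by positivity : 0 < 2 * δ)).comp tendsto_natCast_atTop_atTop).eventually_ge_atTop _
  obtain ⟨n₀, h0⟩ := eventually_atTop.1 (hg1.and (hg2.and hg3))
  refine ⟨max n₀ 512, fun n hn d hd => ?_⟩
  obtain ⟨g1, g2, g3⟩ := h0 n (by omega)
  obtain ⟨r1, r2⟩ := hd
  have hn512 : 512 ≤ n := by omega
  have hn512' : (512 : ℝ) ≤ n := by exact_mod_cast hn512
  have hn1 : (1 : ℝ) ≤ n := by linarith
  have hn0 : (0 : ℝ) < n := by linarith
  have hd3 : (d : ℝ) ^ 3 ≤ n := by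
    refine r2.trans ?_
    nth_rewrite 2 [← Real.rpow_one (n : ℝ)]
    exact Real.rpow_le_rpow_of_exponent_le hn1 (by linarith)
  have h64 : 64 * d ≤ n := by
    have : (64 : ℝ) * d ≤ n := by
      by_contra hcon
      push Not at hcon
      have h1 : (n : ℝ) ^ 3 < (64 * d) ^ 3 := pow_lt_pow_left₀ hcon hn0.le (by norm_num)
      have h2 : (64 * (d : ℝ)) ^ 3 = 262144 * (d : ℝ) ^ 3 := by ring
      have h4 : (262144 : ℝ) ≤ (n : ℝ) ^ 2 := by nlinarith
      have h3 : 262144 * (n : ℝ) ≤ (n : ℝ) ^ 3 := by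
        have : (n : ℝ) ^ 3 = (n : ℝ) ^ 2 * n := by ring
        rw [this]
        exact mul_le_mul_of_nonneg_right h4 hn0.le
      nlinarith
    exact_mod_cast this
  have hd14 : (n : ℝ) ^ (1 / 4 : ℝ) ≤ d :=
    (Real.rpow_le_rpow_of_exponent_le hn1 (by linarith)).trans r1
  have hd1 : (1 : ℝ) ≤ d := (Real.one_le_rpow hn1 (by norm_num)).trans hd14
  have hd18 : (n : ℝ) ^ (1 / 8 : ℝ) ≤ (n : ℝ) ^ (-c) * d := by
    calc (n : ℝ) ^ (1 / 8 : ℝ) ≤ (n : ℝ) ^ (-c + 1 / 4) :=
          Real.rpow_le_rpow_of_exponent_le hn1 (by linarith)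
      _ = (n : ℝ) ^ (-c) * (n : ℝ) ^ (1 / 4 : ℝ) := Real.rpow_add hn0 _ _
      _ ≤ (n : ℝ) ^ (-c) * d := mul_le_mul_of_nonneg_left hd14 (by positivity)
  -- the bad events
  set q : ℝ := (n : ℝ) ^ (-(3 : ℝ)) with hq
  have hq0 : 0 ≤ q := by positivity
  set Bs : Finset (Finset (Fin n)) := (univ : Finset (Finset (Fin n))).filter
    (fun B => B ≠ ∅ ∧ (B.card : ℝ) ≤ (n : ℝ) ^ (1 - 2 * δ)) with hBs
  have hone : ∀ B ∈ Bs, (((Reg n d).filter fun G =>
      ¬ (((B ×ˢ B).filter fun t => G.Adj t.1 t.2).card : ℝ) ≤ (n : ℝ) ^ (-c) * d * B.card).card : ℝ)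
      ≤ q ^ B.card * (Reg n d).card := by
    intro B hB
    simp only [hBs, mem_filter, mem_univ, true_and] at hB
    obtain ⟨hB0, hBn⟩ := hB
    have hb1 : 1 ≤ B.card := card_pos.2 (nonempty_iff_ne_empty.2 hB0)
    have hb1' : (1 : ℝ) ≤ B.card := by exact_mod_cast hb1
    have hb0 : (0 : ℝ) < B.card := by linarith
    set y : ℝ := (n : ℝ) ^ (-c) * d * B.card / 2 with hy
    have hy0 : 0 ≤ y := by positivity
    set m : ℕ := ⌊y⌋₊ + 1 with hm
    have hmy : y < m := by rw [hm]; push_cast; exact Nat.lt_floor_add_one _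
    have hmy2 : (m : ℝ) ≤ y + 1 := by
      rw [hm]; push_cast
      have := Nat.floor_le hy0
      linarith
    have hm0 : 0 < m := by omega
    have hm0' : (0 : ℝ) < m := by exact_mod_cast hm0
    have hy2 : y ≤ n * d / 128 := by
      have h1 : (n : ℝ) ^ (-c) ≤ 1 := Real.rpow_le_one_of_one_le_of_nonpos hn1 (by linarith)
      have h2 : (n : ℝ) ^ (1 - 2 * δ) * 64 ≤ n := by
        calc (n : ℝ) ^ (1 - 2 * δ) * 64 ≤ (n : ℝ) ^ (1 - 2 * δ) * (n : ℝ) ^ (2 * δ) :=
              mul_le_mul_of_nonneg_left g3 (by positivity)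
          _ = n := by
              rw [← Real.rpow_add hn0]
              norm_num
      have h3 : (B.card : ℝ) ≤ n / 64 := by linarith
      calc y = (n : ℝ) ^ (-c) * (d * B.card) / 2 := by rw [hy]; ring
        _ ≤ 1 * (d * (n / 64)) / 2 := by gcongr
        _ = n * d / 128 := by ring
    have hmn : 32 * m ≤ n * d := by
      have h1 : (32 : ℝ) * m ≤ n * d := by nlinarith
      exact_mod_cast h1
    have h1 := one hDO (by omega) h64 B m hm0 hmn
    have hsub : ∀ G, (¬ (((B ×ˢ B).filter fun t => G.Adj t.1 t.2).card : ℝ) ≤ (n : ℝ) ^ (-c) * d * B.card) →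
        2 * m ≤ ((B ×ˢ B).filter fun t => (G : Gr n).Adj t.1 t.2).card + 1 := by
      intro G hG
      push Not at hG
      have h2 : (⌊y⌋₊ : ℝ) ≤ y := Nat.floor_le hy0
      have h3 : ((2 * ⌊y⌋₊ : ℕ) : ℝ) < (((B ×ˢ B).filter fun t => (G : Gr n).Adj t.1 t.2).card : ℝ) := by
        push_cast
        have : 2 * y = (n : ℝ) ^ (-c) * d * B.card := by rw [hy]; ring
        linarith
      have h4 : 2 * ⌊y⌋₊ < ((B ×ˢ B).filter fun t => (G : Gr n).Adj t.1 t.2).card := by exact_mod_cast h3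
      omega
    have h2 : (((Reg n d).filter fun G =>
      ¬ (((B ×ˢ B).filter fun t => G.Adj t.1 t.2).card : ℝ) ≤ (n : ℝ) ^ (-c) * d * B.card).card : ℝ)
        ≤ (((Reg n d).filter fun G => 2 * m ≤ ((B ×ˢ B).filter fun t => G.Adj t.1 t.2).card + 1).card : ℝ) := by
      refine Nat.cast_le.2 (card_le_card ?_)
      intro G hG
      simp only [mem_filter] at hG ⊢
      exact ⟨hG.1, hsub G hG.2⟩
    refine h2.trans (h1.trans (mul_le_mul_of_nonneg_right ?_ (by positivity)))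
    -- numerical bound
    have s1 : Real.exp 1 * ((B.card : ℝ) ^ 2 * (2 * (d : ℝ) / n)) / m ≤ (n : ℝ) ^ (-(δ / 2)) := by
      rw [div_le_iff₀ hm0']
      have t1 : (B.card : ℝ) ≤ (n : ℝ) ^ (1 - 2 * δ) := hBn
      have t2 : Real.exp 1 * ((B.card : ℝ) ^ 2 * (2 * (d : ℝ) / n))
          = (4 * Real.exp 1) * (B.card : ℝ) / n * (d * B.card / 2) := by
        field_simp; ring
      have t3 : (d : ℝ) * B.card / 2 = (n : ℝ) ^ c * y := by
        rw [hy]
        have : (n : ℝ) ^ c * (n : ℝ) ^ (-c) = 1 := by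
          rw [← Real.rpow_add hn0]; simp
        calc (d : ℝ) * B.card / 2 = ((n : ℝ) ^ c * (n : ℝ) ^ (-c)) * (d * B.card / 2) := by rw [this, one_mul]
          _ = _ := by ring
      rw [t2, t3]
      have t4 : (4 * Real.exp 1) * (B.card : ℝ) / n * (n : ℝ) ^ c ≤ (n : ℝ) ^ (-(δ / 2)) := by
        calc (4 * Real.exp 1) * (B.card : ℝ) / n * (n : ℝ) ^ c
            ≤ (n : ℝ) ^ (δ / 2) * (n : ℝ) ^ (1 - 2 * δ) / n * (n : ℝ) ^ δ := by
              gcongr
          _ = (n : ℝ) ^ (-(δ / 2)) := by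
              have : (n : ℝ) ^ (δ / 2) * (n : ℝ) ^ (1 - 2 * δ) / n * (n : ℝ) ^ δ
                = (n : ℝ) ^ (δ / 2) * (n : ℝ) ^ (1 - 2 * δ) * (n : ℝ) ^ (-1 : ℝ) * (n : ℝ) ^ δ := by
                rw [Real.rpow_neg_one]; ring
              rw [this, ← Real.rpow_add hn0, ← Real.rpow_add hn0, ← Real.rpow_add hn0]
              congr 1
              ring
      calc (4 * Real.exp 1) * (B.card : ℝ) / n * ((n : ℝ) ^ c * y)
          = ((4 * Real.exp 1) * (B.card : ℝ) / n * (n : ℝ) ^ c) * y := by ring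
        _ ≤ (n : ℝ) ^ (-(δ / 2)) * m := mul_le_mul t4 hmy.le hy0 (by positivity)
    calc (Real.exp 1 * ((B.card : ℝ) ^ 2 * (2 * (d : ℝ) / n)) / m) ^ m
        ≤ ((n : ℝ) ^ (-(δ / 2))) ^ m := pow_le_pow_left₀ (by positivity) s1 m
      _ = (n : ℝ) ^ (-(δ / 2) * m) := by rw [← Real.rpow_natCast, ← Real.rpow_mul hn0.le]
      _ ≤ (n : ℝ) ^ (-(3 : ℝ) * B.card) := by
          refine Real.rpow_le_rpow_of_exponent_le hn1 ?_
          have u1 : 12 ≤ δ * (n : ℝ) ^ (1 / 8 : ℝ) := by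
            rw [div_le_iff₀ hδ] at g2
            linarith
          have u2 : (n : ℝ) ^ (1 / 8 : ℝ) * B.card / 2 ≤ m := by
            refine le_trans ?_ hmy.le
            rw [hy]
            gcongr
          have u3 : δ / 2 * ((n : ℝ) ^ (1 / 8 : ℝ) * B.card / 2) ≤ δ / 2 * m :=
            mul_le_mul_of_nonneg_left u2 (by positivity)
          have u4 : 12 * (B.card : ℝ) ≤ δ * (n : ℝ) ^ (1 / 8 : ℝ) * B.card :=
            mul_le_mul_of_nonneg_right u1 hb0.le
          have u5 : δ / 2 * ((n : ℝ) ^ (1 / 8 : ℝ) * B.card / 2) = δ * (n : ℝ) ^ (1 / 8 : ℝ) * B.card / 4 := by ring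
          rw [u5] at u3
          linarith
      _ = q ^ B.card := by rw [hq, ← Real.rpow_natCast, ← Real.rpow_mul hn0.le]
  -- union bound
  have hun : (((Reg n d).filter fun G => ¬ T7 c δ n d G).card : ℝ) ≤
      ∑ B ∈ Bs, (((Reg n d).filter fun G =>
      ¬ (((B ×ˢ B).filter fun t => G.Adj t.1 t.2).card : ℝ) ≤ (n : ℝ) ^ (-c) * d * B.card).card : ℝ) := by
    rw [← Nat.cast_sum]
    refine Nat.cast_le.2 ((card_le_card ?_).trans card_biUnion_le)
    intro G hG
    simp only [mem_filter] at hG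
    obtain ⟨hGR, hG⟩ := hG
    unfold T7 at hG
    push Not at hG
    obtain ⟨B, hB1, hB2⟩ := hG
    simp only [mem_biUnion, mem_filter, hBs, mem_univ, true_and]
    refine ⟨B, ⟨?_, hB1⟩, hGR, not_le.2 hB2⟩
    rintro rfl
    simp at hB2
  refine hun.trans ((sum_le_sum hone).trans ?_)
  rw [← sum_mul]
  refine mul_le_mul_of_nonneg_right ?_ (by positivity)
  have h1 : ∑ B ∈ Bs, q ^ B.card + 1 ≤ (q + 1) ^ n := by
    have h2 := Finset.sum_pow_mul_eq_add_pow q 1 (univ : Finset (Fin n))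
    rw [card_univ, Fintype.card_fin] at h2
    rw [← h2]
    have h3 : ∑ B ∈ insert ∅ Bs, q ^ B.card = ∑ B ∈ Bs, q ^ B.card + 1 := by
      rw [sum_insert]
      · simp [add_comm]
      · simp [hBs]
    rw [← h3]
    simp only [one_pow, mul_one]
    refine sum_le_sum_of_subset_of_nonneg ?_ (fun _ _ _ => by positivity)
    intro B _
    simp
  have h2 : (q + 1) ^ n ≤ Real.exp (n * q) := by
    rw [Real.exp_nat_mul]
    exact pow_le_pow_left₀ (by positivity) (Real.add_one_le_exp q) n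
  have h3 : (n : ℝ) * q = (n : ℝ) ^ (-(2 : ℝ)) := by
    rw [hq]
    nth_rewrite 1 [← Real.rpow_one (n : ℝ)]
    rw [← Real.rpow_add hn0]
    norm_num
  have h4 : (n : ℝ) ^ (-(2 : ℝ)) ≤ (n : ℝ)⁻¹ := by
    rw [← Real.rpow_neg_one]
    exact Real.rpow_le_rpow_of_exponent_le hn1 (by norm_num)
  have h5 : (n : ℝ)⁻¹ ≤ 1 := inv_le_one_of_one_le₀ hn1
  have h6 : |(n : ℝ) * q| ≤ 1 := by
    rw [abs_of_nonneg (by positivity), h3]; linarith
  have h7 := Real.abs_exp_sub_one_le h6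
  have h8 := le_abs_self (Real.exp (n * q) - 1)
  rw [abs_of_nonneg (by positivity : (0 : ℝ) ≤ n * q)] at h7
  linarith

end Pool.Agent.RRG
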