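import Pool.Agent.RRG.Basic

/-!
# Module T8 (MP_d15a9b_pr)
-/

open Finset Filter Topology
open scoped Classical

namespace Pool.Agent.RRG.T8

/-- greedy choice of a disjoint subfamily -/
theorem greedy {ι α : Type} (C : Finset ι) (E : ι → Finset α) (r D : ℕ)
    (hr : ∀ i ∈ C, (E i).card ≤ r) (hne : ∀ i ∈ C, (E i).Nonempty)
    (hD : ∀ e, ∀ C' ⊆ C, (∀ i ∈ C', e ∈ E i) → C'.card ≤ D) :
    ∃ J ⊆ C, (∀ i ∈ J, ∀ j ∈ J, i ≠ j → Disjoint (E i) (E j)) ∧ C.card ≤ J.card * (r * D) := by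
  let F := C.powerset.filter fun J => ∀ i ∈ J, ∀ j ∈ J, i ≠ j → Disjoint (E i) (E j)
  have hF : F.Nonempty := ⟨∅, by simp [F]⟩
  obtain ⟨J, hJ, hmax⟩ := exists_max_image F (fun J => J.card) hF
  simp only [F, mem_filter, mem_powerset] at hJ
  refine ⟨J, hJ.1, hJ.2, ?_⟩
  have hsub : C ⊆ J.biUnion fun j => (E j).biUnion fun e => C.filter fun i => e ∈ E i := by
    intro i hi
    simp only [mem_biUnion, mem_filter]
    by_cases hiJ : i ∈ J
    · obtain ⟨e, he⟩ := hne i hi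
      exact ⟨i, hiJ, e, he, hi, he⟩
    · by_contra hcon
      push Not at hcon
      have hdis : ∀ j ∈ J, Disjoint (E i) (E j) := by
        intro j hj
        rw [Finset.disjoint_left]
        intro e he hej
        exact hcon j hj e hej hi he
      have hin : insert i J ∈ F := by
        simp only [F, mem_filter, mem_powerset]
        refine ⟨insert_subset hi hJ.1, ?_⟩
        intro a ha b hb hab
        rw [mem_insert] at ha hb
        rcases ha with rfl | ha <;> rcases hb with rfl | hb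
        · exact absurd rfl hab
        · exact hdis b hb
        · exact (hdis a ha).symm
        · exact hJ.2 a ha b hb hab
      have := hmax _ hin
      rw [card_insert_of_notMem hiJ] at this
      omega
  refine (card_le_card hsub).trans ?_
  refine card_biUnion_le_card_mul _ _ _ fun j hj => ?_
  refine (card_biUnion_le_card_mul _ _ D fun e _ => ?_).trans ?_
  · exact hD e _ (filter_subset _ _) fun i hi => (mem_filter.1 hi).2
  · exact Nat.mul_le_mul_right _ (hr j (hJ.1 hj))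

/-- edge set of the path `u a a' u'` -/
def pe {n : ℕ} (t : Fin n × Fin n × Fin n × Fin n) : Finset (Sym2 (Fin n)) :=
  {s(t.1, t.2.1), s(t.2.1, t.2.2.1), s(t.2.2.1, t.2.2.2)}

theorem mem_pe {n : ℕ} {t : Fin n × Fin n × Fin n × Fin n} {e : Sym2 (Fin n)} :
    e ∈ pe t ↔ e = s(t.1, t.2.1) ∨ e = s(t.2.1, t.2.2.1) ∨ e = s(t.2.2.1, t.2.2.2) := by
  simp [pe]

theorem pe_card_le {n : ℕ} (t : Fin n × Fin n × Fin n × Fin n) : (pe t).card ≤ 3 := card_le_three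

/-- distinctness of the four vertices -/
def Dst {n : ℕ} (t : Fin n × Fin n × Fin n × Fin n) : Prop :=
  t.1 ≠ t.2.1 ∧ t.1 ≠ t.2.2.1 ∧ t.1 ≠ t.2.2.2 ∧ t.2.1 ≠ t.2.2.1 ∧ t.2.1 ≠ t.2.2.2 ∧ t.2.2.1 ≠ t.2.2.2

theorem pe_card {n : ℕ} {t : Fin n × Fin n × Fin n × Fin n} (h : Dst t) : (pe t).card = 3 := by
  obtain ⟨h1, h2, h3, h4, h5, h6⟩ := h
  unfold pe
  rw [card_insert_of_notMem, card_insert_of_notMem, card_singleton]
  · simp only [mem_singleton, Sym2.eq_iff]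
    grind
  · simp only [mem_insert, mem_singleton, Sym2.eq_iff]
    grind

theorem pe_subset {n : ℕ} {t s : Fin n × Fin n × Fin n × Fin n} (ht : Dst t) (hs : Dst s)
    (h : pe t ⊆ pe s) : (s.1 = t.1 ∧ s.2.2.2 = t.2.2.2) ∨ (s.1 = t.2.2.2 ∧ s.2.2.2 = t.1) := by
  obtain ⟨u, a, a', u'⟩ := t
  obtain ⟨x, y, y', x'⟩ := s
  have e1 := h (mem_pe.2 (Or.inl rfl))
  have e2 := h (mem_pe.2 (Or.inr (Or.inl rfl)))
  have e3 := h (mem_pe.2 (Or.inr (Or.inr rfl)))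
  simp only [mem_pe, Sym2.eq_iff] at e1 e2 e3
  simp only [Dst] at ht hs ⊢
  grind


/-! ### conflicts -/

section conflict

variable {n K : ℕ} {G : Gr n} (h1 : T1 K G) (h2 : T2 K G) (b : Fin n)

abbrev Q4 (n : ℕ) := Fin n × Fin n × Fin n × Fin n

/-- `b, t` is a 5-cycle -/
def Cy (G : Gr n) (b : Fin n) (t : Q4 n) : Prop := C5 G b t.1 t.2.1 t.2.2.1 t.2.2.2

include h2 in
theorem conf1 (p q : Fin n) (C : Finset (Q4 n)) (hC : ∀ t ∈ C, Cy G b t ∧ t.1 = p ∧ t.2.1 = q) :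
    C.card ≤ K := by
  by_cases hqb : q = b
  · have : C = ∅ := by
      rw [eq_empty_iff_forall_notMem]
      intro t ht
      obtain ⟨hc, _, h⟩ := hC t ht
      exact hc.2.2.2.2.2.1 (hqb ▸ h.symm)
    simp [this]
  refine (card_le_card_of_injOn (fun t => (t.2.2.1, t.2.2.2)) ?_ ?_).trans (h2 q b hqb)
  · intro t ht
    obtain ⟨hc, e1, e2⟩ := hC t ht
    simp only [coe_filter, mem_univ, true_and, Set.mem_ofPred_eq]
    obtain ⟨a1, a2, a3, a4, a5, a6, a7, a8, a9, a10⟩ := hc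
    subst e2
    exact ⟨a3, a4, a5, a10, hqb, a7.symm⟩
  · intro t ht t' ht' he
    obtain ⟨-, e1, e2⟩ := hC t ht
    obtain ⟨-, e1', e2'⟩ := hC t' ht'
    simp only [Prod.mk.injEq] at he
    exact Prod.ext (e1.trans e1'.symm) (Prod.ext (e2.trans e2'.symm) (Prod.ext he.1 he.2))

include h2 in
theorem conf3 (p q : Fin n) (C : Finset (Q4 n)) (hC : ∀ t ∈ C, Cy G b t ∧ t.2.2.1 = p ∧ t.2.2.2 = q) :
    C.card ≤ K := by
  by_cases hpb : p = b
  · have : C = ∅ := by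
      rw [eq_empty_iff_forall_notMem]
      intro t ht
      obtain ⟨hc, h, _⟩ := hC t ht
      exact hc.2.2.2.2.2.2.1 (hpb ▸ h.symm)
    simp [this]
  refine (card_le_card_of_injOn (fun t => (t.2.1, t.1)) ?_ ?_).trans (h2 p b hpb)
  · intro t ht
    obtain ⟨hc, e1, e2⟩ := hC t ht
    simp only [coe_filter, mem_univ, true_and, Set.mem_ofPred_eq]
    obtain ⟨a1, a2, a3, a4, a5, a6, a7, a8, a9, a10⟩ := hc
    subst e1
    exact ⟨a3.symm, a2.symm, a1.symm, a8.symm, hpb, a6.symm⟩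
  · intro t ht t' ht' he
    obtain ⟨-, e1, e2⟩ := hC t ht
    obtain ⟨-, e1', e2'⟩ := hC t' ht'
    simp only [Prod.mk.injEq] at he
    exact Prod.ext he.2 (Prod.ext he.1 (Prod.ext (e1.trans e1'.symm) (e2.trans e2'.symm)))

include h1 in
theorem conf2 (p q : Fin n) (C : Finset (Q4 n)) (hC : ∀ t ∈ C, Cy G b t ∧ t.2.1 = p ∧ t.2.2.1 = q) :
    C.card ≤ K * K := by
  by_cases hpb : p = b
  · have : C = ∅ := by
      rw [eq_empty_iff_forall_notMem]
      intro t ht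
      obtain ⟨hc, h, _⟩ := hC t ht
      exact hc.2.2.2.2.2.1 (hpb ▸ h.symm)
    simp [this]
  by_cases hqb : q = b
  · have : C = ∅ := by
      rw [eq_empty_iff_forall_notMem]
      intro t ht
      obtain ⟨hc, _, h⟩ := hC t ht
      exact hc.2.2.2.2.2.2.1 (hqb ▸ h.symm)
    simp [this]
  have : C.card ≤ ((nb G p ∩ nb G b) ×ˢ (nb G q ∩ nb G b)).card := by
    refine card_le_card_of_injOn (fun t => (t.1, t.2.2.2)) ?_ ?_
    · intro t ht
      obtain ⟨hc, e1, e2⟩ := hC t ht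
      simp only [coe_product, coe_inter, Set.mem_prod, Set.mem_inter_iff, mem_coe, mem_nb]
      obtain ⟨a1, a2, a3, a4, a5, a6, a7, a8, a9, a10⟩ := hc
      subst e1
      subst e2
      exact ⟨⟨a2.symm, a1⟩, a4, a5.symm⟩
    · intro t ht t' ht' he
      obtain ⟨-, e1, e2⟩ := hC t ht
      obtain ⟨-, e1', e2'⟩ := hC t' ht'
      simp only [Prod.mk.injEq] at he
      exact Prod.ext he.1 (Prod.ext (e1.trans e1'.symm) (Prod.ext (e2.trans e2'.symm) he.2))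
  rw [card_product] at this
  exact this.trans (Nat.mul_le_mul (h1 p b hpb) (h1 q b hqb))

include h1 h2 in
theorem conf (e : Sym2 (Fin n)) (C : Finset (Q4 n)) (hC : ∀ t ∈ C, Cy G b t ∧ e ∈ pe t) :
    C.card ≤ 4 * K + 2 * (K * K) := by
  induction e using Sym2.ind with
  | _ p q =>
    have hsub : C ⊆ ((C.filter fun t => t.1 = p ∧ t.2.1 = q) ∪ (C.filter fun t => t.1 = q ∧ t.2.1 = p)) ∪
        (((C.filter fun t => t.2.1 = p ∧ t.2.2.1 = q) ∪ (C.filter fun t => t.2.1 = q ∧ t.2.2.1 = p)) ∪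
        ((C.filter fun t => t.2.2.1 = p ∧ t.2.2.2 = q) ∪ (C.filter fun t => t.2.2.1 = q ∧ t.2.2.2 = p))) := by
      intro t ht
      have := (hC t ht).2
      simp only [mem_pe, Sym2.eq_iff] at this
      simp only [mem_union, mem_filter]
      grind
    have c1 : ∀ p q : Fin n, (C.filter fun t => t.1 = p ∧ t.2.1 = q).card ≤ K := fun p q =>
      conf1 h2 b p q _ fun t ht => ⟨(hC t (mem_filter.1 ht).1).1, (mem_filter.1 ht).2⟩
    have c2 : ∀ p q : Fin n, (C.filter fun t => t.2.1 = p ∧ t.2.2.1 = q).card ≤ K * K := fun p q =>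
      conf2 h1 b p q _ fun t ht => ⟨(hC t (mem_filter.1 ht).1).1, (mem_filter.1 ht).2⟩
    have c3 : ∀ p q : Fin n, (C.filter fun t => t.2.2.1 = p ∧ t.2.2.2 = q).card ≤ K := fun p q =>
      conf3 h2 b p q _ fun t ht => ⟨(hC t (mem_filter.1 ht).1).1, (mem_filter.1 ht).2⟩
    have := c1 p q
    have := c1 q p
    have := c2 p q
    have := c2 q p
    have := c3 p q
    have := c3 q p
    refine (card_le_card hsub).trans ?_
    refine (card_union_le _ _).trans ?_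
    refine (Nat.add_le_add (card_union_le _ _) ((card_union_le _ _).trans
      (Nat.add_le_add (card_union_le _ _) (card_union_le _ _)))).trans ?_
    omega

end conflict

/-- image of a quadruple under a permutation -/
def im {n : ℕ} (s : Equiv.Perm (Fin n)) (t : Q4 n) : Q4 n := (s t.1, s t.2.1, s t.2.2.1, s t.2.2.2)

theorem mem_pe_im {n : ℕ} (s : Equiv.Perm (Fin n)) (t : Q4 n) (e : Sym2 (Fin n)) :
    e ∈ pe (im s t) ↔ Sym2.map s.symm e ∈ pe t := by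
  induction e using Sym2.ind with
  | _ p q =>
    simp only [mem_pe, im, Sym2.map_mk, Sym2.eq_iff, Equiv.symm_apply_eq]

section det

variable {n K : ℕ} {G H : Gr n} {σ : Fin n → Equiv.Perm (Fin n)}

/-- the configurations of `(H, σ)` at `b` -/
noncomputable def Cf (G : Gr n) (s : Equiv.Perm (Fin n)) (b : Fin n) : Finset (Q4 n) :=
  univ.filter fun t => Cy G b t ∧ ¬ ((s t.1 = t.1 ∧ s t.2.2.2 = t.2.2.2) ∨ (s t.1 = t.2.2.2 ∧ s t.2.2.2 = t.1)) ∧
    P3 G (s t.1) (s t.2.1) (s t.2.2.1) (s t.2.2.2)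

/-- the tuples of `T8` are the configurations -/
theorem card_eq (hp : IsPartner G H σ) (b : Fin n) :
    (univ.filter fun t : Fin n × Fin n × Fin n × Fin n =>
      G.Adj b t.1 ∧ G.Adj b t.2.1 ∧
      ¬ ((σ b t.1 = t.1 ∧ σ b t.2.1 = t.2.1) ∨ (σ b t.1 = t.2.1 ∧ σ b t.2.1 = t.1)) ∧
      C5 H b (σ b t.1) t.2.2.1 t.2.2.2 (σ b t.2.1) ∧
      P3 G (σ b t.1) t.2.2.1 t.2.2.2 (σ b t.2.1)).card ≤ (Cf G (σ b) b).card := by
  refine card_le_card_of_injOn (fun t => (t.1, (σ b).symm t.2.2.1, (σ b).symm t.2.2.2, t.2.1)) ?_ ?_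
  · intro t ht
    simp only [coe_filter, mem_univ, true_and, Set.mem_ofPred_eq] at ht
    obtain ⟨_, _, h3, h4, h5⟩ := ht
    rw [mem_coe, Cf, mem_filter]
    simp only [mem_univ, true_and, Equiv.apply_symm_apply, Cy]
    refine ⟨?_, h3, h5⟩
    rw [hp.C5_iff]
    simpa using h4
  · intro t _ t' _ he
    simp only [Prod.mk.injEq, EmbeddingLike.apply_eq_iff_eq] at he
    exact Prod.ext he.1 (Prod.ext he.2.2.2 (Prod.ext he.2.1 he.2.2.1))

/-- the edge set of a configuration -/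
def Ec (s : Equiv.Perm (Fin n)) (t : Q4 n) : Finset (Sym2 (Fin n)) := pe t ∪ pe (im s t)

theorem conf_Cf (h1 : T1 K G) (h2 : T2 K G) (s : Equiv.Perm (Fin n)) (b : Fin n) (e : Sym2 (Fin n))
    (C : Finset (Q4 n)) (hC : C ⊆ Cf G s b) (he : ∀ t ∈ C, e ∈ Ec s t) : C.card ≤ 8 * K + 4 * (K * K) := by
  have hsub : C ⊆ (C.filter fun t => e ∈ pe t) ∪ (C.filter fun t => Sym2.map s.symm e ∈ pe t) := by
    intro t ht
    have := he t ht
    rw [Ec, mem_union, mem_pe_im] at this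
    simp only [mem_union, mem_filter]
    tauto
  have hcy : ∀ t ∈ C, Cy G b t := fun t ht => (mem_filter.1 (hC ht)).2.1
  have a1 := conf h1 h2 b e (C.filter fun t => e ∈ pe t)
    fun t ht => ⟨hcy t (mem_filter.1 ht).1, (mem_filter.1 ht).2⟩
  have a2 := conf h1 h2 b (Sym2.map s.symm e) (C.filter fun t => Sym2.map s.symm e ∈ pe t)
    fun t ht => ⟨hcy t (mem_filter.1 ht).1, (mem_filter.1 ht).2⟩
  have := (card_le_card hsub).trans (card_union_le _ _)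
  omega

/-- index set of the union bound -/
abbrev Ix (n : ℕ) := (Fin n × Fin n) × (Fin n × Fin n) × (Fin n × Fin n) × (Fin n × Fin n)

/-- first path of an index `((u,x),(u',x'),(a,a'),(y,y'))` -/
def p1 (i : Ix n) : Q4 n := (i.1.1, i.2.2.1.1, i.2.2.1.2, i.2.1.1)

def p2 (i : Ix n) : Q4 n := (i.1.2, i.2.2.2.1, i.2.2.2.2, i.2.1.2)

def Ei (i : Ix n) : Finset (Sym2 (Fin n)) := pe (p1 i) ∪ pe (p2 i)

noncomputable def IS (S : Finset (Fin n × Fin n)) : Finset (Ix n) :=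
  (S ×ˢ S ×ˢ univ ×ˢ univ).filter fun i => Dst (p1 i) ∧ Dst (p2 i) ∧ ¬ (pe (p1 i) ⊆ pe (p2 i))

/-- index of a configuration -/
def ix (s : Equiv.Perm (Fin n)) (t : Q4 n) : Ix n :=
  ((t.1, s t.1), (t.2.2.2, s t.2.2.2), (t.2.1, t.2.2.1), (s t.2.1, s t.2.2.1))

theorem p1_ix (s : Equiv.Perm (Fin n)) (t : Q4 n) : p1 (ix s t) = t := rfl

theorem p2_ix (s : Equiv.Perm (Fin n)) (t : Q4 n) : p2 (ix s t) = im s t := rfl

theorem ix_inj (s : Equiv.Perm (Fin n)) : Function.Injective (ix s) := fun t t' h => by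
  rw [← p1_ix s t, h, p1_ix]

theorem Dst_of_Cy {b : Fin n} {t : Q4 n} (h : Cy G b t) : Dst t := by
  obtain ⟨a1, a2, a3, a4, a5, a6, a7, a8, a9, a10⟩ := h
  exact ⟨a2.ne, a8, a9, a3.ne, a10, a4.ne⟩

theorem Dst_im (s : Equiv.Perm (Fin n)) {t : Q4 n} (h : Dst t) : Dst (im s t) := by
  simpa [Dst, im] using h

/-- the list of `σ_b` -/
noncomputable def li (G : Gr n) (s : Equiv.Perm (Fin n)) (b : Fin n) : Finset (Fin n × Fin n) :=
  (nb G b).image fun u => (u, s u)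

theorem li_card {d : ℕ} (hG : G ∈ Reg n d) (s : Equiv.Perm (Fin n)) (b : Fin n) : (li G s b).card = d := by
  rw [li, card_image_of_injective _ (fun u u' h => (Prod.mk.inj h).1)]
  exact mem_Reg.1 hG b

theorem ix_mem {s : Equiv.Perm (Fin n)} {b : Fin n} {t : Q4 n} (ht : t ∈ Cf G s b) :
    ix s t ∈ IS (li G s b) := by
  obtain ⟨-, hc, hn, hp⟩ := mem_filter.1 ht
  have hd := Dst_of_Cy hc
  simp only [IS, mem_filter, mem_product, mem_univ, and_true, p1_ix, p2_ix]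
  refine ⟨⟨mem_image.2 ⟨t.1, mem_nb.2 hc.1, rfl⟩, mem_image.2 ⟨t.2.2.2, mem_nb.2 hc.2.2.2.2.1.symm, rfl⟩⟩,
    hd, Dst_im s hd, fun hsub => hn ?_⟩
  exact pe_subset hd (Dst_im s hd) hsub

theorem Ec_sub {s : Equiv.Perm (Fin n)} {b : Fin n} {t : Q4 n} (ht : t ∈ Cf G s b) : Ec s t ⊆ ed G := by
  obtain ⟨-, hc, hn, hp⟩ := mem_filter.1 ht
  intro e he
  rw [Ec, mem_union, mem_pe, mem_pe] at he
  obtain ⟨a1, a2, a3, a4, a5, a6, a7, a8, a9, a10⟩ := hc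
  obtain ⟨b1, b2, b3, _⟩ := hp
  rcases he with (h | h | h) | (h | h | h) <;> rw [h, mk_mem_ed] <;> assumption

theorem Ec_card (s : Equiv.Perm (Fin n)) (t : Q4 n) : (Ec s t).card ≤ 6 :=
  (card_union_le _ _).trans (Nat.add_le_add (pe_card_le _) (pe_card_le _))

/-- deterministic part -/
theorem det {d : ℕ} (hG : G ∈ Reg n d) (h1 : T1 K G) (h2 : T2 K G) {L : ℝ} (h8 : ¬ T8 L G) {m : ℕ}
    (hm : ∀ k : ℕ, L < k * (6 * (8 * K + 4 * (K * K)) : ℕ) → m ≤ k) :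
    ∃ S ∈ (powersetCard d (univ : Finset (Fin n × Fin n))), ∃ J ⊆ IS S, J.card = m ∧
      (∀ i ∈ J, ∀ j ∈ J, i ≠ j → Disjoint (Ei i) (Ei j)) ∧ ∀ i ∈ J, Ei i ⊆ ed G := by
  simp only [T8, not_forall, not_le, exists_prop] at h8
  obtain ⟨H, σ, hp, b, hb⟩ := h8
  have hb' : L < ((Cf G (σ b) b).card : ℝ) := hb.trans_le (by exact_mod_cast card_eq hp b)
  obtain ⟨J, hJ, hdis, hcard⟩ := greedy (Cf G (σ b) b) (Ec (σ b)) 6 (8 * K + 4 * (K * K))
    (fun t _ => Ec_card _ t) (fun t _ => ⟨s(t.1, t.2.1), mem_union_left _ (mem_pe.2 (Or.inl rfl))⟩)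
    (fun e C hC he => conf_Cf h1 h2 (σ b) b e C hC he)
  have hmJ : m ≤ J.card := by
    refine hm _ (hb'.trans_le ?_)
    exact_mod_cast hcard
  obtain ⟨J', hJ', hJm⟩ := exists_subset_card_eq hmJ
  refine ⟨li G (σ b) b, ?_, J'.image (ix (σ b)), ?_, ?_, ?_, ?_⟩
  · rw [mem_powersetCard]
    exact ⟨subset_univ _, li_card hG _ b⟩
  · intro i hi
    obtain ⟨t, ht, rfl⟩ := mem_image.1 hi
    exact ix_mem (hJ (hJ' ht))
  · rw [card_image_of_injective _ (ix_inj _), hJm]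
  · intro i hi j hj hij
    obtain ⟨t, ht, rfl⟩ := mem_image.1 hi
    obtain ⟨t', ht', rfl⟩ := mem_image.1 hj
    exact hdis t (hJ' ht) t' (hJ' ht') (fun h => hij (by rw [h]))
  · intro i hi
    obtain ⟨t, ht, rfl⟩ := mem_image.1 hi
    exact Ec_sub (hJ (hJ' ht))

end det

/-! ### the expectation -/

theorem mu_inner {n : ℕ} (hPS : Stmt_PS) (w : ℝ) (hw : 0 ≤ w) (u x u' x' : Fin n) :
    ∑ q ∈ (univ : Finset ((Fin n × Fin n) × (Fin n × Fin n))).filter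
      (fun q => Dst (u, q.1.1, q.1.2, u') ∧ Dst (x, q.2.1, q.2.2, x') ∧
        ¬ (pe (u, q.1.1, q.1.2, u') ⊆ pe (x, q.2.1, q.2.2, x'))),
      w ^ (pe (u, q.1.1, q.1.2, u') ∪ pe (x, q.2.1, q.2.2, x')).card
      ≤ (n : ℝ) ^ 2 * (w ^ 3 * ((n : ℝ) ^ 2 * w ^ 3 + 40 * n * w ^ 2 + 400 * w)) := by
  have hG : 0 ≤ (n : ℝ) ^ 2 * w ^ 3 + 40 * n * w ^ 2 + 400 * w := by positivity
  rw [sum_filter, ← univ_product_univ, sum_product_right]
  have hin : ∀ y ∈ (univ : Finset (Fin n × Fin n)), ∑ a ∈ (univ : Finset (Fin n × Fin n)),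
      (if Dst (u, a.1, a.2, u') ∧ Dst (x, y.1, y.2, x') ∧
        ¬ (pe (u, a.1, a.2, u') ⊆ pe (x, y.1, y.2, x')) then
        w ^ (pe (u, a.1, a.2, u') ∪ pe (x, y.1, y.2, x')).card else 0)
      ≤ w ^ 3 * ((n : ℝ) ^ 2 * w ^ 3 + 40 * n * w ^ 2 + 400 * w) := by
    intro y _
    by_cases hu : u = u'
    · rw [sum_eq_zero]
      · positivity
      · intro a _
        rw [if_neg]
        rintro ⟨h, -⟩
        exact h.2.2.1 hu
    by_cases hy : Dst (x, y.1, y.2, x')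
    swap
    · rw [sum_eq_zero]
      · positivity
      · intro a _
        rw [if_neg]
        rintro ⟨-, h, -⟩
        exact hy h
    have hps := hPS n w hw u u' hu (pe (x, y.1, y.2, x')) ((pe_card_le _).trans (by norm_num))
    have := mul_le_mul_of_nonneg_left hps (pow_nonneg hw 3)
    refine le_trans ?_ this
    rw [mul_sum, sum_filter]
    refine sum_le_sum fun a _ => ?_
    by_cases hc : Dst (u, a.1, a.2, u') ∧ Dst (x, y.1, y.2, x') ∧
        ¬ (pe (u, a.1, a.2, u') ⊆ pe (x, y.1, y.2, x'))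
    · rw [if_pos hc, if_pos]
      · have hcard : (pe (u, a.1, a.2, u') ∪ pe (x, y.1, y.2, x')).card =
            3 + (pe (u, a.1, a.2, u') \ pe (x, y.1, y.2, x')).card := by
          rw [← card_sdiff_add_card, pe_card hy, add_comm]
        rw [hcard, pow_add]
        exact le_refl _
      · obtain ⟨⟨a1, a2, a3, a4, a5, a6⟩, -, hs⟩ := hc
        exact ⟨a1, a2, a4, a5, a6, hs⟩
    · rw [if_neg hc]
      split_ifs
      · positivity
      · exact le_refl _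
  refine (sum_le_sum hin).trans ?_
  rw [sum_const, card_univ, nsmul_eq_mul, Fintype.card_prod, Fintype.card_fin]
  push_cast
  rw [sq]

theorem mu_le {n : ℕ} (hPS : Stmt_PS) (w : ℝ) (hw : 0 ≤ w) (S : Finset (Fin n × Fin n)) :
    ∑ i ∈ IS S, w ^ (Ei i).card ≤ (S.card : ℝ) ^ 2 *
      ((n : ℝ) ^ 2 * (w ^ 3 * ((n : ℝ) ^ 2 * w ^ 3 + 40 * n * w ^ 2 + 400 * w))) := by
  rw [IS, sum_filter, sum_product]
  have : ∀ s ∈ S, ∑ q ∈ S ×ˢ (univ : Finset (Fin n × Fin n)) ×ˢ (univ : Finset (Fin n × Fin n)),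
      (if Dst (p1 (s, q)) ∧ Dst (p2 (s, q)) ∧ ¬ (pe (p1 (s, q)) ⊆ pe (p2 (s, q))) then
        w ^ (Ei (s, q)).card else 0) ≤ (S.card : ℝ) *
      ((n : ℝ) ^ 2 * (w ^ 3 * ((n : ℝ) ^ 2 * w ^ 3 + 40 * n * w ^ 2 + 400 * w))) := by
    intro s _
    rw [sum_product]
    have h2 : ∀ s' ∈ S, ∑ q ∈ (univ : Finset (Fin n × Fin n)) ×ˢ (univ : Finset (Fin n × Fin n)),
        (if Dst (p1 (s, s', q)) ∧ Dst (p2 (s, s', q)) ∧ ¬ (pe (p1 (s, s', q)) ⊆ pe (p2 (s, s', q))) then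
          w ^ (Ei (s, s', q)).card else 0) ≤
        ((n : ℝ) ^ 2 * (w ^ 3 * ((n : ℝ) ^ 2 * w ^ 3 + 40 * n * w ^ 2 + 400 * w))) := by
      intro s' _
      have := mu_inner hPS w hw s.1 s.2 s'.1 s'.2
      rw [sum_filter, ← univ_product_univ] at this
      exact this
    refine (sum_le_sum h2).trans ?_
    rw [sum_const, nsmul_eq_mul]
  refine (sum_le_sum this).trans ?_
  rw [sum_const, nsmul_eq_mul]
  exact le_of_eq (by ring)

theorem IS_mem {n : ℕ} {S : Finset (Fin n × Fin n)} {i : Ix n} (h : i ∈ IS S) : Dst (p1 i) ∧ Dst (p2 i) := by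
  rw [IS, mem_filter] at h
  exact ⟨h.2.1, h.2.2.1⟩

theorem Ei_ndiag {n : ℕ} {S : Finset (Fin n × Fin n)} {i : Ix n} (h : i ∈ IS S) {e : Sym2 (Fin n)}
    (he : e ∈ Ei i) : ¬ e.IsDiag := by
  obtain ⟨hd1, hd2⟩ := IS_mem h
  rw [Ei, mem_union, mem_pe, mem_pe] at he
  obtain ⟨a1, a2, a3, a4, a5, a6⟩ := hd1
  obtain ⟨b1, b2, b3, b4, b5, b6⟩ := hd2
  rcases he with (h | h | h) | (h | h | h)
  · rw [h, Sym2.mk_isDiag_iff]; exact a1
  · rw [h, Sym2.mk_isDiag_iff]; exact a4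
  · rw [h, Sym2.mk_isDiag_iff]; exact a6
  · rw [h, Sym2.mk_isDiag_iff]; exact b1
  · rw [h, Sym2.mk_isDiag_iff]; exact b4
  · rw [h, Sym2.mk_isDiag_iff]; exact b6

theorem Ei_card {n : ℕ} (i : Ix n) : (Ei i).card ≤ 6 :=
  (card_union_le _ _).trans (Nat.add_le_add (pe_card_le _) (pe_card_le _))

/-- last numerical step -/
theorem final_num {X R B N θ : ℝ} {m d : ℕ} (hN : 1 ≤ N) (hX : 0 ≤ X) (hR : 0 ≤ R) (hB : 0 ≤ B) (hm : 0 < m)
    (h : X * (m.factorial : ℝ) ≤ (N ^ 2) ^ d * B ^ m * R) (h1 : Real.exp 1 * B / m ≤ N ^ (-θ))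
    (h2 : 2 * (d : ℝ) + 1 ≤ θ * m) : X ≤ N ^ (-1 : ℝ) * R := by
  have hN0 : (0 : ℝ) < N := by linarith
  have hmpos : (0 : ℝ) < m := by exact_mod_cast hm
  have hfac : (m : ℝ) ^ m ≤ Real.exp 1 ^ m * (m.factorial : ℝ) := by
    have := Real.pow_div_factorial_le_exp (m : ℝ) hmpos.le m
    rw [div_le_iff₀ (by positivity)] at this
    rwa [← Real.exp_one_pow] at this
  have hXle : X * (m : ℝ) ^ m ≤ N ^ (-1 : ℝ) * R * (m : ℝ) ^ m := by
    calc X * (m : ℝ) ^ m ≤ X * (Real.exp 1 ^ m * (m.factorial : ℝ)) := mul_le_mul_of_nonneg_left hfac hX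
      _ = Real.exp 1 ^ m * (X * (m.factorial : ℝ)) := by ring
      _ ≤ Real.exp 1 ^ m * ((N ^ 2) ^ d * B ^ m * R) := mul_le_mul_of_nonneg_left h (by positivity)
      _ = (N ^ 2) ^ d * R * (Real.exp 1 * B / m) ^ m * (m : ℝ) ^ m := by
          rw [div_pow, mul_pow, mul_assoc (_ * R), div_mul_cancel₀ _ (by positivity)]
          ring
      _ ≤ (N ^ 2) ^ d * R * (N ^ (-θ)) ^ m * (m : ℝ) ^ m := by
          refine mul_le_mul_of_nonneg_right (mul_le_mul_of_nonneg_left ?_ (by positivity)) (by positivity)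
          exact pow_le_pow_left₀ (by positivity) h1 m
      _ = N ^ (2 * (d : ℝ) - θ * m) * R * (m : ℝ) ^ m := by
          have : (N ^ 2) ^ d * (N ^ (-θ)) ^ m = N ^ (2 * (d : ℝ) - θ * m) := by
            rw [← Real.rpow_natCast (N ^ (-θ)) m, ← Real.rpow_mul hN0.le, ← pow_mul,
              ← Real.rpow_natCast N, ← Real.rpow_add hN0]
            congr 1
            push_cast
            ring
          rw [← this]
          ring
      _ ≤ N ^ (-1 : ℝ) * R * (m : ℝ) ^ m := by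
          refine mul_le_mul_of_nonneg_right (mul_le_mul_of_nonneg_right ?_ hR) (by positivity)
          exact Real.rpow_le_rpow_of_exponent_le hN (by linarith)
  exact le_of_mul_le_mul_right hXle (by positivity)

/-- the ratio -/
theorem ratio {N x Λ D c ε₀ : ℝ} {m : ℕ} (hN : 1 ≤ N) (hx1 : 1 ≤ x) (hΛ0 : 0 ≤ Λ) (hΛ : Λ = x ^ 4 / N)
    (hγ : x ^ 3 / N ≤ N ^ (-ε₀)) (hD : 1 ≤ D) (hC1 : 23232 * D ≤ N ^ (ε₀ / 2)) (hc : c ≤ ε₀ / 4)
    (hm0 : 0 < m) (hm1 : N ^ (-c) * x * Λ / D ≤ m) :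
    Real.exp 1 * (x ^ 2 * (N ^ 2 * ((2 * x / N) ^ 3 *
        (N ^ 2 * (2 * x / N) ^ 3 + 40 * N * (2 * x / N) ^ 2 + 400 * (2 * x / N))))) / m ≤ N ^ (-(ε₀ / 4)) := by
  have hN0 : (0 : ℝ) < N := by linarith
  have hx0 : (0 : ℝ) < x := by linarith
  have hBle : (x ^ 2 * (N ^ 2 * ((2 * x / N) ^ 3 *
        (N ^ 2 * (2 * x / N) ^ 3 + 40 * N * (2 * x / N) ^ 2 + 400 * (2 * x / N))))) ≤
        7744 * (x * Λ * N ^ (-ε₀)) := by
    have e1 : (x ^ 2 * (N ^ 2 * ((2 * x / N) ^ 3 *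
        (N ^ 2 * (2 * x / N) ^ 3 + 40 * N * (2 * x / N) ^ 2 + 400 * (2 * x / N))))) =
        8 * (x * Λ) * (8 * (x ^ 3 / N) + 160 * (x ^ 2 / N) + 800 * (x / N)) := by
      rw [hΛ]
      field_simp
      ring
    have e2 : x ^ 2 / N ≤ x ^ 3 / N :=
      div_le_div_of_nonneg_right (pow_le_pow_right₀ hx1 (by norm_num)) hN0.le
    have e3 : x / N ≤ x ^ 3 / N :=
      div_le_div_of_nonneg_right (le_self_pow₀ hx1 (by norm_num)) hN0.le
    rw [e1]
    have h0 : 0 ≤ 8 * (x * Λ) := by positivity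
    calc 8 * (x * Λ) * (8 * (x ^ 3 / N) + 160 * (x ^ 2 / N) + 800 * (x / N))
        ≤ 8 * (x * Λ) * (968 * N ^ (-ε₀)) := by
          refine mul_le_mul_of_nonneg_left ?_ h0
          linarith
      _ = 7744 * (x * Λ * N ^ (-ε₀)) := by ring
  have hmpos : (0 : ℝ) < m := by exact_mod_cast hm0
  rw [div_le_iff₀ hmpos]
  have he : Real.exp 1 ≤ 3 := by
    have := Real.exp_one_lt_d9
    linarith
  have hpow : N ^ (-ε₀) * (23232 * D) ≤ N ^ (-(ε₀ / 4)) * N ^ (-c) := by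
    calc N ^ (-ε₀) * (23232 * D) ≤ N ^ (-ε₀) * N ^ (ε₀ / 2) :=
          mul_le_mul_of_nonneg_left hC1 (by positivity)
      _ = N ^ (-(ε₀ / 4) + -(ε₀ / 4)) := by
          rw [← Real.rpow_add hN0]; congr 1; ring
      _ ≤ N ^ (-(ε₀ / 4) + -c) := Real.rpow_le_rpow_of_exponent_le hN (by linarith)
      _ = N ^ (-(ε₀ / 4)) * N ^ (-c) := by rw [Real.rpow_add hN0]
  calc Real.exp 1 * (x ^ 2 * (N ^ 2 * ((2 * x / N) ^ 3 *
        (N ^ 2 * (2 * x / N) ^ 3 + 40 * N * (2 * x / N) ^ 2 + 400 * (2 * x / N)))))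
      ≤ 3 * (7744 * (x * Λ * N ^ (-ε₀))) := mul_le_mul he hBle (by positivity) (by norm_num)
    _ = (x * Λ / D) * (N ^ (-ε₀) * (23232 * D)) := by
        field_simp
        ring
    _ ≤ (x * Λ / D) * (N ^ (-(ε₀ / 4)) * N ^ (-c)) :=
        mul_le_mul_of_nonneg_left hpow (by positivity)
    _ = N ^ (-(ε₀ / 4)) * (N ^ (-c) * x * Λ / D) := by ring
    _ ≤ N ^ (-(ε₀ / 4)) * m := mul_le_mul_of_nonneg_left hm1 (by positivity)

/-- the event for the list `S` -/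
def EvP {n : ℕ} (m : ℕ) (S : Finset (Fin n × Fin n)) (G : Gr n) : Prop :=
  ∃ J ⊆ IS S, J.card = m ∧ (∀ i ∈ J, ∀ j ∈ J, i ≠ j → Disjoint (Ei i) (Ei j)) ∧ ∀ i ∈ J, Ei i ⊆ ed G

noncomputable def Ev (n d m : ℕ) (S : Finset (Fin n × Fin n)) : Finset (Gr n) :=
  (Reg n d).filter fun G => EvP m S G

theorem mem_Ev {n d m : ℕ} {S : Finset (Fin n × Fin n)} {G : Gr n} :
    G ∈ Ev n d m S ↔ G ∈ Reg n d ∧ EvP m S G := by
  rw [Ev, mem_filter]

theorem Ev_card (hDO : Stmt_DO) {n d m : ℕ} (hn : 64 ≤ n) (hd : 64 * d ≤ n)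
    (hmd : 32 * (m * 6) ≤ n * d) (S : Finset (Fin n × Fin n)) :
    ((Ev n d m S).card : ℝ) * (m.factorial : ℝ) ≤
      (∑ i ∈ IS S, (2 * (d : ℝ) / n) ^ (Ei i).card) ^ m * (Reg n d).card := by
  have h : ∃ F F' : Finset (Gr n), (∀ G, G ∈ F ↔ G ∈ Reg n d ∧ (ed G ∩ ∅ = ∅ ∧ EvP m S G)) ∧
      (∀ G, G ∈ F' ↔ G ∈ Reg n d ∧ ed G ∩ ∅ = ∅) ∧
      (F.card : ℝ) * (m.factorial : ℝ) ≤ (∑ i ∈ IS S, (2 * (d : ℝ) / n) ^ (Ei i).card) ^ m * F'.card := by
    have h0 := hDO n d hn hd ∅ ∅ (by simp) (Ix n) (IS S) Ei m 6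
      (fun i hi => ⟨Ei_card i, fun e he => ⟨notMem_empty _, Ei_ndiag hi he, by simp⟩⟩) hmd
    refine ⟨_, _, ?_, ?_, h0⟩
    · intro G
      simp only [mem_filter, EvP]
    · intro G
      simp only [mem_filter]
  obtain ⟨F, F', hF, hF', h⟩ := h
  have hsub : Ev n d m S ⊆ F := by
    intro G hG
    rw [mem_Ev] at hG
    exact (hF G).2 ⟨hG.1, inter_empty _, hG.2⟩
  have hsub' : F' ⊆ Reg n d := fun G hG => ((hF' G).1 hG).1
  refine le_trans (mul_le_mul_of_nonneg_right (Nat.cast_le.2 (card_le_card hsub)) (Nat.cast_nonneg _)) ?_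
  refine h.trans ?_
  exact mul_le_mul_of_nonneg_left (Nat.cast_le.2 (card_le_card hsub'))
    (pow_nonneg (sum_nonneg fun i _ => by positivity) _)

/-- the counting bound -/
theorem count (hDO : Stmt_DO) (hPS : Stmt_PS) {n d K m : ℕ} (hn : 64 ≤ n) (hd : 64 * d ≤ n)
    (hmd : 32 * (m * 6) ≤ n * d) {L : ℝ}
    (hm : ∀ k : ℕ, L < k * (6 * (8 * K + 4 * (K * K)) : ℕ) → m ≤ k) :
    (((Reg n d).filter fun G => T1 K G ∧ T2 K G ∧ ¬ T8 L G).card : ℝ) * (m.factorial : ℝ) ≤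
      ((n : ℝ) ^ 2) ^ d * ((d : ℝ) ^ 2 * ((n : ℝ) ^ 2 * ((2 * (d : ℝ) / n) ^ 3 *
        ((n : ℝ) ^ 2 * (2 * (d : ℝ) / n) ^ 3 + 40 * n * (2 * (d : ℝ) / n) ^ 2 + 400 * (2 * (d : ℝ) / n))))) ^ m
        * (Reg n d).card := by
  have hB0 : 0 ≤ (d : ℝ) ^ 2 * ((n : ℝ) ^ 2 * ((2 * (d : ℝ) / n) ^ 3 *
        ((n : ℝ) ^ 2 * (2 * (d : ℝ) / n) ^ 3 + 40 * n * (2 * (d : ℝ) / n) ^ 2 + 400 * (2 * (d : ℝ) / n)))) := by
    positivity
  have hmu : ∀ S ∈ powersetCard d (univ : Finset (Fin n × Fin n)),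
      ∑ i ∈ IS S, (2 * (d : ℝ) / n) ^ (Ei i).card ≤ (d : ℝ) ^ 2 * ((n : ℝ) ^ 2 * ((2 * (d : ℝ) / n) ^ 3 *
        ((n : ℝ) ^ 2 * (2 * (d : ℝ) / n) ^ 3 + 40 * n * (2 * (d : ℝ) / n) ^ 2 + 400 * (2 * (d : ℝ) / n)))) := by
    intro S hS
    refine (mu_le hPS _ (by positivity) S).trans (le_of_eq ?_)
    rw [(mem_powersetCard.1 hS).2]
  generalize (d : ℝ) ^ 2 * ((n : ℝ) ^ 2 * ((2 * (d : ℝ) / n) ^ 3 *
        ((n : ℝ) ^ 2 * (2 * (d : ℝ) / n) ^ 3 + 40 * n * (2 * (d : ℝ) / n) ^ 2 + 400 * (2 * (d : ℝ) / n)))) = B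
    at hB0 hmu ⊢
  have hsub : ((Reg n d).filter fun G => T1 K G ∧ T2 K G ∧ ¬ T8 L G) ⊆
      (powersetCard d (univ : Finset (Fin n × Fin n))).biUnion (Ev n d m) := by
    intro G hG
    rw [mem_filter] at hG
    obtain ⟨hr, h1, h2, h8⟩ := hG
    obtain ⟨S, hS, h⟩ := det hr h1 h2 h8 hm
    rw [mem_biUnion]
    exact ⟨S, hS, mem_Ev.2 ⟨hr, h⟩⟩
  have hEv : ∀ S ∈ powersetCard d (univ : Finset (Fin n × Fin n)),
      ((Ev n d m S).card : ℝ) * (m.factorial : ℝ) ≤ B ^ m * (Reg n d).card := by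
    intro S hS
    refine (Ev_card hDO hn hd hmd S).trans ?_
    exact mul_le_mul_of_nonneg_right
      (pow_le_pow_left₀ (sum_nonneg fun i _ => by positivity) (hmu S hS) m) (Nat.cast_nonneg _)
  have hfac : (0 : ℝ) ≤ (m.factorial : ℝ) := by positivity
  calc _ ≤ (((powersetCard d (univ : Finset (Fin n × Fin n))).biUnion (Ev n d m)).card : ℝ) * (m.factorial : ℝ) := by
        refine mul_le_mul_of_nonneg_right ?_ hfac
        exact_mod_cast card_le_card hsub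
    _ ≤ (∑ S ∈ powersetCard d (univ : Finset (Fin n × Fin n)), ((Ev n d m S).card : ℝ)) * (m.factorial : ℝ) := by
        refine mul_le_mul_of_nonneg_right ?_ hfac
        exact_mod_cast card_biUnion_le
    _ = ∑ S ∈ powersetCard d (univ : Finset (Fin n × Fin n)), ((Ev n d m S).card : ℝ) * (m.factorial : ℝ) := by
        rw [sum_mul]
    _ ≤ ∑ S ∈ powersetCard d (univ : Finset (Fin n × Fin n)), B ^ m * (Reg n d).card := sum_le_sum hEv
    _ = ((powersetCard d (univ : Finset (Fin n × Fin n))).card : ℝ) * (B ^ m * (Reg n d).card) := by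
        rw [sum_const, nsmul_eq_mul]
    _ ≤ ((n : ℝ) ^ 2) ^ d * (B ^ m * (Reg n d).card) := by
        refine mul_le_mul_of_nonneg_right ?_ (by positivity)
        rw [card_powersetCard, card_univ, Fintype.card_prod, Fintype.card_fin, sq]
        exact_mod_cast Nat.choose_le_pow (n * n) d
    _ = _ := by ring

theorem ev_rpow {a C : ℝ} (ha : 0 < a) : ∀ᶠ n : ℕ in atTop, C ≤ (n : ℝ) ^ a :=
  ((tendsto_rpow_atTop ha).comp tendsto_natCast_atTop_atTop).eventually_ge_atTop C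

theorem main (hDO : Stmt_DO) (hPS : Stmt_PS) {ε ε₀ : ℝ} (hε : 0 < ε) (hε₀ : 0 < ε₀) (K : ℕ) (hK : 1 ≤ K) :
    Whp (RegC ε ε₀) (fun n d G => T1 K G → T2 K G → T8 ((n : ℝ) ^ (-(min ε (ε₀ / 4))) * d * lam n d) G) := by
  set c := min ε (ε₀ / 4) with hc
  have hc0 : 0 < c := lt_min hε (by linarith)
  have hcε : c ≤ ε := min_le_left _ _
  have hcε₀ : c ≤ ε₀ / 4 := min_le_right _ _
  set D : ℕ := 6 * (8 * K + 4 * (K * K)) with hD
  have hD1 : 1 ≤ D := by rw [hD]; nlinarith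
  have hDr : (1 : ℝ) ≤ D := by exact_mod_cast hD1
  have hev : ∀ᶠ n : ℕ in atTop, 10000 ≤ n ∧ 23232 * (D : ℝ) ≤ (n : ℝ) ^ (ε₀ / 2) ∧
      12 * D / ε₀ ≤ (n : ℝ) ^ (3 * ε) :=
    (eventually_ge_atTop 10000).and ((ev_rpow (by linarith)).and (ev_rpow (by linarith)))
  obtain ⟨n₀, hn₀⟩ := eventually_atTop.1 hev
  refine Whp.of_bound (fun n => (n : ℝ) ^ (-1 : ℝ)) ?_ ⟨n₀, fun n hn d hreg => ?_⟩
  · exact (tendsto_rpow_neg_atTop one_pos).comp tendsto_natCast_atTop_atTop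
  obtain ⟨hn4, hC1, hC2⟩ := hn₀ n hn
  obtain ⟨hd1, hd2⟩ := hreg
  have hN : (10000 : ℝ) ≤ n := by exact_mod_cast hn4
  have hN1 : (1 : ℝ) ≤ n := by linarith
  have hN0 : (0 : ℝ) < n := by linarith
  set N : ℝ := (n : ℝ) with hNdef
  set x : ℝ := (d : ℝ) with hx
  have hx1 : 1 ≤ x := (Real.one_le_rpow hN1 (by linarith)).trans hd1
  have hx0 : 0 < x := by linarith
  -- `d³ ≤ n`
  have hx3 : x ^ 3 ≤ N := hd2.trans (by
    conv_rhs => rw [← Real.rpow_one N]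
    exact Real.rpow_le_rpow_of_exponent_le hN1 (by linarith))
  have hx384 : 384 * x ≤ N := by
    by_contra hcon
    push Not at hcon
    have h1 : N ^ 3 < (384 * x) ^ 3 := pow_lt_pow_left₀ hcon hN0.le (by norm_num)
    have h2 : (384 * x) ^ 3 = 384 ^ 3 * x ^ 3 := by ring
    have h3 : N ^ 3 < 384 ^ 3 * N := by
      rw [h2] at h1
      exact h1.trans_le (mul_le_mul_of_nonneg_left hx3 (by norm_num))
    have h4 : N ^ 2 < 384 ^ 3 := by
      have : N ^ 2 * N < 384 ^ 3 * N := by rw [← pow_succ]; exact h3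
      exact lt_of_mul_lt_mul_right this hN0.le
    nlinarith
  have hγ : x ^ 3 / N ≤ N ^ (-ε₀) := by
    rw [div_le_iff₀ hN0]
    calc x ^ 3 ≤ N ^ (1 - ε₀) := hd2
      _ = N ^ (-ε₀ + 1) := by rw [neg_add_eq_sub]
      _ = N ^ (-ε₀) * N := by rw [Real.rpow_add hN0, Real.rpow_one]
  have hlam : N ^ (4 * ε) ≤ lam n d := by
    rw [lam, le_div_iff₀ hN0]
    calc N ^ (4 * ε) * N = N ^ (4 * ε + 1) := by rw [Real.rpow_add hN0, Real.rpow_one]
      _ = (N ^ (1 / 4 + ε)) ^ (4 : ℕ) := by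
        rw [← Real.rpow_natCast, ← Real.rpow_mul hN0.le]
        congr 1
        push_cast
        ring
      _ ≤ x ^ 4 := pow_le_pow_left₀ (by positivity) hd1 4
  have hlam0 : 0 < lam n d := (Real.rpow_pos_of_pos hN0 _).trans_le hlam
  have hlamx : lam n d ≤ x := by
    rw [lam, div_le_iff₀ hN0]
    calc x ^ 4 = x * x ^ 3 := by ring
      _ ≤ x * N := mul_le_mul_of_nonneg_left hx3 hx0.le
  set L : ℝ := N ^ (-c) * x * lam n d with hL
  have hL0 : 0 < L := by positivity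
  have hLx : L ≤ x ^ 2 := by
    have h1 : N ^ (-c) ≤ 1 := Real.rpow_le_one_of_one_le_of_nonpos hN1 (by linarith)
    calc L ≤ 1 * x * x := by
          rw [hL]; gcongr
      _ = x ^ 2 := by ring
  set m : ℕ := ⌈L / D⌉₊ with hm
  have hm1 : L / D ≤ m := Nat.le_ceil _
  have hm2 : (m : ℝ) < L / D + 1 := Nat.ceil_lt_add_one (by positivity)
  have hm0 : 0 < m := Nat.ceil_pos.2 (by positivity)
  have hm3 : (m : ℝ) ≤ 2 * x ^ 2 := by
    have : L / D ≤ L := div_le_self hL0.le hDr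
    nlinarith
  have hmk : ∀ k : ℕ, L < k * (D : ℕ) → m ≤ k := by
    intro k hk
    rw [hm, Nat.ceil_le, div_le_iff₀ (by positivity)]
    exact hk.le
  have h64 : 64 ≤ n := by omega
  have h64d : 64 * d ≤ n := by
    have : ((64 * d : ℕ) : ℝ) ≤ (n : ℝ) := by
      push_cast
      linarith
    exact Nat.cast_le.1 this
  have hmd : 32 * (m * 6) ≤ n * d := by
    have : 32 * ((m : ℝ) * 6) ≤ N * x := by
      calc 32 * ((m : ℝ) * 6) = 192 * m := by ring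
        _ ≤ 192 * (2 * x ^ 2) := by linarith
        _ = (384 * x) * x := by ring
        _ ≤ N * x := mul_le_mul_of_nonneg_right hx384 hx0.le
    have h' : ((32 * (m * 6) : ℕ) : ℝ) ≤ ((n * d : ℕ) : ℝ) := by
      push_cast
      exact this
    exact Nat.cast_le.1 h'
  have hcount := count hDO hPS (K := K) h64 h64d hmd (L := L) hmk
  refine le_trans (Nat.cast_le.2 (card_le_card
    (t := (Reg n d).filter fun G => T1 K G ∧ T2 K G ∧ ¬ T8 L G) ?_)) ?_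
  · intro G hG
    simp only [mem_filter] at hG ⊢
    exact ⟨hG.1, by tauto⟩
  have hratio := ratio (ε₀ := ε₀) hN1 hx1 hlam0.le rfl hγ hDr hC1 hcε₀ hm0 hm1
  -- the exponent
  have hexp : 2 * x + 1 ≤ ε₀ / 4 * m := by
    have h1 : N ^ (3 * ε) * x ≤ L := by
      have : N ^ (3 * ε) ≤ N ^ (-c) * lam n d := by
        calc N ^ (3 * ε) ≤ N ^ (-c + 4 * ε) := Real.rpow_le_rpow_of_exponent_le hN1 (by linarith)
          _ = N ^ (-c) * N ^ (4 * ε) := by rw [Real.rpow_add hN0]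
          _ ≤ N ^ (-c) * lam n d := by gcongr
      calc N ^ (3 * ε) * x ≤ (N ^ (-c) * lam n d) * x := by gcongr
        _ = L := by rw [hL]; ring
    have h2 : 12 * D / ε₀ * x ≤ L := (mul_le_mul_of_nonneg_right hC2 hx0.le).trans h1
    have h3 : 12 / ε₀ * x ≤ L / D := by
      rw [le_div_iff₀ (by positivity)]
      calc 12 / ε₀ * x * D = 12 * D / ε₀ * x := by ring
        _ ≤ L := h2
    calc 2 * x + 1 ≤ 3 * x := by linarith
      _ = ε₀ / 4 * (12 / ε₀ * x) := by field_simp; ring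
      _ ≤ ε₀ / 4 * m := by
          refine mul_le_mul_of_nonneg_left (h3.trans hm1) (by linarith)
  exact final_num hN1 (Nat.cast_nonneg _) (Nat.cast_nonneg _) (by positivity) hm0 hcount hratio hexp

end Pool.Agent.RRG.T8

namespace Pool.Agent.RRG

theorem T8_proof (hDO : Stmt_DO) (hPS : Stmt_PS) (hCodeg : Stmt_Codeg) (hT2 : Stmt_T2) : Stmt_T8 := by
  intro ε ε₀ hε hε₀
  obtain ⟨K₁, h1⟩ := hCodeg (1 / 6) (by norm_num)
  obtain ⟨K₂, h2⟩ := hT2 ε₀ hε₀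
  refine ⟨min ε (ε₀ / 4), lt_min hε (by linarith), ?_⟩
  have h8 := T8.main hDO hPS hε hε₀ (K₁ + K₂ + 1) (by omega)
  have h1' : Whp (RegC ε ε₀) (fun _ _ G => T1 (K₁ + K₂ + 1) G) := by
    refine Whp.mono h1 ⟨1, fun n hn d hreg => ?_⟩
      ⟨0, fun n _ d _ G _ h => fun u v huv => (h u v huv).trans (by omega)⟩
    have hN1 : (1 : ℝ) ≤ n := by exact_mod_cast hn
    have hN0 : (0 : ℝ) < n := by linarith
    have hx3 : (d : ℝ) ^ 3 ≤ n := hreg.2.trans (by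
      conv_rhs => rw [← Real.rpow_one (n : ℝ)]
      exact Real.rpow_le_rpow_of_exponent_le hN1 (by linarith))
    have h3 : ((n : ℝ) ^ (1 / 2 - 1 / 6 : ℝ)) ^ (3 : ℕ) = n := by
      rw [← Real.rpow_natCast, ← Real.rpow_mul hN0.le]
      norm_num
    refine le_of_pow_le_pow_left₀ (n := 3) (by norm_num) (by positivity) ?_
    rw [h3]
    exact hx3
  have h2' : Whp (RegC ε ε₀) (fun _ _ G => T2 (K₁ + K₂ + 1) G) := by
    refine Whp.mono h2 ⟨0, fun n _ d hreg => hreg.2⟩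
      ⟨0, fun n _ d _ G _ h => fun x z hxz => (h x z hxz).trans (by omega)⟩
  refine Whp.mono (h1'.and (h2'.and h8)) ⟨0, fun n _ d hreg => hreg⟩
    ⟨0, fun n _ d _ G _ h => h.2.2 h.1 h.2.1⟩

end Pool.Agent.RRG
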