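import Pool.Agent.RRG.T9a
import Pool.Agent.RRG.Disj

/-!
# Module T9 (MP_d15a9b_pr, section 6)
-/

open Finset Filter Topology
open scoped Classical

namespace Pool.Agent.RRG
namespace T9m

/-- changed edges -/
noncomputable def Fc {n : ℕ} (H : Gr n) (σ : Fin n → Equiv.Perm (Fin n)) : Finset (Sym2 (Fin n)) :=
  (univ.filter fun t : Fin n × Fin n => Ch H σ t.1 t.2).image fun t => s(t.1, t.2)

theorem mem_Fc {n : ℕ} {H : Gr n} {σ : Fin n → Equiv.Perm (Fin n)} {v w : Fin n} :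
    s(v, w) ∈ Fc H σ ↔ Ch H σ v w := by
  unfold Fc
  simp only [mem_image, mem_filter, mem_univ, true_and, Sym2.eq_iff]
  constructor
  · rintro ⟨t, ht, h | h⟩
    · rw [← h.1, ← h.2]; exact ht
    · rw [← h.1, ← h.2]; exact ht.symm
  · intro h
    exact ⟨(v, w), h, Or.inl ⟨rfl, rfl⟩⟩

theorem card_Fc_le {n : ℕ} (H : Gr n) (σ : Fin n → Equiv.Perm (Fin n)) : (Fc H σ).card ≤ Mch H σ :=
  card_image_le

/-- changed part of a tuple -/
noncomputable def kp {n : ℕ} (S : Finset (Fin 5)) (t : Tup n) : Finset (Sym2 (Fin n)) := S.image (ee t)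

theorem card_kp {n : ℕ} {S : Finset (Fin 5)} {t : Tup n} (h : Dis t) : (kp S t).card = S.card :=
  card_image_of_injective _ (ee_inj h)

theorem mem_kp {n : ℕ} {S : Finset (Fin 5)} {t : Tup n} {e : Sym2 (Fin n)} :
    e ∈ kp S t ↔ ∃ i ∈ S, ee t i = e := by
  unfold kp; rw [mem_image]

/-- configurations with changed part inside `F'` -/
noncomputable def IS {n : ℕ} (S : Finset (Fin 5)) (F' : Finset (Sym2 (Fin n))) : Finset (Tup n) :=
  univ.filter fun t => Dis t ∧ kp S t ⊆ F'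

/-- five-cycles with changed edges exactly at the positions in `S` -/
noncomputable def Zs {n : ℕ} (H : Gr n) (σ : Fin n → Equiv.Perm (Fin n)) (S : Finset (Fin 5)) : Finset (Tup n) :=
  univ.filter fun t => C5t H t ∧ ∀ i, (ee t i ∈ Fc H σ ↔ i ∈ S)

theorem card_compl5 (S : Finset (Fin 5)) : Sᶜ.card = 5 - S.card := by
  rw [card_compl, Fintype.card_fin]

theorem card_ed_le {n d : ℕ} {G : Gr n} (hG : G ∈ Reg n d) : (ed G).card ≤ n * d := by
  have h1 : ed G ⊆ (univ : Finset (Fin n)).biUnion fun v => (nb G v).image fun w => s(v, w) := by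
    intro e he
    induction e using Sym2.ind with
    | _ v w =>
      rw [mk_mem_ed] at he
      simp only [mem_biUnion, mem_univ, true_and, mem_image, mem_nb]
      exact ⟨v, w, he, rfl⟩
  calc (ed G).card ≤ _ := card_le_card h1
    _ ≤ ∑ v : Fin n, ((nb G v).image fun w => s(v, w)).card := card_biUnion_le
    _ ≤ ∑ v : Fin n, d := sum_le_sum fun v _ => card_image_le.trans (by rw [mem_Reg.1 hG v])
    _ = n * d := by simp

/-- conflict sums -/
theorem conf_sum {n d : ℕ} {G H : Gr n} {σ : Fin n → Equiv.Perm (Fin n)} {K : ℕ} {c₁ c₂ : ℝ}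
    (hp : IsPartner G H σ) (hK : T2 K G) (h3 : T3 c₁ c₂ n d G) (hc₂ : 0 ≤ c₂) (S : Finset (Fin 5))
    {s : ℝ} (hs0 : 0 < s) (hs1 : s ≤ 1) (hsl : s ^ S.card * lam n d = 1) (z : Tup n) :
    ∑ z' ∈ (Zs H σ S).filter (fun z' => z' ≠ z ∧ ¬ Disjoint (kp Sᶜ z) (kp Sᶜ z')),
      s ^ (kp S z' \ kp S z).card ≤ 50 * c₂ + 2500 * K := by
  have hl0 : 0 ≤ lam n d := by unfold lam; positivity
  have h3' := hp.T3' h3
  have hL : ∀ v w, H.Adj v w → (nC5 H v w : ℝ) ≤ c₂ * lam n d := fun v w h => (h3' v w h).2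
  have hpt : ∀ z' ∈ (Zs H σ S).filter (fun z' => z' ≠ z ∧ ¬ Disjoint (kp Sᶜ z) (kp Sᶜ z')),
      s ^ (kp S z' \ kp S z).card ≤
        (∑ p : Fin 5 × Fin 5, if ee z' p.1 = ee z p.2 then s ^ S.card else 0) +
        ∑ q : (Fin 5 × Fin 5) × (Fin 5 × Fin 5),
          if (q.1.1 ≠ q.2.1 ∧ ee z' q.1.1 = ee z q.1.2 ∧ ee z' q.2.1 = ee z q.2.2) then (1 : ℝ) else 0 := by
    intro z' hz'
    simp only [mem_filter, Zs, mem_univ, true_and] at hz'
    obtain ⟨⟨hC, hch⟩, hne, hcf⟩ := hz'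
    rw [not_disjoint_iff] at hcf
    obtain ⟨e, he, he'⟩ := hcf
    rw [mem_kp] at he he'
    obtain ⟨j, hj, hje⟩ := he
    obtain ⟨i, hi, hie⟩ := he'
    have hij : ee z' i = ee z j := hie.trans hje.symm
    have n1 : ∀ p ∈ (univ : Finset (Fin 5 × Fin 5)),
        (0 : ℝ) ≤ if ee z' p.1 = ee z p.2 then s ^ S.card else 0 := by
      intro p _; split_ifs <;> positivity
    have n2 : ∀ q ∈ (univ : Finset ((Fin 5 × Fin 5) × (Fin 5 × Fin 5))),
        (0 : ℝ) ≤ if (q.1.1 ≠ q.2.1 ∧ ee z' q.1.1 = ee z q.1.2 ∧ ee z' q.2.1 = ee z q.2.2) then (1 : ℝ) else 0 := by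
      intro p _; split_ifs <;> norm_num
    by_cases hd : Disjoint (kp S z') (kp S z)
    · have e1 : (kp S z' \ kp S z) = kp S z' := sdiff_eq_self_of_disjoint hd
      rw [e1, card_kp hC.dis]
      have h1 := single_le_sum n1 (mem_univ (i, j))
      rw [if_pos hij] at h1
      have h2 := sum_nonneg n2
      linarith
    · rw [not_disjoint_iff] at hd
      obtain ⟨e', h1, h2⟩ := hd
      rw [mem_kp] at h1 h2
      obtain ⟨i', hi', hie'⟩ := h1
      obtain ⟨j', hj', hje'⟩ := h2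
      have hij' : ee z' i' = ee z j' := hie'.trans hje'.symm
      have hne' : i ≠ i' := by
        rintro rfl
        rw [mem_compl] at hi
        exact hi hi'
      have h1 := single_le_sum n2 (mem_univ ((i, j), (i', j')))
      rw [if_pos ⟨hne', hij, hij'⟩] at h1
      have h2 := sum_nonneg n1
      have h4 : s ^ (kp S z' \ kp S z).card ≤ 1 := pow_le_one₀ hs0.le hs1
      linarith
  refine (sum_le_sum hpt).trans ?_
  -- extend to all five-cycles
  have hsub : (Zs H σ S).filter (fun z' => z' ≠ z ∧ ¬ Disjoint (kp Sᶜ z) (kp Sᶜ z')) ⊆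
      univ.filter fun t => C5t H t := by
    intro t ht
    simp only [mem_filter, Zs, mem_univ, true_and] at ht ⊢
    exact ht.1.1
  refine (sum_le_sum_of_subset_of_nonneg hsub ?_).trans ?_
  · intro t _ _
    refine add_nonneg (sum_nonneg fun p _ => ?_) (sum_nonneg fun p _ => ?_)
    · split_ifs <;> positivity
    · split_ifs <;> norm_num
  rw [sum_add_distrib]
  refine add_le_add ?_ ?_
  · rw [sum_comm]
    have h1 : ∀ p ∈ (univ : Finset (Fin 5 × Fin 5)),
        ∑ t ∈ univ.filter (fun t => C5t H t), (if ee t p.1 = ee z p.2 then s ^ S.card else 0) ≤ 2 * c₂ := by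
      intro p _
      rw [← sum_filter, filter_filter, sum_const, nsmul_eq_mul]
      have := count1 (mul_nonneg hc₂ hl0) hL p.1 (ee z p.2)
      calc _ ≤ (2 * (c₂ * lam n d)) * s ^ S.card := mul_le_mul_of_nonneg_right this (by positivity)
        _ = 2 * c₂ * (s ^ S.card * lam n d) := by ring
        _ = 2 * c₂ := by rw [hsl, mul_one]
    refine (sum_le_sum h1).trans ?_
    rw [sum_const, nsmul_eq_mul]
    have : ((univ : Finset (Fin 5 × Fin 5)).card : ℝ) = 25 := by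
      simp
    rw [this]
    apply le_of_eq; ring
  · rw [sum_comm]
    have h1 : ∀ q ∈ (univ : Finset ((Fin 5 × Fin 5) × (Fin 5 × Fin 5))),
        ∑ t ∈ univ.filter (fun t => C5t H t),
          (if (q.1.1 ≠ q.2.1 ∧ ee t q.1.1 = ee z q.1.2 ∧ ee t q.2.1 = ee z q.2.2) then (1 : ℝ) else 0) ≤ 4 * K := by
      intro q _
      by_cases hq : q.1.1 = q.2.1
      · refine le_trans (le_of_eq (sum_eq_zero fun t _ => ?_)) (by positivity)
        rw [if_neg]
        exact fun h => h.1 hq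
      · rw [← sum_filter, filter_filter, sum_const, nsmul_eq_mul, mul_one]
        have := count2 hp hK q.1.1 q.2.1 hq (ee z q.1.2) (ee z q.2.2)
        have h5 : ((univ.filter fun t : Tup n => C5t H t ∧ ee t q.1.1 = ee z q.1.2 ∧
            ee t q.2.1 = ee z q.2.2).card : ℝ) ≤ 4 * K := by exact_mod_cast this
        refine le_trans ?_ h5
        refine Nat.cast_le.2 (card_le_card ?_)
        intro t ht
        simp only [mem_filter, mem_univ, true_and] at ht ⊢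
        exact ⟨ht.1, ht.2.2⟩
    refine (sum_le_sum h1).trans ?_
    rw [sum_const, nsmul_eq_mul]
    have : ((univ : Finset ((Fin 5 × Fin 5) × (Fin 5 × Fin 5))).card : ℝ) = 625 := by
      simp
    rw [this]
    apply le_of_eq; ring

/-- the potential -/
noncomputable def psi {n : ℕ} (S : Finset (Fin 5)) (A N w : ℝ) (F' : Finset (Sym2 (Fin n))) : ℝ :=
  A * F'.card + N * (w ^ (5 - S.card) * (IS S F').card)

theorem core (hS : Stmt_S) (hR : Stmt_Rand) {n d : ℕ} {G H : Gr n} {σ : Fin n → Equiv.Perm (Fin n)} {K : ℕ}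
    {c₁ c₂ : ℝ} (hp : IsPartner G H σ) (hK : T2 K G) (h3 : T3 c₁ c₂ n d G)
    (hc₂ : 0 ≤ c₂) (S : Finset (Fin 5)) (hSn : S.Nonempty) {s A N w : ℝ} (hs0 : 0 < s) (hs1 : s ≤ 1)
    (hsl : s ^ S.card * lam n d = 1) (hA : 0 ≤ A) (hN : 0 ≤ N) (hw : 0 ≤ w)
    (hbig : A * s * Mch H σ + N * (w ^ (5 - S.card) * (IS S (Fc H σ)).card) * s ^ S.card <
      s ^ S.card * (Zs H σ S).card / (4 * ((50 * c₂ + 2500 * K) + 1))) :
    ∃ F' : Finset (Sym2 (Fin n)), F'.Nonempty ∧ ∃ Z' ⊆ IS S F',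
      (∀ z ∈ Z', ∀ z' ∈ Z', z ≠ z' → Disjoint (kp Sᶜ z) (kp Sᶜ z')) ∧ (∀ z ∈ Z', kp Sᶜ z ⊆ ed G) ∧
      psi S A N w F' < Z'.card := by
  have hpsi : ∀ F' : Finset (Sym2 (Fin n)), 0 ≤ psi S A N w F' := fun F' => by unfold psi; positivity
  obtain ⟨F', hF', Z', hZ', hk, hcf, hlt⟩ := hS (Sym2 (Fin n)) (Tup n) (Fc H σ) (Zs H σ S) (kp S) S.card s
    (50 * c₂ + 2500 * K) (A * s * Mch H σ + N * (w ^ (5 - S.card) * (IS S (Fc H σ)).card) * s ^ S.card)
    (fun z z' => ¬ Disjoint (kp Sᶜ z) (kp Sᶜ z')) (psi S A N w) hs0 hs1 (by positivity)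
    (by
      intro z hz
      simp only [mem_filter, Zs, mem_univ, true_and] at hz
      refine ⟨?_, card_kp hz.1.dis⟩
      intro e he
      rw [mem_kp] at he
      obtain ⟨i, hi, rfl⟩ := he
      exact (hz.2 i).2 hi)
    (fun z z' h h' => h h'.symm)
    (by
      intro z hz
      refine le_trans (le_of_eq ?_) (conf_sum hp hK h3 hc₂ S hs0 hs1 hsl z)
      refine sum_congr (by ext; simp only [mem_filter]) (fun z' _ => ?_)
      have : ∀ (i1 i2 : DecidableEq (Sym2 (Fin n))) (X Y : Finset (Sym2 (Fin n))),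
          (@SDiff.sdiff _ (@Finset.instSDiff _ i1) X Y) = (@SDiff.sdiff _ (@Finset.instSDiff _ i2) X Y) := by
        intro i1 i2 X Y
        rw [Subsingleton.elim i1 i2]
      rw [this])
    (fun F' _ => hpsi F')
    (by
      -- expectation
      have e1 := Pool.Agent.RRG.S.sum_card hR s (Fc H σ) (Fc H σ) (fun e => {e}) (fun e he => by simpa using he)
      have e2 := Pool.Agent.RRG.S.sum_card hR s (Fc H σ) (IS S (Fc H σ)) (kp S) (fun t ht => (mem_filter.1 ht).2.2)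
      have e1' : ∑ A' ∈ (Fc H σ).powerset, wt s (Fc H σ) A' * (A'.card : ℝ) =
          ∑ j ∈ Fc H σ, s ^ ({j} : Finset (Sym2 (Fin n))).card := by
        rw [← e1]
        refine sum_congr rfl fun A' hA' => ?_
        rw [mem_powerset] at hA'
        congr 3
        ext e
        simp only [mem_filter, singleton_subset_iff]
        exact ⟨fun h => ⟨hA' h, h⟩, fun h => h.2⟩
      have e2' : ∑ A' ∈ (Fc H σ).powerset, wt s (Fc H σ) A' * ((IS S A').card : ℝ) =
          ∑ j ∈ IS S (Fc H σ), s ^ (kp S j).card := by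
        rw [← e2]
        refine sum_congr rfl fun A' hA' => ?_
        rw [mem_powerset] at hA'
        congr 3
        ext t
        simp only [mem_filter, IS, mem_univ, true_and]
        exact ⟨fun h => ⟨⟨h.1, h.2.trans hA'⟩, h.2⟩, fun h => ⟨h.1.1, h.2⟩⟩
      have e3 : ∑ A' ∈ (Fc H σ).powerset, wt s (Fc H σ) A' * psi S A N w A' =
          A * ∑ A' ∈ (Fc H σ).powerset, wt s (Fc H σ) A' * (A'.card : ℝ) +
          N * w ^ (5 - S.card) * ∑ A' ∈ (Fc H σ).powerset,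
            wt s (Fc H σ) A' * ((IS S A').card : ℝ) := by
        rw [mul_sum, mul_sum, ← sum_add_distrib]
        refine sum_congr rfl fun A' hA' => ?_
        unfold psi
        ring
      rw [e3, e1', e2']
      have g1 : ∑ j ∈ Fc H σ, s ^ ({j} : Finset (Sym2 (Fin n))).card = s * (Fc H σ).card := by
        simp [mul_comm]
      have g2 : ∑ j ∈ IS S (Fc H σ), s ^ (kp S j).card = s ^ S.card * (IS S (Fc H σ)).card := by
        rw [sum_congr rfl (fun t ht => by rw [card_kp (mem_filter.1 ht).2.1]), sum_const, nsmul_eq_mul, mul_comm]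
      rw [g1, g2]
      have g3 : (((Fc H σ).card : ℕ) : ℝ) ≤ Mch H σ := by exact_mod_cast card_Fc_le H σ
      have g4 : A * (s * (Fc H σ).card) ≤ A * s * Mch H σ := by
        rw [← mul_assoc]; exact mul_le_mul_of_nonneg_left g3 (by positivity)
      linarith [g4, (by ring : N * w ^ (5 - S.card) * (s ^ S.card * (IS S (Fc H σ)).card) =
        N * (w ^ (5 - S.card) * (IS S (Fc H σ)).card) * s ^ S.card)])
    hbig
  have hZne : Z'.Nonempty := by
    rw [← card_pos]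
    have := lt_of_le_of_lt (hpsi F') hlt
    exact_mod_cast this
  have hmem : ∀ z ∈ Z', C5t H z ∧ ∀ i, (ee z i ∈ Fc H σ ↔ i ∈ S) := by
    intro z hz
    have := hZ' hz
    simpa only [mem_filter, Zs, mem_univ, true_and] using this
  refine ⟨F', ?_, Z', ?_, ?_, ?_, hlt⟩
  · obtain ⟨z, hz⟩ := hZne
    have h1 : (kp S z).Nonempty := hSn.image _
    exact h1.mono (hk z hz)
  · intro z hz
    simp only [IS, mem_filter, mem_univ, true_and]
    exact ⟨(hmem z hz).1.dis, hk z hz⟩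
  · intro z hz z' hz' hne
    have := hcf z hz z' hz' hne
    exact not_not.1 this
  · intro z hz e he
    rw [mem_kp] at he
    obtain ⟨i, hi, rfl⟩ := he
    rw [mem_compl] at hi
    obtain ⟨hC, hch⟩ := hmem z hz
    have h1 : ee z i ∉ Fc H σ := fun h => hi ((hch i).1 h)
    have h2 := hC.mem i
    revert h1 h2
    induction ee z i using Sym2.ind with
    | _ a b =>
      intro h1 h2
      rw [mk_mem_ed]
      rw [mem_Fc] at h1
      exact (not_Ch hp h2 h1).1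

/-- the probability of one `F'` -/
theorem prob (hDO : Stmt_DO) {n d : ℕ} (hn : 64 ≤ n) (hd : 64 * d ≤ n) (hnd : 200 ≤ n * d)
    (S : Finset (Fin 5)) (hS1 : 2 ≤ S.card) (hS3 : S.card ≤ 3) {δ : ℝ} (hδ : 0 < δ)
    (hN : 100 * Real.exp 1 ≤ (n : ℝ) ^ (δ / 2)) (F' : Finset (Sym2 (Fin n))) :
    (((Reg n d).filter fun G => ∃ Z' ⊆ IS S F',
      (∀ z ∈ Z', ∀ z' ∈ Z', z ≠ z' → Disjoint (kp Sᶜ z) (kp Sᶜ z')) ∧ (∀ z ∈ Z', kp Sᶜ z ⊆ ed G) ∧
      psi S (1000 / δ) ((n : ℝ) ^ δ) (2 * (d : ℝ) / n) F' < Z'.card).card : ℝ) ≤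
      (n : ℝ) ^ (-(5 * F'.card : ℝ)) * (Reg n d).card := by
  have hn0 : (0 : ℝ) < n := by
    have : 0 < n := by omega
    exact_mod_cast this
  set w : ℝ := 2 * (d : ℝ) / n with hw
  have hw0 : 0 ≤ w := by positivity
  set ψ := psi S (1000 / δ) ((n : ℝ) ^ δ) w F' with hψ
  have hψ0 : 0 ≤ ψ := by rw [hψ]; unfold psi; positivity
  set m : ℕ := ⌈ψ / 100⌉₊ with hm
  have hmψ : ψ / 100 ≤ m := Nat.le_ceil _
  by_cases hsmall : 96 * m ≤ n * d
  swap
  · -- the event is empty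
    have he : ((Reg n d).filter fun G => ∃ Z' ⊆ IS S F',
      (∀ z ∈ Z', ∀ z' ∈ Z', z ≠ z' → Disjoint (kp Sᶜ z) (kp Sᶜ z')) ∧ (∀ z ∈ Z', kp Sᶜ z ⊆ ed G) ∧
      ψ < Z'.card) = ∅ := by
      rw [filter_eq_empty_iff]
      rintro G hG ⟨Z', hZ', hdis, hsub, hlt⟩
      have h1 : (Z'.biUnion fun z => kp Sᶜ z).card = ∑ z ∈ Z', (kp Sᶜ z).card :=
        card_biUnion fun z hz z' hz' hne => hdis z hz z' hz' hne
      have h2 : (Z'.biUnion fun z => kp Sᶜ z).card ≤ n * d :=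
        (card_le_card (biUnion_subset.2 hsub)).trans (card_ed_le hG)
      have h3 : Z'.card * 2 ≤ ∑ z ∈ Z', (kp Sᶜ z).card := by
        rw [← smul_eq_mul, ← sum_const]
        refine sum_le_sum fun z hz => ?_
        have : z ∈ IS S F' := hZ' hz
        rw [card_kp (mem_filter.1 this).2.1, card_compl5]
        omega
      have h4 : Z'.card * 2 ≤ n * d := by omega
      have h5 : (Z'.card : ℝ) * 2 ≤ n * d := by exact_mod_cast h4
      have h6 : (m : ℝ) < ψ / 100 + 1 := Nat.ceil_lt_add_one (by positivity)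
      apply hsmall
      have h7 : (200 : ℝ) ≤ n * d := by exact_mod_cast hnd
      have h8 : (96 * m : ℝ) ≤ n * d := by linarith
      exact_mod_cast h8
    rw [he]
    simp only [card_empty, Nat.cast_zero]
    positivity
  -- use DO
  have h1 := hDO n d hn hd ∅ ∅ (by simp) (Tup n) (IS S F') (fun t => kp Sᶜ t) m 3 (by
    intro t ht
    have hD : Dis t := (mem_filter.1 ht).2.1
    refine ⟨?_, ?_⟩
    · rw [card_kp hD, card_compl5]; omega
    · intro e he
      rw [mem_kp] at he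
      obtain ⟨i, _, rfl⟩ := he
      exact ⟨by simp, ee_not_diag hD i, fun x _ => by simp⟩) (by omega)
  have e1 : (Reg n d).filter (fun G => ed G ∩ (∅ : Finset (Sym2 (Fin n))) = ∅) = Reg n d := by
    rw [filter_true_of_mem]
    intro G _
    simp
  rw [e1] at h1
  have e2 : ∑ t ∈ IS S F', w ^ (kp Sᶜ t).card = w ^ (5 - S.card) * (IS S F').card := by
    rw [sum_congr rfl (fun t ht => by rw [card_kp (mem_filter.1 ht).2.1, card_compl5]), sum_const,
      nsmul_eq_mul, mul_comm]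
  rw [e2] at h1
  set μ : ℝ := w ^ (5 - S.card) * (IS S F').card with hμ
  have hμ0 : 0 ≤ μ := by positivity
  have hev : (((Reg n d).filter fun G => ∃ Z' ⊆ IS S F',
      (∀ z ∈ Z', ∀ z' ∈ Z', z ≠ z' → Disjoint (kp Sᶜ z) (kp Sᶜ z')) ∧ (∀ z ∈ Z', kp Sᶜ z ⊆ ed G) ∧
      ψ < Z'.card).card : ℝ) * (m.factorial : ℝ) ≤ μ ^ m * (Reg n d).card := by
    refine le_trans ?_ h1
    refine mul_le_mul_of_nonneg_right ?_ (by positivity)
    refine Nat.cast_le.2 (card_le_card ?_)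
    intro G hG
    simp only [mem_filter] at hG ⊢
    obtain ⟨hGR, Z', hZ', hdis, hsub, hlt⟩ := hG
    refine ⟨hGR, by simp, ?_⟩
    have hmZ : m ≤ Z'.card := by
      rw [hm, Nat.ceil_le]
      linarith
    obtain ⟨J, hJ, hJc⟩ := exists_subset_card_eq hmZ
    exact ⟨J, hJ.trans hZ', hJc, fun z hz z' hz' hne => hdis z (hJ hz) z' (hJ hz') hne,
      fun z hz => hsub z (hJ hz)⟩
  -- numeric
  have hNδ : (0 : ℝ) < (n : ℝ) ^ δ := by positivity
  have hμm : μ ≤ (100 * (n : ℝ) ^ (-δ)) * m := by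
    have h2 : (n : ℝ) ^ δ * μ ≤ ψ := by
      rw [hψ]; unfold psi
      have : 0 ≤ 1000 / δ * (F'.card : ℝ) := by positivity
      linarith
    have h3 : (n : ℝ) ^ δ * μ ≤ 100 * m := by linarith
    rw [Real.rpow_neg hn0.le]
    calc μ = ((n : ℝ) ^ δ)⁻¹ * ((n : ℝ) ^ δ * μ) := by field_simp
      _ ≤ ((n : ℝ) ^ δ)⁻¹ * (100 * m) := mul_le_mul_of_nonneg_left h3 (by positivity)
      _ = 100 * ((n : ℝ) ^ δ)⁻¹ * m := by ring
  have hfac : (m : ℝ) ^ m ≤ Real.exp m * m.factorial := by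
    have := Real.pow_div_factorial_le_exp (m : ℝ) (by positivity) m
    rwa [div_le_iff₀ (by positivity)] at this
  have hμpow : μ ^ m ≤ (100 * Real.exp 1 * (n : ℝ) ^ (-δ)) ^ m * m.factorial := by
    calc μ ^ m ≤ ((100 * (n : ℝ) ^ (-δ)) * m) ^ m := pow_le_pow_left₀ hμ0 hμm m
      _ = (100 * (n : ℝ) ^ (-δ)) ^ m * (m : ℝ) ^ m := mul_pow _ _ _
      _ ≤ (100 * (n : ℝ) ^ (-δ)) ^ m * (Real.exp m * m.factorial) :=
          mul_le_mul_of_nonneg_left hfac (by positivity)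
      _ = (100 * Real.exp 1 * (n : ℝ) ^ (-δ)) ^ m * m.factorial := by
          have : Real.exp (m : ℝ) = Real.exp 1 ^ m := by
            rw [← Real.exp_nat_mul, mul_one]
          rw [this, mul_pow, mul_pow, mul_pow]; ring
  have hbase : 100 * Real.exp 1 * (n : ℝ) ^ (-δ) ≤ (n : ℝ) ^ (-(δ / 2)) := by
    calc 100 * Real.exp 1 * (n : ℝ) ^ (-δ) ≤ (n : ℝ) ^ (δ / 2) * (n : ℝ) ^ (-δ) :=
          mul_le_mul_of_nonneg_right hN (by positivity)
      _ = (n : ℝ) ^ (-(δ / 2)) := by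
          rw [← Real.rpow_add hn0]; congr 1; ring
  have hpow : (100 * Real.exp 1 * (n : ℝ) ^ (-δ)) ^ m ≤ (n : ℝ) ^ (-(5 * F'.card : ℝ)) := by
    calc (100 * Real.exp 1 * (n : ℝ) ^ (-δ)) ^ m ≤ ((n : ℝ) ^ (-(δ / 2))) ^ m :=
          pow_le_pow_left₀ (by positivity) hbase m
      _ = (n : ℝ) ^ (-(δ / 2) * m) := by
          rw [← Real.rpow_natCast, ← Real.rpow_mul hn0.le]
      _ ≤ (n : ℝ) ^ (-(5 * F'.card : ℝ)) := by
          refine Real.rpow_le_rpow_of_exponent_le ?_ ?_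
          · have : 1 ≤ n := by omega
            exact_mod_cast this
          · have h2 : 1000 / δ * (F'.card : ℝ) ≤ ψ := by
              rw [hψ]; unfold psi
              have : 0 ≤ (n : ℝ) ^ δ * (w ^ (5 - S.card) * (IS S F').card) := by positivity
              linarith
            have h3 : 10 * (F'.card : ℝ) ≤ δ * m := by
              have h4 : 1000 / δ * (F'.card : ℝ) / 100 ≤ m := by linarith
              have h5 : δ * (1000 / δ * (F'.card : ℝ) / 100) ≤ δ * m := mul_le_mul_of_nonneg_left h4 hδ.le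
              have h6 : δ * (1000 / δ * (F'.card : ℝ) / 100) = 10 * F'.card := by field_simp; ring
              linarith
            linarith
  have hf0 : (0 : ℝ) < m.factorial := by positivity
  have hfin : (((Reg n d).filter fun G => ∃ Z' ⊆ IS S F',
      (∀ z ∈ Z', ∀ z' ∈ Z', z ≠ z' → Disjoint (kp Sᶜ z) (kp Sᶜ z')) ∧ (∀ z ∈ Z', kp Sᶜ z ⊆ ed G) ∧
      ψ < Z'.card).card : ℝ) * (m.factorial : ℝ) ≤
      ((n : ℝ) ^ (-(5 * F'.card : ℝ)) * (Reg n d).card) * m.factorial := by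
    calc _ ≤ μ ^ m * (Reg n d).card := hev
      _ ≤ ((100 * Real.exp 1 * (n : ℝ) ^ (-δ)) ^ m * m.factorial) * (Reg n d).card :=
          mul_le_mul_of_nonneg_right hμpow (by positivity)
      _ ≤ ((n : ℝ) ^ (-(5 * F'.card : ℝ)) * m.factorial) * (Reg n d).card :=
          mul_le_mul_of_nonneg_right (mul_le_mul_of_nonneg_right hpow (by positivity)) (by positivity)
      _ = _ := by ring
  exact le_of_mul_le_mul_right hfin hf0

theorem ed_card_fib {n d : ℕ} {H : Gr n} (hH : H ∈ Reg n d) (x : Fin n) :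
    (univ.filter fun c : Fin n => H.Adj c x).card ≤ d := by
  rw [← mem_Reg.1 hH x]
  refine card_le_card ?_
  intro c hc
  simp only [mem_filter, mem_univ, true_and, mem_nb] at hc ⊢
  exact hc.symm

/-- first kind -/
theorem cnt1 {n d : ℕ} (hn : 0 < n) (H : Gr n) (σ : Fin n → Equiv.Perm (Fin n)) :
    (2 * (d : ℝ) / n) ^ (5 - ({0, 2} : Finset (Fin 5)).card) * ((IS {0, 2} (Fc H σ)).card : ℝ) ≤
      8 * (d : ℝ) ^ 3 * (Mch H σ : ℝ) ^ 2 / (n : ℝ) ^ 2 := by
  have hc : (IS {0, 2} (Fc H σ)).card ≤ Mch H σ * (Mch H σ * n) := by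
    have : (IS {0, 2} (Fc H σ)).card ≤ ((univ.filter fun t : Fin n × Fin n => Ch H σ t.1 t.2) ×ˢ
        ((univ.filter fun t : Fin n × Fin n => Ch H σ t.1 t.2) ×ˢ (univ : Finset (Fin n)))).card := by
      refine card_le_card_of_injOn (fun t => ((t.1, t.2.1), ((t.2.2.1, t.2.2.2.1), t.2.2.2.2))) ?_ ?_
      · intro t ht
        simp only [IS, coe_filter, mem_univ, true_and, Set.mem_ofPred_eq] at ht
        simp only [coe_product, Set.mem_prod, mem_coe, mem_filter, mem_univ, true_and, and_true]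
        have h0 : ee t 0 ∈ kp {0, 2} t := mem_kp.2 ⟨0, by simp, rfl⟩
        have h2 : ee t 2 ∈ kp {0, 2} t := mem_kp.2 ⟨2, by simp, rfl⟩
        exact ⟨mem_Fc.1 (ht.2 h0), mem_Fc.1 (ht.2 h2)⟩
      · intro t _ t' _ hh
        simp only [Prod.mk.injEq] at hh
        exact Prod.ext hh.1.1 (Prod.ext hh.1.2 (Prod.ext hh.2.1.1 (Prod.ext hh.2.1.2 hh.2.2)))
    rw [card_product, card_product, card_univ, Fintype.card_fin] at this
    exact this
  have hc' : ((IS {0, 2} (Fc H σ)).card : ℝ) ≤ Mch H σ * (Mch H σ * n) := by exact_mod_cast hc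
  have h2 : ({0, 2} : Finset (Fin 5)).card = 2 := rfl
  rw [h2]
  have hn' : (0 : ℝ) < n := by exact_mod_cast hn
  calc _ ≤ (2 * (d : ℝ) / n) ^ 3 * (Mch H σ * (Mch H σ * n)) := mul_le_mul_of_nonneg_left hc' (by positivity)
    _ = _ := by field_simp; ring

/-- second kind -/
theorem cnt2 {n d : ℕ} (hn : 0 < n) (H : Gr n) (σ : Fin n → Equiv.Perm (Fin n)) (hH : H ∈ Reg n d) :
    (2 * (d : ℝ) / n) ^ (5 - ({0, 2, 4} : Finset (Fin 5)).card) * ((IS {0, 2, 4} (Fc H σ)).card : ℝ) ≤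
      8 * (d : ℝ) ^ 3 * (Mch H σ : ℝ) ^ 2 / (n : ℝ) ^ 2 := by
  have hmem : ∀ t ∈ IS {0, 2, 4} (Fc H σ), Ch H σ t.1 t.2.1 ∧ Ch H σ t.2.2.1 t.2.2.2.1 ∧
      Ch H σ t.2.2.2.2 t.1 := by
    intro t ht
    simp only [IS, mem_filter, mem_univ, true_and] at ht
    have h0 : ee t 0 ∈ kp {0, 2, 4} t := mem_kp.2 ⟨0, by simp, rfl⟩
    have h2 : ee t 2 ∈ kp {0, 2, 4} t := mem_kp.2 ⟨2, by simp, rfl⟩
    have h4 : ee t 4 ∈ kp {0, 2, 4} t := mem_kp.2 ⟨4, by simp, rfl⟩
    exact ⟨mem_Fc.1 (ht.2 h0), mem_Fc.1 (ht.2 h2), mem_Fc.1 (ht.2 h4)⟩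
  have hc : (IS {0, 2, 4} (Fc H σ)).card ≤ d * (Mch H σ * Mch H σ) := by
    refine (card_le_mul_card_image (f := fun t : Tup n => ((t.1, t.2.1), (t.2.2.1, t.2.2.2.1)))
      (IS {0, 2, 4} (Fc H σ)) d ?_).trans (Nat.mul_le_mul_left d ?_)
    · intro a _
      refine le_trans ?_ (ed_card_fib hH a.1.1)
      refine card_le_card_of_injOn (fun t => t.2.2.2.2) ?_ ?_
      · intro t ht
        simp only [coe_filter, Set.mem_ofPred_eq, mem_univ, true_and] at ht ⊢
        have h1 := (hmem t ht.1).2.2.1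
        rw [← ht.2]; exact h1
      · intro t ht t' ht' hh
        simp only [coe_filter, Set.mem_ofPred_eq] at ht ht'
        have h1 := ht.2.trans ht'.2.symm
        simp only [Prod.mk.injEq] at h1
        exact Prod.ext h1.1.1 (Prod.ext h1.1.2 (Prod.ext h1.2.1 (Prod.ext h1.2.2 hh)))
    · have : (IS {0, 2, 4} (Fc H σ)).image (fun t : Tup n => ((t.1, t.2.1), (t.2.2.1, t.2.2.2.1))) ⊆
          (univ.filter fun t : Fin n × Fin n => Ch H σ t.1 t.2) ×ˢ
          (univ.filter fun t : Fin n × Fin n => Ch H σ t.1 t.2) := by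
        intro a ha
        rw [mem_image] at ha
        obtain ⟨t, ht, rfl⟩ := ha
        simp only [mem_product, mem_filter, mem_univ, true_and]
        exact ⟨(hmem t ht).1, (hmem t ht).2.1⟩
      have h1 := card_le_card this
      rw [card_product] at h1
      exact h1
  have hc' : ((IS {0, 2, 4} (Fc H σ)).card : ℝ) ≤ d * (Mch H σ * Mch H σ) := by exact_mod_cast hc
  have h3 : ({0, 2, 4} : Finset (Fin 5)).card = 3 := rfl
  rw [h3]
  have hn' : (0 : ℝ) < n := by exact_mod_cast hn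
  calc _ ≤ (2 * (d : ℝ) / n) ^ 2 * (d * (Mch H σ * Mch H σ)) := mul_le_mul_of_nonneg_left hc' (by positivity)
    _ = 4 * (d : ℝ) ^ 3 * (Mch H σ : ℝ) ^ 2 / (n : ℝ) ^ 2 := by field_simp; ring
    _ ≤ _ := by
        rw [div_le_div_iff_of_pos_right (by positivity)]
        have : 0 ≤ (d : ℝ) ^ 3 * (Mch H σ : ℝ) ^ 2 := by positivity
        linarith

/-- one kind of bad event -/
theorem one_kind (hDO : Stmt_DO) (hS : Stmt_S) (hR : Stmt_Rand) {n d K : ℕ} {c₁ c₂ ε δ c : ℝ}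
    (hn : 64 ≤ n) (hd : 64 * d ≤ n) (hnd : 200 ≤ n * d) (hc₂ : 0 ≤ c₂) (hε : 0 < ε) (hδ : 0 < δ)
    (hcε : c ≤ ε) (hcδ : c ≤ δ) (hlam : (n : ℝ) ^ (4 * ε) ≤ lam n d)
    (hN : 100 * Real.exp 1 ≤ (n : ℝ) ^ (δ / 2))
    (hb1 : 8 * (1000 / δ) * ((50 * c₂ + 2500 * K) + 1) ≤ (n : ℝ) ^ (ε / 3))
    (hb2 : 64 * ((50 * c₂ + 2500 * K) + 1) ≤ (n : ℝ) ^ δ)
    (S : Finset (Fin 5)) (hS1 : 2 ≤ S.card) (hS3 : S.card ≤ 3)
    (hcnt : ∀ (H : Gr n) (σ : Fin n → Equiv.Perm (Fin n)), H ∈ Reg n d →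
      (2 * (d : ℝ) / n) ^ (5 - S.card) * ((IS S (Fc H σ)).card : ℝ) ≤
        8 * (d : ℝ) ^ 3 * (Mch H σ : ℝ) ^ 2 / (n : ℝ) ^ 2) :
    (((Reg n d).filter fun G => T2 K G ∧ T3 c₁ c₂ n d G ∧ ∃ (H : Gr n) (σ : Fin n → Equiv.Perm (Fin n)),
      IsPartner G H σ ∧ (Mch H σ : ℝ) ≤ (n : ℝ) ^ (1 - 3 * δ) * d ∧
      (n : ℝ) ^ (-c) * lam n d * Mch H σ < (Zs H σ S).card).card : ℝ) ≤
    (∑ F' ∈ (univ : Finset (Finset (Sym2 (Fin n)))).filter (fun F' => F'.Nonempty),
      (n : ℝ) ^ (-(5 * F'.card : ℝ))) * (Reg n d).card := by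
  have hn0 : (0 : ℝ) < n := by
    have : 0 < n := by omega
    exact_mod_cast this
  have hn1 : (1 : ℝ) ≤ n := by
    have : 1 ≤ n := by omega
    exact_mod_cast this
  -- the sampling density
  set k := S.card with hk
  have hk0 : (0 : ℝ) < k := by
    have : 0 < k := by omega
    exact_mod_cast this
  have hl1 : 1 ≤ lam n d := le_trans (Real.one_le_rpow hn1 (by positivity)) hlam
  have hl0 : 0 < lam n d := by linarith
  set s : ℝ := (lam n d) ^ (-(1 / (k : ℝ))) with hs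
  have hs0 : 0 < s := Real.rpow_pos_of_pos hl0 _
  have hs1 : s ≤ 1 := Real.rpow_le_one_of_one_le_of_nonpos hl1 (by
    have : 0 < 1 / (k : ℝ) := by positivity
    linarith)
  have hsl : s ^ k * lam n d = 1 := by
    rw [hs, ← Real.rpow_natCast, ← Real.rpow_mul hl0.le]
    have : -(1 / (k : ℝ)) * k = -1 := by field_simp
    rw [this, Real.rpow_neg_one]
    exact inv_mul_cancel₀ hl0.ne'
  have hsε : s ≤ (n : ℝ) ^ (-(4 * ε / 3)) := by
    have h1 : s ≤ ((n : ℝ) ^ (4 * ε)) ^ (-(1 / (k : ℝ))) := by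
      refine Real.rpow_le_rpow_of_nonpos (by positivity) hlam ?_
      have : 0 < 1 / (k : ℝ) := by positivity
      linarith
    refine h1.trans ?_
    rw [← Real.rpow_mul hn0.le]
    refine Real.rpow_le_rpow_of_exponent_le hn1 ?_
    have hk3 : (k : ℝ) ≤ 3 := by exact_mod_cast hS3
    have h2 : 1 / 3 ≤ 1 / (k : ℝ) := one_div_le_one_div_of_le hk0 hk3
    nlinarith
  set Q : ℝ := 50 * c₂ + 2500 * K with hQ
  have hQ0 : 0 ≤ Q := by positivity
  set A : ℝ := 1000 / δ with hA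
  have hA0 : 0 < A := by positivity
  -- inclusion of events
  have hsub : ((Reg n d).filter fun G => T2 K G ∧ T3 c₁ c₂ n d G ∧ ∃ (H : Gr n) (σ : Fin n → Equiv.Perm (Fin n)),
      IsPartner G H σ ∧ (Mch H σ : ℝ) ≤ (n : ℝ) ^ (1 - 3 * δ) * d ∧
      (n : ℝ) ^ (-c) * lam n d * Mch H σ < (Zs H σ S).card) ⊆
      ((univ : Finset (Finset (Sym2 (Fin n)))).filter (fun F' => F'.Nonempty)).biUnion fun F' =>
        (Reg n d).filter fun G => ∃ Z' ⊆ IS S F',
          (∀ z ∈ Z', ∀ z' ∈ Z', z ≠ z' → Disjoint (kp Sᶜ z) (kp Sᶜ z')) ∧ (∀ z ∈ Z', kp Sᶜ z ⊆ ed G) ∧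
          psi S (1000 / δ) ((n : ℝ) ^ δ) (2 * (d : ℝ) / n) F' < Z'.card := by
    intro G hG
    simp only [mem_filter] at hG
    obtain ⟨hGR, hT2, hT3, H, σ, hp, hM, hlt⟩ := hG
    have hHR := hp.reg hGR
    have hM0 : (0 : ℝ) ≤ Mch H σ := by positivity
    have hbig : A * s * Mch H σ + (n : ℝ) ^ δ * ((2 * (d : ℝ) / n) ^ (5 - S.card) * (IS S (Fc H σ)).card) * s ^ S.card <
      s ^ S.card * (Zs H σ S).card / (4 * ((50 * c₂ + 2500 * K) + 1)) := by
      rw [← hk, ← hQ]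
      have h1 : (2 * (d : ℝ) / n) ^ (5 - k) * ((IS S (Fc H σ)).card : ℝ) ≤
          8 * lam n d * Mch H σ * (n : ℝ) ^ (-(3 * δ)) := by
        refine (hcnt H σ hHR).trans ?_
        have e1 : (n : ℝ) ^ (1 - 3 * δ) = n * (n : ℝ) ^ (-(3 * δ)) := by
          rw [sub_eq_add_neg, Real.rpow_add hn0, Real.rpow_one]
        rw [e1] at hM
        calc 8 * (d : ℝ) ^ 3 * (Mch H σ : ℝ) ^ 2 / (n : ℝ) ^ 2
            = 8 * (d : ℝ) ^ 3 / (n : ℝ) ^ 2 * Mch H σ * Mch H σ := by ring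
          _ ≤ 8 * (d : ℝ) ^ 3 / (n : ℝ) ^ 2 * Mch H σ * (n * (n : ℝ) ^ (-(3 * δ)) * d) :=
              mul_le_mul_of_nonneg_left hM (by positivity)
          _ = 8 * lam n d * Mch H σ * (n : ℝ) ^ (-(3 * δ)) := by
              unfold lam; field_simp
      have h2 : (n : ℝ) ^ δ * ((2 * (d : ℝ) / n) ^ (5 - k) * ((IS S (Fc H σ)).card : ℝ)) * s ^ k ≤
          8 * Mch H σ * (n : ℝ) ^ (-(2 * δ)) := by
        calc _ ≤ (n : ℝ) ^ δ * (8 * lam n d * Mch H σ * (n : ℝ) ^ (-(3 * δ))) * s ^ k :=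
              mul_le_mul_of_nonneg_right (mul_le_mul_of_nonneg_left h1 (by positivity)) (by positivity)
          _ = 8 * Mch H σ * ((n : ℝ) ^ δ * (n : ℝ) ^ (-(3 * δ))) * (s ^ k * lam n d) := by ring
          _ = 8 * Mch H σ * (n : ℝ) ^ (-(2 * δ)) := by
              rw [hsl, ← Real.rpow_add hn0, mul_one]; congr 2; ring
      have h3 : A * s ≤ (n : ℝ) ^ (-c) / (8 * (Q + 1)) := by
        rw [le_div_iff₀ (by positivity)]
        have e1 : (n : ℝ) ^ (-(4 * ε / 3)) = (n : ℝ) ^ (-(ε / 3)) * (n : ℝ) ^ (-ε) := by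
          rw [← Real.rpow_add hn0]; congr 1; ring
        have e2 : (n : ℝ) ^ (-ε) ≤ (n : ℝ) ^ (-c) := Real.rpow_le_rpow_of_exponent_le hn1 (by linarith)
        have e3 : (n : ℝ) ^ (ε / 3) * (n : ℝ) ^ (-(ε / 3)) = 1 := by
          rw [← Real.rpow_add hn0, add_neg_cancel, Real.rpow_zero]
        calc A * s * (8 * (Q + 1)) = (8 * A * (Q + 1)) * s := by ring
          _ ≤ (n : ℝ) ^ (ε / 3) * s := mul_le_mul_of_nonneg_right hb1 hs0.le
          _ ≤ (n : ℝ) ^ (ε / 3) * ((n : ℝ) ^ (-(ε / 3)) * (n : ℝ) ^ (-ε)) := by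
              rw [← e1]; exact mul_le_mul_of_nonneg_left hsε (by positivity)
          _ = (n : ℝ) ^ (-ε) := by rw [← mul_assoc, e3, one_mul]
          _ ≤ (n : ℝ) ^ (-c) := e2
      have h4 : 8 * (n : ℝ) ^ (-(2 * δ)) ≤ (n : ℝ) ^ (-c) / (8 * (Q + 1)) := by
        rw [le_div_iff₀ (by positivity)]
        have e1 : (n : ℝ) ^ (-(2 * δ)) = (n : ℝ) ^ (-δ) * (n : ℝ) ^ (-δ) := by
          rw [← Real.rpow_add hn0]; congr 1; ring
        have e2 : (n : ℝ) ^ (-δ) ≤ (n : ℝ) ^ (-c) := Real.rpow_le_rpow_of_exponent_le hn1 (by linarith)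
        have e3 : (n : ℝ) ^ δ * (n : ℝ) ^ (-δ) = 1 := by
          rw [← Real.rpow_add hn0, add_neg_cancel, Real.rpow_zero]
        calc 8 * (n : ℝ) ^ (-(2 * δ)) * (8 * (Q + 1)) = (64 * (Q + 1)) * ((n : ℝ) ^ (-δ) * (n : ℝ) ^ (-δ)) := by
              rw [e1]; ring
          _ ≤ (n : ℝ) ^ δ * ((n : ℝ) ^ (-δ) * (n : ℝ) ^ (-δ)) := mul_le_mul_of_nonneg_right hb2 (by positivity)
          _ = (n : ℝ) ^ (-δ) := by rw [← mul_assoc, e3, one_mul]
          _ ≤ (n : ℝ) ^ (-c) := e2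
      have h5 : s ^ k * ((n : ℝ) ^ (-c) * lam n d * Mch H σ) < s ^ k * ((Zs H σ S).card : ℝ) :=
        mul_lt_mul_of_pos_left hlt (by positivity)
      have h6 : s ^ k * ((n : ℝ) ^ (-c) * lam n d * Mch H σ) = (n : ℝ) ^ (-c) * Mch H σ := by
        calc _ = (n : ℝ) ^ (-c) * Mch H σ * (s ^ k * lam n d) := by ring
          _ = _ := by rw [hsl, mul_one]
      rw [h6] at h5
      have h7 : (n : ℝ) ^ (-c) * Mch H σ / (4 * (Q + 1)) < s ^ k * ((Zs H σ S).card : ℝ) / (4 * (Q + 1)) :=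
        div_lt_div_of_pos_right h5 (by positivity)
      refine lt_of_le_of_lt ?_ h7
      calc _ ≤ A * s * Mch H σ + 8 * Mch H σ * (n : ℝ) ^ (-(2 * δ)) := by linarith
        _ = (A * s + 8 * (n : ℝ) ^ (-(2 * δ))) * Mch H σ := by ring
        _ ≤ ((n : ℝ) ^ (-c) / (8 * (Q + 1)) + (n : ℝ) ^ (-c) / (8 * (Q + 1))) * Mch H σ :=
            mul_le_mul_of_nonneg_right (add_le_add h3 h4) hM0
        _ = (n : ℝ) ^ (-c) * Mch H σ / (4 * (Q + 1)) := by field_simp; ring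
    have hSn : S.Nonempty := by
      rw [← card_pos]; omega
    obtain ⟨F', hF', Z', h1, h2, h3, h4⟩ := core hS hR hp hT2 hT3 hc₂ S hSn hs0 hs1 hsl hA0.le
      (by positivity : (0 : ℝ) ≤ (n : ℝ) ^ δ) (by positivity : (0 : ℝ) ≤ 2 * (d : ℝ) / n) hbig
    simp only [mem_biUnion, mem_filter, mem_univ, true_and]
    exact ⟨F', hF', hGR, Z', h1, h2, h3, h4⟩
  calc _ ≤ ((((univ : Finset (Finset (Sym2 (Fin n)))).filter (fun F' => F'.Nonempty)).biUnion fun F' =>
        (Reg n d).filter fun G => ∃ Z' ⊆ IS S F',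
          (∀ z ∈ Z', ∀ z' ∈ Z', z ≠ z' → Disjoint (kp Sᶜ z) (kp Sᶜ z')) ∧ (∀ z ∈ Z', kp Sᶜ z ⊆ ed G) ∧
          psi S (1000 / δ) ((n : ℝ) ^ δ) (2 * (d : ℝ) / n) F' < Z'.card).card : ℝ) :=
        Nat.cast_le.2 (card_le_card hsub)
    _ ≤ ∑ F' ∈ (univ : Finset (Finset (Sym2 (Fin n)))).filter (fun F' => F'.Nonempty),
        (((Reg n d).filter fun G => ∃ Z' ⊆ IS S F',
          (∀ z ∈ Z', ∀ z' ∈ Z', z ≠ z' → Disjoint (kp Sᶜ z) (kp Sᶜ z')) ∧ (∀ z ∈ Z', kp Sᶜ z ⊆ ed G) ∧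
          psi S (1000 / δ) ((n : ℝ) ^ δ) (2 * (d : ℝ) / n) F' < Z'.card).card : ℝ) := by
        exact_mod_cast card_biUnion_le
    _ ≤ ∑ F' ∈ (univ : Finset (Finset (Sym2 (Fin n)))).filter (fun F' => F'.Nonempty),
        (n : ℝ) ^ (-(5 * F'.card : ℝ)) * (Reg n d).card :=
        sum_le_sum fun F' _ => prob hDO hn hd hnd S hS1 hS3 hδ hN F'
    _ = _ := by rw [sum_mul]

theorem sum_bound {n : ℕ} (hn : 1 ≤ n) :
    ∑ F' ∈ (univ : Finset (Finset (Sym2 (Fin n)))).filter (fun F' => F'.Nonempty),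
      (n : ℝ) ^ (-(5 * F'.card : ℝ)) ≤ Real.exp (1 / n) - 1 := by
  have hn0 : (0 : ℝ) < n := by exact_mod_cast hn
  have hn1 : (1 : ℝ) ≤ n := by exact_mod_cast hn
  set x : ℝ := ((n : ℝ) ^ 5)⁻¹ with hx
  have hx0 : 0 < x := by positivity
  have hterm : ∀ F' : Finset (Sym2 (Fin n)), (n : ℝ) ^ (-(5 * F'.card : ℝ)) = x ^ F'.card := by
    intro F'
    rw [hx, inv_pow, ← pow_mul, Real.rpow_neg hn0.le]
    congr 1
    rw [← Real.rpow_natCast]
    push_cast
    rfl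
  have h1 : ∑ F' ∈ (univ : Finset (Finset (Sym2 (Fin n)))), x ^ F'.card =
      (x + 1) ^ (univ : Finset (Sym2 (Fin n))).card := by
    rw [← Finset.sum_pow_mul_eq_add_pow, powerset_univ]
    refine sum_congr rfl fun F' _ => ?_
    rw [one_pow, mul_one]
  have h2 : ∑ F' ∈ (univ : Finset (Finset (Sym2 (Fin n)))), x ^ F'.card =
      (∑ F' ∈ (univ : Finset (Finset (Sym2 (Fin n)))).filter (fun F' => F'.Nonempty), x ^ F'.card) + 1 := by
    rw [← sum_filter_add_sum_filter_not univ (fun F' : Finset (Sym2 (Fin n)) => F'.Nonempty)]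
    congr 1
    have : (univ : Finset (Finset (Sym2 (Fin n)))).filter (fun F' => ¬ F'.Nonempty) = {∅} := by
      ext F'
      simp only [mem_filter, mem_univ, true_and, mem_singleton, not_nonempty_iff_eq_empty]
    rw [this, sum_singleton, card_empty, pow_zero]
  have h3 : (univ : Finset (Sym2 (Fin n))).card ≤ n ^ 2 := by
    have : Fintype.card (Sym2 (Fin n)) ≤ Fintype.card (Fin n × Fin n) :=
      Fintype.card_le_of_surjective (fun p : Fin n × Fin n => s(p.1, p.2)) (by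
        intro e
        induction e using Sym2.ind with
        | _ a b => exact ⟨(a, b), rfl⟩)
    rw [Fintype.card_prod, Fintype.card_fin] at this
    rw [card_univ, sq]
    exact this
  have h4 : (x + 1) ^ (univ : Finset (Sym2 (Fin n))).card ≤ Real.exp (1 / n) := by
    calc (x + 1) ^ (univ : Finset (Sym2 (Fin n))).card ≤ (Real.exp x) ^ (univ : Finset (Sym2 (Fin n))).card :=
          pow_le_pow_left₀ (by positivity) (Real.add_one_le_exp x) _
      _ = Real.exp ((univ : Finset (Sym2 (Fin n))).card * x) := by rw [← Real.exp_nat_mul]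
      _ ≤ Real.exp (1 / n) := by
          refine Real.exp_le_exp.2 ?_
          have h5 : ((univ : Finset (Sym2 (Fin n))).card : ℝ) ≤ (n : ℝ) ^ 2 := by exact_mod_cast h3
          calc ((univ : Finset (Sym2 (Fin n))).card : ℝ) * x ≤ (n : ℝ) ^ 2 * x :=
                mul_le_mul_of_nonneg_right h5 hx0.le
            _ = 1 / (n : ℝ) ^ 3 := by rw [hx]; field_simp
            _ ≤ 1 / n := by
                refine one_div_le_one_div_of_le hn0 ?_
                exact le_self_pow₀ hn1 (by norm_num)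
  rw [sum_congr rfl (fun F' _ => hterm F')]
  linarith

end T9m

open T9m in
theorem T9_proof (hDO : Stmt_DO) (hS : Stmt_S) (hR : Stmt_Rand) (h2 : Stmt_T2) (h3 : Stmt_T3) : Stmt_T9 := by
  intro ε ε₀ δ hε hε₀ hδ
  obtain ⟨K, hK⟩ := h2 ε₀ hε₀
  obtain ⟨c₁, c₂, hc₁, hc₂, h3'⟩ := h3 ε ε₀ hε hε₀
  set c : ℝ := min δ ε with hc
  have hc0 : 0 < c := lt_min hδ hε
  refine ⟨c, hc0, ?_⟩
  -- T2 and T3
  have hT2 : Whp (RegC ε ε₀) (fun _ _ G => T2 K G) :=
    hK.mono ⟨0, fun n _ d hd => hd.2⟩ ⟨0, fun n _ d _ G _ h => h⟩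
  -- the main bound
  have hmain : Whp (RegC ε ε₀) (fun n d G => T2 K G ∧ T3 c₁ c₂ n d G → T9 δ c n d G) := by
    refine Whp.of_bound (fun n => 2 * (Real.exp (1 / n) - 1)) ?_ ?_
    · have h1 : Tendsto (fun n : ℕ => (1 : ℝ) / n) atTop (𝓝 0) := tendsto_one_div_atTop_nhds_zero_nat
      have h2 := (Real.continuous_exp.tendsto 0).comp h1
      rw [Real.exp_zero] at h2
      have h3 := (h2.sub_const 1).const_mul 2
      simpa using h3
    · -- largeness conditions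
      have t1 : ∀ a : ℝ, 0 < a → ∀ b : ℝ, ∃ n₁ : ℕ, ∀ n ≥ n₁, b ≤ (n : ℝ) ^ a := by
        intro a ha b
        have := (tendsto_rpow_atTop ha).comp tendsto_natCast_atTop_atTop
        exact eventually_atTop.1 (this.eventually_ge_atTop b)
      obtain ⟨m1, hm1⟩ := t1 (δ / 2) (by positivity) (100 * Real.exp 1)
      obtain ⟨m2, hm2⟩ := t1 (ε / 3) (by positivity) (8 * (1000 / δ) * ((50 * c₂ + 2500 * K) + 1))
      obtain ⟨m3, hm3⟩ := t1 δ hδ (64 * ((50 * c₂ + 2500 * K) + 1))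
      refine ⟨max (max m1 m2) (max m3 512), fun n hn d hd => ?_⟩
      have hn1 : m1 ≤ n := by omega
      have hn2 : m2 ≤ n := by omega
      have hn3 : m3 ≤ n := by omega
      have hn4 : 512 ≤ n := by omega
      have hn0 : (0 : ℝ) < n := by
        have : 0 < n := by omega
        exact_mod_cast this
      have hn1' : (1 : ℝ) ≤ n := by
        have : 1 ≤ n := by omega
        exact_mod_cast this
      obtain ⟨hd1, hd2⟩ := hd
      have hd64 : 64 * d ≤ n := d_small_of_cube hn4 (cube_le_of_rpow (by omega) hε₀ hd2)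
      have hd0 : 1 ≤ d := by
        have : (1 : ℝ) ≤ d := le_trans (Real.one_le_rpow hn1' (by positivity)) hd1
        exact_mod_cast this
      have hnd : 200 ≤ n * d := by nlinarith
      have hlam : (n : ℝ) ^ (4 * ε) ≤ lam n d := by
        unfold lam
        rw [le_div_iff₀ hn0]
        calc (n : ℝ) ^ (4 * ε) * n = ((n : ℝ) ^ (1 / 4 + ε)) ^ 4 := by
              rw [← Real.rpow_natCast, ← Real.rpow_mul hn0.le]
              nth_rewrite 2 [← Real.rpow_one (n : ℝ)]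
              rw [← Real.rpow_add hn0]
              congr 1
              push_cast
              ring
          _ ≤ (d : ℝ) ^ 4 := pow_le_pow_left₀ (by positivity) hd1 4
      have a1 := one_kind hDO hS hR (c₁ := c₁) (by omega) hd64 hnd hc₂.le hε hδ (min_le_right _ _) (min_le_left _ _) hlam
        (hm1 n hn1) (hm2 n hn2) (hm3 n hn3) {0, 2} (by decide) (by decide)
        (fun H σ _ => cnt1 (by omega) H σ)
      have a2 := one_kind hDO hS hR (c₁ := c₁) (by omega) hd64 hnd hc₂.le hε hδ (min_le_right _ _) (min_le_left _ _) hlam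
        (hm1 n hn1) (hm2 n hn2) (hm3 n hn3) {0, 2, 4} (by decide) (by decide)
        (fun H σ hH => cnt2 (by omega) H σ hH)
      have hsb := sum_bound (n := n) (by omega)
      have hle : ∀ G ∈ Reg n d, ¬ (T2 K G ∧ T3 c₁ c₂ n d G → T9 δ c n d G) → G ∈
          ((Reg n d).filter fun G => T2 K G ∧ T3 c₁ c₂ n d G ∧ ∃ (H : Gr n) (σ : Fin n → Equiv.Perm (Fin n)),
            IsPartner G H σ ∧ (Mch H σ : ℝ) ≤ (n : ℝ) ^ (1 - 3 * δ) * d ∧
            (n : ℝ) ^ (-c) * lam n d * Mch H σ < (Zs H σ {0, 2}).card) ∪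
          ((Reg n d).filter fun G => T2 K G ∧ T3 c₁ c₂ n d G ∧ ∃ (H : Gr n) (σ : Fin n → Equiv.Perm (Fin n)),
            IsPartner G H σ ∧ (Mch H σ : ℝ) ≤ (n : ℝ) ^ (1 - 3 * δ) * d ∧
            (n : ℝ) ^ (-c) * lam n d * Mch H σ < (Zs H σ {0, 2, 4}).card) := by
        intro G hGR hbad
        simp only [mem_filter, mem_union]
        push Not at hbad
        obtain ⟨⟨hT2, hT3⟩, hT9⟩ := hbad
        unfold T9 at hT9
        push Not at hT9
        obtain ⟨H, σ, hp, hM, hbad⟩ := hT9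
        by_cases hf : (n : ℝ) ^ (-c) * lam n d * Mch H σ < (Zs H σ {0, 2}).card
        · exact Or.inl ⟨hGR, hT2, hT3, H, σ, hp, hM, hf⟩
        · refine Or.inr ⟨hGR, hT2, hT3, H, σ, hp, hM, ?_⟩
          have z1 : (univ.filter fun t : Fin n × Fin n × Fin n × Fin n × Fin n =>
              C5 H t.1 t.2.1 t.2.2.1 t.2.2.2.1 t.2.2.2.2 ∧ Ch H σ t.1 t.2.1 ∧ Ch H σ t.2.2.1 t.2.2.2.1 ∧
              ¬ Ch H σ t.2.1 t.2.2.1 ∧ ¬ Ch H σ t.2.2.2.1 t.2.2.2.2 ∧ ¬ Ch H σ t.2.2.2.2 t.1) ⊆ Zs H σ {0, 2} := by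
            intro t ht
            simp only [mem_filter, mem_univ, true_and] at ht
            obtain ⟨hC, b1, b2, b3, b4, b5⟩ := ht
            simp only [Zs, mem_filter, mem_univ, true_and]
            refine ⟨hC, ?_⟩
            intro i
            fin_cases i
            · exact ⟨fun _ => by decide, fun _ => mem_Fc.2 b1⟩
            · exact ⟨fun h => absurd (mem_Fc.1 h) b3, fun h => absurd h (by decide)⟩
            · exact ⟨fun _ => by decide, fun _ => mem_Fc.2 b2⟩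
            · exact ⟨fun h => absurd (mem_Fc.1 h) b4, fun h => absurd h (by decide)⟩
            · exact ⟨fun h => absurd (mem_Fc.1 h) b5, fun h => absurd h (by decide)⟩
          have z2 : (univ.filter fun t : Fin n × Fin n × Fin n × Fin n × Fin n =>
              C5 H t.1 t.2.1 t.2.2.1 t.2.2.2.1 t.2.2.2.2 ∧ Ch H σ t.1 t.2.1 ∧ Ch H σ t.2.2.2.2 t.1 ∧
              Ch H σ t.2.2.1 t.2.2.2.1 ∧ ¬ Ch H σ t.2.1 t.2.2.1 ∧ ¬ Ch H σ t.2.2.2.1 t.2.2.2.2) ⊆
              Zs H σ {0, 2, 4} := by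
            intro t ht
            simp only [mem_filter, mem_univ, true_and] at ht
            obtain ⟨hC, b1, b2, b3, b4, b5⟩ := ht
            simp only [Zs, mem_filter, mem_univ, true_and]
            refine ⟨hC, ?_⟩
            intro i
            fin_cases i
            · exact ⟨fun _ => by decide, fun _ => mem_Fc.2 b1⟩
            · exact ⟨fun h => absurd (mem_Fc.1 h) b4, fun h => absurd h (by decide)⟩
            · exact ⟨fun _ => by decide, fun _ => mem_Fc.2 b3⟩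
            · exact ⟨fun h => absurd (mem_Fc.1 h) b5, fun h => absurd h (by decide)⟩
            · exact ⟨fun _ => by decide, fun _ => mem_Fc.2 b2⟩
          have z1' := Nat.cast_le (α := ℝ).2 (card_le_card z1)
          have z2' := Nat.cast_le (α := ℝ).2 (card_le_card z2)
          push Not at hf
          have := hbad (z1'.trans hf)
          exact lt_of_lt_of_le this z2'
      have hR0 : (0 : ℝ) ≤ (Reg n d).card := by positivity
      have f2 := mul_le_mul_of_nonneg_right hsb hR0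
      have f3 := add_le_add (a1.trans f2) (a2.trans f2)
      have f4 : (Real.exp (1 / n) - 1) * ((Reg n d).card : ℝ) + (Real.exp (1 / n) - 1) * ((Reg n d).card : ℝ) =
          2 * (Real.exp (1 / n) - 1) * (Reg n d).card := by ring
      rw [f4, ← Nat.cast_add] at f3
      refine le_trans (Nat.cast_le.2 ((card_le_card ?_).trans (card_union_le _ _))) f3
      intro G hG
      have hG' : G ∈ Reg n d ∧ ¬ (T2 K G ∧ T3 c₁ c₂ n d G → T9 δ c n d G) :=
        (@mem_filter _ _ (_) _ _).1 hG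
      exact hle G hG'.1 hG'.2
  have hall := hmain.and (hT2.and h3')
  exact hall.mono ⟨0, fun n _ d hd => hd⟩ ⟨0, fun n _ d _ G _ h => h.1 h.2⟩

end Pool.Agent.RRG
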