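import Pool.Agent.RRG.TypBAux

/-!
# Module TYPB (MP_d15a9b_pr): typical properties in regime B
-/

open Finset Filter Topology
open scoped Classical

namespace Pool.Agent.RRG.TYPB

/-- regime B with `κ₀ = 1/10` -/
def RB (CA : ℝ) (n d : ℕ) : Prop := (n : ℝ) ^ (1 - 1 / 10 : ℝ) ≤ (d : ℝ) ^ 3 ∧ (d : ℝ) ^ 3 ≤ CA * n

theorem sym_ne {n : ℕ} {y a z : Fin n} (h : a ≠ z) : s(y, a) ≠ s(y, z) := by
  intro h'
  rw [Sym2.eq_iff] at h'
  rcases h' with ⟨_, h1⟩ | ⟨h1, h2⟩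
  · exact h h1
  · exact h (h2.trans h1)

theorem card2 {n : ℕ} {y a z : Fin n} (h : a ≠ z) :
    ({s(y, a), s(y, z)} : Finset (Sym2 (Fin n))).card = 2 := Finset.card_pair (sym_ne h)

theorem exp_two_lt : Real.exp 2 < 7.5 := by
  have h := Real.exp_one_lt_d9
  have h0 := Real.exp_pos 1
  have : Real.exp 2 = Real.exp 1 * Real.exp 1 := by rw [← Real.exp_add]; norm_num
  rw [this]
  nlinarith

/-- combine a family of bounds -/
theorem whp_of {CA C : ℝ} (hCA : 0 < CA) (hC : 0 ≤ C) {τ : ℕ → Type} [∀ n, Fintype (τ n)]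
    (hτ : ∀ n, 1 ≤ n → Fintype.card (τ n) ≤ n ^ 3) (P : (n d : ℕ) → Gr n → Prop)
    (bad : (n d : ℕ) → τ n → Gr n → Prop) (hP : ∀ n d G, G ∈ Reg n d → ¬ P n d G → ∃ t, bad n d t G)
    (h : ∀ n d : ℕ, RB CA n d →
      (100 ≤ n ∧ 1 ≤ d ∧ 64 * d ≤ n ∧ (d : ℝ) ≤ (n : ℝ) ^ (1 / 2 - 1 / 10 : ℝ) ∧
      (n : ℝ) ^ (1 / 10 : ℝ) ≤ lam n d ∧ 64 * (30 * lam n d + 1) ≤ (n : ℝ) * d ∧
      96 * ((n : ℝ) ^ (1 / 10 : ℝ) + 1) ≤ (n : ℝ) * d ∧ 96 * (Real.log n + 1) ≤ (n : ℝ) * d) →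
      ∀ t, (((Reg n d).filter fun G => bad n d t G).card : ℝ) ≤
        C * Real.exp (-((n : ℝ) ^ (1 / 10 : ℝ) / 2)) * (Reg n d).card) :
    Whp (RB CA) P := by
  refine Whp.of_bound _ (tend0 C) ?_
  obtain ⟨n₀, h0⟩ := regB CA hCA
  refine ⟨n₀, fun n hn d hd => ?_⟩
  have hr := h0 n hn d hd
  have h1 := union_bound (n := n) (d := d) (bad n d) _ (h n d hd hr)
  have h2 : (((Reg n d).filter fun G => ¬ P n d G).card : ℝ) ≤
      (((Reg n d).filter fun G => ∃ t, bad n d t G).card : ℝ) := by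
    refine Nat.cast_le.2 (card_le_card ?_)
    intro G hG
    simp only [mem_filter] at hG ⊢
    exact ⟨hG.1, hP n d G hG.1 hG.2⟩
  refine h2.trans (h1.trans ?_)
  have h3 : ((Fintype.card (τ n) : ℕ) : ℝ) ≤ (n : ℝ) ^ 3 := by
    exact_mod_cast hτ n (by omega)
  have h4 : 0 ≤ C * Real.exp (-((n : ℝ) ^ (1 / 10 : ℝ) / 2)) := by positivity
  calc ((Fintype.card (τ n) : ℕ) : ℝ) * (C * Real.exp (-((n : ℝ) ^ (1 / 10 : ℝ) / 2))) * ((Reg n d).card : ℝ)
      ≤ (n : ℝ) ^ 3 * (C * Real.exp (-((n : ℝ) ^ (1 / 10 : ℝ) / 2))) * ((Reg n d).card : ℝ) := by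
        refine mul_le_mul_of_nonneg_right (mul_le_mul_of_nonneg_right h3 h4) (by positivity)
    _ = _ := by ring

/-! ### TB4 -/

/-- the set in TB4 -/
noncomputable def Y4 {n : ℕ} (v u : Fin n) (G : Gr n) : Finset (Fin n) := univ.filter fun y : Fin n =>
      y ≠ v ∧ y ≠ u ∧ ¬ G.Adj v y ∧ ¬ G.Adj u y ∧
      ∃ a z, a ≠ z ∧ G.Adj v a ∧ G.Adj u z ∧ G.Adj a y ∧ G.Adj z y

theorem tb4 (hDO : Stmt_DO) {CA : ℝ} (hCA : 0 < CA) : Whp (RB CA) (fun _ d G => TB4 d G) := by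
  refine whp_of hCA (C := 1) zero_le_one (τ := fun n => Fin n × Fin n) ?_ _
    (fun n d t G => 30 * lam n d < ((Y4 t.1 t.2 G).card : ℝ)) ?_ ?_
  · intro n hn
    simp only [Fintype.card_prod, Fintype.card_fin]
    calc n * n = n ^ 2 := by ring
      _ ≤ n ^ 3 := Nat.pow_le_pow_right hn (by norm_num)
  · intro n d G _ hG
    unfold TB4 at hG
    push Not at hG
    obtain ⟨v, u, h1, h2⟩ := hG
    exact ⟨(v, u), h2⟩
  rintro n d - ⟨hn, hd1, hd, -, hl, hm, -, -⟩ ⟨v, u⟩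
  simp only
  have hn0 : (0 : ℝ) < n := by
    have : (100 : ℝ) ≤ n := by exact_mod_cast hn
    linarith
  have hlam0 : 0 ≤ lam n d := by unfold lam; positivity
  have hS : ({v, u} : Finset (Fin n)).card ≤ 2 := card_le_two
  have key := core hDO (n := n) (d := d) (by omega) hd (Om {v, u}) (ι := Fin n × Fin n × Fin n)
    (fun g => univ.filter fun t => t.1 ∉ ({v, u} : Finset (Fin n)) ∧ t.2.1 ∉ ({v, u} : Finset (Fin n)) ∧
      t.2.2 ∉ ({v, u} : Finset (Fin n)) ∧ t.2.1 ≠ t.2.2 ∧ t.1 ≠ t.2.1 ∧ t.1 ≠ t.2.2 ∧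
      s(v, t.2.1) ∈ g ∧ s(u, t.2.2) ∈ g)
    (fun t => {s(t.1, t.2.1), s(t.1, t.2.2)}) (⌊30 * lam n d⌋₊ + 1) 2 (4 * lam n d)
    (fun G => 30 * lam n d < ((Y4 v u G).card : ℝ)) ?_ ?_ ?_ ?_ ?_
  · have h1 := core_exp (B := Real.exp 2) (by positivity) (Real.exp_pos 2) (by positivity) key
    refine h1.trans (mul_le_mul_of_nonneg_right ?_ (by positivity))
    rw [← Real.exp_nat_mul, ← Real.exp_sub, one_mul]
    refine Real.exp_le_exp.2 ?_
    have h3 : 30 * lam n d < ((⌊30 * lam n d⌋₊ + 1 : ℕ) : ℝ) := by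
      push_cast
      exact Nat.lt_floor_add_one _
    have h4 : Real.exp 2 * (4 * lam n d) ≤ 7.5 * (4 * lam n d) :=
      mul_le_mul_of_nonneg_right exp_two_lt.le (by positivity)
    linarith
  · intro G hG
    have := ed_Om_card hG ({v, u} : Finset (Fin n))
    calc 32 * (ed G ∩ Om {v, u}).card ≤ 32 * (2 * d) :=
          Nat.mul_le_mul_left _ (this.trans (Nat.mul_le_mul_right _ hS))
      _ = 64 * d := by ring
      _ ≤ n * d := Nat.mul_le_mul_right _ (by omega)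
  · intro G hG t ht
    simp only [mem_filter, mem_univ, true_and] at ht
    obtain ⟨h1, h2, h3, h4, h5, h6, -, -⟩ := ht
    refine ⟨card_le_two, ?_⟩
    have hout : ∀ x, x ∉ ({v, u} : Finset (Fin n)) → 16 * ((Om {v, u}).filter fun f => x ∈ f).card ≤ n := by
      intro x hx
      have := (Om_deg _ x hx).trans hS
      omega
    intro e he
    simp only [mem_insert, mem_singleton] at he
    rcases he with rfl | rfl
    · refine ⟨fun h => ?_, by simpa using h5, fun x hx => ?_⟩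
      · rw [mem_Om] at h; rcases h with h | h
        · exact h1 h
        · exact h2 h
      · rw [Sym2.mem_iff] at hx
        rcases hx with rfl | rfl
        · exact hout _ h1
        · exact hout _ h2
    · refine ⟨fun h => ?_, by simpa using h6, fun x hx => ?_⟩
      · rw [mem_Om] at h; rcases h with h | h
        · exact h1 h
        · exact h3 h
      · rw [Sym2.mem_iff] at hx
        rcases hx with rfl | rfl
        · exact hout _ h1
        · exact hout _ h3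
  · have h3 : ((⌊30 * lam n d⌋₊ : ℕ) : ℝ) ≤ 30 * lam n d := Nat.floor_le (by positivity)
    have : ((32 * ((⌊30 * lam n d⌋₊ + 1) * 2) : ℕ) : ℝ) ≤ ((n * d : ℕ) : ℝ) := by
      push_cast
      linarith
    exact_mod_cast this
  · intro G hG
    set fam := (univ.filter fun t : Fin n × Fin n × Fin n => t.1 ∉ ({v, u} : Finset (Fin n)) ∧
      t.2.1 ∉ ({v, u} : Finset (Fin n)) ∧
      t.2.2 ∉ ({v, u} : Finset (Fin n)) ∧ t.2.1 ≠ t.2.2 ∧ t.1 ≠ t.2.1 ∧ t.1 ≠ t.2.2 ∧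
      s(v, t.2.1) ∈ ed G ∩ Om {v, u} ∧ s(u, t.2.2) ∈ ed G ∩ Om {v, u}) with hfam
    have hc : fam.card ≤ n * (d * d) := by
      have hsub : fam ⊆ univ ×ˢ (nb G v ×ˢ nb G u) := by
        intro t ht
        simp only [hfam, mem_filter, mem_univ, true_and] at ht
        simp only [mem_product, mem_univ, true_and, mem_nb]
        exact ⟨(mk_mem_inter (by simp)).1 ht.2.2.2.2.2.2.1, (mk_mem_inter (by simp)).1 ht.2.2.2.2.2.2.2⟩
      refine (card_le_card hsub).trans ?_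
      rw [card_product, card_product, mem_Reg.1 hG v, mem_Reg.1 hG u, card_univ, Fintype.card_fin]
    have hs : ∑ t ∈ fam, (2 * (d : ℝ) / n) ^ ({s(t.1, t.2.1), s(t.1, t.2.2)} : Finset (Sym2 (Fin n))).card
        = fam.card * (2 * (d : ℝ) / n) ^ 2 := by
      rw [← nsmul_eq_mul, ← sum_const]
      refine sum_congr rfl fun t ht => ?_
      simp only [hfam, mem_filter, mem_univ, true_and] at ht
      rw [card2 ht.2.2.2.1]
    rw [hs]
    calc (fam.card : ℝ) * (2 * (d : ℝ) / n) ^ 2 ≤ ((n * (d * d) : ℕ) : ℝ) * (2 * (d : ℝ) / n) ^ 2 :=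
          mul_le_mul_of_nonneg_right (Nat.cast_le.2 hc) (by positivity)
      _ = 4 * lam n d := by
          unfold lam; push_cast; field_simp; ring
  · intro G hG hb
    set Y := Y4 v u G with hY
    have hmY : ⌊30 * lam n d⌋₊ + 1 ≤ Y.card := by
      have : ⌊30 * lam n d⌋₊ < Y.card := by
        rw [Nat.floor_lt (by positivity)]; exact hb
      omega
    obtain ⟨Y', hY', hc⟩ := exists_subset_card_eq hmY
    have hch : ∀ y : Fin n, ∃ az : Fin n × Fin n, y ∈ Y → az.1 ≠ az.2 ∧ G.Adj v az.1 ∧ G.Adj u az.2 ∧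
        G.Adj az.1 y ∧ G.Adj az.2 y := by
      intro y
      by_cases hy : y ∈ Y
      · have hy' := hy
        simp only [hY, Y4, mem_filter, mem_univ, true_and] at hy'
        obtain ⟨-, -, -, -, a, z, h⟩ := hy'
        exact ⟨(a, z), fun _ => h⟩
      · exact ⟨(y, y), fun h => absurd h hy⟩
    choose az haz using hch
    have hout : ∀ y ∈ Y, y ≠ v ∧ y ≠ u ∧ ¬ G.Adj v y ∧ ¬ G.Adj u y := by
      intro y hy
      simp only [hY, Y4, mem_filter, mem_univ, true_and] at hy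
      exact ⟨hy.1, hy.2.1, hy.2.2.1, hy.2.2.2.1⟩
    refine ⟨Y'.image fun y => (y, az y), ?_, ?_, ?_, ?_⟩
    · intro t ht
      rw [mem_image] at ht
      obtain ⟨y, hy, rfl⟩ := ht
      have hyY := hY' hy
      obtain ⟨h1, h2, h3, h4⟩ := hout y hyY
      obtain ⟨g1, g2, g3, g4, g5⟩ := haz y hyY
      simp only [mem_filter, mem_univ, true_and, mem_insert, mem_singleton, not_or]
      refine ⟨⟨h1, h2⟩, ⟨g2.ne', fun h => ?_⟩, ⟨fun h => ?_, g3.ne'⟩, g1, g4.ne', g5.ne',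
        (mk_mem_inter (by simp)).2 g2, (mk_mem_inter (by simp)).2 g3⟩
      · rw [h] at g4; exact h4 g4
      · rw [h] at g5; exact h3 g5
    · rw [card_image_of_injective, hc]
      intro a b hab
      exact (Prod.mk.injEq _ _ _ _ ▸ hab).1
    · intro i hi j hj hij
      rw [mem_image] at hi hj
      obtain ⟨y, hy, rfl⟩ := hi
      obtain ⟨y', hy', rfl⟩ := hj
      have hne : y ≠ y' := fun h => hij (by rw [h])
      obtain ⟨h1, h2, h3, h4⟩ := hout y (hY' hy)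
      obtain ⟨h1', h2', h3', h4'⟩ := hout y' (hY' hy')
      obtain ⟨g1, g2, g3, g4, g5⟩ := haz y (hY' hy)
      obtain ⟨g1', g2', g3', g4', g5'⟩ := haz y' (hY' hy')
      rw [Finset.disjoint_left]
      intro e he he'
      have hin : ∀ c, (c = (az y).1 ∨ c = (az y).2) → c ≠ y' := by
        rintro c (rfl | rfl) h
        · rw [h] at g2; exact h3' g2
        · rw [h] at g3; exact h4' g3
      simp only [mem_insert, mem_singleton] at he he'
      have hmem : y' ∈ e := by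
        rcases he' with rfl | rfl <;> simp
      rcases he with rfl | rfl
      · rw [Sym2.mem_iff] at hmem
        rcases hmem with h | h
        · exact hne h.symm
        · exact hin _ (Or.inl rfl) h.symm
      · rw [Sym2.mem_iff] at hmem
        rcases hmem with h | h
        · exact hne h.symm
        · exact hin _ (Or.inr rfl) h.symm
    · intro i hi
      rw [mem_image] at hi
      obtain ⟨y, hy, rfl⟩ := hi
      obtain ⟨g1, g2, g3, g4, g5⟩ := haz y (hY' hy)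
      intro e he
      simp only [mem_insert, mem_singleton] at he
      rcases he with rfl | rfl
      · rw [mk_mem_ed]; exact g4.symm
      · rw [mk_mem_ed]; exact g5.symm

/-! ### TB3 -/

/-- the set in TB3 -/
noncomputable def Y3 {n : ℕ} (x₁ x₂ x₃ : Fin n) (G : Gr n) : Finset (Fin n) := univ.filter fun y : Fin n =>
    y ≠ x₁ ∧ y ≠ x₂ ∧ y ≠ x₃ ∧ ¬ G.Adj x₁ y ∧ ¬ G.Adj x₂ y ∧ ¬ G.Adj x₃ y ∧
    ∃ t₁ t₂ t₃, t₁ ≠ t₂ ∧ t₁ ≠ t₃ ∧ t₂ ≠ t₃ ∧ G.Adj x₁ t₁ ∧ G.Adj x₂ t₂ ∧ G.Adj x₃ t₃ ∧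
      G.Adj t₁ y ∧ G.Adj t₂ y ∧ G.Adj t₃ y

theorem card3 {n : ℕ} {y a b c : Fin n} (h : a ≠ b) (h' : a ≠ c) (h'' : b ≠ c) :
    ({s(y, a), s(y, b), s(y, c)} : Finset (Sym2 (Fin n))).card = 3 :=
  Finset.card_eq_three.2 ⟨_, _, _, sym_ne h, sym_ne h', sym_ne h'', rfl⟩

theorem d3_sq {CA : ℝ} {n d : ℕ} (hn : 0 < (n : ℝ)) (h : (d : ℝ) ^ 3 ≤ CA * n) : (d : ℝ) ^ 3 / n ≤ CA := by
  rw [div_le_iff₀ hn]; exact h

theorem tb3 (hDO : Stmt_DO) {CA : ℝ} (hCA : 0 < CA) : Whp (RB CA) (fun _ _ G => TB3 G) := by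
  refine whp_of hCA (C := Real.exp (Real.exp 1 * (8 * CA ^ 2))) (by positivity)
    (τ := fun n => Fin n × Fin n × Fin n) ?_ _
    (fun n d t G => (n : ℝ) ^ (1 / 10 : ℝ) < ((Y3 t.1 t.2.1 t.2.2 G).card : ℝ)) ?_ ?_
  · intro n hn
    simp only [Fintype.card_prod, Fintype.card_fin]
    exact le_of_eq (by ring)
  · intro n d G _ hG
    unfold TB3 at hG
    push Not at hG
    obtain ⟨x₁, x₂, x₃, h2⟩ := hG
    exact ⟨(x₁, x₂, x₃), h2⟩
  rintro n d hRB ⟨hn, hd1, hd, -, -, -, hm, -⟩ ⟨x₁, x₂, x₃⟩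
  simp only
  have hn0 : (0 : ℝ) < n := by
    have : (100 : ℝ) ≤ n := by exact_mod_cast hn
    linarith
  have hN0 : 0 ≤ (n : ℝ) ^ (1 / 10 : ℝ) := by positivity
  have hS : ({x₁, x₂, x₃} : Finset (Fin n)).card ≤ 3 := card_le_three
  have key := core hDO (n := n) (d := d) (by omega) hd (Om {x₁, x₂, x₃}) (ι := Fin n × Fin n × Fin n × Fin n)
    (fun g => univ.filter fun t => t.1 ∉ ({x₁, x₂, x₃} : Finset (Fin n)) ∧
      t.2.1 ∉ ({x₁, x₂, x₃} : Finset (Fin n)) ∧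
      t.2.2.1 ∉ ({x₁, x₂, x₃} : Finset (Fin n)) ∧ t.2.2.2 ∉ ({x₁, x₂, x₃} : Finset (Fin n)) ∧
      (t.2.1 ≠ t.2.2.1 ∧ t.2.1 ≠ t.2.2.2 ∧ t.2.2.1 ≠ t.2.2.2) ∧
      (t.1 ≠ t.2.1 ∧ t.1 ≠ t.2.2.1 ∧ t.1 ≠ t.2.2.2) ∧
      s(x₁, t.2.1) ∈ g ∧ s(x₂, t.2.2.1) ∈ g ∧ s(x₃, t.2.2.2) ∈ g)
    (fun t => {s(t.1, t.2.1), s(t.1, t.2.2.1), s(t.1, t.2.2.2)}) (⌊(n : ℝ) ^ (1 / 10 : ℝ)⌋₊ + 1) 3 (8 * CA ^ 2)
    (fun G => (n : ℝ) ^ (1 / 10 : ℝ) < ((Y3 x₁ x₂ x₃ G).card : ℝ)) ?_ ?_ ?_ ?_ ?_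
  · have h1 := core_exp (B := Real.exp 1) (by positivity) (Real.exp_pos 1) (by positivity) key
    refine h1.trans (mul_le_mul_of_nonneg_right ?_ (by positivity))
    rw [← Real.exp_nat_mul, ← Real.exp_sub, ← Real.exp_add]
    refine Real.exp_le_exp.2 ?_
    have h3 : (n : ℝ) ^ (1 / 10 : ℝ) < ((⌊(n : ℝ) ^ (1 / 10 : ℝ)⌋₊ + 1 : ℕ) : ℝ) := by
      push_cast
      exact Nat.lt_floor_add_one _
    linarith
  · intro G hG
    have := ed_Om_card hG ({x₁, x₂, x₃} : Finset (Fin n))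
    calc 32 * (ed G ∩ Om {x₁, x₂, x₃}).card ≤ 32 * (3 * d) :=
          Nat.mul_le_mul_left _ (this.trans (Nat.mul_le_mul_right _ hS))
      _ = 96 * d := by ring
      _ ≤ n * d := Nat.mul_le_mul_right _ (by omega)
  · intro G hG t ht
    simp only [mem_filter, mem_univ, true_and] at ht
    obtain ⟨h1, h2, h3, h4, -, ⟨h5, h6, h7⟩, -⟩ := ht
    refine ⟨card_le_three, ?_⟩
    have hout : ∀ x, x ∉ ({x₁, x₂, x₃} : Finset (Fin n)) →
        16 * ((Om {x₁, x₂, x₃}).filter fun f => x ∈ f).card ≤ n := by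
      intro x hx
      have := (Om_deg _ x hx).trans hS
      omega
    have hgen : ∀ a, a ∉ ({x₁, x₂, x₃} : Finset (Fin n)) → t.1 ≠ a → s(t.1, a) ∉ Om {x₁, x₂, x₃} ∧
        ¬ s(t.1, a).IsDiag ∧ ∀ x ∈ s(t.1, a), 16 * ((Om {x₁, x₂, x₃}).filter fun f => x ∈ f).card ≤ n := by
      intro a ha hta
      refine ⟨fun h => ?_, by simpa using hta, fun x hx => ?_⟩
      · rw [mem_Om] at h; rcases h with h | h
        · exact h1 h
        · exact ha h
      · rw [Sym2.mem_iff] at hx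
        rcases hx with rfl | rfl
        · exact hout _ h1
        · exact hout _ ha
    intro e he
    simp only [mem_insert, mem_singleton] at he
    rcases he with rfl | rfl | rfl
    · exact hgen _ h2 h5
    · exact hgen _ h3 h6
    · exact hgen _ h4 h7
  · have h3 : ((⌊(n : ℝ) ^ (1 / 10 : ℝ)⌋₊ : ℕ) : ℝ) ≤ (n : ℝ) ^ (1 / 10 : ℝ) := Nat.floor_le (by positivity)
    have : ((32 * ((⌊(n : ℝ) ^ (1 / 10 : ℝ)⌋₊ + 1) * 3) : ℕ) : ℝ) ≤ ((n * d : ℕ) : ℝ) := by
      push_cast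
      linarith
    exact_mod_cast this
  · intro G hG
    set fam := (univ.filter fun t : Fin n × Fin n × Fin n × Fin n => t.1 ∉ ({x₁, x₂, x₃} : Finset (Fin n)) ∧
      t.2.1 ∉ ({x₁, x₂, x₃} : Finset (Fin n)) ∧
      t.2.2.1 ∉ ({x₁, x₂, x₃} : Finset (Fin n)) ∧ t.2.2.2 ∉ ({x₁, x₂, x₃} : Finset (Fin n)) ∧
      (t.2.1 ≠ t.2.2.1 ∧ t.2.1 ≠ t.2.2.2 ∧ t.2.2.1 ≠ t.2.2.2) ∧
      (t.1 ≠ t.2.1 ∧ t.1 ≠ t.2.2.1 ∧ t.1 ≠ t.2.2.2) ∧
      s(x₁, t.2.1) ∈ ed G ∩ Om {x₁, x₂, x₃} ∧ s(x₂, t.2.2.1) ∈ ed G ∩ Om {x₁, x₂, x₃} ∧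
      s(x₃, t.2.2.2) ∈ ed G ∩ Om {x₁, x₂, x₃}) with hfam
    have hc : fam.card ≤ n * (d * (d * d)) := by
      have hsub : fam ⊆ univ ×ˢ (nb G x₁ ×ˢ (nb G x₂ ×ˢ nb G x₃)) := by
        intro t ht
        simp only [hfam, mem_filter, mem_univ, true_and] at ht
        simp only [mem_product, mem_univ, true_and, mem_nb]
        obtain ⟨-, -, -, -, -, -, g1, g2, g3⟩ := ht
        exact ⟨(mk_mem_inter (by simp)).1 g1, (mk_mem_inter (by simp)).1 g2, (mk_mem_inter (by simp)).1 g3⟩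
      refine (card_le_card hsub).trans ?_
      rw [card_product, card_product, card_product, mem_Reg.1 hG x₁, mem_Reg.1 hG x₂, mem_Reg.1 hG x₃,
        card_univ, Fintype.card_fin]
    have hs : ∑ t ∈ fam, (2 * (d : ℝ) / n) ^
        ({s(t.1, t.2.1), s(t.1, t.2.2.1), s(t.1, t.2.2.2)} : Finset (Sym2 (Fin n))).card
        = fam.card * (2 * (d : ℝ) / n) ^ 3 := by
      rw [← nsmul_eq_mul, ← sum_const]
      refine sum_congr rfl fun t ht => ?_
      simp only [hfam, mem_filter, mem_univ, true_and] at ht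
      obtain ⟨-, -, -, -, ⟨g1, g2, g3⟩, -⟩ := ht
      rw [card3 g1 g2 g3]
    rw [hs]
    have hq := d3_sq hn0 hRB.2
    have hq0 : 0 ≤ (d : ℝ) ^ 3 / n := by positivity
    calc (fam.card : ℝ) * (2 * (d : ℝ) / n) ^ 3 ≤ ((n * (d * (d * d)) : ℕ) : ℝ) * (2 * (d : ℝ) / n) ^ 3 :=
          mul_le_mul_of_nonneg_right (Nat.cast_le.2 hc) (by positivity)
      _ = 8 * ((d : ℝ) ^ 3 / n) ^ 2 := by
          push_cast; field_simp; ring
      _ ≤ 8 * CA ^ 2 := mul_le_mul_of_nonneg_left (pow_le_pow_left₀ hq0 hq 2) (by norm_num)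
  · intro G hG hb
    set Y := Y3 x₁ x₂ x₃ G with hY
    have hmY : ⌊(n : ℝ) ^ (1 / 10 : ℝ)⌋₊ + 1 ≤ Y.card := by
      have : ⌊(n : ℝ) ^ (1 / 10 : ℝ)⌋₊ < Y.card := by
        rw [Nat.floor_lt (by positivity)]; exact hb
      omega
    obtain ⟨Y', hY', hc⟩ := exists_subset_card_eq hmY
    have hch : ∀ y : Fin n, ∃ az : Fin n × Fin n × Fin n, y ∈ Y → az.1 ≠ az.2.1 ∧ az.1 ≠ az.2.2 ∧
        az.2.1 ≠ az.2.2 ∧ G.Adj x₁ az.1 ∧ G.Adj x₂ az.2.1 ∧ G.Adj x₃ az.2.2 ∧
        G.Adj az.1 y ∧ G.Adj az.2.1 y ∧ G.Adj az.2.2 y := by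
      intro y
      by_cases hy : y ∈ Y
      · have hy' := hy
        simp only [hY, Y3, mem_filter, mem_univ, true_and] at hy'
        obtain ⟨-, -, -, -, -, -, a, b, c, h⟩ := hy'
        exact ⟨(a, b, c), fun _ => h⟩
      · exact ⟨(y, y, y), fun h => absurd h hy⟩
    choose az haz using hch
    have hout : ∀ y ∈ Y, y ≠ x₁ ∧ y ≠ x₂ ∧ y ≠ x₃ ∧ ¬ G.Adj x₁ y ∧ ¬ G.Adj x₂ y ∧ ¬ G.Adj x₃ y := by
      intro y hy
      simp only [hY, Y3, mem_filter, mem_univ, true_and] at hy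
      exact ⟨hy.1, hy.2.1, hy.2.2.1, hy.2.2.2.1, hy.2.2.2.2.1, hy.2.2.2.2.2.1⟩
    have hnS : ∀ y ∈ Y, ∀ a, G.Adj a y → a ∉ ({x₁, x₂, x₃} : Finset (Fin n)) := by
      intro y hy a ha h
      obtain ⟨-, -, -, h4, h5, h6⟩ := hout y hy
      simp only [mem_insert, mem_singleton] at h
      rcases h with rfl | rfl | rfl
      · exact h4 ha
      · exact h5 ha
      · exact h6 ha
    refine ⟨Y'.image fun y => (y, az y), ?_, ?_, ?_, ?_⟩
    · intro t ht
      rw [mem_image] at ht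
      obtain ⟨y, hy, rfl⟩ := ht
      have hyY := hY' hy
      obtain ⟨h1, h2, h3, h4, h5, h6⟩ := hout y hyY
      obtain ⟨g1, g2, g3, g4, g5, g6, g7, g8, g9⟩ := haz y hyY
      rw [mem_filter]
      refine ⟨mem_univ _, ?_, hnS y hyY _ g7, hnS y hyY _ g8, hnS y hyY _ g9, ⟨g1, g2, g3⟩,
        ⟨g7.ne', g8.ne', g9.ne'⟩,
        (mk_mem_inter (by simp)).2 g4, (mk_mem_inter (by simp)).2 g5, (mk_mem_inter (by simp)).2 g6⟩
      simp only [mem_insert, mem_singleton, not_or]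
      exact ⟨h1, h2, h3⟩
    · rw [card_image_of_injective, hc]
      intro a b hab
      exact (Prod.mk.injEq _ _ _ _ ▸ hab).1
    · intro i hi j hj hij
      rw [mem_image] at hi hj
      obtain ⟨y, hy, rfl⟩ := hi
      obtain ⟨y', hy', rfl⟩ := hj
      have hne : y ≠ y' := fun h => hij (by rw [h])
      obtain ⟨h1', h2', h3', h4', h5', h6'⟩ := hout y' (hY' hy')
      obtain ⟨g1, g2, g3, g4, g5, g6, g7, g8, g9⟩ := haz y (hY' hy)
      rw [Finset.disjoint_left]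
      intro e he he'
      have hin : ∀ c, (c = (az y).1 ∨ c = (az y).2.1 ∨ c = (az y).2.2) → c ≠ y' := by
        rintro c (rfl | rfl | rfl) h
        · rw [h] at g4; exact h4' g4
        · rw [h] at g5; exact h5' g5
        · rw [h] at g6; exact h6' g6
      simp only [mem_insert, mem_singleton] at he he'
      have hmem : y' ∈ e := by
        rcases he' with rfl | rfl | rfl <;> simp
      rcases he with rfl | rfl | rfl
      · rw [Sym2.mem_iff] at hmem
        rcases hmem with h | h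
        · exact hne h.symm
        · exact hin _ (Or.inl rfl) h.symm
      · rw [Sym2.mem_iff] at hmem
        rcases hmem with h | h
        · exact hne h.symm
        · exact hin _ (Or.inr (Or.inl rfl)) h.symm
      · rw [Sym2.mem_iff] at hmem
        rcases hmem with h | h
        · exact hne h.symm
        · exact hin _ (Or.inr (Or.inr rfl)) h.symm
    · intro i hi
      rw [mem_image] at hi
      obtain ⟨y, hy, rfl⟩ := hi
      obtain ⟨g1, g2, g3, g4, g5, g6, g7, g8, g9⟩ := haz y (hY' hy)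
      intro e he
      simp only [mem_insert, mem_singleton] at he
      rcases he with rfl | rfl | rfl
      · rw [mk_mem_ed]; exact g7.symm
      · rw [mk_mem_ed]; exact g8.symm
      · rw [mk_mem_ed]; exact g9.symm

/-! ### TB6 -/

/-- the set in TB6 -/
noncomputable def Y6 {n : ℕ} (v : Fin n) (G : Gr n) : Finset (Fin n × Fin n) :=
  univ.filter fun t : Fin n × Fin n => G.Adj v t.1 ∧ G.Adj v t.2 ∧ G.Adj t.1 t.2

theorem Y6_lt {n : ℕ} (v : Fin n) (G : Gr n) :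
    (Y6 v G).card ≤ 2 * ((Y6 v G).filter fun t => t.1 < t.2).card := by
  have h1 : (Y6 v G).card = ((Y6 v G).filter fun t => t.1 < t.2).card +
      ((Y6 v G).filter fun t => ¬ t.1 < t.2).card := (card_filter_add_card_filter_not _).symm
  have h2 : ((Y6 v G).filter fun t => ¬ t.1 < t.2).card ≤ ((Y6 v G).filter fun t => t.1 < t.2).card := by
    refine card_le_card_of_injOn (fun t => (t.2, t.1)) ?_ ?_
    · intro t ht
      simp only [Y6, coe_filter, mem_filter, mem_univ, true_and, Set.mem_ofPred_eq] at ht ⊢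
      obtain ⟨⟨a, b, c⟩, e⟩ := ht
      refine ⟨⟨b, a, c.symm⟩, ?_⟩
      have := c.ne
      omega
    · intro a _ b _ hab
      simp only [Prod.mk.injEq] at hab
      exact Prod.ext hab.2 hab.1
  omega

theorem tb6 (hDO : Stmt_DO) {CA : ℝ} (hCA : 0 < CA) : Whp (RB CA) (fun _ _ G => TB6 G) := by
  refine whp_of hCA (C := Real.exp (Real.exp 1 * (2 * CA))) (by positivity)
    (τ := fun n => Fin n) ?_ _
    (fun n d t G => (n : ℝ) ^ (1 / 10 : ℝ) < ((Y6 t G).card : ℝ)) ?_ ?_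
  · intro n hn
    simp only [Fintype.card_fin]
    calc n = n ^ 1 := by ring
      _ ≤ n ^ 3 := Nat.pow_le_pow_right hn (by norm_num)
  · intro n d G _ hG
    unfold TB6 at hG
    push Not at hG
    obtain ⟨v, h2⟩ := hG
    exact ⟨v, h2⟩
  rintro n d hRB ⟨hn, hd1, hd, -, -, -, hm, -⟩ v
  have hn0 : (0 : ℝ) < n := by
    have : (100 : ℝ) ≤ n := by exact_mod_cast hn
    linarith
  have hN0 : 0 ≤ (n : ℝ) ^ (1 / 10 : ℝ) := by positivity
  have hS : ({v} : Finset (Fin n)).card ≤ 1 := by simp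
  have key := core hDO (n := n) (d := d) (by omega) hd (Om {v}) (ι := Fin n × Fin n)
    (fun g => univ.filter fun t => t.1 ≠ v ∧ t.2 ≠ v ∧ t.1 ≠ t.2 ∧ s(v, t.1) ∈ g ∧ s(v, t.2) ∈ g)
    (fun t => {s(t.1, t.2)}) (⌊(n : ℝ) ^ (1 / 10 : ℝ) / 2⌋₊ + 1) 1 (2 * CA)
    (fun G => (n : ℝ) ^ (1 / 10 : ℝ) < ((Y6 v G).card : ℝ)) ?_ ?_ ?_ ?_ ?_
  · have h1 := core_exp (B := Real.exp 1) (by positivity) (Real.exp_pos 1) (by positivity) key
    refine h1.trans (mul_le_mul_of_nonneg_right ?_ (by positivity))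
    rw [← Real.exp_nat_mul, ← Real.exp_sub, ← Real.exp_add]
    refine Real.exp_le_exp.2 ?_
    have h3 : (n : ℝ) ^ (1 / 10 : ℝ) / 2 < ((⌊(n : ℝ) ^ (1 / 10 : ℝ) / 2⌋₊ + 1 : ℕ) : ℝ) := by
      push_cast
      exact Nat.lt_floor_add_one _
    linarith
  · intro G hG
    have := ed_Om_card hG ({v} : Finset (Fin n))
    calc 32 * (ed G ∩ Om {v}).card ≤ 32 * (1 * d) :=
          Nat.mul_le_mul_left _ (this.trans (Nat.mul_le_mul_right _ hS))
      _ = 32 * d := by ring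
      _ ≤ n * d := Nat.mul_le_mul_right _ (by omega)
  · intro G hG t ht
    simp only [mem_filter, mem_univ, true_and] at ht
    obtain ⟨h1, h2, h3, -, -⟩ := ht
    refine ⟨by simp, ?_⟩
    have hout : ∀ x, x ≠ v → 16 * ((Om {v}).filter fun f => x ∈ f).card ≤ n := by
      intro x hx
      have := (Om_deg {v} x (by simpa using hx)).trans hS
      omega
    intro e he
    simp only [mem_singleton] at he
    subst he
    refine ⟨fun h => ?_, by simpa using h3, fun x hx => ?_⟩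
    · rw [mem_Om] at h; rcases h with h | h
      · exact h1 (by simpa using h)
      · exact h2 (by simpa using h)
    · rw [Sym2.mem_iff] at hx
      rcases hx with rfl | rfl
      · exact hout _ h1
      · exact hout _ h2
  · have h3 : ((⌊(n : ℝ) ^ (1 / 10 : ℝ) / 2⌋₊ : ℕ) : ℝ) ≤ (n : ℝ) ^ (1 / 10 : ℝ) / 2 :=
      Nat.floor_le (by positivity)
    have : ((32 * ((⌊(n : ℝ) ^ (1 / 10 : ℝ) / 2⌋₊ + 1) * 1) : ℕ) : ℝ) ≤ ((n * d : ℕ) : ℝ) := by
      push_cast
      linarith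
    exact_mod_cast this
  · intro G hG
    set fam := (univ.filter fun t : Fin n × Fin n => t.1 ≠ v ∧ t.2 ≠ v ∧ t.1 ≠ t.2 ∧
      s(v, t.1) ∈ ed G ∩ Om {v} ∧ s(v, t.2) ∈ ed G ∩ Om {v}) with hfam
    have hc : fam.card ≤ d * d := by
      have hsub : fam ⊆ nb G v ×ˢ nb G v := by
        intro t ht
        simp only [hfam, mem_filter, mem_univ, true_and] at ht
        simp only [mem_product, mem_nb]
        obtain ⟨-, -, -, g1, g2⟩ := ht
        exact ⟨(mk_mem_inter (by simp)).1 g1, (mk_mem_inter (by simp)).1 g2⟩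
      refine (card_le_card hsub).trans ?_
      rw [card_product, mem_Reg.1 hG v]
    have hs : ∑ t ∈ fam, (2 * (d : ℝ) / n) ^ ({s(t.1, t.2)} : Finset (Sym2 (Fin n))).card
        = fam.card * (2 * (d : ℝ) / n) ^ 1 := by
      rw [← nsmul_eq_mul, ← sum_const]
      refine sum_congr rfl fun t ht => ?_
      rw [card_singleton]
    rw [hs]
    have hq := d3_sq hn0 hRB.2
    calc (fam.card : ℝ) * (2 * (d : ℝ) / n) ^ 1 ≤ ((d * d : ℕ) : ℝ) * (2 * (d : ℝ) / n) ^ 1 :=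
          mul_le_mul_of_nonneg_right (Nat.cast_le.2 hc) (by positivity)
      _ = 2 * ((d : ℝ) ^ 3 / n) := by
          push_cast; field_simp
      _ ≤ 2 * CA := mul_le_mul_of_nonneg_left hq (by norm_num)
  · intro G hG hb
    set Y := (Y6 v G).filter fun t => t.1 < t.2 with hY
    have hmY : ⌊(n : ℝ) ^ (1 / 10 : ℝ) / 2⌋₊ + 1 ≤ Y.card := by
      have : ⌊(n : ℝ) ^ (1 / 10 : ℝ) / 2⌋₊ < Y.card := by
        rw [Nat.floor_lt (by positivity)]
        have h1 : (((Y6 v G).card : ℕ) : ℝ) ≤ ((2 * Y.card : ℕ) : ℝ) := Nat.cast_le.2 (Y6_lt v G)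
        push_cast at h1
        linarith
      omega
    obtain ⟨Y', hY', hc⟩ := exists_subset_card_eq hmY
    have hmem : ∀ t ∈ Y', (G.Adj v t.1 ∧ G.Adj v t.2 ∧ G.Adj t.1 t.2) ∧ t.1 < t.2 := by
      intro t ht
      have := hY' ht
      simpa only [hY, Y6, mem_filter, mem_univ, true_and] using this
    refine ⟨Y', ?_, hc, ?_, ?_⟩
    · intro t ht
      obtain ⟨⟨g1, g2, g3⟩, g4⟩ := hmem t ht
      rw [mem_filter]
      exact ⟨mem_univ _, g1.ne', g2.ne', g3.ne, (mk_mem_inter (by simp)).2 g1, (mk_mem_inter (by simp)).2 g2⟩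
    · intro i hi j hj hij
      obtain ⟨-, g4⟩ := hmem i hi
      obtain ⟨-, g4'⟩ := hmem j hj
      rw [Finset.disjoint_singleton]
      intro h
      rw [Sym2.eq_iff] at h
      rcases h with ⟨a, b⟩ | ⟨a, b⟩
      · exact hij (Prod.ext a b)
      · rw [a, b] at g4
        exact absurd g4 (not_lt.2 g4'.le)
    · intro i hi e he
      obtain ⟨⟨g1, g2, g3⟩, -⟩ := hmem i hi
      rw [mem_singleton] at he
      rw [he, mk_mem_ed]
      exact g3

/-! ### TB2 -/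

/-- 3-paths from `x` to `z` -/
noncomputable def W2 {n : ℕ} (x z : Fin n) (G : Gr n) : Finset (Fin n × Fin n) :=
  univ.filter fun t : Fin n × Fin n => P3 G x t.1 t.2 z

/-- conflicts -/
theorem W2_conf {n : ℕ} {x z : Fin n} {G : Gr n} {K : ℕ} (hK : T1 K G) (e : Sym2 (Fin n)) :
    ((W2 x z G).filter fun t => e ∈ ({s(x, t.1), s(t.1, t.2), s(t.2, z)} : Finset (Sym2 (Fin n)))).card
      ≤ 2 * K + 2 := by
  have h1 : ((W2 x z G).filter fun t => e = s(x, t.1)).card ≤ K := by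
    by_cases hne : ((W2 x z G).filter fun t => e = s(x, t.1)).Nonempty
    · obtain ⟨t₀, ht₀⟩ := hne
      simp only [W2, mem_filter, mem_univ, true_and] at ht₀
      obtain ⟨hP, he⟩ := ht₀
      refine le_trans ?_ (hK t₀.1 z hP.2.2.2.2.2)
      refine card_le_card_of_injOn (fun t => t.2) ?_ ?_
      · intro t ht
        simp only [W2, coe_filter, mem_filter, mem_univ, true_and, Set.mem_ofPred_eq] at ht
        obtain ⟨hP', he'⟩ := ht
        have : t.1 = t₀.1 := by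
          have := he'.symm.trans he
          rw [Sym2.eq_iff] at this
          rcases this with ⟨-, h⟩ | ⟨h, -⟩
          · exact h
          · exact absurd h hP.1.ne
        simp only [coe_inter, Set.mem_inter_iff, mem_coe, mem_nb]
        exact ⟨this ▸ hP'.2.1, hP'.2.2.1.symm⟩
      · intro t ht t' ht' hab
        simp only [W2, coe_filter, mem_filter, mem_univ, true_and, Set.mem_ofPred_eq] at ht ht'
        obtain ⟨hP', he'⟩ := ht
        obtain ⟨hP'', he''⟩ := ht'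
        refine Prod.ext ?_ hab
        have := he'.symm.trans he''
        rw [Sym2.eq_iff] at this
        rcases this with ⟨-, h⟩ | ⟨h, -⟩
        · exact h
        · exact absurd h hP''.1.ne
    · rw [not_nonempty_iff_eq_empty] at hne
      rw [hne]; simp
  have h3 : ((W2 x z G).filter fun t => e = s(t.2, z)).card ≤ K := by
    by_cases hne : ((W2 x z G).filter fun t => e = s(t.2, z)).Nonempty
    · obtain ⟨t₀, ht₀⟩ := hne
      simp only [W2, mem_filter, mem_univ, true_and] at ht₀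
      obtain ⟨hP, he⟩ := ht₀
      refine le_trans ?_ (hK x t₀.2 hP.2.2.2.1)
      refine card_le_card_of_injOn (fun t => t.1) ?_ ?_
      · intro t ht
        simp only [W2, coe_filter, mem_filter, mem_univ, true_and, Set.mem_ofPred_eq] at ht
        obtain ⟨hP', he'⟩ := ht
        have : t.2 = t₀.2 := by
          have := he'.symm.trans he
          rw [Sym2.eq_iff] at this
          rcases this with ⟨h, -⟩ | ⟨-, h⟩
          · exact h
          · exact absurd h.symm hP.2.2.1.ne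
        simp only [coe_inter, Set.mem_inter_iff, mem_coe, mem_nb]
        exact ⟨hP'.1, this ▸ hP'.2.1.symm⟩
      · intro t ht t' ht' hab
        simp only [W2, coe_filter, mem_filter, mem_univ, true_and, Set.mem_ofPred_eq] at ht ht'
        obtain ⟨hP', he'⟩ := ht
        obtain ⟨hP'', he''⟩ := ht'
        refine Prod.ext hab ?_
        have := he'.symm.trans he''
        rw [Sym2.eq_iff] at this
        rcases this with ⟨h, -⟩ | ⟨-, h⟩
        · exact h
        · exact absurd h.symm hP''.2.2.1.ne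
    · rw [not_nonempty_iff_eq_empty] at hne
      rw [hne]; simp
  have h2 : ((W2 x z G).filter fun t => e = s(t.1, t.2)).card ≤ 2 := by
    induction e using Sym2.ind with
    | _ a b =>
      refine (card_le_card (t := {(a, b), (b, a)}) ?_).trans card_le_two
      intro t ht
      simp only [mem_filter] at ht
      have := ht.2
      rw [Sym2.eq_iff] at this
      simp only [mem_insert, mem_singleton]
      rcases this with ⟨h, h'⟩ | ⟨h, h'⟩
      · exact Or.inl (Prod.ext h.symm h'.symm)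
      · exact Or.inr (Prod.ext h'.symm h.symm)
  have hsub : ((W2 x z G).filter fun t => e ∈ ({s(x, t.1), s(t.1, t.2), s(t.2, z)} : Finset (Sym2 (Fin n))))
      ⊆ ((W2 x z G).filter fun t => e = s(x, t.1)) ∪ (((W2 x z G).filter fun t => e = s(t.1, t.2)) ∪
        ((W2 x z G).filter fun t => e = s(t.2, z))) := by
    intro t ht
    simp only [mem_filter, mem_union, mem_insert, mem_singleton] at ht ⊢
    tauto
  have h4 := card_le_card hsub
  have h5 := card_union_le ((W2 x z G).filter fun t => e = s(x, t.1))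
    (((W2 x z G).filter fun t => e = s(t.1, t.2)) ∪ ((W2 x z G).filter fun t => e = s(t.2, z)))
  have h6 := card_union_le ((W2 x z G).filter fun t => e = s(t.1, t.2))
    ((W2 x z G).filter fun t => e = s(t.2, z))
  omega

theorem card3' {n : ℕ} {x a b z : Fin n} (h1 : x ≠ a) (h2 : x ≠ b) (h3 : x ≠ z) (h4 : a ≠ b) (h5 : a ≠ z)
    (h6 : b ≠ z) : ({s(x, a), s(a, b), s(b, z)} : Finset (Sym2 (Fin n))).card = 3 := by
  refine Finset.card_eq_three.2 ⟨_, _, _, ?_, ?_, ?_, rfl⟩ <;> intro h <;> rw [Sym2.eq_iff] at h <;>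
    rcases h with ⟨h, h'⟩ | ⟨h, h'⟩
  · exact h1 h
  · exact h2 h
  · exact h2 h
  · exact h3 h
  · exact h4 h
  · exact h5 h

/-- the bad event for TB2 -/
def Bad2 {n : ℕ} (K : ℕ) (x z : Fin n) (G : Gr n) : Prop :=
  T1 K G ∧ x ≠ z ∧ 12 * ((K : ℝ) + 1) * Real.log n < ((W2 x z G).card : ℝ)

theorem tb2_bound (hDO : Stmt_DO) {CA : ℝ} (K : ℕ) {n d : ℕ} (hRB : RB CA n d) (hn : 100 ≤ n)
    (hd : 64 * d ≤ n) (hm : 96 * (Real.log n + 1) ≤ (n : ℝ) * d) (x z : Fin n) :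
    (((Reg n d).filter fun G => Bad2 K x z G).card : ℝ) ≤
        Real.exp (Real.exp 4 * (8 * CA)) / (n : ℝ) ^ 4 * (Reg n d).card := by
  have hn100 : (100 : ℝ) ≤ n := by exact_mod_cast hn
  have hn0 : (0 : ℝ) < n := by linarith
  have hCA0 : 0 ≤ CA := by
    have h1 := hRB.2
    have h2 : 0 ≤ (d : ℝ) ^ 3 := by positivity
    by_contra hcon
    push Not at hcon
    nlinarith
  have hlog1 : 1 ≤ Real.log n := by
    rw [← Real.log_exp 1]
    refine Real.log_le_log (Real.exp_pos 1) ?_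
    have := Real.exp_one_lt_d9
    linarith
  have key := core hDO (n := n) (d := d) (by omega) hd ∅ (ι := Fin n × Fin n)
    (fun _ => univ.filter fun t => x ≠ t.1 ∧ x ≠ t.2 ∧ x ≠ z ∧ t.1 ≠ t.2 ∧ t.1 ≠ z ∧ t.2 ≠ z)
    (fun t => {s(x, t.1), s(t.1, t.2), s(t.2, z)}) ⌈Real.log n⌉₊ 3 (8 * CA)
    (fun G => Bad2 K x z G) ?_ ?_ ?_ ?_ ?_
  · have h1 := core_exp (B := Real.exp 4) (by positivity) (Real.exp_pos 4) (by positivity) key
    refine h1.trans (mul_le_mul_of_nonneg_right ?_ (by positivity))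
    refine div_le_div_of_nonneg_left (Real.exp_pos _).le (by positivity) ?_
    rw [← Real.exp_nat_mul]
    calc (n : ℝ) ^ 4 = Real.exp (Real.log n) ^ 4 := by rw [Real.exp_log hn0]
      _ = Real.exp ((4 : ℕ) * Real.log n) := by rw [Real.exp_nat_mul]
      _ ≤ Real.exp ((⌈Real.log n⌉₊ : ℝ) * 4) := by
          refine Real.exp_le_exp.2 ?_
          have := Nat.le_ceil (Real.log n)
          push_cast
          linarith
  · intro G hG
    simp
  · intro G hG t ht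
    simp only [mem_filter, mem_univ, true_and] at ht
    obtain ⟨h1, h2, h3, h4, h5, h6⟩ := ht
    refine ⟨card_le_three, ?_⟩
    intro e he
    simp only [mem_insert, mem_singleton] at he
    refine ⟨by simp, ?_, fun x _ => by simp⟩
    rcases he with rfl | rfl | rfl
    · simpa using h1
    · simpa using h4
    · simpa using h6
  · have h3 : ((⌈Real.log n⌉₊ : ℕ) : ℝ) < Real.log n + 1 := Nat.ceil_lt_add_one (by linarith)
    have : ((32 * (⌈Real.log n⌉₊ * 3) : ℕ) : ℝ) ≤ ((n * d : ℕ) : ℝ) := by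
      push_cast
      linarith
    exact_mod_cast this
  · intro G hG
    set fam := (univ.filter fun t : Fin n × Fin n => x ≠ t.1 ∧ x ≠ t.2 ∧ x ≠ z ∧ t.1 ≠ t.2 ∧ t.1 ≠ z ∧
      t.2 ≠ z) with hfam
    have hc : fam.card ≤ n * n := by
      refine (card_le_card (filter_subset _ _)).trans ?_
      rw [card_univ, Fintype.card_prod, Fintype.card_fin]
    have hs : ∑ t ∈ fam, (2 * (d : ℝ) / n) ^
        ({s(x, t.1), s(t.1, t.2), s(t.2, z)} : Finset (Sym2 (Fin n))).card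
        = fam.card * (2 * (d : ℝ) / n) ^ 3 := by
      rw [← nsmul_eq_mul, ← sum_const]
      refine sum_congr rfl fun t ht => ?_
      simp only [hfam, mem_filter, mem_univ, true_and] at ht
      obtain ⟨h1, h2, h3, h4, h5, h6⟩ := ht
      rw [card3' h1 h2 h3 h4 h5 h6]
    rw [hs]
    have hq := d3_sq hn0 hRB.2
    calc (fam.card : ℝ) * (2 * (d : ℝ) / n) ^ 3 ≤ ((n * n : ℕ) : ℝ) * (2 * (d : ℝ) / n) ^ 3 :=
          mul_le_mul_of_nonneg_right (Nat.cast_le.2 hc) (by positivity)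
      _ = 8 * ((d : ℝ) ^ 3 / n) := by
          push_cast; field_simp; ring
      _ ≤ 8 * CA := mul_le_mul_of_nonneg_left hq (by norm_num)
  · rintro G hG ⟨hT, hxz, hb⟩
    have hW : ⌈Real.log n⌉₊ * (3 * (2 * K + 2)) ≤ (W2 x z G).card := by
      have h3 : ((⌈Real.log n⌉₊ : ℕ) : ℝ) < Real.log n + 1 := Nat.ceil_lt_add_one (by linarith)
      have h4 : ((⌈Real.log n⌉₊ * (3 * (2 * K + 2)) : ℕ) : ℝ) ≤ (((W2 x z G).card : ℕ) : ℝ) := by
        push_cast
        refine le_trans ?_ hb.le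
        have hK0 : (0 : ℝ) ≤ K := Nat.cast_nonneg K
        calc (⌈Real.log n⌉₊ : ℝ) * (3 * (2 * K + 2)) ≤ (2 * Real.log n) * (3 * (2 * K + 2)) :=
              mul_le_mul_of_nonneg_right (by linarith) (by positivity)
          _ = 12 * ((K : ℝ) + 1) * Real.log n := by ring
      exact_mod_cast h4
    obtain ⟨J, hJ, hc, hdis⟩ := greedy (W2 x z G)
      (fun t => ({s(x, t.1), s(t.1, t.2), s(t.2, z)} : Finset (Sym2 (Fin n)))) 3 (2 * K + 2) ⌈Real.log n⌉₊
      (fun i _ => ⟨s(x, i.1), by simp⟩) (fun i _ => card_le_three) (fun i _ e _ => W2_conf (x := x) (z := z) hT e) (by omega) hW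
    refine ⟨J, ?_, hc, hdis, ?_⟩
    · intro t ht
      have := hJ ht
      simp only [W2, mem_filter, mem_univ, true_and] at this ⊢
      obtain ⟨g1, g2, g3, g4, g5, g6⟩ := this
      exact ⟨g1.ne, g4, g5, g2.ne, g6, g3.ne⟩
    · intro t ht e he
      have := hJ ht
      simp only [W2, mem_filter, mem_univ, true_and] at this
      obtain ⟨g1, g2, g3, g4, g5, g6⟩ := this
      simp only [mem_insert, mem_singleton] at he
      rcases he with rfl | rfl | rfl
      · rw [mk_mem_ed]; exact g1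
      · rw [mk_mem_ed]; exact g2
      · rw [mk_mem_ed]; exact g3

/-- TB2 given T1 -/
def P2 {n : ℕ} (K : ℕ) (G : Gr n) : Prop := T1 K G → TB2 (12 * ((K : ℝ) + 1)) G

theorem tb2 (hDO : Stmt_DO) {CA : ℝ} (hCA : 0 < CA) (K : ℕ) :
    Whp (RB CA) (fun _ _ G => P2 K G) := by
  have hf : Tendsto (fun n : ℕ => Real.exp (Real.exp 4 * (8 * CA)) * (1 / ((n : ℝ) + 1))) atTop (𝓝 0) := by
    have := (tendsto_one_div_add_atTop_nhds_zero_nat (𝕜 := ℝ)).const_mul (Real.exp (Real.exp 4 * (8 * CA)))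
    simpa using this
  refine Whp.of_bound _ hf ?_
  obtain ⟨n₀, h0⟩ := regB CA hCA
  refine ⟨n₀, fun n hn d hd => ?_⟩
  obtain ⟨hn100, hd1, hd64, -, -, -, -, hm⟩ := h0 n hn d hd
  have h1 := union_bound (n := n) (d := d) (τ := Fin n × Fin n)
    (fun t G => Bad2 K t.1 t.2 G)
    (Real.exp (Real.exp 4 * (8 * CA)) / (n : ℝ) ^ 4)
    (fun t => tb2_bound hDO K hd hn100 hd64 hm t.1 t.2)
  have h2 : (((Reg n d).filter fun G => ¬ P2 K G).card : ℝ) ≤
      (((Reg n d).filter fun G => ∃ t : Fin n × Fin n, Bad2 K t.1 t.2 G).card : ℝ) := by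
    refine Nat.cast_le.2 (card_le_card ?_)
    intro G hG
    rw [mem_filter] at hG ⊢
    refine ⟨hG.1, ?_⟩
    have h3 := hG.2
    unfold P2 at h3
    push Not at h3
    obtain ⟨hT, h4⟩ := h3
    unfold TB2 at h4
    push Not at h4
    obtain ⟨x, z, hxz, h5⟩ := h4
    exact ⟨(x, z), hT, hxz, h5⟩
  refine h2.trans (h1.trans (mul_le_mul_of_nonneg_right ?_ (by positivity)))
  have hn0 : (0 : ℝ) < n := by
    have : (100 : ℝ) ≤ n := by exact_mod_cast hn100
    linarith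
  rw [Fintype.card_prod, Fintype.card_fin]
  push_cast
  have h6 : (n : ℝ) * n / (n : ℝ) ^ 4 ≤ 1 / ((n : ℝ) + 1) := by
    rw [div_le_div_iff₀ (by positivity) (by positivity)]
    have : (n : ℝ) + 1 ≤ (n : ℝ) ^ 2 := by
      have : (100 : ℝ) ≤ n := by exact_mod_cast hn100
      nlinarith
    calc (n : ℝ) * n * (n + 1) ≤ (n : ℝ) * n * (n : ℝ) ^ 2 := mul_le_mul_of_nonneg_left this (by positivity)
      _ = 1 * (n : ℝ) ^ 4 := by ring
  calc (n : ℝ) * n * (Real.exp (Real.exp 4 * (8 * CA)) / (n : ℝ) ^ 4)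
      = Real.exp (Real.exp 4 * (8 * CA)) * ((n : ℝ) * n / (n : ℝ) ^ 4) := by ring
    _ ≤ _ := mul_le_mul_of_nonneg_left h6 (by positivity)

end Pool.Agent.RRG.TYPB

namespace Pool.Agent.RRG

open TYPB

/-- module TYPB -/
theorem TypB_proof (hDO : Stmt_DO) (hC : Stmt_Codeg) : Stmt_TypB := by
  intro CA hCA
  obtain ⟨K, hK⟩ := hC (1 / 10) (by norm_num)
  refine ⟨K, 12 * ((K : ℝ) + 1), 1 / 10, by positivity, by norm_num, ?_⟩
  have hT1 : Whp (RB CA) (fun _ _ G => T1 K G) := by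
    obtain ⟨n₀, h0⟩ := regB CA hCA
    refine hK.mono ⟨n₀, fun n hn d hd => ?_⟩ ⟨0, fun _ _ _ _ _ _ h => h⟩
    exact (h0 n hn d hd).2.2.2.1
  have hall := ((((hT1.and (tb2 hDO hCA K)).and (tb3 hDO hCA)).and (tb4 hDO hCA)).and (tb6 hDO hCA))
  refine hall.mono ⟨0, fun n _ d hd => hd⟩ ⟨0, fun n _ d _ G _ h => ?_⟩
  obtain ⟨⟨⟨⟨h1, h2⟩, h3⟩, h4⟩, h6⟩ := h
  exact ⟨h1, h2 h1, h3, h4, h6⟩

end Pool.Agent.RRG
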