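import Pool.Agent.RRG.Switch

/-!
# UP: the upper switching bound (MP_d15a9b_pr)
-/

open Finset Filter Topology
open scoped Classical

namespace Pool.Agent.RRG

variable {n : ℕ}

/-- ordered edges -/
noncomputable def darts (G : Gr n) : Finset (Fin n × Fin n) := univ.filter fun p => G.Adj p.1 p.2

theorem mem_darts {G : Gr n} {p : Fin n × Fin n} : p ∈ darts G ↔ G.Adj p.1 p.2 := by
  unfold darts; simp

theorem card_darts' {G : Gr n} {d : ℕ} (hG : G ∈ Reg n d) : (darts G).card = n * d :=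
  card_darts hG

/-- ordered edges with first vertex in `S` -/
theorem card_darts_fst {G : Gr n} {d : ℕ} (hG : G ∈ Reg n d) (S : Finset (Fin n)) :
    ((darts G).filter fun p => p.1 ∈ S).card = S.card * d := by
  rw [mem_Reg] at hG
  have h1 : (darts G).filter (fun p => p.1 ∈ S) = S.biUnion (fun v => (nb G v).image fun w => (v, w)) := by
    ext ⟨a, b⟩
    simp only [mem_filter, mem_darts, mem_biUnion, mem_image, mem_nb, Prod.mk.injEq]
    constructor
    · rintro ⟨h1, h2⟩; exact ⟨a, h2, b, h1, rfl, rfl⟩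
    · rintro ⟨a', h2, b', h1, rfl, rfl⟩; exact ⟨h1, h2⟩
  rw [h1, card_biUnion]
  · have : ∀ v ∈ S, ((nb G v).image fun w => (v, w)).card = d := by
      intro v _
      rw [card_image_of_injective _ (fun a b h => (Prod.mk.inj h).2), hG v]
    rw [sum_congr rfl this, sum_const, smul_eq_mul]
  · intro v _ v' _ hv
    rw [Function.onFun, disjoint_left]
    intro p hp hp'
    simp only [mem_image] at hp hp'
    obtain ⟨w, _, rfl⟩ := hp
    obtain ⟨w', _, h2⟩ := hp'
    exact hv (Prod.mk.inj h2).1.symm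

theorem card_darts_snd {G : Gr n} {d : ℕ} (hG : G ∈ Reg n d) (S : Finset (Fin n)) :
    ((darts G).filter fun p => p.2 ∈ S).card = S.card * d := by
  rw [← card_darts_fst hG S]
  apply card_bij (fun p _ => (p.2, p.1))
  · intro p hp
    simp only [mem_filter, mem_darts] at hp ⊢
    exact ⟨hp.1.symm, hp.2⟩
  · intro p _ q _ h
    exact Prod.ext (Prod.mk.inj h).2 (Prod.mk.inj h).1
  · intro p hp
    simp only [mem_filter, mem_darts] at hp
    exact ⟨(p.2, p.1), by simp only [mem_filter, mem_darts]; exact ⟨hp.1.symm, hp.2⟩, rfl⟩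

/-- ordered edges belonging to a set of pairs -/
theorem card_darts_pair (G : Gr n) (T : Finset (Sym2 (Fin n))) :
    ((darts G).filter fun p => s(p.1, p.2) ∈ T).card ≤ 2 * (ed G ∩ T).card := by
  have h := card_le_mul_card_image (f := fun p : Fin n × Fin n => s(p.1, p.2))
    ((darts G).filter fun p => s(p.1, p.2) ∈ T) 2 ?_
  · refine h.trans (Nat.mul_le_mul_left _ (card_le_card ?_))
    intro e he
    simp only [mem_image, mem_filter, mem_darts] at he
    obtain ⟨p, ⟨h1, h2⟩, rfl⟩ := he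
    exact mem_inter.2 ⟨mk_mem_ed.2 h1, h2⟩
  · intro e _
    induction e using Sym2.ind with
    | _ a b =>
      refine (card_le_card (t := {(a, b), (b, a)}) ?_).trans card_le_two
      intro p hp
      simp only [mem_filter, Sym2.eq_iff] at hp
      simp only [mem_insert, mem_singleton]
      rcases hp.2 with h | h
      · left; exact Prod.ext h.1 h.2
      · right; exact Prod.ext h.1 h.2

theorem card_pairs_at (T : Finset (Sym2 (Fin n))) (x : Fin n) :
    ((univ : Finset (Fin n)).filter fun t => s(x, t) ∈ T).card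
      ≤ (T.filter fun f => x ∈ f).card := by
  apply card_le_card_of_injOn (fun t => s(x, t))
  · intro t ht
    have ht' := (mem_filter.1 (mem_coe.1 ht)).2
    exact mem_coe.2 (mem_filter.2 ⟨ht', Sym2.mem_mk_left _ _⟩)
  · intro a _ b _ h
    have h' : s(x, a) = s(x, b) := h
    rcases Sym2.eq_iff.1 h' with ⟨_, h1⟩ | ⟨h1, h2⟩
    · exact h1
    · exact h2.trans h1

theorem filter_and_card {α : Type*} (D : Finset α) (Q P : α → Prop) [DecidablePred Q]
    [DecidablePred P] :
    (D.filter fun p => P p).card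
      ≤ (D.filter fun p => ¬ Q p ∧ P p).card + (D.filter fun p => Q p).card := by
  refine (card_le_card ?_).trans (card_union_le _ _)
  intro p hp
  simp only [mem_filter, mem_union] at hp ⊢
  by_cases h : Q p
  · exact Or.inr ⟨hp.1, h⟩
  · exact Or.inl ⟨hp.1, h, hp.2⟩

theorem filter_not_card {α : Type*} (D : Finset α) (Q : α → Prop) [DecidablePred Q] :
    D.card ≤ (D.filter fun p => ¬ Q p).card + (D.filter fun p => Q p).card := by
  refine (card_le_card ?_).trans (card_union_le _ _)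
  intro p hp
  simp only [mem_filter, mem_union]
  by_cases h : Q p
  · exact Or.inr ⟨hp, h⟩
  · exact Or.inl ⟨hp, h⟩

/-- the admissible pairs `(z,t)` in the proof of UP. -/
noncomputable def gd (G : Gr n) (Ω E : Finset (Sym2 (Fin n))) (x y : Fin n) :
    Finset (Fin n × Fin n) :=
  (darts G).filter fun p => s(p.1, p.2) ∉ Ω ∧ s(p.1, p.2) ∉ E ∧ p.1 ∉ ({x, y} : Finset (Fin n)) ∧
    p.2 ∉ ({x, y} : Finset (Fin n)) ∧ p.2 ∉ nb G x ∧ p.1 ∉ nb G y ∧
    p.2 ∉ ((univ : Finset (Fin n)).filter fun t => s(x, t) ∈ Ω) ∧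
    p.1 ∉ ((univ : Finset (Fin n)).filter fun t => s(y, t) ∈ Ω)

theorem card_gd {d : ℕ} {G : Gr n} (hG : G ∈ Reg n d) (Ω g E : Finset (Sym2 (Fin n)))
    (hg : ed G ∩ Ω = g) (x y : Fin n) :
    n * d ≤ (gd G Ω E x y).card + (2 * g.card + 2 * E.card + 2 * d + 2 * d + d * d + d * d
      + (Ω.filter fun f => x ∈ f).card * d + (Ω.filter fun f => y ∈ f).card * d) := by
  have hG' := mem_Reg.1 hG
  rw [← card_darts' hG]
  have c1 : ((darts G).filter fun p => s(p.1, p.2) ∈ Ω).card ≤ 2 * g.card := by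
    rw [← hg]; exact card_darts_pair G Ω
  have c2 : ((darts G).filter fun p => s(p.1, p.2) ∈ E).card ≤ 2 * E.card :=
    (card_darts_pair G E).trans (Nat.mul_le_mul_left _ (card_le_card inter_subset_right))
  have c3 : ((darts G).filter fun p => p.1 ∈ ({x, y} : Finset (Fin n))).card ≤ 2 * d := by
    rw [card_darts_fst hG]; exact Nat.mul_le_mul_right _ card_le_two
  have c4 : ((darts G).filter fun p => p.2 ∈ ({x, y} : Finset (Fin n))).card ≤ 2 * d := by
    rw [card_darts_snd hG]; exact Nat.mul_le_mul_right _ card_le_two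
  have c5 : ((darts G).filter fun p => p.2 ∈ nb G x).card ≤ d * d := by
    rw [card_darts_snd hG, hG' x]
  have c6 : ((darts G).filter fun p => p.1 ∈ nb G y).card ≤ d * d := by
    rw [card_darts_fst hG, hG' y]
  have c7 : ((darts G).filter fun p =>
      p.2 ∈ ((univ : Finset (Fin n)).filter fun t => s(x, t) ∈ Ω)).card
      ≤ (Ω.filter fun f => x ∈ f).card * d := by
    rw [card_darts_snd hG]; exact Nat.mul_le_mul_right _ (card_pairs_at Ω x)
  have c8 : ((darts G).filter fun p =>
      p.1 ∈ ((univ : Finset (Fin n)).filter fun t => s(y, t) ∈ Ω)).card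
      ≤ (Ω.filter fun f => y ∈ f).card * d := by
    rw [card_darts_fst hG]; exact Nat.mul_le_mul_right _ (card_pairs_at Ω y)
  have u8 := filter_not_card (darts G)
    (fun p => p.1 ∈ ((univ : Finset (Fin n)).filter fun t => s(y, t) ∈ Ω))
  have u7 := filter_and_card (darts G) (fun p => p.2 ∈ ((univ : Finset (Fin n)).filter fun t => s(x, t) ∈ Ω))
    (fun p => p.1 ∉ ((univ : Finset (Fin n)).filter fun t => s(y, t) ∈ Ω))
  have u6 := filter_and_card (darts G) (fun p => p.1 ∈ nb G y)
    (fun p => p.2 ∉ ((univ : Finset (Fin n)).filter fun t => s(x, t) ∈ Ω) ∧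
      p.1 ∉ ((univ : Finset (Fin n)).filter fun t => s(y, t) ∈ Ω))
  have u5 := filter_and_card (darts G) (fun p => p.2 ∈ nb G x)
    (fun p => p.1 ∉ nb G y ∧ p.2 ∉ ((univ : Finset (Fin n)).filter fun t => s(x, t) ∈ Ω) ∧
      p.1 ∉ ((univ : Finset (Fin n)).filter fun t => s(y, t) ∈ Ω))
  have u4 := filter_and_card (darts G) (fun p => p.2 ∈ ({x, y} : Finset (Fin n)))
    (fun p => p.2 ∉ nb G x ∧ p.1 ∉ nb G y ∧
      p.2 ∉ ((univ : Finset (Fin n)).filter fun t => s(x, t) ∈ Ω) ∧
      p.1 ∉ ((univ : Finset (Fin n)).filter fun t => s(y, t) ∈ Ω))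
  have u3 := filter_and_card (darts G) (fun p => p.1 ∈ ({x, y} : Finset (Fin n)))
    (fun p => p.2 ∉ ({x, y} : Finset (Fin n)) ∧ p.2 ∉ nb G x ∧ p.1 ∉ nb G y ∧
      p.2 ∉ ((univ : Finset (Fin n)).filter fun t => s(x, t) ∈ Ω) ∧
      p.1 ∉ ((univ : Finset (Fin n)).filter fun t => s(y, t) ∈ Ω))
  have u2 := filter_and_card (darts G) (fun p => s(p.1, p.2) ∈ E)
    (fun p => p.1 ∉ ({x, y} : Finset (Fin n)) ∧ p.2 ∉ ({x, y} : Finset (Fin n)) ∧
      p.2 ∉ nb G x ∧ p.1 ∉ nb G y ∧
      p.2 ∉ ((univ : Finset (Fin n)).filter fun t => s(x, t) ∈ Ω) ∧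
      p.1 ∉ ((univ : Finset (Fin n)).filter fun t => s(y, t) ∈ Ω))
  have u1 := filter_and_card (darts G) (fun p => s(p.1, p.2) ∈ Ω)
    (fun p => s(p.1, p.2) ∉ E ∧ p.1 ∉ ({x, y} : Finset (Fin n)) ∧
      p.2 ∉ ({x, y} : Finset (Fin n)) ∧ p.2 ∉ nb G x ∧ p.1 ∉ nb G y ∧
      p.2 ∉ ((univ : Finset (Fin n)).filter fun t => s(x, t) ∈ Ω) ∧
      p.1 ∉ ((univ : Finset (Fin n)).filter fun t => s(y, t) ∈ Ω))
  unfold gd
  omega

/-- one step of UP -/
theorem up_step (d : ℕ) (hn : 64 ≤ n) (hd : 64 * d ≤ n) (Ω g E : Finset (Sym2 (Fin n)))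
    (x y : Fin n) (hxy : x ≠ y) (hE : s(x, y) ∉ E) (hΩ : s(x, y) ∉ Ω)
    (hx : 16 * (Ω.filter fun f => x ∈ f).card ≤ n) (hy : 16 * (Ω.filter fun f => y ∈ f).card ≤ n)
    (hg : 32 * g.card ≤ n * d) (hE2 : 32 * (E.card + 1) ≤ n * d) :
    (((Reg n d).filter fun G => ed G ∩ Ω = g ∧ insert s(x, y) E ⊆ ed G).card : ℝ)
      ≤ (2 * (d : ℝ) / n) * ((Reg n d).filter fun G => ed G ∩ Ω = g ∧ E ⊆ ed G).card := by
  have hd0 : 0 < d := by
    rcases Nat.eq_zero_or_pos d with h | h
    · subst h; omega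
    · exact h
  set A := (Reg n d).filter fun G => ed G ∩ Ω = g ∧ insert s(x, y) E ⊆ ed G with hA
  set B := (Reg n d).filter fun G => ed G ∩ Ω = g ∧ E ⊆ ed G with hB
  have key := switch_count (A := A) (B := B)
    (fun G => (gd G Ω (insert s(x, y) E) x y).image fun p => (x, y, p.1, p.2))
    (fun G => ((nb G y) ×ˢ (nb G x)).image fun p => (x, y, p.1, p.2))
    ((n : ℝ) * d / 2) ((d : ℝ) * d) ?_ ?_ ?_
  · have hn0 : (0 : ℝ) < n := by
      have : 0 < n := by omega
      exact_mod_cast this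
    have hd1 : (0 : ℝ) < d := by exact_mod_cast hd0
    rw [div_mul_eq_mul_div, le_div_iff₀ hn0]
    have h1 : (A.card : ℝ) * n * (d / 2) ≤ 2 * d * B.card * (d / 2) := by nlinarith [key]
    exact le_of_mul_le_mul_right h1 (by positivity)
  · intro G hG
    rw [hA, mem_filter] at hG
    rw [card_image_of_injective _ (fun p q h => by
      have h1 := (Prod.mk.inj (Prod.mk.inj (Prod.mk.inj h).2).2)
      exact Prod.ext h1.1 h1.2)]
    have hcard := card_gd hG.1 Ω g (insert s(x, y) E) hG.2.1 x y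
    rw [card_insert_of_notMem hE] at hcard
    set a := (gd G Ω (insert s(x, y) E) x y).card
    set p := (Ω.filter fun f => x ∈ f).card
    set q := (Ω.filter fun f => y ∈ f).card
    have e1 : 16 * (p * d) ≤ n * d := by nlinarith
    have e2 : 16 * (q * d) ≤ n * d := by nlinarith
    have e3 : 64 * (d * d) ≤ n * d := by nlinarith
    have e4 : 64 * d ≤ n * d := by nlinarith
    have e5 : n * d ≤ 2 * a := by omega
    have e6 : (n : ℝ) * d ≤ 2 * a := by exact_mod_cast e5
    linarith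
  · intro G hG q hq
    rw [hA, mem_filter] at hG
    simp only [mem_image] at hq
    obtain ⟨⟨z, t⟩, hp, rfl⟩ := hq
    unfold gd at hp
    simp only [mem_filter, mem_darts, mem_insert, mem_singleton, not_or, mem_nb, mem_univ,
      true_and] at hp
    obtain ⟨h1, h2, ⟨h3, h3'⟩, ⟨h4, h4'⟩, ⟨h5, h5'⟩, h6, h7, h8, h9⟩ := hp
    have hGxy : G.Adj x y := mk_mem_ed.1 (hG.2.2 (mem_insert_self _ _))
    have hok : OKsw G x y z t := ⟨hGxy, h1, fun h => h4 h.symm, fun h => h5 h.symm,
      fun h => h4' h.symm, fun h => h5' h.symm, h6, h7⟩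
    refine ⟨hok, ?_, ?_⟩
    · simp only
      rw [hB, mem_filter]
      refine ⟨sw_mem_Reg hok hG.1, ?_, ?_⟩
      · rw [ed_sw hok, ← hG.2.1]
        ext e
        simp only [mem_inter, mem_union, mem_erase, mem_insert, mem_singleton]
        constructor
        · rintro ⟨⟨_, _, h10⟩ | h10 | h10, h11⟩
          · exact ⟨h10, h11⟩
          · rw [h10] at h11; exact absurd h11 h8
          · rw [h10] at h11; exact absurd h11 h9
        · rintro ⟨h10, h11⟩
          refine ⟨Or.inl ⟨?_, ?_, h10⟩, h11⟩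
          · rintro rfl; exact h2 h11
          · rintro rfl; exact hΩ h11
      · rw [ed_sw hok]
        intro e he
        simp only [mem_union, mem_erase]
        left
        refine ⟨?_, ?_, hG.2.2 (mem_insert_of_mem he)⟩
        · rintro rfl; exact h3' he
        · rintro rfl; exact hE he
    · simp only
      rw [mem_image]
      refine ⟨(z, t), ?_, rfl⟩
      rw [mem_product, mem_nb, mem_nb]
      have h10 := hok.rev
      exact ⟨h10.2.1.symm, h10.1⟩
  · intro G hG
    rw [hB, mem_filter] at hG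
    have h1 := mem_Reg.1 hG.1
    have h2 := card_image_le (s := (nb G y) ×ˢ (nb G x)) (f := fun p : Fin n × Fin n => (x, y, p.1, p.2))
    rw [card_product, h1 y, h1 x] at h2
    exact_mod_cast h2

theorem up_proof : Stmt_Up := by
  intro n d hn hd Ω g E hE1 hE2 hg hE3
  induction E using Finset.induction_on with
  | empty => simp
  | insert e E he ih =>
    have ih' := ih (fun e' he' => hE1 e' (mem_insert_of_mem he'))
      (fun e' he' => hE2 e' (mem_insert_of_mem he')) (by
        rw [card_insert_of_notMem he] at hE3; omega)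
    have h1 := hE1 e (mem_insert_self _ _)
    have h2 := hE2 e (mem_insert_self _ _)
    rw [card_insert_of_notMem he] at hE3 ⊢
    induction e using Sym2.ind with
    | _ x y =>
      have hxy : x ≠ y := by
        intro h; exact h1.2 (by rw [h]; exact Sym2.mk_isDiag_iff.2 rfl)
      have hs := up_step d hn hd Ω g E x y hxy he h1.1 (h2 x (Sym2.mem_mk_left _ _))
        (h2 y (Sym2.mem_mk_right _ _)) hg hE3
      refine hs.trans ?_
      rw [pow_succ, mul_comm ((2 * (d : ℝ) / n) ^ E.card), mul_assoc]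
      exact mul_le_mul_of_nonneg_left ih' (by positivity)

end Pool.Agent.RRG
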