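import Pool.Agent.RRG.Main
import Pool.Agent.RRG.ADet
import Pool.Agent.RRG.A1
import Pool.Agent.RRG.A2
import Pool.Agent.RRG.BDet
import Pool.Agent.RRG.BFin
import Pool.Agent.RRG.CFin
import Pool.Agent.RRG.Codeg
import Pool.Agent.RRG.D1
import Pool.Agent.RRG.D2
import Pool.Agent.RRG.DO
import Pool.Agent.RRG.FiveLow
import Pool.Agent.RRG.Key
import Pool.Agent.RRG.Low
import Pool.Agent.RRG.OCC
import Pool.Agent.RRG.PH1
import Pool.Agent.RRG.Ph1a
import Pool.Agent.RRG.PH1B
import Pool.Agent.RRG.PS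
import Pool.Agent.RRG.Rand
import Pool.Agent.RRG.S
import Pool.Agent.RRG.Star2Low
import Pool.Agent.RRG.StepA
import Pool.Agent.RRG.StepD
import Pool.Agent.RRG.StepF
import Pool.Agent.RRG.StepG
import Pool.Agent.RRG.T2
import Pool.Agent.RRG.T3
import Pool.Agent.RRG.T4
import Pool.Agent.RRG.T6
import Pool.Agent.RRG.T7
import Pool.Agent.RRG.T8
import Pool.Agent.RRG.T9
import Pool.Agent.RRG.TypB
import Pool.Agent.RRG.Up

/-!
# Final assembly (MP_d15a9b_pr)

Modules by helper4 (A1, A2), helper14 (S, T9), helper18 (FIVELOW, STAR2LOW), helper21 (D1, D2), helper24 (T2, T3, T6),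
helper27 (STEPD, STEPF), helper29 (OCC), helper32 (T4, DOUse), helper41 (UP, LOW), helper5 (T7), helper51 (KEY),
helper65 (PH1B), helper66 (proof, statements, ADET, BFIN, CFIN, PH1, PS, STEPA, Main), helper67 (TYPB),
helper69 (STEPG), helper76 (DO, CODEG, BDET), helper81 (RAND, PH1A), helper86 (T9), helper99 (T8).
-/

open Finset Filter Topology
open scoped Classical

namespace Pool.Agent.RRG

open Pool.Agent.Shotgun

namespace Final

theorem DO' : Stmt_DO := DO_proof up_proof

theorem Codeg' : Stmt_Codeg := codeg_proof DO'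

theorem FiveLow' : Stmt_FiveLow := fivelow_proof low_proof Codeg'

theorem T2' : Stmt_T2 := T2_proof DO' Codeg'

theorem T3' : Stmt_T3 := T3_proof DO' Codeg' T2' FiveLow'

theorem T4' : Stmt_T4 := T4_proof DO' PS_proof Codeg' T2'

theorem T6' : Stmt_T6 := T6_proof DO' Codeg' T2'

theorem T7' : Stmt_T7 := T7_proof DO'

theorem T8' : Stmt_T8 := T8_proof DO' PS_proof Codeg' T2'

theorem T9' : Stmt_T9 := T9_proof DO' (S_proof rand_proof) rand_proof T2' T3'

theorem StepD' : Stmt_StepD := stepD_proof StepA_proof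

theorem StepF' : Stmt_StepF := stepF_proof StepA_proof StepD'

theorem A1' : Stmt_A1 := A1_proof DO' Codeg' FiveLow'

theorem A2' : Stmt_A2 :=
  A2_proof DO' (codegLog_proof DO') (star2low_proof low_proof (codegLog_proof DO'))

theorem PH1' : Stmt_PH1 := PH1_proof Codeg' T2' T3' T4' ph1a_proof (PH1B_proof up_proof)

theorem B' : Stmt_B := BFin_proof (TypB_proof DO' Codeg') (KEY_proof OCC_proof) FiveLow'

theorem C' : Stmt_C :=
  cfin_proof Codeg' T2' T3' T4' T6' T7' T8' T9' PH1' StepF' StepG_proof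

/-- the main theorem -/
theorem main (ε : ℝ) (hε : 0 < ε) (d : ℕ → ℕ)
    (hd : ∀ᶠ n in atTop, Even (n * d n) → (n : ℝ) ^ (1 / 4 + ε) ≤ d n ∧ (d n : ℝ) ≤ n / 2) :
    Tendsto (fun n => probReconstructable 2 n (d n)) (atTop ⊓ 𝓟 {n | Even (n * d n)}) (𝓝 1) :=
  Main.main_of D1_proof (D2_proof DO') adet_proof A1' A2' bdet_proof B' C' ε hε d hd

end Final

end Pool.Agent.RRG
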