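import Pool.Agent.RRG.Basic

/-!
# Counting 5-cycles (shared by STEPD and STEPF)
-/

open Finset Filter Topology
open scoped Classical

namespace Pool.Agent.RRG

namespace FiveCount

variable {n : ℕ}

theorem C5_rot {G : Gr n} {v w p q c : Fin n} (h : C5 G v w p q c) : C5 G w p q c v := by
  obtain ⟨a1, a2, a3, a4, a5, b1, b2, b3, b4, b5⟩ := h
  exact ⟨a2, a3, a4, a5, a1, b3, b4, b5, b1.symm, b2.symm⟩

theorem C5_refl {G : Gr n} {v w p q c : Fin n} (h : C5 G v w p q c) : C5 G v c q p w := by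
  obtain ⟨a1, a2, a3, a4, a5, b1, b2, b3, b4, b5⟩ := h
  exact ⟨a5.symm, a4.symm, a3.symm, a2.symm, a1.symm, b2, b1, b5.symm, b4.symm, b3.symm⟩

/-- number of 5-tuples with a property -/
noncomputable def N5 (P : Fin n → Fin n → Fin n → Fin n → Fin n → Prop) : ℕ :=
  (univ.filter fun t : Fin n × Fin n × Fin n × Fin n × Fin n =>
    P t.1 t.2.1 t.2.2.1 t.2.2.2.1 t.2.2.2.2).card

theorem N5_mono {P Q : Fin n → Fin n → Fin n → Fin n → Fin n → Prop}
    (h : ∀ v w p q c, P v w p q c → Q v w p q c) : N5 P ≤ N5 Q := by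
  unfold N5
  refine card_le_card fun t ht => ?_
  simp only [mem_filter, mem_univ, true_and] at ht ⊢
  exact h _ _ _ _ _ ht

theorem N5_or (P Q : Fin n → Fin n → Fin n → Fin n → Fin n → Prop) :
    N5 (fun v w p q c => P v w p q c ∨ Q v w p q c) ≤ N5 P + N5 Q := by
  unfold N5
  refine (card_le_card (fun t ht => ?_)).trans (card_union_le _ _)
  simp only [mem_filter, mem_univ, true_and, mem_union] at ht ⊢
  exact ht

/-- change of variables -/
theorem N5_le_of_map {P Q : Fin n → Fin n → Fin n → Fin n → Fin n → Prop}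
    (e : Fin n × Fin n × Fin n × Fin n × Fin n → Fin n × Fin n × Fin n × Fin n × Fin n)
    (he : Function.Injective e)
    (h : ∀ v w p q c, P v w p q c → Q (e (v, w, p, q, c)).1 (e (v, w, p, q, c)).2.1 (e (v, w, p, q, c)).2.2.1
      (e (v, w, p, q, c)).2.2.2.1 (e (v, w, p, q, c)).2.2.2.2) : N5 P ≤ N5 Q := by
  unfold N5
  refine card_le_card_of_injOn e ?_ he.injOn
  intro t ht
  simp only [coe_filter, mem_univ, true_and, Set.mem_ofPred_eq] at ht ⊢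
  exact h _ _ _ _ _ ht

theorem N5_rot {P Q : Fin n → Fin n → Fin n → Fin n → Fin n → Prop}
    (h : ∀ v w p q c, P v w p q c → Q w p q c v) : N5 P ≤ N5 Q := by
  refine N5_le_of_map (fun t => (t.2.1, t.2.2.1, t.2.2.2.1, t.2.2.2.2, t.1)) ?_ ?_
  · rintro ⟨a, b, c, d, e⟩ ⟨a', b', c', d', e'⟩ h
    simp only [Prod.mk.injEq] at h ⊢
    tauto
  · intro v w p q c hP
    exact h v w p q c hP

theorem N5_refl {P Q : Fin n → Fin n → Fin n → Fin n → Fin n → Prop}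
    (h : ∀ v w p q c, P v w p q c → Q v c q p w) : N5 P ≤ N5 Q := by
  refine N5_le_of_map (fun t => (t.1, t.2.2.2.2, t.2.2.2.1, t.2.2.1, t.2.1)) ?_ ?_
  · rintro ⟨a, b, c, d, e⟩ ⟨a', b', c', d', e'⟩ h
    simp only [Prod.mk.injEq] at h ⊢
    tauto
  · intro v w p q c hP
    exact h v w p q c hP

theorem card_filter_prod' {α β : Type} [Fintype α] [Fintype β] (P : α × β → Prop) :
    (univ.filter P).card = ∑ a, (univ.filter fun b => P (a, b)).card := by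
  simp only [card_filter, Fintype.sum_prod_type]

/-- fibre over the first two coordinates -/
theorem N5_eq_sum2 (P : Fin n → Fin n → Fin n → Fin n → Fin n → Prop) :
    N5 P = ∑ x : Fin n × Fin n, (univ.filter fun t : Fin n × Fin n × Fin n => P x.1 x.2 t.1 t.2.1 t.2.2).card := by
  unfold N5
  rw [card_filter_prod', Fintype.sum_prod_type]
  refine sum_congr rfl fun a _ => ?_
  rw [card_filter_prod']

/-- fibre over the first coordinate -/
theorem N5_eq_sum1 (P : Fin n → Fin n → Fin n → Fin n → Fin n → Prop) :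
    N5 P = ∑ x : Fin n, (univ.filter fun t : Fin n × Fin n × Fin n × Fin n => P x t.1 t.2.1 t.2.2.1 t.2.2.2).card := by
  unfold N5
  rw [card_filter_prod']

/-- upper bound by fibres over the first two coordinates -/
theorem N5_le_mul {P : Fin n → Fin n → Fin n → Fin n → Fin n → Prop} {R : Fin n → Fin n → Prop} {L : ℝ}
    (hR : ∀ v w p q c, P v w p q c → R v w)
    (hL : ∀ v w, R v w → ((univ.filter fun t : Fin n × Fin n × Fin n => P v w t.1 t.2.1 t.2.2).card : ℝ) ≤ L) :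
    (N5 P : ℝ) ≤ (univ.filter fun t : Fin n × Fin n => R t.1 t.2).card * L := by
  rw [N5_eq_sum2]
  push_cast
  rw [← sum_filter_add_sum_filter_not univ (fun x : Fin n × Fin n => R x.1 x.2)]
  have h2 : ∑ x ∈ univ.filter (fun x : Fin n × Fin n => ¬ R x.1 x.2),
      ((univ.filter fun t : Fin n × Fin n × Fin n => P x.1 x.2 t.1 t.2.1 t.2.2).card : ℝ) = 0 := by
    refine sum_eq_zero fun x hx => ?_
    simp only [mem_filter, mem_univ, true_and] at hx
    norm_cast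
    rw [card_eq_zero, filter_eq_empty_iff]
    intro t _ ht
    exact hx (hR _ _ _ _ _ ht)
  rw [h2, add_zero, card_eq_sum_ones]
  push_cast
  rw [sum_mul]
  refine sum_le_sum fun x hx => ?_
  simp only [mem_filter, mem_univ, true_and] at hx
  rw [one_mul]
  exact hL _ _ hx

/-- lower bound by fibres over the first two coordinates -/
theorem mul_le_N5 {P : Fin n → Fin n → Fin n → Fin n → Fin n → Prop} {R : Fin n → Fin n → Prop} {L : ℝ}
    (hL : ∀ v w, R v w → L ≤ ((univ.filter fun t : Fin n × Fin n × Fin n => P v w t.1 t.2.1 t.2.2).card : ℝ)) :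
    (univ.filter fun t : Fin n × Fin n => R t.1 t.2).card * L ≤ (N5 P : ℝ) := by
  rw [N5_eq_sum2]
  push_cast
  rw [← sum_filter_add_sum_filter_not univ (fun x : Fin n × Fin n => R x.1 x.2)]
  have h2 : 0 ≤ ∑ x ∈ univ.filter (fun x : Fin n × Fin n => ¬ R x.1 x.2),
      ((univ.filter fun t : Fin n × Fin n × Fin n => P x.1 x.2 t.1 t.2.1 t.2.2).card : ℝ) :=
    sum_nonneg fun x _ => by positivity
  refine le_trans ?_ (le_add_of_nonneg_right h2)
  rw [card_eq_sum_ones]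
  push_cast
  rw [sum_mul]
  refine sum_le_sum fun x hx => ?_
  simp only [mem_filter, mem_univ, true_and] at hx
  rw [one_mul]
  exact hL _ _ hx

/-- upper bound by `nP3` at the first coordinate -/
theorem N5_le_nP3 {H : Gr n} {P : Fin n → Fin n → Fin n → Fin n → Fin n → Prop} {X : Finset (Fin n)}
    {A B : Fin n → Finset (Fin n)}
    (h : ∀ x a b c d, P x a b c d → C5 H x a b c d ∧ x ∈ X ∧ a ∈ A x ∧ d ∈ B x) :
    N5 P ≤ ∑ x ∈ X, nP3 H x (A x) (B x) := by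
  rw [N5_eq_sum1]
  have e : ∑ x ∈ X, (univ.filter fun t : Fin n × Fin n × Fin n × Fin n => P x t.1 t.2.1 t.2.2.1 t.2.2.2).card =
      ∑ x : Fin n, (univ.filter fun t : Fin n × Fin n × Fin n × Fin n => P x t.1 t.2.1 t.2.2.1 t.2.2.2).card := by
    refine sum_subset (subset_univ _) fun x _ hx => ?_
    rw [card_eq_zero, filter_eq_empty_iff]
    intro t _ ht
    exact hx (h _ _ _ _ _ ht).2.1
  rw [← e]
  refine sum_le_sum fun x _ => ?_
  unfold nP3
  refine card_le_card fun t ht => ?_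
  simp only [mem_filter, mem_univ, true_and] at ht ⊢
  obtain ⟨hc, _, ha, hb⟩ := h _ _ _ _ _ ht
  obtain ⟨a1, a2, a3, a4, a5, b1, b2, b3, b4, b5⟩ := hc
  exact ⟨ha, hb, ⟨a2, a3, a4, b3, b4, b5⟩, b1.symm, b2.symm⟩

/-! ### the counts given by `Ctx` -/

variable {K : ℕ} {c₁ c₂ c₄ c₅ C₆ δ c₇ c₈ c₉ : ℝ} {d : ℕ} {G H : Gr n} {σ : Fin n → Equiv.Perm (Fin n)}

/-- the small number of Step A -/
noncomputable def sm (K : ℕ) (c₄ c₅ : ℝ) (n d : ℕ) : ℝ :=
  (n : ℝ) ^ (-c₅) * lam n d + 2 * K * ((n : ℝ) ^ (-c₄) * lam n d)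

/-- exactly one changed edge -/
theorem one_changed (hA : Stmt_StepA) (ctx : Ctx K c₁ c₂ c₄ c₅ C₆ δ c₇ c₈ c₉ n d G H σ) :
    (N5 (fun v w p q c => C5 H v w p q c ∧ Ch H σ v w ∧ ¬ Ch H σ w p ∧ ¬ Ch H σ p q ∧ ¬ Ch H σ q c ∧
      ¬ Ch H σ c v) : ℝ) ≤ Mch H σ * sm K c₄ c₅ n d := by
  refine N5_le_mul (R := fun v w => Ch H σ v w) (fun v w p q c h => h.2.1) fun v w hvw => ?_
  refine le_trans ?_ (hA K c₁ c₂ c₄ c₅ C₆ δ c₇ c₈ c₉ n d G H σ ctx v w hvw)
  norm_cast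
  refine card_le_card_of_injOn (fun t => (t.2.1, t.2.2, t.1)) ?_ ?_
  · intro t ht
    simp only [coe_filter, mem_univ, true_and, Set.mem_ofPred_eq] at ht ⊢
    obtain ⟨h1, _, h2, h3, h4, h5⟩ := ht
    exact ⟨C5_rot (C5_rot (C5_rot h1)), h4, h5, h2, h3⟩
  · rintro ⟨a, b, c⟩ _ ⟨a', b', c'⟩ _ h
    simp only [Prod.mk.injEq] at h ⊢
    tauto

theorem two_changed (ctx : Ctx K c₁ c₂ c₄ c₅ C₆ δ c₇ c₈ c₉ n d G H σ) :
    (N5 (fun v w p q c => C5 H v w p q c ∧ Ch H σ v w ∧ Ch H σ p q ∧ ¬ Ch H σ w p ∧ ¬ Ch H σ q c ∧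
      ¬ Ch H σ c v) : ℝ) ≤ (n : ℝ) ^ (-c₉) * lam n d * Mch H σ := by
  refine le_trans (Nat.cast_le.2 (card_le_card fun t ht => ?_)) (ctx.t9 H σ ctx.part ctx.ph1).1
  simp only [mem_filter, mem_univ, true_and] at ht ⊢
  exact ht

theorem three_changed (ctx : Ctx K c₁ c₂ c₄ c₅ C₆ δ c₇ c₈ c₉ n d G H σ) :
    (N5 (fun v w p q c => C5 H v w p q c ∧ Ch H σ v w ∧ Ch H σ c v ∧ Ch H σ p q ∧ ¬ Ch H σ w p ∧
      ¬ Ch H σ q c) : ℝ) ≤ (n : ℝ) ^ (-c₉) * lam n d * Mch H σ := by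
  refine le_trans (Nat.cast_le.2 (card_le_card fun t ht => ?_)) (ctx.t9 H σ ctx.part ctx.ph1).2
  simp only [mem_filter, mem_univ, true_and] at ht ⊢
  exact ht

/-- changed neighbours -/
noncomputable def F (H : Gr n) (σ : Fin n → Equiv.Perm (Fin n)) (x : Fin n) : Finset (Fin n) :=
  univ.filter fun y => Ch H σ x y

theorem card_F (x : Fin n) : (F H σ x).card = Fd H σ x := rfl

theorem F_sub (x : Fin n) : F H σ x ⊆ nb H x := by
  intro y hy
  simp only [F, mem_filter, mem_univ, true_and] at hy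
  exact mem_nb.2 hy.1

theorem t6_nP3 (ctx : Ctx K c₁ c₂ c₄ c₅ C₆ δ c₇ c₈ c₉ n d G H σ) (x : Fin n) {A B : Finset (Fin n)}
    (hA : A ⊆ nb H x) (hB : B ⊆ nb H x) :
    (nP3 H x A B : ℝ) ≤ C₆ * (gam n d * A.card * B.card + (A.card + B.card) * Real.log n) :=
  ctx.part.T6' ctx.t6 x A B hA hB

/-! ### asymptotics in regime C -/

theorem lam_ge {ε ε₀ : ℝ} {n d : ℕ} (hn : 1 ≤ n) (h : RegC ε ε₀ n d) :
    (n : ℝ) ^ (4 * ε) ≤ lam n d := by
  have hn' : (0 : ℝ) < n := by exact_mod_cast hn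
  unfold lam
  rw [le_div_iff₀ hn']
  have h1 : ((n : ℝ) ^ (1 / 4 + ε)) ^ 4 ≤ (d : ℝ) ^ 4 :=
    pow_le_pow_left₀ (by positivity) h.1 4
  refine le_trans (le_of_eq ?_) h1
  rw [← Real.rpow_natCast ((n : ℝ) ^ (1 / 4 + ε)), ← Real.rpow_mul hn'.le]
  nth_rewrite 2 [← Real.rpow_one (n : ℝ)]
  rw [← Real.rpow_add hn']
  congr 1
  push_cast
  ring

theorem gam_mul (n d : ℕ) : gam n d * d = lam n d := by
  unfold gam lam; ring

theorem ev_pow_small {c η : ℝ} (hc : 0 < c) (hη : 0 < η) : ∃ n₀ : ℕ, ∀ n ≥ n₀, (n : ℝ) ^ (-c) ≤ η := by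
  have h : Tendsto (fun n : ℕ => (n : ℝ) ^ (-c)) atTop (𝓝 0) :=
    (tendsto_rpow_neg_atTop hc).comp tendsto_natCast_atTop_atTop
  obtain ⟨n₀, h0⟩ := eventually_atTop.1 ((tendsto_order.1 h).2 η hη)
  exact ⟨n₀, fun n hn => (h0 n hn).le⟩

theorem ev_log_small {c η : ℝ} (hc : 0 < c) (hη : 0 < η) : ∃ n₀ : ℕ, ∀ n ≥ n₀, Real.log n ≤ η * (n : ℝ) ^ c := by
  have h := (isLittleO_log_rpow_atTop hc).comp_tendsto tendsto_natCast_atTop_atTop
  have h2 := h.def hη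
  obtain ⟨n₀, h0⟩ := eventually_atTop.1 h2
  refine ⟨n₀, fun n hn => ?_⟩
  have := h0 n hn
  simp only [Function.comp_apply, Real.norm_eq_abs] at this
  have h3 : |(n : ℝ) ^ c| = (n : ℝ) ^ c := abs_of_nonneg (by positivity)
  rw [h3] at this
  exact (le_abs_self _).trans this

theorem ev_log_lam {ε ε₀ η : ℝ} (hε : 0 < ε) (hη : 0 < η) :
    ∃ n₀ : ℕ, ∀ n ≥ n₀, ∀ d, RegC ε ε₀ n d → Real.log n ≤ η * lam n d := by
  obtain ⟨n₀, h0⟩ := ev_log_small (c := 4 * ε) (by linarith) hη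
  refine ⟨max n₀ 1, fun n hn d hd => (h0 n (by omega)).trans ?_⟩
  exact mul_le_mul_of_nonneg_left (lam_ge (by omega) hd) hη.le

theorem ev_sm {K : ℕ} {c₄ c₅ η : ℝ} (h4 : 0 < c₄) (h5 : 0 < c₅) (hη : 0 < η) :
    ∃ n₀ : ℕ, ∀ n ≥ n₀, ∀ d, sm K c₄ c₅ n d ≤ η * lam n d := by
  obtain ⟨n₀, h0⟩ := ev_pow_small h5 (η := η / 2) (by linarith)
  obtain ⟨n₁, h1⟩ := ev_pow_small h4 (η := η / (4 * (K + 1))) (by positivity)
  refine ⟨max n₀ n₁, fun n hn d => ?_⟩
  have a := h0 n (by omega)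
  have b := h1 n (by omega)
  have hl : 0 ≤ lam n d := by unfold lam; positivity
  unfold sm
  have e1 : (n : ℝ) ^ (-c₅) * lam n d ≤ η / 2 * lam n d := mul_le_mul_of_nonneg_right a hl
  have e2 : (n : ℝ) ^ (-c₄) * lam n d ≤ η / (4 * (K + 1)) * lam n d := mul_le_mul_of_nonneg_right b hl
  have e3 : 2 * (K : ℝ) * ((n : ℝ) ^ (-c₄) * lam n d) ≤ 2 * K * (η / (4 * (K + 1)) * lam n d) :=
    mul_le_mul_of_nonneg_left e2 (by positivity)
  have e4 : 2 * (K : ℝ) * (η / (4 * (K + 1)) * lam n d) ≤ η / 2 * lam n d := by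
    have : 2 * (K : ℝ) * (η / (4 * (K + 1))) ≤ η / 2 := by
      rw [mul_div_assoc', div_le_div_iff₀ (by positivity) (by norm_num)]
      nlinarith
    calc 2 * (K : ℝ) * (η / (4 * (K + 1)) * lam n d) = 2 * (K : ℝ) * (η / (4 * (K + 1))) * lam n d := by ring
      _ ≤ _ := mul_le_mul_of_nonneg_right this hl
  linarith

end FiveCount

end Pool.Agent.RRG
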