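import Pool.Agent.RRG.Basic

/-!
# KEY (MP_d15a9b_pr), part 1: the deterministic resampling structure
-/

open Finset Filter Topology
open scoped Classical

namespace Pool.Agent.RRG.KEY

noncomputable section

variable {n : ℕ}

/-- the exceptional set -/
def Exm (G : Gr n) (v u v' u' y : Fin n) : Prop :=
  y = v ∨ ∃ x, (x = u ∨ x = v' ∨ x = u') ∧ x ≠ v ∧ (y = x ∨ G.Adj x y)

/-- number of neighbours of `y` in `N(u) \ {v}` -/
def xf (G : Gr n) (v u y : Fin n) : ℕ := (univ.filter fun z => G.Adj y z ∧ G.Adj u z ∧ z ≠ v).card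

def Good (G : Gr n) (v u v' u' y : Fin n) : Prop :=
  ¬ G.Adj v y ∧ ¬ Exm G v u v' u' y ∧ (univ.filter fun a => G.Adj y a ∧ G.Adj v a).card = 1 ∧
    xf G v u y ≤ 1 ∧ (v' = v → ∀ z, G.Adj u' z → z ≠ v → ¬ G.Adj y z)

def Am (G : Gr n) (v u v' u' a : Fin n) : Prop :=
  G.Adj v a ∧ ¬ Exm G v u v' u' a ∧ ∀ y, G.Adj a y → y ≠ v → ¬ Good G v u v' u' y → xf G v u y = 0

def Ym (G : Gr n) (v u v' u' y : Fin n) : Prop :=
  Good G v u v' u' y ∧ ∃ a, Am G v u v' u' a ∧ G.Adj a y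

def Ap (G : Gr n) (v u v' u' : Fin n) : Finset (Fin n) := univ.filter fun a => Am G v u v' u' a
def Yp (G : Gr n) (v u v' u' : Fin n) : Finset (Fin n) := univ.filter fun y => Ym G v u v' u' y

/-- `G'` differs from `G` only in the edges between `A` and `Y`, and every `y ∈ Y` has exactly one `G'`-neighbour in `A` -/
structure Sim (G G' : Gr n) (v u v' u' : Fin n) : Prop where
  off : ∀ x y, ¬ (Am G v u v' u' x ∧ Ym G v u v' u' y) → ¬ (Ym G v u v' u' x ∧ Am G v u v' u' y) →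
    (G'.Adj x y ↔ G.Adj x y)
  one : ∀ y, Ym G v u v' u' y → ∃! a, Am G v u v' u' a ∧ G'.Adj y a

variable {G G' : Gr n} {v u v' u' : Fin n}

theorem Am.adj {a : Fin n} (h : Am G v u v' u' a) : G.Adj v a := h.1
theorem Am.nex {a : Fin n} (h : Am G v u v' u' a) : ¬ Exm G v u v' u' a := h.2.1
theorem Ym.good {y : Fin n} (h : Ym G v u v' u' y) : Good G v u v' u' y := h.1
theorem Ym.nex {y : Fin n} (h : Ym G v u v' u' y) : ¬ Exm G v u v' u' y := h.1.2.1
theorem Ym.nadj {y : Fin n} (h : Ym G v u v' u' y) : ¬ G.Adj v y := h.1.1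

theorem Ym.not_Am {y : Fin n} (h : Ym G v u v' u' y) : ¬ Am G v u v' u' y := fun h' => h.nadj h'.adj
theorem Am.not_Ym {y : Fin n} (h : Am G v u v' u' y) : ¬ Ym G v u v' u' y := fun h' => h'.nadj h.adj

theorem Exm.root : Exm G v u v' u' v := Or.inl rfl
theorem Exm.self {x : Fin n} (hx : x = u ∨ x = v' ∨ x = u') : Exm G v u v' u' x := by
  by_cases h : x = v
  · left; exact h
  · right; exact ⟨x, hx, h, Or.inl rfl⟩
theorem Exm.nb {x y : Fin n} (hx : x = u ∨ x = v' ∨ x = u') (hxv : x ≠ v) (h : G.Adj x y) :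
    Exm G v u v' u' y := Or.inr ⟨x, hx, hxv, Or.inr h⟩

namespace Sim

/-- adjacency is unchanged if one endpoint is neither in `A` nor in `Y` -/
theorem adj_iff (h : Sim G G' v u v' u') {x y : Fin n} (hA : ¬ Am G v u v' u' x) (hY : ¬ Ym G v u v' u' x) :
    G'.Adj x y ↔ G.Adj x y := h.off x y (fun h => hA h.1) (fun h => hY h.1)

theorem adj_iff' (h : Sim G G' v u v' u') {x y : Fin n} (hA : ¬ Am G v u v' u' y) (hY : ¬ Ym G v u v' u' y) :
    G'.Adj x y ↔ G.Adj x y := h.off x y (fun h => hY h.2) (fun h => hA h.2)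

/-- exceptional vertices -/
theorem adj_ex (h : Sim G G' v u v' u') {x y : Fin n} (hx : Exm G v u v' u' x) :
    G'.Adj x y ↔ G.Adj x y := h.adj_iff (fun h' => h'.nex hx) (fun h' => h'.nex hx)

theorem adj_v (h : Sim G G' v u v' u') {y : Fin n} : G'.Adj v y ↔ G.Adj v y := h.adj_ex Exm.root
theorem adj_x (h : Sim G G' v u v' u') {x y : Fin n} (hx : x = u ∨ x = v' ∨ x = u') :
    G'.Adj x y ↔ G.Adj x y := h.adj_ex (Exm.self hx)

theorem exm_iff (h : Sim G G' v u v' u') (y : Fin n) : Exm G' v u v' u' y ↔ Exm G v u v' u' y := by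
  unfold Exm
  constructor
  · rintro (h1 | ⟨x, hx, hxv, h1⟩)
    · left; exact h1
    · right; exact ⟨x, hx, hxv, by rwa [h.adj_x hx] at h1⟩
  · rintro (h1 | ⟨x, hx, hxv, h1⟩)
    · left; exact h1
    · right; exact ⟨x, hx, hxv, by rwa [h.adj_x hx]⟩

/-- edges to a neighbour of `u` -/
theorem adj_nu (h : Sim G G' v u v' u') {x y z : Fin n} (hx : x = u ∨ x = v' ∨ x = u') (hxv : x ≠ v)
    (hz : G.Adj x z) : G'.Adj y z ↔ G.Adj y z := by
  have : Exm G v u v' u' z := Exm.nb hx hxv hz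
  rw [G'.adj_comm, G.adj_comm]
  exact h.adj_ex this

theorem xf_eq (h : Sim G G' v u v' u') (hvu : v ≠ u) (y : Fin n) : xf G' v u y = xf G v u y := by
  unfold xf
  congr 1
  ext z
  simp only [mem_filter, mem_univ, true_and]
  constructor
  · rintro ⟨h1, h2, h3⟩
    rw [h.adj_x (Or.inl rfl)] at h2
    rw [h.adj_nu (Or.inl rfl) hvu.symm h2] at h1
    exact ⟨h1, h2, h3⟩
  · rintro ⟨h1, h2, h3⟩
    refine ⟨?_, ?_, h3⟩
    · rwa [h.adj_nu (Or.inl rfl) hvu.symm h2]
    · rwa [h.adj_x (Or.inl rfl)]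

/-- for `y ∈ Y` the neighbours in `N(v)` are all in `A` -/
theorem nbA {y : Fin n} (hy : Ym G v u v' u' y) {a : Fin n} (hva : G.Adj v a) (hya : G.Adj y a) : Am G v u v' u' a := by
  obtain ⟨hg, b, hb, hby⟩ := hy
  have h1 := hg.2.2.1
  rw [card_eq_one] at h1
  obtain ⟨c, hc⟩ := h1
  have ha : a ∈ ({c} : Finset (Fin n)) := by rw [← hc]; simp [hva, hya]
  have hb' : b ∈ ({c} : Finset (Fin n)) := by rw [← hc]; simp [hb.adj, hby.symm]
  rw [mem_singleton] at ha hb'
  rw [ha, ← hb']; exact hb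

theorem good_iff (h : Sim G G' v u v' u') (hvu : v ≠ u) (hvu' : v' ≠ u') (y : Fin n) :
    Good G' v u v' u' y ↔ Good G v u v' u' y := by
  have hx := h.xf_eq hvu y
  have he := h.exm_iff y
  have h5 : (v' = v → ∀ z, G'.Adj u' z → z ≠ v → ¬ G'.Adj y z) ↔
      (v' = v → ∀ z, G.Adj u' z → z ≠ v → ¬ G.Adj y z) := by
    constructor
    · intro a hv z hz hzv
      have hu' : u' ≠ v := fun e => hvu' (hv.trans e.symm)
      rw [← h.adj_nu (Or.inr (Or.inr rfl)) hu' hz]
      exact a hv z (by rwa [h.adj_x (Or.inr (Or.inr rfl))]) hzv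
    · intro a hv z hz hzv
      have hu' : u' ≠ v := fun e => hvu' (hv.trans e.symm)
      rw [h.adj_x (Or.inr (Or.inr rfl))] at hz
      rw [h.adj_nu (Or.inr (Or.inr rfl)) hu' hz]
      exact a hv z hz hzv
  by_cases hA : Am G v u v' u' y
  · constructor
    · intro hg; exact absurd (h.adj_v.2 hA.adj) hg.1
    · intro hg; exact absurd hA.adj hg.1
  by_cases hY : Ym G v u v' u' y
  · constructor
    · intro _; exact hY.good
    · intro hg
      refine ⟨by rw [h.adj_v]; exact hg.1, by rw [he]; exact hg.2.1, ?_, by rw [hx]; exact hg.2.2.2.1,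
        h5.2 hg.2.2.2.2⟩
      obtain ⟨a, ⟨ha, hya⟩, hu⟩ := h.one y hY
      rw [card_eq_one]
      refine ⟨a, ?_⟩
      ext b
      simp only [mem_filter, mem_univ, true_and, mem_singleton]
      constructor
      · rintro ⟨h1, h2⟩
        rw [h.adj_v] at h2
        by_cases hb : Am G v u v' u' b
        · exact hu b ⟨hb, h1⟩
        · rw [h.off y b (fun h' => hA h'.1) (fun h' => hb h'.2)] at h1
          exact absurd (nbA hY h2 h1) hb
      · rintro rfl
        exact ⟨hya, by rw [h.adj_v]; exact ha.adj⟩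
  · have hc : (univ.filter fun a => G'.Adj y a ∧ G'.Adj v a) = (univ.filter fun a => G.Adj y a ∧ G.Adj v a) := by
      ext a
      simp only [mem_filter, mem_univ, true_and]
      rw [h.adj_iff hA hY, h.adj_v]
    unfold Good
    rw [h.adj_v, he, hc, hx, h5]

theorem am_iff (h : Sim G G' v u v' u') (hvu : v ≠ u) (hvu' : v' ≠ u') (a : Fin n) :
    Am G' v u v' u' a ↔ Am G v u v' u' a := by
  unfold Am
  rw [h.adj_v, h.exm_iff]
  refine and_congr_right fun hva => and_congr_right fun _ => ?_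
  refine forall_congr' fun y => ?_
  rw [h.good_iff hvu hvu', h.xf_eq hvu]
  by_cases hg : Good G v u v' u' y
  · simp [hg]
  · rw [h.off a y (fun h' => hg h'.2.good) (fun h' => h'.1.nadj hva)]

theorem ym_iff (h : Sim G G' v u v' u') (hvu : v ≠ u) (hvu' : v' ≠ u') (y : Fin n) :
    Ym G' v u v' u' y ↔ Ym G v u v' u' y := by
  constructor
  · rintro ⟨hg, a, ha, hay⟩
    rw [h.good_iff hvu hvu'] at hg
    rw [h.am_iff hvu hvu'] at ha
    by_contra hY
    rw [h.off a y (fun h' => hY h'.2) (fun h' => ha.not_Ym h'.1)] at hay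
    exact hY ⟨hg, a, ha, hay⟩
  · intro hY
    obtain ⟨a, ⟨ha, hya⟩, _⟩ := h.one y hY
    refine ⟨(h.good_iff hvu hvu' y).2 hY.good, a, (h.am_iff hvu hvu' a).2 ha, hya.symm⟩

theorem Ap_eq (h : Sim G G' v u v' u') (hvu : v ≠ u) (hvu' : v' ≠ u') :
    Ap G' v u v' u' = Ap G v u v' u' := by
  ext a; simp only [Ap, mem_filter, mem_univ, true_and]; exact h.am_iff hvu hvu' a

theorem Yp_eq (h : Sim G G' v u v' u') (hvu : v ≠ u) (hvu' : v' ≠ u') :
    Yp G' v u v' u' = Yp G v u v' u' := by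
  ext a; simp only [Yp, mem_filter, mem_univ, true_and]; exact h.ym_iff hvu hvu' a

end Sim

theorem card_prod_filter {α β : Type*} [Fintype α] [Fintype β] (p : α → β → Prop)
    [DecidablePred fun t : α × β => p t.1 t.2] [∀ a, DecidablePred (p a)] :
    (univ.filter fun t : α × β => p t.1 t.2).card = ∑ a, (univ.filter fun b => p a b).card := by
  simp only [card_filter, Fintype.sum_prod_type]

namespace Sim

/-- `X` of a vertex of `N(v)` outside `A` is unchanged -/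
theorem Xc_off (h : Sim G G' v u v' u') (hvu : v ≠ u) {a : Fin n} (hva : G.Adj v a)
    (hA : ¬ Am G v u v' u' a) : Xc G' v u a = Xc G v u a := by
  have hY : ¬ Ym G v u v' u' a := fun h' => h'.nadj hva
  unfold Xc
  congr 1
  ext t
  simp only [mem_filter, mem_univ, true_and]
  rw [h.adj_iff hA hY, h.adj_x (Or.inl rfl)]
  constructor
  · rintro ⟨h1, h2, h3, h4, h5, h6⟩
    rw [h.adj_nu (Or.inl rfl) hvu.symm h5] at h4
    exact ⟨h1, h2, h3, h4, h5, h6⟩
  · rintro ⟨h1, h2, h3, h4, h5, h6⟩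
    refine ⟨h1, h2, h3, ?_, h5, h6⟩
    rwa [h.adj_nu (Or.inl rfl) hvu.symm h5]

/-- the number of `z` for `y`, when `u' = v` -/
theorem cnt_v (h : Sim G G' v u v' v) (hvu : v ≠ u) (hv : v' ≠ v) {a : Fin n} (hva : G.Adj v' a) (y : Fin n) :
    (univ.filter fun z => G'.Adj y z ∧ G'.Adj v z ∧ z ≠ v' ∧ z ≠ a).card =
    (univ.filter fun z => G.Adj y z ∧ G.Adj v z ∧ z ≠ v' ∧ z ≠ a).card := by
  by_cases hY : Ym G v u v' v y
  · have key : ∀ {G₁ : Gr n}, Good G₁ v u v' v y → (∀ b, Am G v u v' v b → b ≠ v' ∧ b ≠ a) →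
        (∀ b, G₁.Adj v b → G₁.Adj y b → Am G v u v' v b) →
        (univ.filter fun z => G₁.Adj y z ∧ G₁.Adj v z ∧ z ≠ v' ∧ z ≠ a).card = 1 := by
      intro G₁ hg h1 h2
      have e : (univ.filter fun z => G₁.Adj y z ∧ G₁.Adj v z ∧ z ≠ v' ∧ z ≠ a) =
          (univ.filter fun z => G₁.Adj y z ∧ G₁.Adj v z) := by
        ext z
        simp only [mem_filter, mem_univ, true_and]
        constructor
        · rintro ⟨a1, a2, _⟩; exact ⟨a1, a2⟩
        · rintro ⟨a1, a2⟩; exact ⟨a1, a2, h1 z (h2 z a2 a1)⟩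
      rw [e]; exact hg.2.2.1
    have hAv : ∀ b, Am G v u v' v b → b ≠ v' ∧ b ≠ a := by
      intro b hb
      constructor
      · rintro rfl; exact hb.nex (Exm.self (Or.inr (Or.inl rfl)))
      · rintro rfl; exact hb.nex (Exm.nb (Or.inr (Or.inl rfl)) hv hva)
    rw [key hY.good hAv (fun b hb hyb => nbA hY hb hyb),
      key ((h.good_iff hvu hv y).2 hY.good) hAv]
    intro b hb hyb
    by_contra hA
    rw [h.off y b (fun h' => hY.not_Am h'.1) (fun h' => hA h'.2)] at hyb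
    exact hA (nbA hY (h.adj_v.1 hb) hyb)
  · congr 1
    ext z
    simp only [mem_filter, mem_univ, true_and]
    rw [h.adj_v]
    constructor
    · rintro ⟨h1, h2, h3⟩
      rw [h.off y z (fun h' => h'.2.nadj h2) (fun h' => hY h'.1)] at h1
      exact ⟨h1, h2, h3⟩
    · rintro ⟨h1, h2, h3⟩
      refine ⟨?_, h2, h3⟩
      rwa [h.off y z (fun h' => h'.2.nadj h2) (fun h' => hY h'.1)]

theorem Xc' (h : Sim G G' v u v' u') (hvu : v ≠ u) (hvu' : v' ≠ u') {a : Fin n} (hva : G.Adj v' a) :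
    Xc G' v' u' a = Xc G v' u' a := by
  by_cases hv : v' = v
  · -- the second pair has the same root
    have hu' : u' ≠ v := fun e => hvu' (hv.trans e.symm)
    have hY : ¬ Ym G v u v' u' a := fun h' => h'.nadj (hv ▸ hva)
    unfold Xc
    congr 1
    ext t
    simp only [mem_filter, mem_univ, true_and]
    rw [h.adj_x (Or.inr (Or.inr rfl))]
    constructor
    · rintro ⟨h1, h2, h3, h4, h5, h6, h7⟩
      rw [h.adj_nu (Or.inr (Or.inr rfl)) hu' h5] at h4
      have hn : ¬ Good G v u v' u' t.1 := fun hg => hg.2.2.2.2 hv t.2 h5 (hv ▸ h6) h4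
      rw [h.off a t.1 (fun h' => hn h'.2.good) (fun h' => hY h'.1)] at h1
      exact ⟨h1, h2, h3, h4, h5, h6, h7⟩
    · rintro ⟨h1, h2, h3, h4, h5, h6, h7⟩
      have hn : ¬ Good G v u v' u' t.1 := fun hg => hg.2.2.2.2 hv t.2 h5 (hv ▸ h6) h4
      refine ⟨?_, h2, h3, ?_, h5, h6, h7⟩
      · rwa [h.off a t.1 (fun h' => hn h'.2.good) (fun h' => hY h'.1)]
      · rwa [h.adj_nu (Or.inr (Or.inr rfl)) hu' h5]
  · have hex : Exm G v u v' u' a := Exm.nb (Or.inr (Or.inl rfl)) hv hva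
    by_cases hu' : u' = v
    · subst hu'
      unfold Xc
      rw [card_prod_filter (fun y z => G'.Adj a y ∧ y ≠ v' ∧ y ≠ u' ∧ G'.Adj y z ∧ G'.Adj u' z ∧ z ≠ v' ∧ z ≠ a),
        card_prod_filter (fun y z => G.Adj a y ∧ y ≠ v' ∧ y ≠ u' ∧ G.Adj y z ∧ G.Adj u' z ∧ z ≠ v' ∧ z ≠ a)]
      refine sum_congr rfl fun y _ => ?_
      simp only [h.adj_ex hex]
      by_cases hc : G.Adj a y ∧ y ≠ v' ∧ y ≠ u'
      · obtain ⟨c1, c2, c3⟩ := hc
        simp only [c1, c2, c3, true_and, ne_eq, not_false_eq_true]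
        exact h.cnt_v hvu hv hva y
      · rw [filter_eq_empty_iff.2, filter_eq_empty_iff.2]
        · rintro z _ ⟨h1, h2, h3, _⟩
          exact hc ⟨h1, h2, h3⟩
        · rintro z _ ⟨h1, h2, h3, _⟩
          exact hc ⟨h1, h2, h3⟩
    · unfold Xc
      congr 1
      ext t
      simp only [mem_filter, mem_univ, true_and]
      rw [h.adj_x (Or.inr (Or.inr rfl)), h.adj_ex hex]
      constructor
      · rintro ⟨h1, h2, h3, h4, h5, h6⟩
        rw [h.adj_nu (Or.inr (Or.inr rfl)) hu' h5] at h4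
        exact ⟨h1, h2, h3, h4, h5, h6⟩
      · rintro ⟨h1, h2, h3, h4, h5, h6⟩
        refine ⟨h1, h2, h3, ?_, h5, h6⟩
        rwa [h.adj_nu (Or.inr (Or.inr rfl)) hu' h5]

theorem prof' (h : Sim G G' v u v' u') (hvu : v ≠ u) (hvu' : v' ≠ u') (k : ℕ) :
    prof G' v' u' k = prof G v' u' k := by
  unfold prof
  congr 1
  ext a
  simp only [mem_filter, mem_univ, true_and]
  rw [h.adj_x (Or.inr (Or.inl rfl))]
  constructor
  · rintro ⟨h1, h2, h3⟩
    exact ⟨h1, h2, by rwa [h.Xc' hvu hvu' h1] at h3⟩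
  · rintro ⟨h1, h2, h3⟩
    exact ⟨h1, h2, by rwa [h.Xc' hvu hvu' h1]⟩

end Sim

/-- `X` of a vertex of `A` -/
theorem Xc_on (hvu : v ≠ u) {a : Fin n} (hA : Am G v u v' u' a) :
    Xc G v u a = (univ.filter fun y => Ym G v u v' u' y ∧ G.Adj a y ∧ xf G v u y = 1).card := by
  have hau : a ≠ u := by rintro rfl; exact hA.nex (Exm.self (Or.inl rfl))
  have hnu : ¬ G.Adj u a := fun h' => hA.nex (Exm.nb (Or.inl rfl) hvu.symm h')
  unfold Xc
  refine card_bij (fun t _ => t.1) ?_ ?_ ?_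
  · intro t ht
    simp only [mem_filter, mem_univ, true_and] at ht ⊢
    obtain ⟨h1, h2, h3, h4, h5, h6, h7⟩ := ht
    have hx : xf G v u t.1 ≠ 0 := by
      unfold xf
      rw [card_ne_zero]
      exact ⟨t.2, by simp [h4, h5, h6]⟩
    have hg : Good G v u v' u' t.1 := by
      by_contra hg
      exact hx (hA.2.2 t.1 h1 h2 hg)
    refine ⟨⟨hg, a, hA, h1⟩, h1, ?_⟩
    have := hg.2.2.2.1
    omega
  · intro s hs t ht hst
    simp only [mem_filter, mem_univ, true_and] at hs ht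
    obtain ⟨h1, h2, h3, h4, h5, h6, h7⟩ := hs
    obtain ⟨g1, g2, g3, g4, g5, g6, g7⟩ := ht
    have hx : xf G v u s.1 ≠ 0 := by
      unfold xf
      rw [card_ne_zero]
      exact ⟨s.2, by simp [h4, h5, h6]⟩
    have hg : Good G v u v' u' s.1 := by
      by_contra hg
      exact hx (hA.2.2 s.1 h1 h2 hg)
    have h1x := hg.2.2.2.1
    unfold xf at h1x
    rw [card_le_one] at h1x
    refine Prod.ext hst (h1x s.2 (by simp [h4, h5, h6]) t.2 ?_)
    rw [hst]
    simp [g4, g5, g6]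
  · intro y hy
    simp only [mem_filter, mem_univ, true_and] at hy
    obtain ⟨hY, hay, hx⟩ := hy
    have hx' : xf G v u y ≠ 0 := by omega
    unfold xf at hx'
    rw [card_ne_zero] at hx'
    obtain ⟨z, hz⟩ := hx'
    simp only [mem_filter, mem_univ, true_and] at hz
    refine ⟨(y, z), ?_, rfl⟩
    simp only [mem_filter, mem_univ, true_and]
    refine ⟨hay, ?_, ?_, hz.1, hz.2.1, hz.2.2, ?_⟩
    · rintro rfl; exact hY.nex Exm.root
    · rintro rfl; exact hY.nex (Exm.self (Or.inl rfl))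
    · rintro rfl; exact hnu hz.2.1

end

end Pool.Agent.RRG.KEY
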