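import Pool.Agent.RRG.Key1

/-!
# KEY (MP_d15a9b_pr), part 2: orbits
-/

open Finset Filter Topology
open scoped Classical

namespace Pool.Agent.RRG.KEY

noncomputable section

variable {n : ℕ}

@[simp] theorem mem_Ap {G : Gr n} {v u v' u' a : Fin n} : a ∈ Ap G v u v' u' ↔ Am G v u v' u' a := by simp [Ap]
@[simp] theorem mem_Yp {G : Gr n} {v u v' u' a : Fin n} : a ∈ Yp G v u v' u' ↔ Ym G v u v' u' a := by simp [Yp]

def core (G : Gr n) (v u v' u' : Fin n) : Gr n where
  Adj x y := G.Adj x y ∧ ¬ (Am G v u v' u' x ∧ Ym G v u v' u' y) ∧ ¬ (Ym G v u v' u' x ∧ Am G v u v' u' y)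
  symm := ⟨fun x y h => ⟨h.1.symm, fun h' => h.2.2 ⟨h'.2, h'.1⟩, fun h' => h.2.1 ⟨h'.2, h'.1⟩⟩⟩
  loopless := ⟨fun x h => G.loopless.irrefl x h.1⟩

def ss (G : Gr n) (v u v' u' a : Fin n) : ℕ :=
  if Am G v u v' u' a then (univ.filter fun y => Ym G v u v' u' y ∧ G.Adj a y).card else 0

def key (v u v' u' : Fin n) (G : Gr n) : Gr n × Finset (Fin n) × Finset (Fin n) × (Fin n → ℕ) :=
  (core G v u v' u', Ap G v u v' u', Yp G v u v' u', ss G v u v' u')

/-- a good vertex with a neighbour in `A` has a unique neighbour in `A` -/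
theorem Ym.unique {G : Gr n} {v u v' u' y : Fin n} (hY : Ym G v u v' u' y) :
    ∃! a, Am G v u v' u' a ∧ G.Adj y a := by
  obtain ⟨hg, a, ha, hay⟩ := hY
  refine ⟨a, ⟨ha, hay.symm⟩, ?_⟩
  rintro b ⟨hb, hyb⟩
  have h1 := hg.2.2.1
  rw [card_eq_one] at h1
  obtain ⟨c, hc⟩ := h1
  have h2 : a ∈ ({c} : Finset (Fin n)) := by rw [← hc]; simp [ha.adj, hay.symm]
  have h3 : b ∈ ({c} : Finset (Fin n)) := by rw [← hc]; simp [hb.adj, hyb]
  rw [mem_singleton] at h2 h3
  rw [h2, h3]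

theorem sim_of_key {v u v' u' : Fin n} {G G' : Gr n} (h : key v u v' u' G' = key v u v' u' G) :
    Sim G G' v u v' u' := by
  simp only [key, Prod.mk.injEq] at h
  obtain ⟨hc, hA, hY, -⟩ := h
  have hA' : ∀ a, Am G' v u v' u' a ↔ Am G v u v' u' a := fun a => by
    rw [← mem_Ap, hA, mem_Ap]
  have hY' : ∀ a, Ym G' v u v' u' a ↔ Ym G v u v' u' a := fun a => by
    rw [← mem_Yp, hY, mem_Yp]
  constructor
  · intro x y h1 h2
    have e : (core G' v u v' u').Adj x y ↔ (core G v u v' u').Adj x y := by rw [hc]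
    simp only [core, hA', hY'] at e
    constructor
    · intro h; exact (e.1 ⟨h, h1, h2⟩).1
    · intro h; exact (e.2 ⟨h, h1, h2⟩).1
  · intro y hy
    have := ((hY' y).2 hy).unique
    simpa only [hA'] using this

variable (G : Gr n) (v u v' u' : Fin n)

/-- the resampled graph -/
def rs (π : {y // y ∈ Yp G v u v' u'} → {a // a ∈ Ap G v u v' u'}) : Gr n where
  Adj x y := (G.Adj x y ∧ ¬ (Am G v u v' u' x ∧ Ym G v u v' u' y) ∧ ¬ (Ym G v u v' u' x ∧ Am G v u v' u' y)) ∨
    (∃ hx : x ∈ Yp G v u v' u', (π ⟨x, hx⟩).1 = y) ∨ (∃ hy : y ∈ Yp G v u v' u', (π ⟨y, hy⟩).1 = x)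
  symm := ⟨by
    rintro x y (h | h | h)
    · left; exact ⟨h.1.symm, fun h' => h.2.2 ⟨h'.2, h'.1⟩, fun h' => h.2.1 ⟨h'.2, h'.1⟩⟩
    · right; right; exact h
    · right; left; exact h⟩
  loopless := ⟨by
    rintro x (h | ⟨hx, h⟩ | ⟨hx, h⟩)
    · exact G.loopless.irrefl x h.1
    · have := (π ⟨x, hx⟩).2
      rw [h, mem_Ap] at this
      exact this.not_Ym (mem_Yp.1 hx)
    · have := (π ⟨x, hx⟩).2
      rw [h, mem_Ap] at this
      exact this.not_Ym (mem_Yp.1 hx)⟩

variable {G v u v' u'}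

theorem rs_off (π : {y // y ∈ Yp G v u v' u'} → {a // a ∈ Ap G v u v' u'}) {x y : Fin n}
    (h1 : ¬ (Am G v u v' u' x ∧ Ym G v u v' u' y)) (h2 : ¬ (Ym G v u v' u' x ∧ Am G v u v' u' y)) :
    (rs G v u v' u' π).Adj x y ↔ G.Adj x y := by
  constructor
  · rintro (h | ⟨hx, h⟩ | ⟨hy, h⟩)
    · exact h.1
    · have := (π ⟨x, hx⟩).2
      rw [h, mem_Ap] at this
      exact absurd ⟨mem_Yp.1 hx, this⟩ h2
    · have := (π ⟨y, hy⟩).2
      rw [h, mem_Ap] at this
      exact absurd ⟨this, mem_Yp.1 hy⟩ h1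
  · intro h; left; exact ⟨h, h1, h2⟩

theorem rs_YA (π : {y // y ∈ Yp G v u v' u'} → {a // a ∈ Ap G v u v' u'}) {y a : Fin n}
    (hy : y ∈ Yp G v u v' u') (ha : Am G v u v' u' a) :
    (rs G v u v' u' π).Adj y a ↔ (π ⟨y, hy⟩).1 = a := by
  constructor
  · rintro (h | ⟨hx, h⟩ | ⟨hy', h⟩)
    · exact absurd ⟨mem_Yp.1 hy, ha⟩ h.2.2
    · exact h
    · exact absurd (mem_Yp.1 hy') ha.not_Ym
  · intro h; right; left; exact ⟨hy, h⟩

theorem rs_sim (π : {y // y ∈ Yp G v u v' u'} → {a // a ∈ Ap G v u v' u'}) :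
    Sim G (rs G v u v' u' π) v u v' u' := by
  constructor
  · intro x y h1 h2; exact rs_off π h1 h2
  · intro y hy
    refine ⟨(π ⟨y, mem_Yp.2 hy⟩).1, ⟨mem_Ap.1 (π ⟨y, mem_Yp.2 hy⟩).2, ?_⟩, ?_⟩
    · rw [rs_YA π (mem_Yp.2 hy) (mem_Ap.1 (π ⟨y, mem_Yp.2 hy⟩).2)]
    · rintro b ⟨hb, hyb⟩
      rw [rs_YA π (mem_Yp.2 hy) hb] at hyb
      exact hyb.symm

/-- fibres of `π` in terms of the resampled graph -/
theorem rs_card (π : {y // y ∈ Yp G v u v' u'} → {a // a ∈ Ap G v u v' u'}) {a : Fin n}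
    (ha : a ∈ Ap G v u v' u') (q : Fin n → Prop)
    {D₁ : DecidablePred fun y => Ym G v u v' u' y ∧ (rs G v u v' u' π).Adj a y ∧ q y}
    {D₂ : DecidablePred fun i : {y // y ∈ Yp G v u v' u'} => q i.1 ∧ π i = ⟨a, ha⟩} :
    (univ.filter fun y => Ym G v u v' u' y ∧ (rs G v u v' u' π).Adj a y ∧ q y).card =
      (univ.filter fun i : {y // y ∈ Yp G v u v' u'} => q i.1 ∧ π i = ⟨a, ha⟩).card := by
  symm
  refine card_bij (fun i _ => i.1) ?_ ?_ ?_
  · intro i hi
    simp only [mem_filter, mem_univ, true_and] at hi ⊢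
    refine ⟨mem_Yp.1 i.2, ?_, hi.1⟩
    rw [SimpleGraph.adj_comm, rs_YA π i.2 (mem_Ap.1 ha)]
    rw [show (⟨i.1, i.2⟩ : {y // y ∈ Yp G v u v' u'}) = i from rfl, hi.2]
  · intro i _ j _ hij; exact Subtype.ext hij
  · intro y hy
    simp only [mem_filter, mem_univ, true_and] at hy
    refine ⟨⟨y, mem_Yp.2 hy.1⟩, ?_, rfl⟩
    simp only [mem_filter, mem_univ, true_and]
    refine ⟨hy.2.2, ?_⟩
    have := hy.2.1
    rw [SimpleGraph.adj_comm, rs_YA π (mem_Yp.2 hy.1) (mem_Ap.1 ha)] at this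
    exact Subtype.ext this

/-- the fibre sizes -/
def sz (G : Gr n) (v u v' u' : Fin n) (b : {a // a ∈ Ap G v u v' u'}) : ℕ :=
  (univ.filter fun y => Ym G v u v' u' y ∧ G.Adj b.1 y).card

theorem rs_card_all (π : {y // y ∈ Yp G v u v' u'} → {a // a ∈ Ap G v u v' u'}) {a : Fin n}
    (ha : a ∈ Ap G v u v' u')
    {D₁ : DecidablePred fun y => Ym G v u v' u' y ∧ (rs G v u v' u' π).Adj a y}
    {D₂ : DecidablePred fun i : {y // y ∈ Yp G v u v' u'} => π i = ⟨a, ha⟩} :
    (univ.filter fun y => Ym G v u v' u' y ∧ (rs G v u v' u' π).Adj a y).card =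
      (univ.filter fun i : {y // y ∈ Yp G v u v' u'} => π i = ⟨a, ha⟩).card := by
  have h1 := rs_card π ha (fun _ => True) (D₁ := fun _ => Classical.propDecidable _)
    (D₂ := fun _ => Classical.propDecidable _)
  simp only [and_true, true_and] at h1
  convert h1

theorem rs_card' (π : {y // y ∈ Yp G v u v' u'} → {a // a ∈ Ap G v u v' u'}) (hπ : π ∈ fits (sz G v u v' u'))
    {a : Fin n} (ha : a ∈ Ap G v u v' u') :
    (univ.filter fun y => Ym G v u v' u' y ∧ (rs G v u v' u' π).Adj a y).card =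
      (univ.filter fun y => Ym G v u v' u' y ∧ G.Adj a y).card := by
  rw [rs_card_all π ha (D₂ := fun _ => Classical.propDecidable _)]
  simp only [fits, mem_filter, mem_univ, true_and] at hπ
  have := hπ ⟨a, ha⟩
  unfold sz at this
  convert this

theorem split_card (p q : Fin n → Prop) [DecidablePred p] :
    (univ.filter p).card = (univ.filter fun x => q x ∧ p x).card + (univ.filter fun x => ¬ q x ∧ p x).card := by
  rw [← card_filter_add_card_filter_not (s := univ.filter p) q, filter_filter, filter_filter]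
  congr 2 <;> · ext x; simp only [mem_filter, mem_univ, true_and]; tauto

theorem rs_reg {d : ℕ} (hG : G ∈ Reg n d)
    (π : {y // y ∈ Yp G v u v' u'} → {a // a ∈ Ap G v u v' u'}) (hπ : π ∈ fits (sz G v u v' u')) :
    rs G v u v' u' π ∈ Reg n d := by
  rw [mem_Reg] at *
  intro x
  rw [← hG x]
  have hs := rs_sim π
  unfold nb
  by_cases hA : Am G v u v' u' x
  · rw [split_card _ (fun y => Ym G v u v' u' y), split_card (fun w => G.Adj x w) (fun y => Ym G v u v' u' y),
      rs_card' π hπ (mem_Ap.2 hA)]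
    congr 2
    ext y
    simp only [mem_filter, mem_univ, true_and]
    refine and_congr_right fun hy => ?_
    exact rs_off π (fun h => hy h.2) (fun h => hA.not_Ym h.1)
  by_cases hY : Ym G v u v' u' x
  · rw [split_card _ (fun y => Am G v u v' u' y), split_card (fun w => G.Adj x w) (fun y => Am G v u v' u' y)]
    have e1 : ∀ {G₁ : Gr n}, (∃! a, Am G v u v' u' a ∧ G₁.Adj x a) →
        (univ.filter fun a => Am G v u v' u' a ∧ G₁.Adj x a).card = 1 := by
      rintro G₁ ⟨a, ha, hu⟩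
      rw [card_eq_one]
      refine ⟨a, ?_⟩
      ext b
      simp only [mem_filter, mem_univ, true_and, mem_singleton]
      exact ⟨fun h => hu b h, fun h => h ▸ ha⟩
    rw [e1 (hs.one x hY), e1 hY.unique]
    congr 2
    ext y
    simp only [mem_filter, mem_univ, true_and]
    refine and_congr_right fun hy => ?_
    exact rs_off π (fun h => hY.not_Am h.1) (fun h => hy h.2)
  · congr 1
    ext y
    simp only [mem_filter, mem_univ, true_and]
    exact rs_off π (fun h => hA h.1) (fun h => hY h.1)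

theorem rs_key (hvu : v ≠ u) (hvu' : v' ≠ u')
    (π : {y // y ∈ Yp G v u v' u'} → {a // a ∈ Ap G v u v' u'}) (hπ : π ∈ fits (sz G v u v' u')) :
    key v u v' u' (rs G v u v' u' π) = key v u v' u' G := by
  have hs := rs_sim π
  have hA := hs.am_iff hvu hvu'
  have hY := hs.ym_iff hvu hvu'
  unfold key
  rw [hs.Ap_eq hvu hvu', hs.Yp_eq hvu hvu']
  have e1 : core (rs G v u v' u' π) v u v' u' = core G v u v' u' := by
    ext x y
    simp only [core, hA, hY]
    constructor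
    · rintro ⟨h1, h2, h3⟩
      exact ⟨(rs_off π h2 h3).1 h1, h2, h3⟩
    · rintro ⟨h1, h2, h3⟩
      exact ⟨(rs_off π h2 h3).2 h1, h2, h3⟩
  have e2 : ss (rs G v u v' u' π) v u v' u' = ss G v u v' u' := by
    funext a
    unfold ss
    simp only [hA, hY]
    split_ifs with h
    · exact rs_card' π hπ (mem_Ap.2 h)
    · rfl
  rw [e1, e2]

theorem rs_inj {π π' : {y // y ∈ Yp G v u v' u'} → {a // a ∈ Ap G v u v' u'}}
    (h : rs G v u v' u' π = rs G v u v' u' π') : π = π' := by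
  funext i
  have h1 : (rs G v u v' u' π').Adj i.1 (π i).1 := by
    rw [← h, rs_YA π i.2 (mem_Ap.1 (π i).2)]
  rw [rs_YA π' i.2 (mem_Ap.1 (π i).2)] at h1
  exact Subtype.ext h1.symm

/-- marked vertices -/
def mkd (G : Gr n) (v u v' u' : Fin n) : Finset {y // y ∈ Yp G v u v' u'} :=
  univ.filter fun i => xf G v u i.1 = 1

/-- the target profile -/
def FF (G : Gr n) (v u v' u' : Fin n) (k : ℕ) : ℕ :=
  prof G v' u' k - (univ.filter fun a => ¬ Am G v u v' u' a ∧ G.Adj v a ∧ a ≠ u ∧ Xc G v u a = k).card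

theorem profile_eq (hvu : v ≠ u) (hvu' : v' ≠ u')
    (π : {y // y ∈ Yp G v u v' u'} → {a // a ∈ Ap G v u v' u'}) (hπ : π ∈ fits (sz G v u v' u')) (k : ℕ)
    (hp : prof (rs G v u v' u' π) v u k = prof (rs G v u v' u' π) v' u' k) :
    (univ.filter fun b => ((mkd G v u v' u').filter fun i => π i = b).card = k).card = FF G v u v' u' k := by
  have hs := rs_sim π
  have hA := hs.am_iff hvu hvu'
  have hY := hs.ym_iff hvu hvu'
  rw [hs.prof' hvu hvu'] at hp
  unfold FF
  rw [← hp]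
  unfold prof
  rw [split_card (fun a => (rs G v u v' u' π).Adj v a ∧ a ≠ u ∧ Xc (rs G v u v' u' π) v u a = k)
    (fun a => Am G v u v' u' a)]
  have e1 : (univ.filter fun a => ¬ Am G v u v' u' a ∧ (rs G v u v' u' π).Adj v a ∧ a ≠ u ∧
      Xc (rs G v u v' u' π) v u a = k).card =
      (univ.filter fun a => ¬ Am G v u v' u' a ∧ G.Adj v a ∧ a ≠ u ∧ Xc G v u a = k).card := by
    congr 1
    ext a
    simp only [mem_filter, mem_univ, true_and]
    refine and_congr_right fun hn => ?_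
    rw [hs.adj_v]
    refine and_congr_right fun hva => ?_
    rw [hs.Xc_off hvu hva hn]
  rw [e1, Nat.add_sub_cancel]
  refine card_bij (fun b _ => b.1) ?_ ?_ ?_
  · intro b hb
    simp only [mem_filter, mem_univ, true_and] at hb ⊢
    have hbA := mem_Ap.1 b.2
    refine ⟨hbA, hs.adj_v.2 hbA.adj, ?_, ?_⟩
    · rintro e; exact hbA.nex (Exm.self (Or.inl e))
    · rw [Xc_on hvu ((hA b.1).2 hbA)]
      simp only [hY, hs.xf_eq hvu]
      rw [rs_card π b.2 (fun y => xf G v u y = 1) (D₂ := fun _ => Classical.propDecidable _), ← hb]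
      congr 1
      ext i
      simp [mkd]
  · intro b _ c _ h; exact Subtype.ext h
  · intro a ha
    simp only [mem_filter, mem_univ, true_and] at ha
    obtain ⟨h1, h2, h3, h4⟩ := ha
    refine ⟨⟨a, mem_Ap.2 h1⟩, ?_, rfl⟩
    simp only [mem_filter, mem_univ, true_and]
    rw [← h4, Xc_on hvu ((hA a).2 h1)]
    simp only [hY, hs.xf_eq hvu]
    rw [rs_card π (mem_Ap.2 h1) (fun y => xf G v u y = 1) (D₂ := fun _ => Classical.propDecidable _)]
    congr 1
    ext i
    simp [mkd]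

/-- every graph with the same key is a resampling -/
theorem exists_rs {G' : Gr n} (h : key v u v' u' G' = key v u v' u' G) :
    ∃ π ∈ fits (sz G v u v' u'), rs G v u v' u' π = G' := by
  have hs := sim_of_key h
  have hex : ∀ i : {y // y ∈ Yp G v u v' u'}, ∃ b : {a // a ∈ Ap G v u v' u'}, G'.Adj i.1 b.1 := by
    intro i
    obtain ⟨a, ⟨ha, hia⟩, _⟩ := hs.one i.1 (mem_Yp.1 i.2)
    exact ⟨⟨a, mem_Ap.2 ha⟩, hia⟩
  choose π hπ using hex
  have huniq : ∀ (i : {y // y ∈ Yp G v u v' u'}) (a : Fin n), Am G v u v' u' a → (G'.Adj i.1 a ↔ (π i).1 = a) := by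
    intro i a ha
    constructor
    · intro hia
      exact (hs.one i.1 (mem_Yp.1 i.2)).unique ⟨mem_Ap.1 (π i).2, hπ i⟩ ⟨ha, hia⟩
    · rintro rfl; exact hπ i
  have hrs : rs G v u v' u' π = G' := by
    ext x y
    by_cases h1 : Am G v u v' u' x ∧ Ym G v u v' u' y
    · rw [SimpleGraph.adj_comm, rs_YA π (mem_Yp.2 h1.2) h1.1, ← huniq ⟨y, mem_Yp.2 h1.2⟩ x h1.1, G'.adj_comm]
    · by_cases h2 : Ym G v u v' u' x ∧ Am G v u v' u' y
      · rw [rs_YA π (mem_Yp.2 h2.1) h2.2, ← huniq ⟨x, mem_Yp.2 h2.1⟩ y h2.2]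
      · rw [rs_off π h1 h2, hs.off x y h1 h2]
  refine ⟨π, ?_, hrs⟩
  simp only [fits, mem_filter, mem_univ, true_and]
  intro b
  have h1 := rs_card_all π b.2 (D₁ := fun _ => Classical.propDecidable _)
    (D₂ := fun _ => Classical.propDecidable _)
  rw [show (⟨b.1, b.2⟩ : {a // a ∈ Ap G v u v' u'}) = b from rfl, hrs] at h1
  simp only [key, Prod.mk.injEq] at h
  obtain ⟨-, hA, hY, hss⟩ := h
  have h2 := congrFun hss b.1
  have hA' : ∀ a, Am G' v u v' u' a ↔ Am G v u v' u' a := fun a => by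
    rw [← mem_Ap, hA, mem_Ap]
  have hY' : ∀ a, Ym G' v u v' u' a ↔ Ym G v u v' u' a := fun a => by
    rw [← mem_Yp, hY, mem_Yp]
  unfold ss at h2
  simp only [hA', hY', mem_Ap.1 b.2, if_true] at h2
  unfold sz
  rw [← h2]
  have h3 := h1.symm
  convert h3 using 2
  ext y
  simp

/-- the orbit inequality -/
theorem fibre_bound {d : ℕ} (hG : G ∈ Reg n d) (hvu : v ≠ u) (hvu' : v' ≠ u') (I : Finset ℕ) (e : ℝ) (he : 0 ≤ e)
    (hocc : (((fits (sz G v u v' u')).filter fun π : {y // y ∈ Yp G v u v' u'} → {a // a ∈ Ap G v u v' u'} =>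
      ∀ k ∈ I, (univ.filter fun b => ((mkd G v u v' u').filter fun i => π i = b).card = k).card = FF G v u v' u' k).card : ℝ)
        ≤ e * (fits (sz G v u v' u') : Finset ({y // y ∈ Yp G v u v' u'} → {a // a ∈ Ap G v u v' u'})).card) :
    (((Reg n d).filter fun G' => key v u v' u' G' = key v u v' u' G ∧ ∀ k, prof G' v u k = prof G' v' u' k).card : ℝ)
      ≤ e * ((Reg n d).filter fun G' => key v u v' u' G' = key v u v' u' G).card := by
  have h1 : ((Reg n d).filter fun G' => key v u v' u' G' = key v u v' u' G ∧ ∀ k, prof G' v u k = prof G' v' u' k).card ≤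
      ((fits (sz G v u v' u')).filter fun π : {y // y ∈ Yp G v u v' u'} → {a // a ∈ Ap G v u v' u'} =>
      ∀ k ∈ I, (univ.filter fun b => ((mkd G v u v' u').filter fun i => π i = b).card = k).card = FF G v u v' u' k).card := by
    refine card_le_card_of_surjOn (fun π => rs G v u v' u' π) ?_
    intro G' hG'
    simp only [coe_filter, Set.mem_ofPred_eq] at hG'
    obtain ⟨π, hπ, hrs⟩ := exists_rs hG'.2.1
    refine ⟨π, ?_, hrs⟩
    simp only [coe_filter, Set.mem_ofPred_eq]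
    refine ⟨hπ, fun k _ => profile_eq hvu hvu' π hπ k ?_⟩
    rw [hrs]; exact hG'.2.2 k
  have h2 : (fits (sz G v u v' u') : Finset ({y // y ∈ Yp G v u v' u'} → {a // a ∈ Ap G v u v' u'})).card ≤
      ((Reg n d).filter fun G' => key v u v' u' G' = key v u v' u' G).card := by
    refine card_le_card_of_injOn (fun π => rs G v u v' u' π) ?_ ?_
    · intro π hπ
      simp only [coe_filter, Set.mem_ofPred_eq]
      exact ⟨rs_reg hG π hπ, rs_key hvu hvu' π hπ⟩
    · intro π _ π' _ h; exact rs_inj h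
  calc _ ≤ (((fits (sz G v u v' u')).filter fun π : {y // y ∈ Yp G v u v' u'} → {a // a ∈ Ap G v u v' u'} =>
      ∀ k ∈ I, (univ.filter fun b => ((mkd G v u v' u').filter fun i => π i = b).card = k).card = FF G v u v' u' k).card : ℝ) := by
        exact_mod_cast h1
    _ ≤ _ := hocc
    _ ≤ _ := by
      refine mul_le_mul_of_nonneg_left ?_ he
      exact_mod_cast h2

/-- from orbits to all regular graphs -/
theorem orbit_bound {d : ℕ} (P : Gr n → Prop) (Q : Gr n → Prop) (e : ℝ)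
    (h : ∀ G ∈ Reg n d, P G →
      (((Reg n d).filter fun G' => key v u v' u' G' = key v u v' u' G ∧ Q G').card : ℝ)
      ≤ e * ((Reg n d).filter fun G' => key v u v' u' G' = key v u v' u' G).card) (he : 0 ≤ e) :
    (((Reg n d).filter fun G => P G ∧ Q G).card : ℝ) ≤ e * (Reg n d).card := by
  have h1 := card_eq_sum_card_fiberwise (s := (Reg n d).filter fun G => P G ∧ Q G) (f := key v u v' u')
    (t := (Reg n d).image (key v u v' u')) (by
      intro G hG
      simp only [coe_filter, Set.mem_ofPred_eq] at hG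
      simp only [coe_image]
      exact ⟨G, hG.1, rfl⟩)
  have h2 := card_eq_sum_card_fiberwise (s := Reg n d) (f := key v u v' u')
    (t := (Reg n d).image (key v u v' u')) (by
      intro G hG
      simp only [coe_image]
      exact ⟨G, hG, rfl⟩)
  rw [h1, h2]
  push_cast
  rw [mul_sum]
  refine sum_le_sum fun κ _ => ?_
  by_cases hne : ∃ G ∈ Reg n d, P G ∧ key v u v' u' G = κ
  · obtain ⟨G, hG, hP, rfl⟩ := hne
    refine le_trans ?_ (h G hG hP)
    refine Nat.cast_le.2 (card_le_card ?_)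
    intro G' hG'
    simp only [mem_filter] at hG' ⊢
    exact ⟨hG'.1.1, hG'.2, hG'.1.2.2⟩
  · have : (((Reg n d).filter fun G => P G ∧ Q G).filter fun G => key v u v' u' G = κ) = ∅ := by
      rw [filter_eq_empty_iff]
      intro G hG hk
      simp only [mem_filter] at hG
      exact hne ⟨G, hG.1, hG.2.1, hk⟩
    rw [this]
    simp only [card_empty, Nat.cast_zero]
    positivity

end

end Pool.Agent.RRG.KEY
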