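import Pool.Agent.RRG.Key2

/-!
# KEY (MP_d15a9b_pr), part 3: counting in a typical graph
-/

open Finset Filter Topology
open scoped Classical

namespace Pool.Agent.RRG.KEY

noncomputable section

variable {n : ℕ}

theorem biU_le {α β : Type*} [DecidableEq β] (s : Finset α) (f : α → Finset β) (b : ℝ) (h : ∀ x ∈ s, ((f x).card : ℝ) ≤ b) :
    ((s.biUnion f).card : ℝ) ≤ s.card * b := by
  calc ((s.biUnion f).card : ℝ) ≤ ((∑ x ∈ s, (f x).card : ℕ) : ℝ) := by exact_mod_cast card_biUnion_le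
    _ = ∑ x ∈ s, ((f x).card : ℝ) := by push_cast; rfl
    _ ≤ ∑ x ∈ s, b := sum_le_sum h
    _ = s.card * b := by simp

theorem un_le {α : Type*} [DecidableEq α] (s t : Finset α) : ((s ∪ t).card : ℝ) ≤ s.card + t.card := by
  exact_mod_cast card_union_le s t

/-- common neighbours -/
def cn (G : Gr n) (x y : Fin n) : Finset (Fin n) := univ.filter fun a => G.Adj x a ∧ G.Adj y a
/-- second vertices of 3-paths -/
def p1 (G : Gr n) (x z : Fin n) : Finset (Fin n) := univ.filter fun a => ∃ b, P3 G x a b z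
/-- third vertices of 3-paths -/
def p2 (G : Gr n) (x z : Fin n) : Finset (Fin n) := univ.filter fun b => ∃ a, P3 G x a b z
/-- the sets of `TB3` -/
def S3 (G : Gr n) (x₁ x₂ x₃ : Fin n) : Finset (Fin n) := univ.filter fun y : Fin n =>
    y ≠ x₁ ∧ y ≠ x₂ ∧ y ≠ x₃ ∧ ¬ G.Adj x₁ y ∧ ¬ G.Adj x₂ y ∧ ¬ G.Adj x₃ y ∧
    ∃ t₁ t₂ t₃, t₁ ≠ t₂ ∧ t₁ ≠ t₃ ∧ t₂ ≠ t₃ ∧ G.Adj x₁ t₁ ∧ G.Adj x₂ t₂ ∧ G.Adj x₃ t₃ ∧
      G.Adj t₁ y ∧ G.Adj t₂ y ∧ G.Adj t₃ y

variable {G : Gr n} {K : ℕ} {K₃ c : ℝ} {d : ℕ}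

theorem cn_le (h : T1 K G) {x y : Fin n} (hxy : x ≠ y) : ((cn G x y).card : ℝ) ≤ K := by
  have := h x y hxy
  have e : cn G x y = nb G x ∩ nb G y := by ext a; simp [cn]
  rw [e]; exact_mod_cast this

theorem p1_le (h : TB2 K₃ G) {x z : Fin n} (hxz : x ≠ z) : ((p1 G x z).card : ℝ) ≤ K₃ * Real.log n := by
  refine le_trans ?_ (h x z hxz)
  have : p1 G x z ⊆ (univ.filter fun t : Fin n × Fin n => P3 G x t.1 t.2 z).image Prod.fst := by
    intro a ha
    simp only [p1, mem_filter, mem_univ, true_and] at ha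
    obtain ⟨b, hb⟩ := ha
    exact mem_image.2 ⟨(a, b), by simpa using hb, rfl⟩
  exact_mod_cast (card_le_card this).trans card_image_le

theorem p2_le (h : TB2 K₃ G) {x z : Fin n} (hxz : x ≠ z) : ((p2 G x z).card : ℝ) ≤ K₃ * Real.log n := by
  refine le_trans ?_ (h x z hxz)
  have : p2 G x z ⊆ (univ.filter fun t : Fin n × Fin n => P3 G x t.1 t.2 z).image Prod.snd := by
    intro b hb
    simp only [p2, mem_filter, mem_univ, true_and] at hb
    obtain ⟨a, ha⟩ := hb
    exact mem_image.2 ⟨(a, b), by simpa using ha, rfl⟩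
  exact_mod_cast (card_le_card this).trans card_image_le

theorem S3_le (h : TB3 G) (x₁ x₂ x₃ : Fin n) : ((S3 G x₁ x₂ x₃).card : ℝ) ≤ (n : ℝ) ^ (1 / 10 : ℝ) := by
  have := h x₁ x₂ x₃
  unfold S3
  exact this

variable {v u v' u' : Fin n}

/-- the exceptional roots -/
def XX (v u v' u' : Fin n) : Finset (Fin n) := ({u, v', u'} : Finset (Fin n)).filter fun x => x ≠ v

theorem XX_card : ((XX v u v' u').card : ℝ) ≤ 3 := by
  have : (XX v u v' u').card ≤ 3 := by
    refine (card_filter_le _ _).trans ?_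
    exact card_le_three
  exact_mod_cast this

/-- ends of bad 3-paths from `v` -/
def ZZ (G : Gr n) (v u v' u' : Fin n) : Finset (Fin n) :=
  (XX v u v' u' ∪ cn G u v ∪ (if u ≠ u' then cn G u u' else ∅)).filter fun z => z ≠ v

theorem ZZ_card (h : T1 K G) (hvu : v ≠ u) : ((ZZ G v u v' u').card : ℝ) ≤ 3 + 2 * K := by
  have h1 : ((ZZ G v u v' u').card : ℝ) ≤ ((XX v u v' u' ∪ cn G u v ∪ (if u ≠ u' then cn G u u' else ∅)).card : ℝ) := by
    exact_mod_cast card_filter_le _ _
  have h2 := un_le (XX v u v' u' ∪ cn G u v) (if u ≠ u' then cn G u u' else ∅)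
  have h3 := un_le (XX v u v' u') (cn G u v)
  have h4 := XX_card (v := v) (u := u) (v' := v') (u' := u')
  have h5 := cn_le h hvu.symm
  have h6 : (((if u ≠ u' then cn G u u' else ∅) : Finset (Fin n)).card : ℝ) ≤ K := by
    split_ifs with hu
    · exact cn_le h hu
    · simp
  linarith

/-- excluded neighbours of `v` -/
def EE (G : Gr n) (v u v' u' : Fin n) : Finset (Fin n) :=
  univ.filter fun a => G.Adj v a ∧ ¬ Am G v u v' u' a

def E1 (G : Gr n) (v u v' u' : Fin n) : Finset (Fin n) := (XX v u v' u').biUnion fun x => {x} ∪ cn G x v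
def E2 (G : Gr n) (v : Fin n) : Finset (Fin n) :=
  (univ.filter fun t : Fin n × Fin n => G.Adj v t.1 ∧ G.Adj v t.2 ∧ G.Adj t.1 t.2).image Prod.fst
def E3 (G : Gr n) (v u v' u' : Fin n) : Finset (Fin n) := (ZZ G v u v' u').biUnion fun z => p1 G v z
def SS (G : Gr n) (v u u' : Fin n) : Finset (Fin n) := S3 G v v u ∪ S3 G v u u ∪ S3 G v u u'
def E4 (G : Gr n) (v u u' : Fin n) : Finset (Fin n) := (SS G v u u').biUnion fun y => cn G y v

theorem SS_le (h : TB3 G) : ((SS G v u u').card : ℝ) ≤ 3 * (n : ℝ) ^ (1 / 10 : ℝ) := by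
  have h1 := un_le (S3 G v v u ∪ S3 G v u u) (S3 G v u u')
  have h2 := un_le (S3 G v v u) (S3 G v u u)
  have a1 := S3_le h v v u
  have a2 := S3_le h v u u
  have a3 := S3_le h v u u'
  unfold SS
  linarith

theorem SS_ne {y : Fin n} (h : y ∈ SS G v u u') : y ≠ v := by
  simp only [SS, S3, mem_union, mem_filter, mem_univ, true_and] at h
  rcases h with (h | h) | h <;> exact h.1

theorem two_of_ne_one {p : Fin n → Prop} [DecidablePred p] (h : (univ.filter p).card ≠ 1) {a : Fin n} (ha : p a) :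
    ∃ b, b ≠ a ∧ p b := by
  by_contra hn
  push Not at hn
  apply h
  rw [card_eq_one]
  refine ⟨a, ?_⟩
  ext b
  simp only [mem_filter, mem_univ, true_and, mem_singleton]
  constructor
  · intro hb
    by_contra hne
    exact hn b hne hb
  · rintro rfl; exact ha

theorem xf_pos_iff {y : Fin n} : xf G v u y ≠ 0 ↔ ∃ z, G.Adj y z ∧ G.Adj u z ∧ z ≠ v := by
  unfold xf
  rw [card_ne_zero]
  constructor
  · rintro ⟨z, hz⟩; exact ⟨z, by simpa using hz⟩
  · rintro ⟨z, hz⟩; exact ⟨z, by simpa using hz⟩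

theorem EE_sub (hvu : v ≠ u) (hvu' : v' ≠ u') (hne : (v, u) ≠ (v', u')) :
    EE G v u v' u' ⊆ E1 G v u v' u' ∪ E2 G v ∪ E3 G v u v' u' ∪ E4 G v u u' := by
  intro a ha
  simp only [EE, mem_filter, mem_univ, true_and] at ha
  obtain ⟨hva, hna⟩ := ha
  by_cases hex : Exm G v u v' u' a
  · rcases hex with h | ⟨x, hx, hxv, h⟩
    · subst h; exact absurd hva (G.loopless.irrefl a)
    · refine mem_union_left _ (mem_union_left _ (mem_union_left _ ?_))
      simp only [E1, mem_biUnion, XX, mem_filter, mem_insert, mem_singleton, mem_union, cn, mem_univ, true_and]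
      refine ⟨x, ⟨hx, hxv⟩, ?_⟩
      rcases h with h | h
      · left; exact h
      · right; exact ⟨h, hva⟩
  unfold Am at hna
  push Not at hna
  obtain ⟨y, hay, hyv, hng, hxf⟩ := hna hva hex
  obtain ⟨z, hyz, huz, hzv⟩ := xf_pos_iff.1 hxf
  have hau : a ≠ u := by rintro rfl; exact hex (Exm.self (Or.inl rfl))
  have hnua : ¬ G.Adj u a := fun h => hex (Exm.nb (Or.inl rfl) hvu.symm h)
  have haz : a ≠ z := by rintro rfl; exact hnua huz
  by_cases h1 : G.Adj v y
  · refine mem_union_left _ (mem_union_left _ (mem_union_right _ ?_))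
    simp only [E2, mem_image, mem_filter, mem_univ, true_and]
    exact ⟨(a, y), ⟨hva, h1, hay⟩, rfl⟩
  by_cases h2 : Exm G v u v' u' y
  · rcases h2 with h | ⟨x, hx, hxv, h⟩
    · exact absurd h hyv
    · rcases h with h | h
      · subst h; exact absurd (Exm.nb hx hxv hay.symm) hex
      · refine mem_union_left _ (mem_union_right _ ?_)
        simp only [E3, mem_biUnion, p1, mem_filter, mem_univ, true_and]
        refine ⟨x, ?_, y, hva, hay, h.symm, fun e => hyv e.symm, fun e => hxv e.symm, ?_⟩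
        · simp only [ZZ, XX, mem_filter, mem_union, mem_insert, mem_singleton]
          exact ⟨Or.inl (Or.inl ⟨hx, hxv⟩), hxv⟩
        · rintro rfl; exact hex (Exm.self hx)
  have hyu : y ≠ u := by rintro rfl; exact h2 (Exm.self (Or.inl rfl))
  have hnuy : ¬ G.Adj u y := fun h => h2 (Exm.nb (Or.inl rfl) hvu.symm h)
  by_cases h3 : (univ.filter fun a => G.Adj y a ∧ G.Adj v a).card = 1
  swap
  · obtain ⟨a₂, ha2, hya2, hva2⟩ := two_of_ne_one h3 (a := a) ⟨hay.symm, hva⟩
    by_cases hz : z = a₂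
    · subst hz
      refine mem_union_left _ (mem_union_right _ ?_)
      simp only [E3, mem_biUnion, p1, mem_filter, mem_univ, true_and]
      refine ⟨z, ?_, y, hva, hay, hyz, fun e => hyv e.symm, fun e => hzv e.symm, haz⟩
      simp only [ZZ, cn, mem_filter, mem_union, mem_univ, true_and]
      exact ⟨Or.inl (Or.inr ⟨huz, hva2⟩), hzv⟩
    · refine mem_union_right _ ?_
      simp only [E4, mem_biUnion]
      refine ⟨y, ?_, by simp [cn, hay.symm, hva]⟩
      simp only [SS, mem_union]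
      left; left
      simp only [S3, mem_filter, mem_univ, true_and]
      exact ⟨hyv, hyv, hyu, h1, h1, hnuy, a, a₂, z, ha2.symm, haz, fun e => hz e.symm, hva, hva2, huz,
        hay, hya2.symm, hyz.symm⟩
  by_cases h4 : xf G v u y ≤ 1
  swap
  · have h4' : (univ.filter fun z => G.Adj y z ∧ G.Adj u z ∧ z ≠ v).card ≠ 1 := by
      unfold xf at h4; omega
    obtain ⟨z₂, hz2, hyz2, huz2, hz2v⟩ := two_of_ne_one h4' (a := z) ⟨hyz, huz, hzv⟩
    refine mem_union_right _ ?_
    simp only [E4, mem_biUnion]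
    refine ⟨y, ?_, by simp [cn, hay.symm, hva]⟩
    simp only [SS, mem_union]
    left; right
    simp only [S3, mem_filter, mem_univ, true_and]
    refine ⟨hyv, hyu, hyu, h1, hnuy, hnuy, a, z, z₂, haz, ?_, hz2.symm, hva, huz, huz2,
        hay, hyz.symm, hyz2.symm⟩
    rintro rfl; exact hnua huz2
  have h5 : ¬ (v' = v → ∀ z, G.Adj u' z → z ≠ v → ¬ G.Adj y z) := fun h5 => hng ⟨h1, h2, h3, h4, h5⟩
  push Not at h5
  obtain ⟨hv, z', huz', hz'v, hyz'⟩ := h5
  have hu' : u' ≠ v := fun e => hvu' (hv.trans e.symm)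
  have huu' : u ≠ u' := by rintro rfl; exact hne (by rw [hv])
  have hnu'a : ¬ G.Adj u' a := fun h => hex (Exm.nb (Or.inr (Or.inr rfl)) hu' h)
  by_cases hz : z = z'
  · subst hz
    refine mem_union_left _ (mem_union_right _ ?_)
    simp only [E3, mem_biUnion, p1, mem_filter, mem_univ, true_and]
    refine ⟨z, ?_, y, hva, hay, hyz, fun e => hyv e.symm, fun e => hzv e.symm, haz⟩
    simp only [ZZ, cn, mem_filter, mem_union, huu', ne_eq, not_false_eq_true, if_true, mem_univ, true_and]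
    exact ⟨Or.inr ⟨huz, huz'⟩, hzv⟩
  · refine mem_union_right _ ?_
    simp only [E4, mem_biUnion]
    refine ⟨y, ?_, by simp [cn, hay.symm, hva]⟩
    simp only [SS, mem_union]
    right
    simp only [S3, mem_filter, mem_univ, true_and]
    refine ⟨hyv, hyu, ?_, h1, hnuy, fun h => h2 (Exm.nb (Or.inr (Or.inr rfl)) hu' h), a, z, z', haz, ?_, hz,
      hva, huz, huz', hay, hyz.symm, hyz'.symm⟩
    · rintro rfl; exact h2 (Exm.self (Or.inr (Or.inr rfl)))
    · rintro rfl; exact hnu'a huz'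

/-- bound for the number of excluded neighbours -/
def B1 (n K : ℕ) (K₃ : ℝ) : ℝ := 3 * (1 + K) + (n : ℝ) ^ (1 / 10 : ℝ) + (3 + 2 * K) * (K₃ * Real.log n) +
  3 * (n : ℝ) ^ (1 / 10 : ℝ) * K

theorem EE_le (hL : 0 ≤ K₃ * Real.log n) (hT : TypB K K₃ c n d G) (hvu : v ≠ u) (hvu' : v' ≠ u')
    (hne : (v, u) ≠ (v', u')) : ((EE G v u v' u').card : ℝ) ≤ B1 n K K₃ := by
  obtain ⟨t1, t2, t3, t4, t6, t5⟩ := hT
  have h0 : ((EE G v u v' u').card : ℝ) ≤ ((E1 G v u v' u' ∪ E2 G v ∪ E3 G v u v' u' ∪ E4 G v u u').card : ℝ) := by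
    exact_mod_cast card_le_card (EE_sub hvu hvu' hne)
  have h1 := un_le (E1 G v u v' u' ∪ E2 G v ∪ E3 G v u v' u') (E4 G v u u')
  have h2 := un_le (E1 G v u v' u' ∪ E2 G v) (E3 G v u v' u')
  have h3 := un_le (E1 G v u v' u') (E2 G v)
  have a1 : ((E1 G v u v' u').card : ℝ) ≤ 3 * (1 + K) := by
    unfold E1
    refine (biU_le _ _ (1 + K) ?_).trans ?_
    · intro x hx
      have hxv : x ≠ v := (mem_filter.1 hx).2
      have := un_le {x} (cn G x v)
      have h' := cn_le t1 hxv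
      simp only [card_singleton, Nat.cast_one] at this
      linarith
    · exact mul_le_mul_of_nonneg_right XX_card (by positivity)
  have a2 : ((E2 G v).card : ℝ) ≤ (n : ℝ) ^ (1 / 10 : ℝ) := by
    refine le_trans ?_ (t6 v)
    unfold E2
    exact_mod_cast card_image_le
  have a3 : ((E3 G v u v' u').card : ℝ) ≤ (3 + 2 * K) * (K₃ * Real.log n) := by
    unfold E3
    refine (biU_le _ _ (K₃ * Real.log n) ?_).trans ?_
    · intro z hz
      have hzv : z ≠ v := (mem_filter.1 hz).2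
      exact p1_le t2 hzv.symm
    · exact mul_le_mul_of_nonneg_right (ZZ_card t1 hvu) hL
  have a4 : ((E4 G v u u').card : ℝ) ≤ 3 * (n : ℝ) ^ (1 / 10 : ℝ) * K := by
    unfold E4
    refine (biU_le _ _ (K : ℝ) ?_).trans ?_
    · intro y hy
      exact cn_le t1 (SS_ne hy)
    · exact mul_le_mul_of_nonneg_right (SS_le t3) (by positivity)
  unfold B1
  linarith

/-- the fibre sizes are almost `d - 1` -/
theorem sz_ge (hG : G ∈ Reg n d) (hT : TypB K K₃ c n d G) (hL : 0 ≤ K₃ * Real.log n) (hvu : v ≠ u) (hvu' : v' ≠ u')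
    {a : Fin n} (hA : Am G v u v' u' a) :
    ((d : ℝ) - 1 - (univ.filter fun y => Ym G v u v' u' y ∧ G.Adj a y).card) ≤ 4 * K + 2 * (K₃ * Real.log n) := by
  obtain ⟨t1, t2, t3, t4, t6, t5⟩ := hT
  have hex := hA.nex
  have hva := hA.adj
  have hav : a ≠ v := by rintro rfl; exact G.loopless.irrefl a hva
  have hsub : nb G a ⊆ {v} ∪ (univ.filter fun y => Ym G v u v' u' y ∧ G.Adj a y) ∪
      (cn G v a ∪ (XX v u v' u').biUnion (fun x => cn G x a)) ∪ (p1 G a v ∪ (if a ≠ u' then p1 G a u' else ∅)) := by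
    intro y hy
    rw [mem_nb] at hy
    simp only [mem_union, mem_singleton, mem_filter, mem_univ, true_and]
    by_cases hyv : y = v
    · left; left; left; exact hyv
    by_cases hg : Good G v u v' u' y
    · left; left; right; exact ⟨⟨hg, a, hA, hy⟩, hy⟩
    have hxf := hA.2.2 y hy hyv hg
    by_cases h1 : G.Adj v y
    · left; right; left; simp [cn, h1, hy]
    by_cases h2 : Exm G v u v' u' y
    · rcases h2 with h | ⟨x, hx, hxv, h⟩
      · exact absurd h hyv
      · rcases h with h | h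
        · subst h; exact absurd (Exm.nb hx hxv hy.symm) hex
        · left; right; right
          simp only [mem_biUnion, XX, mem_filter, mem_insert, mem_singleton, cn, mem_univ, true_and]
          exact ⟨x, ⟨hx, hxv⟩, h, hy⟩
    right
    by_cases h3 : (univ.filter fun a => G.Adj y a ∧ G.Adj v a).card = 1
    swap
    · obtain ⟨a₂, ha2, hya2, hva2⟩ := two_of_ne_one h3 (a := a) ⟨hy.symm, hva⟩
      left
      simp only [p1, mem_filter, mem_univ, true_and]
      exact ⟨a₂, hy, hya2, hva2.symm, ha2.symm, hav, hyv⟩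
    have h5 : ¬ (v' = v → ∀ z, G.Adj u' z → z ≠ v → ¬ G.Adj y z) := fun h5 => hg ⟨h1, h2, h3, by omega, h5⟩
    push Not at h5
    obtain ⟨hv, z', huz', hz'v, hyz'⟩ := h5
    have hu' : u' ≠ v := fun e => hvu' (hv.trans e.symm)
    have hau' : a ≠ u' := by rintro rfl; exact hex (Exm.self (Or.inr (Or.inr rfl)))
    right
    simp only [hau', ne_eq, not_false_eq_true, if_true, p1, mem_filter, mem_univ, true_and]
    refine ⟨z', hy, hyz', huz'.symm, ?_, hau', ?_⟩
    · rintro rfl; exact hex (Exm.nb (Or.inr (Or.inr rfl)) hu' huz')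
    · rintro rfl; exact h2 (Exm.self (Or.inr (Or.inr rfl)))
  have hd : ((nb G a).card : ℝ) = d := by rw [mem_Reg.1 hG a]
  have h0 : ((nb G a).card : ℝ) ≤ (({v} ∪ (univ.filter fun y => Ym G v u v' u' y ∧ G.Adj a y) ∪
      (cn G v a ∪ (XX v u v' u').biUnion (fun x => cn G x a)) ∪ (p1 G a v ∪ (if a ≠ u' then p1 G a u' else ∅))).card : ℝ) := by
    exact_mod_cast card_le_card hsub
  have h1 := un_le ({v} ∪ (univ.filter fun y => Ym G v u v' u' y ∧ G.Adj a y) ∪
      (cn G v a ∪ (XX v u v' u').biUnion (fun x => cn G x a))) (p1 G a v ∪ (if a ≠ u' then p1 G a u' else ∅))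
  have h2 := un_le ({v} ∪ (univ.filter fun y => Ym G v u v' u' y ∧ G.Adj a y))
      (cn G v a ∪ (XX v u v' u').biUnion (fun x => cn G x a))
  have h3 := un_le {v} (univ.filter fun y => Ym G v u v' u' y ∧ G.Adj a y)
  have h4 := un_le (cn G v a) ((XX v u v' u').biUnion (fun x => cn G x a))
  have h5 := un_le (p1 G a v) (if a ≠ u' then p1 G a u' else ∅)
  have a1 := cn_le t1 hav.symm
  have a2 : (((XX v u v' u').biUnion (fun x => cn G x a)).card : ℝ) ≤ 3 * K := by
    refine (biU_le _ _ (K : ℝ) ?_).trans ?_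
    · intro x hx
      simp only [XX, mem_filter, mem_insert, mem_singleton] at hx
      refine cn_le t1 ?_
      rintro rfl
      exact hex (Exm.self hx.1)
    · exact mul_le_mul_of_nonneg_right XX_card (by positivity)
  have a3 := p1_le t2 hav
  have a4 : (((if a ≠ u' then p1 G a u' else ∅) : Finset (Fin n)).card : ℝ) ≤ K₃ * Real.log n := by
    split_ifs with hu
    · exact p1_le t2 hu
    · simpa using hL
  simp only [card_singleton, Nat.cast_one] at h3
  linarith

/-- marked vertices, as vertices -/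
def MM (G : Gr n) (v u v' u' : Fin n) : Finset (Fin n) :=
  univ.filter fun y => Ym G v u v' u' y ∧ xf G v u y = 1

theorem mkd_card : (mkd G v u v' u').card = (MM G v u v' u').card := by
  refine card_bij (fun i _ => i.1) ?_ ?_ ?_
  · intro i hi
    simp only [mkd, MM, mem_filter, mem_univ, true_and] at hi ⊢
    exact ⟨mem_Yp.1 i.2, hi⟩
  · intro i _ j _ h; exact Subtype.ext h
  · intro y hy
    simp only [MM, mem_filter, mem_univ, true_and] at hy
    exact ⟨⟨y, mem_Yp.2 hy.1⟩, by simpa [mkd] using hy.2, rfl⟩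

theorem MM_le (hT : TypB K K₃ c n d G) (hvu : v ≠ u) : ((MM G v u v' u').card : ℝ) ≤ 30 * lam n d := by
  obtain ⟨t1, t2, t3, t4, t6, t5⟩ := hT
  refine le_trans ?_ (t4 v u hvu)
  refine Nat.cast_le.2 (card_le_card ?_)
  intro y hy
  simp only [MM, mem_filter, mem_univ, true_and] at hy ⊢
  obtain ⟨hY, hx⟩ := hy
  obtain ⟨z, hyz, huz, hzv⟩ := xf_pos_iff.1 (show xf G v u y ≠ 0 by omega)
  have hex := hY.nex
  have hnv := hY.nadj
  obtain ⟨hg, a, ha, hay⟩ := hY
  refine ⟨?_, ?_, hnv, ?_, a, z, ?_, ha.adj, huz, hay, hyz.symm⟩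
  · rintro rfl; exact hex Exm.root
  · rintro rfl; exact hex (Exm.self (Or.inl rfl))
  · intro h; exact hex (Exm.nb (Or.inl rfl) hvu.symm h)
  · rintro rfl; exact ha.nex (Exm.nb (Or.inl rfl) hvu.symm huz)

/-- bad second vertices -/
def WW (G : Gr n) (v u v' u' : Fin n) : Finset (Fin n) :=
  (EE G v u v' u' ∪ XX v u v' u' ∪ (if v ≠ u' then cn G v u' else ∅)).filter fun x => x ≠ u

/-- the `FIVELOW` set -/
def FL (G : Gr n) (v u : Fin n) : Finset (Fin n) := univ.filter fun y : Fin n =>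
      y ≠ v ∧ y ≠ u ∧ ¬ G.Adj v y ∧ ¬ G.Adj u y ∧
      (∃ a, G.Adj v a ∧ a ≠ u ∧ ¬ G.Adj u a ∧ G.Adj a y) ∧
      (∃ z, G.Adj u z ∧ z ≠ v ∧ ¬ G.Adj v z ∧ G.Adj z y)

theorem FL_sub (hvu : v ≠ u) (hvu' : v' ≠ u') (hne : (v, u) ≠ (v', u')) :
    FL G v u ⊆ MM G v u v' u' ∪ SS G v u u' ∪ XX v u v' u' ∪ (ZZ G v u v' u').biUnion (fun z => p2 G v z) ∪
      (WW G v u v' u').biUnion (fun x => p1 G x u) := by
  intro y hy
  simp only [FL, mem_filter, mem_univ, true_and] at hy
  obtain ⟨hyv, hyu, hnv, hnu, ⟨a, hva, hau, hnua, hay⟩, z, huz, hzv, hnvz, hzy⟩ := hy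
  have haz : a ≠ z := by rintro rfl; exact hnua huz
  by_cases h2 : Exm G v u v' u' y
  · rcases h2 with h | ⟨x, hx, hxv, h⟩
    · exact absurd h hyv
    rcases h with h | h
    · refine mem_union_left _ (mem_union_left _ (mem_union_right _ ?_))
      simp only [XX, mem_filter, mem_insert, mem_singleton]
      exact ⟨by rwa [h], hyv⟩
    · by_cases hax : a = x
      · subst hax
        refine mem_union_right _ ?_
        simp only [mem_biUnion]
        refine ⟨a, ?_, ?_⟩
        · simp only [WW, XX, mem_filter, mem_union, mem_insert, mem_singleton]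
          exact ⟨Or.inl (Or.inr ⟨hx, hxv⟩), hau⟩
        · simp only [p1, mem_filter, mem_univ, true_and]
          exact ⟨z, hay, hzy.symm, huz.symm, haz, hau, hyu⟩
      · refine mem_union_left _ (mem_union_right _ ?_)
        simp only [mem_biUnion]
        refine ⟨x, ?_, ?_⟩
        · simp only [ZZ, XX, mem_filter, mem_union, mem_insert, mem_singleton]
          exact ⟨Or.inl (Or.inl ⟨hx, hxv⟩), hxv⟩
        · simp only [p2, mem_filter, mem_univ, true_and]
          exact ⟨a, hva, hay, h.symm, fun e => hyv e.symm, fun e => hxv e.symm, hax⟩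
  by_cases h3 : (univ.filter fun a => G.Adj y a ∧ G.Adj v a).card = 1
  swap
  · obtain ⟨a₂, ha2, hya2, hva2⟩ := two_of_ne_one h3 (a := a) ⟨hay.symm, hva⟩
    refine mem_union_left _ (mem_union_left _ (mem_union_left _ (mem_union_right _ ?_)))
    simp only [SS, mem_union]
    left; left
    simp only [S3, mem_filter, mem_univ, true_and]
    refine ⟨hyv, hyv, hyu, hnv, hnv, hnu, a, a₂, z, ha2.symm, haz, ?_, hva, hva2, huz,
      hay, hya2.symm, hzy⟩
    rintro rfl; exact hnvz hva2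
  by_cases h4 : xf G v u y ≤ 1
  swap
  · have h4' : (univ.filter fun z => G.Adj y z ∧ G.Adj u z ∧ z ≠ v).card ≠ 1 := by
      unfold xf at h4; omega
    obtain ⟨z₂, hz2, hyz2, huz2, hz2v⟩ := two_of_ne_one h4' (a := z) ⟨hzy.symm, huz, hzv⟩
    refine mem_union_left _ (mem_union_left _ (mem_union_left _ (mem_union_right _ ?_)))
    simp only [SS, mem_union]
    left; right
    simp only [S3, mem_filter, mem_univ, true_and]
    refine ⟨hyv, hyu, hyu, hnv, hnu, hnu, a, z, z₂, haz, ?_, hz2.symm, hva, huz, huz2,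
        hay, hzy, hyz2.symm⟩
    rintro rfl; exact hnua huz2
  by_cases h5 : (v' = v → ∀ z, G.Adj u' z → z ≠ v → ¬ G.Adj y z)
  swap
  · push Not at h5
    obtain ⟨hv, z', huz', hz'v, hyz'⟩ := h5
    have hu' : u' ≠ v := fun e => hvu' (hv.trans e.symm)
    have huu' : u ≠ u' := by rintro rfl; exact hne (by rw [hv])
    by_cases hz : z = z'
    · subst hz
      refine mem_union_left _ (mem_union_right _ ?_)
      simp only [mem_biUnion]
      refine ⟨z, ?_, ?_⟩
      · simp only [ZZ, cn, mem_filter, mem_union, huu', ne_eq, not_false_eq_true, if_true, mem_univ, true_and]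
        exact ⟨Or.inr ⟨huz, huz'⟩, hzv⟩
      · simp only [p2, mem_filter, mem_univ, true_and]
        exact ⟨a, hva, hay, hzy.symm, fun e => hyv e.symm, fun e => hzv e.symm, haz⟩
    by_cases haz' : a = z'
    · subst haz'
      refine mem_union_right _ ?_
      simp only [mem_biUnion]
      refine ⟨a, ?_, ?_⟩
      · simp only [WW, cn, mem_filter, mem_union, hu'.symm, ne_eq, not_false_eq_true, if_true, mem_univ, true_and]
        exact ⟨Or.inr ⟨hva, huz'⟩, hau⟩
      · simp only [p1, mem_filter, mem_univ, true_and]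
        exact ⟨z, hay, hzy.symm, huz.symm, haz, hau, hyu⟩
    refine mem_union_left _ (mem_union_left _ (mem_union_left _ (mem_union_right _ ?_)))
    simp only [SS, mem_union]
    right
    simp only [S3, mem_filter, mem_univ, true_and]
    refine ⟨hyv, hyu, ?_, hnv, hnu, fun h => h2 (Exm.nb (Or.inr (Or.inr rfl)) hu' h), a, z, z', haz, haz', hz,
      hva, huz, huz', hay, hzy, hyz'.symm⟩
    rintro rfl; exact h2 (Exm.self (Or.inr (Or.inr rfl)))
  have hg : Good G v u v' u' y := ⟨hnv, h2, h3, h4, h5⟩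
  by_cases hA : Am G v u v' u' a
  · refine mem_union_left _ (mem_union_left _ (mem_union_left _ (mem_union_left _ ?_)))
    simp only [MM, mem_filter, mem_univ, true_and]
    have : xf G v u y ≠ 0 := xf_pos_iff.2 ⟨z, hzy.symm, huz, hzv⟩
    exact ⟨⟨hg, a, hA, hay⟩, by omega⟩
  · refine mem_union_right _ ?_
    simp only [mem_biUnion]
    refine ⟨a, ?_, ?_⟩
    · simp only [WW, EE, mem_filter, mem_union, mem_univ, true_and]
      exact ⟨Or.inl (Or.inl ⟨hva, hA⟩), hau⟩
    · simp only [p1, mem_filter, mem_univ, true_and]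
      exact ⟨z, hay, hzy.symm, huz.symm, haz, hau, hyu⟩

def B2 (n K : ℕ) (K₃ : ℝ) : ℝ := 3 * (n : ℝ) ^ (1 / 10 : ℝ) + 3 + (3 + 2 * K) * (K₃ * Real.log n) +
  (B1 n K K₃ + 3 + K) * (K₃ * Real.log n)

theorem MM_ge (hL : 0 ≤ K₃ * Real.log n) (hT : TypB K K₃ c n d G) (hvu : v ≠ u) (hvu' : v' ≠ u')
    (hne : (v, u) ≠ (v', u')) (hadj : G.Adj v u) : c * lam n d ≤ (MM G v u v' u').card + B2 n K K₃ := by
  have hEE := EE_le hL hT hvu hvu' hne
  obtain ⟨t1, t2, t3, t4, t6, t5⟩ := hT
  refine (t5 v u hadj).trans ?_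
  change ((FL G v u).card : ℝ) ≤ _
  have h0 : ((FL G v u).card : ℝ) ≤ ((MM G v u v' u' ∪ SS G v u u' ∪ XX v u v' u' ∪
      (ZZ G v u v' u').biUnion (fun z => p2 G v z) ∪ (WW G v u v' u').biUnion (fun x => p1 G x u)).card : ℝ) := by
    exact_mod_cast card_le_card (FL_sub hvu hvu' hne)
  have h1 := un_le (MM G v u v' u' ∪ SS G v u u' ∪ XX v u v' u' ∪
      (ZZ G v u v' u').biUnion (fun z => p2 G v z)) ((WW G v u v' u').biUnion (fun x => p1 G x u))
  have h2 := un_le (MM G v u v' u' ∪ SS G v u u' ∪ XX v u v' u')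
      ((ZZ G v u v' u').biUnion (fun z => p2 G v z))
  have h3 := un_le (MM G v u v' u' ∪ SS G v u u') (XX v u v' u')
  have h4 := un_le (MM G v u v' u') (SS G v u u')
  have a1 := XX_card (v := v) (u := u) (v' := v') (u' := u')
  have a2 := SS_le (v := v) (u := u) (u' := u') t3
  have a3 : (((ZZ G v u v' u').biUnion (fun z => p2 G v z)).card : ℝ) ≤ (3 + 2 * K) * (K₃ * Real.log n) := by
    refine (biU_le _ _ (K₃ * Real.log n) ?_).trans ?_
    · intro z hz
      have hzv : z ≠ v := (mem_filter.1 hz).2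
      exact p2_le t2 hzv.symm
    · exact mul_le_mul_of_nonneg_right (ZZ_card t1 hvu) hL
  have a4 : ((WW G v u v' u').card : ℝ) ≤ B1 n K K₃ + 3 + K := by
    have b1 : ((WW G v u v' u').card : ℝ) ≤
        ((EE G v u v' u' ∪ XX v u v' u' ∪ (if v ≠ u' then cn G v u' else ∅)).card : ℝ) := by
      exact_mod_cast card_filter_le _ _
    have b2 := un_le (EE G v u v' u' ∪ XX v u v' u') (if v ≠ u' then cn G v u' else ∅)
    have b3 := un_le (EE G v u v' u') (XX v u v' u')
    have b4 : (((if v ≠ u' then cn G v u' else ∅) : Finset (Fin n)).card : ℝ) ≤ K := by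
      split_ifs with hu
      · exact cn_le t1 hu
      · simp
    linarith
  have a5 : (((WW G v u v' u').biUnion (fun x => p1 G x u)).card : ℝ) ≤ (B1 n K K₃ + 3 + K) * (K₃ * Real.log n) := by
    refine (biU_le _ _ (K₃ * Real.log n) ?_).trans ?_
    · intro x hx
      have hxu : x ≠ u := (mem_filter.1 hx).2
      exact p1_le t2 hxu
    · exact mul_le_mul_of_nonneg_right a4 hL
  unfold B2
  linarith

end

end Pool.Agent.RRG.KEY
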