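import Pool.Agent.RRG.Basic

/-!
# Using LOW class by class (MP_d15a9b_pr)
-/

open Finset Filter Topology
open scoped Classical

namespace Pool.Agent.RRG.LowTools

variable {n : ℕ}

/-- `G` and `G₀` have the same edges at `R`. -/
def Same (R : Finset (Fin n)) (G G₀ : Gr n) : Prop := ∀ r ∈ R, ∀ x, G.Adj r x ↔ G₀.Adj r x

/-- class by class bound -/
theorem class_bound {d : ℕ} (R : Gr n → Finset (Fin n))
    (hloc : ∀ G G' : Gr n, Same (R G) G' G → R G' = R G) (Bad : Gr n → Prop) [DecidablePred Bad] (ε : ℝ)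
    (h : ∀ G₀ ∈ Reg n d, Bad G₀ →
      (((Reg n d).filter fun G => Same (R G₀) G G₀ ∧ Bad G).card : ℝ)
        ≤ ε * ((Reg n d).filter fun G => Same (R G₀) G G₀).card) (hε : 0 ≤ ε) :
    (((Reg n d).filter fun G => Bad G).card : ℝ) ≤ ε * (Reg n d).card := by
  let Φ : Gr n → Finset (Fin n) × Finset (Fin n × Fin n) := fun G =>
    (R G, univ.filter fun t : Fin n × Fin n => t.1 ∈ R G ∧ G.Adj t.1 t.2)
  have hΦ : ∀ G G₀ : Gr n, Φ G = Φ G₀ ↔ Same (R G₀) G G₀ := by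
    intro G G₀
    constructor
    · intro he
      have h1 : R G = R G₀ := congrArg Prod.fst he
      have h2 : (univ.filter fun t : Fin n × Fin n => t.1 ∈ R G ∧ G.Adj t.1 t.2)
        = (univ.filter fun t : Fin n × Fin n => t.1 ∈ R G₀ ∧ G₀.Adj t.1 t.2) := congrArg Prod.snd he
      intro r hr x
      have h3 : ((r, x) : Fin n × Fin n) ∈ (univ.filter fun t : Fin n × Fin n => t.1 ∈ R G ∧ G.Adj t.1 t.2)
        ↔ ((r, x) : Fin n × Fin n) ∈ (univ.filter fun t : Fin n × Fin n => t.1 ∈ R G₀ ∧ G₀.Adj t.1 t.2) := by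
        rw [h2]
      simp only [mem_filter, mem_univ, true_and, h1] at h3
      constructor
      · intro h4; exact (h3.1 ⟨hr, h4⟩).2
      · intro h4; exact (h3.2 ⟨hr, h4⟩).2
    · intro hs
      have h1 := hloc G₀ G hs
      refine Prod.ext h1 ?_
      ext t
      simp only [Φ, mem_filter, mem_univ, true_and, h1]
      constructor
      · rintro ⟨a, b⟩; exact ⟨a, (hs _ a _).1 b⟩
      · rintro ⟨a, b⟩; exact ⟨a, (hs _ a _).2 b⟩
  have e1 : (((Reg n d).filter fun G => Bad G).card : ℝ)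
      = ∑ k ∈ univ, ((((Reg n d).filter fun G => Bad G).filter fun G => Φ G = k).card : ℝ) := by
    rw [← Nat.cast_sum, ← card_eq_sum_card_fiberwise (fun _ _ => mem_univ _)]
  have e2 : ((Reg n d).card : ℝ) = ∑ k ∈ univ, (((Reg n d).filter fun G => Φ G = k).card : ℝ) := by
    rw [← Nat.cast_sum, ← card_eq_sum_card_fiberwise (fun _ _ => mem_univ _)]
  rw [e1, e2, mul_sum]
  refine sum_le_sum fun k _ => ?_
  by_cases hk : ∃ G₀ ∈ Reg n d, Bad G₀ ∧ Φ G₀ = k
  · obtain ⟨G₀, h0, hb, rfl⟩ := hk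
    have := h G₀ h0 hb
    have a1 : (((Reg n d).filter fun G => Bad G).filter fun G => Φ G = Φ G₀)
        = (Reg n d).filter fun G => Same (R G₀) G G₀ ∧ Bad G := by
      ext G
      simp only [mem_filter, hΦ]
      tauto
    have a2 : ((Reg n d).filter fun G => Φ G = Φ G₀) = (Reg n d).filter fun G => Same (R G₀) G G₀ := by
      ext G
      simp only [mem_filter, hΦ]
    rw [a1, a2]
    exact this
  · have : (((Reg n d).filter fun G => Bad G).filter fun G => Φ G = k) = ∅ := by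
      rw [filter_eq_empty_iff]
      intro G hG he
      simp only [mem_filter] at hG
      exact hk ⟨G, hG.1, hG.2, he⟩
    rw [this]
    simp only [card_empty, CharP.cast_eq_zero]
    positivity

/-- LOW, class by class -/
theorem low_class (hLow : Stmt_Low) {d : ℕ} (hd : 0 < d) (h64 : 64 * d ≤ n) (R : Gr n → Finset (Fin n))
    (hloc : ∀ G G' : Gr n, Same (R G) G' G → R G' = R G) (Bad : Gr n → Prop) [DecidablePred Bad] (t : ℝ)
    (h : ∀ G₀ ∈ Reg n d, Bad G₀ → ∃ A S : Finset (Fin n), Disjoint A S ∧ Disjoint A (R G₀) ∧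
      Disjoint S (R G₀) ∧ 100 * d ≤ A.card ∧ 10 * A.card ≤ n ∧ 10 * S.card ≤ n ∧
      (∀ x ∈ A ∪ S, 4 * (nb G₀ x ∩ R G₀).card ≤ d) ∧ t ≤ (A.card : ℝ) * S.card * d / (32 * n) ∧
      ∀ G ∈ Reg n d, Same (R G₀) G G₀ → Bad G →
        64 * (n : ℝ) * (((A ×ˢ S).filter fun t => G.Adj t.1 t.2).card : ℝ) ≤ (A.card : ℝ) * S.card * d) :
    (((Reg n d).filter fun G => Bad G).card : ℝ) ≤ 4 * (2 : ℝ) ^ (-t) * (Reg n d).card := by
  refine class_bound R hloc Bad (4 * (2 : ℝ) ^ (-t)) ?_ (by positivity)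
  intro G₀ h0 hb
  obtain ⟨A, S, a1, a2, a3, a4, a5, a6, a7, a8, a9⟩ := h G₀ h0 hb
  have := hLow n d G₀ (R G₀) A S hd h64 h0 a1 a2 a3 a4 a5 a6 a7
  have hsub : ((Reg n d).filter fun G => Same (R G₀) G G₀ ∧ Bad G) ⊆
      ((Reg n d).filter fun G => (∀ r ∈ R G₀, ∀ x, G.Adj r x ↔ G₀.Adj r x) ∧
        64 * (n : ℝ) * (((A ×ˢ S).filter fun t => G.Adj t.1 t.2).card : ℝ) ≤ (A.card : ℝ) * S.card * d) := by
    intro G hG
    simp only [mem_filter] at hG ⊢
    exact ⟨hG.1, hG.2.1, a9 G hG.1 hG.2.1 hG.2.2⟩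
  have h1 : (((Reg n d).filter fun G => Same (R G₀) G G₀ ∧ Bad G).card : ℝ) ≤
      (((Reg n d).filter fun G => (∀ r ∈ R G₀, ∀ x, G.Adj r x ↔ G₀.Adj r x) ∧
        64 * (n : ℝ) * (((A ×ˢ S).filter fun t => G.Adj t.1 t.2).card : ℝ) ≤ (A.card : ℝ) * S.card * d).card : ℝ) :=
    Nat.cast_le.2 (card_le_card hsub)
  refine h1.trans (this.trans ?_)
  have h2 : (2 : ℝ) ^ (-((A.card : ℝ) * S.card * d / (32 * n))) ≤ (2 : ℝ) ^ (-t) :=
    Real.rpow_le_rpow_of_exponent_le (by norm_num) (by linarith)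
  have h3 : 4 * (2 : ℝ) ^ (-((A.card : ℝ) * S.card * d / (32 * n))) ≤ 4 * (2 : ℝ) ^ (-t) := by linarith
  have h4 : ((Reg n d).filter fun G => ∀ r ∈ R G₀, ∀ x, G.Adj r x ↔ G₀.Adj r x)
      = ((Reg n d).filter fun G => Same (R G₀) G G₀) := by
    ext G
    rw [mem_filter, mem_filter]
    exact Iff.rfl
  rw [h4]
  exact mul_le_mul_of_nonneg_right h3 (Nat.cast_nonneg (α := ℝ) _)

/-- superpolynomial decay -/
theorem tend_zero (C a β s : ℝ) (ha : 0 < a) (hβ : 0 < β) :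
    Tendsto (fun n : ℕ => C * (n : ℝ) ^ s * (2 : ℝ) ^ (-(a * (n : ℝ) ^ β))) atTop (𝓝 0) := by
  have h1 : Tendsto (fun x : ℝ => x ^ (s / β) * Real.exp (-(a * Real.log 2) * x)) atTop (𝓝 0) :=
    tendsto_rpow_mul_exp_neg_mul_atTop_nhds_zero _ _ (by positivity)
  have h2 : Tendsto (fun n : ℕ => (n : ℝ) ^ β) atTop atTop :=
    (tendsto_rpow_atTop hβ).comp tendsto_natCast_atTop_atTop
  have h3 := (h1.comp h2).const_mul C
  rw [mul_zero] at h3
  refine h3.congr fun n => ?_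
  simp only [Function.comp_apply]
  rw [← Real.rpow_mul (Nat.cast_nonneg n), mul_div_cancel₀ _ hβ.ne', mul_assoc]
  congr 2
  rw [Real.rpow_def_of_pos (by norm_num : (0 : ℝ) < 2)]
  congr 1
  ring

/-- degree of a vertex -/
theorem card_nb {d : ℕ} {G : Gr n} (h : G ∈ Reg n d) (v : Fin n) : (nb G v).card = d := mem_Reg.1 h v

/-- double counting: if every `a ∈ P` has at least `p` partners in `A` and every `b ∈ A` has at most `q`
partners in `P`, then `p |P| ≤ q |A|`. -/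
theorem double_count {α β : Type} (P : Finset α) (A : Finset β) (r : α → β → Prop) (p q : ℕ)
    (h1 : ∀ a ∈ P, p ≤ (A.filter fun b => r a b).card) (h2 : ∀ b ∈ A, (P.filter fun a => r a b).card ≤ q) :
    P.card * p ≤ A.card * q := by
  have h := Finset.card_mul_le_card_mul (s := P) (t := A) r (m := p) (n := q) ?_ ?_
  · exact h
  · intro a ha
    simpa [bipartiteAbove] using h1 a ha
  · intro b hb
    simpa [bipartiteBelow] using h2 b hb

end Pool.Agent.RRG.LowTools
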