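import Pool.Agent.RRG.Recon

/-!
# Assembly (MP_d15a9b_pr)
-/

open Finset Filter Topology
open scoped Classical

namespace Pool.Agent.RRG

open Pool.Agent.Shotgun

namespace Main

theorem Reg_eq (n d : ℕ) : RegularGraphs n d = Reg n d := by
  ext G
  have e : ∀ v, (nb G v).card = G.degree v := by
    intro v
    have : nb G v = G.neighborFinset v := by
      ext w; simp [nb]
    rw [this, SimpleGraph.card_neighborFinset_eq_degree]
  rw [mem_Reg]
  simp only [e]
  simp only [RegularGraphs, mem_filter, mem_univ, true_and]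
  rfl

/-- the counting form of the main theorem -/
theorem counting (hD1 : Stmt_D1) (hD2 : Stmt_D2) (hAd : Stmt_Adet) (hA1 : Stmt_A1) (hA2 : Stmt_A2)
    (hBd : Stmt_Bdet) (hB : Stmt_B) (hC : Stmt_C) :
    ∀ ε : ℝ, 0 < ε → ∀ η : ℝ, 0 < η → ∃ n₀ : ℕ, ∀ n ≥ n₀, ∀ d : ℕ, (n : ℝ) ^ (1 / 4 + ε) ≤ d → 2 * d ≤ n →
      (((Reg n d).filter fun G => ¬ Reconstructable 2 G).card : ℝ) ≤ η * (Reg n d).card := by
  intro ε hε η hη
  obtain ⟨CD, hCD, wD2⟩ := hD2
  obtain ⟨CA, hCA, wA1⟩ := hA1
  obtain ⟨κ, hκ, wB⟩ := hB CA hCA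
  obtain ⟨n₁, h1⟩ := hD1 η hη
  obtain ⟨n₂, h2⟩ := wD2 η hη
  obtain ⟨n₃, h3⟩ := wA1 η hη
  obtain ⟨n₄, h4⟩ := hA2 CD hCD η hη
  obtain ⟨n₅, h5⟩ := wB η hη
  obtain ⟨n₆, h6⟩ := hC ε κ hε hκ η hη
  refine ⟨1 + n₁ + n₂ + n₃ + n₄ + n₅ + n₆, fun n hn d hd hd2 => ?_⟩
  have hn1 : (1 : ℝ) ≤ n := by exact_mod_cast (show 1 ≤ n by omega)
  have key : ∀ P : Gr n → Prop, (∀ G ∈ Reg n d, P G → Reconstructable 2 G) →
      (((Reg n d).filter fun G => ¬ P G).card : ℝ) ≤ η * (Reg n d).card →
      (((Reg n d).filter fun G => ¬ Reconstructable 2 G).card : ℝ) ≤ η * (Reg n d).card := by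
    intro P hP hb
    refine le_trans ?_ hb
    refine Nat.cast_le.2 (card_le_card ?_)
    intro G hG
    simp only [mem_filter] at hG ⊢
    exact ⟨hG.1, fun h => hG.2 (hP G hG.1 h)⟩
  by_cases c1 : n ≤ 256 * d
  · exact key _ (fun G _ h => Recon.of_diam h) (h1 n (by omega) d ⟨c1, hd2⟩)
  by_cases c2 : CD * Real.sqrt (n * Real.log n) ≤ d
  · exact key _ (fun G _ h => Recon.of_diam h) (h2 n (by omega) d ⟨c2, by omega⟩)
  by_cases c3 : (n : ℝ) ^ (0.42 : ℝ) ≤ d
  · exact key _ (fun G hG h => Recon.of_rigid (hAd n d G hG (Or.inr h))) (h4 n (by omega) d ⟨c3, (not_le.1 c2).le⟩)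
  by_cases c4 : CA * n ≤ (d : ℝ) ^ 3
  · refine key _ (fun G hG h => Recon.of_rigid (hAd n d G hG (Or.inl h))) (h3 n (by omega) d ⟨c4, ?_⟩)
    exact (not_le.1 c3).le.trans (Real.rpow_le_rpow_of_exponent_le hn1 (by norm_num))
  by_cases c5 : (n : ℝ) ^ (1 - κ) ≤ (d : ℝ) ^ 3
  · exact key _ (fun G hG h => Recon.of_rigid (hBd n d G hG h)) (h5 n (by omega) d ⟨c5, (not_le.1 c4).le⟩)
  · exact key _ (fun G hG h => Recon.of_rigid h) (h6 n (by omega) d ⟨hd, (not_le.1 c5).le⟩)

/-! ### existence of regular graphs -/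

/-- the Cayley graph on `ZMod n`-like group `Fin n` -/
theorem reg_nonempty {n d : ℕ} (hd : 2 * d ≤ n) (he : Even (n * d)) (hn : 0 < n) : (Reg n d).Nonempty := by
  have : NeZero n := ⟨hn.ne'⟩
  -- a symmetric set `S` of size `d` not containing 0
  obtain ⟨S, hS0, hSs, hSc⟩ : ∃ S : Finset (Fin n), (0 : Fin n) ∉ S ∧ (∀ x ∈ S, -x ∈ S) ∧ S.card = d := by
    obtain ⟨T, hT, hT0, hTs, hTc⟩ : ∃ T : Finset ℕ, T ⊆ range n ∧ 0 ∉ T ∧ (∀ x ∈ T, n - x ∈ T) ∧ T.card = d := by
      rcases Nat.even_or_odd' d with ⟨k, hk | hk⟩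
      · refine ⟨Icc 1 k ∪ Ico (n - k) n, ?_, ?_, ?_, ?_⟩
        · intro x hx
          simp only [mem_union, mem_Icc, mem_Ico, mem_range] at hx ⊢
          omega
        · simp only [mem_union, mem_Icc, mem_Ico]
          omega
        · intro x hx
          simp only [mem_union, mem_Icc, mem_Ico] at hx ⊢
          omega
        · rw [card_union_of_disjoint]
          · simp only [Nat.card_Icc, Nat.card_Ico]
            omega
          · rw [disjoint_left]
            intro x hx
            simp only [mem_Icc, mem_Ico] at hx ⊢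
            omega
      · have hne : Even n := by
          have hdo : Odd d := ⟨k, hk⟩
          rcases Nat.even_mul.1 he with h | h
          · exact h
          · exact absurd h (Nat.not_even_iff_odd.2 hdo)
        obtain ⟨m, hm⟩ := hne
        refine ⟨(Icc 1 k ∪ Ico (n - k) n) ∪ {m}, ?_, ?_, ?_, ?_⟩
        · intro x hx
          simp only [mem_union, mem_Icc, mem_Ico, mem_range, mem_singleton] at hx ⊢
          omega
        · simp only [mem_union, mem_Icc, mem_Ico, mem_singleton]
          omega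
        · intro x hx
          simp only [mem_union, mem_Icc, mem_Ico, mem_singleton] at hx ⊢
          omega
        · rw [card_union_of_disjoint, card_union_of_disjoint]
          · simp only [Nat.card_Icc, Nat.card_Ico, card_singleton]
            omega
          · rw [disjoint_left]
            intro x hx
            simp only [mem_Icc, mem_Ico] at hx ⊢
            omega
          · rw [disjoint_left]
            intro x hx
            simp only [mem_union, mem_Icc, mem_Ico, mem_singleton] at hx ⊢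
            omega
    refine ⟨univ.filter fun x : Fin n => x.val ∈ T, ?_, ?_, ?_⟩
    · simpa using hT0
    · intro x hx
      simp only [mem_filter, mem_univ, true_and] at hx ⊢
      have h0 : x.val ≠ 0 := fun h => hT0 (h ▸ hx)
      have : (-x).val = n - x.val := by
        rw [Fin.val_neg']
        exact Nat.mod_eq_of_lt (by have := x.2; omega)
      rw [this]
      exact hTs _ hx
    · rw [← hTc]
      refine card_bij (fun x _ => x.val) ?_ ?_ ?_
      · intro x hx
        simpa using hx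
      · intro a _ b _ hab
        exact Fin.ext hab
      · intro x hx
        exact ⟨⟨x, mem_range.1 (hT hx)⟩, by simpa using hx, rfl⟩
  let G : Gr n :=
    { Adj := fun x y => y - x ∈ S
      symm := ⟨by
        intro x y h
        have := hSs _ h
        rwa [neg_sub] at this⟩
      loopless := ⟨by
        intro x h
        rw [sub_self] at h
        exact hS0 h⟩ }
  refine ⟨G, ?_⟩
  rw [mem_Reg]
  intro v
  rw [← hSc]
  refine card_bij (fun y _ => y - v) ?_ ?_ ?_
  · intro y hy
    exact mem_nb.1 hy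
  · intro a _ b _ hab
    exact sub_left_injective hab
  · intro s hs
    exact ⟨s + v, mem_nb.2 (by show s + v - v ∈ S; rwa [add_sub_cancel_right]), add_sub_cancel_right _ _⟩

/-- the main theorem, from the module statements -/
theorem main_of (hD1 : Stmt_D1) (hD2 : Stmt_D2) (hAd : Stmt_Adet) (hA1 : Stmt_A1) (hA2 : Stmt_A2)
    (hBd : Stmt_Bdet) (hB : Stmt_B) (hC : Stmt_C) (ε : ℝ) (hε : 0 < ε) (d : ℕ → ℕ)
    (hd : ∀ᶠ n in atTop, Even (n * d n) → (n : ℝ) ^ (1 / 4 + ε) ≤ d n ∧ (d n : ℝ) ≤ n / 2) :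
    Tendsto (fun n => probReconstructable 2 n (d n)) (atTop ⊓ 𝓟 {n | Even (n * d n)}) (𝓝 1) := by
  rw [Metric.tendsto_nhds]
  intro η hη
  obtain ⟨n₀, h0⟩ := counting hD1 hD2 hAd hA1 hA2 hBd hB hC ε hε (η / 2) (by linarith)
  rw [eventually_inf_principal]
  filter_upwards [hd, eventually_ge_atTop n₀, eventually_gt_atTop 0] with n hn hn0 hnpos hev
  obtain ⟨h1, h2⟩ := hn hev
  have h2' : 2 * d n ≤ n := by
    have : (2 * (d n : ℝ)) ≤ n := by linarith
    exact_mod_cast this
  have hne := reg_nonempty h2' hev hnpos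
  have hb := h0 n hn0 (d n) h1 h2'
  have hc : 0 < ((Reg n (d n)).card : ℝ) := by exact_mod_cast hne.card_pos
  have hsum : (((Reg n (d n)).filter fun G => Reconstructable 2 G).card : ℝ) +
      ((Reg n (d n)).filter fun G => ¬ Reconstructable 2 G).card = (Reg n (d n)).card := by
    exact_mod_cast card_filter_add_card_filter_not (s := Reg n (d n)) (fun G => Reconstructable 2 G)
  unfold probReconstructable
  rw [Reg_eq, Real.dist_eq, abs_lt]
  have e1 : (((Reg n (d n)).filter fun G => Reconstructable 2 G).card : ℝ) / (Reg n (d n)).card =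
      1 - (((Reg n (d n)).filter fun G => ¬ Reconstructable 2 G).card : ℝ) / (Reg n (d n)).card := by
    rw [eq_sub_iff_add_eq, ← add_div, hsum, div_self hc.ne']
  have e2 : (((Reg n (d n)).filter fun G => ¬ Reconstructable 2 G).card : ℝ) / (Reg n (d n)).card ≤ η / 2 := by
    rw [div_le_iff₀ hc]; exact hb
  have e3 : 0 ≤ (((Reg n (d n)).filter fun G => ¬ Reconstructable 2 G).card : ℝ) / (Reg n (d n)).card := by
    positivity
  rw [e1]
  constructor <;> linarith

end Main

end Pool.Agent.RRG
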