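import Pool.Agent.RRG.Basic

/-!
# Module PS (MP_d15a9b_pr): path sums
-/

open Finset Filter Topology
open scoped Classical

namespace Pool.Agent.RRG

theorem PS_cardA1 {n : ℕ} (s : Fin n) (B₀ : Finset (Sym2 (Fin n))) :
    (univ.filter fun x : Fin n => s(s, x) ∈ B₀).card ≤ B₀.card := by
  refine card_le_card_of_injOn (fun x => s(s, x)) ?_ ?_
  · intro x hx
    simpa using hx
  · intro x _ y _ hxy
    simp only [Sym2.eq_iff, true_and] at hxy
    rcases hxy with h | ⟨h1, h2⟩
    · exact h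
    · rw [h2, h1]

theorem PS_cardA3 {n : ℕ} (t : Fin n) (B₀ : Finset (Sym2 (Fin n))) :
    (univ.filter fun x : Fin n => s(x, t) ∈ B₀).card ≤ B₀.card := by
  refine card_le_card_of_injOn (fun x => s(x, t)) ?_ ?_
  · intro x hx
    simpa using hx
  · intro x _ y _ hxy
    simp only [Sym2.eq_iff, and_true] at hxy
    rcases hxy with h | ⟨h1, h2⟩
    · exact h
    · rw [h1, h2]

theorem PS_cardA2 {n : ℕ} (B₀ : Finset (Sym2 (Fin n))) :
    (univ.filter fun x : Fin n × Fin n => x.1 ≠ x.2 ∧ s(x.1, x.2) ∈ B₀).card ≤ 2 * B₀.card := by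
  have h : (univ.filter fun x : Fin n × Fin n => x.1 ≠ x.2 ∧ s(x.1, x.2) ∈ B₀).card
      ≤ (B₀ ×ˢ (univ : Finset Bool)).card := by
    refine card_le_card_of_injOn (fun x => (s(x.1, x.2), decide (x.1 < x.2))) ?_ ?_
    · intro x hx
      simp only [coe_filter, mem_univ, true_and, Set.mem_ofPred_eq] at hx
      simp only [coe_product, Set.mem_prod, mem_coe, hx.2, mem_univ, and_self]
    · intro x hx y hy hxy
      simp only [coe_filter, mem_univ, true_and, Set.mem_ofPred_eq] at hx hy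
      simp only [Prod.mk.injEq, Sym2.eq_iff] at hxy
      obtain ⟨h1 | h1, h2⟩ := hxy
      · exact Prod.ext h1.1 h1.2
      · exfalso
        rw [h1.1, h1.2] at h2
        have h3 : (y.2 < y.1) ↔ (y.1 < y.2) := by simpa using h2
        rcases lt_trichotomy y.1 y.2 with h4 | h4 | h4
        · exact lt_asymm h4 (h3.2 h4)
        · exact hy.1 h4
        · exact lt_asymm h4 (h3.1 h4)
  refine h.trans ?_
  rw [card_product]; simp; omega

theorem PS_proof : Stmt_PS := by
  intro n w hw s t hst B₀ hB₀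
  have hn : 1 ≤ n := by
    have := s.2; omega
  set S := (univ : Finset (Fin n × Fin n)).filter (fun y => s ≠ y.1 ∧ s ≠ y.2 ∧ y.1 ≠ y.2 ∧ y.1 ≠ t ∧ y.2 ≠ t ∧
        ¬ (({s(s, y.1), s(y.1, y.2), s(y.2, t)} : Finset (Sym2 (Fin n))) ⊆ B₀)) with hS
  set A2 := (univ.filter fun x : Fin n × Fin n => x.1 ≠ x.2 ∧ s(x.1, x.2) ∈ B₀) with hA2
  set P1 := (univ.filter fun x : Fin n => s(s, x) ∈ B₀) with hP1
  set P3 := (univ.filter fun x : Fin n => s(x, t) ∈ B₀) with hP3
  set U := (P1 ×ˢ (univ : Finset (Fin n))) ∪ (A2 ∪ ((univ : Finset (Fin n)) ×ˢ P3)) with hU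
  set V := A2 ∪ (P1 ×ˢ P3) with hV
  have key : ∀ y ∈ S, w ^ (({s(s, y.1), s(y.1, y.2), s(y.2, t)} : Finset (Sym2 (Fin n))) \ B₀).card
      ≤ w ^ 3 + (if y ∈ U then w ^ 2 else 0) + (if y ∈ V then w else 0) := by
    intro y hy
    rw [hS, mem_filter] at hy
    obtain ⟨-, h1, h2, h3, h4, h5, h6⟩ := hy
    have e12 : s(s, y.1) ≠ s(y.1, y.2) := by
      rw [ne_eq, Sym2.eq_iff]; rintro (⟨a, b⟩ | ⟨a, b⟩)
      · exact h1 a
      · exact h2 a
    have e13 : s(s, y.1) ≠ s(y.2, t) := by
      rw [ne_eq, Sym2.eq_iff]; rintro (⟨a, b⟩ | ⟨a, b⟩)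
      · exact h2 a
      · exact hst a
    have e23 : s(y.1, y.2) ≠ s(y.2, t) := by
      rw [ne_eq, Sym2.eq_iff]; rintro (⟨a, b⟩ | ⟨a, b⟩)
      · exact h3 a
      · exact h4 a
    have hw2 : 0 ≤ w ^ 2 := by positivity
    have hw3 : 0 ≤ w ^ 3 := by positivity
    have mU : y ∈ U ↔ (s(s, y.1) ∈ B₀ ∨ s(y.1, y.2) ∈ B₀ ∨ s(y.2, t) ∈ B₀) := by
      simp [hU, hA2, hP1, hP3, h3]
    have mV : y ∈ V ↔ (s(y.1, y.2) ∈ B₀ ∨ (s(s, y.1) ∈ B₀ ∧ s(y.2, t) ∈ B₀)) := by
      simp [hV, hA2, hP1, hP3, h3]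
    by_cases i1 : s(s, y.1) ∈ B₀ <;> by_cases i2 : s(y.1, y.2) ∈ B₀ <;> by_cases i3 : s(y.2, t) ∈ B₀
    · exfalso; apply h6
      intro e he
      simp only [mem_insert, mem_singleton] at he
      rcases he with rfl | rfl | rfl <;> assumption
    all_goals
      have hc : (({s(s, y.1), s(y.1, y.2), s(y.2, t)} : Finset (Sym2 (Fin n))) \ B₀).card =
          (if s(s, y.1) ∈ B₀ then 0 else 1) + (if s(y.1, y.2) ∈ B₀ then 0 else 1) +
            (if s(y.2, t) ∈ B₀ then 0 else 1) := by
        simp only [i1, i2, i3, insert_sdiff_of_mem, insert_sdiff_of_notMem, if_true, if_false,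
          not_false_eq_true, sdiff_singleton_eq_erase]
        try simp [Finset.sdiff_eq_filter, Finset.filter_singleton, i1, i2, i3, e12, e13, e23]
      rw [hc]
      simp only [mU, mV, i1, i2, i3, if_true, if_false, or_true, true_or, or_false, and_true,
        and_false, false_and, false_or, zero_add, add_zero, and_self, or_self]
      try norm_num
      try linarith
  calc _ ≤ ∑ y ∈ S, (w ^ 3 + (if y ∈ U then w ^ 2 else 0) + (if y ∈ V then w else 0)) := sum_le_sum key
    _ ≤ ∑ y : Fin n × Fin n, (w ^ 3 + (if y ∈ U then w ^ 2 else 0) + (if y ∈ V then w else 0)) := by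
        refine sum_le_sum_of_subset_of_nonneg (subset_univ _) ?_
        intro y _ _
        have : (0:ℝ) ≤ w ^ 3 := by positivity
        have : (0:ℝ) ≤ w ^ 2 := by positivity
        split_ifs <;> linarith
    _ = (n : ℝ) ^ 2 * w ^ 3 + (U.card : ℝ) * w ^ 2 + (V.card : ℝ) * w := by
        rw [sum_add_distrib, sum_add_distrib]
        simp only [sum_const, card_univ, Fintype.card_prod, Fintype.card_fin, nsmul_eq_mul, Nat.cast_mul,
          sum_ite_mem, univ_inter]
        ring
    _ ≤ _ := by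
        have c1 : P1.card ≤ 10 := (PS_cardA1 s B₀).trans hB₀
        have c3 : P3.card ≤ 10 := (PS_cardA3 t B₀).trans hB₀
        have c2 : A2.card ≤ 20 := (PS_cardA2 B₀).trans (by omega)
        have cU : U.card ≤ 40 * n := by
          refine (card_union_le _ _).trans ?_
          have := card_union_le A2 ((univ : Finset (Fin n)) ×ˢ P3)
          rw [card_product] at this
          rw [card_product]
          simp only [card_univ, Fintype.card_fin] at this ⊢
          have a1 : P1.card * n ≤ 10 * n := Nat.mul_le_mul_right n c1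
          have a3 : n * P3.card ≤ n * 10 := Nat.mul_le_mul_left n c3
          omega
        have cV : V.card ≤ 400 := by
          refine (card_union_le _ _).trans ?_
          rw [card_product]
          have : P1.card * P3.card ≤ 10 * 10 := Nat.mul_le_mul c1 c3
          omega
        have cU' : (U.card : ℝ) ≤ 40 * n := by exact_mod_cast cU
        have cV' : (V.card : ℝ) ≤ 400 := by exact_mod_cast cV
        have : (0:ℝ) ≤ w ^ 2 := by positivity
        nlinarith [mul_le_mul_of_nonneg_right cU' this, mul_le_mul_of_nonneg_right cV' hw]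

end Pool.Agent.RRG
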