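import Mathlib

/-!
# Shotgun assembly of graphs: definitions for MP_d15a9b_pr

* `nbhdSet r G v`: the vertices at (extended) graph distance at most `r` from `v`;
* `NbIso r G v H w`: the induced subgraphs on these sets are isomorphic by an isomorphism mapping the root `v` to
  the root `w`;
* `nbhdMultiset r G`: the multiset of the isomorphism classes of the rooted `r`-neighbourhoods of `G`;
* `Reconstructable r G`: every graph on `n` vertices with the same multiset is isomorphic to `G`;
* `RegularGraphs n d`: the finite set of all `d`-regular graphs on `{0,…,n-1}`;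
* `probReconstructable r n d`: the probability that a uniformly random element of it is reconstructable.
-/

open scoped Classical

namespace Pool.Agent.Shotgun

noncomputable section

/-- vertices at distance at most `r` from `v` -/
def nbhdSet {n : ℕ} (r : ℕ) (G : SimpleGraph (Fin n)) (v : Fin n) : Set (Fin n) :=
  {x | G.edist v x ≤ r}

theorem root_mem {n : ℕ} (r : ℕ) (G : SimpleGraph (Fin n)) (v : Fin n) : v ∈ nbhdSet r G v := by
  simp [nbhdSet]

/-- the rooted `r`-neighbourhoods of `v` in `G` and of `w` in `H` are isomorphic as rooted graphs -/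
def NbIso {n : ℕ} (r : ℕ) (G : SimpleGraph (Fin n)) (v : Fin n) (H : SimpleGraph (Fin n)) (w : Fin n) : Prop :=
  ∃ φ : G.induce (nbhdSet r G v) ≃g H.induce (nbhdSet r H w), φ ⟨v, root_mem r G v⟩ = ⟨w, root_mem r H w⟩

/-- isomorphism of rooted `r`-neighbourhoods, as an equivalence relation on pairs (graph, root) -/
def nbSetoid (n r : ℕ) : Setoid (SimpleGraph (Fin n) × Fin n) where
  r a b := NbIso r a.1 a.2 b.1 b.2
  iseqv :=
    { refl := fun a => ⟨SimpleGraph.Iso.refl, rfl⟩
      symm := by
        rintro a b ⟨φ, h⟩
        exact ⟨φ.symm, by rw [← h]; exact φ.symm_apply_apply _⟩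
      trans := by
        rintro a b c ⟨φ, h⟩ ⟨ψ, h'⟩
        exact ⟨φ.trans ψ, by
          show ψ (φ _) = _
          rw [h, h']⟩ }

/-- the multiset of isomorphism classes of the rooted `r`-neighbourhoods -/
def nbhdMultiset {n : ℕ} (r : ℕ) (G : SimpleGraph (Fin n)) : Multiset (Quotient (nbSetoid n r)) :=
  (Finset.univ : Finset (Fin n)).val.map fun v => Quotient.mk (nbSetoid n r) (G, v)

/-- `G` is determined up to isomorphism, among the graphs with `n` vertices, by its `r`-neighbourhoods -/
def Reconstructable {n : ℕ} (r : ℕ) (G : SimpleGraph (Fin n)) : Prop :=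
  ∀ H : SimpleGraph (Fin n), nbhdMultiset r H = nbhdMultiset r G → Nonempty (H ≃g G)

/-- all `d`-regular graphs on `{0,…,n-1}` -/
def RegularGraphs (n d : ℕ) : Finset (SimpleGraph (Fin n)) :=
  Finset.univ.filter fun G => G.IsRegularOfDegree d

/-- the probability that a uniformly random `d`-regular graph on `{0,…,n-1}` is reconstructable from its
`r`-neighbourhoods -/
def probReconstructable (r n d : ℕ) : ℝ :=
  (((RegularGraphs n d).filter fun G => Reconstructable r G).card : ℝ) / ((RegularGraphs n d).card : ℝ)

end

end Pool.Agent.Shotgun
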