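import Pool.Agent.RRG.Basic
import Pool.Agent.RRG.Shotgun

/-!
# From equal multisets of 2-neighbourhoods to partners (MP_d15a9b_pr)
-/

open Finset Filter Topology
open scoped Classical

namespace Pool.Agent.RRG

open Pool.Agent.Shotgun

namespace Recon

variable {n : ℕ}

theorem nbhdSet_two (G : Gr n) (v : Fin n) : nbhdSet 2 G v = ball2 G v := by
  ext x
  simp only [nbhdSet, ball2, Set.mem_ofPred_eq]
  constructor
  · intro h
    have hne : G.edist v x ≠ ⊤ := by
      intro e
      rw [e] at h
      simp at h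
    obtain ⟨p, hp⟩ := SimpleGraph.exists_walk_of_edist_ne_top hne
    rw [← hp] at h
    have hl : p.length ≤ 2 := by exact_mod_cast h
    match p, hl with
    | .nil, _ => exact Or.inl rfl
    | .cons h1 .nil, _ => exact Or.inr (Or.inl h1)
    | .cons h1 (.cons h2 .nil), _ => exact Or.inr (Or.inr ⟨_, h1, h2⟩)
    | .cons h1 (.cons h2 (.cons h3 q)), hl => simp at hl
  · rintro (rfl | h | ⟨y, h1, h2⟩)
    · simp
    · exact (SimpleGraph.edist_le (SimpleGraph.Walk.cons h SimpleGraph.Walk.nil)).trans (by norm_num)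
    · exact (SimpleGraph.edist_le (SimpleGraph.Walk.cons h1 (SimpleGraph.Walk.cons h2 SimpleGraph.Walk.nil))).trans
        (by norm_num)

theorem mem_iff (G : Gr n) (v x : Fin n) : x ∈ nbhdSet 2 G v ↔ x ∈ ball2 G v := by
  rw [nbhdSet_two]

theorem exists_perm {α : Type*} (f g : Fin n → α)
    (h : (univ : Finset (Fin n)).val.map f = (univ : Finset (Fin n)).val.map g) :
    ∃ π : Equiv.Perm (Fin n), ∀ v, f v = g (π v) := by
  have hc : ∀ a, Fintype.card {v // f v = a} = Fintype.card {v // g v = a} := by
    intro a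
    rw [Fintype.card_subtype, Fintype.card_subtype]
    have := congrArg (Multiset.count a) h
    rw [Multiset.count_map, Multiset.count_map] at this
    have e1 : (Multiset.filter (fun v => a = f v) (univ : Finset (Fin n)).val).card
        = (univ.filter fun v => f v = a).card := by
      rw [Finset.card_def, Finset.filter_val]
      congr 1
      exact Multiset.filter_congr fun v _ => eq_comm
    have e2 : (Multiset.filter (fun v => a = g v) (univ : Finset (Fin n)).val).card
        = (univ.filter fun v => g v = a).card := by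
      rw [Finset.card_def, Finset.filter_val]
      congr 1
      exact Multiset.filter_congr fun v _ => eq_comm
    rw [← e1, ← e2]
    exact this
  let e : ∀ a, {v // f v = a} ≃ {v // g v = a} := fun a => Fintype.equivOfCardEq (hc a)
  refine ⟨(Equiv.sigmaFiberEquiv f).symm.trans ((Equiv.sigmaCongrRight e).trans (Equiv.sigmaFiberEquiv g)), ?_⟩
  intro v
  exact (e (f v) ⟨v, rfl⟩).2.symm

/-- if every two distinct vertices have a common neighbour, `G` is reconstructable -/
theorem of_diam {G : Gr n} (h : ∀ u v, u ≠ v → (nb G u ∩ nb G v).Nonempty) : Reconstructable 2 G := by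
  intro H hH
  rcases isEmpty_or_nonempty (Fin n) with he | ⟨⟨v⟩⟩
  · exact ⟨⟨Equiv.refl _, fun {a} => (IsEmpty.false a).elim⟩⟩
  obtain ⟨π, hπ⟩ := exists_perm _ _ hH
  obtain ⟨φ, hφ⟩ : NbIso 2 H v G (π v) := Quotient.exact (hπ v)
  have hG : ∀ x, x ∈ nbhdSet 2 G (π v) := by
    intro x
    rw [nbhdSet_two]
    by_cases hx : x = π v
    · exact Or.inl hx
    · obtain ⟨y, hy⟩ := h (π v) x (Ne.symm hx)
      simp only [mem_inter, mem_nb] at hy
      exact Or.inr (Or.inr ⟨y, hy.1, hy.2.symm⟩)
  -- the ball in `H` is everything by cardinality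
  have hcard : Fintype.card (nbhdSet 2 H v) = n := by
    rw [Fintype.card_congr φ.toEquiv]
    have : Fintype.card (nbhdSet 2 G (π v)) = Fintype.card (Fin n) :=
      Fintype.card_congr (Equiv.subtypeUnivEquiv hG)
    simpa using this
  have hH' : ∀ x, x ∈ nbhdSet 2 H v := by
    have : nbhdSet 2 H v = Set.univ := by
      refine Set.eq_univ_of_forall fun x => ?_
      by_contra hx
      have : Fintype.card (nbhdSet 2 H v) < Fintype.card (Fin n) := by
        refine Fintype.card_subtype_lt (x := x) ?_
        exact hx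
      simp [hcard] at this
    intro x
    rw [this]; trivial
  refine ⟨⟨(Equiv.subtypeUnivEquiv hH').symm.trans (φ.toEquiv.trans (Equiv.subtypeUnivEquiv hG)), ?_⟩⟩
  intro a b
  have := φ.map_adj_iff (v := ⟨a, hH' a⟩) (w := ⟨b, hH' b⟩)
  simpa using this

/-- rigid graphs are reconstructable -/
theorem of_rigid {G : Gr n} (h : Rigid G) : Reconstructable 2 G := by
  intro H hH
  obtain ⟨π, hπ⟩ := exists_perm _ _ hH.symm
  have hπ' : ∀ v, NbIso 2 G v H (π v) := fun v => Quotient.exact (hπ v)
  choose φ hφ using hπ'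
  set H' : Gr n := H.comap π with hH'
  have hadj : ∀ x y, H'.Adj x y ↔ H.Adj (π x) (π y) := fun x y => Iff.rfl
  have hball : ∀ v x, x ∈ ball2 H' v ↔ π x ∈ ball2 H (π v) := by
    intro v x
    simp only [ball2, Set.mem_ofPred_eq, hadj, EmbeddingLike.apply_eq_iff_eq]
    constructor
    · rintro (h | h | ⟨y, h1, h2⟩)
      · exact Or.inl h
      · exact Or.inr (Or.inl h)
      · exact Or.inr (Or.inr ⟨π y, h1, h2⟩)
    · rintro (h | h | ⟨y, h1, h2⟩)
      · exact Or.inl h
      · exact Or.inr (Or.inl h)
      · exact Or.inr (Or.inr ⟨π.symm y, by simpa using h1, by simpa using h2⟩)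
  let e : ∀ v, {x // x ∈ ball2 G v} ≃ {x // x ∈ ball2 H' v} := fun v =>
    { toFun := fun x => ⟨π.symm (φ v ⟨x.1, by rw [nbhdSet_two]; exact x.2⟩).1, by
        rw [hball]
        have := (mem_iff _ _ _).1 (φ v ⟨x.1, by rw [nbhdSet_two]; exact x.2⟩).2
        simpa using this⟩
      invFun := fun y => ⟨((φ v).symm ⟨π y.1, by rw [nbhdSet_two]; exact (hball v y.1).1 y.2⟩).1, by
        exact (mem_iff _ _ _).1 ((φ v).symm ⟨π y.1, by rw [nbhdSet_two]; exact (hball v y.1).1 y.2⟩).2⟩
      left_inv := by
        intro x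
        apply Subtype.ext
        simp
      right_inv := by
        intro y
        apply Subtype.ext
        simp }
  have hp : IsPartner G H' (fun v => (e v).extendSubtype) := by
    refine ⟨?_, ?_, ?_⟩
    · intro v
      rw [Equiv.extendSubtype_apply_of_mem _ v (ball2_root G v)]
      show π.symm (φ v ⟨v, _⟩).1 = v
      have := congrArg Subtype.val (hφ v)
      simp only at this
      rw [Equiv.symm_apply_eq]
      exact this
    · intro v x
      constructor
      · intro hx
        exact (e v).extendSubtype_mem x hx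
      · intro hx
        by_contra hc
        exact (e v).extendSubtype_not_mem x hc hx
    · intro v x y hx hy
      rw [Equiv.extendSubtype_apply_of_mem _ x hx, Equiv.extendSubtype_apply_of_mem _ y hy, hadj]
      show G.Adj x y ↔ H.Adj (π (π.symm (φ v ⟨x, _⟩).1)) (π (π.symm (φ v ⟨y, _⟩).1))
      rw [Equiv.apply_symm_apply, Equiv.apply_symm_apply]
      have := (φ v).map_adj_iff (v := ⟨x, by rw [nbhdSet_two]; exact hx⟩)
        (w := ⟨y, by rw [nbhdSet_two]; exact hy⟩)
      simpa using this.symm
  have := h H' _ hp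
  rw [← this]
  exact ⟨⟨π.symm, by intro a b; simp [hadj]⟩⟩

end Recon

end Pool.Agent.RRG
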