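import Pool.Agent.RRG.Main

/-!
# Sanity checks for the definitions of `Pool.Agent.Shotgun` (not used by the hand-in)

* the 2-neighbourhoods of the cycle of length 12 are those of two disjoint 6-cycles, so `Reconstructable 2` fails
  for a 2-regular graph;
* graphs on two vertices are not determined by their 0-neighbourhoods;
* `probReconstructable` lies between 0 and 1.
-/

open Finset
open scoped Classical

namespace Pool.Agent.Shotgun

namespace Sanity

/-- the cycle of length 12 -/
def C12 : SimpleGraph (Fin 12) where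
  Adj x y := y = x + 1 ∨ x = y + 1
  symm := ⟨fun _ _ h => h.symm⟩
  loopless := ⟨by decide⟩

/-- two disjoint cycles of length 6 -/
def C66 : SimpleGraph (Fin 12) where
  Adj x y := y = x + 2 ∨ x = y + 2
  symm := ⟨fun _ _ h => h.symm⟩
  loopless := ⟨by decide⟩

def inG (v x : Fin 12) : Prop := x = v ∨ (x = v + 1 ∨ v = x + 1) ∨ ∃ y : Fin 12, (y = v + 1 ∨ v = y + 1) ∧ (x = y + 1 ∨ y = x + 1)

def inH (v x : Fin 12) : Prop := x = v ∨ (x = v + 2 ∨ v = x + 2) ∨ ∃ y : Fin 12, (y = v + 2 ∨ v = y + 2) ∧ (x = y + 2 ∨ y = x + 2)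

instance (v x : Fin 12) : Decidable (inG v x) := by unfold inG; infer_instance

instance (v x : Fin 12) : Decidable (inH v x) := by unfold inH; infer_instance

theorem mem_G (v x : Fin 12) : x ∈ nbhdSet 2 C12 v ↔ inG v x := by
  rw [RRG.Recon.nbhdSet_two]; rfl

theorem mem_H (v x : Fin 12) : x ∈ nbhdSet 2 C66 v ↔ inH v x := by
  rw [RRG.Recon.nbhdSet_two]; rfl

theorem key1 : ∀ v x : Fin 12, inG v x → inH v (v + 2 * (x - v)) := by decide +kernel

theorem key2 : ∀ v y : Fin 12, inH v y → ∃ x, inG v x ∧ v + 2 * (x - v) = y := by decide +kernel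

theorem key3 : ∀ v x y : Fin 12, inG v x → inG v y → v + 2 * (x - v) = v + 2 * (y - v) → x = y := by
  decide +kernel

theorem key4 : ∀ v x y : Fin 12, inG v x → inG v y →
    ((v + 2 * (y - v) = v + 2 * (x - v) + 2 ∨ v + 2 * (x - v) = v + 2 * (y - v) + 2) ↔ (y = x + 1 ∨ x = y + 1)) := by
  decide +kernel

theorem nbIso (v : Fin 12) : NbIso 2 C12 v C66 v := by
  let f : nbhdSet 2 C12 v → nbhdSet 2 C66 v := fun x =>
    ⟨v + 2 * (x.1 - v), (mem_H v _).2 (key1 v _ ((mem_G v _).1 x.2))⟩
  have hf : Function.Bijective f := by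
    constructor
    · intro x y hxy
      exact Subtype.ext (key3 v _ _ ((mem_G v _).1 x.2) ((mem_G v _).1 y.2) (congrArg Subtype.val hxy))
    · rintro ⟨y, hy⟩
      obtain ⟨x, hx, hxy⟩ := key2 v y ((mem_H v _).1 hy)
      exact ⟨⟨x, (mem_G v _).2 hx⟩, Subtype.ext hxy⟩
  refine ⟨⟨Equiv.ofBijective f hf, ?_⟩, ?_⟩
  · intro x y
    exact key4 v _ _ ((mem_G v _).1 x.2) ((mem_G v _).1 y.2)
  · refine Subtype.ext ?_
    show v + 2 * (v - v) = v
    rw [sub_self]; simp

/-- equal multisets of 2-neighbourhoods -/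
theorem multiset_eq : nbhdMultiset 2 C66 = nbhdMultiset 2 C12 := by
  unfold nbhdMultiset
  refine Multiset.map_congr rfl fun v _ => ?_
  exact Quotient.sound (s := nbSetoid 12 2) ((nbSetoid 12 2).symm (nbIso v))

theorem C12_reachable (x : Fin 12) : C12.Reachable 0 x := by
  have h : ∀ k : ℕ, ∀ hk : k < 12, C12.Reachable 0 ⟨k, hk⟩ := by
    intro k
    induction k with
    | zero => exact fun _ => SimpleGraph.Reachable.refl _
    | succ k ih =>
      intro hk
      refine (ih (by omega)).trans (SimpleGraph.Adj.reachable ?_)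
      left
      have key : ∀ j : Fin 12, ∀ h : j.val + 1 < 12, (⟨j.val + 1, h⟩ : Fin 12) = j + 1 := by decide
      exact key ⟨k, by omega⟩ hk
  exact h x.val x.2

theorem C66_parity {x y : Fin 12} (h : C66.Reachable x y) : x.val % 2 = y.val % 2 := by
  obtain ⟨p⟩ := h
  induction p with
  | nil => rfl
  | cons h _ ih =>
    rw [← ih]
    have key : ∀ x y : Fin 12, (y = x + 2 ∨ x = y + 2) → x.val % 2 = y.val % 2 := by decide
    exact key _ _ h

/-- `Reconstructable 2` fails for the cycle of length 12 (a 2-regular graph) -/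
theorem not_reconstructable_two : ¬ Reconstructable 2 C12 := by
  intro h
  obtain ⟨φ⟩ := h C66 multiset_eq
  have h1 : C66.Reachable 0 1 := by
    have a := C12_reachable (φ 0)
    have b := C12_reachable (φ 1)
    exact (SimpleGraph.Iso.reachable_iff (φ := φ)).1 (a.symm.trans b)
  have := C66_parity h1
  revert this
  decide

theorem mem_regular {n d : ℕ} {G : SimpleGraph (Fin n)} (h : ∀ v, (RRG.nb G v).card = d) :
    G ∈ RegularGraphs n d := by
  rw [RRG.Main.Reg_eq, RRG.mem_Reg]
  exact h

theorem card_nb_C12 (v : Fin 12) : (RRG.nb C12 v).card = 2 := by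
  have e : RRG.nb C12 v = {v + 1, v - 1} := by
    ext w
    rw [RRG.mem_nb]
    show (w = v + 1 ∨ v = w + 1) ↔ _
    rw [mem_insert, mem_singleton]
    constructor
    · rintro (h | h)
      · exact Or.inl h
      · right; rw [h]; simp
    · rintro (h | h)
      · exact Or.inl h
      · right; rw [h]; simp
  rw [e, card_pair]
  have key : ∀ v : Fin 12, v + 1 ≠ v - 1 := by decide
  exact key v

theorem exists_of {n d : ℕ} {G : SimpleGraph (Fin n)} (h : ∀ v, (RRG.nb G v).card = d)
    (h' : ¬ Reconstructable 2 G) :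
    ∃ n d : ℕ, ∃ G : SimpleGraph (Fin n), G ∈ RegularGraphs n d ∧ ¬ Reconstructable 2 G :=
  ⟨n, d, G, mem_regular h, h'⟩

/-- some regular graph is not determined by its 2-neighbourhoods -/
theorem exists_regular_not_reconstructable :
    ∃ n d : ℕ, ∃ G : SimpleGraph (Fin n), G ∈ RegularGraphs n d ∧ ¬ Reconstructable 2 G :=
  exists_of card_nb_C12 not_reconstructable_two

/-- graphs on two vertices are not determined by their 0-neighbourhoods -/
theorem not_reconstructable_zero : ¬ Reconstructable 0 (⊥ : SimpleGraph (Fin 2)) := by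
  intro h
  have hs : ∀ (G : SimpleGraph (Fin 2)) (v x : Fin 2), x ∈ nbhdSet 0 G v ↔ x = v := by
    intro G v x
    simp only [nbhdSet, Set.mem_ofPred_eq, Nat.cast_zero, nonpos_iff_eq_zero]
    rw [SimpleGraph.edist_eq_zero_iff]
    exact eq_comm
  obtain ⟨φ⟩ := h ⊤ (by
    unfold nbhdMultiset
    refine Multiset.map_congr rfl fun v _ => ?_
    refine Quotient.sound (s := nbSetoid 2 0) ?_
    refine ⟨⟨⟨fun _ => ⟨v, root_mem 0 _ v⟩, fun _ => ⟨v, root_mem 0 _ v⟩, ?_, ?_⟩, ?_⟩, rfl⟩
    · intro x
      exact Subtype.ext ((hs _ _ _).1 x.2).symm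
    · intro x
      exact Subtype.ext ((hs _ _ _).1 x.2).symm
    · intro x y
      have hx := (hs _ _ _).1 x.2
      have hy := (hs _ _ _).1 y.2
      constructor
      · intro ha
        exact absurd ha (SimpleGraph.irrefl _)
      · intro ha
        exfalso
        have ha' : (⊤ : SimpleGraph (Fin 2)).Adj x.1 y.1 := ha
        rw [hx, hy] at ha'
        exact SimpleGraph.irrefl _ ha')
  have h1 : (⊤ : SimpleGraph (Fin 2)).Adj 0 1 := by simp
  have := φ.map_adj_iff.2 h1
  exact this

theorem prob_nonneg (r n d : ℕ) : 0 ≤ probReconstructable r n d := by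
  unfold probReconstructable; positivity

theorem prob_le_one (r n d : ℕ) : probReconstructable r n d ≤ 1 := by
  unfold probReconstructable
  refine div_le_one_of_le₀ ?_ (by positivity)
  exact_mod_cast card_filter_le _ _

end Sanity

end Pool.Agent.Shotgun
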