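import Pool.Agent.RRG.Defs

/-!
# Exact statements of the modules (MP_d15a9b_pr)

Paper proofs: /team-store/MP_d15a9b_PROOF.md.  A module may use any other `Stmt_*` as a hypothesis
(e.g. `theorem T8_proof (h : Stmt_DO) (h1 : Stmt_Codeg) (h2 : Stmt_T2) : Stmt_T8`).
-/

open Finset Filter Topology
open scoped Classical

namespace Pool.Agent.RRG

noncomputable section

/-! ### 1. Tools -/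

/-- UP: the upper switching bound. -/
def Stmt_Up : Prop :=
  ∀ (n d : ℕ), 64 ≤ n → 64 * d ≤ n → ∀ (Ω g E : Finset (Sym2 (Fin n))),
    (∀ e ∈ E, e ∉ Ω ∧ ¬ e.IsDiag) →
    (∀ e ∈ E, ∀ x ∈ e, 16 * (Ω.filter fun f => x ∈ f).card ≤ n) →
    32 * g.card ≤ n * d → 32 * E.card ≤ n * d →
    (((Reg n d).filter fun G => ed G ∩ Ω = g ∧ E ⊆ ed G).card : ℝ)
      ≤ (2 * (d : ℝ) / n) ^ E.card * ((Reg n d).filter fun G => ed G ∩ Ω = g).card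

/-- DO: disjoint occurrences. -/
def Stmt_DO : Prop :=
  ∀ (n d : ℕ), 64 ≤ n → 64 * d ≤ n → ∀ (Ω g : Finset (Sym2 (Fin n))), 32 * g.card ≤ n * d →
    ∀ (ι : Type) (I : Finset ι) (E : ι → Finset (Sym2 (Fin n))) (m r : ℕ),
    (∀ i ∈ I, (E i).card ≤ r ∧ ∀ e ∈ E i, e ∉ Ω ∧ ¬ e.IsDiag ∧
      ∀ x ∈ e, 16 * (Ω.filter fun f => x ∈ f).card ≤ n) →
    32 * (m * r) ≤ n * d →
    (((Reg n d).filter fun G => ed G ∩ Ω = g ∧ ∃ J ⊆ I, J.card = m ∧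
        (∀ i ∈ J, ∀ j ∈ J, i ≠ j → Disjoint (E i) (E j)) ∧ ∀ i ∈ J, E i ⊆ ed G).card : ℝ) * (m.factorial : ℝ)
      ≤ (∑ i ∈ I, (2 * (d : ℝ) / n) ^ (E i).card) ^ m *
          ((Reg n d).filter fun G => ed G ∩ Ω = g).card

/-- LOW: the lower tail. -/
def Stmt_Low : Prop :=
  ∀ (n d : ℕ) (G₀ : Gr n) (R A S : Finset (Fin n)), 0 < d → 64 * d ≤ n → G₀ ∈ Reg n d →
    Disjoint A S → Disjoint A R → Disjoint S R → 100 * d ≤ A.card → 10 * A.card ≤ n → 10 * S.card ≤ n →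
    (∀ x ∈ A ∪ S, 4 * (nb G₀ x ∩ R).card ≤ d) →
    (((Reg n d).filter fun G => (∀ r ∈ R, ∀ x, G.Adj r x ↔ G₀.Adj r x) ∧
        64 * (n : ℝ) * (((A ×ˢ S).filter fun t => G.Adj t.1 t.2).card : ℝ) ≤ (A.card : ℝ) * S.card * d).card : ℝ)
      ≤ 4 * (2 : ℝ) ^ (-((A.card : ℝ) * S.card * d / (32 * n))) *
        ((Reg n d).filter fun G => ∀ r ∈ R, ∀ x, G.Adj r x ↔ G₀.Adj r x).card

/-- random subsets: weight of `A ⊆ U` at density `s` -/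
def wt {α : Type} (s : ℝ) (U A : Finset α) : ℝ := s ^ A.card * (1 - s) ^ (U.card - A.card)

/-- RAND: facts about random subsets. -/
def Stmt_Rand : Prop :=
  ∀ (α : Type) (s : ℝ) (U : Finset α),
    (∑ A ∈ U.powerset, wt s U A = 1) ∧
    (∀ κ ⊆ U, ∑ A ∈ U.powerset.filter (fun A => κ ⊆ A), wt s U A = s ^ κ.card) ∧
    (∀ (ι : Type) (J : Finset ι) (κ : ι → Finset α), (∀ i ∈ J, κ i ⊆ U) →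
      (∀ i ∈ J, ∀ j ∈ J, i ≠ j → Disjoint (κ i) (κ j)) →
      ∑ A ∈ U.powerset.filter (fun A => ∀ i ∈ J, ¬ κ i ⊆ A), wt s U A = ∏ i ∈ J, (1 - s ^ (κ i).card))

/-- PS: path sums. -/
def Stmt_PS : Prop :=
  ∀ (n : ℕ) (w : ℝ), 0 ≤ w → ∀ (s t : Fin n), s ≠ t → ∀ B₀ : Finset (Sym2 (Fin n)), B₀.card ≤ 10 →
    ∑ y ∈ (univ : Finset (Fin n × Fin n)).filter (fun y => s ≠ y.1 ∧ s ≠ y.2 ∧ y.1 ≠ y.2 ∧ y.1 ≠ t ∧ y.2 ≠ t ∧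
        ¬ (({s(s, y.1), s(y.1, y.2), s(y.2, t)} : Finset (Sym2 (Fin n))) ⊆ B₀)),
      w ^ (({s(s, y.1), s(y.1, y.2), s(y.2, t)} : Finset (Sym2 (Fin n))) \ B₀).card
      ≤ (n : ℝ) ^ 2 * w ^ 3 + 40 * n * w ^ 2 + 400 * w

/-- S: the sampling lemma. -/
def Stmt_S : Prop :=
  ∀ (α Z : Type) (U : Finset α) (Zs : Finset Z) (κ : Z → Finset α) (k : ℕ) (s Q ψ₀ : ℝ)
    (conf : Z → Z → Prop) (ψ : Finset α → ℝ), 0 < s → s ≤ 1 → 0 ≤ Q →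
    (∀ z ∈ Zs, κ z ⊆ U ∧ (κ z).card = k) → (∀ z z', conf z z' → conf z' z) →
    (∀ z ∈ Zs, ∑ z' ∈ Zs.filter (fun z' => z' ≠ z ∧ conf z z'), s ^ (κ z' \ κ z).card ≤ Q) →
    (∀ A ⊆ U, 0 ≤ ψ A) → ∑ A ∈ U.powerset, wt s U A * ψ A ≤ ψ₀ →
    ψ₀ < s ^ k * (Zs.card : ℝ) / (4 * (Q + 1)) →
    ∃ A ⊆ U, ∃ Z' ⊆ Zs, (∀ z ∈ Z', κ z ⊆ A) ∧ (∀ z ∈ Z', ∀ z' ∈ Z', z ≠ z' → ¬ conf z z') ∧
      ψ A < (Z'.card : ℝ)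

/-- codegrees, polynomial regime -/
def Stmt_Codeg : Prop :=
  ∀ α : ℝ, 0 < α → ∃ K : ℕ, Whp (fun n d => (d : ℝ) ≤ (n : ℝ) ^ (1 / 2 - α)) (fun _ _ G => T1 K G)

/-- codegrees up to `√(n log n)` -/
def Stmt_CodegLog : Prop :=
  ∀ C : ℝ, 0 < C → ∃ K : ℝ, 0 < K ∧
    Whp (fun n d => (d : ℝ) ≤ C * Real.sqrt (n * Real.log n))
      (fun n _ G => ∀ u v, u ≠ v → ((nb G u ∩ nb G v).card : ℝ) ≤ K * Real.log n)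

def Stmt_FiveLow : Prop :=
  ∀ α : ℝ, 0 < α → ∃ c : ℝ, 0 < c ∧
    Whp (fun n d => (n : ℝ) ^ (1 / 4 + α) ≤ d ∧ (d : ℝ) ≤ (n : ℝ) ^ (1 / 2 - α)) (fun n d G => FiveLow c n d G)

/-! ### 3. Regime D -/

/-- D1: the dense case -/
def Stmt_D1 : Prop :=
  Whp (fun n d => n ≤ 256 * d ∧ 2 * d ≤ n) (fun _ _ G => ∀ u v, u ≠ v → (nb G u ∩ nb G v).Nonempty)

/-- D2 -/
def Stmt_D2 : Prop :=
  ∃ C : ℝ, 0 < C ∧ Whp (fun n d => C * Real.sqrt (n * Real.log n) ≤ d ∧ 256 * d ≤ n)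
    (fun _ _ G => ∀ u v, u ≠ v → (nb G u ∩ nb G v).Nonempty)

/-! ### 4. Regime A -/

def Stmt_Adet : Prop :=
  ∀ (n d : ℕ) (G : Gr n), G ∈ Reg n d → (FP1 G ∨ FP2 G) → Rigid G

def Stmt_A1 : Prop :=
  ∃ C : ℝ, 0 < C ∧ Whp (fun n d => C * n ≤ (d : ℝ) ^ 3 ∧ (d : ℝ) ≤ (n : ℝ) ^ (0.45 : ℝ)) (fun _ _ G => FP1 G)

/-- lower bound for the number of 2-stars in regime A2 -/
def Stmt_Star2Low : Prop :=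
  ∀ C : ℝ, 0 < C → ∃ c : ℝ, 0 < c ∧
    Whp (fun n d => (n : ℝ) ^ (0.42 : ℝ) ≤ d ∧ (d : ℝ) ≤ C * Real.sqrt (n * Real.log n))
      (fun n d G => ∀ v u, G.Adj v u →
        c * (d : ℝ) ^ 6 / ((Real.log n) ^ 3 * (n : ℝ) ^ 2) ≤
          ((univ.filter fun t : Fin n × Fin n × Fin n => Star2 G v u t.1 t.2.1 t.2.2).card : ℝ))

def Stmt_A2 : Prop :=
  ∀ C : ℝ, 0 < C →
    Whp (fun n d => (n : ℝ) ^ (0.42 : ℝ) ≤ d ∧ (d : ℝ) ≤ C * Real.sqrt (n * Real.log n)) (fun _ _ G => FP2 G)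

/-! ### 5. Regime B -/

def Stmt_Bdet : Prop := ∀ (n d : ℕ) (G : Gr n), G ∈ Reg n d → FPB G → Rigid G

/-- typical properties in regime B, except FIVELOW -/
def Stmt_TypB : Prop :=
  ∀ CA : ℝ, 0 < CA → ∃ K : ℕ, ∃ K₃ κ₀ : ℝ, 0 < K₃ ∧ 0 < κ₀ ∧
    Whp (fun n d => (n : ℝ) ^ (1 - κ₀) ≤ (d : ℝ) ^ 3 ∧ (d : ℝ) ^ 3 ≤ CA * n)
      (fun _ d G => T1 K G ∧ TB2 K₃ G ∧ TB3 G ∧ TB4 d G ∧ TB6 G)

/-- functions `ι → β` with prescribed fibre sizes -/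
def fits {ι β : Type} [Fintype ι] [Fintype β] (s : β → ℕ) : Finset (ι → β) :=
  univ.filter fun π => ∀ b, (univ.filter fun i => π i = b).card = s b

/-- OCC: occupancy anticoncentration (no graphs) -/
def Stmt_OCC : Prop :=
  ∀ CA c C' : ℝ, 0 < CA → 0 < c → 0 < C' → ∃ κ : ℝ, 0 < κ ∧ ∃ k₀ L n₀ : ℕ, ∀ n ≥ n₀, ∀ d : ℕ,
    (n : ℝ) ^ (1 - κ) ≤ (d : ℝ) ^ 3 → (d : ℝ) ^ 3 ≤ CA * n →
    ∀ (ι β : Type) [Fintype ι] [Fintype β] (s : β → ℕ) (mk : Finset ι) (F : ℕ → ℕ),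
      d ≤ 2 * Fintype.card β → Fintype.card β ≤ d → (∀ b, s b + 1 ≤ d) → Fintype.card ι = ∑ b, s b →
      (∑ b, ((d : ℝ) - 1 - s b)) ≤ C' * d * Real.log n →
      c * lam n d ≤ mk.card → (mk.card : ℝ) ≤ 30 * lam n d →
      (((fits s : Finset (ι → β)).filter fun π => ∀ k ∈ Finset.Ico k₀ (k₀ + L),
          (univ.filter fun b => (mk.filter fun i => π i = b).card = k).card = F k).card : ℝ)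
        ≤ (n : ℝ) ^ (-5 : ℝ) * (fits s : Finset (ι → β)).card

/-- KEY: the resampling estimate in regime B -/
def Stmt_Key : Prop :=
  ∀ (CA : ℝ) (K : ℕ) (K₃ c : ℝ), 0 < CA → 0 < K₃ → 0 < c → ∃ κ : ℝ, 0 < κ ∧ ∃ n₀ : ℕ, ∀ n ≥ n₀, ∀ d : ℕ,
    (n : ℝ) ^ (1 - κ) ≤ (d : ℝ) ^ 3 → (d : ℝ) ^ 3 ≤ CA * n →
    ∀ v u v' u' : Fin n, v ≠ u → v' ≠ u' → (v, u) ≠ (v', u') →
      (((Reg n d).filter fun G => TypB K K₃ c n d G ∧ G.Adj v u ∧ G.Adj v' u' ∧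
          ∀ k, prof G v u k = prof G v' u' k).card : ℝ) ≤ (n : ℝ) ^ (-5 : ℝ) * (Reg n d).card

def Stmt_B : Prop :=
  ∀ CA : ℝ, 0 < CA → ∃ κ : ℝ, 0 < κ ∧
    Whp (fun n d => (n : ℝ) ^ (1 - κ) ≤ (d : ℝ) ^ 3 ∧ (d : ℝ) ^ 3 ≤ CA * n) (fun _ _ G => FPB G)

/-! ### 6. Regime C, typical properties -/

def Stmt_T2 : Prop :=
  ∀ ε₀ : ℝ, 0 < ε₀ → ∃ K : ℕ, Whp (fun n d => (d : ℝ) ^ 3 ≤ (n : ℝ) ^ (1 - ε₀)) (fun _ _ G => T2 K G)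

def Stmt_T3 : Prop :=
  ∀ ε ε₀ : ℝ, 0 < ε → 0 < ε₀ → ∃ c₁ c₂ : ℝ, 0 < c₁ ∧ 0 < c₂ ∧ Whp (RegC ε ε₀) (fun n d G => T3 c₁ c₂ n d G)

def Stmt_T4 : Prop :=
  ∀ ε ε₀ : ℝ, 0 < ε → 0 < ε₀ → ∃ c : ℝ, 0 < c ∧
    Whp (RegC ε ε₀) (fun n d G => T4 ((n : ℝ) ^ (-c) * lam n d) G)

def Stmt_T5 : Prop :=
  ∀ ε ε₀ : ℝ, 0 < ε → 0 < ε₀ → ∃ c : ℝ, 0 < c ∧
    Whp (RegC ε ε₀) (fun n d G => T5 ((n : ℝ) ^ (-c) * lam n d) G)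

def Stmt_T6 : Prop :=
  ∀ ε ε₀ : ℝ, 0 < ε → 0 < ε₀ → ∃ C : ℝ, 0 < C ∧ Whp (RegC ε ε₀) (fun n d G => T6 C n d G)

def Stmt_T7 : Prop :=
  ∀ ε ε₀ δ : ℝ, 0 < ε → 0 < ε₀ → 0 < δ → ∃ c : ℝ, 0 < c ∧ Whp (RegC ε ε₀) (fun n d G => T7 c δ n d G)

def Stmt_T8 : Prop :=
  ∀ ε ε₀ : ℝ, 0 < ε → 0 < ε₀ → ∃ c : ℝ, 0 < c ∧
    Whp (RegC ε ε₀) (fun n d G => T8 ((n : ℝ) ^ (-c) * d * lam n d) G)

def Stmt_T9 : Prop :=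
  ∀ ε ε₀ δ : ℝ, 0 < ε → 0 < ε₀ → 0 < δ → ∃ c : ℝ, 0 < c ∧ Whp (RegC ε ε₀) (fun n d G => T9 δ c n d G)

/-! ### 7. Phase 1 -/

/-- `3`-path from `x` to `z` avoiding `v` with all edges in `Ω` -/
def J3Ω {n : ℕ} (Ω : Finset (Sym2 (Fin n))) (G : Gr n) (v x z : Fin n) : Prop :=
  ∃ a b, P3 G x a b z ∧ a ≠ v ∧ b ≠ v ∧ s(x, a) ∈ Ω ∧ s(a, b) ∈ Ω ∧ s(b, z) ∈ Ω

/-- the hits of `u'` for the port `(v, w)` -/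
def hits {n : ℕ} (Ω : Finset (Sym2 (Fin n))) (G H : Gr n) (σ : Fin n → Equiv.Perm (Fin n)) (v w u' : Fin n) : ℕ :=
  (univ.filter fun z : Fin n => H.Adj v z ∧ z ≠ w ∧ s(v, z) ∈ Ω ∧ J3Ω Ω H v w z ∧
    J3Ω Ω G v u' ((σ v).symm z)).card

/-- ordered changed edges `(v,w)` which are live: `vw ∉ Ω` and the targets of its bad ports are not in `Ω` -/
def Live {n : ℕ} (Ω : Finset (Sym2 (Fin n))) (H : Gr n) (σ : Fin n → Equiv.Perm (Fin n)) (v w : Fin n) : Prop :=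
  s(v, w) ∉ Ω ∧ ((σ v).symm w ≠ w → s(v, (σ v).symm w) ∉ Ω) ∧ ((σ w).symm v ≠ v → s(w, (σ w).symm v) ∉ Ω)

/-- `Ω` is good for `(G, H, σ)`; `h₀` is the hit threshold, `ρ` the density -/
def GoodΩ {n : ℕ} (d : ℕ) (ρ h₀ : ℝ) (G H : Gr n) (σ : Fin n → Equiv.Perm (Fin n))
    (Ω : Finset (Sym2 (Fin n))) : Prop :=
  (∀ x : Fin n, 16 * (Ω.filter fun f => x ∈ f).card ≤ n) ∧
  ((ed G ∩ Ω).card : ℝ) ≤ 8 * ρ * n * d ∧ ((ed H ∩ Ω).card : ℝ) ≤ 8 * ρ * n * d ∧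
  (∀ v w, H.Adj v w → (σ v).symm w ≠ w → h₀ < hits Ω G H σ v w ((σ v).symm w)) ∧
  2 * (univ.filter fun t : Fin n × Fin n => Ch H σ t.1 t.2 ∧ ¬ Live Ω H σ t.1 t.2).card ≤ Mch H σ

/-- PH1a: for a random `Ω` of density `n^{-δ₁}` (subsets of the set of non-diagonal pairs) -/
def Stmt_PH1a : Prop :=
  ∀ (ε ε₀ c₁ c₂ c₄ δ₁ : ℝ) (K : ℕ), 0 < ε → 0 < ε₀ → 0 < c₁ → 0 < c₂ → 0 < c₄ → 0 < δ₁ → 16 * δ₁ ≤ c₄ →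
    16 * δ₁ ≤ ε → ∃ n₀ : ℕ, ∀ n ≥ n₀, ∀ d : ℕ, RegC ε ε₀ n d → ∀ (G H : Gr n) (σ : Fin n → Equiv.Perm (Fin n)),
      G ∈ Reg n d → IsPartner G H σ → T1 K G → T2 K G → T3 c₁ c₂ n d G →
      1 / 2 ≤ ∑ Ω ∈ ((univ : Finset (Sym2 (Fin n))).filter fun e => ¬ e.IsDiag).powerset,
        wt ((n : ℝ) ^ (-δ₁)) ((univ : Finset (Sym2 (Fin n))).filter fun e => ¬ e.IsDiag) Ω *
          (if GoodΩ d ((n : ℝ) ^ (-δ₁)) ((n : ℝ) ^ (-c₄) * lam n d) G H σ Ω then 1 else 0)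

/-- PH1b: for a fixed `Ω`, few graphs have a partner with many changed edges for which `Ω` is good -/
def Stmt_PH1b : Prop :=
  ∀ (ε ε₀ c₄ δ δ₁ : ℝ), 0 < ε → 0 < ε₀ → 0 < c₄ → 0 < δ → 3 * δ < δ₁ → δ₁ ≤ 1 / 100 →
    ∀ η : ℝ, 0 < η → ∃ n₀ : ℕ, ∀ n ≥ n₀, ∀ d : ℕ, RegC ε ε₀ n d → ∀ Ω : Finset (Sym2 (Fin n)),
      (((Reg n d).filter fun G => T4 ((n : ℝ) ^ (-c₄) * lam n d) G ∧
        ∃ (H : Gr n) (σ : Fin n → Equiv.Perm (Fin n)), IsPartner G H σ ∧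
          (n : ℝ) ^ (1 - 3 * δ) * d < Mch H σ ∧
          GoodΩ d ((n : ℝ) ^ (-δ₁)) ((n : ℝ) ^ (-c₄) * lam n d) G H σ Ω).card : ℝ) ≤ η * (Reg n d).card

def Stmt_PH1 : Prop :=
  ∀ ε ε₀ : ℝ, 0 < ε → 0 < ε₀ → ∃ δ : ℝ, 0 < δ ∧ Whp (RegC ε ε₀) (fun n d G => PH1 δ n d G)

/-! ### 8. Phase 2 (deterministic) -/

/-- everything known about `(G, H, σ)` in Phase 2 -/
structure Ctx (K : ℕ) (c₁ c₂ c₄ c₅ C₆ δ c₇ c₈ c₉ : ℝ) (n d : ℕ) (G H : Gr n) (σ : Fin n → Equiv.Perm (Fin n)) :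
    Prop where
  reg : G ∈ Reg n d
  part : IsPartner G H σ
  t1 : T1 K G
  t2 : T2 K G
  t3 : T3 c₁ c₂ n d G
  t4 : T4 ((n : ℝ) ^ (-c₄) * lam n d) G
  t5 : True
  t6 : T6 C₆ n d G
  t7 : T7 c₇ δ n d G
  t8 : T8 ((n : ℝ) ^ (-c₈) * d * lam n d) G
  t9 : T9 δ c₉ n d G
  ph1 : (Mch H σ : ℝ) ≤ (n : ℝ) ^ (1 - 3 * δ) * d

/-- Step A: 5-cycles of `H` through a changed edge `p q` whose other edges are unchanged -/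
def Stmt_StepA : Prop :=
  ∀ (K : ℕ) (c₁ c₂ c₄ c₅ C₆ δ c₇ c₈ c₉ : ℝ) (n d : ℕ) (G H : Gr n) (σ : Fin n → Equiv.Perm (Fin n)),
    Ctx K c₁ c₂ c₄ c₅ C₆ δ c₇ c₈ c₉ n d G H σ → ∀ p q, Ch H σ p q →
      ((univ.filter fun t : Fin n × Fin n × Fin n =>
        C5 H t.1 t.2.1 p q t.2.2 ∧ ¬ Ch H σ t.1 t.2.1 ∧ ¬ Ch H σ t.2.1 p ∧ ¬ Ch H σ q t.2.2 ∧
          ¬ Ch H σ t.2.2 t.1).card : ℝ)
        ≤ (n : ℝ) ^ (-c₅) * lam n d + 2 * K * ((n : ℝ) ^ (-c₄) * lam n d)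

/-- Step D: few changed edges have two light endpoints -/
def Stmt_StepD : Prop :=
  ∀ (K : ℕ) (ε ε₀ c₁ c₂ c₄ c₅ C₆ δ c₇ c₈ c₉ : ℝ), 0 < ε → 0 < ε₀ → 0 < c₁ → 0 < c₂ → 0 < c₄ → 0 < c₅ →
    0 < C₆ → 0 < δ → 0 < c₇ → 0 < c₈ → 0 < c₉ → ∃ C₂ : ℝ, 0 < C₂ ∧ ∀ η : ℝ, 0 < η → ∃ n₀ : ℕ, ∀ n ≥ n₀, ∀ d : ℕ,
      RegC ε ε₀ n d → ∀ (G H : Gr n) (σ : Fin n → Equiv.Perm (Fin n)),
        Ctx K c₁ c₂ c₄ c₅ C₆ δ c₇ c₈ c₉ n d G H σ →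
          ((univ.filter fun t : Fin n × Fin n => Ch H σ t.1 t.2 ∧
            (Fd H σ t.1 : ℝ) ≤ η * d ∧ (Fd H σ t.2 : ℝ) ≤ η * d).card : ℝ) ≤ C₂ * η * Mch H σ

/-- number of 5-cycles `(b,x,y,y',x')` of `H` with a changed inner edge (`xy`, `yy'` or `y'x'`) -/
def Bad5 {n : ℕ} (H : Gr n) (σ : Fin n → Equiv.Perm (Fin n)) (b : Fin n) : ℕ :=
  (univ.filter fun t : Fin n × Fin n × Fin n × Fin n =>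
    C5 H b t.1 t.2.1 t.2.2.1 t.2.2.2 ∧
      (Ch H σ t.1 t.2.1 ∨ Ch H σ t.2.1 t.2.2.1 ∨ Ch H σ t.2.2.1 t.2.2.2)).card

/-- Steps E, F: if there are changed edges, some heavy vertex has few 5-cycles with a changed inner edge.
`C₃` does not depend on `η₂`. -/
def Stmt_StepF : Prop :=
  ∀ (K : ℕ) (ε ε₀ c₁ c₂ c₄ c₅ C₆ δ c₇ c₈ c₉ : ℝ), 0 < ε → 0 < ε₀ → 0 < c₁ → 0 < c₂ → 0 < c₄ → 0 < c₅ →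
    0 < C₆ → 0 < δ → 0 < c₇ → 0 < c₈ → 0 < c₉ → ∃ η₁ C₃ : ℝ, 0 < η₁ ∧ 0 < C₃ ∧ ∀ η₂ : ℝ, 0 < η₂ → η₂ ≤ η₁ →
      ∃ n₀ : ℕ, ∀ n ≥ n₀, ∀ d : ℕ, RegC ε ε₀ n d → ∀ (G H : Gr n) (σ : Fin n → Equiv.Perm (Fin n)),
        Ctx K c₁ c₂ c₄ c₅ C₆ δ c₇ c₈ c₉ n d G H σ → 0 < Mch H σ →
          ∃ b, η₁ * d < Fd H σ b ∧ (Bad5 H σ b : ℝ) ≤ C₃ * η₂ * d * lam n d

/-- Step G: a vertex with few 5-cycles with a changed inner edge has few changed edges -/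
def Stmt_StepG : Prop :=
  ∀ (K : ℕ) (ε ε₀ c₁ c₂ c₄ c₅ C₆ δ c₇ c₈ c₉ : ℝ), 0 < ε → 0 < ε₀ → 0 < c₁ → 0 < c₂ → 0 < c₄ → 0 < c₅ →
    0 < C₆ → 0 < δ → 0 < c₇ → 0 < c₈ → 0 < c₉ → ∃ C₅ : ℝ, 0 < C₅ ∧ ∀ η : ℝ, 0 < η →
      ∃ n₀ : ℕ, ∀ n ≥ n₀, ∀ d : ℕ, RegC ε ε₀ n d → ∀ (G H : Gr n) (σ : Fin n → Equiv.Perm (Fin n)),
        Ctx K c₁ c₂ c₄ c₅ C₆ δ c₇ c₈ c₉ n d G H σ → ∀ b, (Bad5 H σ b : ℝ) ≤ η * d * lam n d →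
          (Fd H σ b : ℝ) ≤ C₅ * η * d

/-! ### regimes and main theorem -/

/-- Regime C: rigid whp -/
def Stmt_C : Prop :=
  ∀ ε ε₀ : ℝ, 0 < ε → 0 < ε₀ → Whp (RegC ε ε₀) (fun _ _ G => Rigid G)

end

end Pool.Agent.RRG
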