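import Pool.Agent.RRG.Basic

/-!
# The 2-edge switching `G - xy - zt + xt + yz` (MP_d15a9b_pr)
-/

open Finset Filter Topology
open scoped Classical

set_option linter.unusedSimpArgs false

namespace Pool.Agent.RRG

variable {n : ℕ}

/-- the switching `G - xy - zt + xt + yz` -/
def sw (G : Gr n) (x y z t : Fin n) : Gr n where
  Adj a b := a ≠ b ∧ ((G.Adj a b ∧ s(a, b) ≠ s(x, y) ∧ s(a, b) ≠ s(z, t)) ∨
    s(a, b) = s(x, t) ∨ s(a, b) = s(y, z))
  symm := ⟨fun a b h => by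
    rw [Sym2.eq_swap (a := b) (b := a), G.adj_comm b a]
    exact ⟨h.1.symm, h.2⟩⟩
  loopless := ⟨fun a h => h.1 rfl⟩

/-- the switching is admissible -/
def OKsw (G : Gr n) (x y z t : Fin n) : Prop :=
  G.Adj x y ∧ G.Adj z t ∧ x ≠ z ∧ x ≠ t ∧ y ≠ z ∧ y ≠ t ∧ ¬ G.Adj x t ∧ ¬ G.Adj y z

theorem OKsw.xy {G : Gr n} {x y z t : Fin n} (h : OKsw G x y z t) : x ≠ y := h.1.ne
theorem OKsw.zt {G : Gr n} {x y z t : Fin n} (h : OKsw G x y z t) : z ≠ t := h.2.1.ne

theorem sw_adj {G : Gr n} {x y z t : Fin n} (h : OKsw G x y z t) (a b : Fin n) :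
    (sw G x y z t).Adj a b ↔ ((G.Adj a b ∧ s(a, b) ≠ s(x, y) ∧ s(a, b) ≠ s(z, t)) ∨
      s(a, b) = s(x, t) ∨ s(a, b) = s(y, z)) := by
  change (a ≠ b ∧ _) ↔ _
  constructor
  · exact fun h => h.2
  · intro h1
    refine ⟨?_, h1⟩
    rcases h1 with h1 | h1 | h1
    · exact h1.1.ne
    · rintro rfl
      rw [Sym2.eq_iff] at h1
      rcases h1 with ⟨h2, h3⟩ | ⟨h2, h3⟩
      · exact h.2.2.2.1 (h2.symm.trans h3)
      · exact h.2.2.2.1 (h3.symm.trans h2)
    · rintro rfl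
      rw [Sym2.eq_iff] at h1
      rcases h1 with ⟨h2, h3⟩ | ⟨h2, h3⟩
      · exact h.2.2.2.2.1 (h2.symm.trans h3)
      · exact h.2.2.2.2.1 (h3.symm.trans h2)

theorem ed_sw {G : Gr n} {x y z t : Fin n} (h : OKsw G x y z t) :
    ed (sw G x y z t) = (((ed G).erase s(x, y)).erase s(z, t)) ∪ {s(x, t), s(y, z)} := by
  ext e
  induction e using Sym2.ind with
  | _ a b =>
    rw [mk_mem_ed, sw_adj h]
    simp only [mem_union, mem_erase, mk_mem_ed, mem_insert, mem_singleton]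
    tauto

/-- reversing the switching -/
theorem OKsw.rev {G : Gr n} {x y z t : Fin n} (h : OKsw G x y z t) :
    OKsw (sw G x y z t) x t z y := by
  have h' := h
  obtain ⟨h1, h2, h3, h4, h5, h6, h7, h8⟩ := h'
  have hxy := h.xy
  have hzt := h.zt
  refine ⟨?_, ?_, h3, hxy, hzt.symm, h6.symm, ?_, ?_⟩
  · rw [sw_adj h]; right; left; rfl
  · rw [sw_adj h]; right; right; exact Sym2.eq_swap
  · rw [sw_adj h]
    simp only [Sym2.eq_iff, ne_eq]
    simp [hxy, hxy.symm, hzt, hzt.symm, h3, h3.symm, h4, h4.symm, h5, h5.symm, h6, h6.symm]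
  · rw [sw_adj h]
    simp only [Sym2.eq_iff, ne_eq]
    simp [hxy, hxy.symm, hzt, hzt.symm, h3, h3.symm, h4, h4.symm, h5, h5.symm, h6, h6.symm]

theorem sw_sw {G : Gr n} {x y z t : Fin n} (h : OKsw G x y z t) :
    sw (sw G x y z t) x t z y = G := by
  ext a b
  rw [sw_adj h.rev, sw_adj h]
  obtain ⟨h1, h2, h3, h4, h5, h6, h7, h8⟩ := h
  have e1 : s(z, y) = s(y, z) := Sym2.eq_swap
  have e2 : s(t, z) = s(z, t) := Sym2.eq_swap
  rw [e1, e2]
  constructor
  · rintro (⟨h9 | h9 | h9, h10, h11⟩ | h9 | h9)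
    · exact h9.1
    · exact absurd h9 h10
    · exact absurd h9 h11
    · rw [← mk_mem_ed, h9, mk_mem_ed]; exact h1
    · rw [← mk_mem_ed, h9, mk_mem_ed]; exact h2
  · intro hab
    have n1 : s(a, b) ≠ s(x, t) := by
      intro hh; rw [← mk_mem_ed, hh, mk_mem_ed] at hab; exact h7 hab
    have n2 : s(a, b) ≠ s(y, z) := by
      intro hh; rw [← mk_mem_ed, hh, mk_mem_ed] at hab; exact h8 hab
    by_cases c1 : s(a, b) = s(x, y)
    · right; left; exact c1
    · by_cases c2 : s(a, b) = s(z, t)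
      · right; right; exact c2
      · left; exact ⟨Or.inl ⟨hab, c1, c2⟩, n1, n2⟩

theorem card_swap {α : Type*} [DecidableEq α] {S : Finset α} {a b : α} (ha : a ∈ S) (hb : b ∉ S) :
    (insert b (S.erase a)).card = S.card := by
  rw [card_insert_of_notMem (fun h => hb (mem_of_mem_erase h)), card_erase_of_mem ha]
  have : 0 < S.card := card_pos.2 ⟨a, ha⟩
  omega

theorem nb_sw_x {G : Gr n} {x y z t : Fin n} (h : OKsw G x y z t) :
    nb (sw G x y z t) x = insert t ((nb G x).erase y) := by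
  obtain ⟨h1, h2, h3, h4, h5, h6, h7, h8⟩ := id h
  have hxy := h.xy
  have hzt := h.zt
  ext b
  rw [mem_nb, sw_adj h]
  simp only [mem_insert, mem_erase, mem_nb, Sym2.eq_iff, ne_eq]
  simp only [hxy, h3, h4, false_and, true_and, or_false, false_or, not_false_eq_true, and_true]
  tauto

theorem nb_sw_y {G : Gr n} {x y z t : Fin n} (h : OKsw G x y z t) :
    nb (sw G x y z t) y = insert z ((nb G y).erase x) := by
  obtain ⟨h1, h2, h3, h4, h5, h6, h7, h8⟩ := id h
  have hxy := h.xy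
  have hzt := h.zt
  ext b
  rw [mem_nb, sw_adj h]
  simp only [mem_insert, mem_erase, mem_nb, Sym2.eq_iff, ne_eq]
  simp only [hxy.symm, h5, h6, false_and, true_and, or_false, false_or, not_false_eq_true, and_true]
  tauto

theorem nb_sw_z {G : Gr n} {x y z t : Fin n} (h : OKsw G x y z t) :
    nb (sw G x y z t) z = insert y ((nb G z).erase t) := by
  obtain ⟨h1, h2, h3, h4, h5, h6, h7, h8⟩ := id h
  have hxy := h.xy
  have hzt := h.zt
  ext b
  rw [mem_nb, sw_adj h]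
  simp only [mem_insert, mem_erase, mem_nb, Sym2.eq_iff, ne_eq]
  simp only [h3.symm, h5.symm, hzt, false_and, true_and, or_false, false_or, not_false_eq_true, and_true]
  tauto

theorem nb_sw_t {G : Gr n} {x y z t : Fin n} (h : OKsw G x y z t) :
    nb (sw G x y z t) t = insert x ((nb G t).erase z) := by
  obtain ⟨h1, h2, h3, h4, h5, h6, h7, h8⟩ := id h
  have hxy := h.xy
  have hzt := h.zt
  ext b
  rw [mem_nb, sw_adj h]
  simp only [mem_insert, mem_erase, mem_nb, Sym2.eq_iff, ne_eq]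
  simp only [h4.symm, h6.symm, hzt.symm, false_and, true_and, or_false, false_or, not_false_eq_true, and_true]
  tauto

theorem nb_sw_of_ne {G : Gr n} {x y z t v : Fin n} (h : OKsw G x y z t) (hx : v ≠ x) (hy : v ≠ y)
    (hz : v ≠ z) (ht : v ≠ t) : nb (sw G x y z t) v = nb G v := by
  ext b
  rw [mem_nb, mem_nb, sw_adj h]
  simp only [Sym2.eq_iff, ne_eq]
  tauto

theorem sw_mem_Reg {G : Gr n} {x y z t : Fin n} {d : ℕ} (h : OKsw G x y z t) (hG : G ∈ Reg n d) :
    sw G x y z t ∈ Reg n d := by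
  rw [mem_Reg] at hG ⊢
  intro v
  obtain ⟨h1, h2, h3, h4, h5, h6, h7, h8⟩ := id h
  by_cases hx : v = x
  · subst hx
    rw [nb_sw_x h, card_swap (mem_nb.2 h1) (fun hh => h7 (mem_nb.1 hh))]; exact hG v
  by_cases hy : v = y
  · subst hy
    rw [nb_sw_y h, card_swap (mem_nb.2 h1.symm) (fun hh => h8 (mem_nb.1 hh))]; exact hG v
  by_cases hz : v = z
  · subst hz
    rw [nb_sw_z h, card_swap (mem_nb.2 h2) (fun hh => h8 (mem_nb.1 hh).symm)]; exact hG v
  by_cases ht : v = t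
  · subst ht
    rw [nb_sw_t h, card_swap (mem_nb.2 h2.symm) (fun hh => h7 (mem_nb.1 hh).symm)]; exact hG v
  rw [nb_sw_of_ne h hx hy hz ht]; exact hG v

/-- double counting for switchings: `Fw G` are the admissible forward switchings `(x,y,z,t)` of
`G ∈ A`, they lead into `B`, and at most `b` of them lead to a given graph. -/
theorem switch_count {A B : Finset (Gr n)} (Fw Bw : Gr n → Finset (Fin n × Fin n × Fin n × Fin n))
    (f b : ℝ) (h1 : ∀ G ∈ A, f ≤ ((Fw G).card : ℝ))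
    (h2 : ∀ G ∈ A, ∀ q ∈ Fw G, OKsw G q.1 q.2.1 q.2.2.1 q.2.2.2 ∧
      sw G q.1 q.2.1 q.2.2.1 q.2.2.2 ∈ B ∧ q ∈ Bw (sw G q.1 q.2.1 q.2.2.1 q.2.2.2))
    (h3 : ∀ G' ∈ B, ((Bw G').card : ℝ) ≤ b) : (A.card : ℝ) * f ≤ (B.card : ℝ) * b := by
  have hinj : (A.sigma Fw).card ≤ (B.sigma Bw).card := by
    apply card_le_card_of_injOn
      (fun p => ⟨sw p.1 p.2.1 p.2.2.1 p.2.2.2.1 p.2.2.2.2, p.2⟩)
    · rintro ⟨G, q⟩ hp
      rw [mem_coe, mem_sigma] at hp
      obtain ⟨_, h5, h6⟩ := h2 G hp.1 q hp.2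
      exact mem_coe.2 (mem_sigma.2 ⟨h5, h6⟩)
    · rintro ⟨G, q⟩ hp ⟨G', q'⟩ hp' heq
      rw [mem_coe, mem_sigma] at hp hp'
      have e1 := (h2 G hp.1 q hp.2).1
      have e2 := (h2 G' hp'.1 q' hp'.2).1
      simp only [Sigma.mk.injEq] at heq
      obtain ⟨e3, e4⟩ := heq
      have e5 : q = q' := eq_of_heq e4
      subst e5
      have : G = G' := by
        rw [← sw_sw e1, ← sw_sw e2, e3]
      rw [this]
  have e1 : (A.card : ℝ) * f ≤ ((A.sigma Fw).card : ℝ) := by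
    rw [card_sigma, Nat.cast_sum, ← nsmul_eq_mul]
    exact card_nsmul_le_sum _ _ _ h1
  have e2 : ((B.sigma Bw).card : ℝ) ≤ (B.card : ℝ) * b := by
    rw [card_sigma, Nat.cast_sum, ← nsmul_eq_mul]
    exact sum_le_card_nsmul _ _ _ h3
  have e3 : ((A.sigma Fw).card : ℝ) ≤ ((B.sigma Bw).card : ℝ) := by exact_mod_cast hinj
  linarith

/-- number of ordered edges -/
theorem card_darts {G : Gr n} {d : ℕ} (hG : G ∈ Reg n d) :
    ((univ : Finset (Fin n × Fin n)).filter fun p => G.Adj p.1 p.2).card = n * d := by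
  rw [mem_Reg] at hG
  have h1 : ((univ : Finset (Fin n × Fin n)).filter fun p => G.Adj p.1 p.2).card
      = ∑ v : Fin n, (nb G v).card := by
    rw [card_filter, ← univ_product_univ, sum_product]
    refine sum_congr rfl fun v _ => ?_
    unfold nb
    rw [card_filter]
  rw [h1, sum_congr rfl (fun v _ => hG v), sum_const, card_univ, Fintype.card_fin, smul_eq_mul]

end Pool.Agent.RRG
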