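import Pool.Agent.RRG.DOUse

/-!
# Asymptotics for T4 and T5 (MP_d15a9b_pr)
-/

open Finset Filter Topology
open scoped Classical

namespace Pool.Agent.RRG

namespace T45

/-- the path sum bound -/
noncomputable def Gam (n : ℕ) (w : ℝ) : ℝ := (n : ℝ) ^ 2 * w ^ 3 + 40 * n * w ^ 2 + 400 * w

theorem ev_rpow (a M : ℝ) (ha : 0 < a) : ∃ n₀ : ℕ, ∀ n ≥ n₀, M ≤ (n : ℝ) ^ a := by
  have h := (tendsto_rpow_atTop ha).comp tendsto_natCast_atTop_atTop
  have := h.eventually_ge_atTop M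
  obtain ⟨n₀, h0⟩ := eventually_atTop.1 this
  exact ⟨n₀, fun n hn => h0 n hn⟩

theorem tail (ε ε₀ κ : ℝ) (hε : 0 < ε) (hε₀ : 0 < ε₀) (hκ : 7 ≤ κ) :
    ∃ c : ℝ, 0 < c ∧ ∃ n₀ : ℕ, ∀ n ≥ n₀, ∀ d : ℕ, RegC ε ε₀ n d →
      64 ≤ n ∧ 64 * d ≤ n ∧ 0 < ⌊((n : ℝ) ^ (-c) * lam n d) / κ⌋₊ ∧
      32 * (⌊((n : ℝ) ^ (-c) * lam n d) / κ⌋₊ * 7) ≤ n * d ∧
      (Real.exp 1 * ((n : ℝ) ^ 3 * (2 * (d : ℝ) / n) ^ 4 * Gam n (2 * (d : ℝ) / n))
        / (⌊((n : ℝ) ^ (-c) * lam n d) / κ⌋₊ : ℝ)) ^ ⌊((n : ℝ) ^ (-c) * lam n d) / κ⌋₊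
        ≤ (n : ℝ) ^ (-4 : ℝ) := by
  set c := min (ε₀ / 2) (2 * ε) with hc
  have hc0 : 0 < c := lt_min (by linarith) (by linarith)
  have hc1 : c ≤ ε₀ / 2 := min_le_left _ _
  have hc2 : c ≤ 2 * ε := min_le_right _ _
  refine ⟨c, hc0, ?_⟩
  have hκ0 : 0 < κ := by linarith
  set M := max 2 (32 / ε₀) with hM
  have hM2 : 2 ≤ M := le_max_left _ _
  have hM3 : 32 / ε₀ ≤ M := le_max_right _ _
  obtain ⟨n₁, h1⟩ := ev_rpow (2 * ε) (κ * M) (by linarith)
  obtain ⟨n₂, h2⟩ := ev_rpow (ε₀ / 4) (Real.exp 1 * 16 * 968 * (2 * κ)) (by linarith)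
  refine ⟨max 512 (max n₁ n₂), fun n hn d hR => ?_⟩
  have hn512 : 512 ≤ n := le_trans (le_max_left _ _) hn
  have hnn1 : n₁ ≤ n := le_trans (le_trans (le_max_left _ _) (le_max_right _ _)) hn
  have hnn2 : n₂ ≤ n := le_trans (le_trans (le_max_right _ _) (le_max_right _ _)) hn
  have e1 := h1 n hnn1
  have e2 := h2 n hnn2
  set N : ℝ := (n : ℝ) with hN
  have hN512 : (512 : ℝ) ≤ N := by rw [hN]; exact_mod_cast hn512
  have hN0 : 0 < N := by linarith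
  have hN1 : 1 ≤ N := by linarith
  obtain ⟨hRd, hRd3⟩ := hR
  set D : ℝ := (d : ℝ) with hD
  have hD1 : 1 ≤ D := by
    refine le_trans ?_ hRd
    exact Real.one_le_rpow hN1 (by linarith)
  have hD0 : 0 < D := by linarith
  have hD3 : D ^ 3 ≤ N := by
    refine hRd3.trans ?_
    calc N ^ (1 - ε₀) ≤ N ^ (1 : ℝ) := Real.rpow_le_rpow_of_exponent_le hN1 (by linarith)
      _ = N := Real.rpow_one N
  -- λ
  have hlam : lam n d = D ^ 4 / N := rfl
  have hD4 : N ^ (1 + 4 * ε) ≤ D ^ 4 := by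
    have : (N ^ (1 / 4 + ε)) ^ 4 = N ^ (1 + 4 * ε) := by
      rw [← Real.rpow_natCast, ← Real.rpow_mul hN0.le]
      congr 1; push_cast; ring
    rw [← this]
    exact pow_le_pow_left₀ (by positivity) hRd 4
  have hlam1 : N ^ (4 * ε) ≤ lam n d := by
    rw [hlam, le_div_iff₀ hN0]
    refine le_trans (le_of_eq ?_) hD4
    rw [Real.rpow_add hN0, Real.rpow_one]; ring
  have hlam0 : 0 < lam n d := lt_of_lt_of_le (Real.rpow_pos_of_pos hN0 _) hlam1
  set L := N ^ (-c) * lam n d with hL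
  have hL1 : N ^ (2 * ε) ≤ L := by
    calc N ^ (2 * ε) ≤ N ^ (-c + 4 * ε) := Real.rpow_le_rpow_of_exponent_le hN1 (by linarith)
      _ = N ^ (-c) * N ^ (4 * ε) := Real.rpow_add hN0 _ _
      _ ≤ L := mul_le_mul_of_nonneg_left hlam1 (by positivity)
  have hLκ : M ≤ L / κ := by
    rw [le_div_iff₀ hκ0]; linarith
  have hL0 : 0 < L := lt_of_lt_of_le (Real.rpow_pos_of_pos hN0 _) hL1
  set m := ⌊L / κ⌋₊ with hm
  have hm_le : (m : ℝ) ≤ L / κ := Nat.floor_le (by positivity)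
  have hm_ge : L / κ - 1 < m := by
    have := Nat.lt_floor_add_one (L / κ)
    linarith
  have hm1 : L / (2 * κ) ≤ m := by
    have : L / (2 * κ) = (L / κ) / 2 := by field_simp
    rw [this]; linarith
  have hm2 : M / 2 ≤ m := by
    have : L / (2 * κ) = (L / κ) / 2 := by field_simp
    rw [this] at hm1; linarith
  have hmp : (0 : ℝ) < m := by linarith
  have hLlam : L ≤ lam n d := by
    calc L ≤ 1 * lam n d := by
          refine mul_le_mul_of_nonneg_right ?_ hlam0.le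
          exact Real.rpow_le_one_of_one_le_of_nonpos hN1 (by linarith)
      _ = lam n d := one_mul _
  refine ⟨by omega, ?_, by exact_mod_cast hmp, ?_, ?_⟩
  · have : (64 * D) ^ 3 ≤ N ^ 3 := by
      calc (64 * D) ^ 3 = 64 ^ 3 * D ^ 3 := by ring
        _ ≤ 64 ^ 3 * N := by linarith
        _ ≤ N ^ 3 := by
          have h17 : (512 : ℝ) ^ 2 ≤ N ^ 2 := pow_le_pow_left₀ (by norm_num) hN512 2
          have h18 : N * (512 : ℝ) ^ 2 ≤ N * N ^ 2 := mul_le_mul_of_nonneg_left h17 hN0.le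
          calc 64 ^ 3 * N = N * (512 : ℝ) ^ 2 := by ring
            _ ≤ N * N ^ 2 := h18
            _ = N ^ 3 := by ring
    have h64 : 64 * D ≤ N := le_of_pow_le_pow_left₀ (by norm_num) hN0.le this
    rw [hD, hN] at h64
    exact_mod_cast h64
  · have : (32 : ℝ) * (m * 7) ≤ N * D := by
      have h3 : (m : ℝ) * 7 ≤ L := by
        have h4 : (m : ℝ) * κ ≤ L := (le_div_iff₀ hκ0).1 hm_le
        have h5 : (m : ℝ) * 7 ≤ m * κ := mul_le_mul_of_nonneg_left hκ (by positivity)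
        linarith
      have h6 : 32 * lam n d ≤ N * D := by
        rw [hlam, ← mul_div_assoc, div_le_iff₀ hN0]
        have : 32 * D ^ 3 ≤ N ^ 2 := by nlinarith
        nlinarith
      linarith
    rw [hD, hN] at this
    exact_mod_cast this
  · -- the main bound
    have hw4 : N ^ 3 * (2 * D / N) ^ 4 = 16 * lam n d := by
      rw [hlam]; field_simp; ring
    have hGam : Gam n (2 * D / N) ≤ 968 * N ^ (-ε₀) := by
      have h7 : Gam n (2 * D / N) = (8 * D ^ 3 + 160 * D ^ 2 + 800 * D) / N := by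
        unfold Gam; rw [← hN]; field_simp; ring
      have h8 : 8 * D ^ 3 + 160 * D ^ 2 + 800 * D ≤ 968 * D ^ 3 := by
        have a1 : D ^ 2 ≤ D ^ 3 := pow_le_pow_right₀ hD1 (by norm_num)
        have a2 : D ≤ D ^ 3 := by nlinarith [pow_le_pow_right₀ hD1 (show 1 ≤ 3 by norm_num)]
        linarith
      have h9 : D ^ 3 / N ≤ N ^ (-ε₀) := by
        rw [div_le_iff₀ hN0]
        refine hRd3.trans (le_of_eq ?_)
        rw [← Real.rpow_add_one hN0.ne']; congr 1; ring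
      rw [h7]
      calc (8 * D ^ 3 + 160 * D ^ 2 + 800 * D) / N ≤ 968 * D ^ 3 / N :=
            div_le_div_of_nonneg_right h8 hN0.le
        _ = 968 * (D ^ 3 / N) := by ring
        _ ≤ 968 * N ^ (-ε₀) := by linarith
    have hGam0 : 0 ≤ Gam n (2 * D / N) := by unfold Gam; positivity
    have hbase : Real.exp 1 * (N ^ 3 * (2 * D / N) ^ 4 * Gam n (2 * D / N)) / m
        ≤ N ^ (-(ε₀ / 4)) := by
      rw [hw4, div_le_iff₀ hmp]
      have h10 : Real.exp 1 * (16 * lam n d * Gam n (2 * D / N))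
          ≤ Real.exp 1 * 16 * 968 * (lam n d * N ^ (-ε₀)) := by
        have : 16 * lam n d * Gam n (2 * D / N) ≤ 16 * lam n d * (968 * N ^ (-ε₀)) :=
          mul_le_mul_of_nonneg_left hGam (by positivity)
        nlinarith [Real.exp_pos 1]
      refine h10.trans ?_
      have h11 : N ^ (-(ε₀ / 4)) * (L / (2 * κ)) ≤ N ^ (-(ε₀ / 4)) * m :=
        mul_le_mul_of_nonneg_left hm1 (by positivity)
      refine le_trans ?_ h11
      have h12 : N ^ (-ε₀) ≤ N ^ (-(ε₀ / 4)) * N ^ (-(ε₀ / 4)) * N ^ (-c) := by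
        rw [← Real.rpow_add hN0, ← Real.rpow_add hN0]
        exact Real.rpow_le_rpow_of_exponent_le hN1 (by linarith)
      have h13 : Real.exp 1 * 16 * 968 * (2 * κ) * N ^ (-(ε₀ / 4)) ≤ 1 := by
        calc Real.exp 1 * 16 * 968 * (2 * κ) * N ^ (-(ε₀ / 4))
            ≤ N ^ (ε₀ / 4) * N ^ (-(ε₀ / 4)) :=
              mul_le_mul_of_nonneg_right e2 (by positivity)
          _ = 1 := by rw [← Real.rpow_add hN0]; simp
      have h14 : Real.exp 1 * 16 * 968 * (lam n d * N ^ (-ε₀)) ≤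
          Real.exp 1 * 16 * 968 * (lam n d * (N ^ (-(ε₀ / 4)) * N ^ (-(ε₀ / 4)) * N ^ (-c))) := by
        have := mul_le_mul_of_nonneg_left h12 hlam0.le
        nlinarith [Real.exp_pos 1]
      refine h14.trans ?_
      have h15 : N ^ (-(ε₀ / 4)) * (L / (2 * κ))
          = (N ^ (-(ε₀ / 4)) * N ^ (-c) * lam n d) / (2 * κ) := by rw [hL]; ring
      rw [h15, le_div_iff₀ (by positivity)]
      have h16 : 0 ≤ N ^ (-(ε₀ / 4)) * N ^ (-c) * lam n d := by positivity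
      calc Real.exp 1 * 16 * 968 * (lam n d * (N ^ (-(ε₀ / 4)) * N ^ (-(ε₀ / 4)) * N ^ (-c)))
            * (2 * κ)
          = (Real.exp 1 * 16 * 968 * (2 * κ) * N ^ (-(ε₀ / 4)))
            * (N ^ (-(ε₀ / 4)) * N ^ (-c) * lam n d) := by ring
        _ ≤ 1 * (N ^ (-(ε₀ / 4)) * N ^ (-c) * lam n d) := mul_le_mul_of_nonneg_right h13 h16
        _ = _ := one_mul _
    have hb0 : 0 ≤ Real.exp 1 * (N ^ 3 * (2 * D / N) ^ 4 * Gam n (2 * D / N)) / m := by
      positivity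
    calc (Real.exp 1 * (N ^ 3 * (2 * D / N) ^ 4 * Gam n (2 * D / N)) / m) ^ m
        ≤ (N ^ (-(ε₀ / 4))) ^ m := pow_le_pow_left₀ hb0 hbase m
      _ = N ^ (-(ε₀ / 4) * m) := by rw [← Real.rpow_natCast, ← Real.rpow_mul hN0.le]
      _ ≤ N ^ (-4 : ℝ) := by
        refine Real.rpow_le_rpow_of_exponent_le hN1 ?_
        have : 16 / ε₀ ≤ m := by
          have : 16 / ε₀ = (32 / ε₀) / 2 := by ring
          linarith
        rw [div_le_iff₀ hε₀] at this
        linarith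

/-- regime C implies `d ≤ n^{1/3}` -/
theorem RegC_le {ε ε₀ : ℝ} (h0 : 0 < ε₀) {n d : ℕ} (hn : 1 ≤ n) (h : RegC ε ε₀ n d) :
    (d : ℝ) ≤ (n : ℝ) ^ (1 / 2 - 1 / 6 : ℝ) := by
  have hn' : (1 : ℝ) ≤ n := by exact_mod_cast hn
  have h1 : (d : ℝ) ^ 3 ≤ ((n : ℝ) ^ (1 / 2 - 1 / 6 : ℝ)) ^ 3 := by
    refine h.2.trans ?_
    rw [← Real.rpow_natCast ((n : ℝ) ^ (1 / 2 - 1 / 6 : ℝ)), ← Real.rpow_mul (by positivity)]
    refine Real.rpow_le_rpow_of_exponent_le hn' ?_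
    norm_num
    linarith
  exact le_of_pow_le_pow_left₀ (by norm_num) (by positivity) h1

theorem tend3 : Tendsto (fun n : ℕ => (n : ℝ) ^ 3 * (n : ℝ) ^ (-4 : ℝ)) atTop (𝓝 0) := by
  have h : Tendsto (fun n : ℕ => ((n : ℝ))⁻¹) atTop (𝓝 0) := tendsto_inv_atTop_nhds_zero_nat
  refine h.congr' ?_
  filter_upwards [eventually_ge_atTop 1] with n hn
  have hn' : (0 : ℝ) < n := by exact_mod_cast hn
  rw [← Real.rpow_natCast, ← Real.rpow_add hn', ← Real.rpow_neg_one]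
  norm_num

end T45

end Pool.Agent.RRG
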