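import Pool.Agent.RRG.T45Aux

/-!
# T5 (MP_d15a9b_pr)
-/

open Finset Filter Topology
open scoped Classical

namespace Pool.Agent.RRG

namespace T5mod

/-- the path `p - w - v - c - q`, `x = (w, v, c)` -/
def B5 {n : ℕ} (p q : Fin n) (x : Fin n × Fin n × Fin n) : Finset (Sym2 (Fin n)) :=
  {s(p, x.1), s(x.1, x.2.1), s(x.2.1, x.2.2), s(x.2.2, q)}

/-- the path `w - a - b - c` -/
def P5 {n : ℕ} (w c : Fin n) (y : Fin n × Fin n) : Finset (Sym2 (Fin n)) :=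
  {s(w, y.1), s(y.1, y.2), s(y.2, c)}

/-- all seven edges -/
def E5 {n : ℕ} (p q : Fin n) (t : (Fin n × Fin n × Fin n) × (Fin n × Fin n)) :
    Finset (Sym2 (Fin n)) := B5 p q t.1 ∪ P5 t.1.1 t.1.2.2 t.2

/-- admissible first parts -/
def C5s {n : ℕ} (p q : Fin n) : Finset (Fin n × Fin n × Fin n) :=
  univ.filter fun x => p ≠ x.1 ∧ p ≠ x.2.1 ∧ p ≠ x.2.2 ∧ x.1 ≠ x.2.1 ∧ x.1 ≠ x.2.2 ∧ x.1 ≠ q ∧
    x.2.1 ≠ x.2.2 ∧ x.2.1 ≠ q ∧ x.2.2 ≠ q

/-- admissible second parts -/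
def D5s {n : ℕ} (x : Fin n × Fin n × Fin n) : Finset (Fin n × Fin n) :=
  univ.filter fun y => x.1 ≠ y.1 ∧ x.1 ≠ y.2 ∧ y.1 ≠ y.2 ∧ y.1 ≠ x.2.2 ∧ y.2 ≠ x.2.2 ∧
    y.1 ≠ x.2.1 ∧ y.2 ≠ x.2.1

/-- admissible configurations -/
def I5 {n : ℕ} (p q : Fin n) : Finset ((Fin n × Fin n × Fin n) × (Fin n × Fin n)) :=
  (C5s p q ×ˢ univ).filter fun t => t.2 ∈ D5s t.1

theorem B5_card {n : ℕ} {p q : Fin n} (hpq : p ≠ q) {x : Fin n × Fin n × Fin n}
    (hx : x ∈ C5s p q) : (B5 p q x).card = 4 := by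
  obtain ⟨w, v, c⟩ := x
  simp only [C5s, mem_filter, mem_univ, true_and] at hx
  obtain ⟨h1, h2, h3, h4, h5, h6, h7, h8, h9⟩ := hx
  simp only [B5]
  rw [card_insert_of_notMem, card_insert_of_notMem, card_insert_of_notMem, card_singleton]
  · simp only [mem_singleton, Sym2.eq_iff]; grind
  · simp only [mem_insert, mem_singleton, Sym2.eq_iff]; grind
  · simp only [mem_insert, mem_singleton, Sym2.eq_iff]; grind

theorem not_sub {n : ℕ} {p q : Fin n} (hpq : p ≠ q)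
    {x : Fin n × Fin n × Fin n} (hx : x ∈ C5s p q) {y : Fin n × Fin n} (hy : y ∈ D5s x) :
    ¬ P5 x.1 x.2.2 y ⊆ B5 p q x := by
  obtain ⟨w, v, c⟩ := x
  obtain ⟨a, b⟩ := y
  simp only [C5s, D5s, mem_filter, mem_univ, true_and] at hx hy
  obtain ⟨h1, h2, h3, h4, h5, h6, h7, h8, h9⟩ := hx
  obtain ⟨g1, g2, g3, g4, g5, g6, g7⟩ := hy
  intro hsub
  have k1 := hsub (show s(w, a) ∈ P5 w c (a, b) by simp [P5])
  have k2 := hsub (show s(a, b) ∈ P5 w c (a, b) by simp [P5])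
  have k3 := hsub (show s(b, c) ∈ P5 w c (a, b) by simp [P5])
  simp only [B5, mem_insert, mem_singleton, Sym2.eq_iff] at k1 k2 k3
  grind

theorem sum_bound (hPS : Stmt_PS) {n d : ℕ} {p q : Fin n} (hpq : p ≠ q) :
    ∑ t ∈ I5 p q, (2 * (d : ℝ) / n) ^ (E5 p q t).card
      ≤ (n : ℝ) ^ 3 * (2 * (d : ℝ) / n) ^ 4 * T45.Gam n (2 * (d : ℝ) / n) := by
  set w : ℝ := 2 * (d : ℝ) / n with hw
  have hw0 : 0 ≤ w := by positivity
  have h1 : ∑ t ∈ I5 p q, w ^ (E5 p q t).card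
      = ∑ x ∈ C5s p q, ∑ y ∈ D5s x, w ^ (E5 p q (x, y)).card := by
    unfold I5
    rw [sum_filter, sum_product]
    refine sum_congr rfl fun x _ => ?_
    rw [← sum_filter]
    refine sum_congr ?_ fun _ _ => rfl
    ext y; simp
  rw [h1]
  have h2 : ∀ x ∈ C5s p q, ∑ y ∈ D5s x, w ^ (E5 p q (x, y)).card
      ≤ w ^ 4 * T45.Gam n w := by
    intro x hx
    have hB := B5_card hpq hx
    have hPSx := hPS n w hw0 x.1 x.2.2 (by
      simp only [C5s, mem_filter, mem_univ, true_and] at hx; tauto) (B5 p q x) (by omega)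
    calc ∑ y ∈ D5s x, w ^ (E5 p q (x, y)).card
        = ∑ y ∈ D5s x, w ^ 4 * w ^ ((P5 x.1 x.2.2 y) \ (B5 p q x)).card := by
          refine sum_congr rfl fun y _ => ?_
          rw [← pow_add]
          congr 1
          unfold E5
          rw [union_comm, ← sdiff_union_self_eq_union, card_union_of_disjoint sdiff_disjoint, hB]
          simp only
          omega
      _ = w ^ 4 * ∑ y ∈ D5s x, w ^ ((P5 x.1 x.2.2 y) \ (B5 p q x)).card := by rw [mul_sum]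
      _ ≤ w ^ 4 * T45.Gam n w := by
          refine mul_le_mul_of_nonneg_left ?_ (by positivity)
          refine le_trans ?_ hPSx
          refine sum_le_sum_of_subset_of_nonneg ?_ (fun _ _ _ => by positivity)
          intro y hy
          have hns := not_sub hpq hx hy
          simp only [D5s, mem_filter, mem_univ, true_and] at hy
          simp only [mem_filter, mem_univ, true_and]
          exact ⟨hy.1, hy.2.1, hy.2.2.1, hy.2.2.2.1, hy.2.2.2.2.1, hns⟩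
  calc ∑ x ∈ C5s p q, ∑ y ∈ D5s x, w ^ (E5 p q (x, y)).card
      ≤ ∑ _x ∈ C5s p q, w ^ 4 * T45.Gam n w := sum_le_sum h2
    _ = (C5s p q).card * (w ^ 4 * T45.Gam n w) := by rw [sum_const, nsmul_eq_mul]
    _ ≤ (n : ℝ) ^ 3 * (w ^ 4 * T45.Gam n w) := by
        refine mul_le_mul_of_nonneg_right ?_ (mul_nonneg (by positivity) (by unfold T45.Gam; positivity))
        have : (C5s p q).card ≤ n ^ 3 := by
          refine (card_le_univ _).trans (le_of_eq ?_)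
          simp [Fintype.card_prod]; ring
        exact_mod_cast this
    _ = _ := by ring

/-! conflict sets -/

noncomputable def SA {n : ℕ} (G : Gr n) (q z : Fin n) : Finset (Fin n × Fin n × Fin n) :=
  univ.filter fun t => t.1 = z ∧ P3 G z t.2.1 t.2.2 q

noncomputable def SC {n : ℕ} (G : Gr n) (p z : Fin n) : Finset (Fin n × Fin n × Fin n) :=
  univ.filter fun t => t.2.2 = z ∧ P3 G p t.1 t.2.1 z

noncomputable def SV1 {n : ℕ} (G : Gr n) (q x y : Fin n) : Finset (Fin n × Fin n × Fin n) :=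
  univ.filter fun t => t.1 = x ∧ t.2.1 = y ∧ y ≠ q ∧ t.2.2 ∈ nb G y ∩ nb G q

noncomputable def SV2 {n : ℕ} (G : Gr n) (p x y : Fin n) : Finset (Fin n × Fin n × Fin n) :=
  univ.filter fun t => t.2.1 = x ∧ t.2.2 = y ∧ x ≠ p ∧ t.1 ∈ nb G p ∩ nb G x

noncomputable def SG1 {n : ℕ} (G : Gr n) (p q z : Fin n) : Finset (Fin n × Fin n × Fin n) :=
  univ.filter fun t => z ≠ p ∧ t.1 ∈ nb G z ∩ nb G p ∧ P3 G t.1 t.2.1 t.2.2 q

noncomputable def SG2 {n : ℕ} (G : Gr n) (p q z : Fin n) : Finset (Fin n × Fin n × Fin n) :=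
  univ.filter fun t => z ≠ q ∧ t.2.2 ∈ nb G z ∩ nb G q ∧ P3 G p t.1 t.2.1 t.2.2

theorem SA_card {n K : ℕ} {G : Gr n} (h2 : T2 K G) (q z : Fin n) : (SA G q z).card ≤ K := by
  by_cases hz : z = q
  · have : SA G q z = ∅ := by
      unfold SA
      rw [filter_eq_empty_iff]
      rintro t _ ⟨_, h⟩
      exact h.2.2.2.2.1 hz
    rw [this]; simp
  · refine le_trans ?_ (h2 z q hz)
    refine card_le_card_of_injOn (fun t => t.2) ?_ ?_
    · intro t ht
      simp only [SA, coe_filter, mem_univ, true_and, Set.mem_ofPred_eq] at ht ⊢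
      exact ht.2
    · intro s hs t ht hst
      simp only [SA, coe_filter, mem_univ, true_and, Set.mem_ofPred_eq] at hs ht
      exact Prod.ext (hs.1.trans ht.1.symm) hst

theorem SC_card {n K : ℕ} {G : Gr n} (h2 : T2 K G) (p z : Fin n) : (SC G p z).card ≤ K := by
  by_cases hz : p = z
  · have : SC G p z = ∅ := by
      unfold SC
      rw [filter_eq_empty_iff]
      rintro t _ ⟨_, h⟩
      exact h.2.2.2.2.1 hz
    rw [this]; simp
  · refine le_trans ?_ (h2 p z hz)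
    refine card_le_card_of_injOn (fun t => (t.1, t.2.1)) ?_ ?_
    · intro t ht
      simp only [SC, coe_filter, mem_univ, true_and, Set.mem_ofPred_eq] at ht ⊢
      exact ht.2
    · intro s hs t ht hst
      simp only [SC, coe_filter, mem_univ, true_and, Set.mem_ofPred_eq] at hs ht
      simp only [Prod.mk.injEq] at hst
      exact Prod.ext hst.1 (Prod.ext hst.2 (hs.1.trans ht.1.symm))

theorem SV1_card {n K : ℕ} {G : Gr n} (h1 : T1 K G) (q x y : Fin n) : (SV1 G q x y).card ≤ K := by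
  by_cases hz : y = q
  · have : SV1 G q x y = ∅ := by
      unfold SV1
      rw [filter_eq_empty_iff]
      rintro t _ ⟨_, _, h, _⟩
      exact h hz
    rw [this]; simp
  · refine le_trans ?_ (h1 y q hz)
    refine card_le_card_of_injOn (fun t => t.2.2) ?_ ?_
    · intro t ht
      simp only [SV1, coe_filter, mem_univ, true_and, Set.mem_ofPred_eq] at ht
      exact mem_coe.2 ht.2.2.2
    · intro s hs t ht hst
      simp only [SV1, coe_filter, mem_univ, true_and, Set.mem_ofPred_eq] at hs ht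
      exact Prod.ext (hs.1.trans ht.1.symm) (Prod.ext (hs.2.1.trans ht.2.1.symm) hst)

theorem SV2_card {n K : ℕ} {G : Gr n} (h1 : T1 K G) (p x y : Fin n) : (SV2 G p x y).card ≤ K := by
  by_cases hz : x = p
  · have : SV2 G p x y = ∅ := by
      unfold SV2
      rw [filter_eq_empty_iff]
      rintro t _ ⟨_, _, h, _⟩
      exact h hz
    rw [this]; simp
  · refine le_trans ?_ (h1 p x (Ne.symm hz))
    refine card_le_card_of_injOn (fun t => t.1) ?_ ?_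
    · intro t ht
      simp only [SV2, coe_filter, mem_univ, true_and, Set.mem_ofPred_eq] at ht
      exact mem_coe.2 ht.2.2.2
    · intro s hs t ht hst
      simp only [SV2, coe_filter, mem_univ, true_and, Set.mem_ofPred_eq] at hs ht
      exact Prod.ext hst (Prod.ext (hs.1.trans ht.1.symm) (hs.2.1.trans ht.2.1.symm))

theorem SG1_card {n K : ℕ} {G : Gr n} (h1 : T1 K G) (h2 : T2 K G) (p q z : Fin n) :
    (SG1 G p q z).card ≤ K * K := by
  by_cases hz : z = p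
  · have : SG1 G p q z = ∅ := by
      unfold SG1
      rw [filter_eq_empty_iff]
      rintro t _ ⟨h, _⟩
      exact h hz
    rw [this]; simp
  · have hsub : SG1 G p q z ⊆ (nb G z ∩ nb G p).biUnion (fun w => SA G q w) := by
      intro t ht
      simp only [SG1, mem_filter, mem_univ, true_and] at ht
      rw [mem_biUnion]
      refine ⟨t.1, ht.2.1, ?_⟩
      simp only [SA, mem_filter, mem_univ, true_and]
      exact ht.2.2
    refine (card_le_card hsub).trans (card_biUnion_le.trans ?_)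
    calc ∑ w ∈ nb G z ∩ nb G p, (SA G q w).card ≤ ∑ _w ∈ nb G z ∩ nb G p, K :=
          sum_le_sum fun w _ => SA_card h2 q w
      _ = (nb G z ∩ nb G p).card * K := by rw [sum_const, smul_eq_mul]
      _ ≤ K * K := Nat.mul_le_mul_right _ (h1 z p hz)

theorem SG2_card {n K : ℕ} {G : Gr n} (h1 : T1 K G) (h2 : T2 K G) (p q z : Fin n) :
    (SG2 G p q z).card ≤ K * K := by
  by_cases hz : z = q
  · have : SG2 G p q z = ∅ := by
      unfold SG2
      rw [filter_eq_empty_iff]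
      rintro t _ ⟨h, _⟩
      exact h hz
    rw [this]; simp
  · have hsub : SG2 G p q z ⊆ (nb G z ∩ nb G q).biUnion (fun w => SC G p w) := by
      intro t ht
      simp only [SG2, mem_filter, mem_univ, true_and] at ht
      rw [mem_biUnion]
      refine ⟨t.2.2, ht.2.1, ?_⟩
      simp only [SC, mem_filter, mem_univ, true_and]
      exact ht.2.2
    refine (card_le_card hsub).trans (card_biUnion_le.trans ?_)
    calc ∑ w ∈ nb G z ∩ nb G q, (SC G p w).card ≤ ∑ _w ∈ nb G z ∩ nb G q, K :=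
          sum_le_sum fun w _ => SC_card h2 p w
      _ = (nb G z ∩ nb G q).card * K := by rw [sum_const, smul_eq_mul]
      _ ≤ K * K := Nat.mul_le_mul_right _ (h1 z q hz)

theorem conflict {n K : ℕ} {G : Gr n} (h1 : T1 K G) (h2 : T2 K G) {p q : Fin n}
    (hnadj : ¬ G.Adj p q) (W : Finset (Fin n × Fin n × Fin n)) (a b : Fin n × Fin n × Fin n → Fin n)
    (hW : ∀ t ∈ W, (G.Adj p t.1 ∧ G.Adj t.1 t.2.1 ∧ G.Adj t.2.1 t.2.2 ∧ G.Adj t.2.2 q ∧
      p ≠ t.2.1 ∧ p ≠ t.2.2 ∧ t.1 ≠ t.2.2 ∧ t.1 ≠ q ∧ t.2.1 ≠ q) ∧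
      (P3 G t.1 (a t) (b t) t.2.2 ∧ a t ≠ t.2.1 ∧ b t ≠ t.2.1)) (e : Sym2 (Fin n)) :
    (W.filter fun t => e ∈ E5 p q (t, (a t, b t))).card ≤ 8 * K + 4 * (K * K) := by
  induction e using Sym2.inductionOn with
  | _ x y =>
  have hsub : (W.filter fun t => s(x, y) ∈ E5 p q (t, (a t, b t)))
      ⊆ SA G q x ∪ (SA G q y ∪ (SC G p x ∪ (SC G p y ∪ (SV1 G q x y ∪ (SV1 G q y x ∪
        (SV2 G p x y ∪ (SV2 G p y x ∪ (SG1 G p q x ∪ (SG1 G p q y ∪
          (SG2 G p q x ∪ SG2 G p q y)))))))))) := by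
    rintro ⟨w, v, c⟩ ht
    rw [mem_filter] at ht
    obtain ⟨htW, ht⟩ := ht
    obtain ⟨⟨r1, r2, r3, r4, r5, r6, r7, r8, r9⟩, ⟨s1, s2, s3, s4, s5, s6⟩, s7, s8⟩ := hW _ htW
    simp only at r1 r2 r3 r4 r5 r6 r7 r8 r9 s1 s2 s3 s4 s5 s6 s7 s8
    have kA : (w, v, c) ∈ SA G q w := by
      simp only [SA, mem_filter, mem_univ, true_and]
      exact ⟨r2, r3, r4, r7, r8, r9⟩
    have kC : (w, v, c) ∈ SC G p c := by
      simp only [SC, mem_filter, mem_univ, true_and]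
      exact ⟨r1, r2, r3, r5, r6, r7⟩
    have kV1 : (w, v, c) ∈ SV1 G q w v := by
      simp only [SV1, mem_filter, mem_univ, true_and, mem_inter, mem_nb]
      exact ⟨r9, r3, r4.symm⟩
    have kV2 : (w, v, c) ∈ SV2 G p v c := by
      simp only [SV2, mem_filter, mem_univ, true_and, mem_inter, mem_nb]
      exact ⟨r5.symm, r1, r2.symm⟩
    have kG : (w, v, c) ∈ SG1 G p q (a (w, v, c)) ∨ (w, v, c) ∈ SG2 G p q (b (w, v, c)) := by
      by_cases hap : a (w, v, c) = p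
      · right
        have hbq : b (w, v, c) ≠ q := by
          intro hb
          rw [hap, hb] at s2
          exact hnadj s2
        simp only [SG2, mem_filter, mem_univ, true_and, mem_inter, mem_nb]
        exact ⟨hbq, ⟨s3, r4.symm⟩, r1, r2, r3, r5, r6, r7⟩
      · left
        simp only [SG1, mem_filter, mem_univ, true_and, mem_inter, mem_nb]
        exact ⟨hap, ⟨s1.symm, r1⟩, r2, r3, r4, r7, r8, r9⟩
    simp only [E5, B5, P5, mem_union, mem_insert, mem_singleton, Sym2.eq_iff] at ht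
    simp only [mem_union]
    rcases ht with (((h | h) | (h | h) | (h | h) | (h | h)) | (h | h) | (h | h) | (h | h)) <;>
      obtain ⟨e1, e2⟩ := h
    · rw [e2]; tauto
    · rw [e1]; tauto
    · rw [e1, e2]; tauto
    · rw [e1, e2]; tauto
    · rw [e1, e2]; tauto
    · rw [e1, e2]; tauto
    · rw [e1]; tauto
    · rw [e2]; tauto
    · rw [e1]; tauto
    · rw [e2]; tauto
    · rw [e1, e2]; tauto
    · rw [e1, e2]; tauto
    · rw [e2]; tauto
    · rw [e1]; tauto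
  refine (card_le_card hsub).trans ?_
  have u1 := SA_card h2 q x
  have u2 := SA_card h2 q y
  have u3 := SC_card h2 p x
  have u4 := SC_card h2 p y
  have u5 := SV1_card h1 q x y
  have u6 := SV1_card h1 q y x
  have u7 := SV2_card h1 p x y
  have u8 := SV2_card h1 p y x
  have u9 := SG1_card h1 h2 p q x
  have u10 := SG1_card h1 h2 p q y
  have u11 := SG2_card h1 h2 p q x
  have u12 := SG2_card h1 h2 p q y
  have v11 := card_union_le (SG2 G p q x) (SG2 G p q y)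
  have v10 := card_union_le (SG1 G p q y) (SG2 G p q x ∪ SG2 G p q y)
  have v9 := card_union_le (SG1 G p q x) (SG1 G p q y ∪ (SG2 G p q x ∪ SG2 G p q y))
  have v8 := card_union_le (SV2 G p y x)
    (SG1 G p q x ∪ (SG1 G p q y ∪ (SG2 G p q x ∪ SG2 G p q y)))
  have v7 := card_union_le (SV2 G p x y)
    (SV2 G p y x ∪ (SG1 G p q x ∪ (SG1 G p q y ∪ (SG2 G p q x ∪ SG2 G p q y))))
  have v6 := card_union_le (SV1 G q y x) (SV2 G p x y ∪
    (SV2 G p y x ∪ (SG1 G p q x ∪ (SG1 G p q y ∪ (SG2 G p q x ∪ SG2 G p q y)))))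
  have v5 := card_union_le (SV1 G q x y) (SV1 G q y x ∪ (SV2 G p x y ∪
    (SV2 G p y x ∪ (SG1 G p q x ∪ (SG1 G p q y ∪ (SG2 G p q x ∪ SG2 G p q y))))))
  have v4 := card_union_le (SC G p y) (SV1 G q x y ∪ (SV1 G q y x ∪ (SV2 G p x y ∪
    (SV2 G p y x ∪ (SG1 G p q x ∪ (SG1 G p q y ∪ (SG2 G p q x ∪ SG2 G p q y)))))))
  have v3 := card_union_le (SC G p x) (SC G p y ∪ (SV1 G q x y ∪ (SV1 G q y x ∪ (SV2 G p x y ∪
    (SV2 G p y x ∪ (SG1 G p q x ∪ (SG1 G p q y ∪ (SG2 G p q x ∪ SG2 G p q y))))))))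
  have v2 := card_union_le (SA G q y) (SC G p x ∪ (SC G p y ∪ (SV1 G q x y ∪ (SV1 G q y x ∪
    (SV2 G p x y ∪ (SV2 G p y x ∪ (SG1 G p q x ∪ (SG1 G p q y ∪
      (SG2 G p q x ∪ SG2 G p q y)))))))))
  have v1 := card_union_le (SA G q x) (SA G q y ∪ (SC G p x ∪ (SC G p y ∪ (SV1 G q x y ∪
    (SV1 G q y x ∪ (SV2 G p x y ∪ (SV2 G p y x ∪ (SG1 G p q x ∪ (SG1 G p q y ∪
      (SG2 G p q x ∪ SG2 G p q y))))))))))
  omega

theorem one (hDO : Stmt_DO) (hPS : Stmt_PS) {n d K m : ℕ} {L κ : ℝ}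
    (hκ : κ = 7 * (8 * K + 4 * (K * K) + 1))
    (hm : m = ⌊L / κ⌋₊) (hL : 0 ≤ L) (hn : 64 ≤ n) (hd : 64 * d ≤ n) (hm0 : 0 < m)
    (hm1 : 32 * (m * 7) ≤ n * d) {p q : Fin n} (hpq : p ≠ q)
    (S : Finset (Gr n)) (hS : S ⊆ Reg n d)
    (hT : ∀ G ∈ S, T1 K G ∧ T2 K G ∧ ¬ G.Adj p q ∧
      L < ((univ.filter fun t : Fin n × Fin n × Fin n =>
      G.Adj p t.1 ∧ G.Adj t.1 t.2.1 ∧ G.Adj t.2.1 t.2.2 ∧ G.Adj t.2.2 q ∧
      p ≠ t.2.1 ∧ p ≠ t.2.2 ∧ t.1 ≠ t.2.2 ∧ t.1 ≠ q ∧ t.2.1 ≠ q ∧ J3 G t.2.1 t.1 t.2.2).card : ℝ)) :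
    (S.card : ℝ) ≤ (Real.exp 1 * ((n : ℝ) ^ 3 * (2 * (d : ℝ) / n) ^ 4 *
      T45.Gam n (2 * (d : ℝ) / n)) / m) ^ m * (Reg n d).card := by
  refine DOUse.apply hDO hn hd (I5 p q) (E5 p q) 7 (8 * K + 4 * (K * K) + 1) m _ (by positivity) hm0
    ?_ ?_ ?_ (sum_bound hPS hpq) hm1 S hS ?_
  · intro t ht
    unfold E5
    refine (card_union_le _ _).trans ?_
    have h1 : (B5 p q t.1).card ≤ 4 := by unfold B5; exact card_le_four
    have h2 : (P5 t.1.1 t.1.2.2 t.2).card ≤ 3 := by unfold P5; exact card_le_three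
    omega
  · rintro ⟨⟨w, v, c⟩, a, b⟩ ht e he
    simp only [I5, C5s, D5s, mem_filter, mem_product, mem_univ, true_and, and_true] at ht
    simp only [E5, B5, P5, mem_union, mem_insert, mem_singleton] at he
    obtain ⟨⟨h1, h2, h3, h4, h5, h6, h7, h8, h9⟩, g1, g2, g3, g4, g5, g6, g7⟩ := ht
    rcases he with (rfl | rfl | rfl | rfl) | rfl | rfl | rfl <;>
      simp only [Sym2.mk_isDiag_iff] <;> tauto
  · rintro ⟨⟨w, v, c⟩, a, b⟩ _
    exact ⟨s(p, w), by simp [E5, B5]⟩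
  · intro G hG
    obtain ⟨t1, t2, hnadj, hcard⟩ := hT G hG
    set W0 := univ.filter fun t : Fin n × Fin n × Fin n =>
      G.Adj p t.1 ∧ G.Adj t.1 t.2.1 ∧ G.Adj t.2.1 t.2.2 ∧ G.Adj t.2.2 q ∧
      p ≠ t.2.1 ∧ p ≠ t.2.2 ∧ t.1 ≠ t.2.2 ∧ t.1 ≠ q ∧ t.2.1 ≠ q ∧ J3 G t.2.1 t.1 t.2.2 with hW0
    have hex : ∀ t : Fin n × Fin n × Fin n, ∃ r : Fin n × Fin n, t ∈ W0 →
        (P3 G t.1 r.1 r.2 t.2.2 ∧ r.1 ≠ t.2.1 ∧ r.2 ≠ t.2.1) := by
      intro t
      by_cases hc : t ∈ W0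
      · have hc' := hc
        rw [hW0, mem_filter] at hc'
        obtain ⟨_, _, _, _, _, _, _, _, _, _, ⟨a, b, p1, p2, p3⟩⟩ := hc'
        exact ⟨(a, b), fun _ => ⟨p1, p2, p3⟩⟩
      · exact ⟨(t.1, t.1), fun h => absurd h hc⟩
    choose r hr using hex
    set f : Fin n × Fin n × Fin n → (Fin n × Fin n × Fin n) × (Fin n × Fin n) :=
      fun t => (t, ((r t).1, (r t).2)) with hf
    have hfinj : Function.Injective f := by
      intro c c' h
      simp only [hf, Prod.mk.injEq] at h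
      exact h.1
    have hWc : ∀ t ∈ W0, (G.Adj p t.1 ∧ G.Adj t.1 t.2.1 ∧ G.Adj t.2.1 t.2.2 ∧ G.Adj t.2.2 q ∧
      p ≠ t.2.1 ∧ p ≠ t.2.2 ∧ t.1 ≠ t.2.2 ∧ t.1 ≠ q ∧ t.2.1 ≠ q) ∧
      (P3 G t.1 (r t).1 (r t).2 t.2.2 ∧ (r t).1 ≠ t.2.1 ∧ (r t).2 ≠ t.2.1) := by
      intro t ht
      refine ⟨?_, hr t ht⟩
      rw [hW0, mem_filter] at ht
      tauto
    refine ⟨W0.image f, ?_, ?_, ?_, ?_⟩
    · intro t ht
      rw [mem_image] at ht
      obtain ⟨⟨w, v, c⟩, hc, rfl⟩ := ht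
      obtain ⟨⟨r1, r2, r3, r4, r5, r6, r7, r8, r9⟩, ⟨s1, s2, s3, s4, s5, s6⟩, s7, s8⟩ := hWc _ hc
      simp only at r1 r2 r3 r4 r5 r6 r7 r8 r9 s1 s2 s3 s4 s5 s6 s7 s8
      simp only [I5, C5s, D5s, mem_filter, mem_product, mem_univ, true_and, and_true, hf]
      exact ⟨⟨r1.ne, r5, r6, r2.ne, r7, r8, r3.ne, r9, r4.ne⟩,
        s1.ne, s4, s2.ne, s6, s3.ne, s7, s8⟩
    · intro t ht
      rw [mem_image] at ht
      obtain ⟨⟨w, v, c⟩, hc, rfl⟩ := ht
      obtain ⟨⟨r1, r2, r3, r4, r5, r6, r7, r8, r9⟩, ⟨s1, s2, s3, s4, s5, s6⟩, s7, s8⟩ := hWc _ hc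
      simp only at r1 r2 r3 r4 r5 r6 r7 r8 r9 s1 s2 s3 s4 s5 s6 s7 s8
      intro e he
      simp only [E5, B5, P5, mem_union, mem_insert, mem_singleton, hf] at he
      rcases he with (rfl | rfl | rfl | rfl) | rfl | rfl | rfl <;> rw [mk_mem_ed] <;> assumption
    · intro e
      have h3 := conflict t1 t2 hnadj W0 _ _ hWc e
      rw [filter_image, card_image_of_injective _ hfinj]
      exact h3.trans (by omega)
    · rw [card_image_of_injective _ hfinj]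
      have hκ0 : 0 < κ := by rw [hκ]; positivity
      have h4 : (m : ℝ) ≤ L / κ := by rw [hm]; exact Nat.floor_le (by positivity)
      have h5 : (m : ℝ) * κ ≤ L := (le_div_iff₀ hκ0).1 h4
      have h6 : (m : ℝ) * (7 * (8 * K + 4 * (K * K) + 1)) < W0.card := by rw [← hκ]; linarith
      have h7 : m * (7 * (8 * K + 4 * (K * K) + 1)) < W0.card := by exact_mod_cast h6
      exact h7.le

end T5mod

theorem T5_proof (hDO : Stmt_DO) (hPS : Stmt_PS) (hCod : Stmt_Codeg) (hT2 : Stmt_T2) : Stmt_T5 := by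
  intro ε ε₀ hε hε₀
  obtain ⟨K1, w1⟩ := hCod (1 / 6) (by norm_num)
  obtain ⟨K2, w2⟩ := hT2 ε₀ hε₀
  set K := max K1 K2 with hK
  set κ : ℝ := 7 * (8 * K + 4 * (K * K) + 1) with hκ
  have hκ7 : 7 ≤ κ := by
    have : (0 : ℝ) ≤ K := by positivity
    rw [hκ]; nlinarith [mul_nonneg this this]
  obtain ⟨c, hc, n₀, hmain⟩ := T45.tail ε ε₀ κ hε hε₀ hκ7
  refine ⟨c, hc, ?_⟩
  have w1' : Whp (RegC ε ε₀) (fun _ _ G => T1 K G) :=
    w1.mono ⟨1, fun n hn d hd => T45.RegC_le hε₀ hn hd⟩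
      ⟨0, fun _ _ _ _ _ _ h u v huv => (h u v huv).trans (le_max_left _ _)⟩
  have w2' : Whp (RegC ε ε₀) (fun _ _ G => T2 K G) :=
    w2.mono ⟨0, fun n _ d hd => hd.2⟩
      ⟨0, fun _ _ _ _ _ _ h u v huv => (h u v huv).trans (le_max_right _ _)⟩
  have w3 : Whp (RegC ε ε₀) (fun n d G => T1 K G ∧ T2 K G → T5 ((n : ℝ) ^ (-c) * lam n d) G) := by
    refine Whp.of_bound (fun n => (n : ℝ) ^ 3 * (n : ℝ) ^ (-4 : ℝ)) T45.tend3 ⟨max n₀ 1, fun n hn d hd => ?_⟩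
    obtain ⟨a1, a2, a3, a4, a5⟩ := hmain n (le_trans (le_max_left _ _) hn) d hd
    set L := (n : ℝ) ^ (-c) * lam n d with hL
    have hL0 : 0 ≤ L := by rw [hL]; unfold lam; positivity
    set Sf : Fin n × Fin n → Finset (Gr n) := fun t => (Reg n d).filter fun G =>
      t.1 ≠ t.2 ∧ T1 K G ∧ T2 K G ∧ ¬ G.Adj t.1 t.2 ∧
        L < ((univ.filter fun s : Fin n × Fin n × Fin n =>
      G.Adj t.1 s.1 ∧ G.Adj s.1 s.2.1 ∧ G.Adj s.2.1 s.2.2 ∧ G.Adj s.2.2 t.2 ∧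
      t.1 ≠ s.2.1 ∧ t.1 ≠ s.2.2 ∧ s.1 ≠ s.2.2 ∧ s.1 ≠ t.2 ∧ s.2.1 ≠ t.2 ∧
      J3 G s.2.1 s.1 s.2.2).card : ℝ) with hSf
    have hb : ∀ t, ((Sf t).card : ℝ) ≤ (n : ℝ) ^ (-4 : ℝ) * (Reg n d).card := by
      rintro ⟨p, q⟩
      by_cases hne : p ≠ q
      · refine (T5mod.one hDO hPS hκ rfl hL0 a1 a2 a3 a4 hne (Sf (p, q))
          (filter_subset _ _) ?_).trans (mul_le_mul_of_nonneg_right a5 (by positivity))
        intro G hG
        rw [hSf, mem_filter] at hG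
        exact ⟨hG.2.2.1, hG.2.2.2.1, hG.2.2.2.2.1, hG.2.2.2.2.2⟩
      · have : Sf (p, q) = ∅ := by
          rw [hSf, filter_eq_empty_iff]
          intro G _ hG
          exact hne hG.1
        rw [this]
        simp only [card_empty, Nat.cast_zero]
        positivity
    have hsub : ∀ G, G ∈ Reg n d → ¬ (T1 K G ∧ T2 K G → T5 L G) → G ∈ univ.biUnion Sf := by
      intro G hGR hG
      rw [Classical.not_imp] at hG
      obtain ⟨⟨b1, b2⟩, b3⟩ := hG
      unfold T5 at b3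
      push Not at b3
      obtain ⟨p, q, c1, c2, c4⟩ := b3
      rw [mem_biUnion]
      refine ⟨(p, q), mem_univ _, ?_⟩
      rw [hSf, mem_filter]
      exact ⟨hGR, c1, b1, b2, c2, c4⟩
    refine le_trans (b := ((univ.biUnion Sf).card : ℝ)) ?_ ?_
    · refine Nat.cast_le.2 (card_le_card ?_)
      intro G hG
      simp only [mem_filter] at hG
      exact hsub G hG.1 hG.2
    have hn1 : (1 : ℝ) ≤ n := by exact_mod_cast (le_trans (le_max_right _ _) hn)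
    calc ((univ.biUnion Sf).card : ℝ) ≤ ∑ t, ((Sf t).card : ℝ) := by exact_mod_cast card_biUnion_le
      _ ≤ ∑ _t : Fin n × Fin n, (n : ℝ) ^ (-4 : ℝ) * (Reg n d).card :=
          sum_le_sum fun t _ => hb t
      _ = (n : ℝ) ^ 2 * (n : ℝ) ^ (-4 : ℝ) * (Reg n d).card := by
          rw [sum_const, nsmul_eq_mul]
          simp [Fintype.card_prod]; ring
      _ ≤ (n : ℝ) ^ 3 * (n : ℝ) ^ (-4 : ℝ) * (Reg n d).card := by
          refine mul_le_mul_of_nonneg_right (mul_le_mul_of_nonneg_right ?_ (by positivity)) (by positivity)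
          exact pow_le_pow_right₀ hn1 (by norm_num)
  refine (w1'.and (w2'.and w3)).mono ⟨0, fun _ _ _ h => h⟩ ⟨0, fun n _ d _ G _ h => ?_⟩
  exact h.2.2 ⟨h.1, h.2.1⟩

end Pool.Agent.RRG
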