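import Pool.Agent.RRG.S

/-!
# Module T9 (MP_d15a9b_pr, section 6)
-/

open Finset Filter Topology
open scoped Classical

namespace Pool.Agent.RRG
namespace T9m

abbrev Tup (n : ℕ) := Fin n × Fin n × Fin n × Fin n × Fin n

/-- the five edges of a closed 5-walk -/
def ee {n : ℕ} (t : Tup n) : Fin 5 → Sym2 (Fin n)
  | 0 => s(t.1, t.2.1)
  | 1 => s(t.2.1, t.2.2.1)
  | 2 => s(t.2.2.1, t.2.2.2.1)
  | 3 => s(t.2.2.2.1, t.2.2.2.2)
  | 4 => s(t.2.2.2.2, t.1)

def C5t {n : ℕ} (H : Gr n) (t : Tup n) : Prop := C5 H t.1 t.2.1 t.2.2.1 t.2.2.2.1 t.2.2.2.2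

/-- all five vertices distinct -/
def Dis {n : ℕ} (t : Tup n) : Prop :=
  t.1 ≠ t.2.1 ∧ t.2.1 ≠ t.2.2.1 ∧ t.2.2.1 ≠ t.2.2.2.1 ∧ t.2.2.2.1 ≠ t.2.2.2.2 ∧ t.2.2.2.2 ≠ t.1 ∧
  t.1 ≠ t.2.2.1 ∧ t.1 ≠ t.2.2.2.1 ∧ t.2.1 ≠ t.2.2.2.1 ∧ t.2.1 ≠ t.2.2.2.2 ∧ t.2.2.1 ≠ t.2.2.2.2

theorem C5t.dis {n : ℕ} {H : Gr n} {t : Tup n} (h : C5t H t) : Dis t := by
  obtain ⟨a, b, c, d, e, f⟩ := h
  exact ⟨a.ne, b.ne, c.ne, d.ne, e.ne, f⟩

theorem C5t.mem {n : ℕ} {H : Gr n} {t : Tup n} (h : C5t H t) (i : Fin 5) : ee t i ∈ H.edgeSet := by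
  obtain ⟨a, b, c, d, e, f⟩ := h
  fin_cases i
  · exact a
  · exact b
  · exact c
  · exact d
  · exact e

theorem ee_inj {n : ℕ} {t : Tup n} (h : Dis t) : Function.Injective (ee t) := by
  obtain ⟨v, w, p, q, c⟩ := t
  obtain ⟨h1, h2, h3, h4, h5, h6, h7, h8, h9, h10⟩ := h
  simp only at h1 h2 h3 h4 h5 h6 h7 h8 h9 h10
  intro i j hij
  fin_cases i <;> fin_cases j <;> simp only [ee, Sym2.eq_iff, Fin.zero_eta, Fin.mk_one, Fin.reduceFinMk] at hij ⊢ <;>
    first | rfl | (exfalso; rcases hij with ⟨x, y⟩ | ⟨x, y⟩ <;> simp_all)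

theorem ee_not_diag {n : ℕ} {t : Tup n} (h : Dis t) (i : Fin 5) : ¬ (ee t i).IsDiag := by
  obtain ⟨v, w, p, q, c⟩ := t
  obtain ⟨h1, h2, h3, h4, h5, h6, h7, h8, h9, h10⟩ := h
  fin_cases i <;> simp_all [ee]

/-- rotation -/
def rot (n : ℕ) : Tup n ≃ Tup n where
  toFun t := (t.2.1, t.2.2.1, t.2.2.2.1, t.2.2.2.2, t.1)
  invFun t := (t.2.2.2.2, t.1, t.2.1, t.2.2.1, t.2.2.2.1)
  left_inv t := rfl
  right_inv t := rfl

theorem ee_rot {n : ℕ} (t : Tup n) (i : Fin 5) : ee (rot n t) i = ee t (i + 1) := by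
  fin_cases i <;> rfl

theorem C5t_rot {n : ℕ} {H : Gr n} (t : Tup n) : C5t H (rot n t) ↔ C5t H t := by
  obtain ⟨v, w, p, q, c⟩ := t
  simp only [C5t, C5, rot, Equiv.coe_fn_mk]
  constructor
  · rintro ⟨a, b, c, d, e, f, g, h, i, j⟩
    exact ⟨e, a, b, c, d, i.symm, j.symm, f, g, h⟩
  · rintro ⟨a, b, c, d, e, f, g, h, i, j⟩
    exact ⟨b, c, d, e, a, h, i, j, f.symm, g.symm⟩

section counts

variable {n : ℕ} {G H : Gr n} {σ : Fin n → Equiv.Perm (Fin n)}

/-- transport a filter count along the rotation -/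
theorem card_rot (P P' : Tup n → Prop) [DecidablePred P] [DecidablePred P']
    (h : ∀ t, P' t ↔ P (rot n t)) :
    (univ.filter P').card = (univ.filter P).card := by
  refine card_bij (fun t _ => rot n t) ?_ ?_ ?_
  · intro t ht
    simp only [mem_filter, mem_univ, true_and] at ht ⊢
    exact (h t).1 ht
  · intro a _ b _ hab
    exact (rot n).injective hab
  · intro t ht
    refine ⟨(rot n).symm t, ?_, by simp⟩
    simp only [mem_filter, mem_univ, true_and] at ht ⊢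
    rw [h]; simpa using ht

/-- induction over rotations -/
theorem rot_induct (Q : (Fin 5 → Fin 5) → Prop)
    (h0 : Q id) (hs : ∀ f, Q f → Q (fun i => f i + 1)) (a : Fin 5) : Q (fun i => i + a) := by
  have e0 : Q (fun i => i + 0) := by
    have : (fun i : Fin 5 => i + 0) = id := by funext i; simp
    rw [this]; exact h0
  have e1 : Q (fun i => i + 1) := hs _ h0
  have e2 : Q (fun i => i + 2) := by
    have : (fun i : Fin 5 => i + 2) = (fun i => (i + 1) + 1) := by funext i; omega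
    rw [this]; exact hs _ e1
  have e3 : Q (fun i => i + 3) := by
    have : (fun i : Fin 5 => i + 3) = (fun i => (i + 2) + 1) := by funext i; omega
    rw [this]; exact hs _ e2
  have e4 : Q (fun i => i + 4) := by
    have : (fun i : Fin 5 => i + 4) = (fun i => (i + 3) + 1) := by funext i; omega
    rw [this]; exact hs _ e3
  fin_cases a
  · exact e0
  · exact e1
  · exact e2
  · exact e3
  · exact e4

/-- at most `2 L` five-cycles with a given edge at position `i` -/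
theorem count1 {L : ℝ} (hL : 0 ≤ L) (h3 : ∀ v w, H.Adj v w → (nC5 H v w : ℝ) ≤ L) (i : Fin 5)
    (x : Sym2 (Fin n)) :
    ((univ.filter fun t : Tup n => C5t H t ∧ ee t i = x).card : ℝ) ≤ 2 * L := by
  -- reduce to position 0
  have hred : ∀ a : Fin 5, (univ.filter fun t : Tup n => C5t H t ∧ ee t a = x).card
      = (univ.filter fun t : Tup n => C5t H t ∧ ee t 0 = x).card := by
    intro a
    have := rot_induct (fun f => (univ.filter fun t : Tup n => C5t H t ∧ ee t (f 0) = x).card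
      = (univ.filter fun t : Tup n => C5t H t ∧ ee t 0 = x).card) rfl ?_ a
    · simpa using this
    · intro f hf
      exact (card_rot _ _ (fun t => by rw [ee_rot, C5t_rot])).trans hf
  rw [hred i]
  induction x using Sym2.ind with
  | _ a b =>
    have hfix : ∀ v w : Fin n, ((univ.filter fun t : Tup n => C5t H t ∧ t.1 = v ∧ t.2.1 = w).card : ℝ) ≤ L := by
      intro v w
      by_cases hvw : H.Adj v w
      · refine le_trans ?_ (h3 v w hvw)
        unfold nC5
        refine Nat.cast_le.2 (card_le_card_of_injOn (fun t => (t.2.2.1, t.2.2.2.1, t.2.2.2.2)) ?_ ?_)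
        · intro t ht
          simp only [coe_filter, mem_univ, true_and, Set.mem_ofPred_eq] at ht ⊢
          obtain ⟨h, rfl, rfl⟩ := ht
          exact h
        · intro t ht t' ht' hh
          simp only [coe_filter, mem_univ, true_and, Set.mem_ofPred_eq] at ht ht'
          simp only [Prod.mk.injEq] at hh
          exact Prod.ext (ht.2.1.trans ht'.2.1.symm) (Prod.ext (ht.2.2.trans ht'.2.2.symm)
            (Prod.ext hh.1 (Prod.ext hh.2.1 hh.2.2)))
      · have : (univ.filter fun t : Tup n => C5t H t ∧ t.1 = v ∧ t.2.1 = w) = ∅ := by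
          rw [filter_eq_empty_iff]
          rintro t - ⟨h, rfl, rfl⟩
          exact hvw h.1
        rw [this]; simpa using hL
    have hsub : (univ.filter fun t : Tup n => C5t H t ∧ ee t 0 = s(a, b)) ⊆
        (univ.filter fun t : Tup n => C5t H t ∧ t.1 = a ∧ t.2.1 = b) ∪
        (univ.filter fun t : Tup n => C5t H t ∧ t.1 = b ∧ t.2.1 = a) := by
      intro t ht
      simp only [mem_filter, mem_univ, true_and, mem_union, ee, Sym2.eq_iff] at ht ⊢
      tauto
    have h1 := hfix a b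
    have h2 := hfix b a
    have h3' : ((univ.filter fun t : Tup n => C5t H t ∧ ee t 0 = s(a, b)).card : ℝ) ≤
        ((univ.filter fun t : Tup n => C5t H t ∧ t.1 = a ∧ t.2.1 = b).card : ℝ) +
        ((univ.filter fun t : Tup n => C5t H t ∧ t.1 = b ∧ t.2.1 = a).card : ℝ) := by
      exact_mod_cast (card_le_card hsub).trans (card_union_le _ _)
    linarith

theorem fixF {K : ℕ} (h : IsPartner G H σ) (hK : T2 K G) (v w p : Fin n) :
    (univ.filter fun t : Tup n => C5t H t ∧ t.1 = v ∧ t.2.1 = w ∧ t.2.2.1 = p).card ≤ K := by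
  by_cases hc : H.Adj w p ∧ H.Adj w v ∧ p ≠ v
  · refine le_trans ?_ (h.P3_card_le hK hc.1 hc.2.1 hc.2.2)
    refine card_le_card_of_injOn (fun t => (t.2.2.2.1, t.2.2.2.2)) ?_ ?_
    · intro t ht
      simp only [coe_filter, mem_univ, true_and, Set.mem_ofPred_eq] at ht ⊢
      obtain ⟨⟨a, b, c, d, e, f, g, i, j, k⟩, rfl, rfl, rfl⟩ := ht
      exact ⟨c, d, e, k, f.symm, g.symm⟩
    · intro t ht t' ht' hh
      simp only [coe_filter, mem_univ, true_and, Set.mem_ofPred_eq] at ht ht'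
      simp only [Prod.mk.injEq] at hh
      exact Prod.ext (ht.2.1.trans ht'.2.1.symm) (Prod.ext (ht.2.2.1.trans ht'.2.2.1.symm)
        (Prod.ext (ht.2.2.2.trans ht'.2.2.2.symm) (Prod.ext hh.1 hh.2)))
  · have : (univ.filter fun t : Tup n => C5t H t ∧ t.1 = v ∧ t.2.1 = w ∧ t.2.2.1 = p) = ∅ := by
      rw [filter_eq_empty_iff]
      rintro t - ⟨⟨a, b, c, d, e, f, g, i, j, k⟩, rfl, rfl, rfl⟩
      exact hc ⟨b, a.symm, f.symm⟩
    rw [this]; simp

theorem fixB {K : ℕ} (h : IsPartner G H σ) (hK : T2 K G) (v w c : Fin n) :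
    (univ.filter fun t : Tup n => C5t H t ∧ t.1 = v ∧ t.2.1 = w ∧ t.2.2.2.2 = c).card ≤ K := by
  by_cases hc : H.Adj v w ∧ H.Adj v c ∧ w ≠ c
  · refine le_trans ?_ (h.P3_card_le hK hc.1 hc.2.1 hc.2.2)
    refine card_le_card_of_injOn (fun t => (t.2.2.1, t.2.2.2.1)) ?_ ?_
    · intro t ht
      simp only [coe_filter, mem_univ, true_and, Set.mem_ofPred_eq] at ht ⊢
      obtain ⟨⟨a, b, c, d, e, f, g, i, j, k⟩, rfl, rfl, rfl⟩ := ht
      exact ⟨b, c, d, i, j, k⟩
    · intro t ht t' ht' hh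
      simp only [coe_filter, mem_univ, true_and, Set.mem_ofPred_eq] at ht ht'
      simp only [Prod.mk.injEq] at hh
      exact Prod.ext (ht.2.1.trans ht'.2.1.symm) (Prod.ext (ht.2.2.1.trans ht'.2.2.1.symm)
        (Prod.ext hh.1 (Prod.ext hh.2 (ht.2.2.2.trans ht'.2.2.2.symm))))
  · have : (univ.filter fun t : Tup n => C5t H t ∧ t.1 = v ∧ t.2.1 = w ∧ t.2.2.2.2 = c) = ∅ := by
      rw [filter_eq_empty_iff]
      rintro t - ⟨⟨a, b, c, d, e, f, g, i, j, k⟩, rfl, rfl, rfl⟩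
      exact hc ⟨a, e.symm, j⟩
    rw [this]; simp

theorem four {α : Type} {P A B C D : α → Prop} [Fintype α] [DecidablePred P] [DecidablePred A]
    [DecidablePred B] [DecidablePred C] [DecidablePred D] {K : ℕ}
    (hsub : ∀ t, P t → A t ∨ B t ∨ C t ∨ D t)
    (hA : (univ.filter A).card ≤ K) (hB : (univ.filter B).card ≤ K)
    (hC : (univ.filter C).card ≤ K) (hD : (univ.filter D).card ≤ K) : (univ.filter P).card ≤ 4 * K := by
  have : univ.filter P ⊆ (univ.filter A ∪ univ.filter B) ∪ (univ.filter C ∪ univ.filter D) := by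
    intro t ht
    simp only [mem_filter, mem_univ, true_and, mem_union] at ht ⊢
    have := hsub t ht
    tauto
  have h1 := (card_le_card this).trans (card_union_le _ _)
  have h2 := card_union_le (univ.filter A) (univ.filter B)
  have h3 := card_union_le (univ.filter C) (univ.filter D)
  omega

/-- at most `4 K` five-cycles with given edges at two different positions -/
theorem count2 {K : ℕ} (h : IsPartner G H σ) (hK : T2 K G) (i j : Fin 5) (hij : i ≠ j)
    (x y : Sym2 (Fin n)) :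
    (univ.filter fun t : Tup n => C5t H t ∧ ee t i = x ∧ ee t j = y).card ≤ 4 * K := by
  have hred : ∀ a b : Fin 5, (univ.filter fun t : Tup n => C5t H t ∧ ee t (0 + a) = x ∧ ee t (b + a) = y).card
      = (univ.filter fun t : Tup n => C5t H t ∧ ee t 0 = x ∧ ee t b = y).card := by
    intro a b
    refine rot_induct (fun f => (univ.filter fun t : Tup n => C5t H t ∧ ee t (f 0) = x ∧ ee t (f b) = y).card
      = (univ.filter fun t : Tup n => C5t H t ∧ ee t 0 = x ∧ ee t b = y).card) rfl ?_ a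
    intro f hf
    exact (card_rot _ _ (fun t => by rw [ee_rot, ee_rot, C5t_rot])).trans hf
  have h1 := hred i (j - i)
  rw [zero_add, sub_add_cancel] at h1
  rw [h1]
  have hne : j - i ≠ 0 := fun e => hij (sub_eq_zero.1 e).symm
  revert hne
  generalize j - i = b
  intro hne
  induction x using Sym2.ind with
  | _ a1 a2 =>
  induction y using Sym2.ind with
  | _ b1 b2 =>
    have F : ∀ v w p : Fin n, _ := fixF h hK
    have B : ∀ v w p : Fin n, _ := fixB h hK
    have hF : ∀ t : Tup n, C5t H t →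
        (ee t 0 = s(a1, a2) ∧ (t.2.2.1 = b1 ∨ t.2.2.1 = b2)) →
        (C5t H t ∧ t.1 = a1 ∧ t.2.1 = a2 ∧ t.2.2.1 = b1) ∨ (C5t H t ∧ t.1 = a1 ∧ t.2.1 = a2 ∧ t.2.2.1 = b2) ∨
        (C5t H t ∧ t.1 = a2 ∧ t.2.1 = a1 ∧ t.2.2.1 = b1) ∨ (C5t H t ∧ t.1 = a2 ∧ t.2.1 = a1 ∧ t.2.2.1 = b2) := by
      intro t ht hh
      simp only [ee, Sym2.eq_iff] at hh
      tauto
    have hB : ∀ t : Tup n, C5t H t →
        (ee t 0 = s(a1, a2) ∧ (t.2.2.2.2 = b1 ∨ t.2.2.2.2 = b2)) →
        (C5t H t ∧ t.1 = a1 ∧ t.2.1 = a2 ∧ t.2.2.2.2 = b1) ∨ (C5t H t ∧ t.1 = a1 ∧ t.2.1 = a2 ∧ t.2.2.2.2 = b2) ∨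
        (C5t H t ∧ t.1 = a2 ∧ t.2.1 = a1 ∧ t.2.2.2.2 = b1) ∨ (C5t H t ∧ t.1 = a2 ∧ t.2.1 = a1 ∧ t.2.2.2.2 = b2) := by
      intro t ht hh
      simp only [ee, Sym2.eq_iff] at hh
      tauto
    fin_cases b
    · exact absurd rfl hne
    · refine four ?_ (F a1 a2 b1) (F a1 a2 b2) (F a2 a1 b1) (F a2 a1 b2)
      intro t ht
      refine hF t ht.1 ⟨ht.2.1, ?_⟩
      have h3 := ht.2.2
      simp only [ee, Sym2.eq_iff, Fin.mk_one] at h3
      tauto
    · refine four ?_ (F a1 a2 b1) (F a1 a2 b2) (F a2 a1 b1) (F a2 a1 b2)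
      intro t ht
      refine hF t ht.1 ⟨ht.2.1, ?_⟩
      have h3 := ht.2.2
      simp only [ee, Sym2.eq_iff, Fin.reduceFinMk] at h3
      tauto
    · refine four ?_ (B a1 a2 b1) (B a1 a2 b2) (B a2 a1 b1) (B a2 a1 b2)
      intro t ht
      refine hB t ht.1 ⟨ht.2.1, ?_⟩
      have h3 := ht.2.2
      simp only [ee, Sym2.eq_iff, Fin.reduceFinMk] at h3
      tauto
    · refine four ?_ (B a1 a2 b1) (B a1 a2 b2) (B a2 a1 b1) (B a2 a1 b2)
      intro t ht
      refine hB t ht.1 ⟨ht.2.1, ?_⟩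
      have h3 := ht.2.2
      simp only [ee, Sym2.eq_iff, Fin.reduceFinMk] at h3
      tauto

end counts

end T9m
end Pool.Agent.RRG
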