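import Pool.Agent.RRG.Basic

/-!
# Tools for module TYPB (MP_d15a9b_pr)
-/

open Finset Filter Topology
open scoped Classical

namespace Pool.Agent.RRG.TYPB

/-- a maximal disjoint subfamily -/
theorem greedy {ι α : Type} [DecidableEq α] (I : Finset ι) (E : ι → Finset α) (r D m : ℕ)
    (hne : ∀ i ∈ I, (E i).Nonempty) (hr : ∀ i ∈ I, (E i).card ≤ r)
    (hD : ∀ i ∈ I, ∀ e ∈ E i, (I.filter fun j => e ∈ E j).card ≤ D)
    (hpos : 0 < r * D) (h : m * (r * D) ≤ I.card) :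
    ∃ J ⊆ I, J.card = m ∧ ∀ i ∈ J, ∀ j ∈ J, i ≠ j → Disjoint (E i) (E j) := by
  -- maximal disjoint subfamily
  obtain ⟨J, hJ, hmax⟩ := (I.powerset.filter fun J => ∀ i ∈ J, ∀ j ∈ J, i ≠ j →
    Disjoint (E i) (E j)).exists_max_image (fun J => J.card) ⟨∅, by simp⟩
  simp only [mem_filter, mem_powerset] at hJ hmax
  obtain ⟨hJI, hdis⟩ := hJ
  have hcov : I ⊆ J.biUnion fun j => (E j).biUnion fun e => I.filter fun i => e ∈ E i := by
    intro i hi
    by_contra hcon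
    have hij : ∀ j ∈ J, Disjoint (E j) (E i) := by
      intro j hj
      rw [Finset.disjoint_left]
      intro e he he'
      apply hcon
      simp only [mem_biUnion, mem_filter]
      exact ⟨j, hj, e, he, hi, he'⟩
    have hiJ : i ∉ J := by
      intro hiJ
      have := hij i hiJ
      rw [disjoint_self] at this
      obtain ⟨e, he⟩ := hne i hi
      rw [this] at he
      simp at he
    have := hmax (insert i J) ⟨insert_subset hi hJI, ?_⟩
    · rw [card_insert_of_notMem hiJ] at this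
      omega
    · intro a ha b hb hab
      simp only [mem_insert] at ha hb
      rcases ha with rfl | ha
      · rcases hb with rfl | hb
        · exact absurd rfl hab
        · exact (hij b hb).symm
      · rcases hb with rfl | hb
        · exact hij a ha
        · exact hdis a ha b hb hab
  have hcard : I.card ≤ J.card * (r * D) := by
    refine (card_le_card hcov).trans ?_
    refine card_biUnion_le_card_mul _ _ _ fun j hj => ?_
    refine (card_biUnion_le_card_mul _ _ D fun e he => hD j (hJI hj) e he).trans ?_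
    exact Nat.mul_le_mul_right _ (hr j (hJI hj))
  have hm : m ≤ J.card := by
    have := h.trans hcard
    exact Nat.le_of_mul_le_mul_right this hpos
  obtain ⟨J', hJ', hc⟩ := exists_subset_card_eq hm
  exact ⟨J', hJ'.trans hJI, hc, fun i hi j hj hij => hdis i (hJ' hi) j (hJ' hj) hij⟩

/-- DO, summed over the values of `G ∩ Ω`. -/
theorem core (hDO : Stmt_DO) {n d : ℕ} (hn : 64 ≤ n) (hd : 64 * d ≤ n) (Ω : Finset (Sym2 (Fin n)))
    {ι : Type} (fam : Finset (Sym2 (Fin n)) → Finset ι) (E : ι → Finset (Sym2 (Fin n))) (m r : ℕ)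
    (μ : ℝ) (bad : Gr n → Prop)
    (hg : ∀ G ∈ Reg n d, 32 * (ed G ∩ Ω).card ≤ n * d)
    (hE : ∀ G ∈ Reg n d, ∀ i ∈ fam (ed G ∩ Ω), (E i).card ≤ r ∧ ∀ e ∈ E i, e ∉ Ω ∧ ¬ e.IsDiag ∧
      ∀ x ∈ e, 16 * (Ω.filter fun f => x ∈ f).card ≤ n)
    (hm : 32 * (m * r) ≤ n * d)
    (hμ : ∀ G ∈ Reg n d, ∑ i ∈ fam (ed G ∩ Ω), (2 * (d : ℝ) / n) ^ (E i).card ≤ μ)
    (hbad : ∀ G ∈ Reg n d, bad G → ∃ J ⊆ fam (ed G ∩ Ω), J.card = m ∧
      (∀ i ∈ J, ∀ j ∈ J, i ≠ j → Disjoint (E i) (E j)) ∧ ∀ i ∈ J, E i ⊆ ed G) :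
    (((Reg n d).filter fun G => bad G).card : ℝ) * (m.factorial : ℝ) ≤ μ ^ m * (Reg n d).card := by
  have h1 : ((Reg n d).filter fun G => bad G).card =
      ∑ g ∈ (Reg n d).image (fun G => ed G ∩ Ω), ((Reg n d).filter fun G => ed G ∩ Ω = g ∧ bad G).card := by
    rw [card_eq_sum_card_fiberwise (f := fun G => ed G ∩ Ω) (t := (Reg n d).image (fun G => ed G ∩ Ω))]
    · refine sum_congr rfl fun g _ => ?_
      rw [filter_filter]
      congr 1
      ext G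
      simp only [mem_filter]
      tauto
    · intro G hG
      simp only [coe_filter, Set.mem_ofPred_eq] at hG
      simp only [coe_image, Set.mem_image, mem_coe]
      exact ⟨G, hG.1, rfl⟩
  have h2 : (Reg n d).card =
      ∑ g ∈ (Reg n d).image (fun G => ed G ∩ Ω), ((Reg n d).filter fun G => ed G ∩ Ω = g).card := by
    rw [card_eq_sum_card_fiberwise (f := fun G => ed G ∩ Ω) (t := (Reg n d).image (fun G => ed G ∩ Ω))]
    intro G hG
    simp only [coe_image, Set.mem_image, mem_coe]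
    exact ⟨G, hG, rfl⟩
  rw [h1, h2]
  push_cast
  rw [sum_mul, mul_sum]
  refine sum_le_sum fun g hgi => ?_
  obtain ⟨G₀, hG₀, rfl⟩ := mem_image.1 hgi
  have h3 := hDO n d hn hd Ω (ed G₀ ∩ Ω) (hg G₀ hG₀) ι (fam (ed G₀ ∩ Ω)) E m r (hE G₀ hG₀) hm
  refine le_trans (mul_le_mul_of_nonneg_right ?_ (by positivity)) (h3.trans
    (mul_le_mul_of_nonneg_right (pow_le_pow_left₀ (sum_nonneg fun i _ => by positivity) (hμ G₀ hG₀) m)
      (by positivity)))
  refine Nat.cast_le.2 (card_le_card ?_)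
  intro G hG
  simp only [mem_filter] at hG ⊢
  obtain ⟨hGR, he, hb⟩ := hG
  refine ⟨hGR, he, ?_⟩
  rw [← he]
  exact hbad G hGR hb

/-- consequence: exponential bound -/
theorem core_exp {R X μ B : ℝ} {m : ℕ} (hμ : 0 ≤ μ) (hB : 0 < B) (hR : 0 ≤ R)
    (h : X * (m.factorial : ℝ) ≤ μ ^ m * R) : X ≤ Real.exp (B * μ) / B ^ m * R := by
  have h1 := Real.pow_div_factorial_le_exp (x := B * μ) (by positivity) m
  have hf : (0 : ℝ) < (m.factorial : ℝ) := by exact_mod_cast m.factorial_pos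
  have h2 : X ≤ μ ^ m * R / (m.factorial : ℝ) := by rw [le_div_iff₀ hf]; exact h
  refine h2.trans ?_
  have h3 : μ ^ m / (m.factorial : ℝ) ≤ Real.exp (B * μ) / B ^ m := by
    rw [le_div_iff₀ (by positivity)]
    rw [mul_pow] at h1
    calc μ ^ m / (m.factorial : ℝ) * B ^ m = B ^ m * μ ^ m / (m.factorial : ℝ) := by ring
      _ ≤ _ := h1
  calc μ ^ m * R / (m.factorial : ℝ) = μ ^ m / (m.factorial : ℝ) * R := by ring
    _ ≤ _ := mul_le_mul_of_nonneg_right h3 hR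

/-- union bound -/
theorem union_bound {n d : ℕ} {τ : Type} [Fintype τ] (bad : τ → Gr n → Prop) (δ : ℝ)
    (h : ∀ t, (((Reg n d).filter fun G => bad t G).card : ℝ) ≤ δ * (Reg n d).card) :
    (((Reg n d).filter fun G => ∃ t, bad t G).card : ℝ) ≤ (Fintype.card τ : ℝ) * δ * (Reg n d).card := by
  have h1 : ((Reg n d).filter fun G => ∃ t, bad t G) ⊆
      (univ : Finset τ).biUnion fun t => (Reg n d).filter fun G => bad t G := by
    intro G hG
    simp only [mem_filter, mem_biUnion, mem_univ, true_and] at hG ⊢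
    obtain ⟨t, ht⟩ := hG.2
    exact ⟨t, hG.1, ht⟩
  calc (((Reg n d).filter fun G => ∃ t, bad t G).card : ℝ)
      ≤ ((∑ t : τ, ((Reg n d).filter fun G => bad t G).card : ℕ) : ℝ) :=
        Nat.cast_le.2 ((card_le_card h1).trans card_biUnion_le)
    _ = ∑ t : τ, (((Reg n d).filter fun G => bad t G).card : ℝ) := by push_cast; rfl
    _ ≤ ∑ _t : τ, δ * (Reg n d).card := sum_le_sum fun t _ => h t
    _ = _ := by rw [sum_const, card_univ, nsmul_eq_mul]; ring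

theorem tend0 (C : ℝ) : Tendsto (fun n : ℕ => C * (n : ℝ) ^ 3 * Real.exp (-((n : ℝ) ^ (1 / 10 : ℝ) / 2)))
    atTop (𝓝 0) := by
  have h1 := Real.tendsto_pow_mul_exp_neg_atTop_nhds_zero 30
  have h2 : Tendsto (fun n : ℕ => (n : ℝ) ^ (1 / 10 : ℝ) / 2) atTop atTop :=
    ((tendsto_rpow_atTop (by norm_num)).comp tendsto_natCast_atTop_atTop).atTop_div_const (by norm_num)
  have h3 := (h1.comp h2).const_mul (C * 2 ^ 30)
  rw [mul_zero] at h3
  refine h3.congr fun n => ?_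
  simp only [Function.comp_apply]
  have : ((n : ℝ) ^ (1 / 10 : ℝ)) ^ 30 = (n : ℝ) ^ 3 := by
    rw [← Real.rpow_natCast, ← Real.rpow_mul (by positivity), ← Real.rpow_natCast]
    norm_num
  rw [div_pow, this]
  ring

/-- the pairs meeting a set of vertices -/
noncomputable def Om {n : ℕ} (S : Finset (Fin n)) : Finset (Sym2 (Fin n)) := univ.filter fun e => ∃ x ∈ S, x ∈ e

theorem mem_Om {n : ℕ} {S : Finset (Fin n)} {a b : Fin n} : s(a, b) ∈ Om S ↔ a ∈ S ∨ b ∈ S := by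
  simp only [Om, mem_filter, mem_univ, true_and, Sym2.mem_iff]
  constructor
  · rintro ⟨x, hx, rfl | rfl⟩
    · exact Or.inl hx
    · exact Or.inr hx
  · rintro (h | h)
    · exact ⟨a, h, Or.inl rfl⟩
    · exact ⟨b, h, Or.inr rfl⟩

/-- vertices outside `S` lie in at most `|S|` pairs of `Om S` -/
theorem Om_deg {n : ℕ} (S : Finset (Fin n)) (x : Fin n) (hx : x ∉ S) :
    ((Om S).filter fun f => x ∈ f).card ≤ S.card := by
  have : ((Om S).filter fun f => x ∈ f) ⊆ S.image fun y => s(x, y) := by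
    intro f hf
    simp only [mem_filter] at hf
    obtain ⟨hf, hxf⟩ := hf
    induction f using Sym2.ind with
    | _ a b =>
      rw [mem_Om] at hf
      rw [Sym2.mem_iff] at hxf
      rw [mem_image]
      rcases hxf with rfl | rfl
      · rcases hf with h | h
        · exact absurd h hx
        · exact ⟨b, h, rfl⟩
      · rcases hf with h | h
        · exact ⟨a, h, Sym2.eq_swap⟩
        · exact absurd h hx
  exact (card_le_card this).trans card_image_le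

theorem ed_Om_card {n d : ℕ} {G : Gr n} (hG : G ∈ Reg n d) (S : Finset (Fin n)) :
    (ed G ∩ Om S).card ≤ S.card * d := by
  have : ed G ∩ Om S ⊆ S.biUnion fun x => (nb G x).image fun y => s(x, y) := by
    intro f hf
    rw [mem_inter] at hf
    obtain ⟨h1, h2⟩ := hf
    induction f using Sym2.ind with
    | _ a b =>
      rw [mk_mem_ed] at h1
      rw [mem_Om] at h2
      simp only [mem_biUnion, mem_image, mem_nb]
      rcases h2 with h | h
      · exact ⟨a, h, b, h1, rfl⟩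
      · exact ⟨b, h, a, h1.symm, Sym2.eq_swap⟩
  refine (card_le_card this).trans ?_
  refine card_biUnion_le_card_mul _ _ _ fun x _ => ?_
  exact card_image_le.trans (mem_Reg.1 hG x).le

theorem mk_mem_inter {n : ℕ} {G : Gr n} {S : Finset (Fin n)} {a b : Fin n} (ha : a ∈ S) :
    s(a, b) ∈ ed G ∩ Om S ↔ G.Adj a b := by
  rw [mem_inter, mk_mem_ed, mem_Om]
  exact ⟨fun h => h.1, fun h => ⟨h, Or.inl ha⟩⟩

/-- regime B: numerical facts -/
theorem regB (CA : ℝ) (hCA : 0 < CA) : ∃ n₀ : ℕ, ∀ n ≥ n₀, ∀ d : ℕ,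
    ((n : ℝ) ^ (1 - 1 / 10 : ℝ) ≤ (d : ℝ) ^ 3 ∧ (d : ℝ) ^ 3 ≤ CA * n) →
    100 ≤ n ∧ 1 ≤ d ∧ 64 * d ≤ n ∧ (d : ℝ) ≤ (n : ℝ) ^ (1 / 2 - 1 / 10 : ℝ) ∧
    (n : ℝ) ^ (1 / 10 : ℝ) ≤ lam n d ∧ 64 * (30 * lam n d + 1) ≤ (n : ℝ) * d ∧
    96 * ((n : ℝ) ^ (1 / 10 : ℝ) + 1) ≤ (n : ℝ) * d ∧ 96 * (Real.log n + 1) ≤ (n : ℝ) * d := by
  have t1 : Tendsto (fun n : ℕ => (n : ℝ) ^ (1 / 5 : ℝ)) atTop atTop :=
    (tendsto_rpow_atTop (by norm_num)).comp tendsto_natCast_atTop_atTop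
  have t2 : Tendsto (fun n : ℕ => (n : ℝ)) atTop atTop := tendsto_natCast_atTop_atTop
  have e1 := (tendsto_atTop.1 t1 (CA + 200))
  have e2 := (tendsto_atTop.1 t2 (64 * (30 * CA + 1) + 1000))
  have ev := (e1.and e2).and (eventually_ge_atTop 100)
  obtain ⟨n₀, h0⟩ := eventually_atTop.1 ev
  refine ⟨n₀, fun n hn d hd => ?_⟩
  obtain ⟨⟨h1, h2⟩, h3⟩ := h0 n hn
  obtain ⟨hlo, hhi⟩ := hd
  have hn1 : (1 : ℝ) ≤ n := by
    have : (100 : ℝ) ≤ n := by exact_mod_cast h3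
    linarith
  have hn0 : (0 : ℝ) < n := by linarith
  have hd1 : 1 ≤ d := by
    by_contra hcon
    have : d = 0 := by omega
    subst this
    have h4 : (1 : ℝ) ≤ (n : ℝ) ^ (1 - 1 / 10 : ℝ) := Real.one_le_rpow hn1 (by norm_num)
    norm_num at hlo
    norm_num at h4
    linarith
  have hd1' : (1 : ℝ) ≤ d := by exact_mod_cast hd1
  have hrp : ∀ a : ℝ, 0 < (n : ℝ) ^ a := fun a => Real.rpow_pos_of_pos hn0 a
  have hdle : (d : ℝ) ≤ (n : ℝ) ^ (1 / 2 - 1 / 10 : ℝ) := by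
    have h5 : (d : ℝ) ^ 3 ≤ ((n : ℝ) ^ (1 / 2 - 1 / 10 : ℝ)) ^ 3 := by
      rw [← Real.rpow_natCast ((n : ℝ) ^ (1 / 2 - 1 / 10 : ℝ)), ← Real.rpow_mul hn0.le]
      have : ((1 : ℝ) / 2 - 1 / 10) * ((3 : ℕ) : ℝ) = 1 / 5 + 1 := by norm_num
      rw [this, Real.rpow_add hn0, Real.rpow_one]
      refine hhi.trans (mul_le_mul_of_nonneg_right ?_ hn0.le)
      linarith
    exact le_of_pow_le_pow_left₀ (by norm_num) (hrp _).le h5
  have hdn : 64 * (d : ℝ) ≤ n := by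
    have h6 : (n : ℝ) = (n : ℝ) ^ (1 / 2 - 1 / 10 : ℝ) * ((n : ℝ) ^ (1 / 5 : ℝ)) ^ 3 := by
      rw [← Real.rpow_natCast ((n : ℝ) ^ (1 / 5 : ℝ)), ← Real.rpow_mul hn0.le, ← Real.rpow_add hn0]
      norm_num
    have h7 : (64 : ℝ) ≤ ((n : ℝ) ^ (1 / 5 : ℝ)) ^ 3 := by
      have : (200 : ℝ) ≤ (n : ℝ) ^ (1 / 5 : ℝ) := by linarith
      calc (64 : ℝ) ≤ 200 ^ 3 := by norm_num
        _ ≤ _ := pow_le_pow_left₀ (by norm_num) this 3
    calc 64 * (d : ℝ) = (d : ℝ) * 64 := by ring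
      _ ≤ (n : ℝ) ^ (1 / 2 - 1 / 10 : ℝ) * ((n : ℝ) ^ (1 / 5 : ℝ)) ^ 3 :=
        mul_le_mul hdle h7 (by norm_num) (hrp _).le
      _ = n := h6.symm
  have hlam : (n : ℝ) ^ (1 / 10 : ℝ) ≤ lam n d := by
    unfold lam
    rw [le_div_iff₀ hn0]
    -- d ≥ n^{0.3}
    have h8 : (n : ℝ) ^ (3 / 10 : ℝ) ≤ d := by
      have : ((n : ℝ) ^ (3 / 10 : ℝ)) ^ 3 ≤ (d : ℝ) ^ 3 := by
        rw [← Real.rpow_natCast ((n : ℝ) ^ (3 / 10 : ℝ)), ← Real.rpow_mul hn0.le]
        have e : ((3 : ℝ) / 10) * ((3 : ℕ) : ℝ) = 1 - 1 / 10 := by norm_num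
        rw [e]; exact hlo
      exact le_of_pow_le_pow_left₀ (by norm_num) (by positivity) this
    calc (n : ℝ) ^ (1 / 10 : ℝ) * n = (n : ℝ) ^ (1 / 10 : ℝ) * (n : ℝ) ^ (1 : ℝ) := by rw [Real.rpow_one]
      _ = (n : ℝ) ^ (11 / 10 : ℝ) := by rw [← Real.rpow_add hn0]; norm_num
      _ ≤ (n : ℝ) ^ (12 / 10 : ℝ) := Real.rpow_le_rpow_of_exponent_le hn1 (by norm_num)
      _ = (n : ℝ) ^ (3 / 10 : ℝ) * (n : ℝ) ^ (1 - 1 / 10 : ℝ) := by rw [← Real.rpow_add hn0]; norm_num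
      _ ≤ d * (d : ℝ) ^ 3 := mul_le_mul h8 hlo (hrp _).le (by positivity)
      _ = (d : ℝ) ^ 4 := by ring
  have hn1000 : (1000 : ℝ) ≤ n := by
    have : 0 < 64 * (30 * CA + 1) := by positivity
    linarith
  refine ⟨h3, hd1, by exact_mod_cast hdn, hdle, hlam, ?_, ?_, ?_⟩
  · have h9 : lam n d ≤ CA * d := by
      unfold lam
      rw [div_le_iff₀ hn0]
      calc (d : ℝ) ^ 4 = (d : ℝ) ^ 3 * d := by ring
        _ ≤ CA * n * d := mul_le_mul_of_nonneg_right hhi (by positivity)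
        _ = CA * d * n := by ring
    calc 64 * (30 * lam n d + 1) ≤ 64 * (30 * (CA * d) + d) := by linarith
      _ = 64 * (30 * CA + 1) * d := by ring
      _ ≤ n * d := mul_le_mul_of_nonneg_right (by linarith) (by positivity)
  · have h10 : (n : ℝ) ^ (1 / 10 : ℝ) ≤ (n : ℝ) ^ (1 / 5 : ℝ) :=
      Real.rpow_le_rpow_of_exponent_le hn1 (by norm_num)
    have h11 : (n : ℝ) = ((n : ℝ) ^ (1 / 5 : ℝ)) ^ 5 := by
      rw [← Real.rpow_natCast ((n : ℝ) ^ (1 / 5 : ℝ)), ← Real.rpow_mul hn0.le]; norm_num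
    set y := (n : ℝ) ^ (1 / 5 : ℝ) with hy
    have hy200 : (200 : ℝ) ≤ y := by linarith
    have h12 : 200 * y ≤ (n : ℝ) := by
      rw [h11]
      calc 200 * y ≤ y * y := mul_le_mul_of_nonneg_right hy200 (by linarith)
        _ = y ^ 2 := by ring
        _ ≤ y ^ 5 := pow_le_pow_right₀ (by linarith) (by norm_num)
    calc 96 * ((n : ℝ) ^ (1 / 10 : ℝ) + 1) ≤ 96 * (y + 1) := by linarith
      _ ≤ n := by nlinarith
      _ = n * 1 := by ring
      _ ≤ n * d := mul_le_mul_of_nonneg_left hd1' (by positivity)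
  · have h13 : Real.log n ≤ (n : ℝ) ^ (1 / 10 : ℝ) / (1 / 10) :=
      Real.log_le_rpow_div hn0.le (by norm_num)
    have h10 : ((n : ℝ) ^ (1 / 10 : ℝ)) = ((n : ℝ) ^ (1 / 10 : ℝ)) := rfl
    have h11 : (n : ℝ) = ((n : ℝ) ^ (1 / 10 : ℝ)) ^ 10 := by
      rw [← Real.rpow_natCast ((n : ℝ) ^ (1 / 10 : ℝ)), ← Real.rpow_mul hn0.le]; norm_num
    have h14 : ((n : ℝ) ^ (1 / 5 : ℝ)) = ((n : ℝ) ^ (1 / 10 : ℝ)) ^ 2 := by
      rw [← Real.rpow_natCast ((n : ℝ) ^ (1 / 10 : ℝ)), ← Real.rpow_mul hn0.le]; norm_num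
    set x := (n : ℝ) ^ (1 / 10 : ℝ) with hx
    have hx0 : 0 < x := hrp _
    have hx14 : (14 : ℝ) ≤ x := by
      rw [h14] at h1
      nlinarith
    have h15 : 96 * (10 * x + 1) ≤ (n : ℝ) := by
      rw [h11]
      have : x ^ 10 = x * x ^ 9 := by ring
      have h16 : (14 : ℝ) ^ 9 ≤ x ^ 9 := pow_le_pow_left₀ (by norm_num) hx14 9
      rw [this]
      nlinarith
    have h17 : x / (1 / 10) = 10 * x := by ring
    rw [h17] at h13
    calc 96 * (Real.log n + 1) ≤ 96 * (10 * x + 1) := by linarith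
      _ ≤ n := h15
      _ = n * 1 := by ring
      _ ≤ n * d := mul_le_mul_of_nonneg_left hd1' (by positivity)

end Pool.Agent.RRG.TYPB
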